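import Pool.Statements.S00249
import Pool.Agent.H737R3.Points

set_option autoImplicit false
open Pool Pool.MP_70675a_ag

namespace Pool.Agent.S00249

/-- Over an algebraically closed field of char 0, for n≥1, any nonempty finite set W of points in P^n and r≥1, every nonzero degree-d form vanishing to order rn at all points of W has d ≥ r·α(W) + r(n−1). -/
theorem result :
    ∀ (k : Type) [Field k] [IsAlgClosed k] [CharZero k] (n : ℕ), 1 ≤ n →
    ∀ (W : Finset (Projectivization k (Fin (n+1) → k))), W.Nonempty →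
    ∀ (r : ℕ), 1 ≤ r →
    ∀ (d : ℕ) (f : MvPolynomial (Fin (n+1)) k), f ≠ 0 → f.IsHomogeneous d →
      (∀ P ∈ W, f ∈ (Ideal.span {g : MvPolynomial (Fin (n+1)) k |
          g.IsHomogeneous 1 ∧ MvPolynomial.eval P.rep g = 0}) ^ (r * n)) →
      ∃ (e : ℕ) (g : MvPolynomial (Fin (n+1)) k), g ≠ 0 ∧ g.IsHomogeneous e ∧
        (∀ P ∈ W, g ∈ Ideal.span {h : MvPolynomial (Fin (n+1)) k |
          h.IsHomogeneous 1 ∧ MvPolynomial.eval P.rep h = 0}) ∧
        r * e + r * (n - 1) ≤ d := by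
  intro k _ _ _ n hn W hW r hr d f hf0 hfd hf
  have hl : ∀ P : Projectivization k (Fin (n+1) → k), Pool.Agent.H737R3.ptIdeal P =
      Ideal.span {g : MvPolynomial (Fin (n+1)) k |
          g.IsHomogeneous 1 ∧ MvPolynomial.eval P.rep g = 0} :=
    fun P => Pool.Agent.H737R3.ptIdeal_eq P
  obtain ⟨q, hq⟩ := hW
  have key := Pool.Agent.H737R3.demailly_w hn W (fun _ => 1) ⟨q, hq, le_rfl⟩ 1 (r * n) le_rfl
  have h1 : f ∈ Pool.Agent.H737R3.wIdeal W (fun p => r * n * (fun _ => 1) p) := by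
    rw [Pool.Agent.H737R3.mem_wIdeal]
    intro p hp
    rw [hl, mul_one]
    exact hf p hp
  have h2 := Pool.Agent.H737R3.alpha_wIdeal_le h1 hf0
  rw [hfd.totalDegree hf0] at h2
  obtain ⟨g, hg, hg0, hgd⟩ := Pool.Agent.H737R3.alpha_wIdeal_spec hn W (fun p => 1 * (fun _ => 1) p)
  refine ⟨_, g, hg0, hgd, ?_, ?_⟩
  · intro P hP
    rw [← hl]
    rw [Pool.Agent.H737R3.mem_wIdeal] at hg
    have := hg P hP
    simpa using this
  · set A := Pool.Agent.H737R3.alpha (Pool.Agent.H737R3.wIdeal W (fun p => 1 * (fun _ => 1) p))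
    have h3 : 1 + n - 1 = n := by omega
    rw [h3] at key
    have h4 : r * n * (A + n - 1) ≤ d * n := key.trans (Nat.mul_le_mul_right _ h2)
    have h5 : n * (r * (A + n - 1)) ≤ n * d := by
      calc n * (r * (A + n - 1)) = r * n * (A + n - 1) := by ring
        _ ≤ d * n := h4
        _ = n * d := by ring
    have h6 : r * (A + n - 1) ≤ d := Nat.le_of_mul_le_mul_left h5 (by omega)
    have h7 : A + n - 1 = A + (n - 1) := by omega
    rw [h7, Nat.mul_add] at h6
    exact h6

end Pool.Agent.S00249
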