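import Pool.Statements.S00360
import Pool.Agent.N38.GradeP

set_option autoImplicit false
open Pool Pool.MP_a907e8_ag

namespace Pool.Agent.S00360

open Pool.Agent.H607R3.PS H51R3.PS in
/-- The negation of the preceding statement: For every Noetherian local ring A and nonzero finitely generated A-module M with a finite projective resolution, the maximal length of an A-regular sequence in ann M plus the Krull dimension of A/ann M equals the Krull dimension of A. -/
theorem result :
    ¬ (∀ (A : Type) [CommRing A] [IsLocalRing A] [IsNoetherianRing A]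
      (M : Type) [AddCommGroup M] [Module A M] [Module.Finite A M] [Nontrivial M],
      (∃ P : CategoryTheory.ProjectiveResolution (ModuleCat.of A M), ∃ n : ℕ,
          ∀ i : ℕ, n ≤ i → CategoryTheory.Limits.IsZero (P.complex.X i)) →
      ∀ g : ℕ,
        (∃ rs : List A, rs.length = g ∧ (∀ r ∈ rs, r ∈ Module.annihilator A M) ∧
            RingTheory.Sequence.IsWeaklyRegular A rs) →
        (¬ ∃ rs : List A, rs.length = g + 1 ∧ (∀ r ∈ rs, r ∈ Module.annihilator A M) ∧
            RingTheory.Sequence.IsWeaklyRegular A rs) →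
        (g : WithBot ℕ∞) + ringKrullDim (A ⧸ Module.annihilator A M) = ringKrullDim A) := by
  intro h
  obtain ⟨T, iT, iL, iN, iD, α, β, γ, hB⟩ := Pool.Agent.H291R3.PSB.taskBase
  obtain ⟨hα, hβ, hγ⟩ := mem_max hB
  have hloc : IsLocalRing (RR T α β γ) :=
    Pool.Agent.H607R3.PS.taskLoc T α β γ hα hβ hγ
  have hloc2 : IsLocalRing (RP T α β γ) := local_RP
  have hnt : Nontrivial (RP T α β γ ⧸ cP T α β γ) :=
    Ideal.Quotient.nontrivial_iff.2 (cP_ne_top hα hβ hγ)
  have hfin : FinRes (RP T α β γ) (RP T α β γ ⧸ cP T α β γ) :=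
    finRes_RP Pool.Agent.H607R3.PS.taskRes Pool.Agent.H607R3.PS.taskRegP hγ hB.reg
  have hann : Module.annihilator (RP T α β γ) (RP T α β γ ⧸ cP T α β γ) = cP T α β γ :=
    Ideal.annihilator_quotient
  have h2 := h (RP T α β γ) (RP T α β γ ⧸ cP T α β γ) hfin
  rw [hann] at h2
  have h3 := Pool.Agent.N38.GradeP.taskGradeP T α β γ hB
  have h4 := Pool.Agent.N38.GradeP.taskDimP T α β γ hB
  classical
  have hex : ∃ g : ℕ, ¬ ∃ rs : List (RP T α β γ), rs.length = g + 1 ∧
      (∀ r ∈ rs, r ∈ cP T α β γ) ∧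
      RingTheory.Sequence.IsWeaklyRegular (RP T α β γ) rs := ⟨2, h3⟩
  have h5 := Nat.find_spec hex
  have h6 : Nat.find hex ≤ 2 := Nat.find_min' hex h3
  have h7 : ∃ rs : List (RP T α β γ), rs.length = Nat.find hex ∧
      (∀ r ∈ rs, r ∈ cP T α β γ) ∧
      RingTheory.Sequence.IsWeaklyRegular (RP T α β γ) rs := by
    rcases Nat.eq_zero_or_pos (Nat.find hex) with h0 | h0
    · exact ⟨[], by rw [h0]; rfl, by simp, RingTheory.Sequence.IsWeaklyRegular.nil _ _⟩
    · have h8 := Nat.find_min hex (m := Nat.find hex - 1) (by omega)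
      rw [not_not, Nat.sub_add_cancel h0] at h8
      exact h8
  have h8 := h2 (Nat.find hex) h7 h5
  have h9 : ((Nat.find hex : ℕ) : WithBot ℕ∞) ≤ 2 := by exact_mod_cast h6
  have h10 : ringKrullDim (RP T α β γ) < ringKrullDim (RP T α β γ) := by
    calc ringKrullDim (RP T α β γ) = _ := h8.symm
      _ ≤ 2 + ringKrullDim (RP T α β γ ⧸ cP T α β γ) := add_le_add h9 le_rfl
      _ < _ := h4
  exact lt_irrefl _ h10

end Pool.Agent.S00360
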