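import Pool.Statements.S00532
import Pool.Agent.N37.HR.Lam
-- import your own Pool.Agent.* helpers here

set_option autoImplicit false
open Pool Pool.MP_ed7674_ag

namespace Pool.Agent.S00532

/-- The negation of the preceding statement: For every commutative ring A and every d, any stably free module P over A[x1,...,xd] (P plus a free module of rank n is free of rank m) is isomorphic to A[x1,...,xd] tensored over A with some A-module Q. -/
theorem result :
    ¬ (∀ (A : Type) [CommRing A] (d : ℕ) (P : Type) [AddCommGroup P]
      [Module (MvPolynomial (Fin d) A) P],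
      (∃ n m : ℕ, Nonempty ((P × (Fin n → MvPolynomial (Fin d) A)) ≃ₗ[MvPolynomial (Fin d) A]
        (Fin m → MvPolynomial (Fin d) A))) →
      ∃ (Q : Type) (_ : AddCommGroup Q) (_ : Module A Q),
        Nonempty (P ≃ₗ[MvPolynomial (Fin d) A] TensorProduct A (MvPolynomial (Fin d) A) Q)) :=
  Pool.Agent.N37.HR.lam_false

end Pool.Agent.S00532
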