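import Pool.Statements.S00541
import Pool.Agent.H737R3.Points

set_option autoImplicit false
open Pool Pool.MP_ef83ea_ag

namespace Pool.Agent.S00541

/-- For any nonempty finite set of points in complex projective N-space (N at least 1) with ideal I, every m ≥ 1 satisfies alpha(I^(m))/m ≥ (alpha(I^(3)) + N - 1)/(N + 2), i.e. the Waldschmidt constant is at least that bound. -/
theorem result :
    ∀ (N : ℕ), 1 ≤ N → ∀ S : Finset (Fin (N + 1) → ℂ), S.Nonempty → (∀ p ∈ S, p ≠ 0) →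
      ∀ m : ℕ, 1 ≤ m →
        (((sInf {d : ℕ | ∃ f ∈ (⨅ p ∈ S,
              (Ideal.span (Set.range (fun ij : Fin (N + 1) × Fin (N + 1) =>
                (MvPolynomial.X ij.1 * MvPolynomial.C (p ij.2)
                  - MvPolynomial.X ij.2 * MvPolynomial.C (p ij.1) :
                  MvPolynomial (Fin (N + 1)) ℂ)))) ^ 3),
              f ≠ 0 ∧ f.totalDegree = d} : ℕ) : ℝ) + (N : ℝ) - 1) / ((N : ℝ) + 2)
          ≤ ((sInf {d : ℕ | ∃ f ∈ (⨅ p ∈ S,
              (Ideal.span (Set.range (fun ij : Fin (N + 1) × Fin (N + 1) =>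
                (MvPolynomial.X ij.1 * MvPolynomial.C (p ij.2)
                  - MvPolynomial.X ij.2 * MvPolynomial.C (p ij.1) :
                  MvPolynomial (Fin (N + 1)) ℂ)))) ^ m),
              f ≠ 0 ∧ f.totalDegree = d} : ℕ) : ℝ) / (m : ℝ) := by
  classical
  intro N hN S hS hS0 m hm
  have hlin : ∀ r : ℕ, (⨅ p ∈ S, (Ideal.span (Set.range (fun ij : Fin (N + 1) × Fin (N + 1) =>
                (MvPolynomial.X ij.1 * MvPolynomial.C (p ij.2)
                  - MvPolynomial.X ij.2 * MvPolynomial.C (p ij.1) :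
                  MvPolynomial (Fin (N + 1)) ℂ)))) ^ r) =
      ⨅ p ∈ S, Pool.Agent.H737R3.linI p ^ r := by
    intro r
    refine iInf_congr fun p => iInf_congr fun hp => ?_
    rw [Pool.Agent.H737R3.span_eq_linI (hS0 p hp)]
  rw [hlin, hlin]
  set A : ℕ → ℕ := fun r => sInf {d : ℕ | ∃ f ∈ (⨅ p ∈ S, Pool.Agent.H737R3.linI p ^ r :
    Ideal (MvPolynomial (Fin (N + 1)) ℂ)), f ≠ 0 ∧ f.totalDegree = d} with hA
  have hmem : ∀ (r : ℕ) (f : MvPolynomial (Fin (N + 1)) ℂ),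
      f ∈ (⨅ p ∈ S, Pool.Agent.H737R3.linI p ^ r : Ideal (MvPolynomial (Fin (N + 1)) ℂ)) ↔
        ∀ p ∈ S, f ∈ Pool.Agent.H737R3.linI p ^ r := by
    intro r f
    simp only [Submodule.mem_iInf]
  -- a form of least degree
  have hform : ∀ r : ℕ, ∃ f : MvPolynomial (Fin (N + 1)) ℂ, f ≠ 0 ∧ f.IsHomogeneous (A r) ∧
      ∀ p ∈ S, f ∈ Pool.Agent.H737R3.linI p ^ r := by
    intro r
    have hne : {d : ℕ | ∃ f ∈ (⨅ p ∈ S, Pool.Agent.H737R3.linI p ^ r :
        Ideal (MvPolynomial (Fin (N + 1)) ℂ)), f ≠ 0 ∧ f.totalDegree = d}.Nonempty := by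
      obtain ⟨f, hf, hf0⟩ := Pool.Agent.H737R3.exists_mem_iInf hN S hS0 (fun _ => r)
      exact ⟨_, f, hf, hf0, rfl⟩
    obtain ⟨f, hf, hf0, hfd⟩ := Nat.sInf_mem hne
    rw [hmem] at hf
    refine ⟨MvPolynomial.homogeneousComponent f.totalDegree f,
      Pool.Agent.H737R3.top_component hf0, ?_, fun p hp =>
        Pool.Agent.H737R3.component_mem p r (hf p hp) _⟩
    have := MvPolynomial.homogeneousComponent_isHomogeneous f.totalDegree f
    rwa [hfd] at this ⊢
  have hle : ∀ (r d : ℕ) (f : MvPolynomial (Fin (N + 1)) ℂ), f ≠ 0 → f.IsHomogeneous d →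
      (∀ p ∈ S, f ∈ Pool.Agent.H737R3.linI p ^ r) → A r ≤ d := by
    intro r d f hf0 hfd hf
    exact Nat.sInf_le ⟨f, (hmem r f).2 hf, hf0, hfd.totalDegree hf0⟩
  obtain ⟨F, hF0, hFd, hFv⟩ := hform m
  obtain ⟨q, hq⟩ := hS
  have key := Pool.Agent.H737R3.demailly_fat ℂ N 3 (A 3) m (A m) (S : Set (Fin (N + 1) → ℂ))
    (fun _ => 1) F hN (by norm_num) S.finite_toSet ⟨q, hq, le_rfl⟩ (fun v hv => hS0 v hv)
    (by
      intro G d hG0 hG hGv
      refine hle 3 d G hG0 hG fun p hp => ?_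
      have := hGv p hp
      exact Pool.Agent.H737R3.mem_linI_pow hG (hS0 p hp) this)
    hF0 hFd (fun v hv => by
      rw [mul_one]
      exact Ideal.pow_right_mono (Pool.Agent.H737R3.linI_le_mI v) m (hFv v hv))
  have h1 := Pool.Agent.H737R3.real_of_nat hN (by norm_num : 1 ≤ 3) hm key
  have h2 : ((3 : ℕ) : ℝ) + N - 1 = (N : ℝ) + 2 := by push_cast; ring
  rw [h2] at h1
  exact h1

end Pool.Agent.S00541
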