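import Pool.Statements.S00566
import Pool.Agent.Results.MP_fa7d23_ag.NefNotB

set_option autoImplicit false
open Pool Pool.MP_fa7d23_ag

namespace Pool.Agent.S00566

open MvPolynomial Pool.Agent.Results.MP_fa7d23_ag.NefNotB

variable {k : Type} [Field k]

/-- Nefness of `4H - ∑ Eᵢ` against all multiplicity vectors (not only the exact one). -/
theorem nef_all {t : Fin 12 → k} {u : Fin 3 → k}
    (hinj : Function.Injective (Fin.append t u : Fin (12 + 3) → k)) (n : ℕ)
    (F : MvPolynomial (Fin 3) k) (hF : F.IsHomogeneous n) (hirr : Irreducible F)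
    (c : Fin 15 → ℕ) (hc : ∀ i, F ∈ pointIdeal (cfg t u i) ^ c i) :
    ∑ i, 1 * c i ≤ 4 * n := by
  have hF0 : F ≠ 0 := hirr.ne_zero
  by_cases hd : Q4 ∣ F
  · have hassoc : Associated (Q4 : MvPolynomial (Fin 3) k) F :=
      Q4_prime.irreducible.associated_of_dvd hirr hd
    obtain ⟨v, hv⟩ := hassoc
    have hvu := v.isUnit
    rw [MvPolynomial.isUnit_iff_totalDegree_of_isReduced] at hvu
    have hvC : (v : MvPolynomial (Fin 3) k) = C (coeff 0 (v : MvPolynomial (Fin 3) k)) :=
      totalDegree_eq_zero_iff_eq_C.1 hvu.2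
    have ha : coeff 0 (v : MvPolynomial (Fin 3) k) ≠ 0 := hvu.1.ne_zero
    have hFe : F = C (coeff 0 (v : MvPolynomial (Fin 3) k)) * Q4 := by
      rw [← hv, mul_comm, ← hvC]
    have hn : n = 4 := by
      have h2 : F.IsHomogeneous 4 := by
        rw [hFe]; exact Q4_hom.C_mul _
      exact hF.inj_right h2 hF0
    have hc1 : ∀ i, c i ≤ 1 := by
      intro i
      have := hc i
      rw [hFe] at this
      exact le_one_of_mem ha this
    have : ∑ i, 1 * c i ≤ ∑ _i : Fin 15, 1 :=
      Finset.sum_le_sum fun i _ => by rw [one_mul]; exact hc1 i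
    simp only [Finset.sum_const, Finset.card_univ, Fintype.card_fin, smul_eq_mul, mul_one] at this
    omega
  · have hp0 : par F ≠ 0 := fun h => hd (Q4_dvd_of_par hF h)
    have hdvd : (∏ i, (Polynomial.X -
        Polynomial.C ((Fin.append t u : Fin (12 + 3) → k) i)) ^ (c i)) ∣ par F := by
      apply Finset.prod_dvd_of_coprime
      · intro i _ j _ hij
        exact (Polynomial.pairwise_coprime_X_sub_C hinj hij).pow
      · intro i _
        exact par_mem _ (hc i)
    have h1 := Polynomial.natDegree_le_of_dvd hdvd hp0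
    have h2 : (∏ i, (Polynomial.X -
        Polynomial.C ((Fin.append t u : Fin (12 + 3) → k) i)) ^ (c i)).natDegree = ∑ i, c i := by
      rw [Polynomial.natDegree_prod_of_monic]
      · apply Finset.sum_congr rfl
        intro i _
        rw [Polynomial.natDegree_pow, Polynomial.natDegree_X_sub_C, mul_one]
      · intro i _
        exact (Polynomial.monic_X_sub_C _).pow _
    have h3 := par_deg hF
    rw [h2] at h1
    simp only [one_mul]
    exact h1.trans h3

theorem inter_even (r : ℕ) (e : ℤ) (γ : Fin r → ℤ) :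
    Even (e ^ 2 - ∑ i, (γ i) ^ 2 - 3 * e + ∑ i, γ i) := by
  have h1 : Even (∑ i, ((γ i) ^ 2 - γ i)) := by
    apply Finset.even_sum
    intro i _
    rw [sq, ← mul_sub_one]
    exact Int.even_mul_pred_self _
  have h2 : Even (e ^ 2 - e) := by
    rw [sq, ← mul_sub_one]
    exact Int.even_mul_pred_self _
  have h3 : e ^ 2 - ∑ i, (γ i) ^ 2 - 3 * e + ∑ i, γ i =
      (e ^ 2 - e) - 2 * e - ∑ i, ((γ i) ^ 2 - γ i) := by
    rw [Finset.sum_sub_distrib]; ring
  rw [h3]
  exact (h2.sub (even_two_mul _)).sub h1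

/-- The negation of the preceding statement: For any r≥1 distinct points of the plane over an algebraically closed field and any effective nef L on the blow-up failing (B), some multiple mL has h^0(mL) equal to its Riemann–Roch value, i.e. h^1(mL)=0. -/
theorem result :
    ¬ (∀ (k : Type) [Field k] [IsAlgClosed k] (r : ℕ), 1 ≤ r →
  ∀ (p : Fin r → Fin 3 → k),
    (∀ i, p i ≠ 0) →
    (∀ i j, i ≠ j → ∀ c : k, p i ≠ c • p j) →
  ∀ (d : ℕ) (a : Fin r → ℕ),
    (∃ f : MvPolynomial (Fin 3) k, f ≠ 0 ∧ f.IsHomogeneous d ∧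
        ∀ i, f ∈ (Ideal.span (Set.range fun ab : Fin 3 × Fin 3 =>
            MvPolynomial.C (p i ab.1) * MvPolynomial.X ab.2
              - MvPolynomial.C (p i ab.2) * MvPolynomial.X ab.1) :
              Ideal (MvPolynomial (Fin 3) k)) ^ a i) →
    (∀ (e : ℕ) (g : MvPolynomial (Fin 3) k), g.IsHomogeneous e → Irreducible g →
        ∀ μ : Fin r → ℕ,
          (∀ i, g ∈ (Ideal.span (Set.range fun ab : Fin 3 × Fin 3 =>
            MvPolynomial.C (p i ab.1) * MvPolynomial.X ab.2
              - MvPolynomial.C (p i ab.2) * MvPolynomial.X ab.1) :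
              Ideal (MvPolynomial (Fin 3) k)) ^ μ i) →
          ∑ i, a i * μ i ≤ d * e) →
    (¬ ∃ (e : ℕ) (γ : Fin r → ℤ), (e ≠ 0 ∨ γ ≠ 0) ∧
        (∃ f : MvPolynomial (Fin 3) k, f ≠ 0 ∧ f.IsHomogeneous e ∧
          ∀ i, f ∈ (Ideal.span (Set.range fun ab : Fin 3 × Fin 3 =>
            MvPolynomial.C (p i ab.1) * MvPolynomial.X ab.2
              - MvPolynomial.C (p i ab.2) * MvPolynomial.X ab.1) :
              Ideal (MvPolynomial (Fin 3) k)) ^ (γ i).toNat) ∧
        e ≤ d ∧
        (∃ f : MvPolynomial (Fin 3) k, f ≠ 0 ∧ f.IsHomogeneous (d - e) ∧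
          ∀ i, f ∈ (Ideal.span (Set.range fun ab : Fin 3 × Fin 3 =>
            MvPolynomial.C (p i ab.1) * MvPolynomial.X ab.2
              - MvPolynomial.C (p i ab.2) * MvPolynomial.X ab.1) :
              Ideal (MvPolynomial (Fin 3) k)) ^ ((a i : ℤ) - γ i).toNat) ∧
        (e : ℤ) ^ 2 - ∑ i, (γ i) ^ 2 - 3 * (e : ℤ) + ∑ i, γ i > -2 ∧
        (d : ℤ) * (e : ℤ) - ∑ i, (a i : ℤ) * γ i = 0) →
    ∃ m : ℕ, 1 ≤ m ∧
      2 * (Module.finrank k
        ↥(MvPolynomial.homogeneousSubmodule (Fin 3) k (m * d) ⊓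
          ⨅ i, Submodule.restrictScalars k
            ((Ideal.span (Set.range fun ab : Fin 3 × Fin 3 =>
              MvPolynomial.C (p i ab.1) * MvPolynomial.X ab.2
                - MvPolynomial.C (p i ab.2) * MvPolynomial.X ab.1) :
                Ideal (MvPolynomial (Fin 3) k)) ^ (m * a i))) : ℤ)
        = 2 + ((m * d : ℕ) : ℤ) ^ 2 - ∑ i, ((m * a i : ℕ) : ℤ) ^ 2
            + 3 * ((m * d : ℕ) : ℤ) - ∑ i, ((m * a i : ℕ) : ℤ)) := by
  intro H
  obtain ⟨b, t, u, hP, hinj, hu⟩ := exists_config ℂ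
  have hd := cfg_distinct (k := ℂ) hinj
  obtain ⟨m, hm, hfr⟩ := H ℂ 15 (by norm_num) (cfg t u) hd.1 hd.2 4 (fun _ => 1)
    ⟨Q4, Q4_ne_zero, Q4_hom, fun i => by
      have h1 : (Q4 : MvPolynomial (Fin 3) ℂ) ∈ pointIdeal (cfg t u i) ^ 1 := by
        simpa [cfg] using Q4_mem _
      exact h1⟩
    (fun e g hg hirr μ hμ => nef_all hinj e g hg hirr μ hμ)
    (by
      rintro ⟨e, γ, hne, ⟨f, hf0, hf, hfm⟩, he, ⟨f', hf0', hf', hfm'⟩, hpa, hint⟩
      refine cfg_notB hP hinj hu ⟨((e : ℤ), γ), ?_, ?_, ?_, ?_, ?_⟩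
      · intro h0
        rcases hne with h | h
        · apply h
          have := congrArg Prod.fst h0
          simpa using this
        · apply h
          have := congrArg Prod.snd h0
          simpa using this
      · intro hbot
        have h1 : f ∈ H0 (cfg t u) ((e : ℤ), γ) := by
          rw [mem_H0 _ _ _ hf0]
          exact ⟨by simp, by simpa using hf, hfm⟩
        rw [hbot, Submodule.mem_bot] at h1
        exact hf0 h1
      · intro hbot
        have h1 : f' ∈ H0 (cfg t u) (((4 : ℤ), fun _ => (1 : ℤ)) - ((e : ℤ), γ)) := by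
          rw [mem_H0 _ _ _ hf0']
          refine ⟨?_, ?_, ?_⟩
          · simp only [Prod.fst_sub]
            omega
          · simp only [Prod.fst_sub]
            have h2 : ((4 : ℤ) - (e : ℤ)).toNat = 4 - e := by omega
            rw [h2]
            exact hf'
          · intro i
            have h2 := hfm' i
            simp only [Nat.cast_one] at h2
            exact h2
        rw [hbot, Submodule.mem_bot] at h1
        exact hf0' h1
      · have hev := inter_even 15 (e : ℤ) γ
        have h2 : inter ((e : ℤ), γ) ((e : ℤ), γ) + inter (canon 15) ((e : ℤ), γ) =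
            (e : ℤ) ^ 2 - ∑ i, (γ i) ^ 2 - 3 * (e : ℤ) + ∑ i, γ i := by
          simp only [inter, canon, sq, neg_mul, one_mul, Finset.sum_neg_distrib]
          ring
        rw [pa, h2]
        obtain ⟨z, hz⟩ := hev
        rw [hz] at hpa ⊢
        omega
      · simp only [inter, one_mul]
        simpa using hint)
  obtain ⟨n, rfl⟩ : ∃ n, m = n + 1 := ⟨m - 1, by omega⟩
  have hpos := cfg_h1 (u := u) hP n
  have h2 := H0_coe (cfg t u) (4 * (n + 1)) (fun _ => n + 1)
  have hch := two_chi n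
  have e0 : h0 (cfg t u) (canon 15 - (((4 * (n + 1) : ℕ) : ℤ), fun _ => ((n + 1 : ℕ) : ℤ))) = 0 := by
    unfold h0 H0
    have : ¬ (0 : ℤ) ≤ (canon 15 - (((4 * (n + 1) : ℕ) : ℤ), fun _ => ((n + 1 : ℕ) : ℤ))).1 := by
      simp [canon]; omega
    rw [if_neg this]
    simp
  have e1 : (Module.finrank ℂ
        ↥(MvPolynomial.homogeneousSubmodule (Fin 3) ℂ ((n + 1) * 4) ⊓
          ⨅ i, Submodule.restrictScalars ℂ
            ((Ideal.span (Set.range fun ab : Fin 3 × Fin 3 =>
              MvPolynomial.C (cfg t u i ab.1) * MvPolynomial.X ab.2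
                - MvPolynomial.C (cfg t u i ab.2) * MvPolynomial.X ab.1) :
                Ideal (MvPolynomial (Fin 3) ℂ)) ^ ((n + 1) * 1))) : ℤ) =
      h0 (cfg t u) (((4 * (n + 1) : ℕ) : ℤ), fun _ => ((n + 1 : ℕ) : ℤ)) := by
    unfold h0
    rw [h2, mul_comm (n + 1) 4, mul_one]
    rfl
  rw [e1] at hfr
  unfold h1 at hpos
  rw [e0] at hpos
  generalize h0 (cfg t u) (((4 * (n + 1) : ℕ) : ℤ), fun _ => ((n + 1 : ℕ) : ℤ)) = A at hfr hpos
  generalize chi (((4 * (n + 1) : ℕ) : ℤ), fun _ : Fin 15 => ((n + 1 : ℕ) : ℤ)) = B at hch hpos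
  simp only [Finset.sum_const, Finset.card_univ, Fintype.card_fin, nsmul_eq_mul] at hfr
  push_cast at hfr hch

  nlinarith

end Pool.Agent.S00566
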