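import Pool.Statements.S00608
import Pool.Agent.N14.TwoN.Final

set_option autoImplicit false
open Pool Pool.MP_041d78_al

namespace Pool.Agent.S00608

/-- The negation of the preceding statement: For every n ≥ 1, every n×n sign pattern that is spectrally arbitrary (each monic real degree-n polynomial is the characteristic polynomial of a matrix in its class) has at least 2n − c + 1 nonzero entries, where c is its number of strong components. -/
theorem result :
    ¬ (∀ (n : ℕ), 1 ≤ n → ∀ (S : Matrix (Fin n) (Fin n) SignType),
      (∀ p : Polynomial ℝ, p.Monic → p.natDegree = n →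
        ∃ A : Matrix (Fin n) (Fin n) ℝ,
          (∀ i j, SignType.sign (A i j) = S i j) ∧ A.charpoly = p) →
      2 * n - Set.ncard (Set.range (fun i : Fin n =>
          {j : Fin n | Relation.ReflTransGen (fun a b : Fin n => S a b ≠ 0) i j ∧
                       Relation.ReflTransGen (fun a b : Fin n => S a b ≠ 0) j i})) + 1
        ≤ Set.ncard {p : Fin n × Fin n | S p.1 p.2 ≠ 0}) := by
  intro h
  have h1 := h 83 (by norm_num) Pool.Agent.N14.TwoN.S
    (fun p hp hd => Pool.Agent.N14.TwoN.realise_all p hp hd)
  rw [Pool.Agent.N14.TwoN.A2.comp_ncard, Pool.Agent.N14.TwoN.A2.S_ncard] at h1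
  omega

end Pool.Agent.S00608
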