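import Pool.Statements.S00609
import Pool.Agent.N49.Tseq

set_option autoImplicit false
open Pool Pool.MP_042d8e_al

namespace Pool.Agent.S00609

open Pool.Agent.N49.Tseq in
/-- There is a branch group (faithful, level-transitive on a locally finite rooted tree, finite-index rigid level stabilizers) with infinitely many pairwise inequivalent descending sequences of finite-index normal subgroups with trivial intersection. -/
theorem result :
    ∃ (G : Type) (_ : Group G) (V : Type) (_ : MulAction G V) (lev : V → ℕ) (par : V → V),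
      (∀ v w : V, lev v = 0 → lev w = 0 → v = w) ∧
      (∃ v : V, lev v = 0) ∧
      (∀ w : V, lev w = 0 → par w = w) ∧
      (∀ w : V, lev w ≠ 0 → lev (par w) + 1 = lev w) ∧
      (∀ n : ℕ, {v : V | lev v = n}.Finite) ∧
      (∀ v : V, ∃ w₁ w₂ : V, w₁ ≠ w₂ ∧ par w₁ = v ∧ par w₂ = v ∧
          lev w₁ = lev v + 1 ∧ lev w₂ = lev v + 1) ∧
      (∀ (g : G) (w : V), lev (g • w) = lev w ∧ par (g • w) = g • par w) ∧
      (∀ g : G, (∀ v : V, g • v = v) → g = 1) ∧
      (∀ v w : V, lev v = lev w → ∃ g : G, g • v = w) ∧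
      (∀ n : ℕ, (Subgroup.closure {g : G | ∃ v : V, lev v = n ∧
          ∀ w : V, (∀ k : ℕ, par^[k] w ≠ v) → g • w = w}).FiniteIndex) ∧
      ∃ M : ℕ → ℕ → Subgroup G,
        (∀ a : ℕ, Antitone (M a) ∧ (∀ i : ℕ, (M a i).Normal ∧ (M a i).FiniteIndex) ∧
            (⨅ i : ℕ, M a i) = ⊥) ∧
        (∀ a b : ℕ, a ≠ b →
            ¬ ((∀ i : ℕ, ∃ j : ℕ, M b j ≤ M a i) ∧ (∀ i : ℕ, ∃ j : ℕ, M a j ≤ M b i))) := by
  refine ⟨FinAut, inferInstance, List Bool, inferInstance, List.length, List.tail,
    ?_, ⟨[], rfl⟩, ?_, ?_, ?_, ?_, ?_, ?_, ?_, ?_, Pool.Agent.N49.Tseq.M, ?_, ?_⟩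
  · intro v w hv hw
    rw [List.length_eq_zero_iff.mp hv, List.length_eq_zero_iff.mp hw]
  · intro w hw
    rw [List.length_eq_zero_iff.mp hw]; rfl
  · intro w hw
    rw [List.length_tail]; omega
  · intro n
    exact List.finite_length_eq Bool n
  · intro v
    exact ⟨false :: v, true :: v, by simp, rfl, rfl, by simp, by simp⟩
  · intro g w
    exact ⟨len g w, tl g w⟩
  · intro g hg
    apply Subtype.ext
    apply Equiv.ext
    intro w
    exact hg w
  · intro v w h
    exact transitive v w h
  · intro n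
    have h1 : St n ≤ Subgroup.closure {g : FinAut | ∃ v : List Bool, v.length = n ∧
          ∀ w : List Bool, (∀ k : ℕ, List.tail^[k] w ≠ v) → g • w = w} := by
      intro g hg
      refine (Subgroup.closure_mono ?_) (mem_closure_flip n _ g hg rfl)
      rintro _ ⟨w, hw, rfl⟩
      refine ⟨List.tail^[w.length - n] w, ?_, ?_⟩
      · rw [tail_iter_length]; omega
      · intro u hu
        apply flipFun_of_not_below
        intro k hk
        apply hu (k + (w.length - n))
        rw [Nat.add_comm, Function.iterate_add_apply, hk]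
    have := St_finiteIndex n
    exact Subgroup.finiteIndex_of_le h1
  · intro a
    refine ⟨?_, ?_, ?_⟩
    · intro i j hij
      exact inf_le_inf_right _ (St_anti hij)
    · intro i
      have h1 := St_normal i
      have h2 := St_finiteIndex i
      have h3 : (phi (lev a)).ker.FiniteIndex := inferInstance
      exact ⟨inferInstanceAs (St i ⊓ (phi (lev a)).ker).Normal,
        inferInstanceAs (St i ⊓ (phi (lev a)).ker).FiniteIndex⟩
    · rw [eq_bot_iff]
      intro g hg
      rw [Subgroup.mem_bot]
      apply Subtype.ext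
      apply Equiv.ext
      intro w
      exact ((Subgroup.mem_iInf.mp hg) w.length).1 w le_rfl
  · intro a b hab h
    obtain ⟨j, hj⟩ := h.1 0
    exact M_not_le a b j hab hj

end Pool.Agent.S00609
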