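import Pool.Statements.S00640
import Pool.Agent.N37.HR.Final
-- import your own Pool.Agent.* helpers here

set_option autoImplicit false
open Pool Pool.MP_062089_al

namespace Pool.Agent.S00640

/-- The negation of the preceding statement: For every commutative ring A, if every module M with M ⊕ Aⁿ ≅ Aᵐ for some n, m is free over A, then every module N with N ⊕ A[X]ⁿ ≅ A[X]ᵐ is free over A[X]. -/
theorem result :
    ¬ (∀ (A : Type) [CommRing A],
      (∀ (M : Type) [AddCommGroup M] [Module A M],
        (∃ n m : ℕ, Nonempty ((M × (Fin n → A)) ≃ₗ[A] (Fin m → A))) →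
          Module.Free A M) →
      ∀ (M : Type) [AddCommGroup M] [Module (Polynomial A) M],
        (∃ n m : ℕ, Nonempty ((M × (Fin n → Polynomial A)) ≃ₗ[Polynomial A]
            (Fin m → Polynomial A))) →
          Module.Free (Polynomial A) M) := by
  intro H
  exact Pool.Agent.N37.HR.hermite_false H

end Pool.Agent.S00640
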