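import Pool.Statements.S00830
import Pool.Agent.N111.Schmidt

set_option autoImplicit false
open Pool Pool.MP_196888_al

namespace Pool.Agent.S00830

open Pool.Agent.N111.Schmidt

lemma mem_range {G : Type} [Group G] {n : ℕ} (i : Fin n) (x : Fin n → G) :
    x ∈ (MonoidHom.mulSingle (fun _ : Fin n => G) i).range ↔ ∀ j, j ≠ i → x j = 1 := by
  constructor
  · rintro ⟨y, rfl⟩ j hj
    simp [MonoidHom.mulSingle_apply, Pi.mulSingle_eq_of_ne hj]
  · intro h
    refine ⟨x i, ?_⟩
    funext j
    by_cases hj : j = i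
    · subst hj; simp [MonoidHom.mulSingle_apply]
    · rw [h j hj, MonoidHom.mulSingle_apply, Pi.mulSingle_eq_of_ne hj]

/-- The unit `6` modulo `25`. -/
def r6 : (ZMod 25)ˣ := ⟨6, 21, by decide, by decide⟩

lemma r6_pow : r6 ^ 5 = 1 := by decide

lemma proj_range {n : ℕ} (i : Fin n) :
    proj r6_pow (MonoidHom.mulSingle (fun _ : Fin n => Grp r6) i).range =
      (MonoidHom.mulSingle (fun _ : Fin n => Grp (r6 ^ 2)) i).range := by
  ext x
  rw [mem_range]
  show (fun j => g (x j)) ∈ (MonoidHom.mulSingle (fun _ : Fin n => Grp r6) i).range ↔ _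
  rw [mem_range]
  have hf1 : f (1 : Grp r6) = 1 := by ext <;> simp
  have hg1 : g (1 : Grp (r6 ^ 2)) = 1 := by rw [← hf1, g_f r6_pow]
  constructor
  · intro h j hj
    have := congrArg f (h j hj)
    simpa only [f_g r6_pow, hf1] using this
  · intro h j hj
    rw [h j hj, hg1]

lemma z_pow {r : (ZMod 25)ˣ} (x : Grp r) (n : ℕ) : (x ^ n).z = n * x.z := by
  induction n with
  | zero => simp
  | succ n ih => rw [pow_succ, mul_z, ih]; push_cast; ring

lemma tz_pow {r : (ZMod 25)ˣ} (a : ZMod 25) (n : ℕ) :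
    ((⟨a, 0⟩ : Grp r) ^ n) = ⟨n * a, 0⟩ := by
  induction n with
  | zero => simp; rfl
  | succ n ih =>
    rw [pow_succ, ih]
    ext
    · simp [ac_zero]; ring
    · simp

/-- The two groups are not isomorphic. -/
lemma not_iso (e : Grp (r6 ^ 2) ≃* Grp r6) : False := by
  obtain ⟨t, ht⟩ : ∃ t : Grp (r6 ^ 2), t = ⟨1, 0⟩ := ⟨_, rfl⟩
  obtain ⟨y, hy⟩ : ∃ y : Grp (r6 ^ 2), y = ⟨0, 1⟩ := ⟨_, rfl⟩
  -- torsion elements have `z = 0`
  have hz : ∀ a : ZMod 25, (e ⟨a, 0⟩).z = 0 := by
    intro a
    have h1 : (⟨a, 0⟩ : Grp (r6 ^ 2)) ^ 25 = 1 := by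
      rw [tz_pow]
      ext
      · show ((25 : ℕ) : ZMod 25) * a = 0
        rw [ZMod.natCast_self, zero_mul]
      · rfl
    have h2 : (e ⟨a, 0⟩) ^ 25 = 1 := by rw [← map_pow, h1, map_one]
    have h3 := congrArg Grp.z h2
    rw [z_pow] at h3
    simpa using h3
  have ht0 : (e t).z = 0 := by rw [ht]; exact hz 1
  -- `e y` has `z = 1` or `z = -1`
  have hy1 : (e y).z = 1 ∨ (e y).z = -1 := by
    obtain ⟨x, hx⟩ := e.surjective ⟨0, 1⟩
    have hxy : x = (⟨x.a, 0⟩ : Grp (r6 ^ 2)) * y ^ x.z := by
      have hyz : ∀ k : ℤ, y ^ k = ⟨0, k⟩ := by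
        intro k
        induction k using Int.induction_on with
        | zero => rfl
        | succ n ih => rw [zpow_add_one, ih, hy]; ext <;> simp
        | pred n ih => rw [zpow_sub_one, ih, hy]; ext <;> simp; ring
      rw [hyz]
      ext <;> simp
    have hzz : ∀ k : ℤ, ((e y) ^ k).z = k * (e y).z := by
      intro k
      induction k using Int.induction_on with
      | zero => simp
      | succ n ih => rw [zpow_add_one, mul_z, ih]; ring
      | pred n ih => rw [zpow_sub_one, mul_z, ih, inv_z]; ring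
    have h := congrArg (fun w => (e w).z) hxy
    simp only [map_mul, map_zpow, mul_z, hzz, hz, zero_add, hx] at h
    have h' : (1 : ℤ) = x.z * (e y).z := h
    exact Int.eq_one_or_neg_one_of_mul_eq_one (by rw [mul_comm]; exact h'.symm)
  -- conjugation
  have hc : y * t = t ^ 11 * y := by
    rw [ht, tz_pow, hy]
    ext
    · simp [ac_zero, ac, r6]
      decide
    · simp
  have hc' : e y * e t = (e t) ^ 11 * e y := by
    rw [← map_mul, hc, map_mul, map_pow]
  have het : e t = ⟨(e t).a, 0⟩ := by ext; rfl; exact ht0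
  have h1 : ac r6 (e y).z * (e t).a = 11 * (e t).a := by
    have h := congrArg Grp.a hc'
    rw [het, tz_pow] at h
    simp only [mul_a, ac_zero, one_mul] at h
    push_cast at h
    linear_combination h
  have h5 : (5 : ZMod 25) * (e t).a = 0 := by
    rcases hy1 with h | h
    · rw [h] at h1
      have : ac r6 1 = 6 := by simp [ac, r6]
      rw [this] at h1
      linear_combination -h1
    · rw [h] at h1
      have : ac r6 (-1) = 21 := by simp [ac, r6]
      rw [this] at h1
      have h25 : (25 : ZMod 25) = 0 := by decide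
      linear_combination (13 : ZMod 25) * h1 - (5 : ZMod 25) * (e t).a * h25
  have h6 : (e t) ^ 5 = 1 := by
    rw [het, tz_pow]
    ext
    · exact_mod_cast h5
    · rfl
  have h7 : t ^ 5 = 1 := e.injective (by rw [map_pow, h6, map_one])
  rw [ht, tz_pow] at h7
  have h8 := congrArg Grp.a h7
  revert h8
  show ((5 : ℕ) : ZMod 25) * 1 = 0 → False
  decide

/-- The negation of the preceding statement: For every group G, every m ≥ 2 and every lattice isomorphism φ from the subgroups of G^m to the subgroups of a group H such that H is the internal direct product of the images of the coordinate subgroups, the image of the first coordinate subgroup is isomorphic to G. -/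
theorem result :
    ¬ (∀ (G : Type) [Group G] (n : ℕ) (H : Type) [Group H]
      (φ : Subgroup (Fin (n + 2) → G) ≃o Subgroup H),
      (∀ i : Fin (n + 2),
          (φ (MonoidHom.mulSingle (fun _ : Fin (n + 2) => G) i).range).Normal) →
      (⨆ i : Fin (n + 2), φ (MonoidHom.mulSingle (fun _ : Fin (n + 2) => G) i).range) = ⊤ →
      iSupIndep (fun i : Fin (n + 2) =>
          φ (MonoidHom.mulSingle (fun _ : Fin (n + 2) => G) i).range) →
      Nonempty (↥(φ (MonoidHom.mulSingle (fun _ : Fin (n + 2) => G) 0).range) ≃* G)) := by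
  intro hall
  have h := hall (Grp r6) 0 (Fin 2 → Grp (r6 ^ 2)) (proj r6_pow) ?_ ?_ ?_
  · obtain ⟨e⟩ := h
    rw [proj_range] at e
    have hinj : Function.Injective
        (MonoidHom.mulSingle (fun _ : Fin 2 => Grp (r6 ^ 2)) 0) :=
      Pi.mulSingle_injective (M := fun _ : Fin 2 => Grp (r6 ^ 2)) 0
    exact not_iso ((MonoidHom.ofInjective hinj).trans e)
  · intro i
    rw [proj_range]
    constructor
    intro x hx y
    rw [mem_range] at hx ⊢
    intro j hj
    simp [hx j hj]
  · simp only [proj_range]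
    rw [eq_top_iff]
    intro x _
    have hx : x = Pi.mulSingle 0 (x 0) * Pi.mulSingle 1 (x 1) := by
      funext j
      fin_cases j <;> simp
    rw [hx]
    refine Subgroup.mul_mem _ ?_ ?_
    · exact Subgroup.mem_iSup_of_mem (0 : Fin 2) ⟨x 0, rfl⟩
    · exact Subgroup.mem_iSup_of_mem (1 : Fin 2) ⟨x 1, rfl⟩
  · simp only [proj_range]
    intro i
    rw [Subgroup.disjoint_def]
    intro x hx hx'
    have hle : (⨆ (j : Fin 2) (_ : j ≠ i),
        (MonoidHom.mulSingle (fun _ : Fin 2 => Grp (r6 ^ 2)) j).range) ≤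
        (Pi.evalMonoidHom (fun _ : Fin 2 => Grp (r6 ^ 2)) i).ker := by
      refine iSup₂_le fun j hj => ?_
      intro y hy
      rw [mem_range] at hy
      exact hy i (Ne.symm hj)
    have h1 : x i = 1 := hle hx'
    rw [mem_range] at hx
    funext j
    by_cases hj : j = i
    · rw [hj]; exact h1
    · exact hx j hj

end Pool.Agent.S00830
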