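import Pool.Statements.S00905
import Pool.Agent.N519.ZariskiProd
-- import your own Pool.Agent.* helpers here

set_option autoImplicit false
open Pool Pool.MP_207b86_al

namespace Pool.Agent.S00905

open Pool.Agent.N519.ZariskiProd

lemma cont_free (u : FreeGroup Unit) :
    Continuous fun g : G => FreeGroup.lift (fun _ => g) u := by
  induction u using FreeGroup.induction_on with
  | C1 => simpa using (continuous_const : Continuous fun _ : G => (1 : G))
  | of x =>
    simp only [FreeGroup.lift_apply_of]
    exact continuous_id
  | inv_of x h => simpa using (continuous_inv : Continuous fun g : G => g⁻¹)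
  | mul x y hx hy =>
    simp only [map_mul]
    exact hx.mul hy

lemma cont_word (w : Monoid.Coprod G (FreeGroup Unit)) :
    Continuous fun g : G =>
      Monoid.Coprod.lift (MonoidHom.id G) (FreeGroup.lift (fun _ => g)) w := by
  induction w using Monoid.Coprod.induction_on with
  | inl m => simpa using (continuous_const : Continuous fun _ : G => m)
  | inr n => simpa using cont_free n
  | mul x y hx hy =>
    simp only [map_mul]
    exact hx.mul hy

/-- There is an infinite group whose Zariski topology is both compact and Hausdorff. The closed sets of that topology are generated by solution sets of one-variable equations with constants from the group. -/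
theorem result :
    ∃ (G : Type) (_ : Group G) (T : TopologicalSpace G),
      Infinite G ∧
      T = TopologicalSpace.generateFrom
        {U : Set G | ∃ w : Monoid.Coprod G (FreeGroup Unit),
          U = {g : G | Monoid.Coprod.lift (MonoidHom.id G) (FreeGroup.lift (fun _ => g)) w = 1}ᶜ} ∧
      @CompactSpace G T ∧ @T2Space G T := by
  refine ⟨G, inferInstance, Pi.topologicalSpace, infG, ?_, compG, t2G⟩
  apply generate_eq
  · rintro U ⟨w, rfl⟩
    exact (isClosed_singleton.preimage (cont_word w)).isOpen_compl
  · intro i a g
    refine ⟨Monoid.Coprod.inr (FreeGroup.of ()) * Monoid.Coprod.inl (Pi.mulSingle i a)⁻¹ *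
      Monoid.Coprod.inl (Pi.mulSingle i g) *
      (Monoid.Coprod.inr (FreeGroup.of ()) * Monoid.Coprod.inl (Pi.mulSingle i a)⁻¹)⁻¹ *
      Monoid.Coprod.inl (Pi.mulSingle i g)⁻¹, ?_⟩
    congr 1
    ext x
    simp only [Set.mem_ofPred_eq, map_mul, map_inv, Monoid.Coprod.lift_apply_inl,
      Monoid.Coprod.lift_apply_inr, FreeGroup.lift_apply_of, MonoidHom.id_apply]
    constructor
    · intro h
      funext j
      by_cases hj : j = i
      · subst hj
        simpa using h
      · simp [Pi.mulSingle_eq_of_ne hj]
    · intro h
      have := congrFun h i
      simpa using this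

end Pool.Agent.S00905
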