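import Pool.Statements.S00938
import Pool.Agent.W335.Fix2
import Pool.Agent.W335.QU
import Pool.Agent.W335.Top

set_option autoImplicit false
open Pool Pool.MP_23009a_al

namespace Pool.Agent.S00938

/-- The negation of the preceding statement: For every non-Archimedean Polish group G: all continuous isometric actions of G on metric spaces have bounded orbits if and only if every continuous affine isometric action of G on a reflexive real Banach space has a fixed point. -/
theorem result :
    ¬ (∀ (G : Type) [Group G] [TopologicalSpace G] [NonarchimedeanGroup G] [PolishSpace G],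
      (∀ (X : Type) [MetricSpace X] (ρ : G →* (X ≃ᵢ X)),
          (∀ x : X, Continuous (fun g : G => ρ g x)) →
          ∀ x : X, Bornology.IsBounded (Set.range (fun g : G => ρ g x)))
      ↔
      (∀ (E : Type) [NormedAddCommGroup E] [NormedSpace ℝ E] [CompleteSpace E],
          Function.Surjective (NormedSpace.inclusionInDoubleDual ℝ E) →
          ∀ ρ : G →* (E ≃ᵃⁱ[ℝ] E),
            (∀ v : E, Continuous (fun g : G => ρ g v)) →
            ∃ v : E, ∀ g : G, ρ g v = v)) := by
  intro H
  obtain ⟨X, mX, hX⟩ := Pool.Agent.W335.exists_QU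
  have hcount : Countable X := hX.countable
  letI : TopologicalSpace (X ≃ᵢ X) := Pool.Agent.W335.isoTop X
  haveI : NonarchimedeanGroup (X ≃ᵢ X) := Pool.Agent.W335.isoNonarch X
  haveI : PolishSpace (X ≃ᵢ X) := Pool.Agent.W335.isoPolish X
  have h := H (X ≃ᵢ X)
  have hFP : (∀ (E : Type) [NormedAddCommGroup E] [NormedSpace ℝ E] [CompleteSpace E],
          Function.Surjective (NormedSpace.inclusionInDoubleDual ℝ E) →
          ∀ ρ : (X ≃ᵢ X) →* (E ≃ᵃⁱ[ℝ] E),
            (∀ v : E, Continuous (fun g : (X ≃ᵢ X) => ρ g v)) →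
            ∃ v : E, ∀ g : (X ≃ᵢ X), ρ g v = v) := by
    intro E _ _ _ hE ρ hρ
    have hα : Pool.Agent.W335.ContAct ρ := by
      intro v ε hε
      have h1 : {g : X ≃ᵢ X | dist (ρ g v) v < ε} ∈ nhds (1 : X ≃ᵢ X) := by
        have h2 : Filter.Tendsto (fun g : X ≃ᵢ X => ρ g v) (nhds 1) (nhds v) := by
          have h3 := (hρ v).tendsto 1
          rwa [Pool.Agent.W335.act_one] at h3
        exact h2 (Metric.ball_mem_nhds v hε)
      obtain ⟨F, hF⟩ := Pool.Agent.W335.exists_fix_subset _ h1
      exact ⟨F, fun g hg => hF g hg⟩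
    exact Pool.Agent.W335.main_fix ρ hX hE hα
  obtain ⟨x0⟩ := hX.nonempty
  have hOB := h.2 hFP X (MonoidHom.id _) (by
    intro x
    have h1 : Continuous (fun g : X ≃ᵢ X => (⟨g x⟩ : Pool.Agent.W335.Disc X)) :=
      Pool.Agent.W335.continuous_ap x
    have h2 : Continuous (fun y : Pool.Agent.W335.Disc X => y.pt) := continuous_of_discreteTopology
    exact h2.comp h1) x0
  obtain ⟨C, hC⟩ := Metric.isBounded_iff.1 hOB
  obtain ⟨n, hn⟩ := exists_nat_gt C
  obtain ⟨y, hy⟩ := hX.ext {x0} (fun _ => (n : ℚ) + 1) (fun a _ => by positivity) (by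
    intro a ha b hb
    rw [Finset.mem_singleton] at ha hb
    subst ha hb
    constructor
    · simp
    · rw [dist_self]
      push_cast
      positivity)
  have hy0 := hy x0 (Finset.mem_singleton_self x0)
  obtain ⟨g, -, hg⟩ := Pool.Agent.W335.exists_conj hX ∅ x0 y (by simp)
  have h3 := hC (x := y) (y := x0) ⟨g, hg⟩ ⟨1, rfl⟩
  rw [hy0] at h3
  push_cast at h3
  linarith

end Pool.Agent.S00938
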