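import Pool.Statements.S01012

set_option autoImplicit false
open Pool Pool.MP_293fae_al

namespace Pool.Agent.S01012

open Polynomial

/-- the homomorphism `ℤ[i] → 𝔽₂` -/
noncomputable def phi0 : GaussianInt →+* ZMod 2 :=
  Zsqrtd.lift (d := -1) ⟨(1 : ZMod 2), by decide⟩

/-- the homomorphism `ℤ[i][X] → 𝔽₂` with `X ↦ 0` -/
noncomputable def phi : GaussianInt[X] →+* ZMod 2 :=
  Polynomial.eval₂RingHom phi0 0

lemma phi0_apply (a : GaussianInt) : phi0 a = (a.re : ZMod 2) + (a.im : ZMod 2) := by
  simp [phi0, Zsqrtd.lift]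

lemma phi_surj : Function.Surjective phi := by
  intro x
  refine ⟨C (x.val : GaussianInt), ?_⟩
  simp [phi]

lemma phi_apply (f : GaussianInt[X]) : phi f = phi0 (f.coeff 0) := by
  simp [phi, Polynomial.eval₂_at_zero]

/-- the maximal ideal `(1 + i, X)` -/
noncomputable def P : Ideal GaussianInt[X] := RingHom.ker phi

instance : P.IsMaximal := RingHom.ker_isMaximal_of_surjective phi phi_surj

noncomputable def pi0 : GaussianInt := ⟨1, 1⟩

lemma dvd_of_phi0 (a : GaussianInt) (h : phi0 a = 0) : ∃ b : GaussianInt, a = b * pi0 := by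
  rw [phi0_apply, ← Int.cast_add, ZMod.intCast_zmod_eq_zero_iff_dvd] at h
  obtain ⟨k, hk⟩ := h
  refine ⟨⟨k, k - a.re⟩, ?_⟩
  apply Zsqrtd.ext
  · simp [pi0, Zsqrtd.re_mul]
  · simp [pi0, Zsqrtd.im_mul]
    push_cast at hk; omega

lemma P_eq : P = Ideal.span {C pi0, X} := by
  apply le_antisymm
  · intro f hf
    rw [P, RingHom.mem_ker, phi_apply] at hf
    obtain ⟨b, hb⟩ := dvd_of_phi0 _ hf
    rw [Ideal.mem_span_pair]
    refine ⟨C b, f.divX, ?_⟩
    rw [← C_mul, ← hb, add_comm, Polynomial.divX_mul_X_add]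
  · rw [Ideal.span_le]
    rintro x (rfl | rfl)
    · show C pi0 ∈ P
      rw [P, RingHom.mem_ker, phi_apply]
      simp [phi0_apply, pi0]
      decide
    · show X ∈ P
      rw [P, RingHom.mem_ker, phi_apply]
      simp

abbrev R : Type := Localization.AtPrime P

lemma max_eq : ∃ a b : R, IsLocalRing.maximalIdeal R = Ideal.span {a, b} := by
  refine ⟨algebraMap GaussianInt[X] R (C pi0), algebraMap GaussianInt[X] R X, ?_⟩
  rw [← Localization.AtPrime.map_eq_maximalIdeal, ← Set.image_pair, ← Ideal.map_span, ← P_eq]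

lemma mem_P_iff (f : GaussianInt[X]) : f ∈ P ↔ phi0 (f.coeff 0) = 0 := by
  rw [P, RingHom.mem_ker, phi_apply]

lemma X_prime : (Ideal.span {(X : GaussianInt[X])}).IsPrime := by
  rw [Ideal.span_singleton_prime X_ne_zero]
  exact prime_X

lemma height_P : P.height = 2 := by
  apply le_antisymm
  · have h1 : P.height ≤ P.spanFinrank := Ideal.height_le_spanFinrank P (Ideal.IsMaximal.ne_top inferInstance)
    have h2 : P.spanFinrank ≤ 2 := by
      rw [P_eq]
      refine (Submodule.spanFinrank_span_le_ncard_of_finite (by simp)).trans ?_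
      exact (Set.ncard_insert_le _ _).trans (by simp)
    exact h1.trans (by exact_mod_cast h2)
  · have hX := X_prime
    have h0 : (⊥ : Ideal GaussianInt[X]) < Ideal.span {X} := by
      rw [bot_lt_iff_ne_bot, Ne, Ideal.span_singleton_eq_bot]
      exact X_ne_zero
    have h1 : Ideal.span {(X : GaussianInt[X])} < P := by
      rw [lt_iff_le_and_ne]
      refine ⟨?_, ?_⟩
      · rw [P_eq]; exact Ideal.span_mono (by simp)
      · intro h
        have : (C pi0 : GaussianInt[X]) ∈ Ideal.span {(X : GaussianInt[X])} := by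
          rw [h, P_eq]; exact Ideal.subset_span (by simp)
        rw [Ideal.mem_span_singleton, X_dvd_iff] at this
        simp [pi0] at this
        exact absurd (congrArg Zsqrtd.re this) (by decide)
    have h2 := Ideal.height_add_one_le_of_lt_of_isPrime h0
    have h3 := Ideal.height_add_one_le_of_lt_of_isPrime h1
    calc (2 : ℕ∞) = 0 + 1 + 1 := by norm_num
      _ ≤ (⊥ : Ideal GaussianInt[X]).height + 1 + 1 := by gcongr; exact zero_le
      _ ≤ (Ideal.span {(X : GaussianInt[X])}).height + 1 := by gcongr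
      _ ≤ P.height := h3

lemma dim_R : ringKrullDim R = 2 := by
  rw [IsLocalization.AtPrime.ringKrullDim_eq_height P R, height_P]
  rfl

instance : IsDomain R := IsLocalization.isDomain_localization (Ideal.primeCompl_le_nonZeroDivisors P)

instance : IsNoetherianRing R := IsLocalization.isNoetherianRing P.primeCompl R inferInstance

lemma key : ∀ p q r s : ZMod 4, ¬ (p * p - q * q + (r * r - s * s) = 2 ∧ 2 * (p * q + r * s) = 2) := by
  decide

lemma key2 : ∀ c d : ZMod 4, (2 * (c + d) = 2) →
    2 * (c * c - d * d) - 2 * (2 * (c * d)) = 2 ∧ 2 * (c * c - d * d) + 2 * (2 * (c * d)) = 2 := by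
  decide

/-- `2 + 2 i` is not a sum of two squares in `R`. -/
lemma not_two (a b : R) :
    algebraMap GaussianInt[X] R (C ⟨2, 2⟩) ≠ a ^ 2 + b ^ 2 := by
  intro h
  obtain ⟨x, s, rfl⟩ := IsLocalization.exists_mk'_eq P.primeCompl a
  obtain ⟨y, t, rfl⟩ := IsLocalization.exists_mk'_eq P.primeCompl b
  have hs : algebraMap GaussianInt[X] R (s : GaussianInt[X]) * IsLocalization.mk' R x s =
      algebraMap GaussianInt[X] R x := by
    rw [mul_comm]; exact IsLocalization.mk'_spec R x s
  have ht : algebraMap GaussianInt[X] R (t : GaussianInt[X]) * IsLocalization.mk' R y t =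
      algebraMap GaussianInt[X] R y := by
    rw [mul_comm]; exact IsLocalization.mk'_spec R y t
  have h1 : algebraMap GaussianInt[X] R ((s * t : GaussianInt[X]) ^ 2 * C ⟨2, 2⟩) =
      algebraMap GaussianInt[X] R ((t * x) ^ 2 + (s * y) ^ 2) := by
    simp only [map_mul, map_pow, map_add]
    rw [h, ← hs, ← ht]
    ring
  have hinj : Function.Injective (algebraMap GaussianInt[X] R) :=
    IsLocalization.injective R (Ideal.primeCompl_le_nonZeroDivisors P)
  have h2 := hinj h1
  have hst : (s * t : GaussianInt[X]) ∉ P := by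
    intro hmem
    rcases Ideal.IsPrime.mem_or_mem inferInstance hmem with h | h
    · exact s.2 h
    · exact t.2 h
  rw [mem_P_iff] at hst
  have h3 := congrArg (fun f => Polynomial.coeff f 0) h2
  simp only [Polynomial.coeff_add, Polynomial.mul_coeff_zero, pow_two, Polynomial.coeff_C_zero] at h3
  set u := (s * t : GaussianInt[X]).coeff 0 with hu
  have hu' : (s : GaussianInt[X]).coeff 0 * (t : GaussianInt[X]).coeff 0 = u := by
    rw [hu, Polynomial.mul_coeff_zero]
  rw [hu'] at h3
  set v := (t : GaussianInt[X]).coeff 0 * x.coeff 0 with hv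
  set w := (s : GaussianInt[X]).coeff 0 * y.coeff 0 with hw
  have hre := congrArg Zsqrtd.re h3
  have him := congrArg Zsqrtd.im h3
  simp only [Zsqrtd.re_mul, Zsqrtd.im_mul, Zsqrtd.re_add, Zsqrtd.im_add] at hre him
  rw [phi0_apply] at hst
  have hodd : (2 * (u.re + u.im) : ZMod 4) = 2 := by
    have : ((u.re + u.im : ℤ) : ZMod 2) ≠ 0 := by push_cast; exact hst
    rw [Ne, ZMod.intCast_zmod_eq_zero_iff_dvd] at this
    obtain ⟨k, hk⟩ : ∃ k, u.re + u.im = 2 * k + 1 := by
      refine ⟨(u.re + u.im) / 2, ?_⟩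
      push_cast at this
      omega
    have h5 : ((u.re + u.im : ℤ) : ZMod 4) = 2 * (k : ZMod 4) + 1 := by
      rw [hk]; push_cast; ring
    push_cast at h5
    rw [h5]
    have : (4 : ZMod 4) = 0 := by decide
    linear_combination (k : ZMod 4) * this
  obtain ⟨k1, k2⟩ := key2 _ _ hodd
  have e1 := congrArg (fun z : ℤ => (z : ZMod 4)) hre
  have e2 := congrArg (fun z : ℤ => (z : ZMod 4)) him
  push_cast at e1 e2
  refine key v.re v.im w.re w.im ⟨?_, ?_⟩
  · linear_combination k1 - e1
  · linear_combination k2 - e2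

/-- the general principle -/
theorem gen (R : Type) [CommRing R] [IsDomain R] [IsLocalRing R] [IsNoetherianRing R]
    (hd : ringKrullDim R = 2) (hm : ∃ a b : R, IsLocalRing.maximalIdeal R = Ideal.span {a, b})
    (i x a b c : R) (hi : i ^ 2 = -1) (h2 : (2 : R) ≠ 0) (hx : x = a * a + (b * b + c * c))
    (hn : ∀ u v : R, x ≠ u ^ 2 + v ^ 2)
    (h : ∀ (R : Type) [CommRing R] [IsDomain R] [IsLocalRing R] [IsNoetherianRing R],
      ringKrullDim R = 2 →
      (∃ a b : R, IsLocalRing.maximalIdeal R = Ideal.span {a, b}) →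
      ∀ (K : Type) [Field K] [Algebra R K] [IsFractionRing R K],
      ∀ n : ℕ,
        ((∀ x : R, IsSumSq x → ∃ f : Fin n → R, x = ∑ i, f i ^ 2) ↔
          (∀ x : K, IsSumSq x → ∃ f : Fin n → K, x = ∑ i, f i ^ 2))) : False := by
  have h1 := h R hd hm (FractionRing R) 2
  have hK : ∀ x : FractionRing R, IsSumSq x → ∃ f : Fin 2 → FractionRing R, x = ∑ i, f i ^ 2 := by
    intro x _
    have hii : (algebraMap R (FractionRing R) i) ^ 2 = -1 := by
      rw [← map_pow, hi]; simp
    have hinj : Function.Injective (algebraMap R (FractionRing R)) :=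
      IsFractionRing.injective R (FractionRing R)
    have h2' : (2 : FractionRing R) ≠ 0 := by
      have e : (2 : FractionRing R) = algebraMap R (FractionRing R) 2 := (map_ofNat _ 2).symm
      rw [e, Ne, map_eq_zero_iff _ hinj]
      exact h2
    refine ⟨![(x + 1) / 2, (algebraMap R (FractionRing R) i) * ((x - 1) / 2)], ?_⟩
    rw [Fin.sum_univ_two]
    simp only [Matrix.cons_val_zero, Matrix.cons_val_one, mul_pow, hii]
    field_simp
    ring
  obtain ⟨f, hf⟩ := h1.2 hK x (by
    rw [hx, show a * a + (b * b + c * c) = a * a + (b * b + (c * c + 0)) by ring]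
    exact IsSumSq.sq_add _ (IsSumSq.sq_add _ (IsSumSq.sq_add _ IsSumSq.zero)))
  rw [Fin.sum_univ_two] at hf
  exact hn _ _ hf

/-- The negation of the preceding statement: For every 2-dimensional regular local ring R with fraction field K, and every n, every sum of squares in R is a sum of n squares iff the same holds in K; that is, the Pythagoras numbers of R and K agree. -/
theorem result :
    ¬ (∀ (R : Type) [CommRing R] [IsDomain R] [IsLocalRing R] [IsNoetherianRing R],
      ringKrullDim R = 2 →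
      (∃ a b : R, IsLocalRing.maximalIdeal R = Ideal.span {a, b}) →
      ∀ (K : Type) [Field K] [Algebra R K] [IsFractionRing R K],
      ∀ n : ℕ,
        ((∀ x : R, IsSumSq x → ∃ f : Fin n → R, x = ∑ i, f i ^ 2) ↔
          (∀ x : K, IsSumSq x → ∃ f : Fin n → K, x = ∑ i, f i ^ 2))) := by
  have hinj' : Function.Injective (algebraMap GaussianInt[X] R) :=
    IsLocalization.injective R (Ideal.primeCompl_le_nonZeroDivisors P)
  refine gen R dim_R max_eq (algebraMap GaussianInt[X] R (C ⟨0, 1⟩))
    (algebraMap GaussianInt[X] R (C ⟨2, 2⟩)) 1 1 (algebraMap GaussianInt[X] R (C ⟨1, 1⟩))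
    ?_ ?_ ?_ not_two
  · rw [← map_pow, ← C_pow]
    have : (⟨0, 1⟩ : GaussianInt) ^ 2 = -1 := by
      apply Zsqrtd.ext <;> simp [pow_two, Zsqrtd.re_mul, Zsqrtd.im_mul]
    rw [this]
    simp
  · have e : (2 : R) = algebraMap GaussianInt[X] R (C 2) := by
      rw [show (C 2 : GaussianInt[X]) = 2 from rfl]; exact (map_ofNat _ 2).symm
    rw [e, Ne, map_eq_zero_iff _ hinj', C_eq_zero]
    intro h0
    exact absurd (congrArg Zsqrtd.re h0) (by decide)
  · rw [← map_mul, ← C_mul, ← map_one (algebraMap GaussianInt[X] R), ← map_mul, ← map_add,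
      ← map_add]
    congr 1
    rw [← C_1, ← C_mul, ← C_add, ← C_add]
    congr 1

end Pool.Agent.S01012
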