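import Pool.Statements.S01034
import Pool.Agent.N56.Inf

set_option autoImplicit false
open Pool Pool.MP_2b5620_al

namespace Pool.Agent.S01034

/-- The negation of the preceding statement: For all q ≥ 3, all r ∈ F(Fin q), all word sets W ⊆ F(ℕ): H_2(⟨Fin q ∣ r⟩/V(·); ℤ) is finitely generated over ℤ iff H_2(F_{q-1}/V(F_{q-1}); ℤ) is finitely generated, with V(X) = normal closure of all W-values in X. -/
theorem result :
    ¬ (∀ (q : ℕ), 3 ≤ q → ∀ (r : FreeGroup (Fin q)) (W : Set (FreeGroup ℕ)),
      (Module.Finite ℤ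
        (groupHomology
          (Rep.trivial ℤ
            (PresentedGroup ({r} : Set (FreeGroup (Fin q))) ⧸
              Subgroup.normalClosure
                {g : PresentedGroup ({r} : Set (FreeGroup (Fin q))) |
                  ∃ w ∈ W, ∃ f : ℕ → PresentedGroup ({r} : Set (FreeGroup (Fin q))),
                    FreeGroup.lift f w = g}) ℤ) 2)
      ↔
       Module.Finite ℤ
        (groupHomology
          (Rep.trivial ℤ
            (FreeGroup (Fin (q - 1)) ⧸
              Subgroup.normalClosure
                {g : FreeGroup (Fin (q - 1)) |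
                  ∃ w ∈ W, ∃ f : ℕ → FreeGroup (Fin (q - 1)),
                    FreeGroup.lift f w = g}) ℤ) 2))) := by
  intro hall
  obtain ⟨w, p, q, G, iG, rk, hp, hq, hpq, hodd, H⟩ := Pool.Agent.N56.exists_group
  have hl : (p * q) * (p * q) < (p * q) * (p * q) + 1 := Nat.lt_succ_self _
  obtain ⟨l, hl⟩ : ∃ l, l = (p * q) * (p * q) + 1 := ⟨_, rfl⟩
  have hl0 : 0 < l := by omega
  let r : FreeGroup (Fin 3) := Pool.Agent.N56.DD w (FreeGroup.of 0) (FreeGroup.of 1)
    (FreeGroup.of 2) ^ p
  have h1 := (hall 3 le_rfl r (Pool.Agent.N56.WW l (Pool.Agent.N56.W0 w p q))).1 ?_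
  · exact Pool.Agent.N56.h2_not_finite H hp hq hpq hodd hl0 (by omega) h1
  · let P := PresentedGroup ({r} : Set (FreeGroup (Fin 3)))
    let W := Pool.Agent.N56.WW l (Pool.Agent.N56.W0 w p q)
    let Q := P ⧸ Subgroup.normalClosure (Pool.Agent.N56.vals W P)
    have hfin : Finite Q := by
      let φ : FreeGroup (Fin 3) →* Q := (QuotientGroup.mk' _).comp
        (PresentedGroup.mk ({r} : Set (FreeGroup (Fin 3))))
      have hφ : Function.Surjective φ :=
        (QuotientGroup.mk'_surjective _).comp (PresentedGroup.mk_surjective _)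
      refine Pool.Agent.N56.finite_of_rel H.del hp hq hpq hl0
        (Pool.Agent.N56.sat_quot W P) (φ (FreeGroup.of 0)) (φ (FreeGroup.of 1))
        (φ (FreeGroup.of 2)) ?_ ?_
      · have h2 := congrArg (Subgroup.map φ) (FreeGroup.closure_range_of (Fin 3))
        rw [MonoidHom.map_closure, Subgroup.map_top_of_surjective _ hφ] at h2
        rw [eq_top_iff, ← h2, Subgroup.closure_le]
        rintro _ ⟨_, ⟨i, rfl⟩, rfl⟩
        apply Subgroup.subset_closure
        fin_cases i <;> simp
      · rw [← Pool.Agent.N56.map_DD, ← map_pow]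
        have h3 : PresentedGroup.mk ({r} : Set (FreeGroup (Fin 3))) r = 1 :=
          PresentedGroup.one_of_mem rfl
        change (QuotientGroup.mk' _) (PresentedGroup.mk ({r} : Set (FreeGroup (Fin 3))) r) = 1
        rw [h3, map_one]
    exact Pool.Agent.N56.h2_finite Q

end Pool.Agent.S01034
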