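import Pool.Statements.S01232
import Pool.Agent.N298.HS.Fin
import Pool.Agent.N50.HS.SOF
import Pool.Agent.N477.HS.GRP

set_option autoImplicit false
open Pool Pool.MP_3b226c_al

namespace Pool.Agent.S01232

/-- The negation of the preceding statement: For every prime p, with Γ the 1,3,3,1 block upper-unitriangular-type subgroup of SL_8(ℤ[1/p]) and Z any infinite cyclic subgroup of its top-right-corner centre, the quotient Γ/Z is sofic. -/
theorem result :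
    ¬ (∀ p : ℕ, p.Prime →
  ∀ Γ : Subgroup (Matrix.SpecialLinearGroup (Fin 8) (Localization.Away (p : ℤ))),
  (∀ g : Matrix.SpecialLinearGroup (Fin 8) (Localization.Away (p : ℤ)), g ∈ Γ ↔
     ((∀ i j : Fin 8,
        ((i.val = 7 ∧ j.val < 7) ∨ (4 ≤ i.val ∧ j.val < 4) ∨ (1 ≤ i.val ∧ j.val < 1)) →
          (g : Matrix (Fin 8) (Fin 8) (Localization.Away (p : ℤ))) i j = 0) ∧
      (g : Matrix (Fin 8) (Fin 8) (Localization.Away (p : ℤ))) 0 0 = 1 ∧
      (g : Matrix (Fin 8) (Fin 8) (Localization.Away (p : ℤ))) 7 7 = 1 ∧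
      (Matrix.of ![
        ![(g : Matrix (Fin 8) (Fin 8) (Localization.Away (p : ℤ))) 1 1,
          (g : Matrix (Fin 8) (Fin 8) (Localization.Away (p : ℤ))) 1 2,
          (g : Matrix (Fin 8) (Fin 8) (Localization.Away (p : ℤ))) 1 3],
        ![(g : Matrix (Fin 8) (Fin 8) (Localization.Away (p : ℤ))) 2 1,
          (g : Matrix (Fin 8) (Fin 8) (Localization.Away (p : ℤ))) 2 2,
          (g : Matrix (Fin 8) (Fin 8) (Localization.Away (p : ℤ))) 2 3],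
        ![(g : Matrix (Fin 8) (Fin 8) (Localization.Away (p : ℤ))) 3 1,
          (g : Matrix (Fin 8) (Fin 8) (Localization.Away (p : ℤ))) 3 2,
          (g : Matrix (Fin 8) (Fin 8) (Localization.Away (p : ℤ))) 3 3]]).det = 1)) →
  ∀ Z : Subgroup Γ,
  (∀ z ∈ Z, ∀ i j : Fin 8, ¬ (i = 0 ∧ j = 7) →
      (((z : Γ) : Matrix.SpecialLinearGroup (Fin 8) (Localization.Away (p : ℤ))) :
        Matrix (Fin 8) (Fin 8) (Localization.Away (p : ℤ))) i j =
      (1 : Matrix (Fin 8) (Fin 8) (Localization.Away (p : ℤ))) i j) →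
  Nonempty (Z ≃* Multiplicative ℤ) →
  ∀ [Z.Normal],
  ∀ F : Finset (Γ ⧸ Z), ∀ ε : ℝ, 0 < ε →
    ∃ n : ℕ, 1 ≤ n ∧ ∃ φ : Γ ⧸ Z → Equiv.Perm (Fin n),
      (∀ g ∈ F, ∀ h ∈ F,
        (1 - ε) * (n : ℝ) ≤
          ((Finset.univ.filter (fun x : Fin n => φ (g * h) x = (φ g * φ h) x)).card : ℝ)) ∧
      (∀ g ∈ F, g ≠ 1 →
        ((Finset.univ.filter (fun x : Fin n => φ g x = x)).card : ℝ) ≤ ε * (n : ℝ))) := by
  intro hall
  obtain ⟨Γ, hΓ, Z, hZ, hiso, hN, q, x, hq, hR, hc, hx, h1, h2⟩ := Pool.Agent.N477.HS.t_grp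
  have := hN
  have := hc
  refine Pool.Agent.N298.HS.t_main 2 Nat.prime_two _ q 1 hq hR (Γ ⧸ Z) x hx h1 h2 ?_
  exact Pool.Agent.N50.HS.SOF.t_sof _ (hall 2 Nat.prime_two Γ hΓ Z hZ hiso)

end Pool.Agent.S01232
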