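import Pool.Statements.S01541
import Pool.Agent.N38.LD.Final

set_option autoImplicit false
open Pool Pool.MP_582538_al

namespace Pool.Agent.S01541

/-- For a Noetherian local ring and a minimal free resolution of its residue field: if the linear part of the resolution has zero homology in all large positive degrees, then it has zero homology in every positive degree (finite linear defect forces linear defect 0). -/
theorem result :
  ∀ (R : Type) [CommRing R] [IsLocalRing R] [IsNoetherianRing R]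
    (b : ℕ → ℕ) (d : ∀ n : ℕ, (Fin (b (n+1)) → R) →ₗ[R] (Fin (b n) → R))
    (ε : (Fin (b 0) → R) →ₗ[R] IsLocalRing.ResidueField R),
    Function.Surjective ε →
    LinearMap.ker ε = LinearMap.range (d 0) →
    (∀ n : ℕ, LinearMap.ker (d n) = LinearMap.range (d (n+1))) →
    (∀ n : ℕ, LinearMap.range (d n) ≤
        (IsLocalRing.maximalIdeal R) • (⊤ : Submodule R (Fin (b n) → R))) →
    (∃ N : ℕ, ∀ n : ℕ, N ≤ n → ∀ j : ℕ, ∀ x : Fin (b (n+1)) → R,
        x ∈ (IsLocalRing.maximalIdeal R) ^ j • (⊤ : Submodule R (Fin (b (n+1)) → R)) →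
        d n x ∈ (IsLocalRing.maximalIdeal R) ^ (j+2) • (⊤ : Submodule R (Fin (b n) → R)) →
        x ∈ (IsLocalRing.maximalIdeal R) ^ (j+1) • (⊤ : Submodule R (Fin (b (n+1)) → R)) ⊔
          Submodule.map (d (n+1))
            ((IsLocalRing.maximalIdeal R) ^ (j-1) • (⊤ : Submodule R (Fin (b (n+1+1)) → R)))) →
    ∀ n : ℕ, ∀ j : ℕ, ∀ x : Fin (b (n+1)) → R,
        x ∈ (IsLocalRing.maximalIdeal R) ^ j • (⊤ : Submodule R (Fin (b (n+1)) → R)) →
        d n x ∈ (IsLocalRing.maximalIdeal R) ^ (j+2) • (⊤ : Submodule R (Fin (b n) → R)) →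
        x ∈ (IsLocalRing.maximalIdeal R) ^ (j+1) • (⊤ : Submodule R (Fin (b (n+1)) → R)) ⊔
          Submodule.map (d (n+1))
            ((IsLocalRing.maximalIdeal R) ^ (j-1) • (⊤ : Submodule R (Fin (b (n+1+1)) → R))) := by
  intro R _ _ _ b d ε hε h0 hex hmin hN
  exact Pool.Agent.N38.LD.main R b d ε hε h0 hex hmin hN

end Pool.Agent.S01541
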