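import Pool.Statements.S01554

set_option autoImplicit false
open Pool Pool.MP_58cc81_al

namespace Pool.Agent.S01554

noncomputable section

/-- a countable elementary abelian 2-group with the discrete topology -/
def Vd : Type := ℕ →₀ ZMod 2

instance : AddCommGroup Vd := inferInstanceAs (AddCommGroup (ℕ →₀ ZMod 2))
instance : FunLike Vd ℕ (ZMod 2) := inferInstanceAs (FunLike (ℕ →₀ ZMod 2) ℕ (ZMod 2))
instance : TopologicalSpace Vd := ⊥
instance : DiscreteTopology Vd := ⟨rfl⟩

lemma Vd.add_apply (v w : Vd) (i : ℕ) : (v + w) i = v i + w i := Finsupp.add_apply v w i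
lemma Vd.neg_apply (v : Vd) (i : ℕ) : (-v) i = -(v i) := Finsupp.neg_apply v i
lemma Vd.zero_apply (i : ℕ) : (0 : Vd) i = 0 := rfl
lemma Vd.ext {v w : Vd} (h : ∀ i, v i = w i) : v = w := Finsupp.ext h

/-- the compact centre -/
abbrev N : Type := UnitAddCircle × (ℕ × ℕ → ZMod 2)

/-- the bilinear map defining the extension -/
def β (v w : Vd) : N := (0, fun ij => v ij.1 * w ij.2)

lemma β_add_left (u v w : Vd) : β (u + v) w = β u w + β v w := by
  refine Prod.ext (by simp [β]) ?_
  funext ij
  simp [β, Vd.add_apply, add_mul]

lemma β_add_right (u v w : Vd) : β u (v + w) = β u v + β u w := by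
  refine Prod.ext (by simp [β]) ?_
  funext ij
  simp [β, Vd.add_apply, mul_add]

lemma β_zero_left (w : Vd) : β 0 w = 0 := by
  refine Prod.ext (by simp [β]) ?_
  funext ij
  simp [β, Vd.zero_apply]

lemma β_zero_right (w : Vd) : β w 0 = 0 := by
  refine Prod.ext (by simp [β]) ?_
  funext ij
  simp [β, Vd.zero_apply]

lemma β_neg_left (v w : Vd) : β (-v) w = -β v w := by
  have := β_add_left (-v) v w
  rw [neg_add_cancel, β_zero_left] at this
  exact (neg_eq_of_add_eq_zero_left this.symm).symm

/-- the group -/
def D : Type := N × Vd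

instance : TopologicalSpace D := inferInstanceAs (TopologicalSpace (N × Vd))
instance : T2Space D := inferInstanceAs (T2Space (N × Vd))
instance : LocallyCompactSpace D := inferInstanceAs (LocallyCompactSpace (N × Vd))

instance : Mul D := ⟨fun x y => (x.1 + y.1 + β x.2 y.2, x.2 + y.2)⟩
instance : One D := ⟨((0, 0) : N × Vd)⟩
instance : Inv D := ⟨fun x => (-x.1 + β x.2 x.2, -x.2)⟩

lemma mul_fst (x y : D) : (x * y).1 = x.1 + y.1 + β x.2 y.2 := rfl
lemma mul_snd (x y : D) : (x * y).2 = x.2 + y.2 := rfl
lemma one_fst : (1 : D).1 = 0 := rfl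
lemma one_snd : (1 : D).2 = 0 := rfl
lemma inv_fst (x : D) : (x⁻¹).1 = -x.1 + β x.2 x.2 := rfl
lemma inv_snd (x : D) : (x⁻¹).2 = -x.2 := rfl
lemma D.ext {x y : D} (h1 : x.1 = y.1) (h2 : x.2 = y.2) : x = y := Prod.ext h1 h2

instance : Group D :=
  Group.ofLeftAxioms
    (by
      intro x y z
      refine D.ext ?_ ?_
      · simp only [mul_fst, mul_snd, β_add_left, β_add_right]
        abel
      · simp only [mul_snd, add_assoc])
    (by
      intro x
      refine D.ext ?_ ?_
      · simp only [mul_fst, one_fst, one_snd, β_zero_left]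
        abel
      · simp only [mul_snd, one_snd, zero_add])
    (by
      intro x
      refine D.ext ?_ ?_
      · simp only [mul_fst, inv_fst, inv_snd, one_fst, β_neg_left]
        abel
      · simp only [mul_snd, inv_snd, one_snd, neg_add_cancel])

lemma cont_snd : Continuous (fun x : D => x.2) := continuous_snd (X := N) (Y := Vd)
lemma cont_fst : Continuous (fun x : D => x.1) := continuous_fst (X := N) (Y := Vd)

instance : IsTopologicalGroup D where
  continuous_mul := by
    have h1 : Continuous fun p : D × D => p.1.1 := cont_fst.comp continuous_fst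
    have h2 : Continuous fun p : D × D => p.2.1 := cont_fst.comp continuous_snd
    have h3 : Continuous fun p : D × D => p.1.2 := cont_snd.comp continuous_fst
    have h4 : Continuous fun p : D × D => p.2.2 := cont_snd.comp continuous_snd
    have h5 : Continuous fun q : Vd × Vd => β q.1 q.2 := continuous_of_discreteTopology
    have h6 : Continuous fun p : D × D => β p.1.2 p.2.2 := h5.comp (h3.prodMk h4)
    have h7 : Continuous fun q : Vd × Vd => q.1 + q.2 := continuous_of_discreteTopology
    exact Continuous.prodMk ((h1.add h2).add h6) (h7.comp (h3.prodMk h4))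
  continuous_inv := by
    have h5 : Continuous fun q : Vd => β q q := continuous_of_discreteTopology
    have h7 : Continuous fun q : Vd => -q := continuous_of_discreteTopology
    exact Continuous.prodMk (cont_fst.neg.add (h5.comp cont_snd)) (h7.comp cont_snd)

/-- a set with finite image in the discrete quotient has compact closure -/
lemma compact_closure {S : Set D} (h : ((fun x : D => x.2) '' S).Finite) :
    IsCompact (closure S) := by
  set F : Set Vd := (fun x : D => x.2) '' S with hF
  have hFc : IsCompact F := h.isCompact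
  have h1 : IsCompact ((Set.univ : Set N) ×ˢ F) := isCompact_univ.prod hFc
  refine IsCompact.closure_of_subset (K := ((Set.univ : Set N) ×ˢ F : Set (N × Vd))) h1 ?_
  intro x hx
  exact ⟨trivial, ⟨x, hx, rfl⟩⟩

lemma image_finite {S : Set D} (h : IsCompact (closure S)) :
    ((fun x : D => x.2) '' S).Finite := by
  have h1 : IsCompact ((fun x : D => x.2) '' closure S) := h.image cont_snd
  exact (isCompact_iff_finite.mp h1).subset (Set.image_mono subset_closure)

lemma dep {v w : Vd} (hv : v ≠ 0) (hw : w ≠ 0)
    (h : ∀ i j, v i * w j = w i * v j) : v = w := by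
  obtain ⟨i, hi⟩ : ∃ i, v i ≠ 0 := by
    by_contra hcon
    push Not at hcon
    exact hv (Vd.ext fun i => by rw [hcon i]; rfl)
  obtain ⟨j, hj⟩ : ∃ j, w j ≠ 0 := by
    by_contra hcon
    push Not at hcon
    exact hw (Vd.ext fun i => by rw [hcon i]; rfl)
  have key : ∀ a : ZMod 2, a ≠ 0 → a = 1 := by decide
  have hvi := key _ hi
  have hwj := key _ hj
  have h1 := h i j
  rw [hvi, hwj, one_mul] at h1
  have hwi : w i ≠ 0 := by
    intro h0
    rw [h0, zero_mul] at h1
    exact one_ne_zero h1
  have hwi := key _ hwi
  refine Vd.ext fun k => ?_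
  have h2 := h i k
  rw [hvi, hwi, one_mul, one_mul] at h2
  exact h2.symm

lemma finite_support (T : Finset ℕ) : {v : Vd | ∀ i, i ∉ T → v i = 0}.Finite := by
  classical
  refine Set.Finite.of_injOn (f := fun (v : Vd) (i : T) => v i) (t := Set.univ)
    (fun _ _ => Set.mem_univ _) ?_ Set.finite_univ
  intro v hv w hw hvw
  refine Vd.ext fun i => ?_
  by_cases hi : i ∈ T
  · exact congrFun hvw ⟨i, hi⟩
  · rw [hv i hi, hw i hi]

/-- The negation of the preceding statement: A Hausdorff locally compact group with small invariant neighbourhoods, whose abelian subgroups have compact closure and whose relatively compact subsets generate relatively compact subgroups, is totally disconnected or compact. -/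
theorem result :
    ¬ (∀ (G : Type) [Group G] [TopologicalSpace G] [IsTopologicalGroup G]
      [LocallyCompactSpace G] [T2Space G],
      (∀ U ∈ nhds (1 : G), ∃ V ∈ nhds (1 : G), V ⊆ U ∧
          ∀ g x : G, x ∈ V → g * x * g⁻¹ ∈ V) →
      (∀ H : Subgroup G, (∀ a ∈ H, ∀ b ∈ H, a * b = b * a) →
          IsCompact (closure (H : Set G))) →
      (∀ K : Set G, IsCompact (closure K) →
          IsCompact (closure ((Subgroup.closure K : Subgroup G) : Set G))) →
      TotallyDisconnectedSpace G ∨ CompactSpace G) := by
  intro H
  have key : TotallyDisconnectedSpace D ∨ CompactSpace D := by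
    refine H D ?_ ?_ ?_
    · -- small invariant neighbourhoods
      intro U hU
      have hK : {x : D | x.2 = 0} ∈ nhds (1 : D) := by
        have : IsOpen {x : D | x.2 = 0} := (isOpen_discrete ({0} : Set Vd)).preimage cont_snd
        exact this.mem_nhds rfl
      refine ⟨U ∩ {x : D | x.2 = 0}, Filter.inter_mem hU hK, Set.inter_subset_left, ?_⟩
      intro g x hx
      have h2 : x.2 = 0 := hx.2
      have : g * x * g⁻¹ = x := by
        rw [mul_inv_eq_iff_eq_mul]
        refine D.ext ?_ ?_
        · rw [mul_fst, mul_fst, h2, β_zero_left, β_zero_right]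
          abel
        · rw [mul_snd, mul_snd]
          exact add_comm _ _
      rw [this]
      exact hx
    · -- abelian subgroups
      intro A hA
      refine compact_closure ?_
      have key : ∀ x ∈ A, ∀ y ∈ A, x.2 ≠ 0 → y.2 ≠ 0 → x.2 = y.2 := by
        intro x hx y hy h1 h2
        have h3 := congrArg (fun z : D => z.1.2) (hA x hx y hy)
        refine dep h1 h2 fun i j => ?_
        have h4 : (x * y).1.2 (i, j) = (y * x).1.2 (i, j) := congrFun h3 (i, j)
        have h5 : (x * y).1.2 (i, j) = x.1.2 (i, j) + y.1.2 (i, j) + x.2 i * y.2 j := rfl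
        have h6 : (y * x).1.2 (i, j) = y.1.2 (i, j) + x.1.2 (i, j) + y.2 i * x.2 j := rfl
        rw [h5, h6, add_comm (y.1.2 (i, j))] at h4
        exact add_left_cancel h4
      by_cases hex : ∃ x ∈ A, x.2 ≠ 0
      · obtain ⟨x, hx, hx0⟩ := hex
        refine (Set.toFinite ({0, x.2} : Set Vd)).subset ?_
        rintro _ ⟨y, hy, rfl⟩
        by_cases hy0 : y.2 = 0
        · exact Or.inl hy0
        · exact Or.inr (key y hy x hx hy0 hx0)
      · push Not at hex
        refine (Set.finite_singleton (0 : Vd)).subset ?_
        rintro _ ⟨y, hy, rfl⟩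
        exact hex y hy
    · -- topological local finiteness
      intro K hK
      refine compact_closure ?_
      have h1 := image_finite hK
      classical
      obtain ⟨F, hF⟩ := h1.exists_finset_coe
      let T : Finset ℕ := F.biUnion fun v => Finsupp.support (v : ℕ →₀ ZMod 2)
      refine (finite_support T).subset ?_
      rintro _ ⟨x, hx, rfl⟩
      let B : Subgroup D :=
        { carrier := {x : D | ∀ i, i ∉ T → x.2 i = 0}
          mul_mem' := by
            intro a b ha hb i hi
            rw [mul_snd, Vd.add_apply, ha i hi, hb i hi, add_zero]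
          one_mem' := by
            intro i _
            rw [one_snd]
            rfl
          inv_mem' := by
            intro a ha i hi
            rw [inv_snd, Vd.neg_apply, ha i hi, neg_zero] }
      have hle : Subgroup.closure K ≤ B := by
        rw [Subgroup.closure_le]
        intro y hy i hi
        by_contra h0
        apply hi
        have hyF : y.2 ∈ F := by
          have : y.2 ∈ (F : Set Vd) := by
            rw [hF]
            exact ⟨y, hy, rfl⟩
          exact this
        exact Finset.mem_biUnion.mpr ⟨y.2, hyF, Finsupp.mem_support_iff.mpr h0⟩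
      exact hle hx
  rcases key with h | h
  · -- not totally disconnected
    have hc : Continuous (fun t : ℝ => ((((t : UnitAddCircle), 0), 0) : D)) :=
      Continuous.prodMk (Continuous.prodMk (AddCircle.continuous_mk' (1 : ℝ)) continuous_const)
        continuous_const
    have h1 : IsPreconnected (Set.range (fun t : ℝ => ((((t : UnitAddCircle), 0), 0) : D))) :=
      isPreconnected_range hc
    have h2 : (Set.range (fun t : ℝ => ((((t : UnitAddCircle), 0), 0) : D))).Subsingleton :=
      h.isTotallyDisconnected_univ _ (Set.subset_univ _) h1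
    have h3 : ((((((1 / 2 : ℝ) : ℝ) : UnitAddCircle), 0), 0) : D) = ((((0 : ℝ) : UnitAddCircle), 0), 0) :=
      h2 ⟨1 / 2, rfl⟩ ⟨0, rfl⟩
    have h4 : (((1 / 2 : ℝ) : ℝ) : UnitAddCircle) = ((0 : ℝ) : UnitAddCircle) :=
      congrArg (fun x : D => x.1.1) h3
    rw [AddCircle.coe_eq_coe_iff_of_mem_Ico (a := (0 : ℝ))] at h4
    · norm_num at h4
    · constructor <;> norm_num
    · constructor <;> norm_num
  · -- not compact
    have h1 : IsCompact ((fun x : D => x.2) '' (Set.univ : Set D)) :=
      isCompact_univ.image cont_snd
    have h2 : ((fun x : D => x.2) '' (Set.univ : Set D)).Finite := isCompact_iff_finite.mp h1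
    have h3 : (Set.univ : Set Vd).Finite := by
      refine h2.subset ?_
      intro v _
      exact ⟨((0, v) : N × Vd), trivial, rfl⟩
    have h4 : Infinite Vd := by
      refine Infinite.of_injective (fun n : ℕ => (Finsupp.single n (1 : ZMod 2) : ℕ →₀ ZMod 2)) ?_
      exact Finsupp.single_left_injective one_ne_zero
    exact Set.infinite_univ h3

end

end Pool.Agent.S01554
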