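import Pool.Statements.S01591
import Pool.Agent.W386.Conv

set_option autoImplicit false
open Pool Pool.MP_5c61b4_al

namespace Pool.Agent.S01591

open Pool.Agent.W386 in
/-- The fibre product of two extensions, seen as an extension. -/
theorem core (n : ℕ) (hn : 2 ≤ n)
    (Γ₁ Γ₂ Q : Type) [Group Γ₁] [Group Γ₂] [Group Q] (π₁ : Γ₁ →* Q) (π₂ : Γ₂ →* Q)
    (h₁ : Function.Surjective π₁) (h₂ : Function.Surjective π₂)
    (hNp : Group.IsFinitelyPresented π₁.ker) (hN : IsFdata n π₁.ker)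
    (hAp : Group.IsFinitelyPresented Γ₁) (hA : IsFdata (n + 1) Γ₁)
    (hBp : Group.IsFinitelyPresented Γ₂) (hB : IsFdata (n + 1) Γ₂)
    (hQ : IsFdata (n + 2) Q) :
    Group.IsFinitelyPresented
      ↥(MonoidHom.eqLocus (π₁.comp (MonoidHom.fst Γ₁ Γ₂)) (π₂.comp (MonoidHom.snd Γ₁ Γ₂))) ∧
    IsFdata (n + 1)
      ↥(MonoidHom.eqLocus (π₁.comp (MonoidHom.fst Γ₁ Γ₂)) (π₂.comp (MonoidHom.snd Γ₁ Γ₂))) := by
  set P := MonoidHom.eqLocus (π₁.comp (MonoidHom.fst Γ₁ Γ₂)) (π₂.comp (MonoidHom.snd Γ₁ Γ₂))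
    with hPdef
  have hmem : ∀ x : Γ₁ × Γ₂, x ∈ P ↔ π₁ x.1 = π₂ x.2 := fun x => Iff.rfl
  let π : P →* Γ₁ := (MonoidHom.fst Γ₁ Γ₂).comp P.subtype
  let b : P →* Γ₂ := (MonoidHom.snd Γ₁ Γ₂).comp P.subtype
  let j : π₁.ker →* P := ((MonoidHom.inl Γ₁ Γ₂).comp π₁.ker.subtype).codRestrict P (by
    intro x
    rw [hmem]
    change π₁ (x : Γ₁) = π₂ 1
    rw [map_one]
    exact x.2)
  have hπ : Function.Surjective π := by
    intro x
    obtain ⟨y, hy⟩ := h₂ (π₁ x)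
    exact ⟨⟨(x, y), (hmem _).2 hy.symm⟩, rfl⟩
  have hb : Function.Surjective b := by
    intro y
    obtain ⟨x, hx⟩ := h₁ (π₂ y)
    exact ⟨⟨(x, y), (hmem _).2 hx⟩, rfl⟩
  have hj : Function.Injective (π.comp j) := fun x y h => Subtype.ext h
  have hj0 : Function.Injective j := fun x y hxy => hj (congrArg π hxy)
  have hjb : b.ker = j.range := by
    ext x
    rw [MonoidHom.mem_ker]
    constructor
    · intro hx
      have hx2 : (x : Γ₁ × Γ₂).2 = 1 := hx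
      have hx1 : π₁ (x : Γ₁ × Γ₂).1 = 1 := by
        have := (hmem x).1 x.2
        rw [this, hx2, map_one]
      refine ⟨⟨(x : Γ₁ × Γ₂).1, hx1⟩, ?_⟩
      apply Subtype.ext
      exact Prod.ext rfl hx2.symm
    · rintro ⟨y, rfl⟩
      rfl
  have hjc : π₁.ker = (π.comp j).range := by
    ext x
    constructor
    · intro hx
      exact ⟨⟨x, hx⟩, rfl⟩
    · rintro ⟨y, rfl⟩
      exact y.2
  have hPp : Group.IsFinitelyPresented P := fp_ext j hj0 b hb hjb hNp hBp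
  have hPfg : Group.FG P := fp_fg hPp
  have hK : π.ker.IsFinitelyNormallyGenerated := ker_ifng π hπ hPfg hAp
  refine ⟨hPp, data_of_fps ?_⟩
  exact main_fp j π b π₁ hπ hb h₁ hj hjb hjc hPfg hK n (fps_of_data (by omega) hN)
    (fps_of_data (by omega) hA) (fps_of_data (by omega) hQ) (fps_of_data (by omega) hB)

/-- For n ≥ 2, if π₁: Γ₁→Q and π₂: Γ₂→Q are surjective, ker π₁ is of type F_n, Γ₁ and Γ₂ are F_{n+1}, and Q is F_{n+2}, then the fibre product of Γ₁ and Γ₂ over Q is of type F_{n+1}. -/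
theorem result :
  ∀ (IsF : ℕ → (G : Type) → Group G → Prop),
    (∀ (m : ℕ) (G : Type) (inst : Group G), IsF m G inst ↔
      ((∃ (r : ℕ) (f : FreeGroup (Fin r) →* G) (S : Finset (FreeGroup (Fin r))),
          Function.Surjective f ∧ f.ker = Subgroup.normalClosure (↑S : Set (FreeGroup (Fin r)))) ∧
       (∃ (k : ℕ → ℕ) (ε : MonoidAlgebra ℤ G →+* ℤ)
          (d : ∀ i : ℕ, (Fin (k (i+1)) → MonoidAlgebra ℤ G) →ₗ[MonoidAlgebra ℤ G]
                (Fin (k i) → MonoidAlgebra ℤ G)),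
          (∀ g : G, ε (MonoidAlgebra.of ℤ G g) = 1) ∧
          (∃ x : Fin (k 0) → MonoidAlgebra ℤ G, ∑ j, ε (x j) = 1) ∧
          (0 < m → ∀ x : Fin (k 0) → MonoidAlgebra ℤ G,
              (∑ j, ε (x j) = 0 ↔ x ∈ LinearMap.range (d 0))) ∧
          (∀ j : ℕ, j + 2 ≤ m → LinearMap.range (d (j+1)) = LinearMap.ker (d j))))) →
    ∀ (n : ℕ), 2 ≤ n →
    ∀ (Γ₁ Γ₂ Q : Type) [Group Γ₁] [Group Γ₂] [Group Q] (π₁ : Γ₁ →* Q) (π₂ : Γ₂ →* Q),
      Function.Surjective π₁ → Function.Surjective π₂ →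
      IsF n (↥π₁.ker) inferInstance →
      IsF (n+1) Γ₁ inferInstance →
      IsF (n+1) Γ₂ inferInstance →
      IsF (n+2) Q inferInstance →
      IsF (n+1)
        (↥(MonoidHom.eqLocus (π₁.comp (MonoidHom.fst Γ₁ Γ₂)) (π₂.comp (MonoidHom.snd Γ₁ Γ₂))))
        inferInstance := by
  intro IsF hIsF n hn Γ₁ Γ₂ Q _ _ _ π₁ π₂ h₁ h₂ hN hA hB hQ
  have hN' := (hIsF _ _ _).1 hN
  have hA' := (hIsF _ _ _).1 hA
  have hB' := (hIsF _ _ _).1 hB
  have hQ' := (hIsF _ _ _).1 hQ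
  have key := core n hn Γ₁ Γ₂ Q π₁ π₂ h₁ h₂ (Pool.Agent.W386.fp_iff.2 hN'.1) hN'.2
    (Pool.Agent.W386.fp_iff.2 hA'.1) hA'.2 (Pool.Agent.W386.fp_iff.2 hB'.1) hB'.2 hQ'.2
  exact (hIsF _ _ _).2 ⟨Pool.Agent.W386.fp_iff.1 key.1, key.2⟩

end Pool.Agent.S01591
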