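/-
Kazhdan groups with infinitely many quotients which are finite simple groups of Lie type of rank one
(MP_5f0000_al, the negative answer). helper993, with helpers 31, 73, 123, 265, 291, 353, 507, 853, 901, 935.

The group is generated by three copies of SU(3, 5), which meet pairwise in copies of SU(2, 5) (the
stabilisers of the vectors of an orthonormal basis). The angle between the spaces of vectors fixed by two of
the groups SU(2, 5) is at most arccos (1/4) in every unitary representation of SU(3, 5), which gives
property (T). In the unitary group of dimension 3 over the field with 5 ^ (2 n) elements, n odd, the three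
copies are the conjugates of SU(3, 5) by diag(v ^ 2, v⁻¹, v⁻¹), 1, diag(v, v, v ^ (-2)), where v ^ 3 = u is an
element of norm one whose powers span the field additively; together they generate SU(3, 5 ^ n), and the
quotient by the centre is PSU(3, 5 ^ n), a simple group with a split BN-pair of rank one.
-/
import Pool.Statements.S01640
import Pool.Agent.N993.RK.Main
import Pool.Agent.N935.RK.Ang
import Pool.Agent.N353.RK.CARD
import Pool.Agent.N901.RK.GEN
import Pool.Agent.N853.RK.TT
import Pool.Agent.N31.RK.FLD
import Pool.Agent.N265.RK.Comp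
import Pool.Agent.N73.RK.UNI
import Pool.Agent.N291.RK.ACT
import Pool.Agent.N123.RK.PERF
import Pool.Agent.N507.RK.Simp

set_option autoImplicit false
open Pool Pool.MP_5f0000_al

namespace Pool.Agent.S01640

/-- The negation of the preceding statement: Every group with Kazhdan's property (T) has only finitely many normal subgroups whose quotient is a finite simple group with a split BN-pair of rank 1, i.e. a finite simple group of Lie type of rank 1. -/
theorem result :
    ¬ (∀ (G : Type) [Group G],
      (∀ (H : Type) [NormedAddCommGroup H] [InnerProductSpace ℂ H] [CompleteSpace H]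
          (ρ : G →* unitary (H →L[ℂ] H)),
          (∀ (S : Finset G) (ε : ℝ), 0 < ε →
              ∃ v : H, ‖v‖ = 1 ∧ ∀ s ∈ S, ‖(ρ s : H →L[ℂ] H) v - v‖ < ε) →
          ∃ v : H, v ≠ 0 ∧ ∀ g : G, (ρ g : H →L[ℂ] H) v = v) →
      Set.Finite {N : Subgroup G | ∃ (Q : Type) (_ : Group Q), ∃ f : G →* Q,
          Function.Surjective f ∧ f.ker = N ∧ Finite Q ∧ IsSimpleGroup Q ∧
          ∃ (X : Type) (φ : Q →* Equiv.Perm X), Finite X ∧ 3 ≤ Nat.card X ∧
            (∀ a b c d : X, a ≠ b → c ≠ d → ∃ g : Q, φ g a = c ∧ φ g b = d) ∧
            ∃ (x : X) (U : Subgroup Q),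
              (∀ u ∈ U, φ u x = x) ∧
              (∀ u ∈ U, ∀ h : Q, φ h x = x → h * u * h⁻¹ ∈ U) ∧
              ∀ y z : X, y ≠ x → z ≠ x → ∃! u : Q, u ∈ U ∧ φ u y = z}) := by
  exact Pool.Agent.N993.RK.main
    (Pool.Agent.N853.RK.t_tt Pool.Agent.N935.RK.t_ang Pool.Agent.N353.RK.t_card)
    Pool.Agent.N31.RK.t_FLD Pool.Agent.N265.RK.t_comp
    (Pool.Agent.N73.RK.t_uni Pool.Agent.N901.RK.t_GEN) Pool.Agent.N291.RK.ACT.t_ACT
    Pool.Agent.N123.RK.t_PERF Pool.Agent.N507.RK.t_simp

end Pool.Agent.S01640
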