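import Pool.Statements.S01758
import Pool.Agent.N513.CE.Fin

set_option autoImplicit false
open Pool Pool.MP_67b2ac_al

namespace Pool.Agent.S01758

/-- The negation of the preceding statement: For every group G with a normal (hence central) subgroup of order 2, if the quotient is sofic (finite permutation approximations in normalized Hamming distance), then G itself is sofic. -/
theorem result :
    ¬ (∀ (G : Type) [Group G] (N : Subgroup G) [N.Normal], Nat.card N = 2 →
    (∀ (F : Finset (G ⧸ N)) (ε : ℝ), 0 < ε →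
      ∃ n : ℕ, ∃ φ : G ⧸ N → Equiv.Perm (Fin n),
        (∀ g ∈ F, ∀ h ∈ F,
          (((Finset.univ.filter (fun i => φ (g * h) i ≠ (φ g * φ h) i)).card : ℝ) < ε * n)) ∧
        (∀ g ∈ F, g ≠ 1 →
          (1 - ε) * n ≤ ((Finset.univ.filter (fun i => φ g i ≠ i)).card : ℝ))) →
    (∀ (F : Finset G) (ε : ℝ), 0 < ε →
      ∃ n : ℕ, ∃ φ : G → Equiv.Perm (Fin n),
        (∀ g ∈ F, ∀ h ∈ F,
          (((Finset.univ.filter (fun i => φ (g * h) i ≠ (φ g * φ h) i)).card : ℝ) < ε * n)) ∧
        (∀ g ∈ F, g ≠ 1 →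
          (1 - ε) * n ≤ ((Finset.univ.filter (fun i => φ g i ≠ i)).card : ℝ)))) :=
  Pool.Agent.N513.CE.frozen_of_goal Pool.Agent.N513.CE.goal

end Pool.Agent.S01758
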