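import Pool.Statements.S01892
import Pool.Agent.W408.SR.Ring

set_option autoImplicit false
open Pool Pool.MP_7249a2_al

namespace Pool.Agent.S01892

/-- The negation of the preceding statement: Every unital ring that is von Neumann regular and has a proper involution (x*x = 0 implies x = 0) is unit-regular: for each a there is a unit u with a u a = a. -/
theorem result :
    ¬ (∀ (R : Type) [Ring R] [StarRing R],
      (∀ a : R, ∃ x : R, a * x * a = a) →
      (∀ x : R, star x * x = 0 → x = 0) →
      ∀ a : R, ∃ u : Rˣ, a * (u : R) * a = a) := by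
  intro h
  obtain ⟨u, hu⟩ := h Pool.Agent.W408.SR.RR
    Pool.Agent.W408.SR.RR_regular Pool.Agent.W408.SR.RR_proper Pool.Agent.W408.SR.yR
  exact Pool.Agent.W408.SR.yR_not u hu

end Pool.Agent.S01892
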