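import Pool.Statements.S02070
import Pool.Agent.N18.Onn.Padic

set_option autoImplicit false
open Pool Pool.MP_7ed69f_al

namespace Pool.Agent.S02070

open Pool.Agent.N18.Onn

/-- the dimension polynomial of the representations of split regular type (for `N = 3`, `r = 2`) -/
noncomputable def pol : Polynomial ℤ :=
  Polynomial.X ^ 3 * (Polynomial.X + 1) * (Polynomial.X ^ 2 + Polynomial.X + 1)

lemma pol_eval (x : ℤ) : pol.eval x = x ^ 3 * (x + 1) * (x ^ 2 + x + 1) := by
  simp [pol]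

/-- The negation of the preceding statement: For all N,r ≥ 2 there is a finite set of integer polynomials of degree ≤ C(N,2)·r whose values at q are exactly the dimensions of irreducible complex reps of GL_N(o/p^r) nontrivial on the level-(r−1) kernel, for every compact DVR o. -/
theorem result :
    ¬ (∀ N r : ℕ, 2 ≤ N → 2 ≤ r →
    ∃ P : Finset (Polynomial ℤ), (∀ d ∈ P, d.natDegree ≤ N.choose 2 * r) ∧
    ∀ (R : Type) [CommRing R] [IsDomain R] [IsDiscreteValuationRing R]
      [Finite (IsLocalRing.ResidueField R)]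
      [IsAdicComplete (IsLocalRing.maximalIdeal R) R],
    {z : ℤ | ∃ (V : Type) (_ : AddCommGroup V) (_ : Module ℂ V)
        (ρ : Representation ℂ
          (Matrix.GeneralLinearGroup (Fin N) (R ⧸ IsLocalRing.maximalIdeal R ^ r)) V),
        FiniteDimensional ℂ V ∧ Nontrivial V ∧
        (∀ W : Submodule ℂ V, (∀ g v, v ∈ W → ρ g v ∈ W) → W = ⊥ ∨ W = ⊤) ∧
        (∃ g : Matrix.GeneralLinearGroup (Fin N) (R ⧸ IsLocalRing.maximalIdeal R ^ r),
          (∀ i j, ∃ a ∈ IsLocalRing.maximalIdeal R ^ (r - 1),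
            g.val i j
              - (1 : Matrix (Fin N) (Fin N) (R ⧸ IsLocalRing.maximalIdeal R ^ r)) i j
              = Ideal.Quotient.mk (IsLocalRing.maximalIdeal R ^ r) a) ∧ ρ g ≠ 1) ∧
        (Module.finrank ℂ V : ℤ) = z}
    = (fun d : Polynomial ℤ => d.eval (Nat.card (IsLocalRing.ResidueField R) : ℤ)) ''
        (P : Set (Polynomial ℤ))) := by
  intro h
  obtain ⟨P, -, hP⟩ := h 3 2 (by norm_num) (by norm_num)
  -- odd primes
  have hodd : ∀ p : ℕ, p.Prime → p ≠ 2 → ∃ d ∈ P, d.eval (p : ℤ) = pol.eval (p : ℤ) := by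
    intro p hp hp2
    have : Fact p.Prime := ⟨hp⟩
    have h1 := hP ℤ_[p]
    rw [card_res] at h1
    set S := loc p with hS
    have hu : S.u 1 ≠ 1 := by
      intro h
      have h2 := congrArg (fun x : (ℤ_[p] ⧸ IsLocalRing.maximalIdeal ℤ_[p] ^ 2)ˣ => (x : ℤ_[p] ⧸ IsLocalRing.maximalIdeal ℤ_[p] ^ 2)) h
      simp only [Loc.u_val, Units.val_one, mul_one] at h2
      have h3 : S.w * 1 = 0 := by rw [mul_one]; linear_combination h2
      rw [S.ann, map_one] at h3
      exact one_ne_zero h3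
    obtain ⟨χ, hχ⟩ := CommGroup.exists_apply_ne_one_of_hasEnoughRootsOfUnity
      (ℤ_[p] ⧸ IsLocalRing.maximalIdeal ℤ_[p] ^ 2)ˣ ℂ hu
    have hirr := irred S.T (S.Lam χ) S.K S.K_le_T (S.fix χ hχ hp2)
    have hmem : (((Module.finrank ℂ (Sp S.T (S.Lam χ)) : ℕ)) : ℤ) ∈
        (fun d : Polynomial ℤ => d.eval (p : ℤ)) '' (P : Set (Polynomial ℤ)) := by
      rw [← h1]
      have hpos : 0 < Module.finrank ℂ (Sp S.T (S.Lam χ)) := by
        rw [finrank_Sp, S.index_T]
        have := hp.pos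
        positivity
      refine ⟨Sp S.T (S.Lam χ), inferInstance, inferInstance, rep S.T (S.Lam χ), inferInstance,
        Module.finrank_pos_iff.1 hpos, hirr, ?_, rfl⟩
      -- nontrivial on the congruence kernel
      set X : Matrix (Fin 3) (Fin 3) (ℤ_[p] ⧸ IsLocalRing.maximalIdeal ℤ_[p] ^ 2) :=
        Matrix.single 1 1 1 with hX
      refine ⟨S.U X, ?_, ?_⟩
      · intro i j
        obtain ⟨y, hy⟩ := Ideal.Quotient.mk_surjective (X i j)
        refine ⟨(p : ℤ_[p]) * y, ?_, ?_⟩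
        · have e : IsLocalRing.maximalIdeal ℤ_[p] ^ (2 - 1) = IsLocalRing.maximalIdeal ℤ_[p] := pow_one _
          rw [e, mem_max_iff]
          exact Dvd.intro y rfl
        · have h2 := S.U_apply X i j
          have h3 : (S.U X).val i j = (1 : Matrix (Fin 3) (Fin 3) (ℤ_[p] ⧸ IsLocalRing.maximalIdeal ℤ_[p] ^ 2)) i j + S.w * X i j := h2
          rw [h3, map_mul, hy]
          have : S.w = Ideal.Quotient.mk _ (p : ℤ_[p]) := rfl
          rw [this]; ring
      · intro h2
        have h3 : ((rep S.T (S.Lam χ) (S.U X) (dl S.T (S.Lam χ)) : Sp S.T (S.Lam χ)) :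
            Matrix.GeneralLinearGroup (Fin 3) (ℤ_[p] ⧸ IsLocalRing.maximalIdeal ℤ_[p] ^ 2) → ℂ) 1 =
            (dl S.T (S.Lam χ) :
            Matrix.GeneralLinearGroup (Fin 3) (ℤ_[p] ⧸ IsLocalRing.maximalIdeal ℤ_[p] ^ 2) → ℂ) 1 := by
          rw [h2]; rfl
        have hUT : S.U X ∈ S.T := S.K_le_T (S.U_mem X)
        rw [rep_apply, one_mul, dl_of_mem _ _ hUT, dl_of_mem _ _ (Subgroup.one_mem _), S.Lam_U] at h3
        have h4 : (⟨1, Subgroup.one_mem _⟩ : S.T) = 1 := rfl
        rw [h4, map_one] at h3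
        have h5 : (Loc.B (ℤ_[p] ⧸ IsLocalRing.maximalIdeal ℤ_[p] ^ 2) * X).trace = 1 := by
          rw [hX, Matrix.trace_mul_single]
          simp [Loc.B]
        rw [h5] at h3
        exact hχ (Units.ext h3)
    obtain ⟨d, hd, hd2⟩ := hmem
    refine ⟨d, hd, ?_⟩
    simp only [] at hd2
    rw [hd2, finrank_Sp, S.index_T, pol_eval]
    push_cast
    ring
  -- the polynomial belongs to the family
  have hpol : pol ∈ P := by
    have hQ : ∏ d ∈ P, (d - pol) = 0 := by
      apply Polynomial.eq_zero_of_infinite_isRoot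
      have hinf : Set.Infinite {p : ℕ | p.Prime ∧ p ≠ 2} := by
        have := Nat.infinite_setOfPred_prime
        have h2 := this.sdiff (Set.finite_singleton 2)
        apply h2.mono
        intro x hx
        exact ⟨hx.1, hx.2⟩
      have himg := hinf.image (f := fun n : ℕ => (n : ℤ)) (Nat.cast_injective.injOn)
      apply himg.mono
      rintro _ ⟨q, ⟨hq1, hq2⟩, rfl⟩
      obtain ⟨d, hd, hd2⟩ := hodd q hq1 hq2
      show (∏ d ∈ P, (d - pol)).eval (q : ℤ) = 0
      rw [Polynomial.eval_prod]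
      apply Finset.prod_eq_zero hd
      rw [Polynomial.eval_sub, hd2, sub_self]
    obtain ⟨d, hd, hd2⟩ := Finset.prod_eq_zero_iff.1 hQ
    rw [sub_eq_zero] at hd2
    rw [← hd2]; exact hd
  -- contradiction at `q = 2`
  have h2 : Fact (Nat.Prime 2) := ⟨Nat.prime_two⟩
  have h1 := hP ℤ_[2]
  rw [card_res] at h1
  have hmem : pol.eval (((2 : ℕ)) : ℤ) ∈ (fun d : Polynomial ℤ => d.eval (((2 : ℕ)) : ℤ)) '' (P : Set (Polynomial ℤ)) :=
    ⟨pol, hpol, rfl⟩
  rw [← h1] at hmem
  obtain ⟨V, i1, i2, ρ, i3, i4, hirr, -, hz⟩ := hmem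
  have hlt := (loc 2).small ρ hirr
  rw [pol_eval] at hz
  norm_num at hz
  omega

end Pool.Agent.S02070
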