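import Pool.Statements.S02286
import Pool.Agent.N519.ZariskiProd
-- import your own Pool.Agent.* helpers here

set_option autoImplicit false
open Pool Pool.MP_91b10e_al

namespace Pool.Agent.S02286

open Pool.Agent.N519.ZariskiProd

lemma cont_word (w : Monoid.Coprod G (Multiplicative ℤ)) :
    Continuous fun g : G =>
      Monoid.Coprod.lift (MonoidHom.id G) (zpowersHom G g) w := by
  induction w using Monoid.Coprod.induction_on with
  | inl m => simpa using (continuous_const : Continuous fun _ : G => m)
  | inr n => simpa using (continuous_zpow (G := G) n.toAdd)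
  | mul x y hx hy =>
    simp only [map_mul]
    exact hx.mul hy

lemma key : (Pi.topologicalSpace : TopologicalSpace G) = TopologicalSpace.generateFrom
          {U : Set G | ∃ w : Monoid.Coprod G (Multiplicative ℤ),
            U = {x : G | Monoid.Coprod.lift (MonoidHom.id G) (zpowersHom G x) w ≠ 1}} := by
  apply generate_eq
  · rintro U ⟨w, rfl⟩
    exact (isClosed_singleton.preimage (cont_word w)).isOpen_compl
  · intro i a g
    refine ⟨Monoid.Coprod.inr (Multiplicative.ofAdd 1) * Monoid.Coprod.inl (Pi.mulSingle i a)⁻¹ *
      Monoid.Coprod.inl (Pi.mulSingle i g) *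
      (Monoid.Coprod.inr (Multiplicative.ofAdd 1) * Monoid.Coprod.inl (Pi.mulSingle i a)⁻¹)⁻¹ *
      Monoid.Coprod.inl (Pi.mulSingle i g)⁻¹, ?_⟩
    ext x
    simp only [Set.mem_compl_iff, Set.mem_ofPred_eq, map_mul, map_inv,
      Monoid.Coprod.lift_apply_inl,
      Monoid.Coprod.lift_apply_inr, zpowersHom_apply, MonoidHom.id_apply, toAdd_ofAdd, zpow_one]
    refine not_congr ?_
    constructor
    · intro h
      funext j
      by_cases hj : j = i
      · subst hj
        simpa using h
      · simp [Pi.mulSingle_eq_of_ne hj]
    · intro h
      have := congrFun h i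
      simpa using this

/-- The negation of the preceding statement: For every group G, if the Zariski topology (closed subbasis: solution sets of one-variable equations with constants from G) is compact, then it is Noetherian. -/
theorem result :
    ¬ (∀ (G : Type) [Group G],
      @IsCompact G
        (TopologicalSpace.generateFrom
          {U : Set G | ∃ w : Monoid.Coprod G (Multiplicative ℤ),
            U = {x : G | Monoid.Coprod.lift (MonoidHom.id G) (zpowersHom G x) w ≠ 1}})
        Set.univ →
      @TopologicalSpace.NoetherianSpace G
        (TopologicalSpace.generateFrom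
          {U : Set G | ∃ w : Monoid.Coprod G (Multiplicative ℤ),
            U = {x : G | Monoid.Coprod.lift (MonoidHom.id G) (zpowersHom G x) w ≠ 1}})) := by
  intro H
  have h := H G
  rw [← key] at h
  exact not_noetherian (h isCompact_univ)

end Pool.Agent.S02286
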