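import Pool.Statements.S02300
import Pool.Agent.N10.Han.Final

set_option autoImplicit false
open Pool Pool.MP_92f1cb_al

namespace Pool.Agent.S02300

/-- The negation of the preceding statement: For a finite-dimensional algebra A over a field: if the Hochschild complex of A (its differential given by the standard formula on pure tensors) has vanishing homology in all large degrees, then some d bounds the projective dimension of every A-module. -/
theorem result :
    ¬ (∀ (k : Type) [Field k] (A : Type) [Ring A] [Algebra k A] [FiniteDimensional k A],
      ∀ b : (n : ℕ) →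
          (PiTensorProduct k (fun _ : Fin (n + 1 + 1) => A)) →ₗ[k]
            (PiTensorProduct k (fun _ : Fin (n + 1) => A)),
        (∀ (n : ℕ) (a : Fin (n + 1 + 1) → A),
            b n (PiTensorProduct.tprod k a) =
              (∑ i : Fin (n + 1),
                  (-1 : k) ^ (i : ℕ) •
                    PiTensorProduct.tprod k
                      (Fin.contractNth i.castSucc (fun x y : A => x * y) a)) +
                (-1 : k) ^ (n + 1) •
                  PiTensorProduct.tprod k
                    ((Fin.cons (a (Fin.last (n + 1)) * a 0)
                        (fun j : Fin n => a j.succ.castSucc) : Fin (n + 1) → A))) →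
        (∃ N : ℕ, ∀ n : ℕ, N ≤ n → LinearMap.ker (b n) ≤ LinearMap.range (b (n + 1))) →
        ∃ d : ℕ, ∀ M : ModuleCat.{0} A,
          ∃ P : CategoryTheory.ProjectiveResolution M,
            ∀ i : ℕ, d < i → CategoryTheory.Limits.IsZero (P.complex.X i)) := by
  intro h
  obtain ⟨A, hR, hA, hF, hV, hG⟩ := Pool.Agent.N10.Han.han_counterexample
  obtain ⟨b, hb⟩ := Pool.Agent.N10.Han.exists_b ℂ A
  obtain ⟨d, hd⟩ := h ℂ A b hb
    ⟨0, fun n _ => Pool.Agent.N10.Han.exact_of_van ℂ A hV b hb n⟩
  obtain ⟨M, hM⟩ := hG d
  exact hM (hd M)

end Pool.Agent.S02300
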