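import Pool.Statements.S02425
import Pool.Agent.N68.QP.Final

set_option autoImplicit false
open Pointwise
open Pool Pool.MP_98b561_al

namespace Pool.Agent.S02425

/-- There is a group G with a generating set X whose Cayley graph is hyperbolic with a quasi-parabolic G-action, such that every other such generating set Y is equivalent to X (each has bounded word length with respect to the other). -/
theorem result :
  ∃ (G : Type) (_ : Group G),
    ∀ (len : Set G → G → ℕ),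
      (∀ (S : Set G) (g : G), len S g = sInf {n : ℕ | g ∈ (S ∪ S⁻¹) ^ n}) →
    ∀ (gp : Set G → G → G → ℝ),
      (∀ (S : Set G) (a b : G),
        gp S a b = ((len S a : ℝ) + (len S b : ℝ) - (len S (a⁻¹ * b) : ℝ)) / 2) →
    ∀ (lox : Set G → G → Prop),
      (∀ (S : Set G) (g : G),
        lox S g ↔ ∃ c : ℝ, 0 < c ∧ ∀ n : ℕ, c * (n : ℝ) ≤ (len S (g ^ n) : ℝ)) →
    ∀ (sameEnd : Set G → G → G → Prop),
      (∀ (S : Set G) (a b : G),
        sameEnd S a b ↔ ∀ K : ℝ, ∃ N : ℕ, ∀ n m : ℕ, N ≤ n → N ≤ m →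
          K ≤ gp S (a ^ n) (b ^ m)) →
    ∀ (QP : Set G → Prop),
      (∀ S : Set G, QP S ↔
        (Subgroup.closure S = ⊤ ∧
         (∃ δ : ℝ, ∀ x y z : G, min (gp S x y) (gp S y z) - δ ≤ gp S x z) ∧
         (∃ g h : G, lox S g ∧ lox S h ∧
            ¬ ((sameEnd S g h ∧ sameEnd S g⁻¹ h⁻¹) ∨
               (sameEnd S g h⁻¹ ∧ sameEnd S g⁻¹ h))) ∧
         (∀ g h : G, lox S g → lox S h →
            (sameEnd S g h ∨ sameEnd S g h⁻¹ ∨ sameEnd S g⁻¹ h ∨ sameEnd S g⁻¹ h⁻¹)))) →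
    ∃ X : Set G, QP X ∧
      ∀ Y : Set G, QP Y →
        (∃ C : ℕ, ∀ y ∈ Y, len X y ≤ C) ∧ (∃ C : ℕ, ∀ x ∈ X, len Y x ≤ C) := by
  refine ⟨Pool.Agent.N68.QP.Gz, inferInstance, ?_⟩
  intro len hlen gp hgp lox hlox sameEnd hsame QP hQP
  have e1 : len = fun S g => Pool.Agent.R640.len S g := by
    funext S g
    exact hlen S g
  subst e1
  have e2 : gp = fun S a b => Pool.Agent.R640.gp S a b := by
    funext S a b
    exact hgp S a b
  subst e2
  have e3 : ∀ S g, lox S g ↔ Pool.Agent.R640.Lox S g := hlox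
  have e4 : ∀ S a b, sameEnd S a b ↔ Pool.Agent.N68.QP.SameEnd S a b := hsame
  simp only [e3, e4] at hQP
  refine ⟨Pool.Agent.N68.QP.Az.X, (hQP _).2 ⟨Pool.Agent.N68.QP.Az.closure_X,
    Pool.Agent.N68.QP.Az.hyp, Pool.Agent.N68.QP.std_lox, Pool.Agent.N68.QP.std_common⟩, ?_⟩
  intro Y hY
  obtain ⟨h1, ⟨δ, h2⟩, h3, -⟩ := (hQP Y).1 hY
  exact Pool.Agent.N68.QP.unique_structure h1 h2 h3

end Pool.Agent.S02425
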