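-- Proof of frozen statement S02695; the statement below is byte-identical to the template.
import Pool.Statements.S02695
import Pool.Agent.N418.CZ.Fin
import Pool.Agent.N84.CZ.BC
import Pool.Agent.N707.CZ.CEN
import Pool.Agent.N418.CZ.ITCT
import Pool.Agent.N401.CZ.ReMul
import Pool.Agent.N495.CZ.OneCon
import Pool.Agent.N297.CZ.TSA
import Pool.Agent.N654.CZ.TSB
import Pool.Agent.N38.CZ.Free
import Pool.Agent.N572.CZ.RAZ
import Pool.Agent.N8.CZ.TRC
import Pool.Agent.N78.CZ.WP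
import Pool.Agent.N386.CZ.DD
import Pool.Agent.N527.CZ.Low
import Pool.Agent.N721.CZ.At
import Pool.Agent.N514.CZ.CH12
import Pool.Agent.N572.CZ.CH3
import Pool.Agent.N55.CZ.LC
import Pool.Agent.N539.CZ.Gr
import Pool.Agent.N539.CZ.Rat
import Pool.Agent.N543.CZ.LIM

set_option autoImplicit false
open Pool Pool.MP_aed2d0_al

namespace Pool.Agent.S02695

/-- For every characteristic-zero field F and k ≥ 1, the ratio of central codimensions to ordinary codimensions of k×k matrices over F converges to some real limit between 0 and 1 as n goes to infinity. -/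
theorem result :
    ∀ (F : Type) [Field F] [CharZero F] (k : ℕ), 1 ≤ k →
      ∃ α : ℝ, 0 ≤ α ∧ α ≤ 1 ∧
        Filter.Tendsto (fun n : ℕ =>
          (Module.finrank F (Submodule.span F (Set.range (fun σ : Equiv.Perm (Fin n) =>
              fun x : Fin n → Matrix (Fin k) (Fin k) F =>
                Submodule.mkQ (Subalgebra.toSubmodule (Subalgebra.center F (Matrix (Fin k) (Fin k) F)))
                  (List.ofFn (fun i => x (σ i))).prod))) : ℝ) /
          (Module.finrank F (Submodule.span F (Set.range (fun σ : Equiv.Perm (Fin n) =>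
              fun x : Fin n → Matrix (Fin k) (Fin k) F =>
                (List.ofFn (fun i => x (σ i))).prod))) : ℝ))
          Filter.atTop (nhds α) := by
  exact Pool.Agent.N418.CZ.frozen Pool.Agent.N84.CZ.t_BC Pool.Agent.N707.CZ.t_CEN
    Pool.Agent.N418.CZ.ITCT.t_IT Pool.Agent.N418.CZ.ITCT.t_CT
    (Pool.Agent.N297.CZ.t_TSA Pool.Agent.N401.CZ.t_RE Pool.Agent.N401.CZ.t_MUL
      Pool.Agent.N495.CZ.t_CON)
    Pool.Agent.N654.CZTSB.t_TSB Pool.Agent.N38.CZ.t_FREE
    (Pool.Agent.N386.CZ.t_DD Pool.Agent.N572.CZ.RAZ.t_RAZ Pool.Agent.N8.CZ.TRC.t_TRC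
      Pool.Agent.N78.CZ.t_WP Pool.Agent.N418.CZ.ITCT.t_IT)
    (Pool.Agent.N527.CZ.Low.t_LOW Pool.Agent.N401.CZ.t_RE) Pool.Agent.N721.CZ.At.t_AT
    (Pool.Agent.N55.CZ.t_LC Pool.Agent.N721.CZ.At.t_AT Pool.Agent.N514.CZ.t_CH1
      Pool.Agent.N514.CZ.t_CH2 Pool.Agent.N572.CZ.t_CH3)
    Pool.Agent.N539.CZ.GR.t_GR Pool.Agent.N539.CZ.t_RAT Pool.Agent.N543.CZ.LIM.t_LIM

end Pool.Agent.S02695
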