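import Pool.Statements.S02882
import Pool.Agent.N799.PW.Cnt
import Pool.Agent.N799.PW.Pal

set_option autoImplicit false
open Pool Pool.MP_bb0bfc_al

namespace Pool.Agent.S02882

/-- The negation of the preceding statement: For every finitely generated group G: some finite generating set gives a uniform bound on the number of palindromic words needed to write any element iff there is a uniform bound on the number of commutators needed to write any element of the derived subgroup. -/
theorem result :
    ¬ (∀ (G : Type) [Group G] [Group.FG G],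
      (∃ S : Finset G, Subgroup.closure (S : Set G) = ⊤ ∧
        ∃ n : ℕ, ∀ g : G, ∃ L : List (List G), L.length ≤ n ∧
          (∀ w ∈ L, w.reverse = w ∧ ∀ x ∈ w, x ∈ S ∨ x⁻¹ ∈ S) ∧
          (L.map List.prod).prod = g) ↔
      (∃ n : ℕ, ∀ g ∈ commutator G, ∃ l : List G, l.length ≤ n ∧
          (∀ c ∈ l, c ∈ commutatorSet G) ∧ l.prod = g)) := by
  classical
  intro h
  refine Pool.Agent.N799.PW.cw_infinite ((h (FreeGroup (Fin 2))).1 ?_)
  refine ⟨{Pool.Agent.N799.PW.X, Pool.Agent.N799.PW.Y, Pool.Agent.N799.PW.X * Pool.Agent.N799.PW.Y},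
    ?_, 3, ?_⟩
  · rw [eq_top_iff, ← FreeGroup.closure_range_of, Subgroup.closure_le]
    rintro _ ⟨i, rfl⟩
    apply Subgroup.subset_closure
    fin_cases i
    · simp [Pool.Agent.N799.PW.X]
    · simp [Pool.Agent.N799.PW.Y]
  · intro g
    obtain ⟨L, hL1, hL2, hL3⟩ := Pool.Agent.N799.PW.width g
    refine ⟨L, hL1, fun w hw => ⟨(hL2 w hw).1, fun x hx => ?_⟩, hL3⟩
    have := (hL2 w hw).2 x hx
    simpa [Pool.Agent.N799.PW.Letter] using this

end Pool.Agent.S02882
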