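import Pool.Statements.S03154
-- import your own Pool.Agent.* helpers here
import Pool.Agent.N44.FA.Main
import Pool.Agent.N711.FA.IDEM
import Pool.Agent.N618.FA.Onto
import Pool.Agent.N861.FA.NFQR
import Pool.Agent.N591.FA.EL
import Pool.Agent.N713.FA.SGL
import Pool.Agent.N853.FA.NFQG
import Pool.Agent.N314.FA.NFQH
import Pool.Agent.N814.FA.PRO
import Pool.Agent.N507.FA.Fap
import Pool.Agent.N704.FA.GEN
import Pool.Agent.N697.FA.ADD
import Pool.Agent.N187.FA.MIXS
import Pool.Agent.N2.FA.WW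
import Pool.Agent.N434.FA.TREEH
import Pool.Agent.N704.FA.Path
import Pool.Agent.N935.FA.Greedy

set_option autoImplicit false
open Pool Pool.MP_d2e081_al

namespace Pool.Agent.S03154

/-- The negation of the preceding statement: For residually finite groups G, H and injective u: G→H inducing an isomorphism of profinite completions (given via finite-index normal subgroups), if every inversion-free action of G on a tree has a fixed vertex, the same holds for H. -/
theorem result :
    ¬ (∀ (G H : Type) [Group G] [Group H] (u : G →* H),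
      (∀ g : G, g ≠ 1 → ∃ N : Subgroup G, N.Normal ∧ N.index ≠ 0 ∧ g ∉ N) →
      (∀ h : H, h ≠ 1 → ∃ M : Subgroup H, M.Normal ∧ M.index ≠ 0 ∧ h ∉ M) →
      Function.Injective u →
      (∀ N : Subgroup G, N.Normal → N.index ≠ 0 →
        ∃ M : Subgroup H, M.Normal ∧ M.index ≠ 0 ∧ M.comap u ≤ N) →
      (∀ M : Subgroup H, M.Normal → M.index ≠ 0 →
        ∀ h : H, ∃ g : G, ∃ m ∈ M, h = u g * m) →
      (∀ (V : Type) [MulAction G V] (T : SimpleGraph V), T.IsTree →
        (∀ g : G, ∀ x y : V, T.Adj x y → T.Adj (g • x) (g • y)) →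
        (∀ g : G, ∀ x y : V, T.Adj x y → ¬ (g • x = y ∧ g • y = x)) →
        ∃ v : V, ∀ g : G, g • v = v) →
      (∀ (V : Type) [MulAction H V] (T : SimpleGraph V), T.IsTree →
        (∀ h : H, ∀ x y : V, T.Adj x y → T.Adj (h • x) (h • y)) →
        (∀ h : H, ∀ x y : V, T.Adj x y → ¬ (h • x = y ∧ h • y = x)) →
        ∃ v : V, ∀ h : H, h • v = v)) := by
  exact Pool.Agent.N44.FA.main
    (Pool.Agent.N713.FA.t_sgl Pool.Agent.N711.FA.IDEM.t_idem Pool.Agent.N618.FA.t_onto
      Pool.Agent.N591.FA.t_el)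
    (Pool.Agent.N853.FA.t_nfqg
      (Pool.Agent.N713.FA.single_mem Pool.Agent.N711.FA.IDEM.t_idem Pool.Agent.N618.FA.t_onto)
      Pool.Agent.N861.FA.t_nfqr)
    Pool.Agent.N314.FA.t_nfqh Pool.Agent.N814.FA.t_pro Pool.Agent.N507.FA.t_fap
    Pool.Agent.N704.FA.t_gen
    (Pool.Agent.N187.FA.t_mixs
      (Pool.Agent.N935.FA.t_greedy (Pool.Agent.N704.FA.t_path Pool.Agent.N697.FA.t_add)))
    Pool.Agent.N2.FA.WW.t_ww Pool.Agent.N434.FA.t_treeh

end Pool.Agent.S03154
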