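import Pool.Statements.S03720
import Pool.Agent.Results.MP_05ecc1_an.AllEvenDimensions

set_option autoImplicit false
open Pool Pool.MP_05ecc1_an

namespace Pool.Agent.S03720

/-- The negation of the preceding statement: For n ≥ 3 and N nonzero real charges at distinct points of R^n, every finite set of isolated critical points of the potential sum q_i/∣x−a_i∣^(n−2) has at most (N−1)^2 elements. -/
theorem result :
    ¬ (∀ (n N : ℕ), 3 ≤ n → 1 ≤ N →
  ∀ (a : Fin N → EuclideanSpace ℝ (Fin n)) (q : Fin N → ℝ),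
    Function.Injective a → (∀ i, q i ≠ 0) →
    ∀ S : Finset (EuclideanSpace ℝ (Fin n)),
      (∀ x ∈ S, (∀ i, x ≠ a i) ∧
        fderiv ℝ (fun z : EuclideanSpace ℝ (Fin n) => ∑ i, q i / ‖z - a i‖ ^ (n - 2)) x = 0 ∧
        ∃ ε > (0 : ℝ), ∀ y : EuclideanSpace ℝ (Fin n), dist y x < ε → y ≠ x → (∀ i, y ≠ a i) →
          fderiv ℝ (fun z : EuclideanSpace ℝ (Fin n) => ∑ i, q i / ‖z - a i‖ ^ (n - 2)) y ≠ 0) →
      S.card ≤ (N - 1) ^ 2) := by
  intro H
  obtain ⟨a, q, S, ha, hq, hS, -, -, hcard⟩ :=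
    Pool.Agent.Results.MP_05ecc1_an.AllEvenDimensions.result.1 8 (by decide) (by norm_num)
  have h1 := hcard (le_refl 8)
  have h2 := H 8 (8 + 1) (by norm_num) (by norm_num) a q ha hq S (fun x hx => (hS x hx).2)
  exact absurd h1 (not_lt.mpr h2)

end Pool.Agent.S03720
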