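import Pool.Statements.S04099
import Pool.Agent.N289.CV.Main

set_option autoImplicit false
open Pool Pool.MP_26d61a_an

namespace Pool.Agent.S04099

/-- Every smooth bounded convex domain in C^2 has a constant C such that each smooth bounded dbar-closed (0,1)-form f on it equals dbar u for some smooth u on the domain with sup∣u∣ at most C times sup∣f∣. -/
theorem result :
  ∀ Ω : Set (Fin 2 → ℂ), IsOpen Ω → Ω.Nonempty → Bornology.IsBounded Ω → Convex ℝ Ω →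
    (∃ ρ : (Fin 2 → ℂ) → ℝ, ContDiff ℝ ((⊤ : ℕ∞) : WithTop ℕ∞) ρ ∧
        Ω = {x | ρ x < 0} ∧ ∀ x, ρ x = 0 → fderiv ℝ ρ x ≠ 0) →
    ∃ C : ℝ, 0 ≤ C ∧ ∀ f : Fin 2 → (Fin 2 → ℂ) → ℂ, ∀ M : ℝ,
      (∀ j, ContDiffOn ℝ ((⊤ : ℕ∞) : WithTop ℕ∞) (f j) Ω) →
      (∀ x ∈ Ω,
        (1/2 : ℂ) * (fderiv ℝ (f 1) x (Pi.single 0 (1 : ℂ))
            + Complex.I * fderiv ℝ (f 1) x (Pi.single 0 Complex.I))
          = (1/2 : ℂ) * (fderiv ℝ (f 0) x (Pi.single 1 (1 : ℂ))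
            + Complex.I * fderiv ℝ (f 0) x (Pi.single 1 Complex.I))) →
      (∀ x ∈ Ω, ∀ j, ‖f j x‖ ≤ M) →
      ∃ u : (Fin 2 → ℂ) → ℂ, ContDiffOn ℝ ((⊤ : ℕ∞) : WithTop ℕ∞) u Ω ∧
        (∀ x ∈ Ω, ∀ j : Fin 2,
          (1/2 : ℂ) * (fderiv ℝ u x (Pi.single j (1 : ℂ))
              + Complex.I * fderiv ℝ u x (Pi.single j Complex.I)) = f j x) ∧
        ∀ x ∈ Ω, ‖u x‖ ≤ C * M := by
  intro Ω ho hne hb hc hρ
  exact Pool.Agent.N289.CV.main_thm Ω ho hne hb hc hρ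

end Pool.Agent.S04099
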