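import Pool.Statements.S04135
import Pool.Agent.Results.MP_28e115_an.RadialImages
import Pool.Agent.N677.ArcLength

set_option autoImplicit false
open MeasureTheory
open Pool Pool.MP_28e115_an

namespace Pool.Agent.S04135

/-- For every n ≥ 2 there is a bounded holomorphic function on the unit ball of ℂⁿ whose restriction to almost every radius r ↦ f(rζ), 0 ≤ r < 1, has infinite total variation, i.e. a nonrectifiable image. -/
theorem result :
    ∀ n : ℕ, 2 ≤ n →
      ∃ f : (Fin n → ℂ) → ℂ,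
        DifferentiableOn ℂ f {z : Fin n → ℂ | ∑ i, ‖z i‖ ^ 2 < 1} ∧
        (∃ M : ℝ, ∀ z ∈ {z : Fin n → ℂ | ∑ i, ‖z i‖ ^ 2 < 1}, ‖f z‖ ≤ M) ∧
        ∀ᵐ x ∂(volume : Measure (Fin n → ℂ)),
          eVariationOn
            (fun r : ℝ => f ((((r / Real.sqrt (∑ i, ‖x i‖ ^ 2) : ℝ)) : ℂ) • x))
            (Set.Ico (0 : ℝ) 1) = ⊤ := by
  intro n hn
  classical
  let i0 : Fin n := ⟨0, by omega⟩
  let e0 : Metric.sphere (0 : EuclideanSpace ℂ (Fin n)) 1 :=
    ⟨EuclideanSpace.single i0 1, by simp⟩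
  have hns : ∀ x : Fin n → ℂ, x ≠ 0 →
      (((‖WithLp.toLp 2 x‖⁻¹ : ℝ) : ℂ) • (WithLp.toLp 2 x : EuclideanSpace ℂ (Fin n))) ∈
        Metric.sphere (0 : EuclideanSpace ℂ (Fin n)) 1 := by
    intro x hx
    have h1 : ‖(WithLp.toLp 2 x : EuclideanSpace ℂ (Fin n))‖ ≠ 0 := by
      rw [norm_ne_zero_iff]
      intro h
      apply hx
      simpa using h
    rw [mem_sphere_zero_iff_norm, norm_smul, Complex.norm_real, norm_inv, norm_norm,
      inv_mul_cancel₀ h1]
  let N : (Fin n → ℂ) → Metric.sphere (0 : EuclideanSpace ℂ (Fin n)) 1 := fun x =>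
    if h : x = 0 then e0 else
      ⟨((‖WithLp.toLp 2 x‖⁻¹ : ℝ) : ℂ) • (WithLp.toLp 2 x : EuclideanSpace ℂ (Fin n)), hns x h⟩
  have hNv : ∀ x : Fin n → ℂ, x ≠ 0 → (N x : EuclideanSpace ℂ (Fin n)) =
      ((‖WithLp.toLp 2 x‖⁻¹ : ℝ) : ℂ) • (WithLp.toLp 2 x : EuclideanSpace ℂ (Fin n)) := by
    intro x hx
    simp only [N, dif_neg hx]
  have hN : Measurable N := by
    have hme : MeasurableEmbedding
        (Subtype.val : Metric.sphere (0 : EuclideanSpace ℂ (Fin n)) 1 → _) :=
      MeasurableEmbedding.subtype_coe Metric.isClosed_sphere.measurableSet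
    rw [← hme.measurable_comp_iff]
    have h1 : (Subtype.val ∘ N) = fun x => if x = 0 then (e0 : EuclideanSpace ℂ (Fin n)) else
        ((‖WithLp.toLp 2 x‖⁻¹ : ℝ) : ℂ) • (WithLp.toLp 2 x : EuclideanSpace ℂ (Fin n)) := by
      funext x
      by_cases hx : x = 0
      · simp [N, hx]
      · simp only [Function.comp, hNv x hx, if_neg hx]
    rw [h1]
    refine Measurable.ite (measurableSet_singleton 0) measurable_const ?_
    have h2 : Measurable fun x : Fin n → ℂ => (WithLp.toLp 2 x : EuclideanSpace ℂ (Fin n)) :=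
      (PiLp.continuous_toLp 2 (fun _ : Fin n => ℂ)).measurable
    exact (Complex.measurable_ofReal.comp h2.norm.inv).smul h2
  obtain ⟨f, hf, hb, hae⟩ := Pool.Agent.Results.MP_28e115_an.RadialImages.result n (by omega)
    (Measure.map N (volume : Measure (Fin n → ℂ)).toFinite)
  have hball : ∀ z : Fin n → ℂ, ∑ i, ‖z i‖ ^ 2 < 1 →
      (WithLp.toLp 2 z : EuclideanSpace ℂ (Fin n)) ∈
        Metric.ball (0 : EuclideanSpace ℂ (Fin n)) 1 := by
    intro z hz
    rw [mem_ball_zero_iff, EuclideanSpace.norm_eq, Real.sqrt_lt' one_pos, one_pow]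
    exact hz
  refine ⟨fun z => f (WithLp.toLp 2 z), ?_, ⟨1, fun z hz => hb _ (hball z hz)⟩, ?_⟩
  · intro z hz
    have h1 : DifferentiableAt ℂ f (WithLp.toLp 2 z) :=
      (hf _ (hball z hz)).differentiableAt (Metric.isOpen_ball.mem_nhds (hball z hz))
    have h2 : DifferentiableAt ℂ
        (fun z : Fin n → ℂ => (WithLp.toLp 2 z : EuclideanSpace ℂ (Fin n))) z :=
      ((PiLp.continuousLinearEquiv 2 ℂ (fun _ : Fin n => ℂ)).symm :
        (Fin n → ℂ) →L[ℂ] EuclideanSpace ℂ (Fin n)).differentiableAt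
    exact (DifferentiableAt.comp z h1 h2).differentiableWithinAt
  · have h1 := ae_of_ae_map hN.aemeasurable hae
    rw [ae_toFinite] at h1
    have : Nonempty (Fin n) := ⟨i0⟩
    have hne : ∀ᵐ x : Fin n → ℂ, x ≠ 0 := by
      rw [ae_iff]
      simp
    filter_upwards [h1, hne] with x hx hx0
    have hd : ∀ r ∈ Set.Ioo (0 : ℝ) 1, DifferentiableAt ℝ
        (fun t : ℝ => f ((t : ℂ) • (N x : EuclideanSpace ℂ (Fin n)))) r := by
      intro r hr
      have hm : ((r : ℂ) • (N x : EuclideanSpace ℂ (Fin n))) ∈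
          Metric.ball (0 : EuclideanSpace ℂ (Fin n)) 1 := by
        have h3 : ‖(N x : EuclideanSpace ℂ (Fin n))‖ = 1 := mem_sphere_zero_iff_norm.1 (N x).2
        rw [mem_ball_zero_iff, norm_smul, h3, mul_one, Complex.norm_real, Real.norm_eq_abs,
          abs_lt]
        exact ⟨by linarith [hr.1], hr.2⟩
      have h4 : DifferentiableAt ℝ f ((r : ℂ) • (N x : EuclideanSpace ℂ (Fin n))) :=
        ((hf _ hm).differentiableAt (Metric.isOpen_ball.mem_nhds hm)).restrictScalars ℝ
      have h5 : DifferentiableAt ℝ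
          (fun t : ℝ => (t : ℂ) • (N x : EuclideanSpace ℂ (Fin n))) r := by
        have h6 : DifferentiableAt ℝ (fun t : ℝ => (t : ℂ)) r :=
          Complex.ofRealCLM.differentiableAt
        exact h6.smul_const _
      exact DifferentiableAt.comp r h4 h5
    have h2 := Pool.Agent.N677.eVariationOn_eq_top hd hx
    convert h2 using 2
    funext r
    congr 1
    rw [hNv x hx0, smul_smul, ← WithLp.toLp_smul]
    congr 2
    rw [EuclideanSpace.norm_eq, div_eq_mul_inv]
    push_cast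
    rfl


end Pool.Agent.S04135
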