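import Pool.Statements.S04252

set_option autoImplicit false
open Filter Topology
open Pool Pool.MP_309e42_an

namespace Pool.Agent.S04252

/-- Taylor coefficients of sin (sqrt z) / sqrt z. -/
noncomputable def c (n : ℕ) : ℂ := (-1) ^ n / ((2 * n + 1).factorial : ℂ)

/-- The power series. -/
noncomputable def p : FormalMultilinearSeries ℂ ℂ ℂ := FormalMultilinearSeries.ofScalars ℂ c

/-- The function sin (sqrt z) / sqrt z. -/
noncomputable def F (z : ℂ) : ℂ := p.sum z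

theorem c_ne (n : ℕ) : c n ≠ 0 := by
  unfold c
  refine div_ne_zero (pow_ne_zero _ (by norm_num)) ?_
  exact_mod_cast Nat.factorial_ne_zero _

theorem norm_c (n : ℕ) : ‖c n‖ = 1 / ((2 * n + 1).factorial : ℝ) := by
  unfold c
  rw [norm_div, norm_pow, norm_neg, norm_one, one_pow, Complex.norm_natCast]

theorem radius_p : p.radius = ⊤ := by
  refine FormalMultilinearSeries.ofScalars_radius_eq_top_of_tendsto ℂ c
    (Eventually.of_forall c_ne) ?_
  have h : ∀ n : ℕ, ‖c n.succ‖ / ‖c n‖ = 1 / (((2 * n + 3 : ℕ) : ℝ) * ((2 * n + 2 : ℕ) : ℝ)) := by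
    intro n
    rw [norm_c, norm_c]
    have e : 2 * n.succ + 1 = (2 * n + 1) + 1 + 1 := by simp [Nat.succ_eq_add_one]; ring
    rw [e, Nat.factorial_succ ((2 * n + 1) + 1), Nat.factorial_succ (2 * n + 1)]
    have hf : ((2 * n + 1).factorial : ℝ) ≠ 0 := by exact_mod_cast Nat.factorial_ne_zero _
    push_cast
    field_simp
    ring
  simp_rw [h]
  have h2 : Tendsto (fun n : ℕ => (n : ℝ)) atTop atTop := tendsto_natCast_atTop_atTop
  refine squeeze_zero' (Eventually.of_forall fun n => by positivity)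
    (g := fun n : ℕ => 1 / (n : ℝ)) ?_ (tendsto_const_nhds.div_atTop h2)
  filter_upwards [eventually_ge_atTop 1] with n hn
  have hn' : (1 : ℝ) ≤ n := by exact_mod_cast hn
  apply one_div_le_one_div_of_le (by positivity)
  push_cast
  nlinarith

theorem ball : HasFPowerSeriesOnBall F p 0 ⊤ := by
  have := p.hasFPowerSeriesOnBall (by rw [radius_p]; exact ENNReal.zero_lt_top)
  rw [radius_p] at this
  exact this

theorem diff : Differentiable ℂ F := by
  have h := ball.differentiableOn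
  intro z
  exact (h z (by simp)).differentiableAt (by simp)

theorem deriv_ne (n : ℕ) : iteratedDeriv n F 0 ≠ 0 := by
  have h1 : HasFPowerSeriesAt F p 0 := ball.hasFPowerSeriesAt
  have h2 := AnalyticAt.hasFPowerSeriesAt h1.analyticAt
  have h3 := h1.eq_formalMultilinearSeries h2
  have h4 := FormalMultilinearSeries.ofScalars_series_injective ℂ ℂ (h3 : _ = _)
  have h5 := congrFun h4 n
  intro h0
  apply c_ne n
  rw [h5]
  simp [h0]

theorem F_sq (w : ℂ) (hw : w ≠ 0) : F (w ^ 2) = Complex.sin w / w := by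
  have h1 : HasSum (fun n : ℕ => p n fun _ => w ^ 2) (F (0 + w ^ 2)) := ball.hasSum (by simp)
  have h2 := (Complex.hasSum_sin w).div_const w
  have h3 : (fun n : ℕ => p n fun _ => w ^ 2) =
      fun i : ℕ => (-1) ^ i * w ^ (2 * i + 1) / ((2 * i + 1).factorial : ℂ) / w := by
    funext n
    rw [p, FormalMultilinearSeries.ofScalars_apply_eq]
    simp only [c, smul_eq_mul]
    rw [← pow_mul, pow_succ]
    field_simp
  rw [h3, zero_add] at h1
  exact h1.unique h2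

theorem F_zero : F 0 = 1 := by
  have h1 : HasSum (fun n : ℕ => p n fun _ => (0 : ℂ)) (F (0 + 0)) := ball.hasSum (by simp)
  have h2 : HasSum (fun n : ℕ => p n fun _ => (0 : ℂ)) (p 0 fun _ => (0 : ℂ)) := by
    apply hasSum_single
    intro n hn
    rw [p, FormalMultilinearSeries.ofScalars_apply_eq]
    simp [hn]
  have h3 := h1.unique h2
  rw [zero_add] at h3
  rw [h3, p, FormalMultilinearSeries.ofScalars_apply_eq]
  simp [c]

theorem norm_sin_le (w : ℂ) : ‖Complex.sin w‖ ≤ Real.exp ‖w‖ := by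
  have h1 : ‖Complex.exp (-w * Complex.I)‖ ≤ Real.exp ‖w‖ := by
    refine (Complex.norm_exp_le_exp_norm _).trans ?_
    simp
  have h2 : ‖Complex.exp (w * Complex.I)‖ ≤ Real.exp ‖w‖ := by
    refine (Complex.norm_exp_le_exp_norm _).trans ?_
    simp
  rw [Complex.sin, norm_div, norm_mul, Complex.norm_I, mul_one]
  have h3 := norm_sub_le (Complex.exp (-w * Complex.I)) (Complex.exp (w * Complex.I))
  have h4 : ‖(2 : ℂ)‖ = 2 := by simp
  rw [h4]
  linarith

theorem card_eq (t : ℝ) (ht : 0 ≤ t) :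
    Nat.card {n : ℕ // iteratedDeriv n F 0 ≠ 0 ∧ (n : ℝ) ≤ t} = ⌊t⌋₊ + 1 := by
  have h : ∀ n : ℕ, (iteratedDeriv n F 0 ≠ 0 ∧ (n : ℝ) ≤ t) ↔ n ∈ Finset.range (⌊t⌋₊ + 1) := by
    intro n
    rw [Finset.mem_range, Nat.lt_succ_iff, Nat.le_floor_iff ht]
    exact ⟨fun h => h.2, fun h => ⟨deriv_ne n, h⟩⟩
  rw [Nat.card_congr (Equiv.subtypeEquivRight h), Nat.card_eq_fintype_card, Fintype.card_coe,
    Finset.card_range]

theorem lim_count (ξ : ℝ) (h0 : 0 < ξ) (h1 : ξ < 1) :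
    Filter.limsup (fun t : ℝ =>
          (((Nat.card {n : ℕ // iteratedDeriv n F 0 ≠ 0 ∧ (n : ℝ) ≤ t} : ℕ) : ℝ) -
            ((Nat.card {n : ℕ // iteratedDeriv n F 0 ≠ 0 ∧ (n : ℝ) ≤ ξ * t} : ℕ) : ℝ)) /
            ((1 - ξ) * t)) atTop = 1 := by
  apply Tendsto.limsup_eq
  have hx : (1 - ξ) ≠ 0 := by linarith
  have a1 : Tendsto (fun t : ℝ => (⌊(1 : ℝ) * t⌋₊ : ℝ) / t) atTop (𝓝 1) :=
    tendsto_nat_floor_mul_div_atTop (by norm_num)
  have a2 : Tendsto (fun t : ℝ => (⌊ξ * t⌋₊ : ℝ) / t) atTop (𝓝 ξ) :=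
    tendsto_nat_floor_mul_div_atTop h0.le
  have a3 := (a1.sub a2).div_const (1 - ξ)
  rw [div_self hx] at a3
  refine a3.congr' ?_
  filter_upwards [eventually_gt_atTop 0] with t ht
  rw [card_eq t ht.le, card_eq (ξ * t) (by positivity)]
  have ht' : t ≠ 0 := ht.ne'
  push_cast
  rw [one_mul]
  field_simp
  ring

theorem result :
    ¬ (∀ f : ℂ → ℂ, Differentiable ℂ f → (∃ z w : ℂ, f z ≠ f w) →
    ∀ ρ Δ : ℝ,
      (∀ ε : ℝ, 0 < ε → ∀ᶠ r : ℝ in atTop, ∀ z : ℂ, ‖z‖ = r →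
          ‖f z‖ ≤ Real.exp (r ^ (ρ + ε))) →
      Tendsto (fun ξ : ℝ => Filter.limsup (fun t : ℝ =>
          (((Nat.card {n : ℕ // iteratedDeriv n f 0 ≠ 0 ∧ (n : ℝ) ≤ t} : ℕ) : ℝ) -
            ((Nat.card {n : ℕ // iteratedDeriv n f 0 ≠ 0 ∧ (n : ℝ) ≤ ξ * t} : ℕ) : ℝ)) /
            ((1 - ξ) * t)) atTop)
        (𝓝[<] (1 : ℝ)) (𝓝 Δ) →
      ρ * Δ < 1 →
      ¬ ∃ a : ℂ, ∃ γ : ℝ → ℂ, Continuous γ ∧
          Tendsto (fun t : ℝ => ‖γ t‖) atTop atTop ∧
          Tendsto (fun t : ℝ => f (γ t)) atTop (𝓝 a)) := by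
  intro H
  refine H F diff ?_ (1 / 2) 1 ?_ ?_ (by norm_num) ?_
  · refine ⟨0, (Real.pi : ℂ) ^ 2, ?_⟩
    rw [F_zero, F_sq _ (by exact_mod_cast Real.pi_ne_zero), Complex.sin_pi]
    simp
  · intro ε hε
    filter_upwards [eventually_ge_atTop 1] with r hr z hz
    obtain ⟨w, hw⟩ : ∃ w : ℂ, w ^ 2 = z := ⟨z ^ ((2 : ℂ)⁻¹), by
      have := Complex.cpow_nat_inv_pow z (n := 2) (by norm_num)
      exact_mod_cast this⟩
    have hwn : ‖w‖ ^ 2 = r := by rw [← norm_pow, hw, hz]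
    have hw1 : 1 ≤ ‖w‖ := by nlinarith [norm_nonneg w]
    have hw0 : w ≠ 0 := by
      intro h
      rw [h, norm_zero] at hw1
      linarith
    rw [← hw, F_sq w hw0, norm_div]
    have h1 : ‖Complex.sin w‖ / ‖w‖ ≤ Real.exp ‖w‖ := by
      refine (div_le_self (norm_nonneg _) hw1).trans (norm_sin_le w)
    refine h1.trans (Real.exp_le_exp.2 ?_)
    have h2 : ‖w‖ = r ^ (1 / 2 : ℝ) := by
      rw [← hwn, ← Real.sqrt_eq_rpow, Real.sqrt_sq (norm_nonneg _)]
    rw [h2]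
    exact Real.rpow_le_rpow_of_exponent_le hr (by linarith)
  · refine tendsto_const_nhds.congr' ?_
    have : Set.Ioo (0 : ℝ) 1 ∈ 𝓝[<] (1 : ℝ) := Ioo_mem_nhdsLT (by norm_num)
    filter_upwards [this] with ξ hξ
    exact (lim_count ξ hξ.1 hξ.2).symm
  · refine ⟨0, fun t => (t : ℂ) ^ 2, by fun_prop, ?_, ?_⟩
    · have : (fun t : ℝ => ‖((t : ℂ) ^ 2)‖) = fun t : ℝ => t ^ 2 := by
        funext t
        rw [norm_pow, Complex.norm_real, Real.norm_eq_abs, sq_abs]
      rw [this]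
      exact tendsto_pow_atTop (by norm_num)
    · rw [tendsto_zero_iff_norm_tendsto_zero]
      refine squeeze_zero' (Eventually.of_forall fun t => norm_nonneg _)
        (g := fun t : ℝ => 1 / t) ?_ (tendsto_const_nhds.div_atTop tendsto_id)
      filter_upwards [eventually_gt_atTop 0] with t ht
      rw [F_sq _ (by exact_mod_cast ht.ne'), norm_div, Complex.norm_real, Real.norm_eq_abs,
        abs_of_pos ht, ← Complex.ofReal_sin, Complex.norm_real, Real.norm_eq_abs]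
      exact div_le_div_of_nonneg_right (Real.abs_sin_le_one t) ht.le

end Pool.Agent.S04252
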