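import Pool.Statements.S04415
import Pool.Agent.N889.AO.Wrap
import Pool.Agent.N400.AO.Uni
import Pool.Agent.N901.AO.Chr
import Pool.Agent.N866.AO.Int
import Pool.Agent.N196.AO.Morq
import Pool.Agent.N866.AO.Units
import Pool.Agent.N82.AO.RedA
import Pool.Agent.N650.AO.RedB
import Pool.Agent.N296.AO.RedC
import Pool.Agent.N55.AO.Red
import Pool.Agent.N475.AO.LIFT
import Pool.Agent.N891.AO.Open
import Pool.Agent.N945.AO.Apx
import Pool.Agent.N216.AO.Lin
import Pool.Agent.N456.AO.Fld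
import Pool.Agent.N123.AO.Blk
import Pool.Agent.N935.AO.Ext
import Pool.Agent.N833.AO.Modp
import Pool.Agent.N680.AO.Diag
import Pool.Agent.N457.AO.Flag
import Pool.Agent.N519.AO.Pow
import Pool.Agent.N346.AO.Derv
import Pool.Agent.N75.AO.Subq
import Pool.Agent.N562.AO.LieP
import Pool.Agent.N46.AO.Lmat
-- import your own Pool.Agent.* helpers here

set_option autoImplicit false
open scoped TensorProduct
open Pool Pool.MP_3d22c5_an

namespace Pool.Agent.S04415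

/-- If the rational 2-step nilpotent Lie algebra of a finite graph has an automorphism with integral char poly, constant term ±1 and no eigenvalue of modulus 1, then so does every rational Lie algebra whose real form is isomorphic to its real form. -/
theorem result :
    ∀ (n : ℕ) (G : SimpleGraph (Fin n)) (N : Type) [LieRing N] [LieAlgebra ℚ N]
      [FiniteDimensional ℚ N] (b : Module.Basis (Fin n ⊕ G.edgeSet) ℚ N),
      (∀ (i j : Fin n) (h : G.Adj i j), i < j →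
          ⁅b (Sum.inl i), b (Sum.inl j)⁆ = b (Sum.inr ⟨s(i, j), G.mem_edgeSet.mpr h⟩)) →
      (∀ i j : Fin n, ¬ G.Adj i j → ⁅b (Sum.inl i), b (Sum.inl j)⁆ = 0) →
      (∀ (e : G.edgeSet) (k : Fin n ⊕ G.edgeSet), ⁅b (Sum.inr e), b k⁆ = 0) →
      (∃ f : N ≃ₗ⁅ℚ⁆ N, ∃ p : Polynomial ℤ,
          p.map (Int.castRingHom ℚ) = LinearMap.charpoly f.toLinearEquiv.toLinearMap ∧
          (p.coeff 0 = 1 ∨ p.coeff 0 = -1) ∧
          ∀ z : ℂ, (p.map (Int.castRingHom ℂ)).IsRoot z → ‖z‖ ≠ 1) →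
      ∀ (M : Type) [LieRing M] [LieAlgebra ℚ M] [FiniteDimensional ℚ M],
        Nonempty ((ℝ ⊗[ℚ] M) ≃ₗ⁅ℝ⁆ (ℝ ⊗[ℚ] N)) →
        ∃ g : M ≃ₗ⁅ℚ⁆ M, ∃ q : Polynomial ℤ,
          q.map (Int.castRingHom ℚ) = LinearMap.charpoly g.toLinearEquiv.toLinearMap ∧
          (q.coeff 0 = 1 ∨ q.coeff 0 = -1) ∧
          ∀ z : ℂ, (q.map (Int.castRingHom ℂ)).IsRoot z → ‖z‖ ≠ 1 := by
  exact Pool.Agent.N889.AO.final
    (Pool.Agent.N866.AO.stmUnits (Pool.Agent.N901.AO.stmChr Pool.Agent.N400.AO.stmUni)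
      Pool.Agent.N866.AO.stmInt Pool.Agent.N196.AO.stmMorq)
    (Pool.Agent.N55.AO.stmRed Pool.Agent.N82.AO.stmRedA Pool.Agent.N650.AO.stmRedB
      Pool.Agent.N296.AO.stmRedC)
    Pool.Agent.N475.AO.stmLift Pool.Agent.N891.AO.stmOpen Pool.Agent.N945.AO.stmApx
    (Pool.Agent.N833.AO.stmModp (Pool.Agent.N456.AO.stmFld Pool.Agent.N216.AO.stmLin)
      Pool.Agent.N123.AO.stmBlk Pool.Agent.N935.AO.Ext.stmExt)
    Pool.Agent.N680.AO.stmDiag Pool.Agent.N457.AO.Flag.stmFlag Pool.Agent.N519.AO.stmPow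
    (Pool.Agent.N75.AO.stmSubq Pool.Agent.N346.AO.stmDerv) Pool.Agent.N562.AO.LieP.t
    Pool.Agent.N46.AO.stmLmat

end Pool.Agent.S04415
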