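import Pool.Statements.S04503
import Pool.Agent.H352R4.CA.End

set_option autoImplicit false
open Filter Topology
open scoped ENNReal NNReal
open Pool Pool.MP_437602_an

namespace Pool.Agent.S04503

/-- For the (uniquely determined) continuous analytic capacity α(S)=sup over compact F⊆S and continuous f on ℂ, holomorphic off F, ∣f∣≤1, f(∞)=0, of ∣lim z f(z)∣: for compact K,E with α(K)=0, α(E\K)=α(E). -/
theorem result :
    ∀ α : Set ℂ → ℝ≥0∞,
      (∀ S : Set ℂ, α S =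
        ⨆ (F : Set ℂ) (_ : IsCompact F) (_ : F ⊆ S) (f : ℂ → ℂ) (c : ℂ)
          (_ : Continuous f ∧ DifferentiableOn ℂ f Fᶜ ∧ (∀ z, ‖f z‖ ≤ 1) ∧
                Tendsto f (cocompact ℂ) (𝓝 0) ∧
                Tendsto (fun z => z * f z) (cocompact ℂ) (𝓝 c)),
          ((‖c‖₊ : ℝ≥0) : ℝ≥0∞)) →
      ∀ K E : Set ℂ, IsCompact K → IsCompact E → α K = 0 → α (E \ K) = α E := by
  intro α hα K E hK hE h0
  -- the lower bound of the supremum by one admissible function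
  have hmem : ∀ (S L : Set ℂ) (f : ℂ → ℂ) (c : ℂ), IsCompact L → L ⊆ S →
      Pool.Agent.H352R4.CA.Ac L f c → (∀ z, ‖f z‖ ≤ 1) → ((‖c‖₊ : ℝ≥0) : ℝ≥0∞) ≤ α S := by
    intro S L f c hL hLS hf hb
    rw [hα S]
    refine le_iSup_of_le L (le_iSup_of_le hL (le_iSup_of_le hLS (le_iSup_of_le f
      (le_iSup_of_le c (le_iSup_of_le ⟨hf.cont, hf.hol, hb, hf.zero, hf.lim⟩ le_rfl)))))
  apply le_antisymm
  · rw [hα (E \ K), hα E]
    refine iSup_mono fun F => iSup_mono fun _ => ?_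
    refine iSup_le fun hF => ?_
    exact le_iSup_of_le (hF.trans Set.sdiff_subset) le_rfl
  · -- `alpha K = 0`
    have hK0 : Pool.Agent.H352R4.CA.alpha K = 0 := by
      apply le_antisymm _ (Pool.Agent.H352R4.CA.alpha_nonneg K)
      refine Real.sSup_le ?_ le_rfl
      rintro c ⟨f, l, hf, hb, rfl⟩
      have h1 := hmem K K f l hK subset_rfl hf hb
      rw [h0, nonpos_iff_eq_zero, ENNReal.coe_eq_zero, nnnorm_eq_zero] at h1
      rw [h1, norm_zero]
    have hrem := Pool.Agent.H352R4.CA.alpha_remove hE hK hK0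
    rw [hα E]
    refine iSup_le fun F => iSup_le fun hF => iSup_le fun hFE => iSup_le fun f => iSup_le fun c =>
      iSup_le fun hf => ?_
    obtain ⟨h1, h2, h3, h4, h5⟩ := hf
    have hac : Pool.Agent.H352R4.CA.Ac E f c :=
      ⟨h1, h2.mono (Set.compl_subset_compl.2 hFE), h5⟩
    have hle : ‖c‖ ≤ Pool.Agent.H352R4.CA.alpha E := Pool.Agent.H352R4.CA.le_alpha hE hac h3
    rw [← hrem] at hle
    refine ENNReal.le_of_forall_pos_le_add fun ε hε _ => ?_
    have hε' : (0 : ℝ) < ε := hε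
    set T : Set ℝ := {c : ℝ | ∃ L : Set ℂ, IsCompact L ∧ L ⊆ E \ K ∧
      c = Pool.Agent.H352R4.CA.alpha L} with hT
    by_cases hc : ‖c‖ ≤ ε
    · have h6 : ((‖c‖₊ : ℝ≥0) : ℝ≥0∞) ≤ (ε : ℝ≥0∞) := by
        rw [ENNReal.coe_le_coe, ← NNReal.coe_le_coe]
        exact hc
      exact h6.trans le_add_self
    · have hc' : 0 < ‖c‖ - ε := by linarith [not_le.1 hc]
      have hTne : T.Nonempty := ⟨_, ∅, isCompact_empty, Set.empty_subset _, rfl⟩
      obtain ⟨a, ⟨L, hL, hLE, rfl⟩, hlt⟩ := exists_lt_of_lt_csSup hTne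
        (show ‖c‖ - (ε : ℝ) / 2 < sSup T by linarith)
      have hSne : {c | ∃ h l, Pool.Agent.H352R4.CA.Ac L h l ∧ (∀ z, ‖h z‖ ≤ 1) ∧
          c = ‖l‖}.Nonempty :=
        ⟨_, fun _ => 0, 0, ⟨continuous_const, differentiableOn_const _, by simp⟩, by simp, rfl⟩
      obtain ⟨b, ⟨g, l, hg, hgb, rfl⟩, hlt2⟩ := exists_lt_of_lt_csSup hSne
        (show ‖c‖ - (ε : ℝ) < Pool.Agent.H352R4.CA.alpha L by linarith)
      have h7 := hmem (E \ K) L g l hL hLE hg hgb
      refine le_trans ?_ (add_le_add_left h7 _)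
      rw [← ENNReal.coe_add, ENNReal.coe_le_coe, ← NNReal.coe_le_coe]
      rw [NNReal.coe_add]
      change ‖c‖ ≤ ‖l‖ + (ε : ℝ)
      linarith

end Pool.Agent.S04503
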