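import Pool.Statements.S04606
import Pool.Agent.Results.MP_4bee3f_an.EndpointGainFails

/-!
The frozen negation for MP_4bee3f_an follows from the starting theorem `EndpointGainFails`
(the gain of one derivative fails in dimension two for coefficients of class `C^1`).
-/

set_option autoImplicit false
open MeasureTheory
open Pool Pool.MP_4bee3f_an

namespace Pool.Agent.S04606

/-- The negation of the preceding statement: For all n≥2, k, open connected Ω⊆ℝⁿ, and linear elliptic systems with a locally Lipschitz a.e. solution u whose a.e. Jacobian equals a nonvanishing J: if A,B,c,J are C^{k,1} then u is C^{k+1,1}, and if A,B,c,J are C^{k+1} then u is C^{k+2}. -/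
theorem result :
    ¬ (∀ (n : ℕ), 2 ≤ n → ∀ (k : ℕ) (Ω : Set (EuclideanSpace ℝ (Fin n))), IsOpen Ω → IsConnected Ω →
  ∀ (A : Fin n → Fin n → Fin n → EuclideanSpace ℝ (Fin n) → ℝ)
    (B : Fin n → Fin n → EuclideanSpace ℝ (Fin n) → ℝ)
    (c : Fin n → EuclideanSpace ℝ (Fin n) → ℝ)
    (u : Fin n → EuclideanSpace ℝ (Fin n) → ℝ)
    (J : EuclideanSpace ℝ (Fin n) → ℝ),
  (∀ x ∈ Ω, ∀ ξ : Fin n → ℝ, ξ ≠ 0 →
      (Matrix.of fun i l => ∑ j, ξ j * A j i l x).det ≠ 0) →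
  (∀ i, ∀ x ∈ Ω, ∃ C : NNReal, ∃ U ∈ nhds x, LipschitzOnWith C (u i) (U ∩ Ω)) →
  (∀ᵐ x ∂(volume.restrict Ω), ∀ i,
      ∑ j, ∑ l, A j i l x * fderiv ℝ (u l) x (EuclideanSpace.single j 1)
        + ∑ l, B i l x * u l x = c i x) →
  (∀ x ∈ Ω, J x ≠ 0) →
  (∀ᵐ x ∂(volume.restrict Ω),
      (Matrix.of fun i j => fderiv ℝ (u i) x (EuclideanSpace.single j 1)).det = J x) →
  (((∀ j i l, ContDiffOn ℝ k (A j i l) Ω ∧ ∀ x ∈ Ω, ∃ C : NNReal, ∃ U ∈ nhds x,
        LipschitzOnWith C (iteratedFDeriv ℝ k (A j i l)) (U ∩ Ω)) ∧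
    (∀ i l, ContDiffOn ℝ k (B i l) Ω ∧ ∀ x ∈ Ω, ∃ C : NNReal, ∃ U ∈ nhds x,
        LipschitzOnWith C (iteratedFDeriv ℝ k (B i l)) (U ∩ Ω)) ∧
    (∀ i, ContDiffOn ℝ k (c i) Ω ∧ ∀ x ∈ Ω, ∃ C : NNReal, ∃ U ∈ nhds x,
        LipschitzOnWith C (iteratedFDeriv ℝ k (c i)) (U ∩ Ω)) ∧
    (ContDiffOn ℝ k J Ω ∧ ∀ x ∈ Ω, ∃ C : NNReal, ∃ U ∈ nhds x,
        LipschitzOnWith C (iteratedFDeriv ℝ k J) (U ∩ Ω)) →
    ∀ i, ContDiffOn ℝ (k + 1) (u i) Ω ∧ ∀ x ∈ Ω, ∃ C : NNReal, ∃ U ∈ nhds x,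
        LipschitzOnWith C (iteratedFDeriv ℝ (k + 1) (u i)) (U ∩ Ω)) ∧
   ((∀ j i l, ContDiffOn ℝ (k + 1) (A j i l) Ω) ∧
    (∀ i l, ContDiffOn ℝ (k + 1) (B i l) Ω) ∧
    (∀ i, ContDiffOn ℝ (k + 1) (c i) Ω) ∧
    ContDiffOn ℝ (k + 1) J Ω →
    ∀ i, ContDiffOn ℝ (k + 2) (u i) Ω))) := by
  intro hall
  obtain ⟨Ω, A, B, c, u, x₀, hop, hcon, hx₀, hell, hA, hB, hc, hsol, hJ, hJr, hfail⟩ :=
    (Pool.Agent.Results.MP_4bee3f_an.EndpointGainFails.result 0).2
  have H := hall 2 le_rfl 0 Ω hop hcon (fun j i l x => A j x i l) (fun i l x => B x i l)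
    (fun i x => c x i) (fun i x => u x i) (Pool.Agent.Results.MP_4bee3f_an.EndpointGainFails.jac u) ?_ ?_ ?_ hJ ?_
  · have H2 := H.2 ⟨fun j i l => by simpa using (hA j i l).1, fun i l => by simpa using (hB i l).1,
      fun i => by simpa using (hc i).1, by simpa using hJr.1⟩
    have hu2 : ContDiffOn ℝ 2 u Ω := by
      rw [contDiffOn_euclidean]
      intro i
      simpa using H2 i
    refine hfail Ω hop hx₀ subset_rfl ⟨by simpa using hu2, ?_⟩
    intro x hx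
    have hcont : ContinuousAt (iteratedFDeriv ℝ 2 u) x := by
      have h1 : ContinuousOn (iteratedFDerivWithin ℝ 2 u Ω) Ω :=
        hu2.continuousOn_iteratedFDerivWithin (by norm_num) hop.uniqueDiffOn
      have h2 : ContinuousAt (iteratedFDerivWithin ℝ 2 u Ω) x :=
        h1.continuousAt (hop.mem_nhds hx)
      refine h2.congr ?_
      filter_upwards [hop.mem_nhds hx] with y hy
      exact iteratedFDerivWithin_of_isOpen 2 hop hy
    obtain ⟨δ, hδ, hb⟩ := Metric.continuousAt_iff.1 hcont 1 one_pos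
    refine ⟨2, Metric.ball x δ, Metric.ball_mem_nhds x hδ, ?_⟩
    intro y hy z hz
    have e1 := hb (show dist y x < δ from hy.1)
    have e2 := hb (show dist z x < δ from hz.1)
    simp only [Real.rpow_zero, mul_one]
    have e3 := dist_triangle_right (iteratedFDeriv ℝ 2 u y) (iteratedFDeriv ℝ 2 u z)
      (iteratedFDeriv ℝ 2 u x)
    rw [dist_eq_norm] at e3
    have e4 : ‖iteratedFDeriv ℝ (0 + 1 + 1) u y - iteratedFDeriv ℝ (0 + 1 + 1) u z‖ =
      ‖iteratedFDeriv ℝ 2 u y - iteratedFDeriv ℝ 2 u z‖ := rfl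
    rw [e4]
    linarith
  · intro x hx ξ hξ
    have := hell x hx ξ hξ
    convert this using 2
    ext i l
    simp [Matrix.sum_apply]
  · intro i x hx
    obtain ⟨C, t, ht, hL⟩ := hsol.1 hx
    rw [hop.nhdsWithin_eq hx] at ht
    refine ⟨C, t, ht, ?_⟩
    intro y hy z hz
    have h1 := hL hy.1 hz.1
    refine le_trans ?_ h1
    rw [edist_eq_enorm_sub, edist_eq_enorm_sub]
    have : ‖u y i - u z i‖ ≤ ‖u y - u z‖ := by
      have := EuclideanSpace.norm_eq (u y - u z)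
      exact PiLp.norm_apply_le (u y - u z) i
    exact enorm_le_iff_norm_le.2 this
  · filter_upwards [hsol.2] with x hx i
    have hd := hx.1
    have he := congrFun hx.2 i
    have hcomp : ∀ l, ∀ v, fderiv ℝ (fun y => u y l) x v = fderiv ℝ u x v l := by
      intro l v
      have h1 : HasFDerivAt (fun y => u y l) ((EuclideanSpace.proj l : _ →L[ℝ] ℝ).comp (fderiv ℝ u x)) x :=
        (EuclideanSpace.proj l : EuclideanSpace ℝ (Fin 2) →L[ℝ] ℝ).hasFDerivAt.comp x hd.hasFDerivAt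
      rw [h1.fderiv]
      rfl
    simp only [hcomp]
    simp only [Pi.add_apply, Finset.sum_apply, Matrix.mulVec, dotProduct] at he
    exact he
  · filter_upwards [hsol.2] with x hx
    have hd := hx.1
    have hcomp : ∀ l, ∀ v, fderiv ℝ (fun y => u y l) x v = fderiv ℝ u x v l := by
      intro l v
      have h1 : HasFDerivAt (fun y => u y l) ((EuclideanSpace.proj l : _ →L[ℝ] ℝ).comp (fderiv ℝ u x)) x :=
        (EuclideanSpace.proj l : EuclideanSpace ℝ (Fin 2) →L[ℝ] ℝ).hasFDerivAt.comp x hd.hasFDerivAt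
      rw [h1.fderiv]
      rfl
    simp only [hcomp]
    rfl

end Pool.Agent.S04606
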