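import Pool.Statements.S04624

set_option autoImplicit false
open MeasureTheory
open Pool Pool.MP_4d58d7_an

namespace Pool.Agent.S04624

/-- The sketching matrix with sign `s`: columns `e₁, e₂, (1, s)/11, (1, s)/33, (1, s)/33`. -/
noncomputable def Om (s : ℝ) : Fin 2 → Fin 5 → ℝ :=
  ![![1, 0, 1 / 11, 1 / 33, 1 / 33], ![0, 1, s / 11, s / 33, s / 33]]

/-- The law: the zero matrix with probability `1/100`, otherwise `Om 1` or `Om (-1)`. -/
noncomputable def mu : Measure (Fin 2 → Fin 5 → ℝ) :=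
  ENNReal.ofReal (99 / 200) • Measure.dirac (Om 1) +
    (ENNReal.ofReal (99 / 200) • Measure.dirac (Om (-1)) +
      ENNReal.ofReal (1 / 100) • Measure.dirac 0)

instance : IsProbabilityMeasure mu := by
  constructor
  simp only [mu, Measure.coe_add, Measure.coe_smul, Pi.add_apply, Pi.smul_apply,
    measure_univ, smul_eq_mul, mul_one]
  rw [← ENNReal.ofReal_add (by norm_num) (by norm_num),
    ← ENNReal.ofReal_add (by norm_num) (by norm_num)]
  norm_num

theorem mu_apply (S : Set (Fin 2 → Fin 5 → ℝ)) :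
    mu S = ENNReal.ofReal (99 / 200) * Measure.dirac (Om 1) S +
    (ENNReal.ofReal (99 / 200) * Measure.dirac (Om (-1)) S +
      ENNReal.ofReal (1 / 100) * Measure.dirac 0 S) := by
  simp [mu]

theorem sq_Om (s : ℝ) (x : Fin 2 → ℝ) :
    ∑ j, (∑ i, Om s i j * x i) ^ 2 = x 0 ^ 2 + x 1 ^ 2 + (x 0 + s * x 1) ^ 2 / 99 := by
  simp [Om, Fin.sum_univ_succ]
  ring

theorem iso (x : Fin 2 → ℝ) :
    ∫ ω, (∑ j, (∑ i, ω i j * x i) ^ 2) ∂mu = ∑ i, x i ^ 2 := by
  have hi : ∀ a : Fin 2 → Fin 5 → ℝ,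
      Integrable (fun ω : Fin 2 → Fin 5 → ℝ => ∑ j, (∑ i, ω i j * x i) ^ 2)
        (Measure.dirac a) := fun a => integrable_dirac (by simp)
  rw [mu, integral_add_measure, integral_add_measure]
  · simp only [integral_smul_measure, integral_dirac, smul_eq_mul]
    rw [sq_Om 1, sq_Om (-1)]
    rw [ENNReal.toReal_ofReal (by norm_num), ENNReal.toReal_ofReal (by norm_num)]
    simp [Fin.sum_univ_two]
    ring
  · exact (hi _).smul_measure (by simp)
  · exact (hi _).smul_measure (by simp)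
  · exact (hi _).smul_measure (by simp)
  · exact ((hi _).smul_measure (by simp)).add_measure ((hi _).smul_measure (by simp))

theorem inj (ε : ℝ) (hε : 0 < ε) (V : Submodule ℝ (Fin 2 → ℝ)) :
    ENNReal.ofReal (99 / 100) ≤
      mu {ω | ∀ x ∈ V, (1 - ε) * ∑ i, x i ^ 2 ≤ ∑ j, (∑ i, ω i j * x i) ^ 2} := by
  have h : ∀ s : ℝ,
      Om s ∈ {ω : Fin 2 → Fin 5 → ℝ |
        ∀ x ∈ V, (1 - ε) * ∑ i, x i ^ 2 ≤ ∑ j, (∑ i, ω i j * x i) ^ 2} := by
    intro s x _
    rw [sq_Om s]
    simp only [Fin.sum_univ_two]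
    nlinarith [sq_nonneg (x 0), sq_nonneg (x 1), sq_nonneg (x 0 + s * x 1),
      mul_nonneg hε.le (add_nonneg (sq_nonneg (x 0)) (sq_nonneg (x 1)))]
  rw [mu_apply, Measure.dirac_apply_of_mem (h 1),
    Measure.dirac_apply_of_mem (h (-1)), mul_one, ← add_assoc,
    ← ENNReal.ofReal_add (by norm_num) (by norm_num)]
  refine le_trans ?_ le_self_add
  norm_num

/-- The matrix of the regression problem. -/
noncomputable def AA : Matrix (Fin 2) (Fin 1) ℝ := Matrix.of fun i _ => ![1, 0] i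

/-- The right-hand side. -/
noncomputable def BB : Matrix (Fin 2) (Fin 1) ℝ := Matrix.of fun _ _ => 1

theorem rank_AA : AA.rank = 1 := by
  rw [Matrix.rank_eq_finrank_span_cols]
  have h : Set.range AA.col = {AA.col 0} := by
    ext v
    simp [Set.mem_range, eq_comm]
  rw [h]
  apply finrank_span_singleton
  intro h0
  have := congrFun h0 0
  simp [AA, Matrix.col] at this

/-- The pseudoinverse of the sketched matrix. -/
noncomputable def GG : Matrix (Fin 1) (Fin 5) ℝ :=
  Matrix.of fun _ j => ![99 / 100, 0, 9 / 100, 3 / 100, 3 / 100] j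

theorem TA_apply (s : ℝ) (j : Fin 5) (c : Fin 1) :
    (Matrix.transpose (Matrix.of (Om s)) * AA) j c = ![1, 0, 1 / 11, 1 / 33, 1 / 33] j := by
  rw [Matrix.mul_apply]
  fin_cases j <;> simp [Om, AA]

theorem GTA_apply (s : ℝ) (i c : Fin 1) :
    (GG * (Matrix.transpose (Matrix.of (Om s)) * AA)) i c = 1 := by
  rw [Matrix.mul_apply]
  simp only [TA_apply, GG, Matrix.of_apply, Fin.sum_univ_five]
  simp
  norm_num

theorem GTA_eq (s : ℝ) : GG * (Matrix.transpose (Matrix.of (Om s)) * AA) = 1 := by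
  ext i c
  rw [GTA_apply]
  fin_cases i; fin_cases c; simp

theorem TAG_apply (s : ℝ) (i j : Fin 5) :
    ((Matrix.transpose (Matrix.of (Om s)) * AA) * GG) i j =
      ![1, 0, 1 / 11, 1 / 33, 1 / 33] i * ![99 / 100, 0, 9 / 100, 3 / 100, 3 / 100] j := by
  rw [Matrix.mul_apply]
  simp only [TA_apply, GG, Matrix.of_apply, Finset.univ_unique, Finset.sum_const,
    Finset.card_singleton, one_smul]

theorem exists_pinv (s : ℝ) :
    ∃ G : Matrix (Fin 1) (Fin 5) ℝ,
      (Matrix.transpose (Matrix.of (Om s)) * AA) * G * (Matrix.transpose (Matrix.of (Om s)) * AA)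
          = Matrix.transpose (Matrix.of (Om s)) * AA ∧
      G * (Matrix.transpose (Matrix.of (Om s)) * AA) * G = G ∧
      Matrix.transpose ((Matrix.transpose (Matrix.of (Om s)) * AA) * G)
          = (Matrix.transpose (Matrix.of (Om s)) * AA) * G ∧
      Matrix.transpose (G * (Matrix.transpose (Matrix.of (Om s)) * AA))
          = G * (Matrix.transpose (Matrix.of (Om s)) * AA) ∧
      (G * Matrix.transpose (Matrix.of (Om s)) * BB) 0 0 = 1 + s / 100 := by
  refine ⟨GG, ?_, ?_, ?_, ?_, ?_⟩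
  · rw [Matrix.mul_assoc, GTA_eq, Matrix.mul_one]
  · rw [GTA_eq, Matrix.one_mul]
  · ext i j
    rw [Matrix.transpose_apply, TAG_apply, TAG_apply]
    fin_cases i <;> fin_cases j <;> simp <;> norm_num
  · rw [GTA_eq, Matrix.transpose_one]
  · have h : ∀ c : Fin 2, (GG * Matrix.transpose (Matrix.of (Om s))) 0 c = ![1, s / 100] c := by
      intro c
      rw [Matrix.mul_apply]
      fin_cases c
      · simp [GG, Om, Fin.sum_univ_succ]
        norm_num
      · simp [GG, Om, Fin.sum_univ_succ]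
        ring
    rw [Matrix.mul_apply]
    simp only [h, BB, Matrix.of_apply, Fin.sum_univ_two]
    simp

theorem err (X : Matrix (Fin 1) (Fin 1) ℝ) :
    ∑ i, ∑ j, ((AA * X - BB) i j) ^ 2 = (X 0 0 - 1) ^ 2 + 1 := by
  simp only [Matrix.sub_apply, Matrix.mul_apply, AA, BB, Matrix.of_apply, Fin.sum_univ_two,
    Finset.univ_unique, Finset.sum_singleton, Fin.default_eq_zero]
  simp

theorem result :
    ¬ (∃ C : ℝ, ∃ c₀ : ℝ, 0 < c₀ ∧
    ∀ (n d p k : ℕ), 0 < n → 0 < d → 0 < p → 0 < k →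
    ∀ ε : ℝ, 0 < ε → ε < 1 →
    ∀ (A : Matrix (Fin n) (Fin d) ℝ), A.rank = d →
    ∀ (B : Matrix (Fin n) (Fin p) ℝ),
    ∀ (μ : Measure (Fin n → Fin k → ℝ)) [IsProbabilityMeasure μ],
      (∀ x : Fin n → ℝ, ∫ ω, (∑ j, (∑ i, ω i j * x i) ^ 2) ∂μ = ∑ i, x i ^ 2) →
      (∀ V : Submodule ℝ (Fin n → ℝ), Module.finrank ℝ V = d →
         ENNReal.ofReal (99 / 100) ≤
           μ {ω | ∀ x ∈ V, (1 - ε) * ∑ i, x i ^ 2 ≤ ∑ j, (∑ i, ω i j * x i) ^ 2}) →
      ENNReal.ofReal c₀ ≤ μ {ω | ∀ G : Matrix (Fin d) (Fin k) ℝ,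
          (Matrix.transpose (Matrix.of ω) * A) * G * (Matrix.transpose (Matrix.of ω) * A)
              = Matrix.transpose (Matrix.of ω) * A →
          G * (Matrix.transpose (Matrix.of ω) * A) * G = G →
          Matrix.transpose ((Matrix.transpose (Matrix.of ω) * A) * G)
              = (Matrix.transpose (Matrix.of ω) * A) * G →
          Matrix.transpose (G * (Matrix.transpose (Matrix.of ω) * A))
              = G * (Matrix.transpose (Matrix.of ω) * A) →
          ∀ X : Matrix (Fin d) (Fin p) ℝ,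
            Real.sqrt (∑ i, ∑ j, ((A * (G * Matrix.transpose (Matrix.of ω) * B) - B) i j) ^ 2) ≤
              (1 + C * ε) * Real.sqrt (∑ i, ∑ j, ((A * X - B) i j) ^ 2)}) := by
  rintro ⟨C, c₀, hc₀, H⟩
  obtain ⟨ε, hε⟩ : ∃ ε : ℝ, ε = 1 / (100000 * (|C| + 1)) := ⟨_, rfl⟩
  have hC : 0 < |C| + 1 := by positivity
  have e0 : 0 < ε := by rw [hε]; positivity
  have e1 : ε < 1 := by
    rw [hε, div_lt_one (by positivity)]
    nlinarith [abs_nonneg C]
  have e2 : C * ε ≤ 1 / 100000 := by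
    have h1 : ε * (|C| + 1) = 1 / 100000 := by
      rw [hε]
      field_simp
    nlinarith [le_abs_self C, mul_le_mul_of_nonneg_right (le_abs_self C) e0.le]
  have h := H 2 1 1 5 (by norm_num) (by norm_num) (by norm_num) (by norm_num) ε e0 e1 AA rank_AA BB
    mu iso (fun V _ => inj ε e0 V)
  -- the bound fails for every outcome whose solution is at distance at least `1 / 100` from `1`
  have key : ∀ ω : Fin 2 → Fin 5 → ℝ,
      (∃ G : Matrix (Fin 1) (Fin 5) ℝ,
        (Matrix.transpose (Matrix.of ω) * AA) * G * (Matrix.transpose (Matrix.of ω) * AA)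
            = Matrix.transpose (Matrix.of ω) * AA ∧
        G * (Matrix.transpose (Matrix.of ω) * AA) * G = G ∧
        Matrix.transpose ((Matrix.transpose (Matrix.of ω) * AA) * G)
            = (Matrix.transpose (Matrix.of ω) * AA) * G ∧
        Matrix.transpose (G * (Matrix.transpose (Matrix.of ω) * AA))
            = G * (Matrix.transpose (Matrix.of ω) * AA) ∧
        (1 / 100) ^ 2 ≤ ((G * Matrix.transpose (Matrix.of ω) * BB) 0 0 - 1) ^ 2) →
      ω ∉ {ω : Fin 2 → Fin 5 → ℝ | ∀ G : Matrix (Fin 1) (Fin 5) ℝ,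
          (Matrix.transpose (Matrix.of ω) * AA) * G * (Matrix.transpose (Matrix.of ω) * AA)
              = Matrix.transpose (Matrix.of ω) * AA →
          G * (Matrix.transpose (Matrix.of ω) * AA) * G = G →
          Matrix.transpose ((Matrix.transpose (Matrix.of ω) * AA) * G)
              = (Matrix.transpose (Matrix.of ω) * AA) * G →
          Matrix.transpose (G * (Matrix.transpose (Matrix.of ω) * AA))
              = G * (Matrix.transpose (Matrix.of ω) * AA) →
          ∀ X : Matrix (Fin 1) (Fin 1) ℝ,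
            Real.sqrt (∑ i, ∑ j, ((AA * (G * Matrix.transpose (Matrix.of ω) * BB) - BB) i j) ^ 2) ≤
              (1 + C * ε) * Real.sqrt (∑ i, ∑ j, ((AA * X - BB) i j) ^ 2)} := by
    rintro ω ⟨G, g1, g2, g3, g4, g5⟩ hω
    have h1 := hω G g1 g2 g3 g4 (Matrix.of fun _ _ => 1)
    rw [err, err, Matrix.of_apply, sub_self, zero_pow (by norm_num), zero_add, Real.sqrt_one,
      mul_one] at h1
    have h2 : Real.sqrt (1 + 1 / 10000) ≤ 1 + C * ε :=
      (Real.sqrt_le_sqrt (by nlinarith)).trans h1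
    have h3 : Real.sqrt (1 + 1 / 10000) ≤ 1 + 1 / 100000 := by linarith
    rw [Real.sqrt_le_left (by norm_num)] at h3
    norm_num at h3
  have hS : ∀ S : Set (Fin 2 → Fin 5 → ℝ), Om 1 ∉ S → Om (-1) ∉ S → (0 : Fin 2 → Fin 5 → ℝ) ∉ S →
      mu S = 0 := by
    intro S a1 a2 a3
    rw [mu_apply, Measure.dirac_apply, Measure.dirac_apply, Measure.dirac_apply]
    simp [a1, a2, a3]
  rw [hS _ (key _ ?_) (key _ ?_) (key _ ?_)] at h
  · simp at h
    linarith
  · obtain ⟨G, g1, g2, g3, g4, g5⟩ := exists_pinv 1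
    exact ⟨G, g1, g2, g3, g4, by rw [g5]; norm_num⟩
  · obtain ⟨G, g1, g2, g3, g4, g5⟩ := exists_pinv (-1)
    exact ⟨G, g1, g2, g3, g4, by rw [g5]; norm_num⟩
  · exact ⟨0, by simp, by simp, by simp, by simp, by simp; norm_num⟩

end Pool.Agent.S04624
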