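import Pool.Statements.S04892
import Pool.Agent.N271.Cone.Tr

set_option autoImplicit false
open Pool Pool.MP_65ff7c_an

namespace Pool.Agent.S04892

open MeasureTheory Set Metric Pool.Agent.TH703.Cone Pool.Agent.N271.Cone
open scoped ENNReal Pointwise

/-- the interior of a convex cone, as an open cone -/
theorem int_cone {E : Type*} [NormedAddCommGroup E] [InnerProductSpace ℝ E] (Γ : ConvexCone ℝ E) :
    (∀ z ∈ interior (Γ : Set E), ∀ t : ℝ, 0 < t → t • z ∈ interior (Γ : Set E)) ∧
    (∀ z ∈ interior (Γ : Set E), ∀ w ∈ interior (Γ : Set E), z + w ∈ interior (Γ : Set E)) := by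
  constructor
  · intro z hz t ht
    have h1 : t • (Γ : Set E) ⊆ Γ := by
      rintro _ ⟨y, hy, rfl⟩
      exact Γ.smul_mem ht hy
    have h2 : interior (t • (Γ : Set E)) = t • interior (Γ : Set E) := interior_smul₀ ht.ne' _
    apply interior_mono h1
    rw [h2]
    exact smul_mem_smul_set hz
  · intro z hz w hw
    have h1 : (Γ : Set E) + (Γ : Set E) ⊆ Γ := by
      rintro _ ⟨x, hx, y, hy, rfl⟩
      exact Γ.add_mem hx hy
    apply interior_mono h1
    apply subset_interior_add_left
    exact add_mem_add hz (interior_subset hw)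

/-- The negation of the preceding statement: Some absolute c>0 works in every dimension: if Ω is bounded open convex origin-symmetric and E is a half-volume relative-perimeter minimizer in Ω, some convex cone Γ has Ω∩Γ in E and Ω∩(−Γ) outside E (up to null sets), with ∣Ω∩Γ∣ ≥ c∣Ω∣. -/
theorem result :
    ¬ (∃ c : ℝ, 0 < c ∧
      ∀ (n : ℕ) (Ω E : Set (EuclideanSpace ℝ (Fin n))),
        IsOpen Ω → Ω.Nonempty → Convex ℝ Ω → Bornology.IsBounded Ω →
        (∀ x ∈ Ω, -x ∈ Ω) →
        MeasurableSet E → E ⊆ Ω →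
        MeasureTheory.volume E = MeasureTheory.volume Ω / 2 →
        (∀ F : Set (EuclideanSpace ℝ (Fin n)), MeasurableSet F → F ⊆ Ω →
          MeasureTheory.volume F = MeasureTheory.volume E →
          ∀ φ : EuclideanSpace ℝ (Fin n) → EuclideanSpace ℝ (Fin n),
            ContDiff ℝ 1 φ → HasCompactSupport φ → tsupport φ ⊆ Ω →
            (∀ x, ‖φ x‖ ≤ 1) →
            ∀ ε : ℝ, 0 < ε →
              ∃ ψ : EuclideanSpace ℝ (Fin n) → EuclideanSpace ℝ (Fin n),
                ContDiff ℝ 1 ψ ∧ HasCompactSupport ψ ∧ tsupport ψ ⊆ Ω ∧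
                (∀ x, ‖ψ x‖ ≤ 1) ∧
                (∫ x in E, LinearMap.trace ℝ (EuclideanSpace ℝ (Fin n))
                    (fderiv ℝ φ x).toLinearMap) ≤
                  (∫ x in F, LinearMap.trace ℝ (EuclideanSpace ℝ (Fin n))
                    (fderiv ℝ ψ x).toLinearMap) + ε) →
        ∃ Γ : ConvexCone ℝ (EuclideanSpace ℝ (Fin n)),
          MeasureTheory.volume ((Ω ∩ (Γ : Set (EuclideanSpace ℝ (Fin n)))) \ E) = 0 ∧
          MeasureTheory.volume ((Ω ∩ {x | -x ∈ Γ}) ∩ E) = 0 ∧
          ENNReal.ofReal c * MeasureTheory.volume Ω ≤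
            MeasureTheory.volume (Ω ∩ (Γ : Set (EuclideanSpace ℝ (Fin n))))) := by
  rintro ⟨c₀, hc₀, H⟩
  set c := min c₀ 1 with hcdef
  have hc : 0 < c := lt_min hc₀ one_pos
  obtain ⟨b, ε, A, I, hb, hε, hAm, hAs, hAv, hAI, hmin, hG⟩ := mainW c hc (min_le_right _ _)
  -- the isometry
  have hdim : Module.finrank ℝ (W b) = b + 2 := by
    have h1 : Module.finrank ℝ (W b) = Module.finrank ℝ (ℂ × B b) :=
      LinearEquiv.finrank_eq (WithLp.linearEquiv 2 ℝ (ℂ × B b))
    rw [h1, Module.finrank_prod, Complex.finrank_real_complex, finrank_euclideanSpace_fin,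
      add_comm]
  let T : EuclideanSpace ℝ (Fin (b + 2)) ≃ₗᵢ[ℝ] W b :=
    ((stdOrthonormalBasis ℝ (W b)).reindex (finCongr hdim)).repr.symm
  have hmp : MeasurePreserving T volume volume := T.measurePreserving
  have hpre : ∀ X : Set (W b), MeasurableSet X → volume (T ⁻¹' X) = volume X := fun X hX =>
    hmp.measure_preimage hX.nullMeasurableSet
  have hmp' : MeasurePreserving T.symm volume volume := T.symm.measurePreserving
  have hpre' : ∀ X : Set (EuclideanSpace ℝ (Fin (b + 2))), MeasurableSet X →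
      volume (T.symm ⁻¹' X) = volume X := fun X hX =>
    hmp'.measure_preimage hX.nullMeasurableSet
  have hemb : MeasurableEmbedding T := T.toHomeomorph.measurableEmbedding
  have hemb' : MeasurableEmbedding T.symm := T.symm.toHomeomorph.measurableEmbedding
  have hOm := (isOpen_Om b ε).measurableSet
  have hTs : ∀ X : Set (EuclideanSpace ℝ (Fin (b + 2))), T ⁻¹' (T.symm ⁻¹' X) = X := by
    intro X
    ext x
    change T.symm (T x) ∈ X ↔ x ∈ X
    rw [T.symm_apply_apply]
  have hsT : ∀ X : Set (W b), T.symm ⁻¹' (T ⁻¹' X) = X := by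
    intro X
    ext x
    change T (T.symm x) ∈ X ↔ x ∈ X
    rw [T.apply_symm_apply]
  -- integral transfer
  have hint : ∀ (X : Set (W b)) (Φ : W b → W b),
      ∫ x in T ⁻¹' X, dv (fun y => T.symm (Φ (T y))) x = ∫ z in X, dv Φ z := by
    intro X Φ
    simp_rw [dv_conj]
    exact hmp.setIntegral_preimage_emb hemb (dv Φ) X
  have hint' : ∀ (X : Set (EuclideanSpace ℝ (Fin (b + 2))))
      (φ : EuclideanSpace ℝ (Fin (b + 2)) → EuclideanSpace ℝ (Fin (b + 2))),
      ∫ z in T.symm ⁻¹' X, dv (fun y => T (φ (T.symm y))) z = ∫ x in X, dv φ x := by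
    intro X φ
    have h1 : ∀ z, dv (fun y => T (φ (T.symm y))) z = dv φ (T.symm z) := fun z =>
      dv_conj T.symm φ z
    simp_rw [h1]
    exact hmp'.setIntegral_preimage_emb hemb' (dv φ) X
  obtain ⟨Γ, hΓ1, hΓ2, hΓ3⟩ := H (b + 2) (T ⁻¹' Om b ε) (T ⁻¹' A)
    ((isOpen_Om b ε).preimage T.continuous)
    ⟨0, by
      change T 0 ∈ Om b ε
      rw [map_zero]
      change ‖(0 : ℂ)‖ + ‖(0 : B b)‖ / ε < 1
      simp⟩
    ((convex_Om b hε).linear_preimage T.toLinearEquiv.toLinearMap)
    (by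
      obtain ⟨R, hR⟩ := (isBounded_Om b hε).subset_ball 0
      refine (isBounded_ball (x := 0) (r := R)).subset ?_
      intro x hx
      have := hR hx
      rw [mem_ball, dist_zero_right] at this ⊢
      rwa [T.norm_map] at this)
    (by
      intro x hx
      change T (-x) ∈ Om b ε
      rw [map_neg]
      change ‖-(T x).fst‖ + ‖-(T x).snd‖ / ε < 1
      rw [norm_neg, norm_neg]
      exact hx)
    (T.continuous.measurable hAm)
    (preimage_mono hAs)
    (by rw [hpre _ hAm, hpre _ hOm, hAv])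
    (by
      intro F hF hFs hFv φ hφ1 hφ2 hφ3 hφ4 ε' hε'
      by_contra hcon
      push Not at hcon
      have hQ : PLE (Om b ε) (T.symm ⁻¹' F) ((∫ x in T ⁻¹' A, dv φ x) - ε') := by
        intro Φ hΦ
        have ht := tst_conj T hΦ
        have := hcon (fun y => T.symm (Φ (T y))) ht.c1 ht.cs ht.sub ht.le
        have h2 := hint (T.symm ⁻¹' F) Φ
        rw [hTs] at h2
        rw [← h2]
        have h3 : (∫ x in F, dv (fun y => T.symm (Φ (T y))) x) + ε' <
          ∫ x in T ⁻¹' A, dv φ x := this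
        linarith
      have h1 := hmin (T.symm ⁻¹' F) _ (T.symm.continuous.measurable hF)
        (by
          intro z hz
          have : T (T.symm z) ∈ Om b ε := hFs hz
          rwa [T.apply_symm_apply] at this)
        (by rw [hpre' _ hF, hFv, hpre _ hAm]) hQ
      have h2 := hAI (fun y => T (φ (T.symm y))) (by
        have hφ : Tst (T ⁻¹' Om b ε) φ := ⟨hφ1, hφ2, hφ3, hφ4⟩
        have := tst_conj T.symm hφ
        rw [hsT] at this
        exact this)
      have h3 := hint' (T ⁻¹' A) φ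
      rw [hsT] at h3
      rw [h3] at h2
      linarith)
  -- the cone
  set G₀ : Set (EuclideanSpace ℝ (Fin (b + 2))) := interior (Γ : Set _) with hG₀
  obtain ⟨hs, ha⟩ := int_cone Γ
  refine hG (T.symm ⁻¹' G₀) (isOpen_interior.preimage T.symm.continuous) ?_ ?_ ?_ ?_ ?_
  · intro z hz t ht
    change T.symm (t • z) ∈ G₀
    rw [map_smul]
    exact hs _ hz t ht
  · intro z hz w hw
    change T.symm (z + w) ∈ G₀
    rw [map_add]
    exact ha _ hz _ hw
  · have hm : MeasurableSet ((Om b ε ∩ T.symm ⁻¹' G₀) \ A) :=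
      (hOm.inter (isOpen_interior.preimage T.symm.continuous).measurableSet).diff hAm
    rw [← hpre _ hm]
    refine measure_mono_null ?_ hΓ1
    intro x hx
    obtain ⟨⟨h1, h2⟩, h3⟩ := hx
    refine ⟨⟨h1, ?_⟩, h3⟩
    have h4 : T.symm (T x) ∈ G₀ := h2
    rw [T.symm_apply_apply] at h4
    exact interior_subset h4
  · have hm : MeasurableSet ((Om b ε ∩ {z | -z ∈ T.symm ⁻¹' G₀}) ∩ A) :=
      (hOm.inter (measurable_neg (isOpen_interior.preimage
        T.symm.continuous).measurableSet)).inter hAm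
    rw [← hpre _ hm]
    refine measure_mono_null ?_ hΓ2
    intro x hx
    obtain ⟨⟨h1, h2⟩, h3⟩ := hx
    refine ⟨⟨h1, ?_⟩, h3⟩
    have h4 : T.symm (-(T x)) ∈ G₀ := h2
    rw [map_neg, T.symm_apply_apply] at h4
    have h5 : -x ∈ (Γ : Set (EuclideanSpace ℝ (Fin (b + 2)))) := interior_subset h4
    exact h5
  · have hm : MeasurableSet (Om b ε ∩ T.symm ⁻¹' G₀) :=
      hOm.inter (isOpen_interior.preimage T.symm.continuous).measurableSet
    rw [← hpre _ hm, ← hpre _ hOm]
    have hfr : volume (frontier (Γ : Set (EuclideanSpace ℝ (Fin (b + 2))))) = 0 :=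
      Γ.convex.addHaar_frontier volume
    have hsub : T ⁻¹' Om b ε ∩ (Γ : Set (EuclideanSpace ℝ (Fin (b + 2)))) ⊆
        (T ⁻¹' (Om b ε ∩ T.symm ⁻¹' G₀)) ∪
          frontier (Γ : Set (EuclideanSpace ℝ (Fin (b + 2)))) := by
      intro x hx
      by_cases hxi : x ∈ G₀
      · left
        refine ⟨hx.1, ?_⟩
        change T.symm (T x) ∈ G₀
        rwa [T.symm_apply_apply]
      · right
        exact ⟨subset_closure hx.2, hxi⟩
    calc ENNReal.ofReal c * volume (T ⁻¹' Om b ε)
        ≤ ENNReal.ofReal c₀ * volume (T ⁻¹' Om b ε) := by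
          gcongr
          exact min_le_left _ _
      _ ≤ volume (T ⁻¹' Om b ε ∩ (Γ : Set (EuclideanSpace ℝ (Fin (b + 2))))) := hΓ3
      _ ≤ _ := measure_mono hsub
      _ ≤ _ := measure_union_le _ _
      _ = _ := by rw [hfr, add_zero]

end Pool.Agent.S04892
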