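import Pool.Statements.S04908
import Pool.Agent.Results.MP_68b5a7_an.InteriorPoint

set_option autoImplicit false
open Pool Pool.MP_68b5a7_an

namespace Pool.Agent.S04908

/-- The negation of the preceding statement: For every partition of [0,1)² into finitely many half-open rectangles whose translates also partition it, the piecewise-translation map returns every point to within ε of itself, in Euclidean torus distance, at some time N ≥ 1. -/
theorem result :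
    ¬ (∀ (m : ℕ) (a1 b1 a2 b2 v1 v2 : Fin m → ℝ) (φ : ℝ × ℝ → ℝ × ℝ),
      Pairwise (fun r s : Fin m =>
        Disjoint (Set.Ico (a1 r) (b1 r) ×ˢ Set.Ico (a2 r) (b2 r))
          (Set.Ico (a1 s) (b1 s) ×ˢ Set.Ico (a2 s) (b2 s))) →
      (⋃ r : Fin m, Set.Ico (a1 r) (b1 r) ×ˢ Set.Ico (a2 r) (b2 r))
          = Set.Ico (0:ℝ) 1 ×ˢ Set.Ico (0:ℝ) 1 →
      Pairwise (fun r s : Fin m =>
        Disjoint
          (Set.Ico (a1 r + v1 r) (b1 r + v1 r) ×ˢ Set.Ico (a2 r + v2 r) (b2 r + v2 r))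
          (Set.Ico (a1 s + v1 s) (b1 s + v1 s) ×ˢ Set.Ico (a2 s + v2 s) (b2 s + v2 s))) →
      (⋃ r : Fin m,
          Set.Ico (a1 r + v1 r) (b1 r + v1 r) ×ˢ Set.Ico (a2 r + v2 r) (b2 r + v2 r))
          = Set.Ico (0:ℝ) 1 ×ˢ Set.Ico (0:ℝ) 1 →
      (∀ r : Fin m, ∀ x ∈ Set.Ico (a1 r) (b1 r) ×ˢ Set.Ico (a2 r) (b2 r),
          φ x = (x.1 + v1 r, x.2 + v2 r)) →
      ∀ x ∈ Set.Ico (0:ℝ) 1 ×ˢ Set.Ico (0:ℝ) 1, ∀ ε : ℝ, 0 < ε →
        ∃ N : ℕ, 1 ≤ N ∧ ∃ k1 k2 : ℤ,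
          ((φ^[N] x).1 - x.1 + (k1 : ℝ)) ^ 2 + ((φ^[N] x).2 - x.2 + (k2 : ℝ)) ^ 2 ≤ ε ^ 2) := by
  intro hall
  have hirr : Irrational (Real.sqrt 2 / 4) := by
    have := irrational_sqrt_two.div_natCast (m := 4) (by norm_num)
    exact_mod_cast this
  have h2 : Real.sqrt 2 ^ 2 = 2 := Real.sq_sqrt (by norm_num)
  have h0 : 0 < Real.sqrt 2 / 4 := by positivity
  have h1 : Real.sqrt 2 / 4 < 1 / 2 := by nlinarith [Real.sqrt_nonneg 2]
  have hex := Pool.Agent.Results.MP_68b5a7_an.InteriorPoint.isExchange h0 h1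
  set α : ℝ := Real.sqrt 2 / 4 with hα
  let e : Fin 16 ≃ Fin 4 × Fin 4 := (finProdFinEquiv (m := 4) (n := 4)).symm
  obtain ⟨N, hN, k1, k2, hk⟩ := hall 16
    (fun r => Pool.Agent.Results.MP_68b5a7_an.InteriorPoint.A α (e r).1)
    (fun r => Pool.Agent.Results.MP_68b5a7_an.InteriorPoint.B α (e r).1)
    (fun r => Pool.Agent.Results.MP_68b5a7_an.InteriorPoint.C α (e r).2)
    (fun r => Pool.Agent.Results.MP_68b5a7_an.InteriorPoint.D α (e r).2)
    (fun r => Pool.Agent.Results.MP_68b5a7_an.InteriorPoint.VA α (e r).1)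
    (fun r => Pool.Agent.Results.MP_68b5a7_an.InteriorPoint.VC α (e r).2)
    (Pool.Agent.Results.MP_68b5a7_an.InteriorPoint.φ α)
    (fun r s hrs => hex.disjoint (e r) (e s) (fun h => hrs (e.injective h)))
    ((e.surjective.iUnion_comp (fun i : Fin 4 × Fin 4 =>
      Pool.Agent.Results.MP_68b5a7_an.InteriorPoint.Rect
        (Pool.Agent.Results.MP_68b5a7_an.InteriorPoint.A α i.1)
        (Pool.Agent.Results.MP_68b5a7_an.InteriorPoint.B α i.1)
        (Pool.Agent.Results.MP_68b5a7_an.InteriorPoint.C α i.2)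
        (Pool.Agent.Results.MP_68b5a7_an.InteriorPoint.D α i.2))).trans hex.cover)
    (fun r s hrs => hex.disjoint' (e r) (e s) (fun h => hrs (e.injective h)))
    ((e.surjective.iUnion_comp (fun i : Fin 4 × Fin 4 =>
      Pool.Agent.Results.MP_68b5a7_an.InteriorPoint.Rect
        (Pool.Agent.Results.MP_68b5a7_an.InteriorPoint.A α i.1 +
          Pool.Agent.Results.MP_68b5a7_an.InteriorPoint.VA α i.1)
        (Pool.Agent.Results.MP_68b5a7_an.InteriorPoint.B α i.1 +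
          Pool.Agent.Results.MP_68b5a7_an.InteriorPoint.VA α i.1)
        (Pool.Agent.Results.MP_68b5a7_an.InteriorPoint.C α i.2 +
          Pool.Agent.Results.MP_68b5a7_an.InteriorPoint.VC α i.2)
        (Pool.Agent.Results.MP_68b5a7_an.InteriorPoint.D α i.2 +
          Pool.Agent.Results.MP_68b5a7_an.InteriorPoint.VC α i.2))).trans hex.cover')
    (fun r x hx => hex.trans (e r) x hx)
    (1 / 4, 1 / 4) ⟨⟨by norm_num, by norm_num⟩, ⟨by norm_num, by norm_num⟩⟩ (1 / 8) (by norm_num)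
  obtain ⟨n, rfl⟩ : ∃ n, N = n + 1 := ⟨N - 1, by omega⟩
  obtain ⟨t, k, -, ht0, ht1, h⟩ :=
    Pool.Agent.Results.MP_68b5a7_an.InteriorPoint.orbit hirr h0 h1 n
  rw [h] at hk
  have e1 : (t + k1) ^ 2 + (1 / 2 - t + k2) ^ 2 ≤ (1 / 8 : ℝ) ^ 2 := by
    have h3 : ((1 / 4 + t, 3 / 4 - t) : ℝ × ℝ).1 - ((1 / 4, 1 / 4) : ℝ × ℝ).1 + (k1 : ℝ) = t + k1 := by
      simp only; ring
    have h4 : ((1 / 4 + t, 3 / 4 - t) : ℝ × ℝ).2 - ((1 / 4, 1 / 4) : ℝ × ℝ).2 + (k2 : ℝ) =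
        1 / 2 - t + k2 := by
      simp only; ring
    rw [h3, h4] at hk
    exact hk
  have b1 : |t + k1| ≤ 1 / 8 := by
    rw [abs_le]
    constructor <;> nlinarith [sq_nonneg (t + k1), sq_nonneg (1 / 2 - t + (k2 : ℝ))]
  have b2 : |1 / 2 - t + k2| ≤ 1 / 8 := by
    rw [abs_le]
    constructor <;> nlinarith [sq_nonneg (t + k1), sq_nonneg (1 / 2 - t + (k2 : ℝ))]
  rw [abs_le] at b1 b2
  -- adding, `1/2 + (k1 + k2)` is at most `1/4` in absolute value, impossible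
  have c1 : (-(1 / 4) : ℝ) ≤ 1 / 2 + ((k1 + k2 : ℤ) : ℝ) := by push_cast; linarith [b1.1, b2.1]
  have c2 : 1 / 2 + ((k1 + k2 : ℤ) : ℝ) ≤ (1 / 4 : ℝ) := by push_cast; linarith [b1.2, b2.2]
  have d1 : (-1 : ℝ) < ((k1 + k2 : ℤ) : ℝ) := by linarith
  have d2 : ((k1 + k2 : ℤ) : ℝ) < 0 := by linarith
  have d1' : (-1 : ℤ) < k1 + k2 := by exact_mod_cast d1
  have d2' : k1 + k2 < 0 := by exact_mod_cast d2
  omega

end Pool.Agent.S04908
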