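import Pool.Statements.S05106

set_option autoImplicit false
open Pool Pool.MP_7987d1_an

namespace Pool.Agent.S05106

open Real

/-- the derivatives of the logistic profile in the space variable -/
lemma space_deriv (k b : ℝ) (y : EuclideanSpace ℝ (Fin 1)) :
    HasFDerivAt (fun y : EuclideanSpace ℝ (Fin 1) => sigmoid (k * y 0 + b))
      ((sigmoid (k * y 0 + b) * (1 - sigmoid (k * y 0 + b)) * k) •
        (EuclideanSpace.proj 0 : EuclideanSpace ℝ (Fin 1) →L[ℝ] ℝ)) y := by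
  have h1 : HasFDerivAt (fun y : EuclideanSpace ℝ (Fin 1) => k * y 0 + b)
      (k • (EuclideanSpace.proj 0 : EuclideanSpace ℝ (Fin 1) →L[ℝ] ℝ)) y :=
    (((EuclideanSpace.proj 0 : EuclideanSpace ℝ (Fin 1) →L[ℝ] ℝ).hasFDerivAt).const_mul
      k).add_const b
  have h2 := (hasDerivAt_sigmoid (k * y 0 + b)).comp_hasFDerivAt y h1
  rw [smul_smul] at h2
  exact h2

/-- The negation of the preceding statement: For 1≤n≤8, every C² solution of Δu−u_t=u³−u for t<0 with ∣u∣≤1, ∂u/∂x_n>0 and u_t≥0 has the form u(x,t)=g(ν·x) for a unit vector ν, i.e. is one-dimensional and time-independent. -/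
theorem result :
    ¬ (∀ m : ℕ, m + 1 ≤ 8 → ∀ u : EuclideanSpace ℝ (Fin (m + 1)) × ℝ → ℝ,
    ContDiffOn ℝ 2 u {p | p.2 < 0} →
    (∀ x : EuclideanSpace ℝ (Fin (m + 1)), ∀ t : ℝ, t < 0 →
      |u (x, t)| ≤ 1 ∧
      (∑ i : Fin (m + 1), iteratedFDeriv ℝ 2 (fun y => u (y, t)) x
          (fun _ => EuclideanSpace.single i (1 : ℝ)))
        - deriv (fun s => u (x, s)) t = u (x, t) ^ 3 - u (x, t) ∧
      0 < fderiv ℝ (fun y => u (y, t)) x (EuclideanSpace.single (Fin.last m) (1 : ℝ)) ∧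
      0 ≤ deriv (fun s => u (x, s)) t) →
    ∃ ν : EuclideanSpace ℝ (Fin (m + 1)), ‖ν‖ = 1 ∧
      ∃ g : ℝ → ℝ, ∀ x : EuclideanSpace ℝ (Fin (m + 1)), ∀ t : ℝ, t < 0 →
        u (x, t) = g (inner ℝ ν x)) := by
  intro H
  set k : ℝ := √2 / 2 with hk
  have hk2 : k ^ 2 = 1 / 2 := by
    rw [hk, div_pow, Real.sq_sqrt (by norm_num)]; norm_num
  have hk0 : 0 < k := by positivity
  have H1 := H 0 (by norm_num) (fun p => sigmoid (k * p.1 0 + 3 / 2 * p.2)) ?_ ?_
  · obtain ⟨ν, -, g, hg⟩ := H1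
    have h1 := hg 0 (-1) (by norm_num)
    have h2 := hg 0 (-2) (by norm_num)
    have h3 := h1.trans h2.symm
    simp only at h3
    have h4 := sigmoid_injective h3
    norm_num at h4
  · refine ContDiff.contDiffOn ?_
    have h1 : ContDiff ℝ 2 (fun p : EuclideanSpace ℝ (Fin 1) × ℝ => k * p.1 0 + 3 / 2 * p.2) := by
      have h2 : ContDiff ℝ 2 (fun p : EuclideanSpace ℝ (Fin 1) × ℝ => p.1 0) :=
        (EuclideanSpace.proj 0 : EuclideanSpace ℝ (Fin 1) →L[ℝ] ℝ).contDiff.comp contDiff_fst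
      exact (contDiff_const.mul h2).add (contDiff_const.mul contDiff_snd)
    exact (contDiff_sigmoid.of_le (by exact le_top)).comp h1
  · intro x t _
    simp only
    set S := sigmoid (k * x 0 + 3 / 2 * t) with hS
    have hS0 : 0 < S := sigmoid_pos _
    have hS1 : S < 1 := sigmoid_lt_one _
    -- first space derivative
    have hfd : ∀ y : EuclideanSpace ℝ (Fin 1),
        fderiv ℝ (fun y : EuclideanSpace ℝ (Fin 1) => sigmoid (k * y 0 + 3 / 2 * t)) y =
          (sigmoid (k * y 0 + 3 / 2 * t) * (1 - sigmoid (k * y 0 + 3 / 2 * t)) * k) •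
        (EuclideanSpace.proj 0 : EuclideanSpace ℝ (Fin 1) →L[ℝ] ℝ) :=
      fun y => (space_deriv k (3 / 2 * t) y).fderiv
    -- second space derivative
    have hsd : fderiv ℝ (fderiv ℝ
        (fun y : EuclideanSpace ℝ (Fin 1) => sigmoid (k * y 0 + 3 / 2 * t))) x
        (EuclideanSpace.single 0 1) (EuclideanSpace.single 0 1) =
          k ^ 2 * (S * (1 - S) * (1 - 2 * S)) := by
      have h1 : fderiv ℝ (fun y : EuclideanSpace ℝ (Fin 1) =>
          sigmoid (k * y 0 + 3 / 2 * t)) = fun y => (sigmoid (k * y 0 + 3 / 2 * t) *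
            (1 - sigmoid (k * y 0 + 3 / 2 * t)) * k) •
            (EuclideanSpace.proj 0 : EuclideanSpace ℝ (Fin 1) →L[ℝ] ℝ) := funext hfd
      rw [h1]
      have h2 := space_deriv k (3 / 2 * t) x
      have h3 := (h2.fun_mul (h2.const_sub 1)).mul_const k
      have h4 := h3.smul_const (EuclideanSpace.proj 0 : EuclideanSpace ℝ (Fin 1) →L[ℝ] ℝ)
      rw [HasFDerivAt.fderiv h4]
      simp [← hS]
      ring
    have htd : HasDerivAt (fun s : ℝ => sigmoid (k * x 0 + 3 / 2 * s)) (S * (1 - S) * (3 / 2)) t := by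
      have h1 : HasDerivAt (fun s : ℝ => k * x 0 + 3 / 2 * s) (3 / 2) t := by
        simpa using ((hasDerivAt_id t).const_mul (3 / 2 : ℝ)).const_add (k * x 0)
      exact HasDerivAt.comp (h₂ := sigmoid) t (hasDerivAt_sigmoid (k * x 0 + 3 / 2 * t)) h1
    refine ⟨?_, ?_, ?_, ?_⟩
    · rw [abs_of_pos hS0]; exact hS1.le
    · rw [htd.deriv, Fin.sum_univ_one, iteratedFDeriv_two_apply, hsd, hk2]
      ring
    · rw [hfd]
      simp only [← hS]
      have : (0 : ℝ) < S * (1 - S) * k := mul_pos (mul_pos hS0 (by linarith)) hk0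
      simpa using this
    · rw [htd.deriv]
      exact mul_nonneg (mul_nonneg hS0.le (by linarith)) (by norm_num)

end Pool.Agent.S05106
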