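import Pool.Statements.S05156
-- import your own Pool.Agent.* helpers here

set_option autoImplicit false
open Pool Pool.MP_7d5b5f_an

namespace Pool.Agent.S05156

/-- The negation of the preceding statement: For each p>1 there is C, independent of dimension d and coordinate k, so the discrete Riesz transform with kernel Γ((d+1)/2)π^{-(d+1)/2} x_k/∣x∣^{d+1} on ℤ^d is bounded on ℓ^p with norm at most C (tested on finitely supported f). -/
theorem result :
    ¬ (∀ p : ℝ, 1 < p → ∃ C : ℝ, 0 < C ∧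
      ∀ (d : ℕ) (k : Fin d) (S T : Finset (Fin d → ℤ)) (f : (Fin d → ℤ) → ℝ),
        ∑ n ∈ T, |∑ m ∈ S,
            ((Real.Gamma (((d : ℝ) + 1) / 2) / Real.pi ^ (((d : ℝ) + 1) / 2)) *
              (((n k - m k : ℤ) : ℝ) /
                (Real.sqrt (∑ i, (((n i - m i : ℤ) : ℝ)) ^ 2)) ^ (d + 1))) * f m| ^ p
          ≤ C ^ p * ∑ m ∈ S, |f m| ^ p) := by
  intro h
  obtain ⟨C, hC, h⟩ := h 2 (by norm_num)
  -- the value of the kernel at a unit vector is the normalising constant, which is unbounded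
  have key : ∀ d : ℕ, 0 < d → Real.Gamma (((d : ℝ) + 1) / 2) / Real.pi ^ (((d : ℝ) + 1) / 2) ≤ C := by
    intro d hd
    have h1 := h d ⟨0, hd⟩ {0} {Pi.single ⟨0, hd⟩ 1} (fun _ => 1)
    have h2 : (∑ i : Fin d, (((Pi.single (⟨0, hd⟩ : Fin d) (1 : ℤ) : Fin d → ℤ) i : ℤ) : ℝ) ^ 2) = 1 := by
      rw [Finset.sum_eq_single (⟨0, hd⟩ : Fin d)]
      · simp
      · intro b _ hb
        simp [Pi.single_eq_of_ne hb]
      · simp
    have hG : 0 < Real.Gamma (((d : ℝ) + 1) / 2) := Real.Gamma_pos_of_pos (by positivity)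
    have hP : 0 < Real.pi ^ (((d : ℝ) + 1) / 2) := Real.rpow_pos_of_pos Real.pi_pos _
    have h3 : (0 : ℝ) ≤ Real.Gamma (((d : ℝ) + 1) / 2) / Real.pi ^ (((d : ℝ) + 1) / 2) := by
      positivity
    simp only [Finset.sum_singleton, Pi.zero_apply, sub_zero, h2, Real.sqrt_one, one_pow, div_one,
      Pi.single_eq_same, Int.cast_one, mul_one, abs_one, Real.one_rpow] at h1
    rw [abs_of_nonneg h3] at h1
    exact (Real.rpow_le_rpow_iff h3 hC.le (by norm_num : (0 : ℝ) < 2)).1 h1
  -- odd dimensions d = 2 n + 1: the constant is n! / π ^ (n + 1)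
  have h4 : ∀ n : ℕ, (n.factorial : ℝ) / Real.pi ^ (n + 1) ≤ C := by
    intro n
    have h5 := key (2 * n + 1) (by omega)
    have h6 : (((2 * n + 1 : ℕ) : ℝ) + 1) / 2 = (n : ℝ) + 1 := by push_cast; ring
    rw [h6, Real.Gamma_nat_eq_factorial] at h5
    have h7 : Real.pi ^ ((n : ℝ) + 1) = Real.pi ^ (n + 1) := by
      rw [← Real.rpow_natCast]; push_cast; rfl
    rwa [h7] at h5
  have h8 := FloorSemiring.tendsto_pow_div_factorial_atTop Real.pi
  have h9 : ∀ᶠ n : ℕ in Filter.atTop, Real.pi ^ n / (n.factorial : ℝ) < 1 / (C * Real.pi) :=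
    h8.eventually_lt_const (by have := Real.pi_pos; positivity)
  obtain ⟨n, hn⟩ := h9.exists
  have h10 := h4 n
  have hpi := Real.pi_pos
  have hf : (0 : ℝ) < n.factorial := by exact_mod_cast n.factorial_pos
  have hp : 0 < Real.pi ^ n := by positivity
  rw [div_lt_div_iff₀ hf (by positivity)] at hn
  rw [div_le_iff₀ (by positivity)] at h10
  rw [pow_succ] at h10
  nlinarith

end Pool.Agent.S05156
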