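import Pool.Statements.S05242
import Pool.Agent.N904.PolyDeriv

set_option autoImplicit false
open Pool Pool.MP_830bfa_an

namespace Pool.Agent.S05242

open MvPolynomial Pool.Agent.N904.PD

/-- A polynomial map of `ℝ¹⁴` all of whose Jacobian matrices are unipotent, which is not injective. It is
stably equivalent to a map of `ℝ³` of degree seven with Jacobian determinant one. -/
noncomputable def p : Fin 14 → MvPolynomial (Fin 14) ℝ :=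
  ![X 0 + X 3,
    X 1 + 6 * X 0 * X 2 + X 5,
    X 2 + 4 * X 1 ^ 2 + X 9,
    X 3 + 3 * X 0 ^ 2 * X 1 + X 4,
    X 4 - 2 * X 0 ^ 3 * X 2,
    X 5 - 24 * X 0 * X 1 ^ 2 + X 6,
    X 6 + 24 * X 0 ^ 2 * X 1 * X 2 + X 7,
    X 7 - 36 * X 0 ^ 2 * X 1 ^ 3 + X 8,
    X 8 + 24 * X 0 ^ 3 * X 1 ^ 2 * X 2,
    X 9 - 6 * X 0 * X 1 * X 2 + X 10,
    X 10 + 14 * X 0 * X 1 ^ 3 + X 11,
    X 11 - 12 * X 0 ^ 2 * X 1 ^ 2 * X 2 + X 12,
    X 12 + 12 * X 0 ^ 2 * X 1 ^ 4 + X 13,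
    X 13 - 8 * X 0 ^ 3 * X 1 ^ 3 * X 2]

/-- The Jacobian matrix of the map of `ℂ³`. -/
noncomputable def A (a b c : ℂ) : Matrix (Fin 3) (Fin 3) ℂ :=
  !![1 - 6 * a * b - 6 * a ^ 2 * c, -3 * a ^ 2, -2 * a ^ 3;
    24 * b ^ 2 + 6 * c + 72 * a * b ^ 3 + 48 * a * b * c + 72 * a ^ 2 * b ^ 2 * c,
    1 + 48 * a * b + 108 * a ^ 2 * b ^ 2 + 24 * a ^ 2 * c + 48 * a ^ 3 * b * c,
    6 * a + 24 * a ^ 2 * b + 24 * a ^ 3 * b ^ 2;
    6 * b * c + 14 * b ^ 3 + 24 * a * b ^ 2 * c + 24 * a * b ^ 4 + 24 * a ^ 2 * b ^ 3 * c,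
    8 * b + 6 * a * c + 42 * a * b ^ 2 + 24 * a ^ 2 * b * c + 48 * a ^ 2 * b ^ 3
      + 24 * a ^ 3 * b ^ 2 * c,
    1 + 6 * a * b + 12 * a ^ 2 * b ^ 2 + 8 * a ^ 3 * b ^ 3]

theorem det_A (a b c : ℂ) : (A a b c).det = 1 := by
  unfold A
  rw [Matrix.det_fin_three]
  simp only [Matrix.of_apply, Matrix.cons_val', Matrix.cons_val_zero, Matrix.cons_val_one,
    Matrix.cons_val]
  ring

theorem kernel_A (a b c u v w : ℂ)
    (h0 : (1 - 6 * a * b - 6 * a ^ 2 * c) * u + (-3 * a ^ 2) * v + (-2 * a ^ 3) * w = 0)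
    (h1 : (24 * b ^ 2 + 6 * c + 72 * a * b ^ 3 + 48 * a * b * c + 72 * a ^ 2 * b ^ 2 * c) * u
      + (1 + 48 * a * b + 108 * a ^ 2 * b ^ 2 + 24 * a ^ 2 * c + 48 * a ^ 3 * b * c) * v
      + (6 * a + 24 * a ^ 2 * b + 24 * a ^ 3 * b ^ 2) * w = 0)
    (h2 : (6 * b * c + 14 * b ^ 3 + 24 * a * b ^ 2 * c + 24 * a * b ^ 4 + 24 * a ^ 2 * b ^ 3 * c) * u
      + (8 * b + 6 * a * c + 42 * a * b ^ 2 + 24 * a ^ 2 * b * c + 48 * a ^ 2 * b ^ 3
        + 24 * a ^ 3 * b ^ 2 * c) * v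
      + (1 + 6 * a * b + 12 * a ^ 2 * b ^ 2 + 8 * a ^ 3 * b ^ 3) * w = 0) :
    u = 0 ∧ v = 0 ∧ w = 0 := by
  have h : (A a b c).mulVec ![u, v, w] = 0 := by
    ext i
    fin_cases i
    · simpa [A, Matrix.mulVec, dotProduct, Fin.sum_univ_three] using h0
    · simpa [A, Matrix.mulVec, dotProduct, Fin.sum_univ_three] using h1
    · simpa [A, Matrix.mulVec, dotProduct, Fin.sum_univ_three] using h2
  have h' := Matrix.eq_zero_of_mulVec_eq_zero (by rw [det_A]; exact one_ne_zero) h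
  exact ⟨congrFun h' 0, congrFun h' 1, congrFun h' 2⟩

/-- All eigenvalues of the Jacobian matrices are equal to one. -/
theorem eigenvalue_one (v : Fin 14 → ℝ) (z : ℂ) (w : Fin 14 → ℂ) (hw : w ≠ 0)
    (h : ∀ i, D (fun k => (v k : ℂ)) w (p i) = z * w i) : z = 1 := by
  by_contra hz
  obtain ⟨d, hd⟩ : ∃ d, d = z - 1 := ⟨_, rfl⟩
  have hd0 : d ≠ 0 := by rw [hd]; exact sub_ne_zero.mpr hz
  have hzd : z = d + 1 := by rw [hd]; ring
  obtain ⟨a, ha⟩ : ∃ a : ℂ, (v 0 : ℂ) = -d * a := ⟨-(v 0) / d, by field_simp⟩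
  obtain ⟨b, hb⟩ : ∃ b : ℂ, (v 1 : ℂ) = -d * b := ⟨-(v 1) / d, by field_simp⟩
  obtain ⟨c, hc⟩ : ∃ c : ℂ, (v 2 : ℂ) = -d * c := ⟨-(v 2) / d, by field_simp⟩
  have e0 : D (fun k => (v k : ℂ)) w (X 0 + X 3) = z * w 0 := h 0
  have e1 : D (fun k => (v k : ℂ)) w (X 1 + 6 * X 0 * X 2 + X 5) = z * w 1 := h 1
  have e2 : D (fun k => (v k : ℂ)) w (X 2 + 4 * X 1 ^ 2 + X 9) = z * w 2 := h 2
  have e3 : D (fun k => (v k : ℂ)) w (X 3 + 3 * X 0 ^ 2 * X 1 + X 4) = z * w 3 := h 3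
  have e4 : D (fun k => (v k : ℂ)) w (X 4 - 2 * X 0 ^ 3 * X 2) = z * w 4 := h 4
  have e5 : D (fun k => (v k : ℂ)) w (X 5 - 24 * X 0 * X 1 ^ 2 + X 6) = z * w 5 := h 5
  have e6 : D (fun k => (v k : ℂ)) w (X 6 + 24 * X 0 ^ 2 * X 1 * X 2 + X 7) = z * w 6 := h 6
  have e7 : D (fun k => (v k : ℂ)) w (X 7 - 36 * X 0 ^ 2 * X 1 ^ 3 + X 8) = z * w 7 := h 7
  have e8 : D (fun k => (v k : ℂ)) w (X 8 + 24 * X 0 ^ 3 * X 1 ^ 2 * X 2) = z * w 8 := h 8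
  have e9 : D (fun k => (v k : ℂ)) w (X 9 - 6 * X 0 * X 1 * X 2 + X 10) = z * w 9 := h 9
  have e10 : D (fun k => (v k : ℂ)) w (X 10 + 14 * X 0 * X 1 ^ 3 + X 11) = z * w 10 := h 10
  have e11 : D (fun k => (v k : ℂ)) w (X 11 - 12 * X 0 ^ 2 * X 1 ^ 2 * X 2 + X 12) = z * w 11 := h 11
  have e12 : D (fun k => (v k : ℂ)) w (X 12 + 12 * X 0 ^ 2 * X 1 ^ 4 + X 13) = z * w 12 := h 12
  have e13 : D (fun k => (v k : ℂ)) w (X 13 - 8 * X 0 ^ 3 * X 1 ^ 3 * X 2) = z * w 13 := h 13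
  simp only [D_add, D_sub, D_mul, D_pow, D_X, D_n2, D_n3, D_n4, D_n6, D_n8, D_n12, D_n14, D_n24, D_n36, map_mul, map_pow, aeval_X, map_ofNat, ha, hb,
    hc, hzd] at e0 e1 e2 e3 e4 e5 e6 e7 e8 e9 e10 e11 e12 e13
  push_cast at e0 e1 e2 e3 e4 e5 e6 e7 e8 e9 e10 e11 e12 e13
  have r0 : (1 - 6 * a * b - 6 * a ^ 2 * c) * w 0 + (-3 * a ^ 2) * w 1 + (-2 * a ^ 3) * w 2 = 0 := by
    refine (mul_eq_zero.mp (?_ : d ^ 3 * _ = 0)).resolve_left (pow_ne_zero _ hd0)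
    linear_combination -(d ^ 2) * e0 - d * e3 - e4
  have r1 : (24 * b ^ 2 + 6 * c + 72 * a * b ^ 3 + 48 * a * b * c + 72 * a ^ 2 * b ^ 2 * c) * w 0
      + (1 + 48 * a * b + 108 * a ^ 2 * b ^ 2 + 24 * a ^ 2 * c + 48 * a ^ 3 * b * c) * w 1
      + (6 * a + 24 * a ^ 2 * b + 24 * a ^ 3 * b ^ 2) * w 2 = 0 := by
    refine (mul_eq_zero.mp (?_ : d ^ 5 * _ = 0)).resolve_left (pow_ne_zero _ hd0)
    linear_combination -(d ^ 4) * e1 - d ^ 3 * e5 - d ^ 2 * e6 - d * e7 - e8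
  have r2 : (6 * b * c + 14 * b ^ 3 + 24 * a * b ^ 2 * c + 24 * a * b ^ 4
        + 24 * a ^ 2 * b ^ 3 * c) * w 0
      + (8 * b + 6 * a * c + 42 * a * b ^ 2 + 24 * a ^ 2 * b * c + 48 * a ^ 2 * b ^ 3
        + 24 * a ^ 3 * b ^ 2 * c) * w 1
      + (1 + 6 * a * b + 12 * a ^ 2 * b ^ 2 + 8 * a ^ 3 * b ^ 3) * w 2 = 0 := by
    refine (mul_eq_zero.mp (?_ : d ^ 6 * _ = 0)).resolve_left (pow_ne_zero _ hd0)
    linear_combination -(d ^ 5) * e2 - d ^ 4 * e9 - d ^ 3 * e10 - d ^ 2 * e11 - d * e12 - e13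
  obtain ⟨w0, w1, w2⟩ := kernel_A a b c _ _ _ r0 r1 r2
  simp only [w0, w1, w2] at e0 e1 e2 e3 e4 e5 e6 e7 e8 e9 e10 e11 e12 e13
  have w3 : w 3 = 0 := by linear_combination e0
  rw [w3] at e3
  have w4 : w 4 = 0 := by linear_combination e3
  have w5 : w 5 = 0 := by linear_combination e1
  rw [w5] at e5
  have w6 : w 6 = 0 := by linear_combination e5
  rw [w6] at e6
  have w7 : w 7 = 0 := by linear_combination e6
  rw [w7] at e7
  have w8 : w 8 = 0 := by linear_combination e7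
  have w9 : w 9 = 0 := by linear_combination e2
  rw [w9] at e9
  have w10 : w 10 = 0 := by linear_combination e9
  rw [w10] at e10
  have w11 : w 11 = 0 := by linear_combination e10
  rw [w11] at e11
  have w12 : w 12 = 0 := by linear_combination e11
  rw [w12] at e12
  have w13 : w 13 = 0 := by linear_combination e12
  apply hw
  ext i
  fin_cases i <;> assumption

/-- The map is not injective. -/
theorem not_injective : ¬ Function.Injective (pmap p) := by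
  intro h
  have h1 : pmap p ![-1/4, 2, 36, 3/4, -9/8, 48, -72, -36, 54, -52, -56, 84, 24, -36]
      = pmap p ![1/6, -4, 0, 1/3, 0, 0, 64, -64, 0, -64, 64, 256/3, -256/3, 0] := by
    ext i
    fin_cases i <;> simp [pmap, p] <;> norm_num
  have h2 := congrFun (h h1) 1
  norm_num at h2

/-- The negation of the preceding statement: For every n ≥ 2, a C¹ map f from ℝⁿ to ℝⁿ whose Jacobian is everywhere invertible, with every complex eigenvalue of every Jacobian of modulus at least some fixed ε > 0, is injective. -/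
theorem result :
    ¬ (∀ n : ℕ, 2 ≤ n → ∀ f : (Fin n → ℝ) → (Fin n → ℝ), ContDiff ℝ 1 f →
      (∀ x : Fin n → ℝ,
        (LinearMap.toMatrix' ((fderiv ℝ f x : (Fin n → ℝ) →L[ℝ] (Fin n → ℝ)) :
          (Fin n → ℝ) →ₗ[ℝ] (Fin n → ℝ))).det ≠ 0) →
      (∃ ε : ℝ, 0 < ε ∧ ∀ x : Fin n → ℝ, ∀ z : ℂ,
        Polynomial.aeval z
          (LinearMap.toMatrix' ((fderiv ℝ f x : (Fin n → ℝ) →L[ℝ] (Fin n → ℝ)) :
            (Fin n → ℝ) →ₗ[ℝ] (Fin n → ℝ))).charpoly = 0 → ε ≤ ‖z‖) →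
      Function.Injective f) := by
  intro H
  have key : ∀ x : Fin 14 → ℝ, ∀ z : ℂ,
      Polynomial.aeval z
        (LinearMap.toMatrix' ((fderiv ℝ (pmap p) x : (Fin 14 → ℝ) →L[ℝ] (Fin 14 → ℝ)) :
          (Fin 14 → ℝ) →ₗ[ℝ] (Fin 14 → ℝ))).charpoly = 0 → z = 1 := by
    intro x z hz
    obtain ⟨w, hw, hw2⟩ := exists_eigenvector p x z hz
    exact eigenvalue_one x z w hw hw2
  refine not_injective (H 14 (by norm_num) (pmap p) (contDiff_pmap p) ?_ ⟨1, one_pos, ?_⟩)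
  · intro x hx
    have h0 := key x 0 (by
      have h1 := Matrix.det_eq_sign_charpoly_coeff (LinearMap.toMatrix'
        ((fderiv ℝ (pmap p) x : (Fin 14 → ℝ) →L[ℝ] (Fin 14 → ℝ)) :
          (Fin 14 → ℝ) →ₗ[ℝ] (Fin 14 → ℝ)))
      rw [hx] at h1
      have h2 := (mul_eq_zero.mp h1.symm).resolve_left (pow_ne_zero _ (by norm_num))
      rw [Polynomial.aeval_def, Polynomial.eval₂_at_zero, h2, map_zero])
    exact zero_ne_one h0
  · intro x z hz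
    rw [key x z hz]; simp

end Pool.Agent.S05242
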