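import Pool.Statements.S05252
-- import your own Pool.Agent.* helpers here
import Pool.Agent.N229.SC.Fin
import Pool.Agent.N229.SC.A1
import Pool.Agent.N229.SC.A2
import Pool.Agent.N229.SC.A3
import Pool.Agent.N229.SC.AB
import Pool.Agent.N229.SC.B1
import Pool.Agent.N229.SC.B2
import Pool.Agent.N229.SC.B3
import Pool.Agent.N229.SC.SELF
import Pool.Agent.N229.SC.CTR
import Pool.Agent.N229.SC.LX
import Pool.Agent.N229.SC.FIX
import Pool.Agent.N229.SC.HG
import Pool.Agent.N229.SC.VG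
import Pool.Agent.N229.SC.YG
import Pool.Agent.N229.SC.RV
import Pool.Agent.N229.SC.GG
import Pool.Agent.N229.SC.SGN
import Pool.Agent.N229.SC.EXI
import Pool.Agent.N229.SC.N1
import Pool.Agent.N229.SC.N2
import Pool.Agent.N229.SC.N3
import Pool.Agent.N229.SC.NUM
import Pool.Agent.N229.SC.EH
import Pool.Agent.N229.SC.EV
import Pool.Agent.N229.SC.FN1
import Pool.Agent.N229.SC.FN2
import Pool.Agent.N229.SC.FN3
import Pool.Agent.N229.SC.FN4
import Pool.Agent.N229.SC.FN5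
import Pool.Agent.N229.SC.PSM
import Pool.Agent.N229.SC.PDE
import Pool.Agent.N229.SC.INJ
import Pool.Agent.N229.SC.TOP
import Pool.Agent.N229.SC.LIP
import Pool.Agent.N229.SC.NB
import Pool.Agent.N229.SC.DIV
import Pool.Agent.N229.SC.CV
import Pool.Agent.N229.SC.WK1
import Pool.Agent.N229.SC.WK2
import Pool.Agent.N229.SC.WK3
import Pool.Agent.N229.SC.TR

set_option autoImplicit false
open Pool Pool.MP_83fd13_an

namespace Pool.Agent.S05252

/-- The negation of the preceding statement: A bounded simply connected planar domain with Lipschitz Jordan boundary carrying a nonzero weak solution of −Δu = λu (λ>0) with zero Neumann data and constant Dirichlet trace c must be an open disc. -/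
theorem result :
    ¬ (∀ Ω : Set (EuclideanSpace ℝ (Fin 2)),
    IsOpen Ω → Bornology.IsBounded Ω → IsConnected Ω → SimplyConnectedSpace Ω →
    Nonempty (frontier Ω ≃ₜ Metric.sphere (0 : EuclideanSpace ℝ (Fin 2)) 1) →
    (∀ p ∈ frontier Ω, ∃ e f : EuclideanSpace ℝ (Fin 2), ‖e‖ = 1 ∧ ‖f‖ = 1 ∧
        @inner ℝ (EuclideanSpace ℝ (Fin 2)) _ e f = 0 ∧
        ∃ r : ℝ, 0 < r ∧ ∃ K : NNReal, ∃ g : ℝ → ℝ, LipschitzWith K g ∧
          ∀ x ∈ Metric.ball p r,
            (x ∈ Ω ↔ g (@inner ℝ (EuclideanSpace ℝ (Fin 2)) _ x e)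
              < @inner ℝ (EuclideanSpace ℝ (Fin 2)) _ x f)) →
    ∀ (lam c : ℝ) (u : EuclideanSpace ℝ (Fin 2) → ℝ)
      (G : EuclideanSpace ℝ (Fin 2) → EuclideanSpace ℝ (Fin 2)),
      0 < lam →
      MeasureTheory.MemLp u 2 (MeasureTheory.volume.restrict Ω) →
      MeasureTheory.MemLp G 2 (MeasureTheory.volume.restrict Ω) →
      (∀ φ : EuclideanSpace ℝ (Fin 2) → ℝ, ContDiff ℝ 1 φ → HasCompactSupport φ →
        ∀ v : EuclideanSpace ℝ (Fin 2),
          ∫ x in Ω, (u x - c) * (fderiv ℝ φ x v)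
            = - ∫ x in Ω, @inner ℝ (EuclideanSpace ℝ (Fin 2)) _ (G x) v * φ x) →
      (∀ φ : EuclideanSpace ℝ (Fin 2) → ℝ, ContDiff ℝ 1 φ → HasCompactSupport φ →
          ∫ x in Ω, fderiv ℝ φ x (G x) = lam * ∫ x in Ω, u x * φ x) →
      ¬ (u =ᵐ[MeasureTheory.volume.restrict Ω] 0) →
      ∃ (a : EuclideanSpace ℝ (Fin 2)) (r : ℝ), Ω = Metric.ball a r) := by
  open Pool.Agent.N229.SC in
  have A1 := proof_A1
  have A2 := proof_A2 A1
  have A3 := proof_A3 A1 A2
  have AB := proof_AB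
  have B1 := proof_B1 A1 A2 A3
  have B2 := proof_B2 A1 A2 A3 AB B1
  have B3 := proof_B3 A1 A2 A3 AB B1 B2
  have SELF := proof_SELF A1 A2 A3 AB B1 B2
  have CTR := proof_CTR A1 A2 A3 AB B1 B2 B3
  have LX := proof_LX A1 A2 A3 AB B1 B2
  have FIX := proof_FIX A1 A2 SELF CTR LX
  have HG := proof_HG A1 A2 A3 AB B1 B2
  have VG := proof_VG A1 A2 A3 AB B1 B2
  have YG := proof_YG A1 A2 A3 AB B1 B2
  have RV := proof_RV A1 A2 A3 AB B1 B2
  have GG := proof_GG A1 A2 A3 AB B1 B2 RV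
  have SGN := proof_SGN A1 A2 AB HG VG YG RV GG
  have EXI := proof_EXI A1 A2 FIX HG SGN
  have NUM := proof_NUM proof_N1 proof_N2 proof_N3
  have EH := proof_EH A1 A2
  have EV := proof_EV A1 A2 A3
  have FN1 := proof_FN1 A1 A2 A3 B1 EH EV
  have FN2 := proof_FN2 A1 A2 A3 AB B1 B2 EH
  have FN3 := proof_FN3 A1 A2 A3 AB B1 B2 EH
  have FN4 := proof_FN4 A1 A2 A3 AB B1 B2 EH EV
  have FN5 := proof_FN5 A1 A2 A3 AB B1 B2 EH EV
  have PDE := proof_PDE proof_PSM
  have INJ := proof_INJ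
  have TOP := proof_TOP INJ
  have LIP := proof_LIP INJ TOP
  have NB := proof_NB INJ TOP
  have CV := proof_CV INJ
  have WK1 := proof_WK1 INJ TOP CV
  have WK2 := proof_WK2 INJ TOP CV proof_DIV
  have WK3 := proof_WK3 INJ TOP CV proof_DIV
  exact proof_TR (finalC EXI NUM FN1 FN2 FN3 FN4 FN5 PDE TOP LIP NB WK1 WK2 WK3)

end Pool.Agent.S05252
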