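import Pool.Statements.S05316
import Pool.Agent.N242.CS.Fin

set_option autoImplicit false
open Pool Pool.MP_8a8b2f_an

namespace Pool.Agent.S05316

open MeasureTheory Set Filter Complex
open Pool.Agent.N242.CS
open scoped ENNReal Topology

/-- the test vector -/
noncomputable def x0 : H := indicatorConstLp 2 (measurableSet_Ioc (a := (1 : ℝ)) (b := 2))
  (by simp) (1 : ℂ)

lemma x0_ae : x0 =ᵐ[volume] (Ioc (1 : ℝ) 2).indicator fun _ => (1 : ℂ) := indicatorConstLp_coeFn

lemma x0_norm : ‖x0‖ ^ 2 = 1 := by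
  rw [normsq]
  have : ∫ s, ‖x0 s‖ ^ 2 = ∫ s, (Ioc (1 : ℝ) 2).indicator (fun _ => (1 : ℝ)) s := by
    apply integral_congr_ae
    filter_upwards [x0_ae] with s hs
    rw [hs]
    by_cases h : s ∈ Ioc (1 : ℝ) 2
    · rw [indicator_of_mem h, indicator_of_mem h]
      simp
    · rw [indicator_of_notMem h, indicator_of_notMem h]
      simp
  rw [this, integral_indicator measurableSet_Ioc]
  simp
  norm_num

lemma T_x0 {t : ℝ} (ht : 0 ≤ t) : ‖T t x0‖ ^ 2 ≤ 2 / (1 + t) := by
  rw [normsq]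
  have h1 : ∫ s, ‖T t x0 s‖ ^ 2 ≤ ∫ s, (Ioc (1 + t) (2 + t)).indicator (fun _ => 2 / (1 + t)) s := by
    apply integral_mono_ae (int_sq _)
    · rw [integrable_indicator_iff measurableSet_Ioc]
      exact integrableOn_const (by simp)
    · filter_upwards [T_ae ht x0, sh_congr (t := t) x0_ae] with s h1 h2
      rw [h1, h2]
      unfold sh
      by_cases h0 : s ≤ 0
      · rw [if_pos h0, indicator_of_notMem (fun h => by linarith [h.1]), norm_zero,
          zero_pow two_ne_zero]
        exact indicator_nonneg (fun _ _ => by positivity) _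
      rw [if_neg h0]
      push Not at h0
      by_cases h3 : t < s
      · rw [if_pos h3]
        by_cases h4 : s - t ∈ Ioc (1 : ℝ) 2
        · rw [indicator_of_mem h4, indicator_of_mem (show s ∈ Ioc (1 + t) (2 + t) from
            ⟨by linarith [h4.1], by linarith [h4.2]⟩), mul_one, Complex.norm_real,
            Real.norm_eq_abs, abs_of_nonneg (Real.sqrt_nonneg _), Real.sq_sqrt
            (div_nonneg (by linarith) h0.le)]
          apply div_le_div₀ (by norm_num) h4.2 (by linarith) (by linarith [h4.1])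
        · rw [indicator_of_notMem h4, mul_zero, norm_zero, zero_pow two_ne_zero]
          exact indicator_nonneg (fun _ _ => by positivity) _
      · rw [if_neg h3, norm_zero, zero_pow two_ne_zero]
        exact indicator_nonneg (fun _ _ => by positivity) _
  refine h1.trans (le_of_eq ?_)
  rw [integral_indicator measurableSet_Ioc, setIntegral_const]
  simp only [measureReal_def, Real.volume_Ioc, smul_eq_mul]
  rw [ENNReal.toReal_ofReal (by linarith)]
  ring

/-- The negation of the preceding statement: Take a strongly continuous contraction semigroup on a complex Hilbert space with generator A, and some m>0 with ‖(μ−A)x‖ ≥ m∣Re μ∣‖x‖ for all x in D(A) and Re μ<0. Then some m₁>0 gives ‖T(t)x‖ ≥ m₁‖x‖ for all t≥0 and all x. -/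
theorem result :
    ¬ (∀ (H : Type) [NormedAddCommGroup H] [InnerProductSpace ℂ H] [CompleteSpace H]
      (T : ℝ → H →L[ℂ] H),
      T 0 = ContinuousLinearMap.id ℂ H →
      (∀ s t : ℝ, 0 ≤ s → 0 ≤ t → T (s + t) = (T s).comp (T t)) →
      (∀ x : H, ContinuousOn (fun t : ℝ => T t x) (Set.Ici 0)) →
      (∀ t : ℝ, 0 ≤ t → ‖T t‖ ≤ 1) →
      ∀ m : ℝ, 0 < m →
      (∀ x y : H,
        Filter.Tendsto (fun h : ℝ => ((h : ℂ)⁻¹) • (T h x - x))
          (nhdsWithin 0 (Set.Ioi 0)) (nhds y) →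
        ∀ μ : ℂ, μ.re < 0 → m * |μ.re| * ‖x‖ ≤ ‖μ • x - y‖) →
      ∃ m₁ : ℝ, 0 < m₁ ∧ ∀ t : ℝ, 0 ≤ t → ∀ x : H, m₁ * ‖x‖ ≤ ‖T t x‖) := by
  intro h
  obtain ⟨m, hm, hb⟩ := h Pool.Agent.N242.CS.H Pool.Agent.N242.CS.T T_zero
    (fun s t hs ht => T_add hs ht) T_cont (fun t _ => T_norm t) (1 / 2) (by norm_num)
    (fun x y hxy μ _ => lower hxy μ)
  have h1 := hb (2 / m ^ 2) (by positivity) x0
  have h2 := T_x0 (t := 2 / m ^ 2) (by positivity)
  have h3 : m ^ 2 ≤ 2 / (1 + 2 / m ^ 2) := by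
    calc m ^ 2 = (m * ‖x0‖) ^ 2 := by rw [mul_pow, x0_norm, mul_one]
      _ ≤ ‖Pool.Agent.N242.CS.T (2 / m ^ 2) x0‖ ^ 2 := by gcongr
      _ ≤ _ := h2
  rw [le_div_iff₀ (by positivity)] at h3
  have h4 : m ^ 2 * (1 + 2 / m ^ 2) = m ^ 2 + 2 := by
    field_simp
  rw [h4] at h3
  have : 0 < m ^ 2 := by positivity
  linarith

end Pool.Agent.S05316
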