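import Pool.Statements.S05466
import Pool.Agent.N263.Wave

set_option autoImplicit false
open MeasureTheory Filter Topology
open Pool Pool.MP_95eb0c_an

namespace Pool.Agent.S05466

open Pool.Agent.N263.Wave in
theorem flux {φ : ℝ × ℝ → ℝ} (hφ : ContDiff ℝ ((⊤ : ℕ∞) : WithTop ℕ∞) φ)
    (hc : HasCompactSupport φ) (hs : tsupport φ ⊆ {z : ℝ × ℝ | 0 < z.2}) (n : ℕ) (a b d : ℝ) :
    ∫ z in {z : ℝ × ℝ | 0 < z.2},
      ((a + d * c n z) * fderiv ℝ φ z (0, 1) + (b + 2 * d * c n z) * fderiv ℝ φ z (1, 0)) = 0 := by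
  obtain ⟨i1, e1⟩ := int_dir (f := fun _ => 1) measurable_const (by simp) (v := (0, 1))
    (by simp) hφ hc
  obtain ⟨i2, e2⟩ := int_dir (f := fun _ => 1) measurable_const (by simp) (v := (1, 0))
    (by simp) hφ hc
  obtain ⟨i3, e3⟩ := int_dir (f := c n) (c_meas n) (c_bdd n) (v := (2, 1)) (c_line n) hφ hc
  simp only [one_mul] at i1 e1 i2 e2
  rw [setIntegral_eq_integral_of_forall_compl_eq_zero]
  · have h : ∀ z, (a + d * c n z) * fderiv ℝ φ z (0, 1) + (b + 2 * d * c n z) * fderiv ℝ φ z (1, 0)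
        = a * fderiv ℝ φ z (0, 1) + b * fderiv ℝ φ z (1, 0)
          + d * (c n z * fderiv ℝ φ z (2, 1)) := by
      intro z
      have h1 : ((2 : ℝ), (1 : ℝ)) = (0, 1) + (2 : ℝ) • (1, 0) := by simp
      rw [h1, map_add, map_smul, smul_eq_mul]
      ring
    simp_rw [h]
    have j12 : Integrable (fun z => a * fderiv ℝ φ z (0, 1) + b * fderiv ℝ φ z (1, 0)) :=
      (i1.const_mul a).add (i2.const_mul b)
    rw [integral_add j12 (i3.const_mul d),
      integral_add (i1.const_mul a) (i2.const_mul b), integral_const_mul, integral_const_mul,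
      integral_const_mul, e1, e2, e3]
    ring
  · intro z hz
    have hz' : z ∉ tsupport φ := fun h => hz (hs h)
    have : fderiv ℝ φ z = 0 := by
      by_contra h
      exact hz' (support_fderiv_subset ℝ h)
    rw [this]
    simp

open Pool.Agent.N263.Wave in
theorem weakstar {g : ℝ × ℝ → ℝ} (hg : Integrable g (volume.restrict {z : ℝ × ℝ | 0 < z.2}))
    (a d : ℝ) :
    Tendsto (fun n => ∫ z in {z : ℝ × ℝ | 0 < z.2}, (a + d * c n z) * g z) atTop
      (𝓝 (∫ z in {z : ℝ × ℝ | 0 < z.2}, (a + d / 2) * g z)) := by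
  have hm : MeasurableSet {z : ℝ × ℝ | 0 < z.2} := measurableSet_lt measurable_const measurable_snd
  set G : ℝ × ℝ → ℝ := Set.indicator {z : ℝ × ℝ | 0 < z.2} g with hG
  have hGi : Integrable G := (integrable_indicator_iff hm).mpr hg
  have h1 := weak hGi
  have h2 : ∀ n, ∫ z in {z : ℝ × ℝ | 0 < z.2}, (a + d * c n z) * g z
      = a * (∫ z, G z) + d * ∫ z, c n z * G z := by
    intro n
    rw [← integral_const_mul, ← integral_const_mul, ← integral_add, ← integral_indicator hm]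
    · refine integral_congr_ae (ae_of_all _ fun z => ?_)
      by_cases hz : z ∈ {z : ℝ × ℝ | 0 < z.2}
      · simp only [hG, Set.indicator_of_mem hz]; ring
      · simp only [hG, Set.indicator_of_notMem hz]; ring
    · exact hGi.const_mul a
    · exact (hGi.bdd_mul (c_meas n).aestronglyMeasurable (ae_of_all _ (c_bdd n))).const_mul d
  have h3 : ∫ z in {z : ℝ × ℝ | 0 < z.2}, (a + d / 2) * g z
      = a * (∫ z, G z) + d * ((1 / 2) * ∫ z, G z) := by
    rw [integral_const_mul, hG, integral_indicator hm]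
    ring
  rw [h3]
  simp_rw [h2]
  exact tendsto_const_nhds.add (h1.const_mul d)

open Pool.Agent.N263.Wave in
/-- The negation of the preceding statement: For ideal gas γ>1, any sequence of bounded weak solutions of 1D Lagrangian gas dynamics on t>0 with uniform bounds τ,p bounded away from 0 and ∣v∣≤V, converging weak-* in L^∞, has velocity and pressure converging in L¹ on every compact subset. -/
theorem result :
    ¬ (∀ (γ : ℝ), 1 < γ →
  ∀ (τe ve pe : ℕ → ℝ × ℝ → ℝ) (τ v p : ℝ × ℝ → ℝ) (τm τM pm pM V : ℝ),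
  0 < τm → τm ≤ τM → 0 < pm → pm ≤ pM →
  (∀ n, AEStronglyMeasurable (τe n) (volume.restrict {z : ℝ × ℝ | 0 < z.2}) ∧
        AEStronglyMeasurable (ve n) (volume.restrict {z : ℝ × ℝ | 0 < z.2}) ∧
        AEStronglyMeasurable (pe n) (volume.restrict {z : ℝ × ℝ | 0 < z.2})) →
  (∀ n, ∀ᵐ z ∂(volume.restrict {z : ℝ × ℝ | 0 < z.2}),
        τm ≤ τe n z ∧ τe n z ≤ τM ∧ pm ≤ pe n z ∧ pe n z ≤ pM ∧ |ve n z| ≤ V) →
  (∀ n, ∀ φ : ℝ × ℝ → ℝ, ContDiff ℝ ((⊤ : ℕ∞) : WithTop ℕ∞) φ → HasCompactSupport φ →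
      tsupport φ ⊆ {z : ℝ × ℝ | 0 < z.2} →
      (∫ z in {z : ℝ × ℝ | 0 < z.2},
          (τe n z * fderiv ℝ φ z (0, 1) - ve n z * fderiv ℝ φ z (1, 0))) = 0 ∧
      (∫ z in {z : ℝ × ℝ | 0 < z.2},
          (ve n z * fderiv ℝ φ z (0, 1) + pe n z * fderiv ℝ φ z (1, 0))) = 0 ∧
      (∫ z in {z : ℝ × ℝ | 0 < z.2},
          ((ve n z ^ 2 / 2 + pe n z * τe n z / (γ - 1)) * fderiv ℝ φ z (0, 1)
            + pe n z * ve n z * fderiv ℝ φ z (1, 0))) = 0) →
  AEStronglyMeasurable τ (volume.restrict {z : ℝ × ℝ | 0 < z.2}) →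
  AEStronglyMeasurable v (volume.restrict {z : ℝ × ℝ | 0 < z.2}) →
  AEStronglyMeasurable p (volume.restrict {z : ℝ × ℝ | 0 < z.2}) →
  (∃ C : ℝ, ∀ᵐ z ∂(volume.restrict {z : ℝ × ℝ | 0 < z.2}),
      |τ z| ≤ C ∧ |v z| ≤ C ∧ |p z| ≤ C) →
  (∀ g : ℝ × ℝ → ℝ, Integrable g (volume.restrict {z : ℝ × ℝ | 0 < z.2}) →
      Tendsto (fun n => ∫ z in {z : ℝ × ℝ | 0 < z.2}, τe n z * g z) atTop
        (𝓝 (∫ z in {z : ℝ × ℝ | 0 < z.2}, τ z * g z)) ∧
      Tendsto (fun n => ∫ z in {z : ℝ × ℝ | 0 < z.2}, ve n z * g z) atTop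
        (𝓝 (∫ z in {z : ℝ × ℝ | 0 < z.2}, v z * g z)) ∧
      Tendsto (fun n => ∫ z in {z : ℝ × ℝ | 0 < z.2}, pe n z * g z) atTop
        (𝓝 (∫ z in {z : ℝ × ℝ | 0 < z.2}, p z * g z))) →
  ∀ K : Set (ℝ × ℝ), IsCompact K → K ⊆ {z : ℝ × ℝ | 0 < z.2} →
    Tendsto (fun n => ∫ z in K, |ve n z - v z|) atTop (𝓝 0) ∧
    Tendsto (fun n => ∫ z in K, |pe n z - p z|) atTop (𝓝 0)) := by
  intro H
  have mc := fun n => c_meas n
  have key := H 2 (by norm_num) (fun n z => 1 + (-1 / 3) * c n z) (fun n z => 0 + (2 / 3) * c n z)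
    (fun n z => 1 + (4 / 3) * c n z) (fun _ => 1 + (-1 / 3) / 2) (fun _ => 0 + (2 / 3) / 2)
    (fun _ => 1 + (4 / 3) / 2) (2 / 3) 1 1 (7 / 3) 1 (by norm_num) (by norm_num) (by norm_num)
    (by norm_num)
    (fun n => ⟨(((mc n).const_mul _).const_add _).aestronglyMeasurable,
      (((mc n).const_mul _).const_add _).aestronglyMeasurable,
      (((mc n).const_mul _).const_add _).aestronglyMeasurable⟩)
    (fun n => ae_of_all _ fun z => by
      rcases c_cases n z with h | h <;> rw [h] <;> norm_num)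
    (fun n φ h1 h2 h3 => by
      refine ⟨?_, ?_, ?_⟩
      · refine Eq.trans ?_ (flux h1 h2 h3 n 1 0 (-1 / 3))
        refine integral_congr_ae (ae_of_all _ fun z => ?_)
        simp only
        ring
      · refine Eq.trans ?_ (flux h1 h2 h3 n 0 1 (2 / 3))
        refine integral_congr_ae (ae_of_all _ fun z => ?_)
        simp only
        ring
      · refine Eq.trans ?_ (flux h1 h2 h3 n 1 0 (7 / 9))
        refine integral_congr_ae (ae_of_all _ fun z => ?_)
        simp only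
        rcases c_cases n z with h | h <;> rw [h] <;> ring)
    aestronglyMeasurable_const aestronglyMeasurable_const aestronglyMeasurable_const
    ⟨2, ae_of_all _ fun z => by norm_num [abs_le]⟩
    (fun g hg => ⟨weakstar hg 1 (-1 / 3), weakstar hg 0 (2 / 3), weakstar hg 1 (4 / 3)⟩)
    (Set.Icc ((0 : ℝ), (1 : ℝ)) (1, 2)) isCompact_Icc (fun z hz => by
      have := hz.1.2
      simp only [Set.mem_ofPred_eq]
      simp only at this
      linarith)
  have h1 : ∀ n, ∫ z in Set.Icc ((0 : ℝ), (1 : ℝ)) (1, 2),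
      |(0 + (2 / 3) * c n z) - (0 + (2 / 3) / 2)| = 1 / 3 := by
    intro n
    have h2 : ∀ z, |(0 + (2 / 3) * c n z) - (0 + (2 / 3) / 2)| = 1 / 3 := by
      intro z
      rcases c_cases n z with h | h <;> rw [h] <;> norm_num [abs_eq]
    simp_rw [h2]
    rw [setIntegral_const]
    have h3 : (volume : Measure (ℝ × ℝ)).real (Set.Icc ((0 : ℝ), (1 : ℝ)) (1, 2)) = 1 := by
      rw [← Set.Icc_prod_Icc, Measure.real, Measure.volume_eq_prod, Measure.prod_prod]
      simp
      norm_num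
    rw [h3]
    simp
  have h4 := key.1
  simp only [h1] at h4
  have h5 := tendsto_nhds_unique h4 tendsto_const_nhds
  norm_num at h5

end Pool.Agent.S05466
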