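import Pool.Statements.S05648
import Pool.Agent.N263.HS.Poh

set_option autoImplicit false
open MeasureTheory Filter Topology
open Pool Pool.MP_a271d0_an

namespace Pool.Agent.S05648

/-- The negation of the preceding statement: For every N≥3, smooth bounded domain Ω in R^N with 0 on its boundary, s in (0,2) and 2*(s)-1<p<(N+2)/(N-2), there is an H^1_0 function u>0 on Ω weakly solving Δu - u^p + u^(2*(s)-1)/∣x∣^s = 0. -/
theorem result :
    ¬ (∀ (N : ℕ), 3 ≤ N →
  ∀ (Ω : Set (EuclideanSpace ℝ (Fin N))),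
    IsOpen Ω → IsConnected Ω → Bornology.IsBounded Ω →
    (∃ ρ : EuclideanSpace ℝ (Fin N) → ℝ,
        ContDiff ℝ ((⊤ : ℕ∞) : WithTop ℕ∞) ρ ∧ Ω = {x | ρ x < 0} ∧
        ∀ x ∈ frontier Ω, fderiv ℝ ρ x ≠ 0) →
    (0 : EuclideanSpace ℝ (Fin N)) ∈ frontier Ω →
  ∀ s : ℝ, 0 < s → s < 2 →
  ∀ p : ℝ, 2 * ((N : ℝ) - s) / ((N : ℝ) - 2) - 1 < p →
    p < ((N : ℝ) + 2) / ((N : ℝ) - 2) →
  ∃ u : EuclideanSpace ℝ (Fin N) → ℝ,
  ∃ G : EuclideanSpace ℝ (Fin N) → EuclideanSpace ℝ (Fin N),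
    MemLp u 2 volume ∧ MemLp G 2 volume ∧
    (∃ φ : ℕ → EuclideanSpace ℝ (Fin N) → ℝ,
        (∀ n, ContDiff ℝ ((⊤ : ℕ∞) : WithTop ℕ∞) (φ n) ∧
              HasCompactSupport (φ n) ∧ tsupport (φ n) ⊆ Ω) ∧
        Tendsto (fun n => eLpNorm (fun x => φ n x - u x) 2 volume) atTop (𝓝 0) ∧
        Tendsto (fun n => eLpNorm (fun x => gradient (φ n) x - G x) 2 volume)
          atTop (𝓝 0)) ∧
    (∀ᵐ x ∂(volume : Measure (EuclideanSpace ℝ (Fin N))), x ∈ Ω → 0 < u x) ∧
    ∀ ψ : EuclideanSpace ℝ (Fin N) → ℝ,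
      ContDiff ℝ ((⊤ : ℕ∞) : WithTop ℕ∞) ψ → HasCompactSupport ψ → tsupport ψ ⊆ Ω →
        Integrable (fun x => inner ℝ (G x) (gradient ψ x)) volume ∧
        Integrable (fun x => u x ^ p * ψ x) volume ∧
        Integrable (fun x => u x ^ (2 * ((N : ℝ) - s) / ((N : ℝ) - 2) - 1) * ψ x / ‖x‖ ^ s)
          volume ∧
        ∫ x, (inner ℝ (G x) (gradient ψ x) + u x ^ p * ψ x
              - u x ^ (2 * ((N : ℝ) - s) / ((N : ℝ) - 2) - 1) * ψ x / ‖x‖ ^ s) = 0) := by
  intro H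
  set c : EuclideanSpace ℝ (Fin 3) := EuclideanSpace.single 0 1 with hc
  have hcn : ‖c‖ = 1 := by rw [hc]; simp
  have hball : {x : EuclideanSpace ℝ (Fin 3) | ‖x - c‖ ^ 2 - 1 < 0} = Metric.ball c 1 := by
    ext x
    simp only [Set.mem_ofPred_eq, mem_ball_iff_norm]
    constructor
    · intro h
      have h1 : ‖x - c‖ ^ 2 < 1 ^ 2 := by linarith
      exact lt_of_pow_lt_pow_left₀ 2 (by norm_num) h1
    · intro h
      have h0 := norm_nonneg (x - c)
      nlinarith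
  obtain ⟨u, G, hu, hG, ⟨φ, hφ, hφ0, hφ1⟩, hpos, hw⟩ := H 3 le_rfl
    {x : EuclideanSpace ℝ (Fin 3) | ‖x - c‖ ^ 2 - 1 < 0}
    (by rw [hball]; exact Metric.isOpen_ball)
    (by rw [hball]; exact (convex_ball c 1).isConnected ⟨c, by simp⟩)
    (by rw [hball]; exact Metric.isBounded_ball)
    (by
      refine ⟨fun x => ‖x - c‖ ^ 2 - 1, ?_, rfl, ?_⟩
      · exact ((contDiff_id.sub contDiff_const).norm_sq ℝ).sub contDiff_const
      · intro x hx h0
        rw [hball, frontier_ball c one_ne_zero] at hx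
        have hx1 : ‖x - c‖ = 1 := by rwa [mem_sphere_iff_norm] at hx
        have h1 : HasFDerivAt (fun x : EuclideanSpace ℝ (Fin 3) => ‖x - c‖ ^ 2 - 1)
            ((2 • (innerSL ℝ (x - c))).comp
              (ContinuousLinearMap.id ℝ (EuclideanSpace ℝ (Fin 3)))) x := by
          have h2 := ((hasFDerivAt_id x).sub_const c).norm_sq
          exact h2.sub_const 1
        rw [h1.fderiv] at h0
        have h3 := congrArg (fun L : EuclideanSpace ℝ (Fin 3) →L[ℝ] ℝ => L (x - c)) h0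
        have h4 : 2 * inner ℝ (x - c) (x - c) = (0:ℝ) := by
          simpa only [two_smul, two_mul, ContinuousLinearMap.comp_apply,
            ContinuousLinearMap.add_apply, innerSL_apply_apply, ContinuousLinearMap.id_apply,
            ContinuousLinearMap.zero_apply, ContinuousLinearMap.comp_id] using h3
        rw [real_inner_self_eq_norm_sq, hx1] at h4
        norm_num at h4)
    (by
      rw [hball, frontier_ball c one_ne_zero, mem_sphere_iff_norm]
      simp [hcn])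
    1 one_pos (by norm_num) 4 (by norm_num) (by norm_num)
  have Lu : Pool.Agent.N263.HS.Lim {x : EuclideanSpace ℝ (Fin 3) | ‖x - c‖ ^ 2 - 1 < 0} φ u G :=
    ⟨fun n => (hφ n).1, fun n => (hφ n).2.1, fun n => (hφ n).2.2, hu, hG, hφ0, hφ1⟩
  have hz := Lu.zero_off
  have hnn : ∀ᵐ x ∂(volume : Measure (EuclideanSpace ℝ (Fin 3))), 0 ≤ u x := by
    filter_upwards [hz, hpos] with x h1 h2
    by_cases hx : x ∈ {x : EuclideanSpace ℝ (Fin 3) | ‖x - c‖ ^ 2 - 1 < 0}
    · exact (h2 hx).le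
    · rw [h1 hx]
  have hP := Pool.Agent.N263.HS.pohozaev Lu
    (by
      intro x hx
      rw [hball, mem_ball_iff_norm] at hx
      calc ‖x‖ = ‖(x - c) + c‖ := by simp
        _ ≤ ‖x - c‖ + ‖c‖ := norm_add_le _ _
        _ ≤ 2 := by rw [hcn]; linarith)
    (by
      intro l hl x hx
      have hx' : ‖l • x - c‖ ^ 2 - 1 < 0 := hx
      show ‖x - c‖ ^ 2 - 1 < 0
      rw [norm_sub_sq_real, hcn, norm_smul, Real.norm_eq_abs, abs_of_pos (by linarith),
        inner_smul_left] at hx'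
      rw [norm_sub_sq_real, hcn]
      simp only [conj_trivial] at hx'
      have h1 : l * (l * ‖x‖ ^ 2 - 2 * inner ℝ x c) < 0 := by nlinarith
      have h2 : l * ‖x‖ ^ 2 - 2 * inner ℝ x c < 0 := by
        by_contra hcon
        rw [not_lt] at hcon
        have := mul_nonneg (by linarith : (0:ℝ) ≤ l) hcon
        linarith
      have h3 : ‖x‖ ^ 2 ≤ l * ‖x‖ ^ 2 := by nlinarith [sq_nonneg ‖x‖]
      linarith)
    hnn
    (by
      intro ψ h1 h2 h3
      obtain ⟨_, _, _, h4⟩ := hw ψ h1 h2 h3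
      rw [← h4]
      refine integral_congr_ae (Eventually.of_forall fun x => ?_)
      have e1 : (2 * (((3:ℕ):ℝ) - 1) / (((3:ℕ):ℝ) - 2) - 1) = (3:ℕ) := by norm_num
      have e2 : (4:ℝ) = ((4:ℕ):ℝ) := by norm_num
      simp only [e1, Real.rpow_one]
      rw [e2, Real.rpow_natCast, Real.rpow_natCast]
      ring)
  have hu5 : Integrable (fun x => u x ^ 5) := Pool.Agent.N263.HS.i5 Lu.good
  have hn5 : 0 ≤ᵐ[volume] fun x => u x ^ 5 := by
    filter_upwards [hnn] with x hx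
    show 0 ≤ u x ^ 5
    positivity
  have h0 : ∫ x, u x ^ 5 = 0 := le_antisymm hP (integral_nonneg_of_ae hn5)
  rw [integral_eq_zero_iff_of_nonneg_ae hn5 hu5] at h0
  have hnull : ∀ᵐ x ∂(volume : Measure (EuclideanSpace ℝ (Fin 3))), x ∉ Metric.ball c 1 := by
    filter_upwards [h0, hpos] with x h1 h2 h3
    rw [← hball] at h3
    have h4 := h2 h3
    have h5 : u x ^ 5 = 0 := h1
    have : 0 < u x ^ 5 := by positivity
    linarith
  have hm : volume (Metric.ball c 1) = 0 := measure_eq_zero_iff_ae_notMem.2 hnull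
  exact (Metric.measure_ball_pos volume c one_pos).ne' hm

end Pool.Agent.S05648
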