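import Pool.Statements.S05680
import Pool.Agent.N280.CHD.Disc

set_option autoImplicit false
open Pool Pool.MP_a50f86_an

namespace Pool.Agent.S05680

/-- The negation of the preceding statement: For every bounded convex smoothly bounded domain in R^n (n≥3), point p and nonzero conformal frame (u,v), there is a conformal harmonic disc with maximal scaling at p, unique on the disc, and it is an injective immersion proper into the domain. -/
theorem result :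
    ¬ (∀ n : ℕ, 3 ≤ n → ∀ Ω : Set (EuclideanSpace ℝ (Fin n)),
    IsOpen Ω → Bornology.IsBounded Ω → Convex ℝ Ω →
    (∃ U : Set (EuclideanSpace ℝ (Fin n)), ∃ ρ : EuclideanSpace ℝ (Fin n) → ℝ,
        IsOpen U ∧ closure Ω ⊆ U ∧ ContDiffOn ℝ ((⊤ : ℕ∞) : WithTop ℕ∞) ρ U ∧
        Ω = {x | x ∈ U ∧ ρ x < 0} ∧ ∀ x ∈ frontier Ω, fderiv ℝ ρ x ≠ 0) →
    ∀ p ∈ Ω, ∀ u v : EuclideanSpace ℝ (Fin n),
      ‖u‖ = ‖v‖ → inner ℝ u v = 0 → u ≠ 0 →
      ∃ f : ℂ → EuclideanSpace ℝ (Fin n),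
        (∃ r : ℝ, 0 < r ∧
          (ContDiffOn ℝ 2 f (Metric.ball (0 : ℂ) 1) ∧
            (∀ z ∈ Metric.ball (0 : ℂ) 1, f z ∈ Ω) ∧
            (∀ z ∈ Metric.ball (0 : ℂ) 1,
              ‖fderiv ℝ f z (1 : ℂ)‖ = ‖fderiv ℝ f z Complex.I‖ ∧
              inner ℝ (fderiv ℝ f z (1 : ℂ)) (fderiv ℝ f z Complex.I) = 0) ∧
            (∀ z ∈ Metric.ball (0 : ℂ) 1,
              fderiv ℝ (fun w => fderiv ℝ f w (1 : ℂ)) z (1 : ℂ) +
                fderiv ℝ (fun w => fderiv ℝ f w Complex.I) z Complex.I = 0)) ∧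
          f 0 = p ∧ fderiv ℝ f 0 (1 : ℂ) = r • u ∧ fderiv ℝ f 0 Complex.I = r • v ∧
          ∀ g : ℂ → EuclideanSpace ℝ (Fin n), ∀ s : ℝ, 0 < s →
            (ContDiffOn ℝ 2 g (Metric.ball (0 : ℂ) 1) ∧
              (∀ z ∈ Metric.ball (0 : ℂ) 1, g z ∈ Ω) ∧
              (∀ z ∈ Metric.ball (0 : ℂ) 1,
                ‖fderiv ℝ g z (1 : ℂ)‖ = ‖fderiv ℝ g z Complex.I‖ ∧
                inner ℝ (fderiv ℝ g z (1 : ℂ)) (fderiv ℝ g z Complex.I) = 0) ∧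
              (∀ z ∈ Metric.ball (0 : ℂ) 1,
                fderiv ℝ (fun w => fderiv ℝ g w (1 : ℂ)) z (1 : ℂ) +
                  fderiv ℝ (fun w => fderiv ℝ g w Complex.I) z Complex.I = 0)) →
            g 0 = p → fderiv ℝ g 0 (1 : ℂ) = s • u → fderiv ℝ g 0 Complex.I = s • v →
            s ≤ r) ∧
        (∀ h : ℂ → EuclideanSpace ℝ (Fin n),
          (∃ r : ℝ, 0 < r ∧
            (ContDiffOn ℝ 2 h (Metric.ball (0 : ℂ) 1) ∧
              (∀ z ∈ Metric.ball (0 : ℂ) 1, h z ∈ Ω) ∧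
              (∀ z ∈ Metric.ball (0 : ℂ) 1,
                ‖fderiv ℝ h z (1 : ℂ)‖ = ‖fderiv ℝ h z Complex.I‖ ∧
                inner ℝ (fderiv ℝ h z (1 : ℂ)) (fderiv ℝ h z Complex.I) = 0) ∧
              (∀ z ∈ Metric.ball (0 : ℂ) 1,
                fderiv ℝ (fun w => fderiv ℝ h w (1 : ℂ)) z (1 : ℂ) +
                  fderiv ℝ (fun w => fderiv ℝ h w Complex.I) z Complex.I = 0)) ∧
            h 0 = p ∧ fderiv ℝ h 0 (1 : ℂ) = r • u ∧ fderiv ℝ h 0 Complex.I = r • v ∧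
            ∀ g : ℂ → EuclideanSpace ℝ (Fin n), ∀ s : ℝ, 0 < s →
              (ContDiffOn ℝ 2 g (Metric.ball (0 : ℂ) 1) ∧
                (∀ z ∈ Metric.ball (0 : ℂ) 1, g z ∈ Ω) ∧
                (∀ z ∈ Metric.ball (0 : ℂ) 1,
                  ‖fderiv ℝ g z (1 : ℂ)‖ = ‖fderiv ℝ g z Complex.I‖ ∧
                  inner ℝ (fderiv ℝ g z (1 : ℂ)) (fderiv ℝ g z Complex.I) = 0) ∧
                (∀ z ∈ Metric.ball (0 : ℂ) 1,
                  fderiv ℝ (fun w => fderiv ℝ g w (1 : ℂ)) z (1 : ℂ) +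
                    fderiv ℝ (fun w => fderiv ℝ g w Complex.I) z Complex.I = 0)) →
              g 0 = p → fderiv ℝ g 0 (1 : ℂ) = s • u → fderiv ℝ g 0 Complex.I = s • v →
              s ≤ r) →
          Set.EqOn h f (Metric.ball (0 : ℂ) 1)) ∧
        Set.InjOn f (Metric.ball (0 : ℂ) 1) ∧
        (∀ z ∈ Metric.ball (0 : ℂ) 1, fderiv ℝ f z (1 : ℂ) ≠ 0) ∧
        (∀ K : Set (EuclideanSpace ℝ (Fin n)), IsCompact K → K ⊆ Ω →
          IsCompact (Metric.ball (0 : ℂ) 1 ∩ f ⁻¹' K))) := by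
  intro H
  have hv0 : ‖EuclideanSpace.single (0 : Fin 4) (1:ℝ)‖ = ‖EuclideanSpace.single (1 : Fin 4) (1:ℝ)‖ := by
    simp
  have hin : inner ℝ (EuclideanSpace.single (0 : Fin 4) (1:ℝ))
      (EuclideanSpace.single (1 : Fin 4) (1:ℝ)) = 0 := by
    rw [Pool.Agent.N280.CHD.inner4]; simp
  have hne : (EuclideanSpace.single (0 : Fin 4) (1:ℝ)) ≠ 0 := by simp
  obtain ⟨f, -, huniq, -⟩ := H 4 (by norm_num) Pool.Agent.N280.CHD.Om
    Pool.Agent.N280.CHD.Om_open Pool.Agent.N280.CHD.Om_bounded Pool.Agent.N280.CHD.Om_convex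
    ⟨Pool.Agent.N280.CHD.UU, Pool.Agent.N280.CHD.rho, Pool.Agent.N280.CHD.UU_open,
      Pool.Agent.N280.CHD.closure_Om, Pool.Agent.N280.CHD.rho_contDiff.contDiffOn, rfl,
      fun x hx => Pool.Agent.N280.CHD.fderiv_ne hx⟩
    0 Pool.Agent.N280.CHD.zero_mem_Om (EuclideanSpace.single (0 : Fin 4) (1:ℝ))
    (EuclideanSpace.single (1 : Fin 4) (1:ℝ)) hv0 hin hne
  have key : ∀ ε : ℝ, ε ^ 2 ≤ 1 → Set.EqOn (Pool.Agent.N280.CHD.disc ε) f (Metric.ball (0 : ℂ) 1) := by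
    intro ε hε
    apply huniq
    refine ⟨1, one_pos, ⟨(Pool.Agent.N280.CHD.disc_contDiff ε).contDiffOn,
      fun z hz => Pool.Agent.N280.CHD.disc_mem hε hz,
      fun z _ => Pool.Agent.N280.CHD.disc_conformal ε z,
      fun z _ => Pool.Agent.N280.CHD.disc_harmonic ε z⟩, Pool.Agent.N280.CHD.disc_zero ε,
      Pool.Agent.N280.CHD.disc_d1 ε, Pool.Agent.N280.CHD.disc_dI ε, ?_⟩
    intro g s _ hg _ hg1 hgI
    exact Pool.Agent.N280.CHD.max_le_one hg.1 hg.2.1 hg.2.2.2 hg1 hgI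
  have hmem : (1 / 2 : ℂ) ∈ Metric.ball (0 : ℂ) 1 := by
    rw [mem_ball_zero_iff]; norm_num
  have e1 := key 0 (by norm_num) hmem
  have e2 := key 1 (by norm_num) hmem
  have e3 := e1.trans e2.symm
  have e4 := congrArg (fun x : EuclideanSpace ℝ (Fin 4) => x 2) e3
  simp only [Pool.Agent.N280.CHD.disc] at e4
  rw [Pool.Agent.N280.CHD.co2, Pool.Agent.N280.CHD.co2] at e4
  norm_num at e4

end Pool.Agent.S05680
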