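import Pool.Statements.S06006
import Pool.Agent.Results.MP_c09e54_an.BothInterior

set_option autoImplicit false
open MeasureTheory
open Pool Pool.MP_c09e54_an

namespace Pool.Agent.S06006

/-- The negation of the preceding statement: Any two bounded Lebesgue measurable subsets of the reals of equal measure become, after deleting null sets, equidecomposable: finitely many disjoint measurable pieces of one, moved by isometries of the line, exactly tile the other. -/
theorem result :
    ¬ (∀ A B : Set ℝ, NullMeasurableSet A volume → NullMeasurableSet B volume →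
      Bornology.IsBounded A → Bornology.IsBounded B → volume A = volume B →
      ∃ E₁ E₂ : Set ℝ, volume E₁ = 0 ∧ volume E₂ = 0 ∧
        ∃ (n : ℕ) (P : Fin n → Set ℝ) (f : Fin n → ℝ → ℝ),
          (∀ i, NullMeasurableSet (P i) volume) ∧
          (∀ i, Isometry (f i)) ∧
          Pairwise (fun i j => Disjoint (P i) (P j)) ∧
          Pairwise (fun i j => Disjoint (f i '' P i) (f j '' P j)) ∧
          (⋃ i, P i) = A \ E₁ ∧
          (⋃ i, f i '' P i) = B \ E₂) := by
  intro H
  obtain ⟨a, b, B, -, hB, hbdd, -, hvol, hno⟩ :=
    Pool.Agent.Results.MP_c09e54_an.BothInterior.result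
  obtain ⟨E₁, E₂, h1, h2, n, P, f, -, hf, hd, hd', hP, hPB⟩ :=
    H (Set.Ioc a b) B measurableSet_Ioc.nullMeasurableSet hB.nullMeasurableSet
      (Metric.isBounded_Ioc a b) hbdd hvol
  exact hno E₁ E₂ h1 h2 ⟨n, P, f, hf, hd, hd', hP, hPB⟩

end Pool.Agent.S06006
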