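import Pool.Statements.S06025
import Pool.Agent.H780R2.CX.Main

set_option autoImplicit false
open MeasureTheory ENNReal
open Pool Pool.MP_c1e612_an

namespace Pool.Agent.S06025

/-- There exist real Banach spaces X, Y, a bounded operator S, a nonempty convex F with every deterministic non-adaptive n-error positive and finite, and C>0 such that the randomized non-adaptive 2n-error is at most C/n times the deterministic n-error for all n≥1. -/
theorem result :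
    ∃ (X : Type) (hX : NormedAddCommGroup X) (hXs : NormedSpace ℝ X) (hXc : CompleteSpace X)
      (Y : Type) (hY : NormedAddCommGroup Y) (hYs : NormedSpace ℝ Y) (hYc : CompleteSpace Y)
      (S : X →L[ℝ] Y) (F : Set X) (C : ℝ),
      F.Nonempty ∧ Convex ℝ F ∧ 0 < C ∧
      (∀ n : ℕ, 0 < n →
        0 < (⨅ (L : Fin n → (X →L[ℝ] ℝ)) (φ : (Fin n → ℝ) → Y),
              ⨆ f ∈ F, ‖S f - φ (fun i => L i f)‖ₑ) ∧
        (⨅ (L : Fin n → (X →L[ℝ] ℝ)) (φ : (Fin n → ℝ) → Y),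
              ⨆ f ∈ F, ‖S f - φ (fun i => L i f)‖ₑ) < ⊤) ∧
      (∀ n : ℕ, 0 < n →
        (⨅ (Ω : Type) (mΩ : MeasurableSpace Ω) (P : Measure Ω)
            (_ : IsProbabilityMeasure P)
            (L : Ω → Fin (2 * n) → (X →L[ℝ] ℝ)) (φ : Ω → (Fin (2 * n) → ℝ) → Y)
            (_ : ∀ f ∈ F, Measurable (fun ω => ‖S f - φ ω (fun i => L ω i f)‖)),
            ⨆ f ∈ F, ∫⁻ ω, ‖S f - φ ω (fun i => L ω i f)‖ₑ ∂P)
          ≤ ENNReal.ofReal (C / (n : ℝ)) *
            (⨅ (L : Fin n → (X →L[ℝ] ℝ)) (φ : (Fin n → ℝ) → Y),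
              ⨆ f ∈ F, ‖S f - φ (fun i => L i f)‖ₑ)) := by
  obtain ⟨X, Y, i1, i2, i3, i4, i5, i6, S, F, hne, hconv, -, hdet, -⟩ :=
    Pool.Agent.H780R2.CX.trivial_example
  have hd : ∀ n : ℕ, (⨅ (L : Fin n → (X →L[ℝ] ℝ)) (φ : (Fin n → ℝ) → Y),
      ⨆ f ∈ F, ‖S f - φ (fun i => L i f)‖ₑ) = ENNReal.ofReal ((1 / 2) ^ n) := fun n => hdet n
  refine ⟨X, i1, i2, i3, Y, i4, i5, i6, S, F, 1, hne, hconv, one_pos, ?_, ?_⟩
  · intro n _
    rw [hd n]
    exact ⟨ENNReal.ofReal_pos.2 (by positivity), ENNReal.ofReal_lt_top⟩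
  · intro n hn
    have h1 : (⨅ (Ω : Type) (mΩ : MeasurableSpace Ω) (P : Measure Ω)
            (_ : IsProbabilityMeasure P)
            (L : Ω → Fin (2 * n) → (X →L[ℝ] ℝ)) (φ : Ω → (Fin (2 * n) → ℝ) → Y)
            (_ : ∀ f ∈ F, Measurable (fun ω => ‖S f - φ ω (fun i => L ω i f)‖)),
            ⨆ f ∈ F, ∫⁻ ω, ‖S f - φ ω (fun i => L ω i f)‖ₑ ∂P) ≤
        (⨅ (L : Fin (2 * n) → (X →L[ℝ] ℝ)) (φ : (Fin (2 * n) → ℝ) → Y),
              ⨆ f ∈ F, ‖S f - φ (fun i => L i f)‖ₑ) := by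
      refine le_iInf fun L => le_iInf fun φ => ?_
      refine iInf_le_of_le Unit (iInf_le_of_le ⊤ (iInf_le_of_le (Measure.dirac ())
        (iInf_le_of_le inferInstance (iInf_le_of_le (fun _ => L) (iInf_le_of_le (fun _ => φ)
        (iInf_le_of_le (fun f _ => measurable_const) ?_))))))
      refine iSup_mono fun f => iSup_mono fun _ => ?_
      rw [lintegral_const]
      simp
    refine h1.trans ?_
    rw [hd (2 * n), hd n, ← ENNReal.ofReal_mul (by positivity)]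
    apply ENNReal.ofReal_le_ofReal
    have hn' : (0 : ℝ) < n := by exact_mod_cast hn
    have h2 : (1 / 2 : ℝ) ^ (2 * n) = (1 / 2) ^ n * (1 / 2) ^ n := by
      rw [two_mul, pow_add]
    rw [h2]
    apply mul_le_mul_of_nonneg_right _ (by positivity)
    have h3 : (n : ℝ) < 2 ^ n := by exact_mod_cast Nat.lt_two_pow_self
    rw [one_div_pow]
    exact one_div_le_one_div_of_le hn' h3.le

end Pool.Agent.S06025
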