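import Pool.Statements.S06119
import Pool.Agent.N299.Final

set_option autoImplicit false
open Pool Pool.MP_c8b4d4_an

namespace Pool.Agent.S06119

/-- There is a nonzero separable C*-algebra with no nontrivial closed two-sided ideals, noncommutative, with each nonzero positive element approximable by x* a x for any nonzero positive a (purely infinite), and no *-isomorphism onto its opposite algebra. -/
theorem result :
    ∃ (A : Type) (_ : NonUnitalCStarAlgebra A),
      TopologicalSpace.SeparableSpace A ∧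
      Nontrivial A ∧
      (∀ I : TwoSidedIdeal A, IsClosed (I : Set A) → I = ⊥ ∨ I = ⊤) ∧
      (∃ a b : A, a * b ≠ b * a) ∧
      (∀ c d : A, c ≠ 0 → d ≠ 0 → ∀ ε : ℝ, 0 < ε →
        ∃ x : A, ‖star x * (star c * c) * x - star d * d‖ < ε) ∧
      IsEmpty (A ≃⋆ₐ[ℂ] Aᵐᵒᵖ) := by
  obtain ⟨L, hL, h1, h2, h3, h4, h5, h6⟩ := Pool.Agent.N299.exists_not_iso
  exact ⟨L, inferInstance, h1, h2, h3, h4, h5, h6⟩

end Pool.Agent.S06119
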