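import Pool.Statements.S06521
import Pool.Agent.N249.NU.Space

set_option autoImplicit false
open Pool Pool.MP_e7ec4f_an Pool.Agent.N249.NU

namespace Pool.Agent.S06521

/-- There is a real or complex quasi-Banach space with a bounded biorthogonal basis that is nearly unconditional (coordinates at least a can be projected boundedly) but not truncation quasi-greedy. -/
theorem result :
    ∃ (𝕂 : Type) (_ : RCLike 𝕂) (X : Type) (_ : AddCommGroup X) (_ : Module 𝕂 X)
      (q : X → ℝ) (κ : ℝ) (x : ℕ → X) (xs : ℕ → X →ₗ[𝕂] 𝕂),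
      (∀ f : X, 0 ≤ q f) ∧
      (∀ f : X, q f = 0 → f = 0) ∧
      (∀ (c : 𝕂) (f : X), q (c • f) = ‖c‖ * q f) ∧
      (∀ f g : X, q (f + g) ≤ κ * (q f + q g)) ∧
      (∀ u : ℕ → X, (∀ ε : ℝ, 0 < ε → ∃ N : ℕ, ∀ m ≥ N, ∀ n ≥ N, q (u m - u n) < ε) →
        ∃ f : X, ∀ ε : ℝ, 0 < ε → ∃ N : ℕ, ∀ n ≥ N, q (u n - f) < ε) ∧
      (∃ B : ℝ, ∀ n : ℕ, q (x n) ≤ B) ∧
      (∃ M : ℝ, ∀ (n : ℕ) (f : X), ‖xs n f‖ ≤ M * q f) ∧
      (∀ m n : ℕ, xs m (x n) = if m = n then 1 else 0) ∧
      (∀ f : X, ∀ ε : ℝ, 0 < ε → ∃ g ∈ Submodule.span 𝕂 (Set.range x), q (f - g) < ε) ∧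
      (∀ a : ℝ, 0 < a → a ≤ 1 → ∃ C : ℝ, ∀ f : X, (∀ n : ℕ, ‖xs n f‖ ≤ 1) →
        ∀ A : Finset ℕ, (∀ n ∈ A, a ≤ ‖xs n f‖) →
          q (∑ n ∈ A, xs n f • x n) ≤ C * q f) ∧
      ¬ (∃ C : ℝ, ∀ f : X, ∀ A : Finset ℕ, A.Nonempty →
          (∀ n ∈ A, ∀ k : ℕ, k ∉ A → ‖xs k f‖ ≤ ‖xs n f‖) →
          ∀ t : ℝ, (∀ n ∈ A, t ≤ ‖xs n f‖) →
            t * q (∑ n ∈ A, (xs n f / ((‖xs n f‖ : ℝ) : 𝕂)) • x n) ≤ C * q f) := by
  classical
  have hinf : Infinite Cd := by
    refine Infinite.of_injective (fun J : ℕ => (⟨J, Sum.inr ⟨0, by omega⟩⟩ : Cd)) fun a b h => ?_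
    simpa using congrArg Sigma.fst h
  obtain ⟨e⟩ : Nonempty (Cd ≃ ℕ) := nonempty_equiv_of_countable
  refine ⟨ℝ, inferInstance, XX, inferInstance, inferInstance, fun f => ‖f‖, 1,
    fun n => bv (e.symm n), fun n => cf (e.symm n), ?_, ?_, ?_, ?_, ?_, ?_, ?_, ?_, ?_, ?_, ?_⟩
  · exact fun f => norm_nonneg f
  · exact fun f hf => norm_eq_zero.mp hf
  · exact fun c f => norm_smul c f
  · intro f g
    rw [one_mul]
    exact norm_add_le f g
  · intro u hu
    have hc : CauchySeq u := by
      rw [Metric.cauchySeq_iff]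
      intro ε hε
      obtain ⟨N, hN⟩ := hu ε hε
      exact ⟨N, fun m hm n hn => by rw [dist_eq_norm]; exact hN m hm n hn⟩
    obtain ⟨f, hf⟩ := cauchySeq_tendsto_of_complete hc
    refine ⟨f, fun ε hε => ?_⟩
    obtain ⟨N, hN⟩ := (Metric.tendsto_atTop.mp hf) ε hε
    exact ⟨N, fun n hn => by
      show ‖u n - f‖ < ε
      rw [← dist_eq_norm]; exact hN n hn⟩
  · exact ⟨3, fun n => norm_bv_le _⟩
  · refine ⟨1, fun n f => ?_⟩
    rw [one_mul]
    exact abs_cf_le _ _
  · intro m n
    rw [cf_bv]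
    simp only [e.symm.injective.eq_iff]
  · intro f ε hε
    obtain ⟨g, hg, hfg⟩ := dense_span f ε hε
    refine ⟨g, ?_, hfg⟩
    have : Set.range (fun n => bv (e.symm n)) = Set.range bv := by
      exact e.symm.surjective.range_comp bv
    rw [this]
    exact hg
  · intro a ha _
    refine ⟨2 + 2 / a + 4 / a ^ 2, fun f hf A hA => ?_⟩
    refine near_uncond ha f _ (fun c => by simpa using hf (e c)) (A.map e.symm.toEmbedding) ?_ ?_
    · intro c hc
      rw [Finset.mem_map] at hc
      obtain ⟨n, hn, rfl⟩ := hc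
      exact hA n hn
    · intro c
      rw [map_sum]
      simp only [map_smul, cf_bv, smul_eq_mul, mul_ite, mul_one, mul_zero]
      by_cases hc : e c ∈ A
      · rw [if_pos (Finset.mem_map.mpr ⟨e c, hc, by simp⟩), Finset.sum_eq_single (e c)]
        · simp
        · intro n _ hn
          rw [if_neg]
          intro h
          exact hn (by rw [h]; simp)
        · intro h; exact absurd hc h
      · rw [if_neg]
        · refine Finset.sum_eq_zero fun n hn => ?_
          rw [if_neg]
          intro h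
          apply hc
          rw [h]
          simpa using hn
        · intro h
          rw [Finset.mem_map] at h
          obtain ⟨n, hn, h2⟩ := h
          apply hc
          rw [← h2]
          simpa using hn
  · rintro ⟨C, hC⟩
    have key : ∀ J : ℕ, ∑ i ∈ Finset.range (J + 2), 1 / ((i : ℝ) + 1) ≤ 6 * C := by
      intro J
      set f : XX := lp.single 1 J (Gb (J + 2)) with hf
      have hinj : Function.Injective (fun i : Idx (J + 2) => e ⟨J, i⟩) := by
        intro i j h
        have h' := e.injective h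
        simpa using h'
      obtain ⟨emb, hemb⟩ : ∃ emb : Idx (J + 2) ↪ ℕ, ∀ i, emb i = e ⟨J, i⟩ := ⟨⟨_, hinj⟩, fun _ => rfl⟩
      set A : Finset ℕ := Finset.univ.map emb with hA
      have hcf : ∀ c : Cd, cf c f = if h : c.1 = J then ev c.2 (h ▸ Gb (J + 2)) else 0 :=
        fun c => cf_single c J _
      have hin : ∀ i : Idx (J + 2), cf (e.symm (e ⟨J, i⟩)) f = G (J + 2) i := by
        intro i
        rw [e.symm_apply_apply, hcf]
        simp only [dite_true]
        rfl
      have hout : ∀ n, n ∉ A → cf (e.symm n) f = 0 := by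
        intro n hn
        rw [hcf, dif_neg]
        intro h
        apply hn
        rw [hA, Finset.mem_map]
        rcases hc : e.symm n with ⟨J', i'⟩
        rw [hc] at h
        simp only at h
        subst h
        exact ⟨i', Finset.mem_univ _, by
          rw [hemb, ← hc]; simp⟩
      have hne : A.Nonempty := by
        rw [hA]
        exact ⟨emb (Sum.inr ⟨0, by omega⟩), Finset.mem_map.mpr ⟨_, Finset.mem_univ _, rfl⟩⟩
      have h1 : ∀ n ∈ A, (1 : ℝ) ≤ ‖cf (e.symm n) f‖ := by
        intro n hn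
        rw [hA, Finset.mem_map] at hn
        obtain ⟨i, _, rfl⟩ := hn
        rw [hemb, hin]
        exact one_le_G (by omega) i
      have h2 := hC f A hne (fun n hn k hk => by
        rw [hout k hk, norm_zero]
        exact norm_nonneg _) 1 h1
      have h3 : (∑ n ∈ A, (cf (e.symm n) f / ((‖cf (e.symm n) f‖ : ℝ) : ℝ)) • bv (e.symm n)) =
          (lp.single 1 J (sgb (J + 2)) : XX) := by
        apply ext_cf
        intro c
        rw [map_sum]
        simp only [map_smul, cf_bv, smul_eq_mul, mul_ite, mul_one, mul_zero]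
        rw [cf_single, hA, Finset.sum_map]
        simp only [hemb]
        rcases c with ⟨J', i'⟩
        by_cases hJ : J' = J
        · subst hJ
          simp only [dite_true]
          rw [Finset.sum_eq_single i']
          · rw [hin, e.symm_apply_apply, if_pos rfl]
            exact G_div (by omega) i'
          · intro j _ hj
            rw [if_neg]
            intro h
            apply hj
            rw [e.symm_apply_apply] at h
            simpa using h.symm
          · intro h; exact absurd (Finset.mem_univ _) h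
        · rw [dif_neg hJ]
          refine Finset.sum_eq_zero fun j _ => ?_
          rw [if_neg]
          intro h
          rw [e.symm_apply_apply] at h
          exact hJ (by simpa using congrArg Sigma.fst h)
      have h4 : 1 * ‖(lp.single 1 J (sgb (J + 2)) : XX)‖ ≤ C * ‖f‖ := by
        rw [← h3]
        simpa using h2
      rw [one_mul, hf, lp.norm_single zero_lt_one, lp.norm_single zero_lt_one, norm_Gb, norm_sgb] at h4
      have h5 := le_nrm_sg (M := J + 2) (by omega)
      have h6 := nrm_G_le (M := J + 2) (by omega)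
      have hH := H_pos (M := J + 2) (by omega)
      set H := ∑ i ∈ Finset.range (J + 2), 1 / ((i : ℝ) + 1) with hHdef
      have h7 : (((J + 2 : ℕ) : ℝ)) ^ 2 / 2 ≤ C * nrm (G (J + 2)) := h5.trans h4
      have hMpos : (0 : ℝ) < ((J + 2 : ℕ) : ℝ) ^ 2 := by positivity
      have hC0 : 0 ≤ C := by
        by_contra hneg
        rw [not_le] at hneg
        have := mul_nonpos_of_nonpos_of_nonneg hneg.le (nrm_nonneg (G (J + 2)))
        linarith
      have h8 : (((J + 2 : ℕ) : ℝ)) ^ 2 / 2 ≤ C * (3 * ((((J + 2 : ℕ) : ℝ)) ^ 2 / H)) :=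
        h7.trans (mul_le_mul_of_nonneg_left h6 hC0)
      have h9 : C * (3 * ((((J + 2 : ℕ) : ℝ)) ^ 2 / H)) = (6 * C / H) * ((((J + 2 : ℕ) : ℝ)) ^ 2 / 2) := by
        field_simp; ring
      rw [h9] at h8
      have h10 : 1 ≤ 6 * C / H := by
        by_contra hlt
        rw [not_le] at hlt
        have : (6 * C / H) * ((((J + 2 : ℕ) : ℝ)) ^ 2 / 2) < 1 * ((((J + 2 : ℕ) : ℝ)) ^ 2 / 2) :=
          mul_lt_mul_of_pos_right hlt (by positivity)
        linarith
      rwa [one_le_div hH] at h10
    have hlim := Real.tendsto_sum_range_one_div_nat_succ_atTop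
    obtain ⟨n, hn⟩ := (hlim.eventually (Filter.eventually_gt_atTop (6 * C))).exists_forall_of_atTop
    have h1 := hn (n + 2) (by omega)
    have h2 := key n
    linarith

end Pool.Agent.S06521
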