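import Pool.Statements.S06894
import Pool.Agent.N124.CU.Fin
import Pool.Agent.N49.CU.ALG
import Pool.Agent.N277.CU.Fld
import Pool.Agent.N711.CU.InZ
import Pool.Agent.N413.CU.Inf
import Pool.Agent.N15.CU.C01
import Pool.Agent.N488.CU.CSR
import Pool.Agent.N814.CUArmA
import Pool.Agent.N769.CU.ArmB
import Pool.Agent.N26.CU.Pair
import Pool.Agent.N539.CU.PairB
import Pool.Agent.N935.CU.SYM
import Pool.Agent.N647.CU.Gen
import Pool.Agent.N953.CU.Pt
import Pool.Agent.N247.CU.Pts
import Pool.Agent.N72.CU.End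
import Pool.Agent.N360.CURig
import Pool.Agent.N360.CUCfin
import Pool.Agent.N353.CUAsm
import Pool.Agent.N353.CUSign

set_option autoImplicit false
open Pool Pool.MP_01c1f4_co

namespace Pool.Agent.S06894

/-! The graph is the cube with a long diagonal (`K_{4,4}` minus three disjoint edges). Project CU:
helper124 (proof and assembly), with helper15, helper26, helper49, helper72, helper247, helper277,
helper353, helper360, helper413, helper488, helper539, helper647, helper711, helper769, helper814,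
helper935, helper953. -/

theorem core : Pool.Agent.N124.CU.S_core := by
  have arm01 := Pool.Agent.N814.CUArmA.t_armA Pool.Agent.N711.CU.InZ.t_innZ
    Pool.Agent.N413.CU.t_innI Pool.Agent.N413.CU.t_innF Pool.Agent.N15.CU.t_c0 Pool.Agent.N15.CU.t_c1
  have armsr := Pool.Agent.N769.CU.t_armB Pool.Agent.N413.CU.t_innI Pool.Agent.N413.CU.t_innF
    Pool.Agent.N488.CU.t_cs Pool.Agent.N488.CU.t_cr
  refine Pool.Agent.N124.CU.t_fin Pool.Agent.N277.CU.t_field Pool.Agent.N49.CU.t_real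
    Pool.Agent.N353.CU.t_sign ?_ ?_ ?_ ?_ ?_ Pool.Agent.N935.CU.SYM.t_cont
    Pool.Agent.N935.CU.SYM.t_conj Pool.Agent.N935.CU.SYM.t_inv Pool.Agent.N935.CU.SYM.t_sq
    Pool.Agent.N247.CU.t_img Pool.Agent.N647.CU.t_inj Pool.Agent.N647.CU.t_reg
    Pool.Agent.N72.CU.t_end Pool.Agent.N49.CU.t_common
  · exact Pool.Agent.N953.CU.t_pt0 arm01.1 Pool.Agent.N26.CU.t_pair Pool.Agent.N539.CU.t_pairB
      Pool.Agent.N539.CU.t_prod Pool.Agent.N647.CU.t_gen
  · exact Pool.Agent.N953.CU.t_pt1 arm01.2 Pool.Agent.N26.CU.t_pair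
      Pool.Agent.N539.CU.t_prod Pool.Agent.N647.CU.t_gen
  · exact Pool.Agent.N247.CU.t_pts3 armsr.1 armsr.2 Pool.Agent.N26.CU.t_pair
      Pool.Agent.N539.CU.t_prod Pool.Agent.N647.CU.t_gen
  · exact Pool.Agent.N247.CU.t_pts2 armsr.1 armsr.2 Pool.Agent.N26.CU.t_pair
      Pool.Agent.N539.CU.t_prod Pool.Agent.N647.CU.t_gen
  · exact Pool.Agent.N247.CU.t_nz armsr.2 Pool.Agent.N26.CU.t_pair
      Pool.Agent.N539.CU.t_prod Pool.Agent.N647.CU.t_gen Pool.Agent.N935.CU.SYM.t_cont

/-- The negation of the preceding statement: Every graph that is rigid in the plane has a generic real planar realisation p for which the number of real realisations with the same edge lengths, up to congruence, equals the number of complex ones up to congruence. -/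
theorem result :
    ¬ (∀ (n : ℕ) (G : SimpleGraph (Fin n)),
    (∀ p : Fin n → Fin 2 → ℝ,
      AlgebraicIndependent ℚ (fun x : Fin n × Fin 2 => p x.1 x.2) →
      ∀ u : Fin n → Fin 2 → ℝ,
        (∀ i j, G.Adj i j → ∑ k, (p i k - p j k) * (u i k - u j k) = 0) →
        ∀ i j, ∑ k, (p i k - p j k) * (u i k - u j k) = 0) →
    ∃ p : Fin n → Fin 2 → ℝ,
      AlgebraicIndependent ℚ (fun x : Fin n × Fin 2 => p x.1 x.2) ∧
      {D : Fin n → Fin n → ℝ | ∃ q : Fin n → Fin 2 → ℝ,
          (∀ i j, G.Adj i j → ∑ k, (q i k - q j k) ^ 2 = ∑ k, (p i k - p j k) ^ 2) ∧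
          D = fun i j => ∑ k, (q i k - q j k) ^ 2}.ncard =
      {D : Fin n → Fin n → ℂ | ∃ q : Fin n → Fin 2 → ℂ,
          (∀ i j, G.Adj i j →
            ∑ k, (q i k - q j k) ^ 2 = ∑ k, ((p i k : ℂ) - (p j k : ℂ)) ^ 2) ∧
          D = fun i j => ∑ k, (q i k - q j k) ^ 2}.ncard) := by
  exact Pool.Agent.N353.CU.t_asm core Pool.Agent.N360.CURig.t_ind Pool.Agent.N360.CURig.t_rig
    Pool.Agent.N360.CUCfin.t_cfin

end Pool.Agent.S06894
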