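import Pool.Statements.S07160

set_option autoImplicit false
open Pool Pool.MP_0cd801_co

namespace Pool.Agent.S07160

/-- out-neighbours of the vertices of a 3-diregular oriented graph on 13 vertices -/
def outN : ℕ → List ℕ
  | 0 => [3, 5, 6]
  | 1 => [3, 4, 10]
  | 2 => [0, 9, 11]
  | 3 => [8, 11, 12]
  | 4 => [5, 7, 10]
  | 5 => [1, 8, 9]
  | 6 => [1, 2, 11]
  | 7 => [0, 1, 12]
  | 8 => [6, 9, 12]
  | 9 => [4, 6, 7]
  | 10 => [2, 3, 7]
  | 11 => [0, 8, 10]
  | 12 => [2, 4, 5]
  | _ => []

/-- depth first search for a Hamilton path which can be closed at the vertex `0` -/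
def ext : ℕ → ℕ → ℕ → Bool
  | 0, v, _ => (outN v).any fun w => w == 0
  | k + 1, v, used => (outN v).any fun w =>
      !(used.testBit w) && ext k w (used ||| (1 <<< w))

theorem ext_false : ext 12 0 1 = false := by decide +kernel

/-- the set of the first `i` vertices -/
def msk (g : ℕ → ℕ) : ℕ → ℕ
  | 0 => 0
  | i + 1 => msk g i ||| (1 <<< g i)

theorem msk_testBit (g : ℕ → ℕ) (w : ℕ) : ∀ i, (msk g i).testBit w = true → ∃ j, j < i ∧ g j = w
  | 0, h => by simp [msk] at h
  | i + 1, h => by
    rw [msk, Nat.testBit_or, Bool.or_eq_true] at h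
    rcases h with h | h
    · obtain ⟨j, hj, hw⟩ := msk_testBit g w i h
      exact ⟨j, by omega, hw⟩
    · refine ⟨i, by omega, ?_⟩
      rw [Nat.one_shiftLeft, Nat.testBit_two_pow] at h
      simpa using h

theorem ext_true (g : ℕ → ℕ) (h0 : g 0 = 0) (hinj : ∀ i j, i < 13 → j < 13 → g i = g j → i = j)
    (hadj : ∀ i, i < 12 → g (i + 1) ∈ outN (g i)) (hlast : g 0 ∈ outN (g 12)) :
    ∀ k i, i + k = 12 → ext k (g i) (msk g (i + 1)) = true
  | 0, i, hi => by
    have : i = 12 := by omega
    subst this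
    rw [ext, List.any_eq_true]
    exact ⟨g 0, hlast, by rw [h0]; rfl⟩
  | k + 1, i, hi => by
    rw [ext, List.any_eq_true]
    refine ⟨g (i + 1), hadj i (by omega), ?_⟩
    rw [Bool.and_eq_true]
    constructor
    · rw [Bool.not_eq_true', Bool.eq_false_iff]
      intro h
      obtain ⟨j, hj, hw⟩ := msk_testBit g _ _ h
      have := hinj j (i + 1) (by omega) (by omega) hw
      omega
    · exact ext_true g h0 hinj hadj hlast k (i + 1) (by omega)

/-- the oriented graph -/
def G : Digraph (Fin 13) where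
  Adj u v := v.val ∈ outN u.val

instance : DecidableRel G.Adj := fun u v => inferInstanceAs (Decidable (v.val ∈ outN u.val))

/-- The negation of the preceding statement: For every d > 2 and n ≤ 4d+1, every oriented graph on n vertices in which each vertex has in-degree d and out-degree d has a directed Hamilton cycle, i.e. a cyclic ordering of all n vertices with an arc from each vertex to the next. -/
theorem result :
    ¬ (∀ (d n : ℕ), 2 < d → n ≤ 4 * d + 1 →
      ∀ G : Digraph (Fin n),
        (∀ u v : Fin n, G.Adj u v → ¬ G.Adj v u) →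
        (∀ v : Fin n, Set.ncard {u : Fin n | G.Adj v u} = d) →
        (∀ v : Fin n, Set.ncard {u : Fin n | G.Adj u v} = d) →
        ∃ f : Fin n → Fin n, Function.Bijective f ∧
          ∀ i j : Fin n, j.val = (i.val + 1) % n → G.Adj (f i) (f j)) := by
  intro H
  have hasym : ∀ u v : Fin 13, G.Adj u v → ¬ G.Adj v u := by decide +kernel
  have hout : ∀ v : Fin 13, Set.ncard {u : Fin 13 | G.Adj v u} = 3 := by
    intro v
    rw [Set.ncard_eq_toFinset_card']
    revert v
    decide +kernel
  have hin : ∀ v : Fin 13, Set.ncard {u : Fin 13 | G.Adj u v} = 3 := by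
    intro v
    rw [Set.ncard_eq_toFinset_card']
    revert v
    decide +kernel
  obtain ⟨f, hf, hc⟩ := H 3 13 (by norm_num) (by norm_num) G hasym hout hin
  obtain ⟨i₀, hi₀⟩ := hf.2 0
  let p : ℕ → Fin 13 := fun i => ⟨(i₀.val + i) % 13, Nat.mod_lt _ (by norm_num)⟩
  let g : ℕ → ℕ := fun i => (f (p i)).val
  have hp0 : p 0 = i₀ := by
    apply Fin.ext
    show (i₀.val + 0) % 13 = i₀.val
    rw [Nat.add_zero, Nat.mod_eq_of_lt i₀.isLt]
  have h0 : g 0 = 0 := by
    show (f (p 0)).val = 0
    rw [hp0, hi₀]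
    rfl
  have hadj : ∀ i, g (i + 1) ∈ outN (g i) := by
    intro i
    have := hc (p i) (p (i + 1)) (by
      show (i₀.val + (i + 1)) % 13 = ((i₀.val + i) % 13 + 1) % 13
      omega)
    exact this
  have hinj : ∀ i j, i < 13 → j < 13 → g i = g j → i = j := by
    intro i j hi hj hij
    have h1 : p i = p j := hf.1 (Fin.ext hij)
    have h2 : (i₀.val + i) % 13 = (i₀.val + j) % 13 := congrArg Fin.val h1
    omega
  have hlast : g 0 ∈ outN (g 12) := by
    have h13 : g (12 + 1) = g 0 := by
      show (f (p 13)).val = (f (p 0)).val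
      have : p 13 = p 0 := by
        apply Fin.ext
        show (i₀.val + 13) % 13 = (i₀.val + 0) % 13
        omega
      rw [this]
    rw [← h13]
    exact hadj 12
  have h1 := ext_true g h0 hinj (fun i _ => hadj i) hlast 12 0 (by norm_num)
  have h2 : msk g (0 + 1) = 1 := by
    show 0 ||| (1 <<< g 0) = 1
    rw [h0]
    rfl
  rw [h0, h2, ext_false] at h1
  exact Bool.false_ne_true h1

end Pool.Agent.S07160
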