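import Pool.Statements.S07203
import Pool.Agent.N479.CR.Main

set_option autoImplicit false
open Pool Pool.MP_0f46a6_co

namespace Pool.Agent.S07203

open Pool.Agent.N479

lemma dist_sq_eq {n : ℕ} (u v : EuclideanSpace ℝ (Fin n)) :
    dist u v ^ 2 = ER.sq u.ofLp v.ofLp := by
  rw [EuclideanSpace.dist_eq, Real.sq_sqrt (Finset.sum_nonneg fun _ _ => by positivity)]
  unfold ER.sq
  exact Finset.sum_congr rfl fun i _ => by rw [Real.dist_eq, sq_abs]

lemma dist_eq_iff {n m : ℕ} (u v : EuclideanSpace ℝ (Fin n)) (u' v' : EuclideanSpace ℝ (Fin m)) :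
    dist u v = dist u' v' ↔ ER.sq u.ofLp v.ofLp = ER.sq u'.ofLp v'.ofLp := by
  rw [← dist_sq_eq, ← dist_sq_eq]
  exact (sq_eq_sq₀ dist_nonneg dist_nonneg).symm

/-- the hypothesis in terms of finite witnesses -/
lemma good_of (d : ℕ) (X : Finset (EuclideanSpace ℝ (Fin d)))
    (H : ∀ r : ℕ, ∃ n : ℕ, ∀ c : EuclideanSpace ℝ (Fin n) → Fin r,
        ∃ g : EuclideanSpace ℝ (Fin d) → EuclideanSpace ℝ (Fin n),
          (∀ x ∈ X, ∀ y ∈ X, dist (g x) (g y) = dist x y) ∧
          ∃ k : Fin r, ∀ x ∈ X, c (g x) = k) :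
    ER.Good (fun a b : ↥X => ER.sq (a : EuclideanSpace ℝ (Fin d)).ofLp
      (b : EuclideanSpace ℝ (Fin d)).ofLp) := by
  classical
  intro κ _
  obtain ⟨n, hn⟩ := H (Nat.card κ)
  obtain ⟨W, hW⟩ := ER.compactness (ι := Fin n) (T := ↥X) (κ := κ)
    (fun a b : ↥X => ER.sq (a : EuclideanSpace ℝ (Fin d)).ofLp
      (b : EuclideanSpace ℝ (Fin d)).ofLp) (Nat.card κ) (by
    intro c _
    obtain ⟨g, hg, k, hk⟩ := hn (fun p => Finite.equivFin κ (c p.ofLp))
    refine ⟨fun a => (g a).ofLp, fun a b => ?_, fun a b => ?_⟩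
    · exact (dist_eq_iff _ _ _ _).mp (hg a a.2 b b.2)
    · exact (Finite.equivFin κ).injective ((hk a a.2).trans (hk b b.2).symm))
  refine ⟨Fin n, inferInstance, W, fun c => ?_⟩
  obtain ⟨f, df, cf⟩ := hW (fun w => c w) (by
    refine (Set.ncard_le_ncard (Set.subset_univ _) (Set.toFinite _)).trans ?_
    rw [Set.ncard_univ])
  exact ⟨fun a => f a, fun a => (f a).2, df, cf⟩

/-- For every finite X in R^d: if for each r some R^n has a monochromatic congruent copy of X under every r-colouring, then some R^n has, under every colouring, a congruent copy of X that is monochromatic or rainbow. -/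
theorem result :
    ∀ (d : ℕ) (X : Finset (EuclideanSpace ℝ (Fin d))),
      (∀ r : ℕ, ∃ n : ℕ, ∀ c : EuclideanSpace ℝ (Fin n) → Fin r,
        ∃ g : EuclideanSpace ℝ (Fin d) → EuclideanSpace ℝ (Fin n),
          (∀ x ∈ X, ∀ y ∈ X, dist (g x) (g y) = dist x y) ∧
          ∃ k : Fin r, ∀ x ∈ X, c (g x) = k) →
      ∃ n : ℕ, ∀ c : EuclideanSpace ℝ (Fin n) → ℝ,
        ∃ g : EuclideanSpace ℝ (Fin d) → EuclideanSpace ℝ (Fin n),
          (∀ x ∈ X, ∀ y ∈ X, dist (g x) (g y) = dist x y) ∧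
          ((∃ k : ℝ, ∀ x ∈ X, c (g x) = k) ∨
            Set.InjOn (fun x => c (g x)) (↑X : Set (EuclideanSpace ℝ (Fin d)))) := by
  classical
  intro d X H
  rcases X.eq_empty_or_nonempty with rfl | ⟨x₀, hx₀⟩
  · exact ⟨0, fun c => ⟨fun _ => 0, by simp, Or.inl ⟨0, by simp⟩⟩⟩
  · obtain ⟨ι, i, hι⟩ := CR.canonical (C := ℝ)
      (fun a : ↥X => (a : EuclideanSpace ℝ (Fin d)).ofLp) ⟨x₀, hx₀⟩ (good_of d X H) (by
        intro a b hab
        rw [← dist_sq_eq]
        have : 0 < dist (a : EuclideanSpace ℝ (Fin d)) b :=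
          dist_pos.mpr fun e => hab (Subtype.ext e)
        positivity)
    let e : ι ≃ Fin (Fintype.card ι) := Fintype.equivFin ι
    let T : (ι → ℝ) → EuclideanSpace ℝ (Fin (Fintype.card ι)) := fun v => WithLp.toLp 2 (v ∘ e.symm)
    have hT : ∀ u v, ER.sq (T u).ofLp (T v).ofLp = ER.sq u v := by
      intro u v
      unfold ER.sq
      exact Equiv.sum_comp e.symm (fun z => (u z - v z) ^ 2)
    refine ⟨Fintype.card ι, fun c => ?_⟩
    obtain ⟨f, df, cf⟩ := hι (fun v => c (T v))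
    let g : EuclideanSpace ℝ (Fin d) → EuclideanSpace ℝ (Fin (Fintype.card ι)) :=
      fun x => if hx : x ∈ X then T (f ⟨x, hx⟩) else 0
    have hg : ∀ x (hx : x ∈ X), g x = T (f ⟨x, hx⟩) := by
      intro x hx
      simp only [g, dif_pos hx]
    refine ⟨g, ?_, ?_⟩
    · intro x hx y hy
      rw [dist_eq_iff, hg x hx, hg y hy, hT]
      exact df _ _
    · rcases cf with cf | cf
      · left
        refine ⟨c (T (f ⟨x₀, hx₀⟩)), fun x hx => ?_⟩
        rw [hg x hx]
        exact cf _ _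
      · right
        intro x hx y hy hxy
        simp only at hxy
        rw [hg x hx, hg y hy] at hxy
        exact congrArg Subtype.val (cf _ _ hxy)

end Pool.Agent.S07203
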