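import Pool.Statements.S07480
import Pool.Agent.N437.Cube

set_option autoImplicit false
open Classical Filter Topology
open Pool Pool.MP_1cd2aa_co

namespace Pool.Agent.S07480

open Pool.Agent.N437.Cube in
/-- For every `n ≥ 2` the extremal ratio for `m = 20` is at least `1 - 2⁻¹⁶`. -/
theorem ratio_ge (n : ℕ) (hn : 2 ≤ n) :
    (1 : ℝ) - 1 / 2 ^ 16 ≤ ((((Finset.univ : Finset (Finset (Fin n → Option Bool))).filter
              (fun F =>
                (∀ x ∈ F, (Finset.univ.filter (fun i => x i = none)).card = 2) ∧
                ∀ C : Fin n → Option Bool,
                  (Finset.univ.filter (fun i => C i = none)).card = 3 * 20 + 2 →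
                  ¬ (∀ D : Fin n → Option Bool,
                      (Finset.univ.filter (fun i => D i = none)).card = 2 →
                      (∀ (i : Fin n) (b : Bool), C i = some b → D i = some b) →
                      D ∈ F))).sup Finset.card : ℕ) : ℝ) /
          (((Finset.univ : Finset (Fin n → Option Bool)).filter
              (fun D => (Finset.univ.filter (fun i => D i = none)).card = 2)).card : ℝ) := by
  set X : Finset (Fin n → Option Bool) := (Finset.univ : Finset (Fin n → Option Bool)).filter
    (fun D => (Finset.univ.filter (fun i => D i = none)).card = 2) with hX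
  obtain ⟨L, hL⟩ := exists_labels 16 X
  set F : Finset (Fin n → Option Bool) := X.filter (fun x => ¬ Bad L x) with hF
  have hle : F.card ≤ ((Finset.univ : Finset (Finset (Fin n → Option Bool))).filter
              (fun F =>
                (∀ x ∈ F, (Finset.univ.filter (fun i => x i = none)).card = 2) ∧
                ∀ C : Fin n → Option Bool,
                  (Finset.univ.filter (fun i => C i = none)).card = 3 * 20 + 2 →
                  ¬ (∀ D : Fin n → Option Bool,
                      (Finset.univ.filter (fun i => D i = none)).card = 2 →
                      (∀ (i : Fin n) (b : Bool), C i = some b → D i = some b) →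
                      D ∈ F))).sup Finset.card := by
    apply Finset.le_sup (f := Finset.card)
    rw [Finset.mem_filter]
    refine ⟨Finset.mem_univ _, ?_, ?_⟩
    · intro x hx
      rw [hF, Finset.mem_filter, hX, Finset.mem_filter] at hx
      exact hx.1.2
    · intro C hC hall
      obtain ⟨D, hD1, hD2, hD3⟩ := hit L C (by rw [flips]; exact hC)
      have h1 := hall D (by rw [flips] at hD1; exact hD1) hD2
      rw [hF, Finset.mem_filter] at h1
      exact h1.2 hD3
  have hsum : (X.filter (fun x => Bad L x)).card + F.card = X.card :=
    Finset.card_filter_add_card_filter_not _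
  have hXpos : 0 < X.card := by
    apply Finset.card_pos.2
    refine ⟨fun i => if i.val < 2 then none else some true, ?_⟩
    rw [hX, Finset.mem_filter]
    refine ⟨Finset.mem_univ _, ?_⟩
    have h1 : (Finset.univ.filter (fun i : Fin n =>
        (if i.val < 2 then none else some true : Option Bool) = none)) =
        {⟨0, by omega⟩, ⟨1, by omega⟩} := by
      ext i
      simp only [Finset.mem_filter, Finset.mem_univ, true_and, Finset.mem_insert,
        Finset.mem_singleton, Fin.ext_iff]
      by_cases h : i.val < 2
      · simp only [h, if_true, true_iff]
        omega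
      · simp only [h, if_false, reduceCtorEq, false_iff]
        omega
    rw [h1, Finset.card_insert_of_notMem (by simp), Finset.card_singleton]
  have hXpos' : (0 : ℝ) < X.card := by exact_mod_cast hXpos
  rw [le_div_iff₀ hXpos']
  have h2 : ((X.filter (fun x => Bad L x)).card : ℝ) * 2 ^ 16 ≤ X.card := by exact_mod_cast hL
  have h3 : ((X.filter (fun x => Bad L x)).card : ℝ) + F.card = X.card := by exact_mod_cast hsum
  have h4 : (F.card : ℝ) ≤ ((((Finset.univ : Finset (Finset (Fin n → Option Bool))).filter
              (fun F =>
                (∀ x ∈ F, (Finset.univ.filter (fun i => x i = none)).card = 2) ∧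
                ∀ C : Fin n → Option Bool,
                  (Finset.univ.filter (fun i => C i = none)).card = 3 * 20 + 2 →
                  ¬ (∀ D : Fin n → Option Bool,
                      (Finset.univ.filter (fun i => D i = none)).card = 2 →
                      (∀ (i : Fin n) (b : Bool), C i = some b → D i = some b) →
                      D ∈ F))).sup Finset.card : ℕ) : ℝ) := by
    exact_mod_cast hle
  refine le_trans ?_ h4
  have h5 : (1 - 1 / (2 : ℝ) ^ 16) * X.card = X.card - X.card / 2 ^ 16 := by ring
  rw [h5]
  have h6 : ((X.filter (fun x => Bad L x)).card : ℝ) ≤ X.card / 2 ^ 16 := by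
    rw [le_div_iff₀ (by positivity)]
    exact h2
  linarith

/-- The negation of the preceding statement: For every m ≥ 7, the largest fraction of 2-dimensional subcubes of the n-cube that can be chosen with no (3m+2)-dimensional subcube having all its 2-subcubes chosen tends to 1 − 1/(m+1)³ as n → ∞. -/
theorem result :
    ¬ (∀ m : ℕ, 7 ≤ m →
      Tendsto
        (fun n : ℕ =>
          ((((Finset.univ : Finset (Finset (Fin n → Option Bool))).filter
              (fun F =>
                (∀ x ∈ F, (Finset.univ.filter (fun i => x i = none)).card = 2) ∧
                ∀ C : Fin n → Option Bool,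
                  (Finset.univ.filter (fun i => C i = none)).card = 3 * m + 2 →
                  ¬ (∀ D : Fin n → Option Bool,
                      (Finset.univ.filter (fun i => D i = none)).card = 2 →
                      (∀ (i : Fin n) (b : Bool), C i = some b → D i = some b) →
                      D ∈ F))).sup Finset.card : ℕ) : ℝ) /
          (((Finset.univ : Finset (Fin n → Option Bool)).filter
              (fun D => (Finset.univ.filter (fun i => D i = none)).card = 2)).card : ℝ))
        atTop (𝓝 (1 - 1 / ((m : ℝ) + 1) ^ 3))) := by
  intro h
  have h1 := h 20 (by norm_num)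
  have h2 : (1 : ℝ) - 1 / 2 ^ 16 ≤ 1 - 1 / (((20 : ℕ) : ℝ) + 1) ^ 3 := by
    refine ge_of_tendsto h1 ?_
    filter_upwards [eventually_ge_atTop 2] with n hn
    exact ratio_ge n hn
  norm_num at h2

end Pool.Agent.S07480
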