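import Pool.Statements.S07487
import Pool.Agent.Helper539.General

set_option autoImplicit false
open Pool Pool.MP_1cfd87_co

namespace Pool.Agent.S07487

open SimpleGraph Filter Topology Pool.Agent.Helper539

/-- The set of edge numbers in the frozen statement has the same infimum as the one defining
`sizeRamsey`. -/
theorem sInf_eq {k : ℕ} (G : SimpleGraph (Fin k)) (t : ℕ) :
    sInf {e : ℕ | ∃ (m : ℕ) (F : SimpleGraph (Fin m)), F.edgeSet.ncard = e ∧
          ∀ R : SimpleGraph (Fin m), R ≤ F →
            (∃ f : Fin k → Fin m, Function.Injective f ∧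
                ∀ a b, G.Adj a b → R.Adj (f a) (f b)) ∨
            (∃ g : Fin t ⊕ Fin t → Fin m, Function.Injective g ∧
                ∀ i, F.Adj (g (Sum.inl i)) (g (Sum.inr i)) ∧
                  ¬ R.Adj (g (Sum.inl i)) (g (Sum.inr i)))} =
      sizeRamsey G (matchingGraph t) := by
  unfold sizeRamsey
  congr 1
  ext e
  simp only [Set.mem_ofPred_eq, Arrows]
  refine exists_congr fun m => exists_congr fun F => and_congr_right fun _ =>
    forall_congr' fun R => forall_congr' fun _ => or_congr ?_ ?_
  · constructor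
    · rintro ⟨f, hf, h⟩
      exact ⟨⟨⟨f, fun {a b} hab => h a b hab⟩, hf⟩⟩
    · rintro ⟨f⟩
      exact ⟨f, f.injective, fun a b hab => f.toHom.map_adj hab⟩
  · rw [matchingGraph_isContained_iff]
    constructor
    · rintro ⟨g, hg, h⟩
      refine ⟨fun p => if p.2 then g (Sum.inr p.1) else g (Sum.inl p.1), ?_, ?_⟩
      · rintro ⟨i, a⟩ ⟨j, b⟩ hij
        cases a <;> cases b <;> simp only [if_true, Bool.false_eq_true, if_false] at hij <;>
          have := hg hij <;> simp_all
      · intro i
        rw [SimpleGraph.sdiff_adj]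
        simpa using h i
    · rintro ⟨f, hf, h⟩
      refine ⟨fun p => Sum.elim (fun i => f (i, false)) (fun i => f (i, true)) p, ?_, ?_⟩
      · rintro (i | i) (j | j) hij
        · simp only [Sum.elim_inl] at hij
          have := hf hij
          simp_all
        · simp only [Sum.elim_inl, Sum.elim_inr] at hij
          have := hf hij
          simp_all
        · simp only [Sum.elim_inl, Sum.elim_inr] at hij
          have := hf hij
          simp_all
        · simp only [Sum.elim_inr] at hij
          have := hf hij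
          simp_all
      · intro i
        have := h i
        rw [SimpleGraph.sdiff_adj] at this
        simpa using this

/-- For any sequence of graphs without isolated vertices, with at least one edge, bounded max degree and vertex count tending to infinity, the limsup over t of the size Ramsey number of (G_n, tK_2) divided by t times ∣E(G_n)∣ tends to 0. -/
theorem result :
  ∀ (k : ℕ → ℕ) (G : ∀ n, SimpleGraph (Fin (k n))),
    Filter.Tendsto k Filter.atTop Filter.atTop →
    (∃ D : ℕ, ∀ n v, ((G n).neighborSet v).ncard ≤ D) →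
    (∀ n, ∃ v w, (G n).Adj v w) →
    (∀ n v, ∃ w, (G n).Adj v w) →
    ∀ ε : ℝ, 0 < ε → ∃ N : ℕ, ∀ n ≥ N, ∃ T : ℕ, ∀ t ≥ T,
      ((sInf {e : ℕ | ∃ (m : ℕ) (F : SimpleGraph (Fin m)), F.edgeSet.ncard = e ∧
          ∀ R : SimpleGraph (Fin m), R ≤ F →
            (∃ f : Fin (k n) → Fin m, Function.Injective f ∧
                ∀ a b, (G n).Adj a b → R.Adj (f a) (f b)) ∨
            (∃ g : Fin t ⊕ Fin t → Fin m, Function.Injective g ∧
                ∀ i, F.Adj (g (Sum.inl i)) (g (Sum.inr i)) ∧
                  ¬ R.Adj (g (Sum.inl i)) (g (Sum.inr i)))} : ℕ) : ℝ)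
        / ((t : ℝ) * (((G n).edgeSet.ncard : ℕ) : ℝ)) ≤ ε := by
  classical
  intro k G hk hD hedge hiso ε hε
  obtain ⟨D, hD⟩ := hD
  obtain ⟨η, hη, hgen⟩ := general_case.{0} (ε / 2) (half_pos hε)
  -- the number of edges is at least half the number of vertices
  have hcard : ∀ n, k n ≤ 2 * (G n).edgeSet.ncard := by
    intro n
    have := card_le_two_mul (G n) (fun v => hiso n v)
    simpa using this
  obtain ⟨N, hN⟩ := (Filter.tendsto_atTop.1 hk (⌈2 * (D : ℝ) / η⌉₊)).exists_forall_of_atTop
  refine ⟨N, fun n hn => ?_⟩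
  obtain ⟨ρ, hρ, hρ0, hρle⟩ := exists_limit (G n)
  have hne : (G n).edgeSet.Nonempty := by
    obtain ⟨v, w, h⟩ := hedge n
    exact ⟨s(v, w), h⟩
  have hm : (0 : ℝ) < (G n).edgeSet.ncard := by
    have : 0 < (G n).edgeSet.ncard := (Set.ncard_pos (Set.toFinite _)).2 hne
    exact_mod_cast this
  have hρε : ρ ≤ ε / 2 := by
    obtain ⟨t, ht1, ht⟩ := hgen (Fin (k n)) (G n) hne (hiso n) (by
      intro v
      have h1 : (((G n).neighborSet v).ncard : ℝ) ≤ D := by exact_mod_cast hD n v
      have h2 : (⌈2 * (D : ℝ) / η⌉₊ : ℝ) ≤ k n := by exact_mod_cast hN n hn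
      have h3 : 2 * (D : ℝ) / η ≤ k n := (Nat.le_ceil _).trans h2
      have h4 : (k n : ℝ) ≤ 2 * (G n).edgeSet.ncard := by exact_mod_cast hcard n
      rw [div_le_iff₀ hη] at h3
      nlinarith)
    have ht0 : (0 : ℝ) < t := by exact_mod_cast ht1
    have h1 := hρle t (by omega)
    have h2 : (sizeRamsey (G n) (matchingGraph t) : ℝ) / (t * (G n).edgeSet.ncard) ≤ ε / 2 := by
      rw [div_le_iff₀ (by positivity)]
      exact ht
    linarith
  have hlt : ρ < ε := by linarith
  obtain ⟨T, hT⟩ := ((tendsto_order.1 hρ).2 ε hlt).exists_forall_of_atTop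
  refine ⟨T, fun t ht => ?_⟩
  have := hT t ht
  rw [sInf_eq]
  exact this.le

end Pool.Agent.S07487
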