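import Pool.Statements.S07502
import Pool.Agent.N515.BK.Fin
import Pool.Agent.N515.BK.A0
import Pool.Agent.N515.BK.S2
import Pool.Agent.N515.BK.Str
import Pool.Agent.N515.BK.Bas
import Pool.Agent.N515.BK.Tr
import Pool.Agent.N515.BK.P1
import Pool.Agent.N515.BK.P2
import Pool.Agent.N515.BK.P3
import Pool.Agent.N515.BK.Num

set_option autoImplicit false
open Pool Pool.MP_1d59ee_co

namespace Pool.Agent.S07502

/-- The negation of the preceding statement: For d≥3 and every finite graph G of max degree ≤d that is non-bipartite, d-colourable and not admitting K_d, there is a finite graph of max degree ≤d with no homomorphism to or from G. -/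
theorem result :
    ¬ (∀ d : ℕ, 3 ≤ d →
      ∀ (V : Type) [Finite V] (G : SimpleGraph V),
        (∀ v : V, (G.neighborSet v).ncard ≤ d) →
        Nonempty ((⊤ : SimpleGraph (Fin 2)) →g G) →
        IsEmpty (G →g (⊤ : SimpleGraph (Fin 2))) →
        Nonempty (G →g (⊤ : SimpleGraph (Fin d))) →
        IsEmpty ((⊤ : SimpleGraph (Fin d)) →g G) →
        ∃ (W : Type) (_ : Finite W) (H : SimpleGraph W),
          (∀ w : W, (H.neighborSet w).ncard ≤ d) ∧
          IsEmpty (G →g H) ∧ IsEmpty (H →g G)) := by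
  have hBALL := Pool.Agent.N515.BK.t_BALL
  have hPRD := Pool.Agent.N515.BK.t_PRD
  have hBIN := Pool.Agent.N515.BK.t_BIN hPRD
  have hEXT := Pool.Agent.N515.BK.t_EXT
  have hUSE := Pool.Agent.N515.BK.t_USE
  have hDEG := Pool.Agent.N515.BK.t_DEG
  exact Pool.Agent.N515.BK.final (Pool.Agent.N515.BK.t_BK
    (Pool.Agent.N515.BK.t_STR hUSE hDEG (Pool.Agent.N515.BK.t_A0 hEXT)
      (Pool.Agent.N515.BK.t_S2 hEXT hUSE))
    (Pool.Agent.N515.BK.t_P1 hPRD hBALL)
    (Pool.Agent.N515.BK.t_P2 Pool.Agent.N515.BK.t_TR hBIN hBALL)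
    (Pool.Agent.N515.BK.t_P3 hEXT) Pool.Agent.N515.BK.t_NUM)

end Pool.Agent.S07502
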