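import Pool.Statements.S07574

set_option autoImplicit false
open Pool Pool.MP_1f8616_co

namespace Pool.Agent.S07574

/-- The disjoint union of the finite chains with `0, 1, 2, ...` elements. -/
abbrev Comb : Type := Σ n : ℕ, Fin n

theorem fst_eq_of_le {x y : Comb} (h : x ≤ y) : x.1 = y.1 := by
  rw [Sigma.le_def] at h
  exact h.1

theorem chain_finite (C : Set Comb) (hC : IsChain (· ≤ ·) C) : C.Finite := by
  rcases C.eq_empty_or_nonempty with rfl | ⟨x, hx⟩
  · exact Set.finite_empty
  · have hsub : C ⊆ Set.range (fun i : Fin x.1 => (⟨x.1, i⟩ : Comb)) := by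
      intro y hy
      have hxy : y.1 = x.1 := by
        by_cases hne : y = x
        · rw [hne]
        · rcases hC hy hx hne with h | h
          · exact fst_eq_of_le h
          · exact (fst_eq_of_le h).symm
      obtain ⟨m, i⟩ := y
      simp only at hxy
      subst hxy
      exact ⟨i, rfl⟩
    exact (Set.finite_range _).subset hsub

/-- The negation of the preceding statement: Every countable poset with no saturated chain (or its reverse) that is an ω-indexed linear sum of infinite co-wellfounded chains has, for each k≥2, k disjoint chains and a partition into antichains where each antichain A meets at least min(∣A∣,k) chains. -/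
theorem result :
    ¬ (∀ (α : Type) [PartialOrder α] [Countable α],
    (¬ ∃ C : Set α, IsChain (· ≤ ·) C ∧
        (∀ x, x ∉ C → ∀ y ∈ C, ∀ z ∈ C, y < x → x < z → ¬ IsChain (· ≤ ·) (insert x C)) ∧
        ∃ f : α → ℕ,
          ((∀ x ∈ C, ∀ y ∈ C, x ≤ y → f x ≤ f y) ∧
            ∀ i : ℕ, Set.Infinite {x | x ∈ C ∧ f x = i} ∧
              ¬ ∃ s : ℕ → α, StrictMono s ∧ ∀ n, s n ∈ C ∧ f (s n) = i) ∨
          ((∀ x ∈ C, ∀ y ∈ C, x ≤ y → f y ≤ f x) ∧
            ∀ i : ℕ, Set.Infinite {x | x ∈ C ∧ f x = i} ∧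
              ¬ ∃ s : ℕ → α, StrictAnti s ∧ ∀ n, s n ∈ C ∧ f (s n) = i)) →
    ∀ k : ℕ, 2 ≤ k →
      ∃ C : Fin k → Set α, (∀ j, IsChain (· ≤ ·) (C j)) ∧
        Pairwise (fun i j => Disjoint (C i) (C j)) ∧
        ∃ g : α → ℕ, ∀ i : ℕ, IsAntichain (· ≤ ·) {x | g x = i} ∧
          min (Set.encard {x | g x = i}) (k : ℕ∞) ≤
            Set.encard {j : Fin k | (C j ∩ {x | g x = i}).Nonempty}) := by
  intro h
  have h1 := h Comb (by
    rintro ⟨C, hC, -, f, hf⟩
    have hfin := chain_finite C hC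
    rcases hf with ⟨-, hf⟩ | ⟨-, hf⟩
    · exact (hf 0).1 (hfin.subset fun x hx => hx.1)
    · exact (hf 0).1 (hfin.subset fun x hx => hx.1)) 2 le_rfl
  obtain ⟨C, hC, -, g, hg⟩ := h1
  have hfin : (⋃ j, C j).Finite := Set.finite_iUnion fun j => chain_finite _ (hC j)
  set F : Set ℕ := g '' (⋃ j, C j) with hF
  have hFfin : F.Finite := hfin.image g
  have hmem : ∀ x : Comb, g x ∈ F := by
    intro x
    obtain ⟨-, h2⟩ := hg (g x)
    have h3 : (1 : ℕ∞) ≤ min (Set.encard {y | g y = g x}) ((2 : ℕ) : ℕ∞) := by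
      refine le_min ?_ (by norm_num)
      rw [Set.one_le_encard_iff_nonempty]
      exact ⟨x, rfl⟩
    have h4 := h3.trans h2
    rw [Set.one_le_encard_iff_nonempty] at h4
    obtain ⟨j, y, hy1, hy2⟩ := h4
    exact ⟨y, Set.mem_iUnion.2 ⟨j, hy1⟩, hy2⟩
  set N : ℕ := F.ncard with hN
  have hinj : Function.Injective (fun i : Fin (N + 1) => g (⟨N + 1, i⟩ : Comb)) := by
    intro i i' hii
    by_contra hne
    obtain ⟨h2, -⟩ := hg (g (⟨N + 1, i⟩ : Comb))
    have hne' : (⟨N + 1, i⟩ : Comb) ≠ ⟨N + 1, i'⟩ := by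
      intro hcon
      apply hne
      simpa using hcon
    rcases le_total i i' with hle | hle
    · exact h2 (show g _ = g _ from rfl) (show g _ = g _ from hii.symm) hne'
        (Sigma.le_def.2 ⟨rfl, hle⟩)
    · exact h2 (show g _ = g _ from hii.symm) (show g _ = g _ from rfl) hne'.symm
        (Sigma.le_def.2 ⟨rfl, hle⟩)
  have h5 : (Set.range (fun i : Fin (N + 1) => g (⟨N + 1, i⟩ : Comb))).ncard ≤ F.ncard := by
    refine Set.ncard_le_ncard ?_ hFfin
    rintro _ ⟨i, rfl⟩
    exact hmem _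
  rw [← Set.image_univ, Set.ncard_image_of_injective _ hinj, Set.ncard_univ, Nat.card_eq_fintype_card,
    Fintype.card_fin] at h5
  omega

end Pool.Agent.S07574
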