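import Pool.Statements.S07874
import Pool.Agent.Results.MP_2d87f2_co.FixedDegree

set_option autoImplicit false
open Pool Pool.MP_2d87f2_co

namespace Pool.Agent.S07874

open Pool.Agent.Results.MP_2d87f2_co.FixedDegree

theorem bd_ncard {V : Type} (G : SimpleGraph V) (A : Finset V) :
    (edgeBoundary G A).ncard = Set.ncard {p : V × V | p.1 ∈ A ∧ p.2 ∉ A ∧ G.Adj p.1 p.2} := by
  have h : edgeBoundary G A = (fun p : V × V => s(p.1, p.2)) ''
      {p : V × V | p.1 ∈ A ∧ p.2 ∉ A ∧ G.Adj p.1 p.2} := by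
    ext e
    constructor
    · rintro ⟨he, u, hu, v, hv, rfl⟩
      exact ⟨(u, v), ⟨hu, hv, he⟩, rfl⟩
    · rintro ⟨⟨u, v⟩, ⟨hu, hv, h⟩, rfl⟩
      exact ⟨h, u, hu, v, hv, rfl⟩
  rw [h, Set.ncard_image_of_injOn]
  rintro ⟨a, b⟩ ⟨ha, hb, -⟩ ⟨c, d⟩ ⟨hc, hd, -⟩ hab
  simp only at ha hb hc hd hab
  rw [Sym2.eq_iff] at hab
  rcases hab with ⟨rfl, rfl⟩ | ⟨rfl, rfl⟩
  · rfl
  · exact absurd ha hd

theorem net_ncard {V : Type} (G : SimpleGraph V) (k : ℕ) (S : Set V) (A : Finset S) :
    (edgeBoundary (netGraph G k S) A).ncard = Set.ncard {p : V × V |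
      p.1 ∈ A.map (Function.Embedding.subtype _) ∧ p.2 ∈ S ∧
      p.2 ∉ A.map (Function.Embedding.subtype _) ∧ G.dist p.1 p.2 ≤ 2 * k} := by
  rw [bd_ncard]
  have h : {p : V × V | p.1 ∈ A.map (Function.Embedding.subtype _) ∧ p.2 ∈ S ∧
      p.2 ∉ A.map (Function.Embedding.subtype _) ∧ G.dist p.1 p.2 ≤ 2 * k} =
      (fun p : S × S => ((p.1 : V), (p.2 : V))) ''
        {p : S × S | p.1 ∈ A ∧ p.2 ∉ A ∧ (netGraph G k S).Adj p.1 p.2} := by
    ext ⟨a, b⟩
    constructor
    · rintro ⟨h1, h2, h3, h4⟩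
      simp only [Finset.mem_map, Function.Embedding.coe_subtype] at h1 h3
      obtain ⟨a', ha', rfl⟩ := h1
      refine ⟨(a', ⟨b, h2⟩), ⟨ha', ?_, ?_, h4⟩, rfl⟩
      · intro hb
        exact h3 ⟨⟨b, h2⟩, hb, rfl⟩
      · intro hab
        exact h3 ⟨a', ha', congrArg Subtype.val hab⟩
    · rintro ⟨⟨a', b'⟩, ⟨h1, h2, h3⟩, he⟩
      simp only [Prod.mk.injEq] at he
      obtain ⟨rfl, rfl⟩ := he
      refine ⟨?_, b'.2, ?_, h3.2⟩
      · exact Finset.mem_map_of_mem _ h1
      · simp only [Finset.mem_map, Function.Embedding.coe_subtype]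
        rintro ⟨c, hc, hcb⟩
        exact h2 (Subtype.ext hcb ▸ hc)
  rw [h, Set.ncard_image_of_injective]
  rintro ⟨a, b⟩ ⟨c, d⟩ h
  simp only [Prod.mk.injEq] at h
  exact Prod.ext (Subtype.ext h.1) (Subtype.ext h.2)


/-- The negation of the preceding statement: For every infinite connected locally finite vertex-transitive graph G, every k ≥ 1 and every maximal k-separated vertex set S, the Cheeger constant of the graph on S joining points at distance ≤ 2k is at least the Cheeger constant of G. -/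
theorem result :
    ¬ (∀ (V : Type) (G : SimpleGraph V), Infinite V → G.Connected →
      (∀ v : V, (G.neighborSet v).Finite) →
      (∀ u v : V, ∃ φ : G ≃g G, φ u = v) →
      ∀ k : ℕ, 1 ≤ k →
      ∀ S : Set V,
        (∀ u ∈ S, ∀ v ∈ S, u ≠ v → k ≤ G.dist u v) →
        (∀ w : V, w ∉ S → ∃ u ∈ S, G.dist w u < k) →
        sInf {r : ℝ | ∃ A : Finset V, A.Nonempty ∧
            r = (Set.ncard {p : V × V | p.1 ∈ A ∧ p.2 ∉ A ∧ G.Adj p.1 p.2} : ℝ)
              / (A.card : ℝ)}
          ≤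
        sInf {r : ℝ | ∃ A : Finset V, A.Nonempty ∧ (↑A : Set V) ⊆ S ∧
            r = (Set.ncard {p : V × V | p.1 ∈ A ∧ p.2 ∈ S ∧ p.2 ∉ A ∧
                  G.dist p.1 p.2 ≤ 2 * k} : ℝ)
              / (A.card : ℝ)}) := by
  intro hmain
  obtain ⟨D, hD⟩ := Pool.Agent.Results.MP_2d87f2_co.FixedDegree.result
  obtain ⟨V, G, hInf, hconn, hvt, hdeg, hch, k, hk, S, hS, hlt, -⟩ := hD 1 one_pos
  have key := hmain V G hInf hconn (fun v => (hdeg v).1) hvt k hk S hS.1 (fun w hw => by
    by_contra hcon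
    push Not at hcon
    have hsep : Separated G k (insert w S) := by
      rintro u hu v hv huv
      rcases hu with rfl | hu
      · rcases hv with rfl | hv
        · exact absurd rfl huv
        · exact hcon v hv
      · rcases hv with rfl | hv
        · rw [SimpleGraph.dist_comm]; exact hcon u hu
        · exact hS.1 u hu v hv huv
    exact hw (hS.2 hsep (Set.subset_insert w S) (Set.mem_insert w S)))
  have e1 : cheeger G = sInf {r : ℝ | ∃ A : Finset V, A.Nonempty ∧
            r = (Set.ncard {p : V × V | p.1 ∈ A ∧ p.2 ∉ A ∧ G.Adj p.1 p.2} : ℝ)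
              / (A.card : ℝ)} := by
    unfold cheeger
    congr 1
    ext r
    simp only [Set.mem_setOf_eq]
    refine exists_congr fun A => and_congr_right fun _ => ?_
    rw [bd_ncard]
  have e2 : sInf {r : ℝ | ∃ A : Finset V, A.Nonempty ∧ (↑A : Set V) ⊆ S ∧
            r = (Set.ncard {p : V × V | p.1 ∈ A ∧ p.2 ∈ S ∧ p.2 ∉ A ∧
                  G.dist p.1 p.2 ≤ 2 * k} : ℝ)
              / (A.card : ℝ)} ≤ cheeger (netGraph G k S) := by
    unfold cheeger
    refine csInf_le_csInf ⟨0, ?_⟩ ?_ ?_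
    · rintro r ⟨A, -, -, rfl⟩
      positivity
    · obtain ⟨s, hs⟩ : S.Nonempty := by
        by_contra hne
        rw [Set.not_nonempty_iff_eq_empty] at hne
        obtain ⟨v⟩ : Nonempty V := inferInstance
        have hsep : Separated G k {v} := by
          rintro a ha b hb hab
          exact absurd (ha.trans hb.symm) hab
        have := hS.2 hsep (by rw [hne]; exact Set.empty_subset _) (Set.mem_singleton v)
        rw [hne] at this
        exact this
      exact ⟨_, {⟨s, hs⟩}, Finset.singleton_nonempty _, rfl⟩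
    · rintro r ⟨A, hA, rfl⟩
      refine ⟨A.map (Function.Embedding.subtype _), by simpa using hA, ?_, ?_⟩
      · intro x hx
        simp only [Finset.coe_map, Function.Embedding.coe_subtype, Set.mem_image] at hx
        obtain ⟨y, -, rfl⟩ := hx
        exact y.2
      · rw [Finset.card_map, net_ncard]
  rw [← e1] at key
  linarith [key.trans e2]

end Pool.Agent.S07874
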