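import Pool.Statements.S07891
import Pool.Agent.N502.DressianRay
-- import your own Pool.Agent.* helpers here

set_option autoImplicit false
open Pool Pool.MP_2e1090_co

namespace Pool.Agent.S07891

open Pool.Agent.N502.DressianRay

lemma w_triple {a b c : Fin 9} (hab : a ≠ b) (hac : a ≠ c) (hbc : b ≠ c) :
    w (insert a (insert b {c})) = (W3 a b c : ℝ) := by
  unfold w; rw [W_triple hab hac hbc]

lemma sum3 (f : Fin 9 → ℝ) {a b c : Fin 9} (hab : a ≠ b) (hac : a ≠ c) (hbc : b ≠ c) :
    ∑ i ∈ ({a, b, c} : Finset (Fin 9)), f i = f a + (f b + f c) := by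
  rw [Finset.sum_insert (by simp [hab, hac]), Finset.sum_insert (by simp [hbc]), Finset.sum_singleton]

lemma w_val (P : Finset (Fin 9)) (n : ℕ) (h : W P = n) : w P = (n : ℝ) := by
  unfold w; rw [h]

lemma not_trivial : ¬ ∃ c : Fin 9 → ℝ, ∀ B : Finset (Fin 9), B.card = 3 →
    ∀ B' : Finset (Fin 9), B'.card = 3 → w B - ∑ i ∈ B, c i ≤ w B' - ∑ i ∈ B', c i := by
  rintro ⟨c, hc⟩
  have e : ∀ B B' : Finset (Fin 9), B.card = 3 → B'.card = 3 →
      w B - ∑ i ∈ B, c i = w B' - ∑ i ∈ B', c i :=
    fun B B' h h' => le_antisymm (hc B h B' h') (hc B' h' B h)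
  have h1 := e {0, 3, 5} {0, 3, 8} (by decide) (by decide)
  have h2 := e {0, 7, 8} {0, 5, 7} (by decide) (by decide)
  rw [w_val {0, 3, 5} 0 (by decide +kernel), w_val {0, 3, 8} 1 (by decide +kernel),
    sum3 c (by decide) (by decide) (by decide), sum3 c (by decide) (by decide) (by decide)] at h1
  rw [w_val {0, 7, 8} 0 (by decide +kernel), w_val {0, 5, 7} 2 (by decide +kernel),
    sum3 c (by decide) (by decide) (by decide), sum3 c (by decide) (by decide) (by decide)] at h2
  push_cast at h1 h2
  linarith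

lemma cell_eq {v : Finset (Fin 9) → ℝ} {α : ℝ} {a : Fin 9 → ℝ} (hα : 0 < α)
    (h : ∀ B : Finset (Fin 9), B.card = 3 → v B = α * w B + ∑ i ∈ B, a i) (c : Fin 9 → ℝ) :
    cell w c = cell v (fun i => α * c i + a i) := by
  ext B
  have key : ∀ B : Finset (Fin 9), B.card = 3 →
      v B - ∑ i ∈ B, (α * c i + a i) = α * (w B - ∑ i ∈ B, c i) := by
    intro B hB
    rw [h B hB, Finset.sum_add_distrib, ← Finset.mul_sum]; ring
  constructor
  · rintro ⟨hB, h2⟩
    refine ⟨hB, fun B' hB' => ?_⟩
    rw [key B hB, key B' hB']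
    exact mul_le_mul_of_nonneg_left (h2 B' hB') hα.le
  · rintro ⟨hB, h2⟩
    refine ⟨hB, fun B' hB' => ?_⟩
    have := h2 B' hB'
    rw [key B hB, key B' hB'] at this
    exact le_of_mul_le_mul_left this hα

/-- The rank of a set of elements, as a natural number. -/
noncomputable def rr (M : Matroid (Fin 9)) (X : Set (Fin 9)) : ℕ := (M.eRk X).toNat

lemma rr_coe (M : Matroid (Fin 9)) (X : Set (Fin 9)) : ((rr M X : ℕ) : ℕ∞) = M.eRk X := by
  unfold rr
  apply ENat.natCast_toNat
  have h : M.eRk X ≤ X.encard := M.eRk_le_encard X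
  have h2 : X.encard < ⊤ := Set.encard_lt_top_iff.2 (Set.toFinite X)
  exact (lt_of_le_of_lt h h2).ne

lemma rr_mono (M : Matroid (Fin 9)) {X Y : Set (Fin 9)} (h : X ⊆ Y) : rr M X ≤ rr M Y := by
  have := M.eRk_mono h
  rw [← rr_coe, ← rr_coe] at this
  exact_mod_cast this

lemma rr_insert (M : Matroid (Fin 9)) (e : Fin 9) (X : Set (Fin 9)) :
    rr M (insert e X) ≤ rr M X + 1 := by
  have := M.eRk_insert_le_add_one e X
  rw [← rr_coe, ← rr_coe] at this
  exact_mod_cast this

lemma rr_submod (M : Matroid (Fin 9)) (s i j : Fin 9) :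
    rr M {s} + rr M {s, i, j} ≤ rr M {s, i} + rr M {s, j} := by
  have h := M.eRk_inter_add_eRk_union_le {s, i} {s, j}
  rw [← rr_coe, ← rr_coe, ← rr_coe, ← rr_coe] at h
  have h' : rr M ({s, i} ∩ {s, j}) + rr M ({s, i} ∪ {s, j}) ≤ rr M {s, i} + rr M {s, j} := by
    exact_mod_cast h
  have h1 : rr M {s} ≤ rr M ({s, i} ∩ {s, j}) := rr_mono M (by
    intro x hx; simp at hx; subst hx; simp)
  have h2 : rr M {s, i, j} ≤ rr M ({s, i} ∪ {s, j}) := rr_mono M (by
    intro x hx; simp at hx ⊢; tauto)
  omega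

lemma rr_defect (M : Matroid (Fin 9)) (s i j k l : Fin 9) :
    rr M {s, i, j} + rr M {s, k, l} ≤ rr M {s, i, k} + rr M {s, j, l} + 2 := by
  have a1 := rr_submod M s i j
  have a2 := rr_submod M s k l
  have b1 : rr M {s, i} ≤ rr M {s, i, k} := rr_mono M (by intro x hx; simp at hx ⊢; tauto)
  have b2 : rr M {s, j} ≤ rr M {s, j, l} := rr_mono M (by intro x hx; simp at hx ⊢; tauto)
  have b3 : rr M {s, k} ≤ rr M {s, i, k} := rr_mono M (by intro x hx; simp at hx ⊢; tauto)
  have b4 : rr M {s, l} ≤ rr M {s, j, l} := rr_mono M (by intro x hx; simp at hx ⊢; tauto)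
  have c1 : rr M {s, i} ≤ rr M {s} + 1 := by
    have := rr_insert M i {s}
    rwa [Set.pair_comm i s] at this
  have c2 : rr M {s, j} ≤ rr M {s} + 1 := by
    have := rr_insert M j {s}
    rwa [Set.pair_comm j s] at this
  have c3 : rr M {s, k} ≤ rr M {s} + 1 := by
    have := rr_insert M k {s}
    rwa [Set.pair_comm k s] at this
  have c4 : rr M {s, l} ≤ rr M {s} + 1 := by
    have := rr_insert M l {s}
    rwa [Set.pair_comm l s] at this
  have d1 : rr M {s} ≤ rr M {s, i} := rr_mono M (by intro x hx; simp at hx ⊢; tauto)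
  have d2 : rr M {s} ≤ rr M {s, j} := rr_mono M (by intro x hx; simp at hx ⊢; tauto)
  have d3 : rr M {s} ≤ rr M {s, k} := rr_mono M (by intro x hx; simp at hx ⊢; tauto)
  have d4 : rr M {s} ≤ rr M {s, l} := rr_mono M (by intro x hx; simp at hx ⊢; tauto)
  omega

/-- Some Dressian Dr(d,n) has a tropical Plücker vector inducing a coarsest nontrivial matroid subdivision (a ray) that differs from the subdivision induced by the corank vector of every rank-d matroid on n elements. -/
theorem result :
    ∃ d n : ℕ, ∃ w : Finset (Fin n) → ℝ,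
      (∀ (S : Finset (Fin n)) (i j k l : Fin n), S.card + 2 = d →
        i ∉ S → j ∉ S → k ∉ S → l ∉ S →
        i ≠ j → i ≠ k → i ≠ l → j ≠ k → j ≠ l → k ≠ l →
        ((w (insert i (insert j S)) + w (insert k (insert l S))
            = w (insert i (insert k S)) + w (insert j (insert l S)) ∧
          w (insert i (insert j S)) + w (insert k (insert l S))
            ≤ w (insert i (insert l S)) + w (insert j (insert k S))) ∨
         (w (insert i (insert j S)) + w (insert k (insert l S))
            = w (insert i (insert l S)) + w (insert j (insert k S)) ∧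
          w (insert i (insert j S)) + w (insert k (insert l S))
            ≤ w (insert i (insert k S)) + w (insert j (insert l S))) ∨
         (w (insert i (insert k S)) + w (insert j (insert l S))
            = w (insert i (insert l S)) + w (insert j (insert k S)) ∧
          w (insert i (insert k S)) + w (insert j (insert l S))
            ≤ w (insert i (insert j S)) + w (insert k (insert l S))))) ∧
      (¬ ∃ c : Fin n → ℝ, ∀ B : Finset (Fin n), B.card = d →
          ∀ B' : Finset (Fin n), B'.card = d →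
            w B - ∑ i ∈ B, c i ≤ w B' - ∑ i ∈ B', c i) ∧
      (∀ v : Finset (Fin n) → ℝ,
        (∀ (S : Finset (Fin n)) (i j k l : Fin n), S.card + 2 = d →
          i ∉ S → j ∉ S → k ∉ S → l ∉ S →
          i ≠ j → i ≠ k → i ≠ l → j ≠ k → j ≠ l → k ≠ l →
          ((v (insert i (insert j S)) + v (insert k (insert l S))
              = v (insert i (insert k S)) + v (insert j (insert l S)) ∧
            v (insert i (insert j S)) + v (insert k (insert l S))
              ≤ v (insert i (insert l S)) + v (insert j (insert k S))) ∨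
           (v (insert i (insert j S)) + v (insert k (insert l S))
              = v (insert i (insert l S)) + v (insert j (insert k S)) ∧
            v (insert i (insert j S)) + v (insert k (insert l S))
              ≤ v (insert i (insert k S)) + v (insert j (insert l S))) ∨
           (v (insert i (insert k S)) + v (insert j (insert l S))
              = v (insert i (insert l S)) + v (insert j (insert k S)) ∧
            v (insert i (insert k S)) + v (insert j (insert l S))
              ≤ v (insert i (insert j S)) + v (insert k (insert l S))))) →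
        (∀ c : Fin n → ℝ, ∃ c' : Fin n → ℝ,
          {B : Finset (Fin n) | B.card = d ∧ ∀ B' : Finset (Fin n), B'.card = d →
              w B - ∑ i ∈ B, c i ≤ w B' - ∑ i ∈ B', c i} ⊆
          {B : Finset (Fin n) | B.card = d ∧ ∀ B' : Finset (Fin n), B'.card = d →
              v B - ∑ i ∈ B, c' i ≤ v B' - ∑ i ∈ B', c' i}) →
        (∃ c : Fin n → ℝ, ∀ B : Finset (Fin n), B.card = d →
          ∀ B' : Finset (Fin n), B'.card = d →
            v B - ∑ i ∈ B, c i ≤ v B' - ∑ i ∈ B', c i) ∨
        ((∀ c : Fin n → ℝ, ∃ c' : Fin n → ℝ,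
          {B : Finset (Fin n) | B.card = d ∧ ∀ B' : Finset (Fin n), B'.card = d →
              w B - ∑ i ∈ B, c i ≤ w B' - ∑ i ∈ B', c i} =
          {B : Finset (Fin n) | B.card = d ∧ ∀ B' : Finset (Fin n), B'.card = d →
              v B - ∑ i ∈ B, c' i ≤ v B' - ∑ i ∈ B', c' i}) ∧
         (∀ c : Fin n → ℝ, ∃ c' : Fin n → ℝ,
          {B : Finset (Fin n) | B.card = d ∧ ∀ B' : Finset (Fin n), B'.card = d →
              v B - ∑ i ∈ B, c i ≤ v B' - ∑ i ∈ B', c i} =
          {B : Finset (Fin n) | B.card = d ∧ ∀ B' : Finset (Fin n), B'.card = d →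
              w B - ∑ i ∈ B, c' i ≤ w B' - ∑ i ∈ B', c' i}))) ∧
      (¬ ∃ M : Matroid (Fin n), M.E = Set.univ ∧ M.eRank = (d : ℕ∞) ∧
        (∀ c : Fin n → ℝ, ∃ c' : Fin n → ℝ,
          {B : Finset (Fin n) | B.card = d ∧ ∀ B' : Finset (Fin n), B'.card = d →
              w B - ∑ i ∈ B, c i ≤ w B' - ∑ i ∈ B', c i} =
          {B : Finset (Fin n) | B.card = d ∧ ∀ B' : Finset (Fin n), B'.card = d →
              ((d : ℝ) - ((M.eRk (B : Set (Fin n))).toNat : ℝ)) - ∑ i ∈ B, c' i ≤
              ((d : ℝ) - ((M.eRk (B' : Set (Fin n))).toNat : ℝ)) - ∑ i ∈ B', c' i}) ∧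
        (∀ c : Fin n → ℝ, ∃ c' : Fin n → ℝ,
          {B : Finset (Fin n) | B.card = d ∧ ∀ B' : Finset (Fin n), B'.card = d →
              ((d : ℝ) - ((M.eRk (B : Set (Fin n))).toNat : ℝ)) - ∑ i ∈ B, c i ≤
              ((d : ℝ) - ((M.eRk (B' : Set (Fin n))).toNat : ℝ)) - ∑ i ∈ B', c i} =
          {B : Finset (Fin n) | B.card = d ∧ ∀ B' : Finset (Fin n), B'.card = d →
              w B - ∑ i ∈ B, c' i ≤ w B' - ∑ i ∈ B', c' i})) := by
  refine ⟨3, 9, w, ?_, not_trivial, ?_, ?_⟩
  · intro S i j k l hS hi hj hk hl hij hik hil hjk hjl hkl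
    obtain ⟨s, rfl⟩ := Finset.card_eq_one.1 (by omega : S.card = 1)
    rw [Finset.mem_singleton] at hi hj hk hl
    have t := tp_int s i j k l
    have t' : TP s i j k l := by
      simpa [tpTest, Ne.symm hi, Ne.symm hj, Ne.symm hk, Ne.symm hl, hij, hik, hil, hjk, hjl, hkl] using t
    unfold TP at t'
    rw [w_triple hij hi hj, w_triple hkl hk hl, w_triple hik hi hk, w_triple hjl hj hl,
      w_triple hil hi hl, w_triple hjk hj hk]
    exact_mod_cast t'
  · intro v hv Hc
    obtain ⟨α, a, h⟩ := lin_of_cells Hc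
    have hα0 : 0 ≤ α := by
      have h1 := hv {0} 3 5 7 8 (by decide) (by decide) (by decide) (by decide) (by decide)
        (by decide) (by decide) (by decide) (by decide) (by decide) (by decide)
      have f : ∀ (x y z : Fin 9) (n : ℕ), W {x, y, z} = n → x ≠ y → x ≠ z → y ≠ z →
          v (insert x (insert y {z})) = α * n + (a x + (a y + a z)) := by
        intro x y z n hn hxy hxz hyz
        rw [h _ (by rw [Finset.card_insert_of_notMem (by simp [hxy, hxz]),
          Finset.card_insert_of_notMem (by simp [hyz]), Finset.card_singleton]),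
          w_val _ n hn, sum3 a hxy hxz hyz]
      rw [f 3 5 0 0 (by decide +kernel) (by decide) (by decide) (by decide),
        f 7 8 0 0 (by decide +kernel) (by decide) (by decide) (by decide),
        f 3 7 0 0 (by decide +kernel) (by decide) (by decide) (by decide),
        f 5 8 0 0 (by decide +kernel) (by decide) (by decide) (by decide),
        f 3 8 0 1 (by decide +kernel) (by decide) (by decide) (by decide),
        f 5 7 0 2 (by decide +kernel) (by decide) (by decide) (by decide)] at h1
      push_cast at h1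
      rcases h1 with ⟨_, h1⟩ | ⟨h1, _⟩ | ⟨h1, _⟩ <;> linarith
    rcases hα0.eq_or_lt with h0 | h0
    · left
      refine ⟨a, fun B hB B' hB' => ?_⟩
      rw [h B hB, h B' hB', ← h0]; simp
    · right
      constructor
      · intro c
        exact ⟨_, cell_eq h0 h c⟩
      · intro c
        refine ⟨fun i => (c i - a i) / α, ?_⟩
        have := cell_eq h0 h (fun i => (c i - a i) / α)
        have e : (fun i => α * ((c i - a i) / α) + a i) = c := by
          funext i; field_simp; ring
        rw [e] at this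
        exact this.symm
  · rintro ⟨M, -, -, H1, H2⟩
    set ρ : Finset (Fin 9) → ℝ := fun B => ((3 : ℕ) : ℝ) - ((M.eRk (B : Set (Fin 9))).toNat : ℝ) with hρ
    have Hc : ∀ c : Fin 9 → ℝ, ∃ c' : Fin 9 → ℝ, cell w c ⊆ cell ρ c' := by
      intro c
      obtain ⟨c', hc'⟩ := H1 c
      exact ⟨c', Eq.subset hc'⟩
    obtain ⟨α, a, h⟩ := lin_of_cells Hc
    have f : ∀ (x y z : Fin 9) (n : ℕ), W {x, y, z} = n → x ≠ y → x ≠ z → y ≠ z →
        (3 : ℝ) - (rr M {x, y, z} : ℝ) = α * n + (a x + (a y + a z)) := by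
      intro x y z n hn hxy hxz hyz
      have h1 := h {x, y, z} (by rw [Finset.card_insert_of_notMem (by simp [hxy, hxz]),
          Finset.card_insert_of_notMem (by simp [hyz]), Finset.card_singleton])
      rw [w_val _ n hn, sum3 a hxy hxz hyz] at h1
      rw [← h1, hρ]
      simp [rr]
    have f1 := f 0 2 3 0 (by decide +kernel) (by decide) (by decide) (by decide)
    have f2 := f 0 4 5 1 (by decide +kernel) (by decide) (by decide) (by decide)
    have f3 := f 0 2 4 0 (by decide +kernel) (by decide) (by decide) (by decide)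
    have f4 := f 0 3 5 0 (by decide +kernel) (by decide) (by decide) (by decide)
    have f5 := f 0 3 8 1 (by decide +kernel) (by decide) (by decide) (by decide)
    have f6 := f 0 5 7 2 (by decide +kernel) (by decide) (by decide) (by decide)
    have f7 := f 0 7 8 0 (by decide +kernel) (by decide) (by decide) (by decide)
    push_cast at f1 f2 f3 f4 f5 f6 f7
    have g1 : α = (rr M {0, 2, 4} : ℝ) + rr M {0, 3, 5} - rr M {0, 2, 3} - rr M {0, 4, 5} := by
      linarith
    have g2 : 3 * α = (rr M {0, 3, 5} : ℝ) + rr M {0, 7, 8} - rr M {0, 3, 8} - rr M {0, 5, 7} := by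
      linarith
    have g3 : 3 * ((rr M {0, 2, 4} : ℝ) + rr M {0, 3, 5}) + (rr M {0, 3, 8} + rr M {0, 5, 7}) =
        3 * ((rr M {0, 2, 3} : ℝ) + rr M {0, 4, 5}) + (rr M {0, 3, 5} + rr M {0, 7, 8}) := by
      linarith
    have g4 : 3 * (rr M {0, 2, 4} + rr M {0, 3, 5}) + (rr M {0, 3, 8} + rr M {0, 5, 7}) =
        3 * (rr M {0, 2, 3} + rr M {0, 4, 5}) + (rr M {0, 3, 5} + rr M {0, 7, 8}) := by
      exact_mod_cast g3
    have b1 := rr_defect M 0 3 5 8 7
    have b2 := rr_defect M 0 3 8 5 7
    have e1 : rr M {0, 8, 7} = rr M {0, 7, 8} := by rw [Set.pair_comm 8 7]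
    rw [e1] at b1 b2
    have g5 : rr M {0, 2, 4} + rr M {0, 3, 5} = rr M {0, 2, 3} + rr M {0, 4, 5} := by omega
    have hα : α = 0 := by
      rw [g1]
      have : (rr M {0, 2, 4} : ℝ) + rr M {0, 3, 5} = rr M {0, 2, 3} + rr M {0, 4, 5} := by
        exact_mod_cast g5
      linarith
    obtain ⟨c', hc'⟩ := H2 a
    apply not_trivial
    refine ⟨c', fun B hB => ?_⟩
    have hmem : B ∈ cell ρ a := by
      refine ⟨hB, fun B' hB' => ?_⟩
      rw [h B hB, h B' hB', hα]; simp
    have hmem' : B ∈ cell w c' := (Eq.subset hc') hmem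
    exact hmem'.2

end Pool.Agent.S07891
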