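import Pool.Statements.S07942
import Pool.Agent.Results.MP_30ed83_co.LinearForests

set_option autoImplicit false
open Pool Pool.MP_30ed83_co

namespace Pool.Agent.S07942

/-- The negation of the preceding statement: For every finite graph F with an edge and every r, some finite graph G has chromatic number above r and clique number equal to F's, and every induced subgraph of G with no induced copy of F has chromatic number at most that of F. -/
theorem result :
    ¬ (∀ (n : ℕ) (F : SimpleGraph (Fin n)), F ≠ ⊥ →
      ∀ r : ℕ, ∃ (m : ℕ) (G : SimpleGraph (Fin m)),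
        (r : ℕ∞) < G.chromaticNumber ∧
        G.cliqueNum = F.cliqueNum ∧
        ∀ s : Set (Fin m), ¬ F.IsIndContained (G.induce s) →
          (G.induce s).chromaticNumber ≤ F.chromaticNumber) := by
  intro hmain
  have hchi : (SimpleGraph.cycleGraph 4).chromaticNumber = 2 :=
    SimpleGraph.chromaticNumber_cycleGraph_of_even 4 (by norm_num) (by decide)
  have hadj : ∀ i j : Fin 4, (SimpleGraph.cycleGraph 4).Adj i j ↔ (i - j = 1 ∨ j - i = 1) :=
    fun i j => SimpleGraph.cycleGraph_adj
  have hne : SimpleGraph.cycleGraph 4 ≠ ⊥ := by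
    intro h
    have h1 : (SimpleGraph.cycleGraph 4).Adj 0 1 := (hadj 0 1).mpr (by decide)
    rw [h] at h1
    exact h1
  have hadm : Pool.Agent.Results.MP_30ed83_co.LinearForests.Admissible (SimpleGraph.cycleGraph 4)
      (SimpleGraph.cycleGraph 4).chromaticNumber := fun r => hmain 4 (SimpleGraph.cycleGraph 4) hne r
  obtain ⟨k, ⟨e⟩⟩ := (Pool.Agent.Results.MP_30ed83_co.LinearForests.result 4
    (SimpleGraph.cycleGraph 4) hchi).mp hadm
  have h : ∀ i j : Fin 4, (i - j = 1 ∨ j - i = 1) →
      ((e i).val + 1 = (e j).val ∨ (e j).val + 1 = (e i).val) := by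
    intro i j hij
    have h1 := e.map_rel_iff.mpr ((hadj i j).mpr hij)
    rwa [SimpleGraph.pathGraph_adj] at h1
  have h01 := h 0 1 (by decide)
  have h12 := h 1 2 (by decide)
  have h23 := h 2 3 (by decide)
  have h30 := h 3 0 (by decide)
  have n02 : (e 0).val ≠ (e 2).val := fun h => absurd (e.injective (Fin.ext h)) (by decide)
  have n13 : (e 1).val ≠ (e 3).val := fun h => absurd (e.injective (Fin.ext h)) (by decide)
  omega

end Pool.Agent.S07942
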