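import Pool.Statements.S08120
import Pool.Agent.N461.Ball.Main

set_option autoImplicit false
open Pool Pool.MP_377e48_co

namespace Pool.Agent.S08120

/-- The negation of the preceding statement: For every d ≥ 1, if finitely many closed balls with distinct centres in ℝ^d pairwise intersect and their tangency graph on the centres admits no nonzero stress, then that tangency graph is (d+1)-colorable. -/
theorem result :
    ¬ (∀ (d : ℕ), 1 ≤ d →
      ∀ (n : ℕ) (c : Fin n → EuclideanSpace ℝ (Fin d)) (ρ : Fin n → ℝ),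
        Function.Injective c →
        (∀ i, 0 < ρ i) →
        (∀ i j, dist (c i) (c j) ≤ ρ i + ρ j) →
        (∀ w : Fin n → Fin n → ℝ,
          (∀ i j, w i j = w j i) →
          (∀ j, ∑ i ∈ Finset.univ.filter (fun i => dist (c i) (c j) = ρ i + ρ j),
              w i j • (c i - c j) = 0) →
          ∀ i j, dist (c i) (c j) = ρ i + ρ j → w i j = 0) →
        (SimpleGraph.fromRel (fun i j : Fin n => dist (c i) (c j) = ρ i + ρ j)).Colorable (d + 1)) := by
  intro h
  obtain ⟨X, hX, hadj⟩ := Pool.Agent.N461.Ball.exists_X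
  have hcol := h 4 (by norm_num) 14 (Pool.Agent.N461.Ball.cen X) (fun i => X i 4) ?_
    (Pool.Agent.N461.Ball.X_pos hX) (Pool.Agent.N461.Ball.dist_le hX hadj) ?_
  · obtain ⟨C⟩ := hcol
    refine Pool.Agent.N461.Ball.not_col (fun i => C i) (fun i j hij => ?_)
    apply C.valid
    rw [SimpleGraph.fromRel_adj]
    exact ⟨Pool.Agent.N461.Ball.adj_ne i j hij,
      Or.inl ((Pool.Agent.N461.Ball.dist_iff hX hadj i j).2 hij)⟩
  · intro i j hij
    exact Pool.Agent.N461.Ball.cen_inj hX i j hij
  · intro w hw hs i j hij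
    exact Pool.Agent.N461.Ball.no_stress hX hadj w hw hs i j
      ((Pool.Agent.N461.Ball.dist_iff hX hadj i j).1 hij)

end Pool.Agent.S08120
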