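import Pool.Statements.S08268

/-!
There is no latin square of order `8` with latin subsquares of the orders `3` and `4`: a subsquare
of order `4` splits the square into four subsquares of order `4`, a subsquare of order `3` meets
the two halves of the rows (or of the columns) in equal parts unless it lies on one side, so it has
to lie inside one of the four quadrants, and a latin square of order `4` has no subsquare of
order `3`.
-/

set_option autoImplicit false
open Pool Pool.MP_3df3be_co

namespace Pool.Agent.S08268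

/-- The part outside `A` of an injective image of a set: if `f` is injective, maps `C` into `S` and
`C.card = S.card`, then `f c ∈ S ↔ c ∈ C`. -/
theorem mem_iff {f : Fin 8 → Fin 8} (hf : Function.Injective f) {C S : Finset (Fin 8)}
    (hcard : C.card = S.card) (h : ∀ c ∈ C, f c ∈ S) (c : Fin 8) : f c ∈ S ↔ c ∈ C := by
  classical
  constructor
  · intro hc
    have himg : C.image f = S := by
      apply Finset.eq_of_subset_of_card_le
      · intro x hx
        obtain ⟨y, hy, rfl⟩ := Finset.mem_image.1 hx
        exact h y hy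
      · rw [Finset.card_image_of_injective _ hf, hcard]
    rw [← himg] at hc
    obtain ⟨y, hy, e⟩ := Finset.mem_image.1 hc
    exact hf e ▸ hy
  · exact h c

/-- counting: an injective map which maps `C'` onto `S'` maps the part of `C'` satisfying
`f c ∈ S` onto the part of `S'` inside `S`. -/
theorem card_part {f : Fin 8 → Fin 8} (hf : Function.Injective f) {C' S' : Finset (Fin 8)}
    (hcard : C'.card = S'.card) (h : ∀ c ∈ C', f c ∈ S') (S : Finset (Fin 8)) :
    (C'.filter fun c => f c ∈ S).card = (S'.filter fun s => s ∈ S).card := by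
  classical
  rw [← Finset.card_image_of_injective _ hf]
  congr 1
  ext s
  simp only [Finset.mem_image, Finset.mem_filter]
  constructor
  · rintro ⟨c, ⟨hc, hs⟩, rfl⟩
    exact ⟨h c hc, hs⟩
  · rintro ⟨hs, hs'⟩
    have himg : C'.image f = S' := by
      apply Finset.eq_of_subset_of_card_le
      · intro x hx
        obtain ⟨y, hy, rfl⟩ := Finset.mem_image.1 hx
        exact h y hy
      · rw [Finset.card_image_of_injective _ hf, hcard]
    rw [← himg] at hs
    obtain ⟨c, hc, rfl⟩ := Finset.mem_image.1 hs
    exact ⟨c, ⟨hc, hs'⟩, rfl⟩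

theorem card_split (A B : Finset (Fin 8)) :
    (A.filter fun x => x ∈ B).card + (A.filter fun x => x ∉ B).card = A.card := by
  classical
  exact Finset.card_filter_add_card_filter_not _

/-- If all rows are injective, then a subsquare of order three has all its rows inside `R` or all
its rows outside `R`. -/
theorem one_side {L : Fin 8 → Fin 8 → Fin 8} (hrow : ∀ i, Function.Injective (L i))
    {R C S R' C' S' : Finset (Fin 8)} (hq : ∀ r c, L r c ∈ S ↔ (r ∈ R ↔ c ∈ C))
    (hC' : C'.card = 3) (hS' : S'.card = 3) (h' : ∀ r ∈ R', ∀ c ∈ C', L r c ∈ S') :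
    (∀ r ∈ R', r ∈ R) ∨ (∀ r ∈ R', r ∉ R) := by
  classical
  by_contra hcon
  push Not at hcon
  obtain ⟨⟨r, hr, hrR⟩, r', hr', hr'R⟩ := hcon
  have e1 := card_part (hrow r) (by rw [hC', hS']) (h' r hr) S
  have e2 := card_part (hrow r') (by rw [hC', hS']) (h' r' hr') S
  have e3 : (C'.filter fun c => L r c ∈ S) = C'.filter fun c => c ∉ C := by
    apply Finset.filter_congr
    intro c _
    rw [hq]
    simp [hrR]
  have e4 : (C'.filter fun c => L r' c ∈ S) = C'.filter fun c => c ∈ C := by
    apply Finset.filter_congr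
    intro c _
    rw [hq]
    simp [hr'R]
  rw [e3] at e1
  rw [e4] at e2
  have e5 := card_split C' C
  omega

/-- A latin square of order four has no subsquare of order three. -/
theorem no_quadrant {L : Fin 8 → Fin 8 → Fin 8} (hrow : ∀ i, Function.Injective (L i))
    (hcol : ∀ j, Function.Injective fun i => L i j)
    {R C S R' C' S' : Finset (Fin 8)} (hR : R.card = 4) (hS : S.card = 4)
    (h : ∀ r ∈ R, ∀ c ∈ C, L r c ∈ S)
    (hR' : R'.card = 3) (hC' : C'.card = 3) (hS' : S'.card = 3)
    (h' : ∀ r ∈ R', ∀ c ∈ C', L r c ∈ S')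
    (hRR : R' ⊆ R) (hCC : C' ⊆ C) : False := by
  classical
  obtain ⟨r, hrR, hrR'⟩ : ∃ r ∈ R, r ∉ R' := by
    by_contra hcon
    push Not at hcon
    have := Finset.card_le_card hcon
    omega
  have hSS : S' ⊆ S := by
    obtain ⟨c, hc⟩ : C'.Nonempty := Finset.card_pos.1 (by omega)
    have himg : R'.image (fun r => L r c) = S' := by
      apply Finset.eq_of_subset_of_card_le
      · intro x hx
        obtain ⟨y, hy, rfl⟩ := Finset.mem_image.1 hx
        exact h' y hy c hc
      · rw [Finset.card_image_of_injective _ (hcol c), hS', hR']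
    rw [← himg]
    intro x hx
    obtain ⟨y, hy, rfl⟩ := Finset.mem_image.1 hx
    exact h y (hRR hy) c (hCC hc)
  have hval : ∀ c ∈ C', L r c ∈ S \ S' := by
    intro c hc
    rw [Finset.mem_sdiff]
    refine ⟨h r hrR c (hCC hc), fun hs => hrR' ?_⟩
    have himg : R'.image (fun r => L r c) = S' := by
      apply Finset.eq_of_subset_of_card_le
      · intro x hx
        obtain ⟨y, hy, rfl⟩ := Finset.mem_image.1 hx
        exact h' y hy c hc
      · rw [Finset.card_image_of_injective _ (hcol c), hS', hR']
    rw [← himg] at hs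
    obtain ⟨y, hy, e⟩ := Finset.mem_image.1 hs
    have : y = r := hcol c e
    exact this ▸ hy
  have h1 : (C'.image (L r)).card ≤ (S \ S').card := by
    apply Finset.card_le_card
    intro x hx
    obtain ⟨y, hy, rfl⟩ := Finset.mem_image.1 hx
    exact hval y hy
  rw [Finset.card_image_of_injective _ (hrow r), Finset.card_sdiff_of_subset hSS] at h1
  omega

/-- The negation of the preceding statement: For every n there is a latin square of order n such that, for each m with 1 ≤ m and 2m ≤ n, some m rows and m columns meet in an m×m subarray using only m symbols, i.e. a latin subsquare of order m. -/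
theorem result :
    ¬ (∀ n : ℕ, ∃ L : Fin n → Fin n → Fin n,
      (∀ i : Fin n, Function.Bijective (L i)) ∧
      (∀ j : Fin n, Function.Bijective (fun i : Fin n => L i j)) ∧
      ∀ m : ℕ, 1 ≤ m → 2 * m ≤ n →
        ∃ R C S : Finset (Fin n),
          R.card = m ∧ C.card = m ∧ S.card = m ∧
          ∀ r ∈ R, ∀ c ∈ C, L r c ∈ S) := by
  classical
  intro H
  obtain ⟨L, hrow, hcol, hsub⟩ := H 8
  obtain ⟨R, C, S, hR, hC, hS, h⟩ := hsub 4 (by norm_num) (by norm_num)
  obtain ⟨R', C', S', hR', hC', hS', h'⟩ := hsub 3 (by norm_num) (by norm_num)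
  have hri : ∀ i, Function.Injective (L i) := fun i => (hrow i).1
  have hci : ∀ j, Function.Injective (fun i => L i j) := fun j => (hcol j).1
  -- the four quadrants
  have q1 : ∀ r ∈ R, ∀ c, L r c ∈ S ↔ c ∈ C := fun r hr c =>
    mem_iff (hri r) (by rw [hC, hS]) (h r hr) c
  have q2 : ∀ c ∈ C, ∀ r, L r c ∈ S ↔ r ∈ R := fun c hc r =>
    mem_iff (hci c) (by rw [hR, hS]) (fun r hr => h r hr c hc) r
  have hSc : Sᶜ.card = 4 := by rw [Finset.card_compl, hS]; rfl
  have hCc : Cᶜ.card = 4 := by rw [Finset.card_compl, hC]; rfl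
  have hRc : Rᶜ.card = 4 := by rw [Finset.card_compl, hR]; rfl
  have q3 : ∀ r, r ∉ R → ∀ c, L r c ∈ S ↔ c ∉ C := by
    intro r hr c
    have h1 : ∀ c ∈ C, L r c ∈ Sᶜ := by
      intro c hc
      rw [Finset.mem_compl, q2 c hc]
      exact hr
    have h2 := mem_iff (hri r) (C := C) (S := Sᶜ) (by rw [hC, hSc]) h1 c
    rw [Finset.mem_compl] at h2
    tauto
  have hq : ∀ r c, L r c ∈ S ↔ (r ∈ R ↔ c ∈ C) := by
    intro r c
    by_cases hr : r ∈ R
    · rw [q1 r hr]; tauto
    · rw [q3 r hr]; tauto
  have hq' : ∀ c r, L r c ∈ S ↔ (c ∈ C ↔ r ∈ R) := by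
    intro c r
    rw [hq]; tauto
  have s1 := one_side hri hq hC' hS' h'
  have s2 := one_side (L := fun c r => L r c) hci hq' hR' hS' (fun c hc r hr => h' r hr c hc)
  rcases s1 with s1 | s1 <;> rcases s2 with s2 | s2
  · exact no_quadrant hri hci hR hS h hR' hC' hS' h' s1 s2
  · refine no_quadrant (C := Cᶜ) (S := Sᶜ) hri hci hR hSc ?_ hR' hC' hS' h' s1
      (fun c hc => Finset.mem_compl.2 (s2 c hc))
    intro r hr c hc
    rw [Finset.mem_compl] at hc ⊢
    rw [hq]; tauto
  · refine no_quadrant (R := Rᶜ) (C := C) (S := Sᶜ) hri hci hRc hSc ?_ hR' hC' hS' h'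
      (fun r hr => Finset.mem_compl.2 (s1 r hr)) s2
    intro r hr c hc
    rw [Finset.mem_compl] at hr ⊢
    rw [hq]; tauto
  · refine no_quadrant (R := Rᶜ) (C := Cᶜ) (S := S) hri hci hRc hS ?_ hR' hC' hS' h'
      (fun r hr => Finset.mem_compl.2 (s1 r hr)) (fun c hc => Finset.mem_compl.2 (s2 c hc))
    intro r hr c hc
    rw [Finset.mem_compl] at hr hc
    rw [hq]; tauto

end Pool.Agent.S08268
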