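import Pool.Statements.S08467
-- import your own Pool.Agent.* helpers here

set_option autoImplicit false
open Pool Pool.MP_45c2e2_co

namespace Pool.Agent.S08467

open Finset Polynomial

/-- Digits in base `N` of `t`, `t^2`, `t^3`, shifted by one. -/
def crd (N t : ℕ) (i : Fin 101) : ℕ :=
  if i = 0 then t + 1 else if i = 1 then t ^ 2 % N + 1 else if i = 2 then t ^ 2 / N + 1 else
    if i = 3 then t ^ 3 % N + 1 else if i = 4 then t ^ 3 / N % N + 1 else
      if i = 5 then t ^ 3 / N / N + 1 else 1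

lemma crd_bd (N t : ℕ) (ht : t < N) (i : Fin 101) : 1 ≤ crd N t i ∧ crd N t i ≤ N := by
  have hN : 0 < N := by omega
  have h1 : t ^ 2 % N < N := Nat.mod_lt _ hN
  have h2 : t ^ 2 / N < N := by
    rw [Nat.div_lt_iff_lt_mul hN]
    nlinarith
  have h3 : t ^ 3 % N < N := Nat.mod_lt _ hN
  have h4 : t ^ 3 / N % N < N := Nat.mod_lt _ hN
  have h5 : t ^ 3 / N / N < N := by
    rw [Nat.div_lt_iff_lt_mul hN, Nat.div_lt_iff_lt_mul hN]
    calc t ^ 3 < N ^ 3 := Nat.pow_lt_pow_left ht (by norm_num)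
      _ = N * N * N := by ring
  have g1 : 1 ≤ t + 1 ∧ t + 1 ≤ N := ⟨Nat.succ_le_succ (Nat.zero_le _), ht⟩
  have g2 : 1 ≤ t ^ 2 % N + 1 ∧ t ^ 2 % N + 1 ≤ N := ⟨Nat.succ_le_succ (Nat.zero_le _), h1⟩
  have g3 : 1 ≤ t ^ 2 / N + 1 ∧ t ^ 2 / N + 1 ≤ N := ⟨Nat.succ_le_succ (Nat.zero_le _), h2⟩
  have g4 : 1 ≤ t ^ 3 % N + 1 ∧ t ^ 3 % N + 1 ≤ N := ⟨Nat.succ_le_succ (Nat.zero_le _), h3⟩
  have g5 : 1 ≤ t ^ 3 / N % N + 1 ∧ t ^ 3 / N % N + 1 ≤ N := ⟨Nat.succ_le_succ (Nat.zero_le _), h4⟩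
  have g6 : 1 ≤ t ^ 3 / N / N + 1 ∧ t ^ 3 / N / N + 1 ≤ N := ⟨Nat.succ_le_succ (Nat.zero_le _), h5⟩
  have g7 : 1 ≤ 1 ∧ 1 ≤ N := ⟨le_refl _, hN⟩
  unfold crd
  split_ifs <;> assumption

/-- The linear map that puts the digits together. -/
noncomputable def La (N : ℕ) : (Fin 101 → ℝ) →ₗ[ℝ] (Fin 3 → ℝ) :=
  LinearMap.pi ![LinearMap.proj 0, LinearMap.proj 1 + (N : ℝ) • LinearMap.proj 2,
    LinearMap.proj 3 + (N : ℝ) • LinearMap.proj 4 + ((N : ℝ) * N) • LinearMap.proj 5]

noncomputable def pt (N t : ℕ) : Fin 101 → ℝ := fun i => (crd N t i : ℝ)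

lemma La_pt (N t : ℕ) : La N (pt N t) = ![(t : ℝ) + 1, (t : ℝ) ^ 2 + (1 + N),
    (t : ℝ) ^ 3 + (1 + N + N * N)] := by
  have e2 : t ^ 2 = t ^ 2 % N + N * (t ^ 2 / N) := (Nat.mod_add_div _ _).symm
  have e3 : t ^ 3 = t ^ 3 % N + N * (t ^ 3 / N % N + N * (t ^ 3 / N / N)) := by
    rw [Nat.mod_add_div (t ^ 3 / N) N, Nat.mod_add_div]
  have e2' : (t : ℝ) ^ 2 = ((t ^ 2 % N : ℕ) : ℝ) + N * ((t ^ 2 / N : ℕ) : ℝ) := by
    exact_mod_cast e2
  have e3' : (t : ℝ) ^ 3 = ((t ^ 3 % N : ℕ) : ℝ) +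
      N * (((t ^ 3 / N % N : ℕ) : ℝ) + N * ((t ^ 3 / N / N : ℕ) : ℝ)) := by
    exact_mod_cast e3
  have c0 : crd N t 0 = t + 1 := by unfold crd; simp
  have c1 : crd N t 1 = t ^ 2 % N + 1 := by unfold crd; simp
  have c2 : crd N t 2 = t ^ 2 / N + 1 := by
    unfold crd
    rw [if_neg (by decide), if_neg (by decide), if_pos rfl]
  have c3 : crd N t 3 = t ^ 3 % N + 1 := by
    unfold crd
    rw [if_neg (by decide), if_neg (by decide), if_neg (by decide), if_pos rfl]
  have c4 : crd N t 4 = t ^ 3 / N % N + 1 := by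
    unfold crd
    rw [if_neg (by decide), if_neg (by decide), if_neg (by decide), if_neg (by decide), if_pos rfl]
  have c5 : crd N t 5 = t ^ 3 / N / N + 1 := by
    unfold crd
    rw [if_neg (by decide), if_neg (by decide), if_neg (by decide), if_neg (by decide),
      if_neg (by decide), if_pos rfl]
  funext j
  fin_cases j
  · simp [La, pt, c0]
  · simp only [La, pt, LinearMap.pi_apply, Fin.mk_one, Matrix.cons_val_one, Matrix.cons_val_zero,
      LinearMap.add_apply, LinearMap.smul_apply, LinearMap.proj_apply, c1, c2, smul_eq_mul]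
    push_cast at e2' ⊢
    rw [e2']
    ring
  · simp only [La, pt, LinearMap.pi_apply, Fin.reduceFinMk, Matrix.cons_val,
      LinearMap.add_apply, LinearMap.smul_apply, LinearMap.proj_apply, c3, c4, c5, smul_eq_mul]
    push_cast at e3' ⊢
    rw [e3']
    ring

/-- There is a dimension d > 100 such that for all large N, some subset of the grid {1..N}^d with at least N^(d-100) points has no 5 distinct points on a common 2-plane. -/
theorem result :
    ∃ d : ℕ, 100 < d ∧ ∃ N₀ : ℕ, ∀ N : ℕ, N₀ ≤ N →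
      ∃ A : Finset (Fin d → ℝ),
        (∀ x ∈ A, ∀ i : Fin d, ∃ k : ℕ, 1 ≤ k ∧ k ≤ N ∧ x i = (k : ℝ)) ∧
        (∀ S : Finset (Fin d → ℝ), S ⊆ A → S.card = 5 →
          ¬ Coplanar ℝ (S : Set (Fin d → ℝ))) ∧
        N ^ (d - 100) ≤ A.card := by
  classical
  refine ⟨101, by norm_num, 0, fun N _ => ?_⟩
  have hinj : Set.InjOn (pt N) (range N : Set ℕ) := by
    intro s _ t _ hst
    have h := congrFun hst 0
    unfold pt crd at h
    simp only [if_true] at h
    push_cast at h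
    exact_mod_cast (add_right_cancel h)
  refine ⟨(range N).image (pt N), ?_, ?_, ?_⟩
  · intro x hx i
    obtain ⟨t, ht, rfl⟩ := mem_image.1 hx
    obtain ⟨h1, h2⟩ := crd_bd N t (mem_range.1 ht) i
    exact ⟨crd N t i, h1, h2, rfl⟩
  · intro S hS hS5 hcop
    -- the parameters
    obtain ⟨T, hT, hTS⟩ := Finset.subset_image_iff.1 hS
    have hT5 : T.card = 5 := by
      rw [← hS5, ← hTS, card_image_of_injOn]
      exact hinj.mono (by exact_mod_cast hT)
    haveI := hcop.finiteDimensional_vectorSpan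
    have hrank : Module.finrank ℝ (vectorSpan ℝ (S : Set (Fin 101 → ℝ))) ≤ 2 :=
      Module.finrank_le_of_rank_le (by exact_mod_cast hcop)
    have hlt : (vectorSpan ℝ (S : Set (Fin 101 → ℝ))).map (La N) < ⊤ := by
      rw [lt_top_iff_ne_top]
      intro htop
      have h1 := Submodule.finrank_map_le (La N) (vectorSpan ℝ (S : Set (Fin 101 → ℝ)))
      rw [htop, finrank_top] at h1
      simp at h1
      omega
    obtain ⟨φ, hφ, hle⟩ := Submodule.exists_le_ker_of_lt_top _ hlt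
    -- the value of `φ ∘ La` is constant on `S`
    have hconst : ∀ s ∈ T, ∀ t ∈ T, φ (La N (pt N s)) = φ (La N (pt N t)) := by
      intro s hs t ht
      have h1 : pt N s -ᵥ pt N t ∈ vectorSpan ℝ (S : Set (Fin 101 → ℝ)) := by
        apply vsub_mem_vectorSpan
        · rw [← hTS]; exact_mod_cast mem_image_of_mem _ hs
        · rw [← hTS]; exact_mod_cast mem_image_of_mem _ ht
      have h2 := hle (Submodule.mem_map_of_mem h1)
      rw [LinearMap.mem_ker, vsub_eq_sub, map_sub, map_sub, sub_eq_zero] at h2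
      exact h2
    have hval : ∀ t, φ (La N (pt N t)) = ((t : ℝ) + 1) * φ (Pi.single 0 1) +
        ((t : ℝ) ^ 2 + (1 + N)) * φ (Pi.single 1 1) +
        ((t : ℝ) ^ 3 + (1 + N + N * N)) * φ (Pi.single 2 1) := by
      intro t
      rw [La_pt, LinearMap.pi_apply_eq_sum_univ φ, Fin.sum_univ_three]
      simp [Pi.single_apply, eq_comm]
      congr! 3 <;> (congr 1; funext j; fin_cases j <;> simp)
    obtain ⟨α, hα⟩ : ∃ α, α = φ (Pi.single 0 1) := ⟨_, rfl⟩
    obtain ⟨β, hβ⟩ : ∃ β, β = φ (Pi.single 1 1) := ⟨_, rfl⟩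
    obtain ⟨γ, hγ⟩ : ∃ γ, γ = φ (Pi.single 2 1) := ⟨_, rfl⟩
    obtain ⟨t₀, ht₀⟩ : T.Nonempty := card_pos.1 (by omega)
    obtain ⟨c, hc⟩ : ∃ c : ℝ, c = (t₀ : ℝ) * α + (t₀ : ℝ) ^ 2 * β + (t₀ : ℝ) ^ 3 * γ := ⟨_, rfl⟩
    obtain ⟨P, hP⟩ : ∃ P : ℝ[X], P = C γ * X ^ 3 + C β * X ^ 2 + C α * X + C (-c) := ⟨_, rfl⟩
    have hroot : ∀ t ∈ T, P.IsRoot (t : ℝ) := by
      intro t ht
      have h1 := hconst t ht t₀ ht₀
      rw [hval, hval, ← hα, ← hβ, ← hγ] at h1
      rw [IsRoot.def, hP]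
      simp only [eval_add, eval_mul, eval_C, eval_pow, eval_X]
      rw [hc]
      linarith
    have hP0 : P = 0 := by
      by_contra hne
      have hsub : (T.image (fun t : ℕ => (t : ℝ))) ⊆ P.roots.toFinset := by
        intro x hx
        obtain ⟨t, ht, rfl⟩ := mem_image.1 hx
        rw [Multiset.mem_toFinset, mem_roots hne]
        exact hroot t ht
      have h1 := card_le_card hsub
      rw [card_image_of_injective _ Nat.cast_injective, hT5] at h1
      have h2 := (Multiset.toFinset_card_le P.roots).trans (card_roots' P)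
      have h3 : P.natDegree ≤ 3 := by
        rw [hP]
        exact natDegree_cubic_le
      omega
    have hcoef : ∀ k, P.coeff k = 0 := fun k => by rw [hP0, coeff_zero]
    have g3 : γ = 0 := by
      have := hcoef 3
      rw [hP] at this
      simpa [coeff_X, coeff_C] using this
    have g2 : β = 0 := by
      have := hcoef 2
      rw [hP] at this
      simpa [coeff_X, coeff_C] using this
    have g1 : α = 0 := by
      have := hcoef 1
      rw [hP] at this
      simpa [coeff_X, coeff_C] using this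
    apply hφ
    ext j
    fin_cases j
    · simpa [hα] using g1
    · simpa [hβ] using g2
    · simpa [hγ] using g3
  · rw [card_image_of_injOn hinj, card_range]
    norm_num

end Pool.Agent.S08467
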