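import Pool.Statements.S08686
-- import your own Pool.Agent.* helpers here

set_option autoImplicit false
open Pool Pool.MP_4e7ec3_co

namespace Pool.Agent.S08686

/-- The twenty points `0, 1/19, …, 1`. -/
noncomputable def FF : Finset ℝ := (Finset.range 20).image (fun i : ℕ => (i : ℝ) / 19)

/-- A map with two attracting cells (between `4/19` and `5/19`, and between `14/19` and `15/19`)
and one repelling cell (between `9/19` and `10/19`). -/
noncomputable def TT (p : ℝ) : ℝ :=
  if p < 5 / 19 then p + 1 / 19 else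
    if p < 10 / 19 then p - 1 / 19 else
      if p < 15 / 19 then p + 1 / 19 else p - 1 / 19

lemma mem_FF (x : ℝ) : x ∈ FF ↔ ∃ i : ℕ, i < 20 ∧ x = (i : ℝ) / 19 := by
  unfold FF
  simp only [Finset.mem_image, Finset.mem_range]
  constructor
  · rintro ⟨i, hi, rfl⟩; exact ⟨i, hi, rfl⟩
  · rintro ⟨i, hi, rfl⟩; exact ⟨i, hi, rfl⟩

lemma FF_bd {x : ℝ} (h : x ∈ FF) : 0 ≤ x ∧ x ≤ 1 := by
  obtain ⟨i, hi, rfl⟩ := (mem_FF x).1 h
  have h2 : (i : ℝ) ≤ 19 := by exact_mod_cast (Nat.lt_succ_iff.1 hi)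
  constructor
  · positivity
  · rw [div_le_one (by norm_num)]; exact h2

/-- Points of `FF` below `m/19` are at most `(m-1)/19`. -/
lemma FF_lt {x : ℝ} (h : x ∈ FF) (m : ℕ) (hx : x < (m : ℝ) / 19) : x ≤ ((m : ℝ) - 1) / 19 := by
  obtain ⟨i, hi, rfl⟩ := (mem_FF x).1 h
  have h1 : (i : ℝ) < m := by
    rw [div_lt_div_iff_of_pos_right (by norm_num)] at hx
    exact hx
  have h2 : i + 1 ≤ m := by exact_mod_cast h1
  have h3 : (i : ℝ) + 1 ≤ m := by exact_mod_cast h2
  rw [div_le_div_iff_of_pos_right (by norm_num)]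
  linarith

lemma TT_mem {x : ℝ} (h : x ∈ FF) : TT x ∈ FF := by
  obtain ⟨i, hi, rfl⟩ := (mem_FF x).1 h
  unfold TT
  have e : ∀ m : ℕ, ((i : ℝ) / 19 < (m : ℝ) / 19) ↔ i < m := by
    intro m
    rw [div_lt_div_iff_of_pos_right (by norm_num)]
    exact Nat.cast_lt
  have e5 := e 5
  have e10 := e 10
  have e15 := e 15
  push_cast at e5 e10 e15
  rw [mem_FF]
  split_ifs with h1 h2 h3
  · rw [e5] at h1
    exact ⟨i + 1, by omega, by push_cast; ring⟩
  · rw [e5] at h1
    refine ⟨i - 1, by omega, ?_⟩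
    rw [Nat.cast_sub (by omega)]
    push_cast; ring
  · rw [e15] at h3
    exact ⟨i + 1, by omega, by push_cast; ring⟩
  · rw [e15] at h3
    refine ⟨i - 1, by omega, ?_⟩
    rw [Nat.cast_sub (by omega)]
    push_cast; ring

lemma TT_move (x : ℝ) : (1 : ℝ) / 38 < |x - TT x| := by
  unfold TT
  split_ifs
  · rw [show x - (x + 1 / 19) = -(1 / 19) by ring, abs_neg, abs_of_pos (by norm_num)]; norm_num
  · rw [show x - (x - 1 / 19) = 1 / 19 by ring, abs_of_pos (by norm_num)]; norm_num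
  · rw [show x - (x + 1 / 19) = -(1 / 19) by ring, abs_neg, abs_of_pos (by norm_num)]; norm_num
  · rw [show x - (x - 1 / 19) = 1 / 19 by ring, abs_of_pos (by norm_num)]; norm_num

/-- A permissible step ends at distance at most `1/19` from `TT x`. -/
lemma step_bd {x y : ℝ} (hx : x ∈ FF)
    (h : y = TT x ∨ (y ∈ FF ∧ y < TT x ∧ ∀ r ∈ FF, r < TT x → r ≤ y) ∨
      (y ∈ FF ∧ TT x < y ∧ ∀ r ∈ FF, TT x < r → y ≤ r)) :
    y ∈ FF ∧ TT x - 1 / 19 ≤ y ∧ y ≤ TT x + 1 / 19 := by
  have hT := TT_mem hx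
  rcases h with h | ⟨hy, h1, h2⟩ | ⟨hy, h1, h2⟩
  · subst h
    exact ⟨hT, by linarith, by linarith⟩
  · refine ⟨hy, ?_, by linarith⟩
    obtain ⟨i, hi, hi2⟩ := (mem_FF _).1 hT
    have hi0 : 1 ≤ i := by
      rcases Nat.eq_zero_or_pos i with h0 | h0
      · subst h0
        have := (FF_bd hy).1
        rw [hi2] at h1
        simp at h1
        linarith
      · exact h0
    have hm : (((i - 1 : ℕ) : ℝ) / 19) ∈ FF := (mem_FF _).2 ⟨i - 1, by omega, rfl⟩
    have e : (((i - 1 : ℕ) : ℝ) / 19) = TT x - 1 / 19 := by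
      rw [hi2, Nat.cast_sub hi0]; push_cast; ring
    have := h2 _ hm (by rw [e]; linarith)
    rw [e] at this
    exact this
  · refine ⟨hy, by linarith, ?_⟩
    obtain ⟨i, hi, hi2⟩ := (mem_FF _).1 hT
    obtain ⟨j, hj, hj2⟩ := (mem_FF _).1 hy
    have hij : i < j := by
      rw [hi2, hj2, div_lt_div_iff_of_pos_right (by norm_num)] at h1
      exact_mod_cast h1
    have hm : (((i + 1 : ℕ) : ℝ) / 19) ∈ FF := (mem_FF _).2 ⟨i + 1, by omega, rfl⟩
    have e : (((i + 1 : ℕ) : ℝ) / 19) = TT x + 1 / 19 := by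
      rw [hi2]; push_cast; ring
    have := h2 _ hm (by rw [e]; linarith)
    rw [e] at this
    exact this

/-- The negation of the preceding statement: There is a constant k such that for every finite F in [0,1] containing 0 and 1, every ε>0, and every T:F→F moving each point by more than ε, some p₀ in F reaches a point at distance at least 1/3 in at most k/ε steps, each step going to T(p) or a neighbour of T(p) in F. -/
theorem result :
    ¬ (∃ k : ℝ, ∀ (F : Finset ℝ) (ε : ℝ) (T : ℝ → ℝ),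
      (∀ p ∈ F, 0 ≤ p ∧ p ≤ 1) → (0 : ℝ) ∈ F → (1 : ℝ) ∈ F → 0 < ε →
      (∀ p ∈ F, T p ∈ F ∧ ε < |p - T p|) →
      ∃ p₀ ∈ F, ∃ n : ℕ, (n : ℝ) ≤ k / ε ∧
        ∃ x : ℕ → ℝ, x 0 = p₀ ∧
          (∀ i < n,
            x (i + 1) = T (x i) ∨
            (x (i + 1) ∈ F ∧ x (i + 1) < T (x i) ∧
              ∀ r ∈ F, r < T (x i) → r ≤ x (i + 1)) ∨
            (x (i + 1) ∈ F ∧ T (x i) < x (i + 1) ∧
              ∀ r ∈ F, T (x i) < r → x (i + 1) ≤ r)) ∧
          1 / 3 ≤ |x n - p₀|) := by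
  rintro ⟨k, h⟩
  obtain ⟨p₀, hp₀, n, -, x, hx0, hstep, hdist⟩ := h FF (1 / 38) TT (fun p hp => FF_bd hp)
    ((mem_FF _).2 ⟨0, by norm_num, by norm_num⟩) ((mem_FF _).2 ⟨19, by norm_num, by norm_num⟩)
    (by norm_num) (fun p hp => ⟨TT_mem hp, TT_move p⟩)
  have hb := FF_bd hp₀
  rcases lt_or_ge p₀ (10 / 19) with hl | hl
  · -- the left half
    have hp9 : p₀ ≤ 9 / 19 := by
      have := FF_lt hp₀ 10 (by push_cast; exact hl)
      push_cast at this
      linarith
    have key : ∀ i ≤ n, x i ∈ FF ∧ x i ≤ 9 / 19 ∧ min p₀ (3 / 19) ≤ x i ∧ x i ≤ max p₀ (6 / 19) := by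
      intro i
      induction i with
      | zero =>
        intro _
        rw [hx0]
        exact ⟨hp₀, hp9, min_le_left _ _, le_max_left _ _⟩
      | succ i ih =>
        intro hi
        obtain ⟨h1, h2, h3, h4⟩ := ih (by omega)
        obtain ⟨g1, g2, g3⟩ := step_bd h1 (hstep i (by omega))
        have hmax : (6 : ℝ) / 19 ≤ max p₀ (6 / 19) := le_max_right _ _
        have hmin : min p₀ (3 / 19) ≤ (3 : ℝ) / 19 := min_le_right _ _
        rcases lt_or_ge (x i) (5 / 19) with hc | hc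
        · have hc4 : x i ≤ 4 / 19 := by
            have := FF_lt h1 5 (by push_cast; exact hc)
            push_cast at this
            linarith
          have hT : TT (x i) = x i + 1 / 19 := by
            unfold TT
            rw [if_pos hc]
          rw [hT] at g2 g3
          exact ⟨g1, by linarith, by linarith, by linarith⟩
        · have hT : TT (x i) = x i - 1 / 19 := by
            unfold TT
            rw [if_neg (not_lt.2 hc), if_pos (by linarith)]
          rw [hT] at g2 g3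
          exact ⟨g1, by linarith, by linarith, by linarith⟩
    obtain ⟨-, -, h3, h4⟩ := key n le_rfl
    have h5 : x n - p₀ ≤ 6 / 19 := by
      rcases max_cases p₀ (6 / 19 : ℝ) with ⟨e, -⟩ | ⟨e, -⟩ <;> rw [e] at h4 <;> linarith [hb.1]
    have h6 : -(6 / 19) ≤ x n - p₀ := by
      rcases min_cases p₀ (3 / 19 : ℝ) with ⟨e, -⟩ | ⟨e, -⟩ <;> rw [e] at h3 <;> linarith
    have h7 : |x n - p₀| ≤ 6 / 19 := abs_le.2 ⟨h6, h5⟩
    linarith [hdist.trans h7]
  · -- the right half
    have key : ∀ i ≤ n, x i ∈ FF ∧ 10 / 19 ≤ x i ∧ min p₀ (13 / 19) ≤ x i ∧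
        x i ≤ max p₀ (16 / 19) := by
      intro i
      induction i with
      | zero =>
        intro _
        rw [hx0]
        exact ⟨hp₀, hl, min_le_left _ _, le_max_left _ _⟩
      | succ i ih =>
        intro hi
        obtain ⟨h1, h2, h3, h4⟩ := ih (by omega)
        obtain ⟨g1, g2, g3⟩ := step_bd h1 (hstep i (by omega))
        have hmax : (16 : ℝ) / 19 ≤ max p₀ (16 / 19) := le_max_right _ _
        have hmin : min p₀ (13 / 19) ≤ (13 : ℝ) / 19 := min_le_right _ _
        rcases lt_or_ge (x i) (15 / 19) with hc | hc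
        · have hc4 : x i ≤ 14 / 19 := by
            have := FF_lt h1 15 (by push_cast; exact hc)
            push_cast at this
            linarith
          have hT : TT (x i) = x i + 1 / 19 := by
            unfold TT
            rw [if_neg (by linarith), if_neg (by linarith), if_pos hc]
          rw [hT] at g2 g3
          exact ⟨g1, by linarith, by linarith, by linarith⟩
        · have hT : TT (x i) = x i - 1 / 19 := by
            unfold TT
            rw [if_neg (by linarith), if_neg (by linarith), if_neg (not_lt.2 hc)]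
          rw [hT] at g2 g3
          exact ⟨g1, by linarith, by linarith, by linarith⟩
    obtain ⟨-, -, h3, h4⟩ := key n le_rfl
    have h5 : x n - p₀ ≤ 6 / 19 := by
      rcases max_cases p₀ (16 / 19 : ℝ) with ⟨e, -⟩ | ⟨e, -⟩ <;> rw [e] at h4 <;> linarith
    have h6 : -(6 / 19) ≤ x n - p₀ := by
      rcases min_cases p₀ (13 / 19 : ℝ) with ⟨e, -⟩ | ⟨e, -⟩ <;> rw [e] at h3 <;> linarith [hb.2]
    have h7 : |x n - p₀| ≤ 6 / 19 := abs_le.2 ⟨h6, h5⟩
    linarith [hdist.trans h7]

end Pool.Agent.S08686
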