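import Pool.Statements.S08907
-- import your own Pool.Agent.* helpers here
import Pool.Agent.N765.SignPermVal

set_option autoImplicit false
open Pool Pool.MP_596cf1_co

namespace Pool.Agent.S08907

open Finset Equiv Pool.Agent.N765.SignPerm

/-- the free line attached to a bit pattern -/
noncomputable def eps (a T : ℕ) (x : Fin T → Bool) (r : ℕ) : ℤ :=
  1 - 2 * ∑ t : Fin T, (if x t = true then ev (a + (2 * (t : ℕ) + 1)) r else 0)

lemma eps_sign (a T : ℕ) (x : Fin T → Bool) (r : ℕ) : eps a T x r = 1 ∨ eps a T x r = -1 := by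
  by_cases hex : ∃ t : Fin T, x t = true ∧ r = a + (2 * (t : ℕ) + 1)
  · obtain ⟨t, ht, hr⟩ := hex
    right
    have : ∑ t : Fin T, (if x t = true then ev (a + (2 * (t : ℕ) + 1)) r else 0) = 1 := by
      rw [Finset.sum_eq_single t]
      · simp [ht, ev, hr]
      · intro s _ hs
        have : r ≠ a + (2 * (s : ℕ) + 1) := by
          intro hh
          apply hs
          ext
          omega
        simp [ev, this]
      · simp
    rw [eps, this]; norm_num
  · left
    have : ∑ t : Fin T, (if x t = true then ev (a + (2 * (t : ℕ) + 1)) r else 0) = 0 := by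
      apply Finset.sum_eq_zero
      intro s _
      by_cases hs : x s = true
      · have : r ≠ a + (2 * (s : ℕ) + 1) := fun hh => hex ⟨s, hs, hh⟩
        simp [ev, this]
      · simp [hs]
    rw [eps, this]; norm_num

lemma V_eps (N a T : ℕ) (x : Fin T → Bool) :
    V N a (eps a T x) = V N a (fun _ => 1) -
      2 * ∑ t : Fin T, (if x t = true then V N a (ev (a + (2 * (t : ℕ) + 1))) else 0) := by
  simp only [V, eps]
  have e : ∀ t : Fin T, (if x t = true then
      ∑ σ : Perm (Fin (N + 1)), ev (a + (2 * (t : ℕ) + 1)) (σ 0) * w N a σ else 0)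
      = ∑ σ : Perm (Fin (N + 1)),
        (if x t = true then ev (a + (2 * (t : ℕ) + 1)) (σ 0) else 0) * w N a σ := by
    intro t
    split_ifs <;> simp
  simp only [e]
  rw [Finset.sum_comm, Finset.mul_sum, ← Finset.sum_sub_distrib]
  refine Finset.sum_congr rfl fun σ _ => ?_
  rw [← Finset.sum_mul]
  ring

/-- subset sums of numbers with strictly increasing 3-adic valuations are distinct -/
lemma subset_sum_injective (T : ℕ) (A : ℕ → ℤ)
    (h1 : ∀ t < T, (3 : ℤ) ^ (2 * t + 1) ∣ A t) (h2 : ∀ t < T, ¬ (3 : ℤ) ^ (2 * t + 1 + 1) ∣ A t) :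
    Function.Injective (fun x : Fin T → Bool => ∑ t : Fin T, (if x t = true then A t else 0)) := by
  intro x x' hxx
  simp only at hxx
  by_contra hne
  have hex : ∃ m : ℕ, ∃ hm : m < T, x ⟨m, hm⟩ ≠ x' ⟨m, hm⟩ := by
    by_contra hcon
    push Not at hcon
    exact hne (funext fun t => hcon t t.2)
  obtain ⟨m, ⟨hm, hmne⟩, hmin'⟩ : ∃ m : ℕ, (∃ hm : m < T, x ⟨m, hm⟩ ≠ x' ⟨m, hm⟩) ∧
      ∀ s < m, ¬ ∃ hs : s < T, x ⟨s, hs⟩ ≠ x' ⟨s, hs⟩ := by
    classical
    exact ⟨Nat.find hex, Nat.find_spec hex, fun s hs => Nat.find_min hex hs⟩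
  have hmin : ∀ s : Fin T, (s : ℕ) < m → x s = x' s := by
    intro s hs
    by_contra hcon
    exact hmin' s hs ⟨s.2, hcon⟩
  set D : Fin T → ℤ := fun t => (if x t = true then A t else 0) - (if x' t = true then A t else 0)
    with hD
  have hsum : ∑ t : Fin T, D t = 0 := by
    simp only [hD, Finset.sum_sub_distrib]; linarith
  rw [← Finset.add_sum_erase univ D (Finset.mem_univ (⟨m, hm⟩ : Fin T))] at hsum
  have hrest : (3 : ℤ) ^ (2 * m + 1 + 1) ∣ ∑ t ∈ univ.erase (⟨m, hm⟩ : Fin T), D t := by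
    apply Finset.dvd_sum
    intro t ht
    have htm : t ≠ ⟨m, hm⟩ := Finset.ne_of_mem_erase ht
    rcases lt_trichotomy (t : ℕ) m with hlt | heq | hgt
    · have : D t = 0 := by simp [hD, hmin t hlt]
      rw [this]; exact dvd_zero _
    · exact absurd (Fin.ext heq) htm
    · have hA : (3 : ℤ) ^ (2 * m + 1 + 1) ∣ A t :=
        (pow_dvd_pow _ (by omega)).trans (h1 t t.2)
      simp only [hD]
      split_ifs
      · simp
      · simpa using hA
      · simpa using hA
      · simp
  have hDm : (3 : ℤ) ^ (2 * m + 1 + 1) ∣ D ⟨m, hm⟩ := by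
    have : D ⟨m, hm⟩ = - ∑ t ∈ univ.erase (⟨m, hm⟩ : Fin T), D t := by linarith
    rw [this]; exact (dvd_neg).2 hrest
  apply h2 m hm
  simp only [hD] at hDm
  by_cases hb : x ⟨m, hm⟩ = true
  · by_cases hb' : x' ⟨m, hm⟩ = true
    · exact absurd (hb.trans hb'.symm) hmne
    · rw [if_pos hb, if_neg hb', sub_zero] at hDm
      exact hDm
  · by_cases hb' : x' ⟨m, hm⟩ = true
    · rw [if_neg hb, if_pos hb', zero_sub] at hDm
      exact (dvd_neg).1 hDm
    · exact absurd ((Bool.eq_false_of_not_eq_true hb).trans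
        (Bool.eq_false_of_not_eq_true hb').symm) hmne

/-- the sign matrix attached to a bit pattern -/
noncomputable def mat (N a T : ℕ) (x : Fin T → Bool) : Matrix (Fin (N + 1)) (Fin (N + 1)) ℤ :=
  fun r l => Fin.cases (eps a T x r) (fun l' : Fin N => if (r : ℕ) < h a l' then (-1 : ℤ) else 1) l

lemma mat_sign (N a T : ℕ) (x : Fin T → Bool) (i j : Fin (N + 1)) :
    mat N a T x i j = 1 ∨ mat N a T x i j = -1 := by
  refine Fin.cases ?_ (fun l => ?_) j
  · exact eps_sign a T x i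
  · simp only [mat, Fin.cases_succ]
    split_ifs <;> simp

lemma mat_permanent (N a T : ℕ) (x : Fin T → Bool) :
    (mat N a T x).permanent = V N a (eps a T x) := by
  simp only [Matrix.permanent, V]
  refine Finset.sum_congr rfl fun σ _ => ?_
  rw [Fin.prod_univ_succ]
  simp only [mat, Fin.cases_zero, Fin.cases_succ, w]

lemma sign_finite (n : ℕ) : (Set.Finite {p : ℤ | ∃ A : Matrix (Fin n) (Fin n) ℤ,
        (∀ i j, A i j = 1 ∨ A i j = -1) ∧ A.permanent = p}) := by
  apply (Set.finite_range (fun B : Fin n → Fin n → Bool =>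
    (Matrix.permanent (fun i j => if B i j then (1 : ℤ) else -1 : Matrix (Fin n) (Fin n) ℤ)))).subset
  rintro p ⟨A, hA, rfl⟩
  refine ⟨fun i j => decide (A i j = 1), ?_⟩
  simp only
  congr 1
  ext i j
  rcases hA i j with hh | hh <;> simp [hh]

lemma lower (n T : ℕ) (hn : 6 * T ≤ n) (hT : 1 ≤ T) :
    2 ^ T ≤ Set.ncard {p : ℤ | ∃ A : Matrix (Fin n) (Fin n) ℤ,
        (∀ i j, A i j = 1 ∨ A i j = -1) ∧ A.permanent = p} := by
  obtain ⟨N, rfl⟩ : ∃ N, n = N + 1 := ⟨n - 1, by omega⟩
  set a := 2 * T with ha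
  have hinj : Function.Injective (fun x : Fin T → Bool => (mat N a T x).permanent) := by
    intro x x' hxx
    simp only [mat_permanent, V_eps] at hxx
    apply subset_sum_injective T (fun t => V N a (ev (a + (2 * t + 1)))) ?_ ?_
    · simp only
      linarith
    · intro t ht
      exact (val_cofactor N a (2 * t + 1) ⟨t, rfl⟩ (by omega) (by omega)).1
    · intro t ht
      exact (val_cofactor N a (2 * t + 1) ⟨t, rfl⟩ (by omega) (by omega)).2
  have hsub : (fun x : Fin T → Bool => (mat N a T x).permanent) '' Set.univ ⊆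
      {p : ℤ | ∃ A : Matrix (Fin (N + 1)) (Fin (N + 1)) ℤ,
        (∀ i j, A i j = 1 ∨ A i j = -1) ∧ A.permanent = p} := by
    rintro p ⟨x, _, rfl⟩
    exact ⟨mat N a T x, mat_sign N a T x, rfl⟩
  have := Set.ncard_le_ncard hsub (sign_finite _)
  rw [Set.ncard_image_of_injective _ hinj, Set.ncard_univ] at this
  simpa using this

/-- There is a constant c > 1 such that, for all large n, the number of distinct values taken by the permanent of n×n matrices with entries ±1 is at least c^n. -/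
theorem result :
    ∃ c : ℝ, 1 < c ∧ ∃ N : ℕ, ∀ n : ℕ, N ≤ n →
      c ^ n ≤ ((Set.ncard {p : ℤ | ∃ A : Matrix (Fin n) (Fin n) ℤ,
        (∀ i j, A i j = 1 ∨ A i j = -1) ∧ A.permanent = p} : ℕ) : ℝ) := by
  refine ⟨21 / 20, by norm_num, 12, fun n hn => ?_⟩
  have h1 := lower n (n / 6) (Nat.mul_div_le n 6) (by omega)
  have h2 : ((2 : ℝ) ^ (n / 6)) ≤ ((Set.ncard {p : ℤ | ∃ A : Matrix (Fin n) (Fin n) ℤ,
        (∀ i j, A i j = 1 ∨ A i j = -1) ∧ A.permanent = p} : ℕ) : ℝ) := by
    exact_mod_cast h1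
  refine le_trans ?_ h2
  have h3 : (21 / 20 : ℝ) ^ n ≤ (21 / 20 : ℝ) ^ (12 * (n / 12 + 1)) :=
    pow_le_pow_right₀ (by norm_num) (by omega)
  have h4 : (21 / 20 : ℝ) ^ (12 * (n / 12 + 1)) ≤ 2 ^ (n / 12 + 1) := by
    rw [pow_mul]
    exact pow_le_pow_left₀ (by positivity) (by norm_num) _
  have h5 : (2 : ℝ) ^ (n / 12 + 1) ≤ 2 ^ (n / 6) :=
    pow_le_pow_right₀ (by norm_num) (by omega)
  linarith

end Pool.Agent.S08907
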