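-- Frozen statement S09102 (MP_602b76_co), the negation: for d = 1 and U = {1, 6} no enumeration of the
-- integers has all its initial segments edge-optimal (the optimal sets with 9 elements are the 3 x 3 squares
-- {i + 6 j}, which are too long for the intervals, the only optimal sets with 13 elements).
import Pool.Statements.S09102
import Pool.Agent.N692.Nest

set_option autoImplicit false
open Pool Pool.MP_602b76_co

namespace Pool.Agent.S09102

/-- The negation of the preceding statement: For every d ≥ 1 and finite generating set U of ℤ^d not containing 0, some enumeration of ℤ^d has every initial segment of size n with edge boundary in the Cayley graph at most that of any n-element set. -/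
theorem result :
    ¬ (∀ d : ℕ, 1 ≤ d → ∀ U : Finset (Fin d → ℤ), (0 : Fin d → ℤ) ∉ U →
      AddSubgroup.closure (U : Set (Fin d → ℤ)) = ⊤ →
      ∃ e : ℕ ≃ (Fin d → ℤ), ∀ n : ℕ, 1 ≤ n → ∀ S : Finset (Fin d → ℤ), S.card = n →
        ((((Finset.range n).image ⇑e) ×ˢ (U ∪ U.image (fun u => -u))).filter
            (fun p => p.1 + p.2 ∉ (Finset.range n).image ⇑e)).card ≤
        ((S ×ˢ (U ∪ U.image (fun u => -u))).filter (fun p => p.1 + p.2 ∉ S)).card) := by
  intro H
  obtain ⟨e, he⟩ := H 1 le_rfl {Pool.Agent.N692.Nest.c 1, Pool.Agent.N692.Nest.c 6}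
    (by decide) Pool.Agent.N692.Nest.closure_top
  exact Pool.Agent.N692.Nest.main e he

end Pool.Agent.S09102
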