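import Pool.Statements.S09134
import Pool.Agent.N404.Inv4

set_option autoImplicit false
open Pool Pool.MP_61c7a3_co

namespace Pool.Agent.S09134

/-- The negation of the preceding statement: For every ℓ ≥ 3 there is a finite oriented graph D1 with inversion number exactly ℓ such that for every finite oriented graph D2 with inversion number at least 1, the dijoin D1→D2 has inversion number strictly less than inv(D1)+inv(D2). -/
theorem result :
    ¬ (∀ ℓ : ℕ, 3 ≤ ℓ → ∃ n : ℕ, ∃ r₁ : Fin n → Fin n → Prop,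
      (∀ x y, r₁ x y → ¬ r₁ y x) ∧
      (∃ X : Fin ℓ → Set (Fin n), ∀ v, ¬ Relation.TransGen
          (fun a b => (r₁ a b ∧ Even (Nat.card {i : Fin ℓ // a ∈ X i ∧ b ∈ X i})) ∨
                      (r₁ b a ∧ Odd (Nat.card {i : Fin ℓ // a ∈ X i ∧ b ∈ X i}))) v v) ∧
      (¬ ∃ X : Fin (ℓ - 1) → Set (Fin n), ∀ v, ¬ Relation.TransGen
          (fun a b => (r₁ a b ∧ Even (Nat.card {i : Fin (ℓ - 1) // a ∈ X i ∧ b ∈ X i})) ∨
                      (r₁ b a ∧ Odd (Nat.card {i : Fin (ℓ - 1) // a ∈ X i ∧ b ∈ X i}))) v v) ∧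
      ∀ m : ℕ, ∀ r₂ : Fin m → Fin m → Prop,
        (∀ x y, r₂ x y → ¬ r₂ y x) →
        (¬ ∃ X : Fin 0 → Set (Fin m), ∀ v, ¬ Relation.TransGen
            (fun a b => (r₂ a b ∧ Even (Nat.card {i : Fin 0 // a ∈ X i ∧ b ∈ X i})) ∨
                        (r₂ b a ∧ Odd (Nat.card {i : Fin 0 // a ∈ X i ∧ b ∈ X i}))) v v) →
        ∀ k : ℕ,
          (∃ X : Fin k → Set (Fin m), ∀ v, ¬ Relation.TransGen
            (fun a b => (r₂ a b ∧ Even (Nat.card {i : Fin k // a ∈ X i ∧ b ∈ X i})) ∨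
                        (r₂ b a ∧ Odd (Nat.card {i : Fin k // a ∈ X i ∧ b ∈ X i}))) v v) →
          ∃ X : Fin (ℓ + k - 1) → Set (Fin n ⊕ Fin m), ∀ v, ¬ Relation.TransGen
            (fun a b =>
              (((∃ x y, a = Sum.inl x ∧ b = Sum.inl y ∧ r₁ x y) ∨
                (∃ x y, a = Sum.inr x ∧ b = Sum.inr y ∧ r₂ x y) ∨
                (∃ x y, a = Sum.inl x ∧ b = Sum.inr y)) ∧
                Even (Nat.card {i : Fin (ℓ + k - 1) // a ∈ X i ∧ b ∈ X i})) ∨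
              (((∃ x y, b = Sum.inl x ∧ a = Sum.inl y ∧ r₁ x y) ∨
                (∃ x y, b = Sum.inr x ∧ a = Sum.inr y ∧ r₂ x y) ∨
                (∃ x y, b = Sum.inl x ∧ a = Sum.inr y)) ∧
                Odd (Nat.card {i : Fin (ℓ + k - 1) // a ∈ X i ∧ b ∈ X i}))) v v) := by
  intro H
  obtain ⟨n, r₁, has, _, hno, hall⟩ := H 4 (by norm_num)
  apply hno
  have h2 : ∀ x y : Fin 3, y = x + 1 → ¬ x = y + 1 := by decide
  have hcyc : ¬ ∃ X : Fin 0 → Set (Fin 3), ∀ v, ¬ Relation.TransGen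
      (fun a b => (b = a + 1 ∧ Even (Nat.card {i : Fin 0 // a ∈ X i ∧ b ∈ X i})) ∨
        (a = b + 1 ∧ Odd (Nat.card {i : Fin 0 // a ∈ X i ∧ b ∈ X i}))) v v := by
    rintro ⟨X, hX⟩
    have hE : ∀ a b : Fin 3, Even (Nat.card {i : Fin 0 // a ∈ X i ∧ b ∈ X i}) := by
      intro a b
      rw [Nat.card_of_isEmpty]
      exact Even.zero
    apply hX 0
    refine Relation.TransGen.tail (b := 2) (Relation.TransGen.tail (b := 1)
      (Relation.TransGen.single (Or.inl ⟨rfl, hE _ _⟩)) (Or.inl ⟨rfl, hE _ _⟩))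
      (Or.inl ⟨rfl, hE _ _⟩)
  have hone : ∃ X : Fin 1 → Set (Fin 3), ∀ v, ¬ Relation.TransGen
      (fun a b => (b = a + 1 ∧ Even (Nat.card {i : Fin 1 // a ∈ X i ∧ b ∈ X i})) ∨
        (a = b + 1 ∧ Odd (Nat.card {i : Fin 1 // a ∈ X i ∧ b ∈ X i}))) v v := by
    refine ⟨fun _ => {a | a ≠ 1}, fun v hv => ?_⟩
    have hle : ∀ a b : Fin 3, ((b = a + 1 ∧ Even (Nat.card {i : Fin 1 //
        a ∈ ({a | a ≠ 1} : Set (Fin 3)) ∧ b ∈ ({a | a ≠ 1} : Set (Fin 3))})) ∨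
        (a = b + 1 ∧ Odd (Nat.card {i : Fin 1 //
        a ∈ ({a | a ≠ 1} : Set (Fin 3)) ∧ b ∈ ({a | a ≠ 1} : Set (Fin 3))}))) → a < b := by
      intro a b h
      have hc : Nat.card {i : Fin 1 // a ∈ ({a | a ≠ 1} : Set (Fin 3)) ∧
          b ∈ ({a | a ≠ 1} : Set (Fin 3))} = if a ≠ 1 ∧ b ≠ 1 then 1 else 0 := by
        by_cases h3 : a ≠ 1 ∧ b ≠ 1
        · rw [if_pos h3]
          have : ∀ i : Fin 1, a ∈ ({a | a ≠ 1} : Set (Fin 3)) ∧ b ∈ ({a | a ≠ 1} : Set (Fin 3)) :=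
            fun _ => h3
          rw [Nat.card_congr (Equiv.subtypeUnivEquiv this)]
          simp
        · rw [if_neg h3]
          have : IsEmpty {i : Fin 1 // a ∈ ({a | a ≠ 1} : Set (Fin 3)) ∧
            b ∈ ({a | a ≠ 1} : Set (Fin 3))} := ⟨fun i => h3 i.2⟩
          exact Nat.card_of_isEmpty
      rw [hc] at h
      clear hc
      revert h
      revert a b
      decide
    have hlt : ∀ a b : Fin 3, Relation.TransGen (fun a b : Fin 3 => a < b) a b → a < b := by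
      intro a b h
      induction h with
      | single h => exact h
      | tail _ h ih => exact lt_trans ih h
    exact lt_irrefl v (hlt v v (Relation.TransGen.mono hle _ _ hv))
  obtain ⟨X, hX⟩ := hall 3 (fun a b => b = a + 1) h2 hcyc 1 hone
  exact Pool.Agent.N404.Inv4.main r₁ X hX

end Pool.Agent.S09134
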