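import Pool.Statements.S09469
import Pool.Agent.N327.Cyc.Orient
import Pool.Agent.N327.Cyc.Count

set_option autoImplicit false
open Pool Pool.MP_72c5f4_co

namespace Pool.Agent.S09469

open Pool.Agent.N327.Cyc in
theorem aux (n M : ℕ) (hn : 72 ≤ n) (h6 : n % 6 = 1 ∨ n % 6 = 3) (hM : n * M ≤ 2 ^ (n / 6)) :
    ∃ B : Fin M → Finset (Finset (ZMod n)),
        (∀ i, (∀ b ∈ B i, b.card = 3) ∧
          (∀ x y : ZMod n, x ≠ y → ∃! b : Finset (ZMod n), b ∈ B i ∧ x ∈ b ∧ y ∈ b) ∧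
          (∀ b ∈ B i, b.image (fun x => x + 1) ∈ B i)) ∧
        (∀ i j, i ≠ j → ¬ ∃ σ : Equiv.Perm (ZMod n),
          ∀ b : Finset (ZMod n), b ∈ B i ↔ b.map σ.toEmbedding ∈ B j) := by
  classical
  have hne : NeZero n := ⟨by omega⟩
  obtain ⟨Y, hY⟩ := exists_heffter n hn h6
  let 𝓕 : Finset (Finset (Finset (ZMod n))) :=
    Finset.univ.image fun ε : Fin (n / 6) → Bool => blocks (fn Y ε)
  have hcard : 𝓕.card = 2 ^ (n / 6) := by
    rw [Finset.card_image_of_injective]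
    · simp
    · intro ε ε' h
      exact fn_injective hY h6 (blocks_injective (fn_valid hY h6 ε) (fn_valid hY h6 ε') h)
  have hT : ∀ B ∈ 𝓕, trans n ∈ auts B := by
    intro B hB
    obtain ⟨ε, -, rfl⟩ := Finset.mem_image.1 hB
    have h1 : ∀ b ∈ blocks (fn Y ε), b.map (trans n).toEmbedding ∈ blocks (fn Y ε) := by
      intro b hb
      have := (fn_valid hY h6 ε).sts.2.2 b hb
      rw [Finset.map_eq_image]
      exact this
    intro b
    refine ⟨h1 b, fun hb => ?_⟩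
    have h2 : ∀ j : ℕ, b.map ((trans n) ^ (j + 1)).toEmbedding ∈ blocks (fn Y ε) := by
      intro j
      induction j with
      | zero => rw [zero_add, pow_one]; exact hb
      | succ j ih => rw [pow_succ', ← map_map_perm]; exact h1 _ ih
    have h3 : (trans n) ^ n = 1 := by
      ext x
      rw [trans_pow]; simp
    have h4 := h2 (n - 1)
    rw [show n - 1 + 1 = n by omega, h3, map_one_perm] at h4
    exact h4
  obtain ⟨B, hB, hiso⟩ := exists_nonisomorphic 𝓕 hT M (by rw [hcard]; exact hM)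
  refine ⟨B, fun i => ?_, fun i j hij h => hiso i j hij h⟩
  obtain ⟨ε, -, hε⟩ := Finset.mem_image.1 (hB i)
  rw [← hε]
  exact (fn_valid hY h6 ε).sts

/-- For every M, all sufficiently large n with n ≡ 1 or 3 mod 6 admit at least M pairwise non-isomorphic cyclic Steiner triple systems on Z/nZ, i.e. the number of cyclic STS(n) up to isomorphism tends to infinity. -/
theorem result :
    ∀ M : ℕ, ∃ N : ℕ, ∀ n : ℕ, N ≤ n → (n % 6 = 1 ∨ n % 6 = 3) →
      ∃ B : Fin M → Finset (Finset (ZMod n)),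
        (∀ i, (∀ b ∈ B i, b.card = 3) ∧
          (∀ x y : ZMod n, x ≠ y → ∃! b : Finset (ZMod n), b ∈ B i ∧ x ∈ b ∧ y ∈ b) ∧
          (∀ b ∈ B i, b.image (fun x => x + 1) ∈ B i)) ∧
        (∀ i j, i ≠ j → ¬ ∃ σ : Equiv.Perm (ZMod n),
          ∀ b : Finset (ZMod n), b ∈ B i ↔ b.map σ.toEmbedding ∈ B j) := by
  intro M
  refine ⟨12 * (12 * M + 1) + 72, fun n hn h6 => aux n M (by omega) h6 ?_⟩
  have h1 : 12 * M ≤ n / 6 / 2 := by omega
  have h2 : n ≤ 12 * (n / 6 / 2 + 1) := by omega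
  have h3 : n / 6 / 2 + 1 ≤ 2 ^ (n / 6 / 2) := Nat.lt_two_pow_self
  calc n * M ≤ 12 * (n / 6 / 2 + 1) * M := Nat.mul_le_mul_right _ h2
    _ = (n / 6 / 2 + 1) * (12 * M) := by ring
    _ ≤ 2 ^ (n / 6 / 2) * 2 ^ (n / 6 / 2) := Nat.mul_le_mul h3 (by omega)
    _ = 2 ^ (n / 6 / 2 + n / 6 / 2) := by rw [pow_add]
    _ ≤ 2 ^ (n / 6) := Nat.pow_le_pow_right (by norm_num) (by omega)

end Pool.Agent.S09469
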