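import Pool.Statements.S09475
import Pool.Agent.N888.TF.Main

set_option autoImplicit false
open Pool Pool.MP_72f88e_co

namespace Pool.Agent.S09475

/-- There is m ≥ 1 such that every finite triangle-free planar graph, given any lists of 4m−1 colours per vertex, admits a choice of m colours from each list with adjacent vertices getting disjoint sets. -/
theorem result :
    ∃ m : ℕ, 0 < m ∧
      ∀ (V : Type) [Fintype V] (G : SimpleGraph V),
        G.CliqueFree 3 →
        (∃ (p : V → ℝ × ℝ) (γ : V → V → unitInterval → ℝ × ℝ),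
          Function.Injective p ∧
          (∀ u v, G.Adj u v →
            Continuous (γ u v) ∧ Function.Injective (γ u v) ∧
            γ u v 0 = p u ∧ γ u v 1 = p v ∧
            (∀ t, γ u v t ∈ Set.range p → t = 0 ∨ t = 1)) ∧
          (∀ u v x y, G.Adj u v → G.Adj x y →
            Sym2.mk (u, v) ≠ Sym2.mk (x, y) →
            ∀ s t, γ u v s = γ x y t → s = 0 ∨ s = 1)) →
        ∀ L : V → Finset ℕ, (∀ v, (L v).card = 4 * m - 1) →
          ∃ f : V → Finset ℕ,
            (∀ v, f v ⊆ L v ∧ (f v).card = m) ∧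
            ∀ u v, G.Adj u v → Disjoint (f u) (f v) := by
  obtain ⟨N, hN0, hN⟩ := Pool.Agent.N888.TF.main
  refine ⟨N, hN0, ?_⟩
  intro V _ G hfree hdraw L hL
  apply hN N le_rfl V G hfree (Pool.Agent.N888.TF.noKMinor_of_drawing G hdraw) L
  intro v
  rw [hL v]
  have h1 : ((4 * N - 1 : ℕ) : ℝ) = 4 * N - 1 := by
    rw [Nat.cast_sub (by omega)]
    push_cast
    ring
  rw [h1, div_self (by exact_mod_cast hN0.ne')]

end Pool.Agent.S09475
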