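-- Proof of frozen statement S09613.
import Pool.Statements.S09613
import Pool.Agent.N661.SQF4

set_option autoImplicit false
open Pool Pool.MP_78b1ee_co

namespace Pool.Agent.S09613

open Pool.Agent.N661.SQF

lemma w_len (m : ℕ) : ((List.range (2^(m+1) - 11)).map (f m)).length = 2^(m+1) - 11 := by simp

lemma w_get (m k : ℕ) (hk : k < 2^(m+1) - 11) :
    ((List.range (2^(m+1) - 11)).map (f m)).getD k 0 = f m k := by
  rw [List.getD_eq_getElem _ _ (by simpa using hk)]
  simp

lemma ins_get (m : ℕ) (p : ℕ) (hp : p ≤ 2^(m+1) - 11) (x : ℚ) (k : ℕ) (hk : k < 2^(m+1) - 11 + 1) :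
    (((List.range (2^(m+1) - 11)).map (f m)).take p ++
      x :: ((List.range (2^(m+1) - 11)).map (f m)).drop p).getD k 0 = ins p x (f m) k := by
  have hlen : (((List.range (2^(m+1) - 11)).map (f m)).take p).length = p := by
    simp; omega
  unfold ins
  split_ifs with h1 h2
  · rw [List.getD_append _ _ _ _ (by rw [hlen]; exact h1)]
    rw [List.getD_eq_getElem _ _ (by rw [hlen]; exact h1)]
    simp
  · rw [List.getD_append_right _ _ _ _ (by rw [hlen]; omega), hlen, h2]
    simp
  · rw [List.getD_append_right _ _ _ _ (by rw [hlen]; omega), hlen]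
    obtain ⟨j, hj⟩ : ∃ j, k - p = j + 1 := ⟨k - p - 1, by omega⟩
    rw [hj, List.getD_cons_succ]
    rw [List.getD_eq_getElem _ _ (by simp; omega)]
    simp
    congr 1; omega

/-- For every N there is a list of distinct rationals of length at least N with no two adjacent order-isomorphic blocks of length at least 2, such that inserting any new value at any position creates such a pair. -/
theorem result :
    ∀ N : ℕ, ∃ w : List ℚ, N ≤ w.length ∧ w.Nodup ∧
      (¬ ∃ i ℓ : ℕ, 2 ≤ ℓ ∧ i + 2 * ℓ ≤ w.length ∧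
          ∀ a < ℓ, ∀ b < ℓ,
            (w.getD (i + a) 0 < w.getD (i + b) 0 ↔
              w.getD (i + ℓ + a) 0 < w.getD (i + ℓ + b) 0)) ∧
      ∀ p : ℕ, p ≤ w.length → ∀ x : ℚ, x ∉ w →
        ∃ i ℓ : ℕ, 2 ≤ ℓ ∧ i + 2 * ℓ ≤ w.length + 1 ∧
          ∀ a < ℓ, ∀ b < ℓ,
            ((w.take p ++ x :: w.drop p).getD (i + a) 0 <
                (w.take p ++ x :: w.drop p).getD (i + b) 0 ↔
              (w.take p ++ x :: w.drop p).getD (i + ℓ + a) 0 <
                (w.take p ++ x :: w.drop p).getD (i + ℓ + b) 0) := by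
  intro N
  obtain ⟨m, hm, hN⟩ : ∃ m, 5 ≤ m ∧ N ≤ 2^(m+1) - 11 := by
    refine ⟨N + 5, by omega, ?_⟩
    have h1 : N < 2^N := Nat.lt_two_pow_self
    have h2 : 2^(N+5+1) = 64 * 2^N := by ring
    omega
  have hpw := pow_ge m hm
  refine ⟨(List.range (2^(m+1) - 11)).map (f m), ?_, ?_, ?_, ?_⟩
  · rw [w_len]; exact hN
  · rw [List.nodup_map_iff_inj_on List.nodup_range]
    intro a ha b hb hab
    rw [List.mem_range] at ha hb
    have := F_inj m hm (a+6) (b+6) (by omega) (by omega) (by omega) (by omega) hab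
    omega
  · rintro ⟨i, l, hl, hil, h⟩
    rw [w_len] at hil
    refine f_sqfree m hm i l hl hil ?_
    intro a ha b hb
    have := h a ha b hb
    rw [w_get m _ (by omega), w_get m _ (by omega), w_get m _ (by omega), w_get m _ (by omega)] at this
    exact this
  · intro p hp x hx
    rw [w_len] at hp
    have hx' : ∀ k < 2^(m+1) - 11, x ≠ f m k := by
      intro k hk he
      apply hx
      rw [he]
      exact List.mem_map.2 ⟨k, List.mem_range.2 hk, rfl⟩
    -- reduce to a square of `ins`
    suffices hs : ∃ i l, 2 ≤ l ∧ i + 2 * l ≤ 2^(m+1) - 11 + 1 ∧ Sq (ins p x (f m)) i l by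
      obtain ⟨i, l, hl, hil, h⟩ := hs
      refine ⟨i, l, hl, by rw [w_len]; exact hil, ?_⟩
      intro a ha b hb
      rw [ins_get m p hp x _ (by omega), ins_get m p hp x _ (by omega),
        ins_get m p hp x _ (by omega), ins_get m p hp x _ (by omega)]
      exact h a ha b hb
    by_cases h1 : p ≤ 2
    · obtain ⟨i, l, hl, hil, h⟩ := left_blocked m hm x (fun k hk => hx' k (by omega)) p h1
      exact ⟨i, l, hl, by omega, h⟩
    · by_cases h2 : p + 3 ≤ 2^(m+1) - 11
      · obtain ⟨i, hi, h⟩ := mid_blocked m hm x p (by omega) h2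
          ⟨hx' _ (by omega), hx' _ (by omega)⟩
        exact ⟨i, 2, le_rfl, by omega, h⟩
      · -- right end, by reversal and negation
        have hx2 : ∀ k < 15, -x ≠ f m k := by
          intro k hk he
          have := f_anti m hm k (by omega)
          rw [← he] at this
          exact hx' (2^(m+1) - 12 - k) (by omega) (by linarith)
        obtain ⟨i, l, hl, hil, h⟩ := left_blocked m hm (-x) hx2 (2^(m+1) - 11 - p) (by omega)
        refine ⟨2^(m+1) - 11 + 1 - i - 2 * l, l, hl, by omega, ?_⟩
        refine sq_rev _ _ (2^(m+1) - 11) ?_ i l (by omega) h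
        intro k hk
        unfold ins
        split_ifs with a1 a2 a3 a4 a5 a6 a7 a8 <;> try (exfalso; omega)
        · rw [f_anti m hm k (by omega)]
          congr 2; omega
        · simp
        · rw [f_anti m hm (k-1) (by omega)]
          congr 2; omega

end Pool.Agent.S09613
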