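import Pool.Statements.S09659
import Pool.Agent.N426.Dense.Main

set_option autoImplicit false
open Pool Pool.MP_7b15fe_co

namespace Pool.Agent.S09659

/-- For every ℓ≥3 there is c>0 such that for every k≥4 there are arbitrarily large k-critical graphs with no isolated vertices, no odd cycle shorter than ℓ, and at least c·n² edges on n vertices. -/
theorem result :
    ∀ ℓ : ℕ, 3 ≤ ℓ → ∃ c : ℝ, 0 < c ∧ ∀ k : ℕ, 4 ≤ k → ∀ N : ℕ, ∃ n : ℕ, N ≤ n ∧
      ∃ G : SimpleGraph (Fin n),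
        G.chromaticNumber = (k : ℕ∞) ∧
        (∀ e ∈ G.edgeSet, (G.deleteEdges {e}).Colorable (k - 1)) ∧
        (∀ v : Fin n, ∃ w : Fin n, G.Adj v w) ∧
        (∀ (v : Fin n) (p : G.Walk v v), p.IsCycle → Odd p.length → ℓ ≤ p.length) ∧
        c * (n : ℝ) ^ 2 ≤ (Nat.card G.edgeSet : ℝ) := by
  intro ℓ _
  refine ⟨1 / 49, by norm_num, ?_⟩
  intro k hk N
  obtain ⟨n, hn, G, h1, h2, h3, h4, h5⟩ := Pool.Agent.N426.Dense.dense ℓ (k - 1) (by omega) N
  refine ⟨n, hn, G, ?_, h2, h3, fun v p _ hp => (h4 v p hp).le, ?_⟩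
  · rw [h1]
    have : k - 1 + 1 = k := by omega
    rw [this]
  · have h6 : ((n ^ 2 : ℕ) : ℝ) ≤ ((49 * Nat.card G.edgeSet : ℕ) : ℝ) := by exact_mod_cast h5
    push_cast at h6
    linarith

end Pool.Agent.S09659
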