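import Pool.Statements.S09798
import Pool.Agent.N427.Flap

set_option autoImplicit false
open Pool Pool.MP_82152b_co

namespace Pool.Agent.S09798

/-- The negation of the preceding statement: For every k and every nonempty k-degenerate graph H with flap number f (1 if H has no (≤k)-separation, else the max number of pairwise independent ones), the max number of copies of H in an n-vertex k-degenerate graph is Θ(n^f). -/
theorem result :
    ¬ (∀ (k : ℕ) (V : Type) [Fintype V] [Nonempty V] (H : SimpleGraph V),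
    (∀ S : Finset V, S.Nonempty → ∃ v ∈ S, {w : V | w ∈ S ∧ H.Adj v w}.ncard ≤ k) →
    ∀ f : ℕ,
      (((¬ ∃ A B : H.Subgraph, A ⊔ B = ⊤ ∧ (∀ u v, A.Adj u v → ¬ B.Adj u v) ∧
            (∃ v, v ∈ A.verts ∧ v ∉ B.verts) ∧ (∃ v, v ∈ B.verts ∧ v ∉ A.verts) ∧
            (A.verts ∩ B.verts).ncard ≤ k) ∧ f = 1) ∨
       ((∃ A B : H.Subgraph, A ⊔ B = ⊤ ∧ (∀ u v, A.Adj u v → ¬ B.Adj u v) ∧
            (∃ v, v ∈ A.verts ∧ v ∉ B.verts) ∧ (∃ v, v ∈ B.verts ∧ v ∉ A.verts) ∧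
            (A.verts ∩ B.verts).ncard ≤ k) ∧
         IsGreatest {m : ℕ | ∃ A B : Fin m → H.Subgraph,
            (∀ i, A i ⊔ B i = ⊤ ∧ (∀ u v, (A i).Adj u v → ¬ (B i).Adj u v) ∧
              (∃ v, v ∈ (A i).verts ∧ v ∉ (B i).verts) ∧
              (∃ v, v ∈ (B i).verts ∧ v ∉ (A i).verts) ∧
              ((A i).verts ∩ (B i).verts).ncard ≤ k) ∧
            ∀ i j, i ≠ j →
              (∀ u v, (A i).Adj u v → ¬ (A j).Adj u v) ∧
              ∀ v, v ∈ (A i).verts → v ∉ (B i).verts → ¬ (v ∈ (A j).verts ∧ v ∉ (B j).verts)} f)) →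
      ∃ c₁ c₂ : ℝ, 0 < c₁ ∧ 0 < c₂ ∧ ∃ N : ℕ, ∀ n : ℕ, N ≤ n →
        (∃ G : SimpleGraph (Fin n),
            (∀ S : Finset (Fin n), S.Nonempty → ∃ v ∈ S, {w : Fin n | w ∈ S ∧ G.Adj v w}.ncard ≤ k) ∧
            c₁ * (n : ℝ) ^ f ≤
              (({φ : V ↪ Fin n | ∀ u v, H.Adj u v → G.Adj (φ u) (φ v)}.ncard : ℕ) : ℝ)) ∧
        ∀ G : SimpleGraph (Fin n),
            (∀ S : Finset (Fin n), S.Nonempty → ∃ v ∈ S, {w : Fin n | w ∈ S ∧ G.Adj v w}.ncard ≤ k) →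
            (({φ : V ↪ Fin n | ∀ u v, H.Adj u v → G.Adj (φ u) (φ v)}.ncard : ℕ) : ℝ) ≤ c₂ * (n : ℝ) ^ f) := by
  classical
  intro hall
  have hall2 := hall 2 (Fin 7) Pool.Agent.N427.Flap.HH Pool.Agent.N427.Flap.degenerate_HH
  -- the flap number
  let Q : ℕ → Prop := fun m => ∃ A B : Fin m → (Pool.Agent.N427.Flap.HH).Subgraph,
            (∀ i, A i ⊔ B i = ⊤ ∧ (∀ u v, (A i).Adj u v → ¬ (B i).Adj u v) ∧
              (∃ v, v ∈ (A i).verts ∧ v ∉ (B i).verts) ∧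
              (∃ v, v ∈ (B i).verts ∧ v ∉ (A i).verts) ∧
              ((A i).verts ∩ (B i).verts).ncard ≤ 2) ∧
            ∀ i j, i ≠ j →
              (∀ u v, (A i).Adj u v → ¬ (A j).Adj u v) ∧
              ∀ v, v ∈ (A i).verts → v ∉ (B i).verts → ¬ (v ∈ (A j).verts ∧ v ∉ (B j).verts)
  have hQ2 : Q 2 := Pool.Agent.N427.Flap.two_independent
  have hbdd : ∀ m, Q m → m ≤ 7 := by
    rintro m ⟨A, B, h1, h2⟩
    choose g hg using fun i => (h1 i).2.2.1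
    have hinj : Function.Injective g := by
      intro i j hij
      by_contra hne
      have h3 := (h2 i j hne).2 (g i) (hg i).1 (hg i).2
      rw [hij] at h3
      exact h3 (hg j)
    have := Fintype.card_le_of_injective g hinj
    simpa using this
  obtain ⟨f, hf1, hf2⟩ : ∃ f, Q f ∧ ∀ m, Q m → m ≤ f := by
    refine ⟨Nat.findGreatest Q 7, Nat.findGreatest_spec (hbdd 2 hQ2) hQ2, fun m hm => ?_⟩
    exact Nat.le_findGreatest (hbdd m hm) hm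
  have hf : 2 ≤ f := hf2 2 hQ2
  obtain ⟨A, B, hAB, _⟩ := hQ2
  obtain ⟨c₁, c₂, hc₁, hc₂, N, hN⟩ := hall2 f
    (Or.inr ⟨⟨A 0, B 0, hAB 0⟩, ⟨hf1, fun m hm => hf2 m hm⟩⟩)
  -- compare with the linear upper bound
  obtain ⟨K, hK⟩ : ∃ K : ℕ, K = (Fintype.card (Fin 7) * (2 + 1)) ^ Fintype.card (Fin 7) := ⟨_, rfl⟩
  obtain ⟨n, hn⟩ := exists_nat_gt ((K : ℝ) / c₁)
  have hKc : 0 ≤ (K : ℝ) / c₁ := by positivity
  obtain ⟨M, hM⟩ : ∃ M : ℕ, M = max (max n N) 1 := ⟨_, rfl⟩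
  have hMn : (n : ℝ) ≤ M := by
    exact_mod_cast (by omega : n ≤ M)
  have hM1 : (1 : ℝ) ≤ M := by
    exact_mod_cast (by omega : 1 ≤ M)
  obtain ⟨⟨G, hG1, hG2⟩, _⟩ := hN M (by omega)
  have h1 := Pool.Agent.N427.Degen.count (k := 2) Pool.Agent.N427.Flap.HH 0
    Pool.Agent.N427.Flap.degree_HH G hG1
  rw [← hK] at h1
  have h2 : (({φ : Fin 7 ↪ Fin M | ∀ u v, (Pool.Agent.N427.Flap.HH).Adj u v →
      G.Adj (φ u) (φ v)}.ncard : ℕ) : ℝ) ≤ (M : ℝ) * K := by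
    exact_mod_cast h1
  have h3 : c₁ * (M : ℝ) ^ 2 ≤ c₁ * (M : ℝ) ^ f := by
    have := pow_le_pow_right₀ hM1 hf
    nlinarith
  have h4 : (K : ℝ) < c₁ * M := by
    have h5 : (K : ℝ) / c₁ < M := hn.trans_le hMn
    rw [div_lt_iff₀ hc₁] at h5
    linarith
  nlinarith

end Pool.Agent.S09798
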