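import Pool.Statements.S09874

set_option autoImplicit false
open Pool Pool.MP_85fffe_co

namespace Pool.Agent.S09874

open Finset

/-- the integers `j + m q` (`j < m`) with `q = 0`, `q = 1` or `q = 2 i + 4`, `i < m`, `i ≠ j` -/
def XN (m : ℕ) : Finset ℕ :=
  (range m).biUnion fun j => ({j, j + m} : Finset ℕ) ∪
    ((range m).filter (fun i => i ≠ j)).image (fun i => j + m * (2 * i + 4))

lemma mem_XN (m y : ℕ) : y ∈ XN m ↔ ∃ j < m, y = j ∨ y = j + m ∨
    ∃ i < m, i ≠ j ∧ y = j + m * (2 * i + 4) := by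
  unfold XN
  simp only [mem_biUnion, mem_range, mem_union, mem_insert, mem_singleton, mem_image, mem_filter]
  constructor
  · rintro ⟨j, hj, (h | h) | ⟨i, ⟨hi, hij⟩, h⟩⟩
    · exact ⟨j, hj, Or.inl h⟩
    · exact ⟨j, hj, Or.inr (Or.inl h)⟩
    · exact ⟨j, hj, Or.inr (Or.inr ⟨i, hi, hij, h.symm⟩)⟩
  · rintro ⟨j, hj, h | h | ⟨i, hi, hij, h⟩⟩
    · exact ⟨j, hj, Or.inl (Or.inl h)⟩
    · exact ⟨j, hj, Or.inl (Or.inr h)⟩
    · exact ⟨j, hj, Or.inr ⟨i, ⟨hi, hij⟩, h.symm⟩⟩

lemma card_XN (m : ℕ) : (XN m).card ≤ m * (m + 2) := by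
  unfold XN
  calc _ ≤ (range m).card * (m + 2) := by
        apply card_biUnion_le_card_mul
        intro j _
        refine (card_union_le _ _).trans ?_
        have h1 : ({j, j + m} : Finset ℕ).card ≤ 2 := card_le_two
        have h2 : (((range m).filter (fun i => i ≠ j)).image (fun i => j + m * (2 * i + 4))).card ≤ m := by
          refine card_image_le.trans ((card_filter_le _ _).trans ?_)
          simp
        omega
    _ = m * (m + 2) := by simp

/-- uniqueness of the representation `j + m q` -/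
lemma uniq {m j j' q q' : ℕ} (hj : j < m) (hj' : j' < m) (h : j + m * q = j' + m * q') :
    j = j' ∧ q = q' := by
  have h1 : (j + m * q) % m = (j' + m * q') % m := by rw [h]
  rw [Nat.add_mul_mod_self_left, Nat.add_mul_mod_self_left, Nat.mod_eq_of_lt hj,
    Nat.mod_eq_of_lt hj'] at h1
  subst h1
  have h2 : m * q = m * q' := by omega
  exact ⟨rfl, Nat.eq_of_mul_eq_mul_left (by omega) h2⟩

/-- the elements `y` with `y`, `y + m` in `XN m` are the `j < m` -/
lemma low {m y : ℕ} (h0 : y ∈ XN m) (h1 : y + m ∈ XN m) : y < m := by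
  rw [mem_XN] at h0 h1
  obtain ⟨j, hj, h0⟩ := h0
  obtain ⟨j', hj', h1⟩ := h1
  rcases h0 with h0 | h0 | ⟨i, hi, hij, h0⟩
  · omega
  · exfalso
    have e : y + m = j + m * 2 := by rw [h0]; ring
    rcases h1 with h1 | h1 | ⟨i', hi', hij', h1⟩
    · have := (uniq hj hj' (q := 2) (q' := 0) (by omega)).2
      omega
    · have := (uniq hj hj' (q := 2) (q' := 1) (by omega)).2
      omega
    · have := (uniq hj hj' (q := 2) (q' := 2 * i' + 4) (by omega)).2
      omega
  · exfalso
    have e : y + m = j + m * (2 * i + 5) := by rw [h0]; ring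
    rcases h1 with h1 | h1 | ⟨i', hi', hij', h1⟩
    · have := (uniq hj hj' (q := 2 * i + 5) (q' := 0) (by omega)).2
      omega
    · have := (uniq hj hj' (q := 2 * i + 5) (q' := 1) (by omega)).2
      omega
    · have := (uniq hj hj' (q := 2 * i + 5) (q' := 2 * i' + 4) (by omega)).2
      omega

lemma not_mem {m j : ℕ} (hj : j < m) : j + m * (2 * j + 4) ∉ XN m := by
  rw [mem_XN]
  rintro ⟨j', hj', h | h | ⟨i, hi, hij, h⟩⟩
  · have := (uniq hj hj' (q := 2 * j + 4) (q' := 0) (by omega)).2
    omega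
  · have := (uniq hj hj' (q := 2 * j + 4) (q' := 1) (by omega)).2
    omega
  · have h2 := uniq hj hj' h
    omega

lemma mem_of_ne {m i j : ℕ} (hj : j < m) (hi : i < m) (hij : i ≠ j) :
    j + m * (2 * i + 4) ∈ XN m := by
  rw [mem_XN]
  exact ⟨j, hj, Or.inr (Or.inr ⟨i, hi, hij, rfl⟩)⟩

/-- the set of reals -/
noncomputable def X (m : ℕ) : Finset ℝ := (XN m).image (fun y : ℕ => (y : ℝ))

lemma mem_X {m : ℕ} {y : ℕ} : (y : ℝ) ∈ X m ↔ y ∈ XN m := by
  unfold X
  simp

/-- the pattern attached to a set `S` of indices -/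
noncomputable def pat (S : Finset ℕ) : Finset ℝ := (insert 0 S).image (fun y : ℕ => (y : ℝ))

lemma mem_pat {S : Finset ℕ} {y : ℝ} : y ∈ pat S ↔ ∃ j ∈ insert 0 S, (j : ℝ) = y := by
  unfold pat
  rw [mem_image]

lemma pat_inj {S S' : Finset ℕ} (hS : 0 ∉ S) (hS' : 0 ∉ S') (h : pat S = pat S') : S = S' := by
  unfold pat at h
  have h1 : insert 0 S = insert 0 S' := by
    apply Finset.image_injective _ h
    exact Nat.cast_injective
  rw [← erase_insert hS, ← erase_insert hS', h1]

/-- The negation of the preceding statement: There is a constant C such that for every finite set X of n reals, any family of maximally repeated patterns of X, no two of which are translates of each other, has at most C·n members. -/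
theorem result :
    ¬ (∃ C : ℕ, ∀ X : Finset ℝ, ∀ S : Finset (Finset ℝ),
      (∀ A ∈ S,
        A.Nonempty ∧ A ⊆ X ∧
        (∃ t : ℝ, t ≠ 0 ∧ A.image (· + t) ⊆ X) ∧
        (∀ B : Finset ℝ, A ⊂ B →
          ¬ (∀ t : ℝ, A.image (· + t) ⊆ X → B.image (· + t) ⊆ X))) →
      (∀ A ∈ S, ∀ B ∈ S, ∀ t : ℝ, B = A.image (· + t) → A = B) →
      S.card ≤ C * X.card) := by
  rintro ⟨C, hC⟩
  set n := C + 6 with hn
  set m := 4 * n with hm
  have hm0 : 0 < m := by omega
  have key := hC (X m) ((Ico 1 m).powerset.image pat) ?_ ?_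
  · -- counting
    have h1 : ((Ico 1 m).powerset.image pat).card = 2 ^ (m - 1) := by
      rw [card_image_of_injOn, card_powerset, Nat.card_Ico]
      intro S hS S' hS' h
      rw [mem_coe, mem_powerset] at hS hS'
      refine pat_inj ?_ ?_ h
      · intro h0
        have := hS h0
        simp at this
      · intro h0
        have := hS' h0
        simp at this
    have h2 : (X m).card ≤ m * (m + 2) := (card_image_le).trans (card_XN m)
    have h3 : 2 ^ (m - 1) ≤ C * (m * (m + 2)) := by
      rw [← h1]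
      exact key.trans (Nat.mul_le_mul_left _ h2)
    have h4 : m * (m + 2) ≤ 24 * (n * n) := by
      rw [hm]
      nlinarith
    have h5 : C * (m * (m + 2)) ≤ 24 * (n * n * n) := by
      calc C * (m * (m + 2)) ≤ n * (24 * (n * n)) := Nat.mul_le_mul (by omega) h4
        _ = 24 * (n * n * n) := by ring
    have h6 : n < 2 ^ n := Nat.lt_two_pow_self
    have h7 : n * n * n < 2 ^ n * 2 ^ n * 2 ^ n := by
      apply Nat.mul_lt_mul''
      · exact Nat.mul_lt_mul'' h6 h6
      · exact h6
    have h8 : 24 * (n * n * n) < 32 * (2 ^ n * 2 ^ n * 2 ^ n) := by omega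
    have h9 : 32 * (2 ^ n * 2 ^ n * 2 ^ n) ≤ 2 ^ (m - 1) := by
      have : 32 * (2 ^ n * 2 ^ n * 2 ^ n) = 2 ^ (3 * n + 5) := by
        rw [show 3 * n + 5 = n + n + n + 5 by ring, pow_add, pow_add, pow_add]
        ring
      rw [this]
      apply Nat.pow_le_pow_right (by norm_num)
      omega
    omega
  · -- the patterns are maximally repeated
    intro A hA
    rw [mem_image] at hA
    obtain ⟨S, hS, rfl⟩ := hA
    rw [mem_powerset] at hS
    have hlt : ∀ j ∈ insert 0 S, j < m := by
      intro j hj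
      rw [mem_insert] at hj
      rcases hj with rfl | hj
      · exact hm0
      · have := hS hj
        rw [mem_Ico] at this
        exact this.2
    have hsub0 : pat S ⊆ X m := by
      intro y hy
      rw [mem_pat] at hy
      obtain ⟨j, hj, rfl⟩ := hy
      rw [mem_X, mem_XN]
      exact ⟨j, hlt j hj, Or.inl rfl⟩
    have hsub1 : (pat S).image (· + (m : ℝ)) ⊆ X m := by
      intro y hy
      rw [mem_image] at hy
      obtain ⟨z, hz, rfl⟩ := hy
      rw [mem_pat] at hz
      obtain ⟨j, hj, rfl⟩ := hz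
      rw [← Nat.cast_add, mem_X, mem_XN]
      exact ⟨j, hlt j hj, Or.inr (Or.inl rfl)⟩
    refine ⟨⟨((0 : ℕ) : ℝ), mem_pat.2 ⟨0, mem_insert_self _ _, rfl⟩⟩, hsub0, ?_, ?_⟩
    · refine ⟨(m : ℝ), ?_, hsub1⟩
      have : (0 : ℝ) < m := by exact_mod_cast hm0
      exact ne_of_gt this
    · intro B hAB hall
      obtain ⟨y, hyB, hyA⟩ := Finset.exists_of_ssubset hAB
      have h0 : y ∈ X m := by
        have := hall 0 (by
          intro z hz
          rw [mem_image] at hz
          obtain ⟨w, hw, rfl⟩ := hz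
          rw [add_zero]
          exact hsub0 hw)
        have h2 := this (mem_image_of_mem (· + (0 : ℝ)) hyB)
        simpa using h2
      have hy' : ∃ k : ℕ, k ∈ XN m ∧ (k : ℝ) = y := by
        unfold X at h0
        rw [mem_image] at h0
        exact h0
      obtain ⟨k, hk, rfl⟩ := hy'
      have h1 : k + m ∈ XN m := by
        have h2 := hall (m : ℝ) hsub1 (mem_image_of_mem (· + (m : ℝ)) hyB)
        rwa [← Nat.cast_add, mem_X] at h2
      have hkm : k < m := low hk h1
      have hkS : k ∉ insert 0 S := fun h => hyA (mem_pat.2 ⟨k, h, rfl⟩)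
      have h3 : (pat S).image (· + ((m * (2 * k + 4) : ℕ) : ℝ)) ⊆ X m := by
        intro z hz
        rw [mem_image] at hz
        obtain ⟨w, hw, rfl⟩ := hz
        rw [mem_pat] at hw
        obtain ⟨j, hj, rfl⟩ := hw
        rw [← Nat.cast_add, mem_X]
        apply mem_of_ne (hlt j hj) hkm
        rintro rfl
        exact hkS hj
      have h4 := hall _ h3 (mem_image_of_mem (· + ((m * (2 * k + 4) : ℕ) : ℝ)) hyB)
      rw [← Nat.cast_add, mem_X] at h4
      exact not_mem hkm h4
  · -- no two are translates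
    intro A hA B hB t hBA
    rw [mem_image] at hA hB
    obtain ⟨S, hS, rfl⟩ := hA
    obtain ⟨S', hS', rfl⟩ := hB
    have hz : ∀ S : Finset ℕ, ((0 : ℕ) : ℝ) ∈ pat S := fun S => mem_pat.2 ⟨0, mem_insert_self _ _, rfl⟩
    have hpos : ∀ S : Finset ℕ, ∀ y ∈ pat S, 0 ≤ y := by
      intro S y hy
      rw [mem_pat] at hy
      obtain ⟨j, _, rfl⟩ := hy
      positivity
    have h1 : 0 ≤ t := by
      have : ((0 : ℕ) : ℝ) + t ∈ pat S' := by
        rw [hBA]
        exact mem_image_of_mem (· + t) (hz S)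
      have := hpos _ _ this
      simpa using this
    have h2 : t ≤ 0 := by
      have := hz S'
      rw [hBA, mem_image] at this
      obtain ⟨w, hw, hwt⟩ := this
      have h3 := hpos _ _ hw
      simp only [Nat.cast_zero] at hwt
      linarith
    have h3 : t = 0 := le_antisymm h2 h1
    rw [hBA, h3]
    simp

end Pool.Agent.S09874
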