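import Pool.Statements.S09946
import Pool.Agent.N427.FamilyCE

set_option autoImplicit false
open Pool Pool.MP_8888ff_co

namespace Pool.Agent.S09946

/-- The negation of the preceding statement: For every graph family whose members all contain a cycle and one is bipartite, some c>0 ensures every graph with min degree δ≥1 and max degree Δ has a spanning F-free subgraph of min degree at least c·ex(K_Δ,F)·δ/Δ². -/
theorem result :
    ¬ (∀ F : Set (Σ k : ℕ, SimpleGraph (Fin k)),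
      (∀ p ∈ F, ¬ p.2.IsAcyclic) →
      (∃ p ∈ F, p.2.Colorable 2) →
      ∃ c : ℝ, 0 < c ∧
        ∀ δ Δ : ℕ, 1 ≤ δ → δ ≤ Δ →
          ∀ n : ℕ, ∀ G : SimpleGraph (Fin n),
            (∀ v, δ ≤ (G.neighborSet v).ncard) →
            (∃ v, (G.neighborSet v).ncard = δ) →
            (∀ v, (G.neighborSet v).ncard ≤ Δ) →
            (∃ v, (G.neighborSet v).ncard = Δ) →
            ∀ T : SimpleGraph (Fin Δ),
              (∀ p ∈ F, ¬ p.2.IsContained T) →
              ∃ H : SimpleGraph (Fin n), H ≤ G ∧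
                (∀ p ∈ F, ¬ p.2.IsContained H) ∧
                ∀ v, c * (T.edgeSet.ncard : ℝ) * (δ : ℝ) / (Δ : ℝ) ^ 2
                  ≤ ((H.neighborSet v).ncard : ℝ)) := by
  intro hall
  obtain ⟨F, hF1, hF2, hF3⟩ := Pool.Agent.N427.FamilyCE.main
  obtain ⟨c, hc, h⟩ := hall F hF1 hF2
  obtain ⟨Δ, hΔ, n, G, hn, hG, T, hT, hH⟩ := hF3 c hc
  obtain ⟨H, h1, h2, h3⟩ := h Δ Δ hΔ le_rfl n G (fun v => (hG v).ge) ⟨⟨0, hn⟩, hG _⟩
    (fun v => (hG v).le) ⟨⟨0, hn⟩, hG _⟩ T hT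
  obtain ⟨v, hv⟩ := hH H h1 h2
  exact absurd (h3 v) (not_le.2 hv)

end Pool.Agent.S09946
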