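import Pool.Statements.S10311
import Pool.Agent.H176R2.R5.FN
-- import your own Pool.Agent.* helpers here

set_option autoImplicit false
open Pool Pool.MP_98a5df_co

namespace Pool.Agent.S10311

/-- Every finite 5-regular graph in which each set of k≥3 vertices spans at most 3k−6 edges has a placement in R^3 whose rigidity matrix has linearly independent rows. -/
theorem result :
    ∀ (n : ℕ) (G : SimpleGraph (Fin n)) [DecidableRel G.Adj],
      G.IsRegularOfDegree 5 →
      (∀ S : Finset (Fin n), 3 ≤ S.card →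
        (Finset.univ.filter (fun e : Fin n × Fin n =>
          e.1 ∈ S ∧ e.2 ∈ S ∧ e.1 < e.2 ∧ G.Adj e.1 e.2)).card ≤ 3 * S.card - 6) →
      ∃ p : Fin n → Fin 3 → ℝ,
        LinearIndependent ℝ
          (fun e : {e : Fin n × Fin n // e.1 < e.2 ∧ G.Adj e.1 e.2} =>
            (fun (w : Fin n) (i : Fin 3) =>
              if w = e.val.1 then p e.val.1 i - p e.val.2 i
              else if w = e.val.2 then p e.val.2 i - p e.val.1 i
              else 0)) := by
  intro n G _ hreg hS
  classical
  obtain ⟨p, hp⟩ := H176R2.R5.exists_generic (Fin n)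
  refine ⟨p, ?_⟩
  have hdeg : ∀ v, (G.neighborSet v).ncard ≤ 5 := by
    intro v
    rw [Set.ncard_eq_toFinset_card', Set.toFinset_card, G.card_neighborSet_eq_degree, hreg v]
  have hsp : H176R2.R5.Sparse36 G := by
    intro H hH
    have h1 : H.verts.ncard = H.verts.toFinset.card := Set.ncard_eq_toFinset_card' _
    rw [h1] at hH ⊢
    have h2 := hS H.verts.toFinset hH
    have h3 : H.edgeSet.ncard ≤ (Finset.univ.filter (fun e : Fin n × Fin n =>
          e.1 ∈ H.verts.toFinset ∧ e.2 ∈ H.verts.toFinset ∧ e.1 < e.2 ∧ G.Adj e.1 e.2)).card := by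
      rw [← Set.ncard_coe_finset]
      have hsub : H.edgeSet ⊆ (fun e : Fin n × Fin n => s(e.1, e.2)) ''
          (↑(Finset.univ.filter (fun e : Fin n × Fin n =>
            e.1 ∈ H.verts.toFinset ∧ e.2 ∈ H.verts.toFinset ∧ e.1 < e.2 ∧ G.Adj e.1 e.2)) :
              Set (Fin n × Fin n)) := by
        intro e
        induction e using Sym2.ind with
        | _ a b =>
          intro he
          rw [SimpleGraph.Subgraph.mem_edgeSet] at he
          have hne : a ≠ b := he.ne
          rcases lt_or_gt_of_ne hne with hlt | hgt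
          · refine ⟨(a, b), ?_, rfl⟩
            simp only [Finset.coe_filter, Finset.mem_univ, true_and, Set.mem_ofPred_eq,
              Set.mem_toFinset]
            exact ⟨he.fst_mem, he.snd_mem, hlt, he.adj_sub⟩
          · refine ⟨(b, a), ?_, Sym2.eq_swap⟩
            simp only [Finset.coe_filter, Finset.mem_univ, true_and, Set.mem_ofPred_eq,
              Set.mem_toFinset]
            exact ⟨he.snd_mem, he.fst_mem, hgt, he.adj_sub.symm⟩
      exact (Set.ncard_le_ncard hsub (Set.toFinite _)).trans (Set.ncard_image_le (Set.toFinite _))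
    omega
  have hrow : H176R2.R5.RowInd G p := H176R2.R5.rowInd_of_sparse hdeg hsp hp
  unfold H176R2.R5.RowInd at hrow
  -- reindex by the ordered pairs
  have hinj : Function.Injective
      (fun e : {e : Fin n × Fin n // e.1 < e.2 ∧ G.Adj e.1 e.2} =>
        (⟨s(e.val.1, e.val.2), e.property.2⟩ : G.edgeSet)) := by
    rintro ⟨⟨a, b⟩, hab, hab'⟩ ⟨⟨c, d⟩, hcd, hcd'⟩ h
    have h2 := Sym2.eq_iff.1 (congrArg Subtype.val h)
    simp only at h2 hab hcd
    rcases h2 with ⟨h3, h4⟩ | ⟨h3, h4⟩
    · subst h3 h4
      rfl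
    · subst h3 h4
      exact absurd hab (lt_asymm hcd)
  have h5 := hrow.comp _ hinj
  -- uncurry the coordinates
  have h6 := h5.map' (LinearEquiv.curry ℝ ℝ (Fin n) (Fin 3)).toLinearMap
    (LinearEquiv.ker _)
  have h7 : (fun e : {e : Fin n × Fin n // e.1 < e.2 ∧ G.Adj e.1 e.2} =>
            (fun (w : Fin n) (i : Fin 3) =>
              if w = e.val.1 then p e.val.1 i - p e.val.2 i
              else if w = e.val.2 then p e.val.2 i - p e.val.1 i
              else 0)) =
      ⇑(LinearEquiv.curry ℝ ℝ (Fin n) (Fin 3)).toLinearMap ∘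
        ((H176R2.R5.rigidityMatrix G p).row ∘
          (fun e : {e : Fin n × Fin n // e.1 < e.2 ∧ G.Adj e.1 e.2} =>
            (⟨s(e.val.1, e.val.2), e.property.2⟩ : G.edgeSet))) := by
    funext e w i
    simp only [Function.comp, LinearEquiv.coe_coe, LinearEquiv.coe_curry, Function.curry,
      Matrix.row, H176R2.R5.rigidityMatrix, Sym2.lift_mk, H176R2.R5.row]
  rw [h7]
  exact h6

end Pool.Agent.S10311
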