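import Pool.Statements.S10336
import Pool.Agent.N233.Occ

/-!
Counterexample to the conjecture on the minimum occupancy fraction of 4-regular triangle-free
graphs: a 4-regular triangle-free graph on 20 vertices with independence polynomial
1 + 20x + 150x^2 + 540x^3 + 988x^4 + 888x^5 + 328x^6 + 16x^7; at fugacity 2 its occupancy
fraction is 359800 / (20 * 72225) = 0.24908..., below the fraction 4810 / (13 * 1483) = 0.24949...
of the Cyclotomic-13 graph (and 2 is larger than the crossing value 1.772...).
-/

set_option autoImplicit false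
open Classical
open Pool Pool.MP_99d978_co

namespace Pool.Agent.S10336

/-- the 20 neighbourhoods of the counterexample, as bit masks -/
def AG (i : ℕ) : ℕ := [141328, 132480, 107520, 459264, 102401, 25152, 589984, 34882, 794626, 3112,
  4614, 17025, 541712, 293, 268320, 262292, 92, 524299, 49416, 135488].getD i 0

/-- the neighbourhoods of the Robertson graph -/
def AH (i : ℕ) : ℕ := [16552, 32796, 9250, 66051, 4482, 325, 137248, 132113, 327728, 267272, 2692,
  99392, 16976, 212996, 45057, 280578, 10504, 270528, 164608].getD i 0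

/-- the neighbourhoods of the Cyclotomic-13 graph -/
def AC (i : ℕ) : ℕ := [4386, 581, 1162, 2324, 4648, 1105, 2210, 4420, 649, 1298, 2596, 5192, 2193].getD i 0

def GG : SimpleGraph (Fin 20) := N233.Occ.mk 20 AG (by decide +kernel) (by decide +kernel)

def HH : SimpleGraph (Fin 19) := N233.Occ.mk 19 AH (by decide +kernel) (by decide +kernel)

theorem GG_adj (i j : Fin 20) : GG.Adj i j ↔ (AG i).testBit j = true := Iff.rfl

theorem HH_adj (i j : Fin 19) : HH.Adj i j ↔ (AH i).testBit j = true := Iff.rfl

theorem GG_reg (inst : GG.LocallyFinite) : GG.IsRegularOfDegree 4 := by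
  intro v
  have h : GG.neighborFinset v = (Finset.univ : Finset (Fin 20)).filter
      (fun w : Fin 20 => (AG v).testBit w = true) := by
    ext w
    simp [GG_adj]
  rw [← SimpleGraph.card_neighborFinset_eq_degree, h]
  clear h
  revert v
  decide +kernel

theorem HH_reg (inst : HH.LocallyFinite) : HH.IsRegularOfDegree 4 := by
  intro v
  have h : HH.neighborFinset v = (Finset.univ : Finset (Fin 19)).filter
      (fun w : Fin 19 => (AH v).testBit w = true) := by
    ext w
    simp [HH_adj]
  rw [← SimpleGraph.card_neighborFinset_eq_degree, h]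
  clear h
  revert v
  decide +kernel

theorem AG_tri : ∀ i j : Fin 20, (AG i).testBit j = true → AG i &&& AG j = 0 := by
  decide +kernel

theorem AH_tri : ∀ i j : Fin 19, (AH i).testBit j = true → AH i &&& AH j = 0 := by
  decide +kernel

theorem AH_quad : ∀ a c : Fin 19, a ≠ c → ∀ b : Fin 19, (AH a &&& AH c).testBit b = true →
    ∀ d : Fin 19, (AH a &&& AH c).testBit d = true → b = d := by
  decide +kernel

theorem GG_free : GG.CliqueFree 3 := by
  intro t ht
  rw [SimpleGraph.is3Clique_iff] at ht
  obtain ⟨a, b, c, hab, hac, hbc, -⟩ := ht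
  rw [GG_adj] at hab hac hbc
  have h := AG_tri a b hab
  have h2 : (AG a &&& AG b).testBit c = true := by
    rw [Nat.testBit_and, hac, hbc]
    rfl
  rw [h] at h2
  simp at h2

theorem HH_girth : (5 : ℕ∞) ≤ HH.egirth := by
  rw [SimpleGraph.le_egirth]
  intro a w hw
  by_contra hlt
  have hlt' : w.length < 5 := by
    by_contra h
    exact hlt (by exact_mod_cast Nat.le_of_not_lt h)
  have h3 := hw.three_le_length
  have hnd := hw.support_nodup
  cases w with
  | nil => simp at h3
  | cons h1 p =>
    cases p with
    | nil => simp at h3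
    | cons h2 p =>
      cases p with
      | nil => simp at h3
      | cons h4 p =>
        cases p with
        | nil =>
          rename_i b c
          have h6 : (AH a).testBit c = true := (show HH.Adj c a from h4).symm
          have h2' : (AH b).testBit c = true := h2
          have h := AH_tri a b h1
          have h7 : (AH a &&& AH b).testBit c = true := by
            rw [Nat.testBit_and, h6, h2']
            rfl
          rw [h] at h7
          simp at h7
        | cons h5 p =>
          cases p with
          | nil =>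
            rename_i b c d
            simp only [SimpleGraph.Walk.support_cons, SimpleGraph.Walk.support_nil, List.tail_cons,
              List.nodup_cons, List.mem_cons, List.not_mem_nil, or_false, not_or] at hnd
            have hbd : b ≠ d := hnd.1.2.1
            have hca : a ≠ c := fun h => hnd.2.1.2 h.symm
            have hab : (AH a).testBit b = true := h1
            have hcb : (AH c).testBit b = true := (show HH.Adj b c from h2).symm
            have hcd : (AH c).testBit d = true := h4
            have had : (AH a).testBit d = true := (show HH.Adj d a from h5).symm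
            apply hbd
            apply AH_quad a c hca b _ d
            · rw [Nat.testBit_and, had, hcd]
              rfl
            · rw [Nat.testBit_and, hab, hcb]
              rfl
          | cons h6 p =>
            simp only [SimpleGraph.Walk.length_cons] at hlt'
            omega

theorem SG_z : N233.Occ.S AG 1048575 (fun k => 2 ^ k) 20 1048575 0 = 72225 := by
  decide +kernel

theorem SG_d : N233.Occ.S AG 1048575 (fun k => k * 2 ^ k) 20 1048575 0 = 359800 := by
  decide +kernel

theorem SC_z : N233.Occ.S AC 8191 (fun k => 2 ^ k) 13 8191 0 = 1483 := by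
  decide +kernel

theorem SC_d : N233.Occ.S AC 8191 (fun k => k * 2 ^ k) 13 8191 0 = 4810 := by
  decide +kernel

theorem AG_mask : ∀ i j : Fin 20, j < i →
    ((AG i).testBit j = true ↔ (1048575 - AG i).testBit j = false) := by
  decide +kernel

theorem AC_mask : ∀ i j : Fin 13, j < i →
    ((i ≠ j ∧ ((i - j = 1 ∨ i - j = 5) ∨ (j - i = 1 ∨ j - i = 5))) ↔
      (8191 - AC i).testBit j = false) := by
  decide +kernel

theorem exists_root : ∃ L : ℝ,
    (90*L^6 + 729*L^5 - 188*L^4 - 1632*L^3 - 1247*L^2 - 363*L - 38 = 0) ∧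
      (∀ x : ℝ, 90*x^6 + 729*x^5 - 188*x^4 - 1632*x^3 - 1247*x^2 - 363*x - 38 = 0 → x ≤ L) ∧
      L ≤ 2 := by
  set f : ℝ → ℝ := fun x => 90*x^6 + 729*x^5 - 188*x^4 - 1632*x^3 - 1247*x^2 - 363*x - 38 with hf
  have hc : Continuous f := by
    rw [hf]
    fun_prop
  have hpos : ∀ x : ℝ, 2 < x → f x ≠ 0 := by
    intro x hx
    obtain ⟨t, ht, rfl⟩ : ∃ t : ℝ, 0 < t ∧ x = 2 + t := ⟨x - 2, by linarith, by ring⟩
    have h : f (2 + t) = 7272 + 44649 * t ^ 1 + 64369 * t ^ 2 + 40424 * t ^ 3 + 12502 * t ^ 4 + 1809 * t ^ 5 + 90 * t ^ 6 := by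
      simp only [hf]
      ring
    rw [h]
    positivity
  have hcl : IsClosed {x : ℝ | f x = 0} := isClosed_eq hc continuous_const
  have hne : {x : ℝ | f x = 0}.Nonempty := by
    have h1 : f 1 ≤ 0 := by
      simp only [hf]
      norm_num
    have h2 : 0 ≤ f 2 := by
      simp only [hf]
      norm_num
    obtain ⟨x, _, hx⟩ := intermediate_value_Icc (by norm_num : (1 : ℝ) ≤ 2) hc.continuousOn
      (show (0 : ℝ) ∈ Set.Icc (f 1) (f 2) from ⟨h1, h2⟩)
    exact ⟨x, hx⟩
  have hub : ∀ x ∈ {x : ℝ | f x = 0}, x ≤ 2 := by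
    intro x hx
    by_contra h
    exact hpos x (lt_of_not_ge h) hx
  have hmem := hcl.csSup_mem hne ⟨2, hub⟩
  exact ⟨sSup {x : ℝ | f x = 0}, hmem, fun x hx => le_csSup ⟨2, hub⟩ hx,
    csSup_le hne hub⟩

theorem e1 (instF : Fintype (Finset (ZMod 13)))
    (inst : ∀ I : Finset (ZMod 13), Decidable ((SimpleGraph.fromRel
      (fun x y : ZMod 13 => x - y = 1 ∨ x - y = 5)).IsIndepSet (I : Set (ZMod 13)))) :
    (∑ I : Finset (ZMod 13), @ite ℝ ((SimpleGraph.fromRel
      (fun x y : ZMod 13 => x - y = 1 ∨ x - y = 5)).IsIndepSet (I : Set (ZMod 13))) (inst I)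
        ((I.card : ℝ) * 2 ^ I.card) 0) = (4810 : ℕ) :=
  N233.Occ.sum_all' (N := 13) (V := ZMod 13) rfl
      (SimpleGraph.fromRel (fun x y : ZMod 13 => x - y = 1 ∨ x - y = 5))
      AC 8191 (fun i j hij => (SimpleGraph.fromRel_adj _ _ _).trans (AC_mask i j hij))
      (by decide +kernel) (fun k => k * 2 ^ k)
      (fun k => (k : ℝ) * 2 ^ k) (fun k => by push_cast; ring) 4810 SC_d instF inst

theorem e2 (instF : Fintype (Finset (ZMod 13)))
    (inst : ∀ I : Finset (ZMod 13), Decidable ((SimpleGraph.fromRel
      (fun x y : ZMod 13 => x - y = 1 ∨ x - y = 5)).IsIndepSet (I : Set (ZMod 13)))) :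
    (∑ I : Finset (ZMod 13), @ite ℝ ((SimpleGraph.fromRel
      (fun x y : ZMod 13 => x - y = 1 ∨ x - y = 5)).IsIndepSet (I : Set (ZMod 13))) (inst I)
        ((2 : ℝ) ^ I.card) 0) = (1483 : ℕ) :=
  N233.Occ.sum_all' (N := 13) (V := ZMod 13) rfl
      (SimpleGraph.fromRel (fun x y : ZMod 13 => x - y = 1 ∨ x - y = 5))
      AC 8191 (fun i j hij => (SimpleGraph.fromRel_adj _ _ _).trans (AC_mask i j hij))
      (by decide +kernel) (fun k => 2 ^ k)
      (fun k => (2 : ℝ) ^ k) (fun k => by push_cast; ring) 1483 SC_z instF inst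

theorem e3 (instF : Fintype (Finset (Fin 20)))
    (inst : ∀ I : Finset (Fin 20), Decidable (GG.IsIndepSet (I : Set (Fin 20)))) :
      (∑ I : Finset (Fin 20), @ite ℝ (GG.IsIndepSet (I : Set (Fin 20))) (inst I)
        ((I.card : ℝ) * 2 ^ I.card) 0) = (359800 : ℕ) :=
    N233.Occ.sum_all GG AG 1048575 (fun i j hij => AG_mask i j hij) (by decide +kernel)
      (fun k => k * 2 ^ k) (fun k => (k : ℝ) * 2 ^ k)
      (fun k => by push_cast; ring) 359800 SG_d instF inst

theorem e4 (instF : Fintype (Finset (Fin 20)))
    (inst : ∀ I : Finset (Fin 20), Decidable (GG.IsIndepSet (I : Set (Fin 20)))) :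
      (∑ I : Finset (Fin 20), @ite ℝ (GG.IsIndepSet (I : Set (Fin 20))) (inst I)
        ((2 : ℝ) ^ I.card) 0) = (72225 : ℕ) :=
    N233.Occ.sum_all GG AG 1048575 (fun i j hij => AG_mask i j hij) (by decide +kernel)
      (fun k => 2 ^ k) (fun k => (2 : ℝ) ^ k)
      (fun k => by push_cast; ring) 72225 SG_z instF inst


/-- The negation of the preceding statement: Let L be the largest real root of the sextic. For every finite 4-regular triangle-free G and λ>0: if λ≤L, G's occupancy fraction is at least the Robertson graph's (4-regular, girth 5, 19 vertices); if λ≥L, at least that of the circulant on Z13 with jumps ±1,±5. -/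
theorem result :
    ¬ (∀ L : ℝ,
      90*L^6 + 729*L^5 - 188*L^4 - 1632*L^3 - 1247*L^2 - 363*L - 38 = 0 →
      (∀ x : ℝ, 90*x^6 + 729*x^5 - 188*x^4 - 1632*x^3 - 1247*x^2 - 363*x - 38 = 0 → x ≤ L) →
      ∀ (V : Type) [Fintype V] [Nonempty V] (G : SimpleGraph V),
        G.IsRegularOfDegree 4 → G.CliqueFree 3 →
        ∀ H : SimpleGraph (Fin 19), H.IsRegularOfDegree 4 → (5 : ℕ∞) ≤ H.egirth →
        ∀ l : ℝ, 0 < l →
          (l ≤ L →
            (∑ I : Finset (Fin 19), if H.IsIndepSet (I : Set (Fin 19)) then (I.card : ℝ) * l ^ I.card else 0) /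
              ((Fintype.card (Fin 19) : ℝ) *
                ∑ I : Finset (Fin 19), if H.IsIndepSet (I : Set (Fin 19)) then l ^ I.card else 0)
            ≤
            (∑ I : Finset V, if G.IsIndepSet (I : Set V) then (I.card : ℝ) * l ^ I.card else 0) /
              ((Fintype.card V : ℝ) *
                ∑ I : Finset V, if G.IsIndepSet (I : Set V) then l ^ I.card else 0)) ∧
          (L ≤ l →
            (∑ I : Finset (ZMod 13),
                if (SimpleGraph.fromRel (fun x y : ZMod 13 => x - y = 1 ∨ x - y = 5)).IsIndepSet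
                    (I : Set (ZMod 13))
                then (I.card : ℝ) * l ^ I.card else 0) /
              ((Fintype.card (ZMod 13) : ℝ) *
                ∑ I : Finset (ZMod 13),
                  if (SimpleGraph.fromRel (fun x y : ZMod 13 => x - y = 1 ∨ x - y = 5)).IsIndepSet
                      (I : Set (ZMod 13))
                  then l ^ I.card else 0)
            ≤
            (∑ I : Finset V, if G.IsIndepSet (I : Set V) then (I.card : ℝ) * l ^ I.card else 0) /
              ((Fintype.card V : ℝ) *
                ∑ I : Finset V, if G.IsIndepSet (I : Set V) then l ^ I.card else 0))) := by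
  intro h
  obtain ⟨L, hL0, hL1, hL2⟩ := exists_root
  have h1 := (h L hL0 hL1 (Fin 20) GG (GG_reg _) GG_free HH (HH_reg _) HH_girth 2
    (by norm_num)).2 hL2
  rw [e1, e2] at h1
  erw [e3, e4] at h1
  rw [ZMod.card, Fintype.card_fin] at h1
  norm_num at h1

end Pool.Agent.S10336
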