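import Pool.Statements.S10718
import Pool.Agent.N711.PolyFrozen

set_option autoImplicit false
open Pool Pool.MP_ab53bf_co
open Pool.Agent.Helper337.PolygonPattern Pool.Agent.N711.PolyFrozen

namespace Pool.Agent.S10718

/-- The negation of the preceding statement: If two ordinary proper n-gons have the same pattern and some dihedral relabelling of the second makes corresponding edges same-direction parallel, then some such relabelling admits a continuous deformation of the first into it keeping the pattern and all edge directions. -/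
theorem result :
    ¬ (∀ (n : ℕ), 3 ≤ n →
  ∀ (Edge : (Fin n → ℝ × ℝ) → Fin n → Set (ℝ × ℝ)),
    (∀ x i, Edge x i = segment ℝ (x i) (x (finRotate n i))) →
  ∀ (Pend : (Fin n → ℝ × ℝ) → ℝ → Fin n → ℝ × ℝ),
    (∀ x ε i, Pend x ε i = x i + ε • ((2:ℝ) • x i - x ((finRotate n).symm i) - x (finRotate n i))) →
  ∀ (Ordinary : (Fin n → ℝ × ℝ) → Prop),
    (∀ x, Ordinary x ↔ ∀ (p : ℝ × ℝ) (i j k : Fin n), p ∈ Edge x i → p ∈ Edge x j → p ∈ Edge x k →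
      i = j ∨ j = k ∨ i = k) →
  ∀ (Proper : (Fin n → ℝ × ℝ) → Prop),
    (∀ x, Proper x ↔ (∀ i, x i ≠ x (finRotate n i)) ∧
      ∀ i, ¬ Collinear ℝ ({x ((finRotate n).symm i), x i, x (finRotate n i)} : Set (ℝ × ℝ))) →
  ∀ (MapSet : (Fin n → ℝ × ℝ) → ℝ → Set (ℝ × ℝ)),
    (∀ x ε, MapSet x ε = (⋃ i, Edge x i) ∪ ⋃ i, segment ℝ (x i) (Pend x ε i)) →
  ∀ (Nodes : (Fin n → ℝ × ℝ) → ℝ → Set (ℝ × ℝ)),
    (∀ x ε, Nodes x ε = Set.range x ∪ {p : ℝ × ℝ | ∃ i j, i ≠ j ∧ p ∈ Edge x i ∧ p ∈ Edge x j}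
      ∪ Set.range (Pend x ε)) →
  ∀ (SamePattern : (Fin n → ℝ × ℝ) → (Fin n → ℝ × ℝ) → Prop),
    (∀ x y, SamePattern x y ↔ ∃ δ : ℝ, 0 < δ ∧ ∀ ε₁ ε₂ : ℝ, 0 < ε₁ → ε₁ < δ → 0 < ε₂ → ε₂ < δ →
      ∃ h : Homeomorph (ℝ × ℝ) (ℝ × ℝ), h '' MapSet x ε₁ = MapSet y ε₂ ∧ h '' Nodes x ε₁ = Nodes y ε₂) →
  ∀ (Dihedral : Equiv.Perm (Fin n) → Prop),
    (∀ σ, Dihedral σ ↔ (∀ i, σ (finRotate n i) = finRotate n (σ i)) ∨
      (∀ i, σ (finRotate n i) = (finRotate n).symm (σ i))) →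
  ∀ (Parallel : (Fin n → ℝ × ℝ) → (Fin n → ℝ × ℝ) → Prop),
    (∀ x z, Parallel x z ↔ ∀ i, ∃ c : ℝ, 0 < c ∧ z (finRotate n i) - z i = c • (x (finRotate n i) - x i)) →
  ∀ x y : Fin n → ℝ × ℝ,
    Ordinary x → Proper x → Ordinary y → Proper y → SamePattern x y →
    (∃ σ : Equiv.Perm (Fin n), Dihedral σ ∧ Parallel x (fun i => y (σ i))) →
    ∃ σ : Equiv.Perm (Fin n), Dihedral σ ∧ Parallel x (fun i => y (σ i)) ∧
      ∃ X : ℝ → Fin n → ℝ × ℝ,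
        (∀ j, ContinuousOn (fun t => X t j) (Set.Icc (0:ℝ) 1)) ∧
        X 0 = x ∧ X 1 = (fun i => y (σ i)) ∧
        ∀ t ∈ Set.Icc (0:ℝ) 1,
          Ordinary (X t) ∧ Proper (X t) ∧ SamePattern x (X t) ∧ Parallel x (X t)) := by
  intro hmain
  have hyp1 : (∀ (p : ℝ × ℝ) (i j k : Fin 14), p ∈ EdgeF xx i → p ∈ EdgeF xx j → p ∈ EdgeF xx k →
      i = j ∨ j = k ∨ i = k) := (ordinaryF_iff xx).mpr ordinaryX
  have hyp2 := properF_of xx polyX properX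
  have hyp3 : (∀ (p : ℝ × ℝ) (i j k : Fin 14), p ∈ EdgeF yy i → p ∈ EdgeF yy j → p ∈ EdgeF yy k →
      i = j ∨ j = k ∨ i = k) := (ordinaryF_iff yy).mpr ordinaryY
  have hyp4 := properF_of yy polyY properY
  have hyp5 : ∃ δ : ℝ, 0 < δ ∧ ∀ ε₁ ε₂ : ℝ, 0 < ε₁ → ε₁ < δ → 0 < ε₂ → ε₂ < δ →
      ∃ h : Homeomorph (ℝ × ℝ) (ℝ × ℝ),
        h '' ((⋃ i, EdgeF xx i) ∪ ⋃ i, segment ℝ ((xx : Fin 14 → ℝ × ℝ) i) (PendF xx ε₁ i)) =
          ((⋃ i, EdgeF yy i) ∪ ⋃ i, segment ℝ ((yy : Fin 14 → ℝ × ℝ) i) (PendF yy ε₂ i)) ∧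
        h '' (Set.range (xx : Fin 14 → ℝ × ℝ) ∪
            {p : ℝ × ℝ | ∃ i j, i ≠ j ∧ p ∈ EdgeF xx i ∧ p ∈ EdgeF xx j}
          ∪ Set.range (PendF xx ε₁)) =
        (Set.range (yy : Fin 14 → ℝ × ℝ) ∪
            {p : ℝ × ℝ | ∃ i j, i ≠ j ∧ p ∈ EdgeF yy i ∧ p ∈ EdgeF yy j}
          ∪ Set.range (PendF yy ε₂)) := by
    obtain ⟨δ, hδ, h⟩ := samePatternF
    refine ⟨δ, hδ, fun a b ha0 ha hb0 hb => ?_⟩
    obtain ⟨H, h1, h2⟩ := h a b ha0 ha hb0 hb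
    refine ⟨H, ?_, ?_⟩
    · have e1 := mapSetF_eq xx a
      have e2 := mapSetF_eq yy b
      exact (congrArg (fun s => H '' s) e1).trans (h1.trans e2.symm)
    · have e1 := nodesF_eq xx a
      have e2 := nodesF_eq yy b
      exact (congrArg (fun s => H '' s) e1).trans (h2.trans e2.symm)
  have hyp6 : ∃ σ : Equiv.Perm (Fin 14), ((∀ i, σ (finRotate 14 i) = finRotate 14 (σ i)) ∨
      (∀ i, σ (finRotate 14 i) = (finRotate 14).symm (σ i))) ∧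
      ∀ i, ∃ c : ℝ, 0 < c ∧ (fun i => (yy : Fin 14 → ℝ × ℝ) (σ i)) (finRotate 14 i) -
        (fun i => (yy : Fin 14 → ℝ × ℝ) (σ i)) i =
        c • ((xx : Fin 14 → ℝ × ℝ) (finRotate 14 i) - (xx : Fin 14 → ℝ × ℝ) i) := by
    refine ⟨Equiv.refl _, Or.inl fun i => rfl, ?_⟩
    exact (parallelF_iff xx yy).mpr parallel_xy
  obtain ⟨σ, hD, hPar, X, hXc, hX0, hX1, hX⟩ :=
    hmain 14 (by norm_num) EdgeF (fun _ _ => rfl) PendF
      (fun _ _ _ => rfl) _ (fun _ => Iff.rfl) _ (fun _ => Iff.rfl) _ (fun _ _ => rfl) _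
      (fun _ _ => rfl) _ (fun _ _ => Iff.rfl) _ (fun _ => Iff.rfl) _ (fun _ _ => Iff.rfl)
      (xx : Fin 14 → ℝ × ℝ) (yy : Fin 14 → ℝ × ℝ) hyp1 hyp2 hyp3 hyp4 hyp5 hyp6
  have hR := dihedralF σ hD
  have hPE := (parallelF_iff xx (fun i => yy (σ i))).mp hPar
  obtain ⟨t, ht, hno⟩ := no_ordinary_path (fun i => σ i) hR hPE X hXc hX0 hX1
    (fun t ht => (parallelF_iff xx (X t)).mp (hX t ht).2.2.2)
  exact hno ((ordinaryF_iff (X t)).mp (hX t ht).1)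

end Pool.Agent.S10718
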