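import Pool.Statements.S10859
import Pool.Agent.N203.DR.Final
import Pool.Agent.N203.DR.LPOS
import Pool.Agent.N203.DR.LCEN1
import Pool.Agent.N203.DR.LCEN2b
import Pool.Agent.N203.DR.LOFF
import Pool.Agent.N203.DR.LATTFR
import Pool.Agent.N203.DR.LDELLF
import Pool.Agent.N203.DR.LLFDEL
import Pool.Agent.N203.DR.LHPG
import Pool.Agent.N203.DR.LEXD
import Pool.Agent.N203.DR.LODDV
import Pool.Agent.N203.DR.LEVENV
import Pool.Agent.N203.DR.LLLD
import Pool.Agent.N203.DR.LPTH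
import Pool.Agent.N203.DR.LPTH2
import Pool.Agent.N203.DR.LHOM
import Pool.Agent.N203.DR.LSEL
import Pool.Agent.N203.DR.LPFR
import Pool.Agent.N203.DR.LSPI
import Pool.Agent.N203.DR.LEXB
import Pool.Agent.N203.DR.LR2
import Pool.Agent.N203.DR.LIc
import Pool.Agent.N203.DR.LIIp1
import Pool.Agent.N203.DR.LIIp2
import Pool.Agent.N203.DR.LII1
import Pool.Agent.N203.DR.LII1s
import Pool.Agent.N203.DR.LX6
import Pool.Agent.N203.DR.LII2
import Pool.Agent.N203.DR.LII2e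
import Pool.Agent.N203.DR.LII2p
import Pool.Agent.N203.DR.LIII
import Pool.Agent.N203.DR.LIIIe
import Pool.Agent.N203.DR.LIIIp
import Pool.Agent.N203.DR.LX1
import Pool.Agent.N203.DR.LX2
import Pool.Agent.N203.DR.LX3a
import Pool.Agent.N203.DR.LX3b
import Pool.Agent.N203.DR.LX3c
import Pool.Agent.N203.DR.LX4
import Pool.Agent.N203.DR.LX4r
import Pool.Agent.N203.DR.LX5
import Pool.Agent.N203.DR.LFUEL
import Pool.Agent.N203.DR.LINV
import Pool.Agent.N203.DR.LISO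
import Pool.Agent.N203.DR.LROOT
import Pool.Agent.N203.DR.LREAL
import Pool.Agent.N203.DR.LSIZE
import Pool.Agent.N203.DR.LCCI
import Pool.Agent.N203.DR.LCCX
import Pool.Agent.N203.DR.LCONN

set_option autoImplicit false
open Pool Pool.MP_b148a6_co

namespace Pool.Agent.S10859

/-- There is N such that every tree T on n ≥ N vertices has two distinct vertices whose degree-associated cards determine it: any n-vertex graph with two distinct vertices giving isomorphic cards of equal degrees is isomorphic to T. -/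
theorem result :
    ∃ N : ℕ, ∀ n : ℕ, N ≤ n → ∀ T : SimpleGraph (Fin n), T.IsTree →
      ∃ u v : Fin n, u ≠ v ∧
        ∀ H : SimpleGraph (Fin n), ∀ x y : Fin n, x ≠ y →
          Nonempty (T.induce ({u}ᶜ : Set (Fin n)) ≃g H.induce ({x}ᶜ : Set (Fin n))) →
          (T.neighborSet u).ncard = (H.neighborSet x).ncard →
          Nonempty (T.induce ({v}ᶜ : Set (Fin n)) ≃g H.induce ({y}ᶜ : Set (Fin n))) →
          (T.neighborSet v).ncard = (H.neighborSet y).ncard →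
          Nonempty (T ≃g H) := by
  have hPOS : N203.DR.S_POS := N203.DR.holds_POS
  have hCEN1 : N203.DR.S_CEN1 := N203.DR.holds_CEN1
  have hCEN2 : N203.DR.S_CEN2 := N203.DR.holds_CEN2b hPOS
  have hOFF : N203.DR.S_OFF := N203.DR.holds_OFF hPOS
  have hATTFR : N203.DR.S_ATTFR := N203.DR.holds_ATTFR
  have hDELLF : N203.DR.S_DELLF := N203.DR.holds_DELLF
  have hLFDEL : N203.DR.S_LFDEL := N203.DR.holds_LFDEL hPOS
  have hHPG : N203.DR.S_HPG := N203.DR.holds_HPG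
  have hODDV : N203.DR.S_ODDV := N203.DR.holds_ODDV hCEN2
  have hEVENV : N203.DR.S_EVENV := N203.DR.holds_EVENV hCEN2
  have hLLD : N203.DR.S_LLD := N203.DR.holds_LLD hCEN1 hDELLF hLFDEL
  have hPTH : N203.DR.S_PTH := N203.DR.holds_PTH
  have hPTH2 : N203.DR.S_PTH2 := N203.DR.holds_PTH2
  have hHOM : N203.DR.S_HOM := N203.DR.holds_HOM
  have hSEL : N203.DR.S_SEL := N203.DR.holds_SEL hPTH
  have hPFR : N203.DR.S_PFR := N203.DR.holds_PFR hPOS
  have hSPI : N203.DR.S_SPI := N203.DR.holds_SPI hPOS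
  have hEXB : N203.DR.S_EXB := N203.DR.holds_EXB
  have hR2 : N203.DR.S_R2 := N203.DR.holds_R2 hHOM
  have hI : N203.DR.S_I := N203.DR.holds_Ic hCEN2 hODDV hEVENV
  have hIIp1 : N203.DR.S_IIp1 := N203.DR.holds_IIp1 hCEN2 hEVENV
  have hIIp2 : N203.DR.S_IIp2 := N203.DR.holds_IIp2 hCEN2 hEVENV hPTH hPTH2
  have hII1 : N203.DR.S_II1 := N203.DR.holds_II1 hCEN2 hODDV
  have hII1s : N203.DR.S_II1s := N203.DR.holds_II1s hCEN2 hODDV hPTH
  have hX6 : N203.DR.S_X6 := N203.DR.holds_X6 hCEN2 hODDV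
  have hII2 : N203.DR.S_II2 := N203.DR.holds_II2 hCEN2 hODDV hPTH hPTH2 hHOM
  have hII2e : N203.DR.S_II2e := N203.DR.holds_II2e hCEN2 hODDV hPTH hPTH2
  have hII2p : N203.DR.S_II2p := N203.DR.holds_II2p hCEN2 hODDV hPTH hPTH2 hSEL
  have hIII : N203.DR.S_III := N203.DR.holds_III hCEN2 hEVENV hPTH hPTH2 hHOM
  have hIIIe : N203.DR.S_IIIe := N203.DR.holds_IIIe hCEN2 hEVENV hPTH hPTH2
  have hIIIp : N203.DR.S_IIIp := N203.DR.holds_IIIp hCEN2 hEVENV hPTH hPTH2 hSEL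
  have hX4 : N203.DR.S_X4 := N203.DR.holds_X4 hPFR hLFDEL
  have hX4r : N203.DR.S_X4r := N203.DR.holds_X4r
  have hX5 : N203.DR.S_X5 := N203.DR.holds_X5 hATTFR hLFDEL hSPI hCEN2
  have hFUEL : N203.DR.S_FUEL := N203.DR.holds_FUEL
  have hINV : N203.DR.S_INV := N203.DR.holds_INV
  have hISO : N203.DR.S_ISO := N203.DR.holds_ISO
  have hROOT : N203.DR.S_ROOT := N203.DR.holds_ROOT hFUEL
  have hREAL : N203.DR.S_REAL := N203.DR.holds_REAL hFUEL
  have hSIZE : N203.DR.S_SIZE := N203.DR.holds_SIZE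
  have hCCI : N203.DR.S_CCI := N203.DR.holds_CCI hROOT hINV
  have hCCX : N203.DR.S_CCX := N203.DR.holds_CCX hROOT
  have hCONN : N203.DR.S_CONN := N203.DR.holds_CONN hCCX hCCI hSIZE
  have hEXD : N203.DR.S_EXD := N203.DR.holds_EXD hHPG hCEN2 hEXB
  have hX1 : N203.DR.S_X1 := N203.DR.holds_X1 hOFF hCEN2 hEXD hEXB
  have hX2 : N203.DR.S_X2 := N203.DR.holds_X2 hOFF hHPG hEXD hEXB
  have hX3a : N203.DR.S_X3a := N203.DR.holds_X3a hPOS hHPG hEXD hEXB hCEN2
  have hX3b : N203.DR.S_X3b := N203.DR.holds_X3b hOFF hATTFR hCEN2 hEXD hEXB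
  have hX3c : N203.DR.S_X3c := N203.DR.holds_X3c hATTFR hCEN2 hEXD hEXB
  have hcore := N203.DR.core hCEN1 hLLD hR2 hI hIIp1 hIIp2 hII1 hII1s hX6 hII2 hII2e hII2p hIII hIIIe hIIIp hX1 hX2 hX3a hX3b hX3c hX4 hX4r hX5
  exact N203.DR.final hcore hISO hROOT hREAL hSIZE hCCI hCCX hCONN

end Pool.Agent.S10859
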