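import Pool.Statements.S11006

set_option autoImplicit false
open scoped Pointwise
open Pool Pool.MP_b7cbb2_co

namespace Pool.Agent.S11006

/-- the cyclic group of order three -/
abbrev G3 : Type := Multiplicative (ZMod 3)

/-- permutation matrices of the cyclic group acting on three coordinates -/
def mu : G3 →* Matrix (Fin 3) (Fin 3) ℤ where
  toFun g := Matrix.of fun i j : Fin 3 => if i = j + (Multiplicative.toAdd g : Fin 3) then 1 else 0
  map_one' := by decide
  map_mul' := by decide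

/-- the six vertices -/
def V : Finset (Fin 3 → ℤ) :=
  {![1,0,0], ![0,1,0], ![0,0,1], ![0,1,1], ![1,0,1], ![1,1,0]}

/-- the region -/
def Q : Set (Fin 3 → ℝ) :=
  {y | (∀ i, 0 ≤ y i ∧ y i ≤ 1) ∧ 1 ≤ y 0 + y 1 + y 2 ∧ y 0 + y 1 + y 2 ≤ 2}

/-- coercion of vectors -/
def cR (v : Fin 3 → ℤ) : Fin 3 → ℝ := fun j => ((v j : ℤ) : ℝ)

/-- the polytope -/
def P : Set (Fin 3 → ℝ) := convexHull ℝ (cR '' (V : Set (Fin 3 → ℤ)))

lemma V_inv : ∀ g : G3, ∀ v ∈ V, Matrix.mulVec (mu g) v ∈ V := by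
  decide

lemma convex_Q : Convex ℝ Q := by
  intro x hx y hy a b ha hb hab
  obtain ⟨hx1, hx2, hx3⟩ := hx
  obtain ⟨hy1, hy2, hy3⟩ := hy
  refine ⟨fun i => ?_, ?_, ?_⟩
  · have h1 := hx1 i
    have h2 := hy1 i
    simp only [Pi.add_apply, Pi.smul_apply, smul_eq_mul]
    constructor
    · have := mul_nonneg ha h1.1
      have := mul_nonneg hb h2.1
      linarith
    · have := mul_le_mul_of_nonneg_left h1.2 ha
      have := mul_le_mul_of_nonneg_left h2.2 hb
      linarith
  · simp only [Pi.add_apply, Pi.smul_apply, smul_eq_mul]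
    have := mul_le_mul_of_nonneg_left hx2 ha
    have := mul_le_mul_of_nonneg_left hy2 hb
    nlinarith
  · simp only [Pi.add_apply, Pi.smul_apply, smul_eq_mul]
    have := mul_le_mul_of_nonneg_left hx3 ha
    have := mul_le_mul_of_nonneg_left hy3 hb
    nlinarith

lemma V_cases {v : Fin 3 → ℤ} (hv : v ∈ V) :
    v = ![1,0,0] ∨ v = ![0,1,0] ∨ v = ![0,0,1] ∨ v = ![0,1,1] ∨ v = ![1,0,1] ∨ v = ![1,1,0] := by
  simpa [V] using hv

lemma P_sub : P ⊆ Q := by
  refine convexHull_min ?_ convex_Q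
  rintro _ ⟨v, hv, rfl⟩
  rcases V_cases hv with rfl | rfl | rfl | rfl | rfl | rfl <;>
  · refine ⟨fun i => ?_, ?_, ?_⟩
    · fin_cases i <;> simp [cR]
    · simp [cR]; try norm_num
    · simp [cR]; try norm_num

lemma vert_mem {v : Fin 3 → ℤ} (hv : v ∈ V) : cR v ∈ P :=
  subset_convexHull ℝ _ ⟨v, hv, rfl⟩

lemma Q_sub : Q ⊆ P := by
  rintro y ⟨hy1, hy2, hy3⟩
  have h0 := hy1 0
  have h1 := hy1 1
  have h2 := hy1 2
  obtain ⟨s, hs⟩ : ∃ s, s = y 0 + y 1 + y 2 := ⟨_, rfl⟩
  rw [← hs] at hy2 hy3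
  -- weights
  have key : ∀ u : Fin 3 → ℝ, (∀ i, u i = y i - (s - 1)) →
      ∃ p q : Fin 3 → ℝ, (∀ i, 0 ≤ p i) ∧ (∀ i, 0 ≤ q i) ∧ (∀ i, u i = p i - q i) ∧
        p 0 + p 1 + p 2 = 2 - s ∧ q 0 + q 1 + q 2 = s - 1 := by
    intro u hu
    have hu0 := hu 0
    have hu1 := hu 1
    have hu2 := hu 2
    have hD : max (u 0) 0 + max (u 1) 0 + max (u 2) 0 ≤ 2 - s := by
      rcases le_total (u 0) 0 with a | a <;> rcases le_total (u 1) 0 with b | b <;>
        rcases le_total (u 2) 0 with c | c <;>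
        simp only [max_eq_left, max_eq_right, a, b, c] <;> linarith
    have hmm : ∀ t : ℝ, max t 0 - max (-t) 0 = t := by
      intro t
      rcases le_total t 0 with a | a
      · rw [max_eq_right a, max_eq_left (by linarith)]; ring
      · rw [max_eq_left a, max_eq_right (by linarith)]; ring
    obtain ⟨D, hDD⟩ : ∃ D, D = 2 - s - (max (u 0) 0 + max (u 1) 0 + max (u 2) 0) := ⟨_, rfl⟩
    have hD0 : 0 ≤ D := by rw [hDD]; linarith
    refine ⟨![max (u 0) 0 + D, max (u 1) 0, max (u 2) 0],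
      ![max (-(u 0)) 0 + D, max (-(u 1)) 0, max (-(u 2)) 0], ?_, ?_, ?_, ?_, ?_⟩
    · intro i; fin_cases i
      · exact add_nonneg (le_max_right _ _) hD0
      · exact le_max_right _ _
      · exact le_max_right _ _
    · intro i; fin_cases i
      · exact add_nonneg (le_max_right _ _) hD0
      · exact le_max_right _ _
      · exact le_max_right _ _
    · intro i; fin_cases i
      · have := hmm (u 0)
        simp only [Fin.zero_eta, Matrix.cons_val_zero]; linarith
      · have := hmm (u 1)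
        simp only [Fin.mk_one, Matrix.cons_val_one, Matrix.cons_val_zero]; linarith
      · have := hmm (u 2)
        simp only [Fin.reduceFinMk, Matrix.cons_val]; linarith
    · simp; rw [hDD]; ring
    · have e0 := hmm (u 0)
      have e1 := hmm (u 1)
      have e2 := hmm (u 2)
      simp only [Matrix.cons_val_zero, Matrix.cons_val_one, Matrix.cons_val]
      linarith
  obtain ⟨p, q, hp, hq, hpq, hps, hqs⟩ := key (fun i => y i - (s - 1)) (fun _ => rfl)
  have hconv : Convex ℝ P := convex_convexHull ℝ _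
  have hsum := hconv.sum_mem (t := Finset.univ) (w := ![p 0, p 1, p 2, q 0, q 1, q 2])
    (z := ![cR ![1,0,0], cR ![0,1,0], cR ![0,0,1], cR ![0,1,1], cR ![1,0,1], cR ![1,1,0]])
    (by
      intro i _
      fin_cases i
      · exact hp 0
      · exact hp 1
      · exact hp 2
      · exact hq 0
      · exact hq 1
      · exact hq 2)
    (by
      simp [Fin.sum_univ_succ]
      linarith)
    (by
      intro i _
      fin_cases i
      · exact vert_mem (by decide)
      · exact vert_mem (by decide)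
      · exact vert_mem (by decide)
      · exact vert_mem (by decide)
      · exact vert_mem (by decide)
      · exact vert_mem (by decide))
  convert hsum using 1
  have g0 := hpq 0
  have g1 := hpq 1
  have g2 := hpq 2
  funext j
  fin_cases j
  · simp [Fin.sum_univ_succ, cR]; linarith
  · simp [Fin.sum_univ_succ, cR]; linarith
  · simp [Fin.sum_univ_succ, cR]; linarith

lemma P_eq : P = Q := Set.Subset.antisymm P_sub Q_sub

lemma P_ne : P.Nonempty := ⟨cR ![1,0,0], vert_mem (by decide)⟩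

lemma mem_smul (m : ℕ) (x : Fin 3 → ℤ) :
    cR x ∈ (m : ℝ) • P ↔ (∀ i, 0 ≤ x i ∧ x i ≤ m) ∧ (m : ℤ) ≤ x 0 + x 1 + x 2 ∧
      x 0 + x 1 + x 2 ≤ 2 * m := by
  constructor
  · rintro ⟨y, hy, hyx⟩
    rw [P_eq] at hy
    obtain ⟨h1, h2, h3⟩ := hy
    have hm : (0 : ℝ) ≤ m := Nat.cast_nonneg m
    have e : ∀ i, (x i : ℝ) = m * y i := by
      intro i
      have := congrFun hyx i
      simp only [Pi.smul_apply, smul_eq_mul] at this
      exact this.symm
    refine ⟨fun i => ⟨?_, ?_⟩, ?_, ?_⟩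
    · have : (0 : ℝ) ≤ x i := by rw [e i]; exact mul_nonneg hm (h1 i).1
      exact_mod_cast this
    · have : (x i : ℝ) ≤ m := by
        rw [e i]; calc (m : ℝ) * y i ≤ m * 1 := mul_le_mul_of_nonneg_left (h1 i).2 hm
          _ = m := mul_one _
      exact_mod_cast this
    · have : (m : ℝ) ≤ x 0 + x 1 + x 2 := by
        rw [e 0, e 1, e 2]
        have := mul_le_mul_of_nonneg_left h2 hm
        linarith
      exact_mod_cast this
    · have : (x 0 : ℝ) + x 1 + x 2 ≤ 2 * m := by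
        rw [e 0, e 1, e 2]
        have := mul_le_mul_of_nonneg_left h3 hm
        linarith
      exact_mod_cast this
  · rintro ⟨h1, h2, h3⟩
    rcases Nat.eq_zero_or_pos m with rfl | hm
    · obtain ⟨z, hz⟩ := P_ne
      refine ⟨z, hz, ?_⟩
      funext i
      have := h1 i
      have h0 : x i = 0 := le_antisymm (by simpa using this.2) this.1
      simp [cR, h0]
    · have hm' : (0 : ℝ) < m := by exact_mod_cast hm
      refine ⟨fun i => (x i : ℝ) / m, ?_, ?_⟩
      · rw [P_eq]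
        have g2 : (m : ℝ) ≤ x 0 + x 1 + x 2 := by exact_mod_cast h2
        have g3 : (x 0 : ℝ) + x 1 + x 2 ≤ 2 * m := by exact_mod_cast h3
        refine ⟨fun i => ⟨?_, ?_⟩, ?_, ?_⟩
        · have : (0 : ℝ) ≤ x i := by exact_mod_cast (h1 i).1
          positivity
        · have : (x i : ℝ) ≤ m := by exact_mod_cast (h1 i).2
          show (x i : ℝ) / m ≤ 1
          rw [div_le_one hm']; exact this
        · show 1 ≤ (x 0 : ℝ) / m + x 1 / m + x 2 / m
          rw [← add_div, ← add_div, le_div_iff₀ hm']; linarith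
        · show (x 0 : ℝ) / m + x 1 / m + x 2 / m ≤ 2
          rw [← add_div, ← add_div, div_le_iff₀ hm']; linarith
      · funext i
        simp only [Pi.smul_apply, smul_eq_mul, cR]
        field_simp


lemma inner1 (m s : ℕ) (hs : s ≤ 2 * m) :
    (((Finset.range (m + 1)).filter (fun c => m ≤ s + c ∧ s + c ≤ 2 * m)).card : ℤ)
      = if s ≤ m then (s : ℤ) + 1 else 2 * m - s + 1 := by
  have : (Finset.range (m + 1)).filter (fun c => m ≤ s + c ∧ s + c ≤ 2 * m)
      = Finset.Icc (m - s) (min m (2 * m - s)) := by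
    ext c
    simp only [Finset.mem_filter, Finset.mem_range, Finset.mem_Icc]
    omega
  rw [this, Nat.card_Icc]
  split_ifs with h <;> omega

lemma s1 (a : ℤ) (n : ℕ) :
    2 * ∑ b ∈ Finset.range n, (a + b + 1) = n * (2 * a + n + 1) := by
  induction n with
  | zero => simp
  | succ n ih => rw [Finset.sum_range_succ, mul_add, ih]; push_cast; ring

lemma s2 (c : ℤ) (n : ℕ) :
    2 * ∑ j ∈ Finset.range n, (c - j) = n * (2 * c + 1 - n) := by
  induction n with
  | zero => simp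
  | succ n ih => rw [Finset.sum_range_succ, mul_add, ih]; push_cast; ring

lemma inner2 (m a : ℕ) (ha : a ≤ m) :
    2 * ∑ b ∈ Finset.range (m + 1), (if a + b ≤ m then ((a + b : ℕ) : ℤ) + 1
      else 2 * m - (a + b : ℕ) + 1) = (m + 1) * (m + 2) + 2 * m * a - 2 * a ^ 2 := by
  obtain ⟨k, rfl⟩ := Nat.exists_eq_add_of_le ha
  have e : a + k + 1 = (k + 1) + a := by ring
  rw [e, Finset.sum_range_add, mul_add]
  have h1 : ∑ b ∈ Finset.range (k + 1), (if a + b ≤ a + k then ((a + b : ℕ) : ℤ) + 1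
      else 2 * (a + k : ℕ) - (a + b : ℕ) + 1) = ∑ b ∈ Finset.range (k + 1), ((a : ℤ) + b + 1) := by
    refine Finset.sum_congr rfl fun b hb => ?_
    rw [Finset.mem_range] at hb
    rw [if_pos (by omega)]; push_cast; ring
  have h2 : ∑ x ∈ Finset.range a, (if a + (k + 1 + x) ≤ a + k then ((a + (k + 1 + x) : ℕ) : ℤ) + 1
      else 2 * (a + k : ℕ) - (a + (k + 1 + x) : ℕ) + 1)
      = ∑ x ∈ Finset.range a, (((a : ℤ) + k) - x) := by
    refine Finset.sum_congr rfl fun b hb => ?_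
    rw [Finset.mem_range] at hb
    rw [if_neg (by omega)]; push_cast; ring
  rw [h1, h2, s1, s2]
  push_cast
  ring

lemma s3 (m : ℤ) (n : ℕ) :
    3 * ∑ a ∈ Finset.range n, ((m + 1) * (m + 2) + 2 * m * a - 2 * (a : ℤ) ^ 2)
      = 3 * n * (m + 1) * (m + 2) + 3 * m * n * (n - 1) - n * (n - 1) * (2 * n - 1) := by
  induction n with
  | zero => simp
  | succ n ih => rw [Finset.sum_range_succ, mul_add, ih]; push_cast; ring

/-- the finite set of integer triples -/
def FF (m : ℕ) : Finset (ℕ × ℕ × ℕ) :=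
  (Finset.range (m + 1) ×ˢ Finset.range (m + 1) ×ˢ Finset.range (m + 1)).filter
    (fun t => m ≤ t.1 + t.2.1 + t.2.2 ∧ t.1 + t.2.1 + t.2.2 ≤ 2 * m)

lemma FF_card (m : ℕ) : 3 * ((FF m).card : ℤ) = 2 * m ^ 3 + 6 * m ^ 2 + 7 * m + 3 := by
  have h1 : ((FF m).card : ℤ) = ∑ a ∈ Finset.range (m + 1), ∑ b ∈ Finset.range (m + 1),
      (if a + b ≤ m then ((a + b : ℕ) : ℤ) + 1 else 2 * m - (a + b : ℕ) + 1) := by
    unfold FF
    rw [Finset.card_filter, Finset.sum_product, Nat.cast_sum]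
    refine Finset.sum_congr rfl fun a ha => ?_
    rw [Finset.sum_product, Nat.cast_sum]
    refine Finset.sum_congr rfl fun b hb => ?_
    rw [Finset.mem_range] at ha hb
    rw [← inner1 m (a + b) (by omega), Finset.card_filter]
  have h2 : 2 * ((FF m).card : ℤ)
      = ∑ a ∈ Finset.range (m + 1), (((m : ℤ) + 1) * (m + 2) + 2 * m * a - 2 * (a : ℤ) ^ 2) := by
    rw [h1, Finset.mul_sum]
    refine Finset.sum_congr rfl fun a ha => ?_
    rw [Finset.mem_range] at ha
    exact inner2 m a (by omega)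
  have h3 := s3 m (m + 1)
  rw [← h2] at h3
  push_cast at h3
  nlinarith

lemma count_one (m : ℕ) :
    3 * ((Set.ncard {x : Fin 3 → ℤ | cR x ∈ (m : ℝ) • P} : ℕ) : ℤ)
      = 2 * m ^ 3 + 6 * m ^ 2 + 7 * m + 3 := by
  have : {x : Fin 3 → ℤ | cR x ∈ (m : ℝ) • P}
      = (fun t : ℕ × ℕ × ℕ => (![(t.1 : ℤ), (t.2.1 : ℤ), (t.2.2 : ℤ)] : Fin 3 → ℤ)) ''
        (FF m : Set (ℕ × ℕ × ℕ)) := by
    ext x
    rw [Set.mem_ofPred_eq, mem_smul]
    constructor
    · rintro ⟨h1, h2, h3⟩
      have a0 := h1 0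
      have a1 := h1 1
      have a2 := h1 2
      refine ⟨((x 0).toNat, (x 1).toNat, (x 2).toNat), ?_, ?_⟩
      · simp only [FF, Finset.coe_filter, Finset.mem_product, Finset.mem_range, Set.mem_ofPred_eq]
        omega
      · funext i
        fin_cases i
        · simpa using a0.1
        · simpa using a1.1
        · simpa using a2.1
    · rintro ⟨⟨a, b, c⟩, ht, rfl⟩
      simp only [FF, Finset.coe_filter, Finset.mem_product, Finset.mem_range,
        Set.mem_ofPred_eq] at ht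
      refine ⟨fun i => ?_, ?_, ?_⟩
      · fin_cases i
        · simp; omega
        · simp; omega
        · simp; omega
      · simp; omega
      · simp; omega
  rw [this, Set.ncard_image_of_injective, Set.ncard_coe_finset, FF_card]
  rintro ⟨a, b, c⟩ ⟨a', b', c'⟩ h
  have h0 := congrFun h 0
  have h1 := congrFun h 1
  have h2 := congrFun h 2
  simp at h0 h1 h2
  subst h0 h1 h2
  rfl

lemma count_g (m : ℕ) :
    ((Set.ncard {x : Fin 3 → ℤ | cR x ∈ (m : ℝ) • P ∧ (x 0 = x 1 ∧ x 1 = x 2)} : ℕ) : ℤ)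
      = (2 * m / 3 : ℕ) + 1 - ((m + 2) / 3 : ℕ) := by
  have : {x : Fin 3 → ℤ | cR x ∈ (m : ℝ) • P ∧ (x 0 = x 1 ∧ x 1 = x 2)}
      = (fun t : ℕ => (![(t : ℤ), (t : ℤ), (t : ℤ)] : Fin 3 → ℤ)) ''
        (Finset.Icc ((m + 2) / 3) (2 * m / 3) : Set ℕ) := by
    ext x
    rw [Set.mem_ofPred_eq, mem_smul]
    constructor
    · rintro ⟨⟨h1, h2, h3⟩, h4, h5⟩
      have a0 := h1 0
      refine ⟨(x 0).toNat, ?_, ?_⟩
      · simp only [Finset.coe_Icc, Set.mem_Icc]
        omega
      · funext i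
        fin_cases i
        · simpa using a0.1
        · simp; omega
        · simp; omega
    · rintro ⟨t, ht, rfl⟩
      simp only [Finset.coe_Icc, Set.mem_Icc] at ht
      refine ⟨⟨fun i => ?_, ?_, ?_⟩, ?_, ?_⟩
      · fin_cases i
        · simp; omega
        · simp; omega
        · simp; omega
      · simp; omega
      · simp; omega
      · simp
      · simp
  rw [this, Set.ncard_image_of_injective, Set.ncard_coe_finset, Nat.card_Icc]
  · omega
  · intro a b h
    have h0 := congrFun h 0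
    simpa using h0

lemma mulX (f : ℕ → ℤ) :
    PowerSeries.mk f * (1 - PowerSeries.X)
      = PowerSeries.mk (fun n => f n - if 1 ≤ n then f (n - 1) else 0) := by
  ext n
  rw [mul_sub, mul_one, map_sub, PowerSeries.coeff_mk, PowerSeries.coeff_mk]
  have := PowerSeries.coeff_mul_X_pow' (PowerSeries.mk f) 1 n
  rw [pow_one] at this
  rw [this]
  split_ifs <;> simp

lemma mulX3 (f : ℕ → ℤ) :
    PowerSeries.mk f * (1 - PowerSeries.X ^ 3)
      = PowerSeries.mk (fun n => f n - if 3 ≤ n then f (n - 3) else 0) := by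
  ext n
  rw [mul_sub, mul_one, map_sub, PowerSeries.coeff_mk, PowerSeries.coeff_mk,
    PowerSeries.coeff_mul_X_pow']
  split_ifs <;> simp


lemma span_mem (x : Fin 3 → ℤ) : cR x ∈ vectorSpan ℝ P := by
  have e0 : cR ![1,0,0] ∈ vectorSpan ℝ P := by
    have := vsub_mem_vectorSpan ℝ (vert_mem (v := ![1,1,0]) (by decide))
      (vert_mem (v := ![0,1,0]) (by decide))
    convert this using 1
    funext i; fin_cases i <;> simp [cR]
  have e1 : cR ![0,1,0] ∈ vectorSpan ℝ P := by
    have := vsub_mem_vectorSpan ℝ (vert_mem (v := ![1,1,0]) (by decide))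
      (vert_mem (v := ![1,0,0]) (by decide))
    convert this using 1
    funext i; fin_cases i <;> simp [cR]
  have e2 : cR ![0,0,1] ∈ vectorSpan ℝ P := by
    have := vsub_mem_vectorSpan ℝ (vert_mem (v := ![1,0,1]) (by decide))
      (vert_mem (v := ![1,0,0]) (by decide))
    convert this using 1
    funext i; fin_cases i <;> simp [cR]
  have : cR x = (x 0 : ℝ) • cR ![1,0,0] + (x 1 : ℝ) • cR ![0,1,0] + (x 2 : ℝ) • cR ![0,0,1] := by
    funext i; fin_cases i <;> simp [cR]
  rw [this]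
  exact Submodule.add_mem _ (Submodule.add_mem _ (Submodule.smul_mem _ _ e0)
    (Submodule.smul_mem _ _ e1)) (Submodule.smul_mem _ _ e2)

/-- the counting function -/
noncomputable def cnt (g : G3) (m : ℕ) : ℤ :=
  ((Set.ncard {x : Fin 3 → ℤ |
    (fun j => ((x j : ℤ) : ℝ)) ∈ (m : ℝ) • P ∧
    Matrix.mulVec (mu g) x = x} : ℕ) : ℤ)

lemma cnt_one (m : ℕ) : 3 * cnt 1 m = 2 * m ^ 3 + 6 * m ^ 2 + 7 * m + 3 := by
  rw [← count_one]
  unfold cnt
  congr 3
  ext x
  simp only [Set.mem_ofPred_eq, map_one, Matrix.one_mulVec, and_true]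
  rfl

lemma fix_iff (g : G3) (hg : g ≠ 1) (x : Fin 3 → ℤ) :
    Matrix.mulVec (mu g) x = x ↔ (x 0 = x 1 ∧ x 1 = x 2) := by
  have hcases : g = Multiplicative.ofAdd (1 : ZMod 3) ∨ g = Multiplicative.ofAdd (2 : ZMod 3) := by
    revert g; decide
  have m1 : mu (Multiplicative.ofAdd (1 : ZMod 3)) = !![0,0,1;1,0,0;0,1,0] := by decide
  have m2 : mu (Multiplicative.ofAdd (2 : ZMod 3)) = !![0,1,0;0,0,1;1,0,0] := by decide
  rcases hcases with rfl | rfl
  · rw [m1]
    constructor
    · intro h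
      have h0 := congrFun h 0
      have h1 := congrFun h 1
      have h2 := congrFun h 2
      simp [Matrix.mulVec, dotProduct, Fin.sum_univ_succ] at h0 h1 h2
      omega
    · rintro ⟨h1, h2⟩
      funext i
      fin_cases i <;> simp [Matrix.mulVec, dotProduct, Fin.sum_univ_succ] <;> omega
  · rw [m2]
    constructor
    · intro h
      have h0 := congrFun h 0
      have h1 := congrFun h 1
      have h2 := congrFun h 2
      simp [Matrix.mulVec, dotProduct, Fin.sum_univ_succ] at h0 h1 h2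
      omega
    · rintro ⟨h1, h2⟩
      funext i
      fin_cases i <;> simp [Matrix.mulVec, dotProduct, Fin.sum_univ_succ] <;> omega

lemma cnt_g (g : G3) (hg : g ≠ 1) (m : ℕ) :
    cnt g m = (2 * m / 3 : ℕ) + 1 - ((m + 2) / 3 : ℕ) := by
  rw [← count_g]
  unfold cnt
  congr 2
  ext x
  simp only [Set.mem_ofPred_eq, fix_iff g hg]
  rfl

lemma det_one : (Matrix.det (1 - (Polynomial.X : Polynomial ℤ) •
    (mu 1).map Polynomial.C) : Polynomial ℤ) = (1 - Polynomial.X) ^ 3 := by
  have m1 : mu (1 : G3) = !![1,0,0;0,1,0;0,0,1] := by decide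
  rw [m1, Matrix.det_fin_three]
  simp
  ring

lemma det_g (g : G3) (hg : g ≠ 1) : (Matrix.det (1 - (Polynomial.X : Polynomial ℤ) •
    (mu g).map Polynomial.C) : Polynomial ℤ) = 1 - Polynomial.X ^ 3 := by
  have hcases : g = Multiplicative.ofAdd (1 : ZMod 3) ∨ g = Multiplicative.ofAdd (2 : ZMod 3) := by
    revert g; decide
  have m1 : mu (Multiplicative.ofAdd (1 : ZMod 3)) = !![0,0,1;1,0,0;0,1,0] := by decide
  have m2 : mu (Multiplicative.ofAdd (2 : ZMod 3)) = !![0,1,0;0,0,1;1,0,0] := by decide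
  rcases hcases with rfl | rfl
  · rw [m1, Matrix.det_fin_three]
    simp
    ring
  · rw [m2, Matrix.det_fin_three]
    simp
    ring

/-- the equivariant h-star series -/
noncomputable def Ph (g : G3) : PowerSeries ℤ :=
  PowerSeries.mk (cnt g) * (1 - PowerSeries.X)
    * ((Matrix.det (1 - (Polynomial.X : Polynomial ℤ) •
          (mu g).map Polynomial.C) : Polynomial ℤ) : PowerSeries ℤ)

lemma Ph_one : Ph 1 = PowerSeries.mk (cnt 1) * (1 - PowerSeries.X) * (1 - PowerSeries.X)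
    * (1 - PowerSeries.X) * (1 - PowerSeries.X) := by
  unfold Ph
  rw [det_one]
  push_cast
  ring

lemma Ph_g (g : G3) (hg : g ≠ 1) :
    Ph g = PowerSeries.mk (cnt g) * (1 - PowerSeries.X) * (1 - PowerSeries.X ^ 3) := by
  unfold Ph
  rw [det_g g hg]
  push_cast
  ring

lemma Ph_one_big (i : ℕ) (hi : 4 ≤ i) : PowerSeries.coeff (R := ℤ) i (Ph 1) = 0 := by
  obtain ⟨j, rfl⟩ := Nat.exists_eq_add_of_le' hi
  rw [Ph_one, mulX, mulX, mulX, mulX, PowerSeries.coeff_mk]
  have a0 := cnt_one j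
  have a1 := cnt_one (j + 1)
  have a2 := cnt_one (j + 2)
  have a3 := cnt_one (j + 3)
  have a4 := cnt_one (j + 4)
  have c1 : 1 ≤ j + 4 := by omega
  simp only [c1, if_true, show j + 4 - 1 = j + 3 by omega, show 1 ≤ j + 3 by omega,
    show j + 3 - 1 = j + 2 by omega, show 1 ≤ j + 2 by omega,
    show j + 2 - 1 = j + 1 by omega, show 1 ≤ j + 1 by omega, show j + 1 - 1 = j by omega]
  push_cast at a0 a1 a2 a3 a4
  ring_nf at a0 a1 a2 a3 a4 ⊢
  linarith

lemma cnt_one_vals : cnt 1 0 = 1 ∧ cnt 1 1 = 6 := by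
  have a0 := cnt_one 0
  have a1 := cnt_one 1
  push_cast at a0 a1
  constructor <;> linarith

lemma Ph_one_1 : PowerSeries.coeff (R := ℤ) 1 (Ph 1) = 2 := by
  rw [Ph_one, mulX, mulX, mulX, mulX, PowerSeries.coeff_mk]
  obtain ⟨h0, h1⟩ := cnt_one_vals
  simp [h0, h1]

lemma Ph_g_big (g : G3) (hg : g ≠ 1) (i : ℕ) (hi : 4 ≤ i) :
    PowerSeries.coeff (R := ℤ) i (Ph g) = 0 := by
  obtain ⟨j, rfl⟩ := Nat.exists_eq_add_of_le' hi
  rw [Ph_g g hg, mulX, mulX3, PowerSeries.coeff_mk]
  have c1 : 1 ≤ j + 4 := by omega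
  simp only [c1, if_true, show j + 4 - 1 = j + 3 by omega, show 3 ≤ j + 4 by omega,
    show j + 4 - 3 = j + 1 by omega, show 1 ≤ j + 1 by omega, show j + 1 - 1 = j by omega]
  rw [cnt_g g hg, cnt_g g hg, cnt_g g hg, cnt_g g hg]
  have b1 : 2 * (j + 4) / 3 = 2 * (j + 1) / 3 + 2 := by omega
  have b2 : (j + 4 + 2) / 3 = (j + 1 + 2) / 3 + 1 := by omega
  have b3 : 2 * (j + 3) / 3 = 2 * j / 3 + 2 := by omega
  have b4 : (j + 3 + 2) / 3 = (j + 2) / 3 + 1 := by omega
  rw [b1, b2, b3, b4]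
  push_cast
  ring

lemma Ph_g_1 (g : G3) (hg : g ≠ 1) : PowerSeries.coeff (R := ℤ) 1 (Ph g) = -1 := by
  rw [Ph_g g hg, mulX, mulX3, PowerSeries.coeff_mk]
  simp [cnt_g g hg]

/-- The negation of the preceding statement: For any finite group acting linearly on Z^n and invariant lattice polytope P whose equivariant h*-series is a polynomial, every coefficient with positive h*_i has nonzero sum over the group, i.e. contains the trivial representation. -/
theorem result :
    ¬ (∀ (G : Type) [Group G] [Fintype G] (n : ℕ)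
      (ρ : G →* Matrix.GeneralLinearGroup (Fin n) ℤ)
      (V : Finset (Fin n → ℤ)) (P : Set (Fin n → ℝ)),
      V.Nonempty →
      (∀ g : G, ∀ v ∈ V,
        Matrix.mulVec (ρ g : Matrix (Fin n) (Fin n) ℤ) v ∈ V) →
      P = convexHull ℝ
        ((fun v : Fin n → ℤ => fun j => ((v j : ℤ) : ℝ)) '' (V : Set (Fin n → ℤ))) →
      ∀ (d : ℕ) (ι : (Fin d → ℤ) →ₗ[ℤ] (Fin n → ℤ))
        (σ : G → Matrix (Fin d) (Fin d) ℤ) (Φ : G → PowerSeries ℤ),
      Function.Injective ι →
      (∀ x : Fin n → ℤ,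
        (∃ y : Fin d → ℤ, ι y = x) ↔
          (fun j => ((x j : ℤ) : ℝ)) ∈ vectorSpan ℝ P) →
      (∀ (g : G) (y : Fin d → ℤ),
        ι (Matrix.mulVec (σ g) y) =
          Matrix.mulVec (ρ g : Matrix (Fin n) (Fin n) ℤ) (ι y)) →
      (∀ g : G, Φ g =
        PowerSeries.mk (fun m : ℕ =>
          ((Set.ncard {x : Fin n → ℤ |
              (fun j => ((x j : ℤ) : ℝ)) ∈ (m : ℝ) • P ∧
              Matrix.mulVec (ρ g : Matrix (Fin n) (Fin n) ℤ) x = x} : ℕ) : ℤ))
        * (1 - PowerSeries.X)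
        * ((Matrix.det (1 - (Polynomial.X : Polynomial ℤ) •
              (σ g).map Polynomial.C) : Polynomial ℤ) : PowerSeries ℤ)) →
      (∃ N : ℕ, ∀ g : G, ∀ i : ℕ, N ≤ i →
        PowerSeries.coeff (R := ℤ) i (Φ g) = 0) →
      ∀ i : ℕ, 0 < PowerSeries.coeff (R := ℤ) i (Φ 1) →
        (∑ g : G, PowerSeries.coeff (R := ℤ) i (Φ g)) ≠ 0) := by
  intro H
  refine H G3 3 (mu.toHomUnits) V P ⟨![1,0,0], by decide⟩ ?_ rfl 3 LinearMap.id (fun g => mu g)
    Ph Function.injective_id ?_ ?_ ?_ ⟨4, ?_⟩ 1 ?_ ?_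
  · intro g v hv
    exact V_inv g v hv
  · intro x
    exact ⟨fun _ => span_mem x, fun _ => ⟨x, rfl⟩⟩
  · intro g y
    rfl
  · intro g
    rfl
  · intro g i hi
    by_cases hg : g = 1
    · subst hg; exact Ph_one_big i hi
    · exact Ph_g_big g hg i hi
  · rw [Ph_one_1]; norm_num
  · have : ∑ g : G3, PowerSeries.coeff (R := ℤ) 1 (Ph g)
        = ∑ g : G3, (if g = 1 then (2 : ℤ) else -1) := by
      refine Finset.sum_congr rfl fun g _ => ?_
      split_ifs with hg
      · subst hg; exact Ph_one_1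
      · exact Ph_g_1 g hg
    rw [this]
    decide

end Pool.Agent.S11006
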