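import Pool.Statements.S11473
import Pool.Agent.N431.LMD2

set_option autoImplicit false
open Pool Pool.MP_cc29fe_co

namespace Pool.Agent.S11473

/-- Every finite connected graph with n vertices and clique number ω, where n ≥ ω+1 ≥ 4, has a set of at most (ω−2)/(ω−1)·n vertices distinguishing every adjacent pair by distance, i.e. local metric dimension ≤ (ω−2)n/(ω−1). -/
theorem result :
    ∀ (V : Type) [Fintype V] (G : SimpleGraph V), G.Connected →
      ∀ ω : ℕ, (∃ s : Finset V, G.IsNClique ω s) → G.CliqueFree (ω + 1) →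
        4 ≤ ω + 1 → ω + 1 ≤ Fintype.card V →
        ∃ W : Finset V,
          (∀ u v : V, G.Adj u v → ∃ w ∈ W, G.dist u w ≠ G.dist v w) ∧
          (W.card : ℝ) ≤ ((ω : ℝ) - 2) / ((ω : ℝ) - 1) * (Fintype.card V : ℝ) := by
  intro V _ G hG ω _ hcf h4 hn
  obtain ⟨W, hW, hcard⟩ := Pool.Agent.N431.LMD.main hG hcf (by omega) hn
  refine ⟨W, hW, ?_⟩
  have h1 : (0 : ℝ) < (ω : ℝ) - 1 := by
    have : (3 : ℝ) ≤ (ω : ℝ) := by exact_mod_cast (by omega : 3 ≤ ω)
    linarith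
  rw [div_mul_eq_mul_div, le_div_iff₀ h1]
  have h2 : ((W.card * (ω - 1) : ℕ) : ℝ) ≤ (((ω - 2) * Fintype.card V : ℕ) : ℝ) := by
    exact_mod_cast hcard
  have h3 : ((ω - 1 : ℕ) : ℝ) = (ω : ℝ) - 1 := by
    rw [Nat.cast_sub (by omega)]; simp
  have h4' : ((ω - 2 : ℕ) : ℝ) = (ω : ℝ) - 2 := by
    rw [Nat.cast_sub (by omega)]; simp
  rw [Nat.cast_mul, Nat.cast_mul, h3, h4'] at h2
  exact h2

end Pool.Agent.S11473
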