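import Pool.Statements.S11612
import Pool.Agent.H279R3.TreeHelly
-- import your own Pool.Agent.* helpers here

set_option autoImplicit false
open Pool Pool.MP_d20af1_co

namespace Pool.Agent.S11612

open SimpleGraph

/-- `K₅` in which the five edges `{i, i+2}` (a `5`-cycle) are subdivided once; the subdivision vertex of
`{i, i+2}` is `i + 5`. -/
def edgeList : List (Fin 10 × Fin 10) :=
  [(0, 1), (1, 2), (2, 3), (3, 4), (4, 0),
   (5, 0), (5, 2), (6, 1), (6, 3), (7, 2), (7, 4), (8, 3), (8, 0), (9, 4), (9, 1)]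

/-- The counterexample, a graph on ten vertices. -/
def G : SimpleGraph (Fin 10) where
  Adj u v := (u, v) ∈ edgeList ∨ (v, u) ∈ edgeList
  symm := ⟨fun _ _ h => h.symm⟩
  loopless := ⟨by decide⟩

instance : DecidableRel G.Adj := fun u v =>
  inferInstanceAs (Decidable ((u, v) ∈ edgeList ∨ (v, u) ∈ edgeList))

/-- Bags of a tree decomposition with bags of independence number at most two. -/
def B1 : Fin 6 → Finset (Fin 10) :=
  ![{0, 1, 2, 3, 4}, {0, 2, 5}, {1, 3, 6}, {2, 4, 7}, {3, 0, 8}, {4, 1, 9}]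

/-- Bags of a tree decomposition with bipartite bags. -/
def B2 : Fin 4 → Finset (Fin 10) :=
  ![{1, 3, 4, 5, 6, 7, 8}, {1, 4, 5, 6, 7, 8, 9}, {1, 2, 3, 5, 7}, {0, 1, 4, 5, 8}]

lemma star_induce_connected {n : ℕ} (S : Set (Fin (n + 1)))
    (h : (0 : Fin (n + 1)) ∈ S ∨ ∃ i, S = {i}) :
    ((starGraph (0 : Fin (n + 1))).induce S).Connected := by
  rcases h with h | ⟨i, rfl⟩
  · have key : ∀ x : S, ((starGraph (0 : Fin (n + 1))).induce S).Reachable x ⟨0, h⟩ := by
      rintro ⟨x, hx⟩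
      by_cases hx0 : x = 0
      · subst hx0; exact Reachable.refl _
      · apply Adj.reachable
        simp [hx0]
    have : Nonempty S := ⟨⟨0, h⟩⟩
    exact ⟨fun x y => (key x).trans (key y).symm⟩
  · have : Nonempty ({i} : Set (Fin (n + 1))) := ⟨⟨i, rfl⟩⟩
    have : Subsingleton ({i} : Set (Fin (n + 1))) := inferInstance
    exact ⟨fun x y => by rw [Subsingleton.elim x y]⟩

lemma walk_of_connected {n : ℕ} {T : SimpleGraph (Fin n)} {B : Fin n → Finset (Fin 10)} {v : Fin 10}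
    (h : (T.induce {i : Fin n | v ∈ B i}).Connected) (i j : Fin n) (hi : v ∈ B i) (hj : v ∈ B j) :
    ∃ q : T.Walk i j, ∀ x ∈ q.support, v ∈ B x := by
  obtain ⟨p⟩ := h.preconnected ⟨i, hi⟩ ⟨j, hj⟩
  have key : ∀ x ∈ (p.map (Embedding.induce {i : Fin n | v ∈ B i}).toHom).support, v ∈ B x := by
    intro x hx
    rw [Walk.support_map, List.mem_map] at hx
    obtain ⟨y, _, rfl⟩ := hx
    exact y.2
  exact ⟨p.map (Embedding.induce {i : Fin n | v ∈ B i}).toHom, key⟩

/-- The five pairwise touching disjoint connected sets. -/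
def A (i : Fin 5) : Set (Fin 10) := {⟨i.1, by omega⟩, ⟨i.1 + 5, by omega⟩}

lemma A_conn (i : Fin 5) : H279R3.WConn G (A i) := by
  have hadj : G.Adj ⟨i.1, by omega⟩ ⟨i.1 + 5, by omega⟩ := by
    revert i; decide
  rintro x (rfl | rfl) y (rfl | rfl)
  · exact ⟨Walk.nil, by simp [A]⟩
  · exact ⟨Walk.cons hadj Walk.nil, by simp [A]⟩
  · exact ⟨Walk.cons hadj.symm Walk.nil, by simp [A]⟩
  · exact ⟨Walk.nil, by simp [A]⟩

lemma A_touch (i j : Fin 5) : i = j ∨ ∃ u ∈ A i, ∃ v ∈ A j, G.Adj u v := by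
  by_cases h : i = j
  · exact Or.inl h
  · right
    have : ∃ a b : Fin 2, G.Adj ⟨i.1 + 5 * a.1, by omega⟩ ⟨j.1 + 5 * b.1, by omega⟩ := by
      revert i j; decide
    obtain ⟨a, b, hab⟩ := this
    refine ⟨_, ?_, _, ?_, hab⟩
    · fin_cases a <;> simp [A]
    · fin_cases b <;> simp [A]

/-- The negation of the preceding statement: For every finite graph G and all a, k: if G has a tree decomposition whose bags all have independence number at most a, and one whose bags all induce k-colorable subgraphs, then G has a tree decomposition with all bags of size at most a·k. -/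
theorem result :
    ¬ (∀ (V : Type) [Fintype V] (G : SimpleGraph V) (a k : ℕ),
      (∃ (n : ℕ) (T : SimpleGraph (Fin n)) (B : Fin n → Finset V),
        T.IsTree ∧
        (∀ u v : V, G.Adj u v → ∃ i, u ∈ B i ∧ v ∈ B i) ∧
        (∀ v : V, (T.induce {i : Fin n | v ∈ B i}).Connected) ∧
        (∀ i : Fin n, ∀ S : Finset V, S ⊆ B i → G.IsIndepSet (S : Set V) → S.card ≤ a)) →
      (∃ (n : ℕ) (T : SimpleGraph (Fin n)) (B : Fin n → Finset V),
        T.IsTree ∧
        (∀ u v : V, G.Adj u v → ∃ i, u ∈ B i ∧ v ∈ B i) ∧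
        (∀ v : V, (T.induce {i : Fin n | v ∈ B i}).Connected) ∧
        (∀ i : Fin n, (G.induce (B i : Set V)).Colorable k)) →
      (∃ (n : ℕ) (T : SimpleGraph (Fin n)) (B : Fin n → Finset V),
        T.IsTree ∧
        (∀ u v : V, G.Adj u v → ∃ i, u ∈ B i ∧ v ∈ B i) ∧
        (∀ v : V, (T.induce {i : Fin n | v ∈ B i}).Connected) ∧
        (∀ i : Fin n, (B i).card ≤ a * k))) := by
  intro H
  have h1 : ∃ (n : ℕ) (T : SimpleGraph (Fin n)) (B : Fin n → Finset (Fin 10)),
        T.IsTree ∧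
        (∀ u v : Fin 10, G.Adj u v → ∃ i, u ∈ B i ∧ v ∈ B i) ∧
        (∀ v : Fin 10, (T.induce {i : Fin n | v ∈ B i}).Connected) ∧
        (∀ i : Fin n, ∀ S : Finset (Fin 10), S ⊆ B i → G.IsIndepSet (S : Set (Fin 10)) → S.card ≤ 2) := by
    refine ⟨6, starGraph 0, B1, isTree_starGraph 0, by decide, ?_, ?_⟩
    · intro v
      apply star_induce_connected
      have : v ∈ B1 0 ∨ ∃ i, ∀ j, v ∈ B1 j ↔ j = i := by revert v; decide
      rcases this with h | ⟨i, h⟩
      · exact Or.inl h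
      · right
        refine ⟨i, Set.ext fun j => ?_⟩
        simpa using h j
    · intro i S hS hI
      have key : ∀ i : Fin 6, ∀ S ∈ (B1 i).powerset, (∀ u ∈ S, ∀ v ∈ S, u ≠ v → ¬ G.Adj u v) →
          S.card ≤ 2 := by decide +kernel
      exact key i S (Finset.mem_powerset.2 hS) (fun u hu v hv huv => hI hu hv huv)
  have h2 : ∃ (n : ℕ) (T : SimpleGraph (Fin n)) (B : Fin n → Finset (Fin 10)),
        T.IsTree ∧
        (∀ u v : Fin 10, G.Adj u v → ∃ i, u ∈ B i ∧ v ∈ B i) ∧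
        (∀ v : Fin 10, (T.induce {i : Fin n | v ∈ B i}).Connected) ∧
        (∀ i : Fin n, (G.induce (B i : Set (Fin 10))).Colorable 2) := by
    refine ⟨4, starGraph 0, B2, isTree_starGraph 0, by decide, ?_, ?_⟩
    · intro v
      apply star_induce_connected
      have : v ∈ B2 0 ∨ ∃ i, ∀ j, v ∈ B2 j ↔ j = i := by revert v; decide
      rcases this with h | ⟨i, h⟩
      · exact Or.inl h
      · right
        refine ⟨i, Set.ext fun j => ?_⟩
        simpa using h j
    · intro i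
      -- explicit 2-colourings of the four bags
      have key : ∃ c : Fin 4 → Fin 10 → Fin 2, ∀ i, ∀ u ∈ B2 i, ∀ v ∈ B2 i, G.Adj u v → c i u ≠ c i v := by
        refine ⟨![![0, 0, 0, 0, 1, 1, 1, 0, 1, 0], ![0, 0, 0, 0, 0, 1, 1, 1, 1, 1],
          ![0, 1, 0, 1, 0, 1, 0, 1, 0, 0], ![0, 1, 0, 0, 1, 1, 0, 0, 1, 0]], ?_⟩
        decide
      obtain ⟨c, hc⟩ := key
      exact ⟨Coloring.mk (fun x => c i x.1) (fun {x y} hxy => hc i x.1 x.2 y.1 y.2 hxy)⟩
  obtain ⟨n, T, B, hT, he, hv, hcard⟩ := H (Fin 10) G 2 2 h1 h2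
  have hm : ∀ a b : Fin 5, ({i | ∃ v ∈ A a, v ∈ B i} ∩ {i | ∃ v ∈ A b, v ∈ B i}).Nonempty := by
    intro a b
    rcases A_touch a b with rfl | ⟨u, hu, v, hv', huv⟩
    · obtain ⟨⟨i, hi⟩⟩ := (hv ⟨a.1, by omega⟩).nonempty
      exact ⟨i, ⟨_, Or.inl rfl, hi⟩, ⟨_, Or.inl rfl, hi⟩⟩
    · obtain ⟨i, hi, hj⟩ := he u v huv
      exact ⟨i, ⟨u, hu, hi⟩, ⟨v, hv', hj⟩⟩
  obtain ⟨t, ht⟩ := H279R3.helly hT (fun a : Fin 5 => {i | ∃ v ∈ A a, v ∈ B i})
    (fun a => H279R3.trace_conn he (fun v i j => walk_of_connected (hv v) i j) (A_conn a)) hm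
  simp only [Set.mem_ofPred_eq] at ht
  choose f hf hfB using ht
  have hinj : Function.Injective f := by
    intro a b hab
    have ha : (f a).1 % 5 = a.1 := by
      rcases hf a with h | h <;> rw [h] <;> simp
    have hb : (f b).1 % 5 = b.1 := by
      rcases hf b with h | h <;> rw [h] <;> simp
    apply Fin.ext
    rw [← ha, ← hb, hab]
  have h5 : (Finset.univ.image f).card = 5 := by
    rw [Finset.card_image_of_injective _ hinj]; simp
  have hsub : Finset.univ.image f ⊆ B t := by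
    intro x hx
    obtain ⟨a, _, rfl⟩ := Finset.mem_image.1 hx
    exact hfB a
  have := Finset.card_le_card hsub
  have := hcard t
  omega

end Pool.Agent.S11612
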