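import Pool.Statements.S11707
import Pool.Agent.N102.EPPA.Final

set_option autoImplicit false
open Classical
open Pool Pool.MP_d61016_co

namespace Pool.Agent.S11707

/-- Every finite three-graph A embeds as an induced substructure in some finite three-graph B such that every partial automorphism of A extends to an automorphism of B. -/
theorem result :
    ∀ (n : ℕ) (rA : Fin n → Fin n → Prop) (HA : Finset (Finset (Fin n))),
      (Equivalence rA ∧ (∀ a b c, rA a b ∨ rA b c ∨ rA a c) ∧
        (∀ e ∈ HA, e.card = 4 ∧ ∀ v ∈ e, (e.filter (fun w => rA v w)).card = 2) ∧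
        (∀ S : Finset (Fin n), S.card = 5 →
          (∀ v ∈ S, (S.filter (fun w => rA v w)).card ≤ 3) →
          Even (HA.filter (fun e => e ⊆ S)).card)) →
      ∃ (m : ℕ) (rB : Fin m → Fin m → Prop) (HB : Finset (Finset (Fin m))),
        (Equivalence rB ∧ (∀ a b c, rB a b ∨ rB b c ∨ rB a c) ∧
          (∀ e ∈ HB, e.card = 4 ∧ ∀ v ∈ e, (e.filter (fun w => rB v w)).card = 2) ∧
          (∀ S : Finset (Fin m), S.card = 5 →
            (∀ v ∈ S, (S.filter (fun w => rB v w)).card ≤ 3) →
            Even (HB.filter (fun e => e ⊆ S)).card)) ∧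
        ∃ f : Fin n ↪ Fin m,
          (∀ x y, rA x y ↔ rB (f x) (f y)) ∧
          (∀ e : Finset (Fin n), e ∈ HA ↔ e.map f ∈ HB) ∧
          ∀ (S : Finset (Fin n)) (p : Fin n → Fin n),
            Set.InjOn p (S : Set (Fin n)) →
            (∀ x ∈ S, ∀ y ∈ S, rA x y ↔ rA (p x) (p y)) →
            (∀ e ⊆ S, e ∈ HA ↔ e.image p ∈ HA) →
            ∃ σ : Fin m ≃ Fin m,
              (∀ x y, rB x y ↔ rB (σ x) (σ y)) ∧
              (∀ e : Finset (Fin m), e ∈ HB ↔ e.map σ.toEmbedding ∈ HB) ∧
              ∀ x ∈ S, σ (f x) = f (p x) := by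
  intro n rA HA hA
  obtain ⟨hEq, htwo, hH, hpar⟩ := hA
  -- the class map
  obtain ⟨c, hc⟩ : ∃ c : Fin n → Bool, ∀ x y, rA x y ↔ c x = c y := by
    by_cases hn : Nonempty (Fin n)
    · obtain ⟨a0⟩ := hn
      refine ⟨fun x => decide (rA a0 x), fun x y => ?_⟩
      simp only [decide_eq_decide]
      constructor
      · intro h
        exact ⟨fun h1 => hEq.trans h1 h, fun h1 => hEq.trans h1 (hEq.symm h)⟩
      · intro h
        rcases htwo a0 x y with h1 | h1 | h1
        · exact hEq.trans (hEq.symm h1) (h.1 h1)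
        · exact h1
        · exact hEq.trans (hEq.symm (h.2 h1)) h1
    · exact ⟨fun _ => true, fun x => absurd ⟨x⟩ hn⟩
  have hT : Pool.Agent.N102.EPPA.Three c HA := by
    refine ⟨fun E hE => (hH E hE).1, fun E hE v hv => ?_, fun S hS hS3 => ?_⟩
    · rw [← (hH E hE).2 v hv]
      congr 1
      ext w
      simp only [Finset.mem_filter, hc]
    · have h1 := hpar S hS (fun v hv => by
        refine le_trans (le_of_eq ?_) (hS3 v hv)
        congr 1
        ext w
        simp only [Finset.mem_filter, hc])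
      rw [← ZMod.natCast_eq_zero_iff_even,
        Pool.Agent.N102.EPPA.card_sub HA (fun E hE => (hH E hE).1) S hS] at h1
      rw [← h1]
      refine Finset.sum_congr rfl fun s _ => ?_
      congr
  obtain ⟨m, c', m', hsym, f, hf1, hf2, hf3⟩ := Pool.Agent.N102.EPPA.main n c HA hT
  have hmem : ∀ E : Finset (Fin m), E ∈ (Finset.univ.filter
      (fun E : Finset (Fin m) => Pool.Agent.N102.EPPA.IsHyp c' m' E)) ↔
      Pool.Agent.N102.EPPA.IsHyp c' m' E := fun E => by simp
  refine ⟨m, fun a b => c' a = c' b, Finset.univ.filter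
    (fun E : Finset (Fin m) => Pool.Agent.N102.EPPA.IsHyp c' m' E), ⟨⟨fun _ => rfl,
    fun h => h.symm, fun h h' => h.trans h'⟩, ?_, ?_, ?_⟩, f, ?_, ?_, ?_⟩
  · intro a b d
    have key : ∀ x y z : Bool, x = y ∨ y = z ∨ x = z := by decide
    exact key (c' a) (c' b) (c' d)
  · intro E hE
    have h1 := Pool.Agent.N102.EPPA.isHyp_card ((hmem E).1 hE)
    refine ⟨h1.1, fun v _ => ?_⟩
    cases hv : c' v with
    | true =>
      rw [← h1.2.1]
      congr 1
      ext w
      simp only [Finset.mem_filter, hv]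
      constructor
      · rintro ⟨h2, h3⟩; exact ⟨h2, h3.symm⟩
      · rintro ⟨h2, h3⟩; exact ⟨h2, h3.symm⟩
    | false =>
      rw [← h1.2.2]
      congr 1
      ext w
      simp only [Finset.mem_filter, hv]
      constructor
      · rintro ⟨h2, h3⟩; exact ⟨h2, h3.symm⟩
      · rintro ⟨h2, h3⟩; exact ⟨h2, h3.symm⟩
  · intro S hS hS3
    have key : ∀ b : Bool, (S.filter (fun v => c' v = b)).card ≤ 3 := by
      intro b
      by_cases hne : (S.filter (fun v => c' v = b)).Nonempty
      · obtain ⟨v, hv⟩ := hne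
        rw [Finset.mem_filter] at hv
        refine le_trans (le_of_eq ?_) (hS3 v hv.1)
        congr 1
        ext w
        simp only [Finset.mem_filter]
        rw [hv.2]
        constructor
        · rintro ⟨h2, h3⟩; exact ⟨h2, h3.symm⟩
        · rintro ⟨h2, h3⟩; exact ⟨h2, h3.symm⟩
      · rw [Finset.not_nonempty_iff_eq_empty] at hne
        rw [hne]
        simp
    exact Pool.Agent.N102.EPPA.parity _ hmem S hS (key true) (key false)
  · intro x y
    simp only [hf1, hc]
  · intro E
    rw [hmem]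
    exact hf2 E
  · intro S p hp hr hHp
    obtain ⟨σ, s, hσ1, hσ2, hσ3⟩ := hf3 S p hp (fun x hx y hy => by
      rw [← hc, ← hc]; exact hr x hx y hy) hHp
    refine ⟨σ, fun x y => ?_, fun E => ?_, hσ3⟩
    · simp only [hσ1]
      cases c' x <;> cases c' y <;> cases s <;> simp
    · rw [hmem, hmem]
      exact hσ2 E

end Pool.Agent.S11707
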