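import Pool.Statements.S11737
import Pool.Agent.N479.ER.Main

set_option autoImplicit false
open Pool Pool.MP_d7e043_co

namespace Pool.Agent.S11737

open Pool.Agent.N479.ER

lemma dist_sq_eq_sq {n : ℕ} (p q : EuclideanSpace ℝ (Fin n)) :
    dist p q ^ 2 = sq p.ofLp q.ofLp := by
  rw [EuclideanSpace.dist_sq_eq]
  simp [N479.ER.sq, Real.dist_eq, sq_abs]

lemma sq_comp {ι κ : Type} [Fintype ι] [Fintype κ] (e : κ ≃ ι) (u v : ι → ℝ) :
    sq (u ∘ e) (v ∘ e) = sq u v := by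
  unfold N479.ER.sq
  exact Equiv.sum_comp e (fun x => (u x - v x) ^ 2)

/-- If a finite set X in R^d is Ramsey (every r-colouring of some R^N has a monochromatic congruent copy), then X, placed in the hyperplane of R^(d+1), together with any point z off that hyperplane is also Ramsey. -/
theorem result :
    ∀ (d : ℕ) (X : Set (EuclideanSpace ℝ (Fin d))) (z : EuclideanSpace ℝ (Fin (d + 1))),
      X.Finite →
      (∀ r : ℕ, ∃ N : ℕ, ∀ c : EuclideanSpace ℝ (Fin N) → Fin r,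
        ∃ g : X → EuclideanSpace ℝ (Fin N), Isometry g ∧ ∀ x y : X, c (g x) = c (g y)) →
      z (Fin.last d) ≠ 0 →
      ∀ r : ℕ, ∃ N : ℕ, ∀ c : EuclideanSpace ℝ (Fin N) → Fin r,
        ∃ g : ({y : EuclideanSpace ℝ (Fin (d + 1)) |
                  y (Fin.last d) = 0 ∧ ∃ x ∈ X, ∀ i : Fin d, y (Fin.castSucc i) = x i}
                ∪ {z} : Set (EuclideanSpace ℝ (Fin (d + 1)))) → EuclideanSpace ℝ (Fin N),
          Isometry g ∧ ∀ x y, c (g x) = c (g y) := by
  intro d X z hX hR hz r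
  classical
  have hfin : Finite ↥X := hX
  have HX : ∀ (κ : Type) [Finite κ], ∃ (ι : Type) (_ : Fintype ι), ∀ c : (ι → ℝ) → κ,
      ∃ f : ↥X → ι → ℝ, (∀ a b, sq (f a) (f b) =
        sq (a : EuclideanSpace ℝ (Fin d)).ofLp (b : EuclideanSpace ℝ (Fin d)).ofLp) ∧
        ∀ a b, c (f a) = c (f b) := by
    intro κ _
    obtain ⟨N, hN⟩ := hR (Nat.card κ)
    refine ⟨Fin N, inferInstance, fun c => ?_⟩
    obtain ⟨g, gi, gc⟩ := hN (fun p => Finite.equivFin κ (c p.ofLp))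
    refine ⟨fun a => (g a).ofLp, fun a b => ?_, fun a b => ?_⟩
    · rw [← dist_sq_eq_sq, ← dist_sq_eq_sq, gi.dist_eq]
      rfl
    · exact (Finite.equivFin κ).injective (gc a b)
  obtain ⟨ι, iι, H⟩ := main (κ := Fin r) (fun a : ↥X => (a : EuclideanSpace ℝ (Fin d)).ofLp)
    (fun i : Fin d => z (Fin.castSucc i)) (z (Fin.last d) ^ 2) (by positivity) HX r
  refine ⟨Fintype.card ι, fun c => ?_⟩
  let e := Fintype.equivFin ι
  obtain ⟨f, fd, fc⟩ := H (fun u => c (WithLp.toLp 2 (u ∘ e.symm))) (by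
    refine (Set.ncard_le_ncard (Set.subset_univ _) (Set.toFinite _)).trans ?_
    rw [Set.ncard_univ, Nat.card_eq_fintype_card, Fintype.card_fin])
  have ho : ∀ p : ({y : EuclideanSpace ℝ (Fin (d + 1)) |
                  y (Fin.last d) = 0 ∧ ∃ x ∈ X, ∀ i : Fin d, y (Fin.castSucc i) = x i}
                ∪ {z} : Set (EuclideanSpace ℝ (Fin (d + 1)))), ∃ o : Option ↥X,
      (o = none ∧ (p : EuclideanSpace ℝ (Fin (d + 1))) = z) ∨
      (∃ a : ↥X, o = some a ∧ (p : EuclideanSpace ℝ (Fin (d + 1))) (Fin.last d) = 0 ∧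
        ∀ i : Fin d, (p : EuclideanSpace ℝ (Fin (d + 1))) (Fin.castSucc i) =
          (a : EuclideanSpace ℝ (Fin d)) i) := by
    rintro ⟨p, hp⟩
    rcases hp with ⟨h0, x, hx, h⟩ | h
    · exact ⟨some ⟨x, hx⟩, Or.inr ⟨⟨x, hx⟩, rfl, h0, h⟩⟩
    · exact ⟨none, Or.inl ⟨rfl, h⟩⟩
  choose o ho using ho
  refine ⟨fun p => WithLp.toLp 2 (f (o p) ∘ e.symm), Isometry.of_dist_eq fun p p' => ?_,
    fun p p' => fc _ _⟩
  have h2 : dist (WithLp.toLp 2 (f (o p) ∘ e.symm) : EuclideanSpace ℝ (Fin (Fintype.card ι)))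
      (WithLp.toLp 2 (f (o p') ∘ e.symm)) ^ 2 = dist p p' ^ 2 := by
    rw [dist_sq_eq_sq, sq_comp e.symm, fd, Subtype.dist_eq, dist_sq_eq_sq]
    unfold N479.ER.sq
    rw [Fin.sum_univ_castSucc]
    rcases ho p with ⟨h1, h1'⟩ | ⟨a, h1, h1', h1''⟩
    · rcases ho p' with ⟨h2, h2'⟩ | ⟨a', h2, h2', h2''⟩
      · rw [h1, h2, h1', h2']
        simp [DT]
      · rw [h1, h2, h1']
        simp only [DT, N479.ER.sq, h2', h2'']
        congr 1
        · exact Finset.sum_congr rfl fun i _ => by ring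
        · ring
    · rcases ho p' with ⟨h2, h2'⟩ | ⟨a', h2, h2', h2''⟩
      · rw [h1, h2, h2']
        simp only [DT, N479.ER.sq, h1', h1'']
        congr 1
        ring
      · rw [h1, h2]
        simp only [DT, N479.ER.sq, h1', h1'', h2', h2'']
        simp
  exact (sq_eq_sq₀ dist_nonneg dist_nonneg).mp h2

end Pool.Agent.S11737
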