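import Pool.Statements.S11840
-- import your own Pool.Agent.* helpers here
import Pool.Agent.N398.Rec

set_option autoImplicit false
open Pool Pool.MP_dbfea9_co

namespace Pool.Agent.S11840

/-- The negation of the preceding statement: There is c>0 such that every finite planar graph of treewidth at most 4 on n vertices has a vertex set S of size at least cn such that every plane point set of size ∣S∣ is the image of S in some straight-line crossing-free drawing. -/
theorem result :
    ¬ (∃ c : ℝ, 0 < c ∧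
      ∀ (V : Type) [Fintype V] [DecidableEq V] (G : SimpleGraph V),
        (∃ f : V → ℝ × ℝ, Function.Injective f ∧
          (∀ u v w : V, G.Adj u v → w ≠ u → w ≠ v → f w ∉ segment ℝ (f u) (f v)) ∧
          (∀ u v x y : V, G.Adj u v → G.Adj x y → ¬(u = x ∧ v = y) → ¬(u = y ∧ v = x) →
            ∀ p ∈ segment ℝ (f u) (f v), p ∈ segment ℝ (f x) (f y) →
              p ∈ f '' (({u, v} : Set V) ∩ {x, y}))) →
        (∃ (m : ℕ) (T : SimpleGraph (Fin m)) (bag : Fin m → Finset V),
          T.IsTree ∧ (∀ i, (bag i).card ≤ 5) ∧ (∀ v, ∃ i, v ∈ bag i) ∧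
          (∀ u v, G.Adj u v → ∃ i, u ∈ bag i ∧ v ∈ bag i) ∧
          (∀ v, (T.induce {i | v ∈ bag i}).Connected)) →
        ∃ S : Finset V, c * (Fintype.card V : ℝ) ≤ (S.card : ℝ) ∧
          ∀ P : Finset (ℝ × ℝ), P.card = S.card →
            ∃ f : V → ℝ × ℝ, Function.Injective f ∧
              (∀ u v w : V, G.Adj u v → w ≠ u → w ≠ v → f w ∉ segment ℝ (f u) (f v)) ∧
              (∀ u v x y : V, G.Adj u v → G.Adj x y → ¬(u = x ∧ v = y) → ¬(u = y ∧ v = x) →
                ∀ p ∈ segment ℝ (f u) (f v), p ∈ segment ℝ (f x) (f y) →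
                  p ∈ f '' (({u, v} : Set V) ∩ {x, y})) ∧
              S.image f = P) := by
  classical
  rintro ⟨c, hc, H⟩
  obtain ⟨V, iV, A, B, hA, hB, hlt⟩ := N398.exists_piece c hc
  let G : SimpleGraph (N398.W V) := ⟨A, ⟨hA.sy⟩, ⟨hA.irr⟩⟩
  have hne : ∀ x y, A x y → x ≠ y := by
    rintro x y hxy rfl
    exact hA.irr x hxy
  obtain ⟨S, hS, hP⟩ := H (N398.W V) G (by
    obtain ⟨f, hf, _, _⟩ := hA.dr
    refine ⟨f, hf.inj, hf.d1, ?_⟩
    intro u v x y huv hxy h1 h2 p hp hp'
    obtain ⟨w, hw1, hw2, hw3⟩ := N398.meet hA.sy hne hf huv hxy h1 h2 hp hp'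
    exact ⟨w, ⟨hw1, hw2⟩, hw3.symm⟩) (N398.tw_td hA.tw)
  -- points on the horizontal axis
  let P : Finset (ℝ × ℝ) := (Finset.range S.card).image (fun i : ℕ => ((i : ℝ), (0 : ℝ)))
  have hPc : P.card = S.card := by
    have hinj : Function.Injective (fun i : ℕ => ((i : ℝ), (0 : ℝ))) := by
      intro i j hij
      have h' : (i : ℝ) = (j : ℝ) := congrArg Prod.fst hij
      exact_mod_cast h'
    rw [Finset.card_image_of_injective _ hinj, Finset.card_range]
  obtain ⟨f, hinj, hd1, hd2, him⟩ := hP P hPc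
  have hD : Helper745.FSub.Drw A f := by
    refine ⟨hinj, hd1, ?_⟩
    intro u v x y huv hxy h1 h2 h3 h4
    rw [Set.disjoint_left]
    intro p hp hp'
    obtain ⟨w, ⟨hw1, hw2⟩, _⟩ := hd2 u v x y huv hxy (fun h => h1 h.1) (fun h => h2 h.1) p hp hp'
    rcases hw1 with rfl | hw1
    · rcases hw2 with rfl | hw2
      · exact h1 rfl
      · exact h2 hw2
    · rcases hw2 with rfl | hw2
      · exact h3 hw1.symm
      · exact h4 (hw1.symm.trans hw2)
  have hz : ∀ x ∈ S, (f x).2 = 0 := by
    intro x hx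
    have : f x ∈ P := by rw [← him]; exact Finset.mem_image_of_mem f hx
    obtain ⟨i, _, hi⟩ := Finset.mem_image.1 this
    rw [← hi]
  have hcard : S.card ≤ 3 + B := by
    have h1 : S.card ≤ ∑ x : N398.W V, if (f x).2 = 0 then 1 else 0 := by
      rw [← Finset.card_filter]
      apply Finset.card_le_card
      intro x hx
      exact Finset.mem_filter.2 ⟨Finset.mem_univ _, hz x hx⟩
    rw [Fintype.sum_sum_type] at h1
    have h2 : (∑ c : Fin 3, if (f (Sum.inl c)).2 = 0 then 1 else 0) ≤ 3 := by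
      refine (Finset.sum_le_card_nsmul _ _ 1 (fun c _ => by split_ifs <;> simp)).trans ?_
      simp
    have h3 : (∑ v : V, if (f (Sum.inr v)).2 = 0 then 1 else 0) ≤ B := hB f hD
    omega
  have hcV : Fintype.card (N398.W V) = 3 + Fintype.card V := by
    simp [N398.W]
  rw [hcV] at hS
  have : (S.card : ℝ) ≤ 3 + B := by exact_mod_cast hcard
  push_cast at hS
  linarith

end Pool.Agent.S11840
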