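import Pool.Statements.S12030
import Pool.Agent.N348.EI3

set_option autoImplicit false
open Pool Pool.MP_e2957e_co

namespace Pool.Agent.S12030

/-- The negation of the preceding statement: There is an absolute C₁>0 such that any A⊂S_n of size c(n−1)! whose transposition-graph edge boundary is at most ∣A∣(n!−∣A∣)/(n−1)!+δn∣A∣ lies within symmetric difference C₁cδ(n−1)! of a union of c distinct 1-cosets {σ: σ(i)=j}. -/
theorem result :
    ¬ (∃ C₁ : ℝ, 0 < C₁ ∧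
      ∀ (n : ℕ), 1 ≤ n →
      ∀ (c : ℕ) (δ : ℝ), 0 ≤ δ →
      ∀ A : Finset (Equiv.Perm (Fin n)),
        A.card = c * Nat.factorial (n - 1) →
        ((((A ×ˢ (Finset.univ.filter (fun p : Fin n × Fin n => p.1 < p.2))).filter
            (fun x => x.1 * Equiv.swap x.2.1 x.2.2 ∉ A)).card : ℕ) : ℝ)
          ≤ (A.card : ℝ) * ((Nat.factorial n : ℝ) - (A.card : ℝ)) / (Nat.factorial (n - 1) : ℝ)
            + δ * (n : ℝ) * (A.card : ℝ) →
        ∃ P : Finset (Fin n × Fin n), P.card = c ∧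
          ((symmDiff A (Finset.univ.filter (fun σ : Equiv.Perm (Fin n) => ∃ p ∈ P, σ p.1 = p.2))).card : ℝ)
            ≤ C₁ * (c : ℝ) * δ * (Nat.factorial (n - 1) : ℝ)) := by
  rintro ⟨C, hC, h⟩
  obtain ⟨q, hq⟩ : ∃ q : ℕ, q = ⌈2 * C⌉₊ + 2 := ⟨_, rfl⟩
  obtain ⟨m, hm⟩ : ∃ m : ℕ, m = q * q + 2 * q + 1 := ⟨_, rfl⟩
  have hq2 : 2 * q + 1 ≤ m := by nlinarith
  have hq3 : q * q ≤ m + 1 := by nlinarith
  have hcard := Pool.Agent.N348.EI.card_A (m := m)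
  have hbd := Pool.Agent.N348.EI.card_bd (m := m)
  have f3 : (Nat.factorial (m + 3) : ℝ) = (m + 3) * Nat.factorial (m + 2) := by
    rw [Nat.factorial_succ (m + 2)]; push_cast; ring
  have f2 : (Nat.factorial (m + 2) : ℝ) = (m + 2) * Nat.factorial (m + 1) := by
    rw [Nat.factorial_succ (m + 1)]; push_cast; ring
  have f1 : (0 : ℝ) < Nat.factorial (m + 1) := by exact_mod_cast Nat.factorial_pos _
  have f2p : (0 : ℝ) < Nat.factorial (m + 2) := by exact_mod_cast Nat.factorial_pos _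
  have hmr : (0 : ℝ) ≤ m := Nat.cast_nonneg m
  obtain ⟨P, hP, hPs⟩ := h (m + 3) (by omega) (m + 1) (2 / ((m + 3 : ℝ) * (m + 2 : ℝ)))
    (by positivity) (Pool.Agent.N348.EI.A m) (by rw [hcard]; rfl) (by
      have h1 : (((Pool.Agent.N348.EI.bd m).card : ℕ) : ℝ) ≤
          2 * ((Pool.Agent.N348.EI.A m).card : ℝ) + 2 * ((m : ℝ) + 1) * (Nat.factorial (m + 1) : ℝ) := by
        exact_mod_cast hbd
      refine le_trans h1 (le_of_eq ?_)
      have h2 : ((Pool.Agent.N348.EI.A m).card : ℝ) = ((m : ℝ) + 1) * Nat.factorial (m + 2) := by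
        rw [hcard]; push_cast; ring
      rw [h2, f3, show m + 3 - 1 = m + 2 by omega, f2]
      push_cast
      field_simp
      ring)
  have hlarge := Pool.Agent.N348.EI.symmDiff_large P hP q hq2 hq3
  have h3 : ((q - 1 : ℕ) : ℝ) * (Nat.factorial (m + 1) : ℝ) ≤
      C * ((m + 1 : ℕ) : ℝ) * (2 / ((m + 3 : ℝ) * (m + 2 : ℝ))) * (Nat.factorial (m + 3 - 1) : ℝ) := by
    refine le_trans ?_ hPs
    exact_mod_cast hlarge
  rw [show m + 3 - 1 = m + 2 by omega, f2] at h3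
  have h4 : C * ((m + 1 : ℕ) : ℝ) * (2 / ((m + 3 : ℝ) * (m + 2 : ℝ))) *
      (((m : ℝ) + 2) * (Nat.factorial (m + 1) : ℝ)) =
      (2 * C * (((m : ℝ) + 1) / ((m : ℝ) + 3))) * (Nat.factorial (m + 1) : ℝ) := by
    push_cast
    field_simp
  rw [h4] at h3
  have h5 : ((q - 1 : ℕ) : ℝ) ≤ 2 * C * (((m : ℝ) + 1) / ((m : ℝ) + 3)) :=
    le_of_mul_le_mul_right h3 f1
  have h6 : ((m : ℝ) + 1) / ((m : ℝ) + 3) ≤ 1 := by
    rw [div_le_one (by positivity)]; linarith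
  have h7 : 2 * C * (((m : ℝ) + 1) / ((m : ℝ) + 3)) ≤ 2 * C := by
    nlinarith
  have h8 : 2 * C ≤ ⌈2 * C⌉₊ := Nat.le_ceil _
  have h9 : ((q - 1 : ℕ) : ℝ) = (⌈2 * C⌉₊ : ℝ) + 1 := by
    rw [hq, show ⌈2 * C⌉₊ + 2 - 1 = ⌈2 * C⌉₊ + 1 by omega]; push_cast; ring
  linarith

end Pool.Agent.S12030
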