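import Pool.Statements.S12199
import Pool.Agent.N463.RT2

set_option autoImplicit false
open Pool Pool.MP_ea35a0_co

namespace Pool.Agent.S12199

/-- For every ε>0, every connected graph with enough edges m has simple-random-walk relaxation time (degree-weighted variance over edge Dirichlet form) at most (1+ε)·2m²/π², i.e. the path is asymptotically extremal. -/
theorem result :
    ∀ ε : ℝ, ε > 0 → ∃ M : ℕ, ∀ (n : ℕ) (G : SimpleGraph (Fin n)) [DecidableRel G.Adj],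
      G.Connected → M ≤ G.edgeFinset.card →
      ∀ f : Fin n → ℝ, ∃ c : ℝ,
        ∑ v, (G.degree v : ℝ) * (f v - c) ^ 2 ≤
          (1 + ε) * (2 * (G.edgeFinset.card : ℝ) ^ 2 / Real.pi ^ 2) *
            ((1 / 2 : ℝ) * ∑ u, ∑ v, (if G.Adj u v then (f u - f v) ^ 2 else 0)) := by
  intro ε hε
  obtain ⟨M, hM⟩ := Pool.Agent.N463.RT.constant ε hε
  refine ⟨M, ?_⟩
  intro n G _ hconn hm f
  obtain ⟨c, hc⟩ := Pool.Agent.N463.RT.two_sided G f hconn
  refine ⟨c, ?_⟩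
  have h1 := hM _ hm
  have hA : 0 ≤ ∑ v, (G.degree v : ℝ) * (f v - c) ^ 2 :=
    Finset.sum_nonneg (fun v _ => mul_nonneg (Nat.cast_nonneg _) (sq_nonneg _))
  have h2 : 0 ≤ (1 + ε) * (2 * (G.edgeFinset.card : ℝ) ^ 2 / Real.pi ^ 2) := by
    have := Real.pi_pos
    positivity
  calc ∑ v, (G.degree v : ℝ) * (f v - c) ^ 2
      = 1 * ∑ v, (G.degree v : ℝ) * (f v - c) ^ 2 := (one_mul _).symm
    _ ≤ ((1 + ε) * (2 * (G.edgeFinset.card : ℝ) ^ 2 / Real.pi ^ 2) *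
          (1 - Real.cos (Real.pi / (2 * ((G.edgeFinset.card / 2 + 1 : ℕ) : ℝ))))) *
          ∑ v, (G.degree v : ℝ) * (f v - c) ^ 2 := mul_le_mul_of_nonneg_right h1 hA
    _ = (1 + ε) * (2 * (G.edgeFinset.card : ℝ) ^ 2 / Real.pi ^ 2) *
          ((1 - Real.cos (Real.pi / (2 * ((G.edgeFinset.card / 2 + 1 : ℕ) : ℝ)))) *
          ∑ v, (G.degree v : ℝ) * (f v - c) ^ 2) := by ring
    _ ≤ _ := mul_le_mul_of_nonneg_left hc h2


end Pool.Agent.S12199
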