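import Pool.Statements.S12220
import Pool.Agent.N475.EF.Inst2
-- import your own Pool.Agent.* helpers here

set_option autoImplicit false
open Pool Pool.MP_eb1b1c_co

namespace Pool.Agent.S12220

/-- The negation of the preceding statement: Every finite graph in which each 2-colouring of the edges has a monochromatic triangle contains, as a subgraph, K5 minus the three edges 01, 23, 34 (the complement of P2 ∪ P3). -/
theorem result :
    ¬ (∀ n : ℕ, ∀ G : SimpleGraph (Fin n),
      (∀ c : Fin n → Fin n → Bool, (∀ x y : Fin n, G.Adj x y → c x y = c y x) →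
        ∃ x y z : Fin n,
          G.Adj x y ∧ G.Adj y z ∧ G.Adj x z ∧
          c x y = c y z ∧ c y z = c x z) →
      ∃ f : Fin 5 → Fin n, Function.Injective f ∧
        ∀ i j : Fin 5, i ≠ j →
          ¬ ((i = 0 ∧ j = 1) ∨ (i = 1 ∧ j = 0) ∨ (i = 2 ∧ j = 3) ∨
             (i = 3 ∧ j = 2) ∨ (i = 3 ∧ j = 4) ∨ (i = 4 ∧ j = 3)) →
          G.Adj (f i) (f j)) := by
  intro hall
  obtain ⟨V, _, G, hG1, hG2⟩ := Pool.Agent.N475.EF.folkman
  let e : V ≃ Fin (Fintype.card V) := Fintype.equivFin V
  obtain ⟨f, hf, hadj⟩ := hall (Fintype.card V) (G.comap e.symm) (by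
    intro c hc
    obtain ⟨x, y, z, h1, h2, h3, h4, h5⟩ := hG1 (fun v w => c (e v) (e w)) (by
      intro v w hvw
      refine hc (e v) (e w) ?_
      rw [SimpleGraph.comap_adj, e.symm_apply_apply, e.symm_apply_apply]
      exact hvw)
    refine ⟨e x, e y, e z, ?_, ?_, ?_, h4, h5⟩
    · rw [SimpleGraph.comap_adj, e.symm_apply_apply, e.symm_apply_apply]
      exact h1
    · rw [SimpleGraph.comap_adj, e.symm_apply_apply, e.symm_apply_apply]
      exact h2
    · rw [SimpleGraph.comap_adj, e.symm_apply_apply, e.symm_apply_apply]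
      exact h3)
  have hinj : Function.Injective fun i => e.symm (f i) := e.symm.injective.comp hf
  refine hG2 ⟨e.symm (f 2), e.symm (f 4), e.symm (f 0), e.symm (f 1), e.symm (f 3),
    ⟨?_, ?_, ?_, ?_, ?_, ?_, ?_⟩, ?_, ?_, ?_⟩
  · exact hadj 2 4 (by decide) (by decide)
  · exact hadj 2 0 (by decide) (by decide)
  · exact hadj 4 0 (by decide) (by decide)
  · exact hadj 2 1 (by decide) (by decide)
  · exact hadj 4 1 (by decide) (by decide)
  · exact hadj 0 3 (by decide) (by decide)
  · exact hadj 1 3 (by decide) (by decide)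
  · intro h
    exact absurd (hinj h) (by decide)
  · intro h
    exact absurd (hinj h) (by decide)
  · intro h
    exact absurd (hinj h) (by decide)

end Pool.Agent.S12220
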