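import Pool.Statements.S12391
import Pool.Agent.N227.MaeharaGeo

set_option autoImplicit false
open Pool Pool.MP_f35a22_co

namespace Pool.Agent.S12391

open Pool.Agent.N227.Maehara

/-- Five members of the family have a common point. -/
theorem fiveS (S : Set (EuclideanSpace ℝ (Fin 3)))
    (h4 : ∀ T : Set (EuclideanSpace ℝ (Fin 3)), T ⊆ S → T.encard = 4 →
        ∃ p : EuclideanSpace ℝ (Fin 3), ∀ c ∈ T, p ∈ Metric.sphere c 1)
    (c : Fin 5 → EuclideanSpace ℝ (Fin 3)) (hc : Function.Injective c) (hS : ∀ i, c i ∈ S) :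
    ∃ x : EuclideanSpace ℝ (Fin 3), ∀ j, dist x (c j) = 1 := by
  apply five
  intro i
  obtain ⟨x, hx⟩ := h4 (c '' {j | j ≠ i}) (by rintro _ ⟨j, -, rfl⟩; exact hS j) (by
    rw [hc.encard_image]
    have : ({j | j ≠ i} : Set (Fin 5)) = ((Finset.univ.erase i : Finset (Fin 5)) : Set (Fin 5)) := by
      ext j; simp
    rw [this, Set.encard_coe_eq_coe_finsetCard, Finset.card_erase_of_mem (Finset.mem_univ i)]
    simp)
  exact ⟨x, fun j hj => by
    have := hx (c j) ⟨j, hj, rfl⟩
    rwa [Metric.mem_sphere] at this⟩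

/-- For any set of at least 5 distinct centers in 3-space, if every 4 of the unit spheres around them share a common point, then one point lies on all of these unit spheres. -/
theorem result :
    ∀ S : Set (EuclideanSpace ℝ (Fin 3)),
      5 ≤ S.encard →
      (∀ T : Set (EuclideanSpace ℝ (Fin 3)), T ⊆ S → T.encard = 4 →
        ∃ p : EuclideanSpace ℝ (Fin 3), ∀ c ∈ T, p ∈ Metric.sphere c 1) →
      ∃ p : EuclideanSpace ℝ (Fin 3), ∀ c ∈ S, p ∈ Metric.sphere c 1 := by
  intro S hS5 h4
  by_contra hcon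
  push Not at hcon
  obtain ⟨T, hTS, hT⟩ := Set.exists_subset_encard_eq (s := S) (k := 4)
    (le_trans (by norm_num) hS5)
  obtain ⟨p, hp⟩ := h4 T hTS hT
  have hTfin : T.Finite := Set.finite_of_encard_eq_coe (k := 4) hT
  obtain ⟨f, hf⟩ : ∃ f : Fin 4 → EuclideanSpace ℝ (Fin 3), Function.Injective f ∧ ∀ i, f i ∈ T := by
    have hcard : hTfin.toFinset.card = 4 := by
      have h1 := hTfin.encard_eq_coe_toFinset_card
      rw [hT] at h1
      exact_mod_cast h1.symm
    let e := (hTfin.toFinset.equivFinOfCardEq hcard).symm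
    refine ⟨fun i => (e i : EuclideanSpace ℝ (Fin 3)), ?_, ?_⟩
    · exact Subtype.val_injective.comp e.injective
    · intro i
      exact hTfin.mem_toFinset.1 (e i).2
  obtain ⟨hfi, hfT⟩ := hf
  have hpf : ∀ i, dist p (f i) = 1 := fun i => Metric.mem_sphere.1 (hp _ (hfT i))
  obtain ⟨c5, hc5S, hc5⟩ := hcon p
  rw [Metric.mem_sphere] at hc5
  have hne5 : ∀ i, c5 ≠ f i := by
    rintro i rfl
    exact hc5 (hpf i)
  obtain ⟨q, hq⟩ := fiveS S h4 (Fin.snoc (α := fun _ => EuclideanSpace ℝ (Fin 3)) f c5)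
    (by
      rw [Fin.snoc_injective_iff]
      exact ⟨hfi, by rintro ⟨i, hi⟩; exact hne5 i hi.symm⟩)
    (by
      intro i
      refine Fin.lastCases ?_ (fun j => ?_) i
      · simpa only [Fin.snoc_last] using hc5S
      · simpa using hTS (hfT j))
  have hqf : ∀ i : Fin 4, dist q (f i) = 1 := by
    intro i
    simpa using hq i.castSucc
  have hq5 : dist q c5 = 1 := by simpa only [Fin.snoc_last] using hq (Fin.last 4)
  obtain ⟨c6, hc6S, hc6⟩ := hcon q
  rw [Metric.mem_sphere] at hc6
  have hne6 : ∀ i, c6 ≠ f i := by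
    rintro i rfl
    exact hc6 (hqf i)
  have hne65 : c6 ≠ c5 := by
    rintro rfl
    exact hc6 hq5
  have hg : ∀ i j : Fin 3, f i.castSucc = f j.castSucc → i = j := by
    intro i j h
    exact Fin.castSucc_injective _ (hfi h)
  obtain ⟨r, hr⟩ := fiveS S h4 ![f 0, f 1, f 2, c5, c6]
    (by
      intro i j hij
      have n01 : f 0 ≠ f 1 := fun h => absurd (hfi h) (by decide)
      have n02 : f 0 ≠ f 2 := fun h => absurd (hfi h) (by decide)
      have n12 : f 1 ≠ f 2 := fun h => absurd (hfi h) (by decide)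
      have m0 := hne5 0
      have m1 := hne5 1
      have m2 := hne5 2
      have k0 := hne6 0
      have k1 := hne6 1
      have k2 := hne6 2
      fin_cases i <;> fin_cases j <;> simp_all [eq_comm])
    (by
      intro i
      fin_cases i
      · exact hTS (hfT 0)
      · exact hTS (hfT 1)
      · exact hTS (hfT 2)
      · exact hc5S
      · exact hc6S)
  have hr0 := hr 0
  have hr1 := hr 1
  have hr2 := hr 2
  have hr3 := hr 3
  have hr4 := hr 4
  simp at hr0 hr1 hr2 hr3 hr4
  have hpq : p ≠ q := by rintro rfl; exact hc5 hq5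
  have hpr : p ≠ r := by rintro rfl; exact hc5 hr3
  have hqr : q ≠ r := by rintro rfl; exact hc6 hr4
  refine nine ![f 0, f 1, f 2] ![p, q, r] ?_ ?_ ?_
  · intro i j hij
    have n01 : f 0 ≠ f 1 := fun h => absurd (hfi h) (by decide)
    have n02 : f 0 ≠ f 2 := fun h => absurd (hfi h) (by decide)
    have n12 : f 1 ≠ f 2 := fun h => absurd (hfi h) (by decide)
    fin_cases i <;> fin_cases j <;> simp_all [eq_comm]
  · intro i j hij
    fin_cases i <;> fin_cases j <;> simp_all [eq_comm]
  · intro i j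
    fin_cases i <;> fin_cases j
    · exact hpf 0
    · exact hpf 1
    · exact hpf 2
    · exact hqf 0
    · exact hqf 1
    · exact hqf 2
    · exact hr0
    · exact hr1
    · exact hr2

end Pool.Agent.S12391
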