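import Pool.Statements.S12534
import Pool.Agent.N684.CY.B

set_option autoImplicit false
open Pool Pool.MP_fa745a_co

namespace Pool.Agent.S12534

/-- The negation of the preceding statement: Every finite graph with no induced odd cycle of length 7 or more has at least χ(G) disjoint, pairwise adjacent, connected vertex sets of size at most 2 (a clique model), i.e. had₂(G) ≥ χ(G). -/
theorem result :
    ¬ (∀ (n : ℕ) (G : SimpleGraph (Fin n)),
    (∀ k : ℕ, 3 ≤ k →
      IsEmpty (SimpleGraph.Embedding (SimpleGraph.cycleGraph (2 * k + 1)) G)) →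
    ∃ (t : ℕ) (B : Fin t → Finset (Fin n)),
      G.chromaticNumber ≤ (t : ℕ∞) ∧
      (∀ i, (B i).Nonempty ∧ (B i).card ≤ 2 ∧
        ∀ u ∈ B i, ∀ v ∈ B i, u ≠ v → G.Adj u v) ∧
      (∀ i j, i ≠ j → Disjoint (B i) (B j) ∧
        ∃ u ∈ B i, ∃ v ∈ B j, G.Adj u v)) := by
  intro H
  obtain ⟨t, B, hchi, h1, h2⟩ := H 19 N684.CY.G (fun k hk => N684.CY.lof_G k hk)
  have hcol : N684.CY.G.Colorable t := SimpleGraph.chromaticNumber_le_iff_colorable.1 hchi
  have ht : 7 ≤ t := by
    by_contra hlt
    exact N684.CY.not_col (hcol.mono (by omega))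
  exact N684.CY.no_model (fun i => B (Fin.castLE ht i)) (fun i => h1 _)
    (fun i j hij => h2 _ _ (fun e => hij (Fin.castLE_injective ht e)))

end Pool.Agent.S12534
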