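import Pool.Statements.S12606
import Pool.Agent.Results.MP_fd346d_co.Disproof

set_option autoImplicit false
open scoped Classical
open Pool Pool.MP_fd346d_co

namespace Pool.Agent.S12606

open Pool.Agent.Results.MP_fd346d_co.Disproof in
theorem realizable_iff (P : Type) [PartialOrder P] (d : ℕ) :
    Realizable P d ↔ ∃ r : Fin d → P → P → Prop,
        (∀ i, (∀ x, r i x x) ∧ (∀ x y z, r i x y → r i y z → r i x z) ∧
          (∀ x y, r i x y → r i y x → x = y) ∧ (∀ x y, r i x y ∨ r i y x)) ∧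
        ∀ x y, x ≤ y ↔ ∀ i, r i x y := by
  constructor
  · rintro ⟨L, hL, h1, h2⟩
    refine ⟨L, fun i => ?_, fun x y => ⟨fun h i => h1 i x y h, h2 x y⟩⟩
    have := hL i
    exact ⟨fun x => refl_of (L i) x, fun x y z => trans_of (L i),
      fun x y => antisymm_of (L i), fun x y => total_of (L i) x y⟩
  · rintro ⟨r, h1, h2⟩
    refine ⟨r, fun i => ?_, fun i x y h => (h2 x y).1 h i, fun x y h => (h2 x y).2 h⟩
    exact { refl := (h1 i).1, trans := (h1 i).2.1, antisymm := (h1 i).2.2.1,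
            total := (h1 i).2.2.2 }

open Pool.Agent.Results.MP_fd346d_co.Disproof in
theorem exists_realizable {P : Type} [PartialOrder P] (h : dim P ≠ ⊤) :
    ∃ d, Realizable P d := by
  by_contra hcon
  push Not at hcon
  apply h
  unfold dim
  simp [hcon]

open Pool.Agent.Results.MP_fd346d_co.Disproof in
theorem nontrivial_of_not_bdd {P : Type} [PartialOrder P] [Nonempty P] (h : ¬ IsBdd P) :
    Nontrivial P := by
  by_contra hcon
  rw [not_nontrivial_iff_subsingleton] at hcon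
  obtain ⟨p⟩ := ‹Nonempty P›
  exact h ⟨⟨p, fun x => le_of_eq (Subsingleton.elim _ _)⟩,
    ⟨p, fun x => le_of_eq (Subsingleton.elim _ _)⟩⟩

/-- The negation of the preceding statement: For all posets P, Q with at least two elements and finite dimension, dim P + dim Q ≤ dim(P×Q) + b, where b counts the factors lacking a least or greatest element; dimension means the least number of linear orders whose intersection is the order. -/
theorem result :
    ¬ (∀ (P Q : Type) [PartialOrder P] [PartialOrder Q], Nontrivial P → Nontrivial Q →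
      (∃ d : ℕ, ∃ r : Fin d → P → P → Prop,
        (∀ i, (∀ x, r i x x) ∧ (∀ x y z, r i x y → r i y z → r i x z) ∧
          (∀ x y, r i x y → r i y x → x = y) ∧ (∀ x y, r i x y ∨ r i y x)) ∧
        ∀ x y, x ≤ y ↔ ∀ i, r i x y) →
      (∃ d : ℕ, ∃ r : Fin d → Q → Q → Prop,
        (∀ i, (∀ x, r i x x) ∧ (∀ x y z, r i x y → r i y z → r i x z) ∧
          (∀ x y, r i x y → r i y x → x = y) ∧ (∀ x y, r i x y ∨ r i y x)) ∧
        ∀ x y, x ≤ y ↔ ∀ i, r i x y) →
      ∀ n : ℕ,
        (∃ r : Fin n → P × Q → P × Q → Prop,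
          (∀ i, (∀ x, r i x x) ∧ (∀ x y z, r i x y → r i y z → r i x z) ∧
            (∀ x y, r i x y → r i y x → x = y) ∧ (∀ x y, r i x y ∨ r i y x)) ∧
          ∀ x y, x ≤ y ↔ ∀ i, r i x y) →
        ∃ a c : ℕ,
          a + c ≤ n + ((if (∃ x : P, ∀ y, x ≤ y) ∧ (∃ x : P, ∀ y, y ≤ x) then 0 else 1) +
                       (if (∃ x : Q, ∀ y, x ≤ y) ∧ (∃ x : Q, ∀ y, y ≤ x) then 0 else 1)) ∧
          (∃ r : Fin a → P → P → Prop,
            (∀ i, (∀ x, r i x x) ∧ (∀ x y z, r i x y → r i y z → r i x z) ∧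
              (∀ x y, r i x y → r i y x → x = y) ∧ (∀ x y, r i x y ∨ r i y x)) ∧
            ∀ x y, x ≤ y ↔ ∀ i, r i x y) ∧
          (∃ r : Fin c → Q → Q → Prop,
            (∀ i, (∀ x, r i x x) ∧ (∀ x y z, r i x y → r i y z → r i x z) ∧
              (∀ x y, r i x y → r i y x → x = y) ∧ (∀ x y, r i x y ∨ r i y x)) ∧
            ∀ x y, x ≤ y ↔ ∀ i, r i x y)) := by
  intro h
  obtain ⟨P, Q, iP, iQ, fP, fQ, nP, nQ, dP, dQ, hb, hlt⟩ :=
    Pool.Agent.Results.MP_fd346d_co.Disproof.result 0 2 (Or.inr rfl)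
  have hb2 : ¬ Pool.Agent.Results.MP_fd346d_co.Disproof.IsBdd P ∧
      ¬ Pool.Agent.Results.MP_fd346d_co.Disproof.IsBdd Q := by
    unfold Pool.Agent.Results.MP_fd346d_co.Disproof.numUnbdd at hb
    by_cases h1 : Pool.Agent.Results.MP_fd346d_co.Disproof.IsBdd P
    · exfalso
      rw [if_pos h1] at hb
      split_ifs at hb <;> omega
    · by_cases h2 : Pool.Agent.Results.MP_fd346d_co.Disproof.IsBdd Q
      · exfalso
        rw [if_pos h2] at hb
        split_ifs at hb <;> omega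
      · exact ⟨h1, h2⟩
  have tP := nontrivial_of_not_bdd hb2.1
  have tQ := nontrivial_of_not_bdd hb2.2
  have hPQ : Pool.Agent.Results.MP_fd346d_co.Disproof.dim (P × Q) ≠ ⊤ := by
    intro hcon
    rw [hcon] at hlt
    simp at hlt
  obtain ⟨dp, hdp⟩ := exists_realizable dP
  obtain ⟨dq, hdq⟩ := exists_realizable dQ
  obtain ⟨dr, hdr⟩ := exists_realizable hPQ
  obtain ⟨n, hn, hn'⟩ := Pool.Agent.Results.MP_fd346d_co.Disproof.exists_dim_eq hdr
  obtain ⟨a, c, hac, ha, hc⟩ := h P Q tP tQ ⟨dp, (realizable_iff P dp).1 hdp⟩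
    ⟨dq, (realizable_iff Q dq).1 hdq⟩ n ((realizable_iff (P × Q) n).1 hn')
  have ha' := Pool.Agent.Results.MP_fd346d_co.Disproof.dim_le ((realizable_iff P a).2 ha)
  have hc' := Pool.Agent.Results.MP_fd346d_co.Disproof.dim_le ((realizable_iff Q c).2 hc)
  have hac' : a + c ≤ n + 2 := by
    refine hac.trans ?_
    split_ifs <;> omega
  rw [hn] at hlt
  have h5 : ((n : ℕ∞) + (2 : ℕ) + (0 : ℕ)) < (a : ℕ∞) + (c : ℕ∞) :=
    lt_of_lt_of_le hlt (add_le_add ha' hc')
  have h6 : n + 2 + 0 < a + c := by exact_mod_cast h5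
  omega

end Pool.Agent.S12606
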