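import Pool.Statements.S12629
import Pool.Agent.N91.LC.Game
import Pool.Agent.N91.LC.Chase4
import Pool.Agent.N348.LCcompact
import Pool.Agent.N55.LCRUN
import Pool.Agent.N505.LC.PHASE1
import Pool.Agent.N712.LCWINDOW
import Pool.Agent.N247.LCCW
import Pool.Agent.N457.LCFN
import Pool.Agent.N123.LCLOC
import Pool.Agent.N72.LCCLAIM
import Pool.Agent.N91.LC.TP

set_option autoImplicit false
open scoped NNReal
open Pool Pool.MP_fe87ae_co

namespace Pool.Agent.S12629

/-- There is a compact metric space with Lion and Christian start points where, in the unbounded-time game with 1-Lipschitz paths and no-lookahead strategies, neither the Lion nor the Christian has a winning strategy. -/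
theorem result :
    ∃ (M : Type) (_ : MetricSpace M), CompactSpace M ∧ ∃ (x₀ y₀ : M),
      (¬ ∃ F : (ℝ≥0 → M) → (ℝ≥0 → M),
          (∀ c : ℝ≥0 → M, LipschitzWith 1 c → c 0 = y₀ →
              LipschitzWith 1 (F c) ∧ F c 0 = x₀) ∧
          (∀ c c' : ℝ≥0 → M, LipschitzWith 1 c → c 0 = y₀ →
              LipschitzWith 1 c' → c' 0 = y₀ →
              ∀ t : ℝ≥0, (∀ s, s ≤ t → c s = c' s) → ∀ s, s ≤ t → F c s = F c' s) ∧
          (∀ c : ℝ≥0 → M, LipschitzWith 1 c → c 0 = y₀ → ∃ t : ℝ≥0, F c t = c t)) ∧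
      (¬ ∃ G : (ℝ≥0 → M) → (ℝ≥0 → M),
          (∀ l : ℝ≥0 → M, LipschitzWith 1 l → l 0 = x₀ →
              LipschitzWith 1 (G l) ∧ G l 0 = y₀) ∧
          (∀ l l' : ℝ≥0 → M, LipschitzWith 1 l → l 0 = x₀ →
              LipschitzWith 1 l' → l' 0 = x₀ →
              ∀ t : ℝ≥0, (∀ s, s ≤ t → l s = l' s) → ∀ s, s ≤ t → G l s = G l' s) ∧
          (∀ l : ℝ≥0 → M, LipschitzWith 1 l → l 0 = x₀ → ∀ t : ℝ≥0, G l t ≠ l t)) := by
  have hFN := Pool.Agent.N457.LCFN.fn
  have hFNG := Pool.Agent.N457.LCFN.fng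
  have hFNP := Pool.Agent.N457.LCFN.fnp
  have hLA := Pool.Agent.N123.LCLOC.la
  have hGP := Pool.Agent.N123.LCLOC.gpath
  have hCL := Pool.Agent.N72.LCCLAIM.claim hFNP hFNG hGP hLA
  have hCW := Pool.Agent.N247.LCCW.cw' hFN hFNP hFNG hGP hLA hCL Pool.Agent.N55.LCRUN.run
  have hW := Pool.Agent.N712.LCW.t_WINDOW hFNP
  have hP1 := Pool.Agent.N505.LCP.phase1 hFNP hGP hLA hW
  have hCH := Pool.Agent.N91.LC.chase Pool.Agent.N91.LC.tp hLA
  exact Pool.Agent.N91.LC.main_of Pool.Agent.N91.LC.compactX hCW (fun F hF => by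
    obtain ⟨l, ta, b, v, gw, gC, h⟩ := hP1 F hF
    exact hCH F hF l ta b v gw gC h)

end Pool.Agent.S12629
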