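import Pool.Statements.S12841
import Pool.Agent.N556.VB

set_option autoImplicit false
open Pool Pool.MP_1bae07_gt

namespace Pool.Agent.S12841

/-- There is an absolute constant C such that for every origin-centred zonotope K in ℝ^d and any finitely many vectors in K, some choice of signs puts their signed sum in C√d·K, i.e. vb(K,K) ≤ C√d. -/
theorem result :
    ∃ C : ℝ, 0 < C ∧
      ∀ (d m : ℕ) (v : Fin m → (Fin d → ℝ)) (n : ℕ) (u : Fin n → (Fin d → ℝ)),
        (∀ i, ∃ t : Fin m → ℝ, (∀ j, t j ∈ Set.Icc (-1 : ℝ) 1) ∧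
            u i = ∑ j, t j • v j) →
        ∃ ε : Fin n → ℝ, (∀ i, ε i = 1 ∨ ε i = -1) ∧
          ∃ s : Fin m → ℝ, (∀ j, s j ∈ Set.Icc (-1 : ℝ) 1) ∧
            ∑ i, ε i • u i = (C * Real.sqrt d) • ∑ j, s j • v j := by
  obtain ⟨C, hC, h⟩ := Pool.Agent.N556.VB.main
  refine ⟨C, hC, fun d m v n u hu => ?_⟩
  let L := (WithLp.linearEquiv 2 ℝ (Fin d → ℝ)).symm
  obtain ⟨ε, hε, z, ⟨s, hs, hz⟩, hsum⟩ := h d m (fun j => L (v j)) n (fun i => L (u i)) (by
    intro i
    obtain ⟨t, ht, hti⟩ := hu i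
    exact ⟨t, ht, by rw [hti, map_sum]; exact Finset.sum_congr rfl fun j _ => by rw [map_smul]⟩)
  refine ⟨ε, hε, s, hs, ?_⟩
  apply L.injective
  rw [map_smul, map_sum, map_sum]
  simp only [map_smul]
  rw [hsum, hz]

end Pool.Agent.S12841
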