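import Pool.Statements.S12905
import Pool.Agent.N590.IL.RAM
import Pool.Agent.N590.IL.CROSS
import Pool.Agent.N590.IL.SUPP
import Pool.Agent.N590.IL.QUAD
import Pool.Agent.N590.IL.SAME
import Pool.Agent.N590.IL.PRIM
import Pool.Agent.N590.IL.FIN
import Pool.Agent.N590.IL.ALL

set_option autoImplicit false
open Pool Pool.MP_26bcd4_gt

namespace Pool.Agent.S12905

/-- There is a natural number N such that for every compact convex set with nonempty interior in 3-space, every primitive inner illuminating set of it (a boundary subset illuminating from inside, no proper subset of which does) has at most N elements. -/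
theorem result :
    ∃ N : ℕ, ∀ K : Set (EuclideanSpace ℝ (Fin 3)),
      IsCompact K → Convex ℝ K → (interior K).Nonempty →
      ∀ A : Set (EuclideanSpace ℝ (Fin 3)),
        (A ⊆ frontier K ∧
          ∀ x ∈ frontier K, ∃ a ∈ A, ∃ ε : ℝ, 0 < ε ∧ ε < 1 ∧
            (1 - ε) • x + ε • a ∈ interior K) →
        (∀ B : Set (EuclideanSpace ℝ (Fin 3)), B ⊆ A → B ≠ A →
          ¬ (B ⊆ frontier K ∧
            ∀ x ∈ frontier K, ∃ b ∈ B, ∃ ε : ℝ, 0 < ε ∧ ε < 1 ∧
              (1 - ε) • x + ε • b ∈ interior K)) →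
        A.encard ≤ (N : ℕ∞) :=
  N590.IL.ALL N590.IL.RAM
    (N590.IL.FIN (N590.IL.QUAD N590.IL.CROSS N590.IL.SUPP N590.IL.ENDS) N590.IL.SAME N590.IL.ENDS)
    (N590.IL.PRIM N590.IL.SUPP N590.IL.ENDS)

end Pool.Agent.S12905
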