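import Pool.Statements.S12948
import Pool.Agent.N556.ZonGlue

set_option autoImplicit false
open Pointwise
open Pool Pool.MP_2c1b2b_gt

namespace Pool.Agent.S12948

/-- The negation of the preceding statement: For some ε>0 and every constant C, there is a dimension n and a zonoid K in ℝⁿ that is not within Banach–Mazur distance 1+ε of any sum of at most C·n segments, i.e. the bound C(ε)·n fails in general. -/
theorem result :
    ¬ (∃ ε : ℝ, 0 < ε ∧ ∀ C : ℝ, ∃ n : ℕ, ∃ K : Set (EuclideanSpace ℝ (Fin n)),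
      IsCompact K ∧ (interior K).Nonempty ∧
      (∀ δ : ℝ, 0 < δ → ∃ m : ℕ, ∃ v : Fin m → EuclideanSpace ℝ (Fin n),
          Metric.hausdorffDist K (∑ i, segment ℝ (-v i) (v i)) < δ) ∧
      ¬ ∃ m : ℕ, (m : ℝ) ≤ C * n ∧
          ∃ v : Fin m → EuclideanSpace ℝ (Fin n),
          ∃ T : EuclideanSpace ℝ (Fin n) ≃ₗ[ℝ] EuclideanSpace ℝ (Fin n),
            T '' K ⊆ ∑ i, segment ℝ (-v i) (v i) ∧
            ∑ i, segment ℝ (-v i) (v i) ⊆ (1 + ε) • (T '' K)) := by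
  rintro ⟨ε, hε, h⟩
  obtain ⟨C, hC, hres⟩ := Pool.Agent.Results.MP_2c1b2b_gt.LinearSegments.result
  set η : ℝ := min ε (1 / 2) with hη
  have hη0 : 0 < η := lt_min hε (by norm_num)
  have hη1 : η < 1 := lt_of_le_of_lt (min_le_right _ _) (by norm_num)
  have hηε : η ≤ ε := min_le_left _ _
  obtain ⟨n, K, hK, hi, hz, hno⟩ := h (C / η ^ 2)
  have hKz := Pool.Agent.N556.ZonGlue.isZonoid K hK hi hz
  obtain ⟨-, M, v, hM, h1, h2⟩ := hres n K hKz η hη0 hη1
  apply hno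
  have hη' : (1 + η) ≠ 0 := by positivity
  have h0K : (0 : EuclideanSpace ℝ (Fin n)) ∈ K :=
    h1 ⟨fun _ => 0, fun _ => by simp, by simp⟩
  refine ⟨M, hM, v, LinearEquiv.smulOfNeZero ℝ _ (1 + η)⁻¹ (inv_ne_zero hη'), ?_, ?_⟩
  · rw [Pool.Agent.N556.ZonGlue.sum_seg]
    rintro _ ⟨x, hx, rfl⟩
    obtain ⟨y, hy, hxy⟩ := h2 hx
    have hxy' : (1 + η) • y = x := hxy
    rw [LinearEquiv.smulOfNeZero_apply, ← hxy', smul_smul, inv_mul_cancel₀ hη', one_smul]
    exact hy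
  · rw [Pool.Agent.N556.ZonGlue.sum_seg]
    intro x hx
    have hxK := h1 hx
    -- the point `((1 + η) / (1 + ε)) x` of `K`
    have hc : (1 + η) / (1 + ε) ≤ 1 := by
      rw [div_le_one (by positivity)]
      linarith
    have hc0 : 0 ≤ (1 + η) / (1 + ε) := by positivity
    have hmem : ((1 + η) / (1 + ε)) • x ∈ K := by
      have := hKz.1 hxK h0K hc0 (sub_nonneg.2 hc) (by ring)
      simpa using this
    refine ⟨(1 + η)⁻¹ • (((1 + η) / (1 + ε)) • x), ⟨_, hmem, rfl⟩, ?_⟩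
    have hε' : (1 + ε) ≠ 0 := by positivity
    show (1 + ε) • (1 + η)⁻¹ • (((1 + η) / (1 + ε)) • x) = x
    rw [smul_smul, smul_smul]
    have : (1 + ε) * (1 + η)⁻¹ * ((1 + η) / (1 + ε)) = 1 := by
      field_simp
    rw [this, one_smul]

end Pool.Agent.S12948
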