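import Pool.Statements.S13092
import Pool.Agent.W594.Herm3
import Pool.Agent.N498.ZS1

set_option autoImplicit false
open LaurentPolynomial
open scoped Matrix
open Pool Pool.MP_436001_gt

namespace Pool.Agent.S13092

/-! The counterexample: `g = 0`, `X = # 2 CP^2` and the unimodular form with Gram matrix
`(25, 7 + 10 (t - t^-1); 7 - 10 (t - t^-1), 10 - 4 (t^2 + t^-2))`, which is not isometric to `⟨1⟩ ⊕ ⟨1⟩`
but becomes so after adding one copy of the form `H2`. -/

open Pool.Agent.W594.Herm Pool.Agent.N498.ZS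

noncomputable def sg : LaurentPolynomial ℤ →+* LaurentPolynomial ℤ :=
  ((invert : LaurentPolynomial ℤ ≃ₐ[ℤ] LaurentPolynomial ℤ) :
    LaurentPolynomial ℤ →+* LaurentPolynomial ℤ)

noncomputable def ep : LaurentPolynomial ℤ →+* ℤ := eval₂ (RingHom.id ℤ) 1

theorem sg_T (n : ℤ) : sg (T n) = T (-n) := by simp [sg]

theorem ep_T (n : ℤ) : ep (T n) = 1 := by simp [ep]

theorem TT : (T 1 : LaurentPolynomial ℤ) * T (-1) = 1 := by rw [← T_add]; simp

def e0 : Fin 2 ⊕ Fin 2 × Fin 0 ≃ Fin 2 := Equiv.sumEmpty _ _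

def e4 : Fin 2 ⊕ Fin 2 × Fin 1 ≃ Fin 4 :=
  ((Equiv.refl (Fin 2)).sumCongr (Equiv.prodUnique (Fin 2) (Fin 1))).trans finSumFinEquiv

theorem herm : ((blk 1).map sg)ᵀ = blk 1 := by
  have h25 : sg (25 : LaurentPolynomial ℤ) = 25 := map_ofNat _ 25
  have h7 : sg (7 : LaurentPolynomial ℤ) = 7 := map_ofNat _ 7
  have h10 : sg (10 : LaurentPolynomial ℤ) = 10 := map_ofNat _ 10
  have h4 : sg (4 : LaurentPolynomial ℤ) = 4 := map_ofNat _ 4
  unfold blk
  apply Matrix.ext
  intro i j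
  fin_cases i <;> fin_cases j <;>
    simp only [Matrix.transpose_apply, Matrix.map_apply, Matrix.of_apply, Matrix.cons_val,
      Fin.mk_zero, Fin.mk_one, Fin.isValue, map_add, map_sub, map_mul, h25, h7, h10, h4, sg_T, neg_neg]
  all_goals ring

theorem conj_PP : ((PP (T 1) (T (-1)) : Matrix (Fin 4) (Fin 4) (LaurentPolynomial ℤ)).map sg) =
    PP (T (-1)) (T 1) := by
  apply Matrix.ext
  intro i j
  have hh : ∀ n : ℕ, [n.AtLeastTwo] → sg (OfNat.ofNat n : LaurentPolynomial ℤ) = OfNat.ofNat n :=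
    fun n _ => map_ofNat _ n
  have h1 : sg (T 1) = T (-1) := sg_T 1
  have h2 : sg (T (-1)) = T 1 := sg_T (-1)
  fin_cases i <;> fin_cases j <;>
    simp only [PP, Matrix.map_apply, Matrix.of_apply, Matrix.cons_val,
      Fin.mk_zero, Fin.mk_one, Fin.isValue, Fin.reduceFinMk, map_add, map_sub, map_mul, map_neg, map_pow, hh, h1, h2]

theorem blocks (A : Matrix (Fin 2) (Fin 2) (LaurentPolynomial ℤ))
    (N : Matrix (Fin 4) (Fin 4) (LaurentPolynomial ℤ))
    (h00 : N 0 0 = A 0 0) (h01 : N 0 1 = A 0 1) (h10 : N 1 0 = A 1 0) (h11 : N 1 1 = A 1 1)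
    (h02 : N 0 2 = 0) (h03 : N 0 3 = 0) (h12 : N 1 2 = 0) (h13 : N 1 3 = 0)
    (h20 : N 2 0 = 0) (h21 : N 2 1 = 0) (h30 : N 3 0 = 0) (h31 : N 3 1 = 0)
    (h22 : N 2 2 = 0) (h23 : N 2 3 = T 1 - 1) (h32 : N 3 2 = T (-1) - 1) (h33 : N 3 3 = 0) :
    Matrix.fromBlocks A 0 0 (Matrix.blockDiagonal (fun _ : Fin 1 =>
      (!![0, T 1 - 1; T (-1) - 1, 0] : Matrix (Fin 2) (Fin 2) (LaurentPolynomial ℤ)))) =
      N.submatrix e4 e4 := by
  have k0 : e4 (Sum.inl 0) = 0 := rfl
  have k1 : e4 (Sum.inl 1) = 1 := rfl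
  have k2 : e4 (Sum.inr (0, 0)) = 2 := rfl
  have k3 : e4 (Sum.inr (1, 0)) = 3 := rfl
  apply Matrix.ext
  rintro (i | ⟨i, k⟩) (j | ⟨j, l⟩)
  · fin_cases i <;> fin_cases j <;> simp [k0, k1, h00, h01, h10, h11]
  · fin_cases i <;> fin_cases j <;> fin_cases l <;> simp [k0, k1, k2, k3, h02, h03, h12, h13]
  · fin_cases i <;> fin_cases j <;> fin_cases k <;> simp [k0, k1, k2, k3, h20, h21, h30, h31]
  · fin_cases i <;> fin_cases j <;> fin_cases k <;> fin_cases l <;>
      simp [k2, k3, h22, h23, h32, h33, Matrix.blockDiagonal_apply]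

/-- the explicit stable isometry -/
theorem stable : ∃ (P : Matrix (Fin 2 ⊕ Fin 2 × Fin 1) (Fin 2 ⊕ Fin 2 × Fin 1) (LaurentPolynomial ℤ))
    (P' : Matrix (Fin 2 ⊕ Fin 2 × Fin 1) (Fin 2 ⊕ Fin 2 × Fin 1) (LaurentPolynomial ℤ)),
    P * P' = 1 ∧ P' * P = 1 ∧
    (P.map sg)ᵀ * Matrix.fromBlocks (blk 1) 0 0 (Matrix.blockDiagonal (fun _ : Fin 1 =>
      (!![0, T 1 - 1; T (-1) - 1, 0] : Matrix (Fin 2) (Fin 2) (LaurentPolynomial ℤ)))) * P
      = Matrix.fromBlocks ((1 : Matrix (Fin 2) (Fin 2) ℤ).map (Int.castRingHom (LaurentPolynomial ℤ))) 0 0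
          (Matrix.blockDiagonal (fun _ : Fin 1 =>
      (!![0, T 1 - 1; T (-1) - 1, 0] : Matrix (Fin 2) (Fin 2) (LaurentPolynomial ℤ)))) := by
  refine ⟨(PP (T 1) (T (-1))).submatrix e4 e4, (PI (T 1) (T (-1))).submatrix e4 e4, ?_, ?_, ?_⟩
  · rw [Matrix.submatrix_mul_equiv, PP_mul_PI _ _ TT, Matrix.submatrix_one_equiv]
  · rw [Matrix.submatrix_mul_equiv, PI_mul_PP _ _ TT, Matrix.submatrix_one_equiv]
  · have b00 : NL (T 1) (T (-1)) 0 0 = blk 1 0 0 := by
      simp only [NL, blk, Matrix.of_apply, Matrix.cons_val]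
    have b01 : NL (T 1) (T (-1)) 0 1 = blk 1 0 1 := by
      simp only [NL, blk, Matrix.of_apply, Matrix.cons_val]; ring
    have b10 : NL (T 1) (T (-1)) 1 0 = blk 1 1 0 := by
      simp only [NL, blk, Matrix.of_apply, Matrix.cons_val]; ring
    have b11 : NL (T 1) (T (-1)) 1 1 = blk 1 1 1 := by
      have a1 : (T (2 * 1 : ℤ) : LaurentPolynomial ℤ) = T 1 * T 1 := by rw [← T_add]; norm_num
      have a2 : (T (-(2 * 1) : ℤ) : LaurentPolynomial ℤ) = T (-1) * T (-1) := by rw [← T_add]; norm_num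
      simp only [NL, blk, Matrix.of_apply, Matrix.cons_val]
      rw [a1, a2]; ring
    have hL := blocks (blk 1) (NL (T 1) (T (-1))) b00 b01 b10 b11
      (by simp only [NL, Matrix.of_apply, Matrix.cons_val]) (by simp only [NL, Matrix.of_apply, Matrix.cons_val])
      (by simp only [NL, Matrix.of_apply, Matrix.cons_val]) (by simp only [NL, Matrix.of_apply, Matrix.cons_val])
      (by simp only [NL, Matrix.of_apply, Matrix.cons_val]) (by simp only [NL, Matrix.of_apply, Matrix.cons_val])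
      (by simp only [NL, Matrix.of_apply, Matrix.cons_val]) (by simp only [NL, Matrix.of_apply, Matrix.cons_val])
      (by simp only [NL, Matrix.of_apply, Matrix.cons_val]) (by simp only [NL, Matrix.of_apply, Matrix.cons_val]; ring)
      (by simp only [NL, Matrix.of_apply, Matrix.cons_val]; ring) (by simp only [NL, Matrix.of_apply, Matrix.cons_val])
    have hQ := blocks ((1 : Matrix (Fin 2) (Fin 2) ℤ).map (Int.castRingHom (LaurentPolynomial ℤ)))
      (NQ (T 1) (T (-1))) (by simp [NQ]) (by simp [NQ]) (by simp [NQ]) (by simp [NQ])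
      (by simp only [NQ, Matrix.of_apply, Matrix.cons_val]) (by simp only [NQ, Matrix.of_apply, Matrix.cons_val])
      (by simp only [NQ, Matrix.of_apply, Matrix.cons_val]) (by simp only [NQ, Matrix.of_apply, Matrix.cons_val])
      (by simp only [NQ, Matrix.of_apply, Matrix.cons_val]) (by simp only [NQ, Matrix.of_apply, Matrix.cons_val])
      (by simp only [NQ, Matrix.of_apply, Matrix.cons_val]) (by simp only [NQ, Matrix.of_apply, Matrix.cons_val])
      (by simp only [NQ, Matrix.of_apply, Matrix.cons_val]) (by simp only [NQ, Matrix.of_apply, Matrix.cons_val]; ring)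
      (by simp only [NQ, Matrix.of_apply, Matrix.cons_val]; ring) (by simp only [NQ, Matrix.of_apply, Matrix.cons_val])
    rw [hL, hQ]
    have hc : ((PP (T 1) (T (-1)) : Matrix (Fin 4) (Fin 4) (LaurentPolynomial ℤ)).submatrix e4 e4).map sg =
        (PP (T (-1)) (T 1)).submatrix e4 e4 := by
      rw [← Matrix.submatrix_map, conj_PP]
    rw [hc, Matrix.transpose_submatrix, Matrix.submatrix_mul_equiv, Matrix.submatrix_mul_equiv,
      isometry _ _ TT]

theorem at_one : (blk 1).map ep = !![25, 7; 7, 2] := by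
  have f25 : ep (25 : LaurentPolynomial ℤ) = 25 := map_ofNat _ 25
  have f7 : ep (7 : LaurentPolynomial ℤ) = 7 := map_ofNat _ 7
  have f10 : ep (10 : LaurentPolynomial ℤ) = 10 := map_ofNat _ 10
  have f4 : ep (4 : LaurentPolynomial ℤ) = 4 := map_ofNat _ 4
  unfold blk
  apply Matrix.ext
  intro i j
  fin_cases i <;> fin_cases j <;>
    simp only [Matrix.map_apply, Matrix.of_apply, Matrix.cons_val,
      Fin.mk_zero, Fin.mk_one, Fin.isValue, map_add, map_sub, map_mul, f25, f7, f10, f4, ep_T] <;> norm_num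

theorem no_isometry (P : Matrix (Fin 2) (Fin 2 ⊕ Fin 2 × Fin 0) (LaurentPolynomial ℤ))
    (P' : Matrix (Fin 2 ⊕ Fin 2 × Fin 0) (Fin 2) (LaurentPolynomial ℤ))
    (h1 : P * P' = 1) (_ : P' * P = 1)
    (h3 : (P.map sg)ᵀ * blk 1 * P
            = Matrix.fromBlocks ((1 : Matrix (Fin 2) (Fin 2) ℤ).map (Int.castRingHom (LaurentPolynomial ℤ))) 0 0
                (Matrix.blockDiagonal (fun _ : Fin 0 =>
      (!![0, T 1 - 1; T (-1) - 1, 0] : Matrix (Fin 2) (Fin 2) (LaurentPolynomial ℤ))))) : False := by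
  have hne : ∀ a : ℕ, 0 < a → a ≤ 10 → (a : ZMod 11) * (((1 : ℤ)) : ZMod 11) ≠ 0 := by
    intro a ha ha' h
    rw [Int.cast_one, mul_one, ZMod.natCast_eq_zero_iff] at h
    have := Nat.le_of_dvd ha h
    omega
  set ee : Fin 2 ⊕ Fin 0 ≃ Fin 2 := Equiv.sumEmpty _ _ with hee
  set U : Matrix (Fin 2 ⊕ Fin 0) (Fin 2 ⊕ Fin 0) (LaurentPolynomial ℤ) :=
    P.submatrix ee (ee.trans e0.symm) with hU
  set U' : Matrix (Fin 2 ⊕ Fin 0) (Fin 2 ⊕ Fin 0) (LaurentPolynomial ℤ) :=
    P'.submatrix (ee.trans e0.symm) ee with hU'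
  have hUU : U * U' = 1 := by
    rw [hU, hU', Matrix.submatrix_mul_equiv, h1, Matrix.submatrix_one_equiv]
  have hdet : IsUnit U.det := by
    have := congrArg Matrix.det hUU
    rw [Matrix.det_mul, Matrix.det_one] at this
    exact IsUnit.of_mul_eq_one _ this
  have hAm : Am 0 1 = (blk 1).submatrix ee ee := by
    apply Matrix.ext
    rintro (i | i) (j | j)
    · rfl
    · exact j.elim0
    · exact i.elim0
    · exact i.elim0
  refine not_isometric 11 1 hne 0 1 1 1 (one_mul 1) ?_ ⟨U, hdet, ?_⟩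
  · rw [Matrix.map_one _ (map_zero _) (map_one _), conjG_one, one_mul]
  · have hc : conjT U = ((P.map sg)ᵀ).submatrix (ee.trans e0.symm) ee := rfl
    rw [hc, hAm, hU, Matrix.submatrix_mul_equiv, Matrix.submatrix_mul_equiv, h3]
    apply Matrix.ext
    rintro (i | i) (j | j)
    · have k : ∀ i : Fin 2, (ee.trans e0.symm) (Sum.inl i) = Sum.inl i := fun _ => rfl
      rw [Matrix.submatrix_apply, k, k, Matrix.fromBlocks_apply₁₁, Matrix.map_apply]
      by_cases hij : i = j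
      · subst hij; simp
      · rw [Matrix.one_apply_ne hij, Matrix.one_apply_ne (by simpa using hij)]; simp
    · exact j.elim0
    · exact i.elim0
    · exact i.elim0


/-- The negation of the preceding statement: Suppose a nondegenerate Hermitian Laurent-polynomial form L has boundary linking form isometric to that of H2^g, L at t=1 equals Q plus 2g zeros, and L plus n H2's ≅ Q plus (g+n) H2's. Then L ≅ Q ⊕ H2^g. -/
theorem result :
    ¬ (∀ (σ : LaurentPolynomial ℤ →+* LaurentPolynomial ℤ) (ε : LaurentPolynomial ℤ →+* ℤ),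
      σ (T 1) = T (-1) → ε (T 1) = 1 →
      ∀ (H2 : Matrix (Fin 2) (Fin 2) (LaurentPolynomial ℤ)),
        H2 = !![0, T 1 - 1; T (-1) - 1, 0] →
      ∀ (k : ℕ) (Q : Matrix (Fin k) (Fin k) ℤ), Qᵀ = Q → IsUnit Q.det →
      ∀ (g r : ℕ) (L : Matrix (Fin r) (Fin r) (LaurentPolynomial ℤ)),
        (L.map σ)ᵀ = L → L.det ≠ 0 →
        (∃ (P Q1 : Matrix (Fin 2 × Fin g) (Fin r) (LaurentPolynomial ℤ))
            (P' Q2 : Matrix (Fin r) (Fin 2 × Fin g) (LaurentPolynomial ℤ))
            (S1 M : Matrix (Fin r) (Fin r) (LaurentPolynomial ℤ))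
            (S2 : Matrix (Fin 2 × Fin g) (Fin 2 × Fin g) (LaurentPolynomial ℤ)),
            P * L = Matrix.blockDiagonal (fun _ : Fin g => H2) * Q1 ∧
            P' * Matrix.blockDiagonal (fun _ : Fin g => H2) = L * Q2 ∧
            P' * P = 1 + L * S1 ∧
            P * P' = 1 + Matrix.blockDiagonal (fun _ : Fin g => H2) * S2 ∧
            (L.map (algebraMap (LaurentPolynomial ℤ) (FractionRing (LaurentPolynomial ℤ))))⁻¹
              - ((P.map σ)ᵀ).map (algebraMap (LaurentPolynomial ℤ) (FractionRing (LaurentPolynomial ℤ)))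
                * ((Matrix.blockDiagonal (fun _ : Fin g => H2)).map
                    (algebraMap (LaurentPolynomial ℤ) (FractionRing (LaurentPolynomial ℤ))))⁻¹
                * P.map (algebraMap (LaurentPolynomial ℤ) (FractionRing (LaurentPolynomial ℤ)))
              = M.map (algebraMap (LaurentPolynomial ℤ) (FractionRing (LaurentPolynomial ℤ)))) →
        (∃ (P : Matrix (Fin r) (Fin k ⊕ Fin 2 × Fin g) ℤ)
            (P' : Matrix (Fin k ⊕ Fin 2 × Fin g) (Fin r) ℤ),
            P * P' = 1 ∧ P' * P = 1 ∧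
            Pᵀ * L.map ε * P = Matrix.fromBlocks Q 0 0 0) →
        (∃ (n : ℕ) (P : Matrix (Fin r ⊕ Fin 2 × Fin n) (Fin k ⊕ Fin 2 × Fin (g + n)) (LaurentPolynomial ℤ))
            (P' : Matrix (Fin k ⊕ Fin 2 × Fin (g + n)) (Fin r ⊕ Fin 2 × Fin n) (LaurentPolynomial ℤ)),
            P * P' = 1 ∧ P' * P = 1 ∧
            (P.map σ)ᵀ * Matrix.fromBlocks L 0 0 (Matrix.blockDiagonal (fun _ : Fin n => H2)) * P
              = Matrix.fromBlocks (Q.map (Int.castRingHom (LaurentPolynomial ℤ))) 0 0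
                  (Matrix.blockDiagonal (fun _ : Fin (g + n) => H2))) →
        ∃ (P : Matrix (Fin r) (Fin k ⊕ Fin 2 × Fin g) (LaurentPolynomial ℤ))
          (P' : Matrix (Fin k ⊕ Fin 2 × Fin g) (Fin r) (LaurentPolynomial ℤ)),
          P * P' = 1 ∧ P' * P = 1 ∧
          (P.map σ)ᵀ * L * P
            = Matrix.fromBlocks (Q.map (Int.castRingHom (LaurentPolynomial ℤ))) 0 0
                (Matrix.blockDiagonal (fun _ : Fin g => H2))) := by
  intro H
  refine absurd (H sg ep (sg_T 1) (ep_T 1) _ rfl 2 1 (by simp) (by simp) 0 2 (blk 1) herm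
    (by rw [det_blk]; exact one_ne_zero) ?_ ?_ ?_) ?_
  · have hu : IsUnit (blk 1).det := by rw [det_blk]; exact isUnit_one
    have hinv : blk 1 * (blk 1)⁻¹ = 1 := Matrix.mul_nonsing_inv _ hu
    refine ⟨0, 0, 0, 0, -(blk 1)⁻¹, (blk 1)⁻¹, 0, ?_, ?_, ?_, ?_, ?_⟩
    · apply Matrix.ext; intro i; exact i.2.elim0
    · apply Matrix.ext; intro i j; exact j.2.elim0
    · rw [Matrix.mul_neg, hinv, Matrix.mul_zero]; exact (add_neg_cancel _).symm
    · apply Matrix.ext; intro i; exact i.2.elim0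
    · have h4 : ((blk 1).map (algebraMap (LaurentPolynomial ℤ) (FractionRing (LaurentPolynomial ℤ)))) *
          ((blk 1)⁻¹.map (algebraMap (LaurentPolynomial ℤ) (FractionRing (LaurentPolynomial ℤ)))) = 1 := by
        rw [← Matrix.map_mul, hinv, Matrix.map_one _ (map_zero _) (map_one _)]
      rw [Matrix.inv_eq_right_inv h4]
      have h5 : (0 : Matrix (Fin 2 × Fin 0) (Fin 2) (LaurentPolynomial ℤ)).map
          (algebraMap (LaurentPolynomial ℤ) (FractionRing (LaurentPolynomial ℤ))) = 0 := by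
        apply Matrix.ext; intro i; exact i.2.elim0
      rw [h5, Matrix.mul_zero, sub_zero]
  · refine ⟨(!![-1, 1; 4, -3] : Matrix (Fin 2) (Fin 2) ℤ).submatrix id e0,
      (!![3, 1; 4, 1] : Matrix (Fin 2) (Fin 2) ℤ).submatrix e0 id, ?_, ?_, ?_⟩
    · rw [Matrix.submatrix_mul_equiv]; decide
    · rw [show (!![3, 1; 4, 1] : Matrix (Fin 2) (Fin 2) ℤ).submatrix e0 id *
        (!![-1, 1; 4, -3] : Matrix (Fin 2) (Fin 2) ℤ).submatrix id e0 =
        ((!![3, 1; 4, 1] : Matrix (Fin 2) (Fin 2) ℤ) * !![-1, 1; 4, -3]).submatrix e0 e0 from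
          (Matrix.submatrix_mul _ _ e0 id e0 Function.bijective_id).symm]
      have : (!![3, 1; 4, 1] : Matrix (Fin 2) (Fin 2) ℤ) * !![-1, 1; 4, -3] = 1 := by decide
      rw [this, Matrix.submatrix_one_equiv]
    · rw [at_one, Matrix.transpose_submatrix]
      apply Matrix.ext
      rintro (i | i) (j | j)
      · fin_cases i <;> fin_cases j <;> decide
      · exact j.2.elim0
      · exact i.2.elim0
      · exact i.2.elim0
  · exact ⟨1, stable⟩
  · rintro ⟨P, P', h1, h2, h3⟩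
    exact no_isometry P P' h1 h2 h3

end Pool.Agent.S13092
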