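import Pool.Statements.S13150
import Pool.Agent.N488.ErdHomeo

/-!
The homeomorphism groups of `μ` and of the disjoint union `ℕ × μ` of countably many copies of `μ`
are not both homeomorphic to complete Erdős space, for `μ` a Menger compactum: small
neighbourhoods of the identity in the second group contain closed copies of the first one, while a
bounded closed subset of complete Erdős space is zero-dimensional at some point.
-/

set_option autoImplicit false
open Pool Pool.MP_4f0e62_gt

namespace Pool.Agent.S13150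

/-- The negation of the preceding statement: For every n ≥ 1 and every nonempty separable metrizable space locally homeomorphic to open subsets of the n-dimensional Menger compactum, its homeomorphism group with the compact-open topology is homeomorphic to complete Erdős space. -/
theorem result :
    ¬ (∀ (n : ℕ), 1 ≤ n →
    ∀ (M : Type) [TopologicalSpace M] [TopologicalSpace.MetrizableSpace M]
      [TopologicalSpace.SeparableSpace M] [Nonempty M],
      (∀ x : M, ∃ V : Set M, IsOpen V ∧ x ∈ V ∧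
        ∃ U : Set {y : Fin (2 * n + 1) → ℝ |
            ∀ k : ℕ, ∃ a : Fin (2 * n + 1) → ℕ,
              (∀ i, a i < 3 ^ k ∧ (a i : ℝ) / 3 ^ k ≤ y i ∧ y i ≤ ((a i : ℝ) + 1) / 3 ^ k) ∧
              ∀ j < k, (Finset.univ.filter (fun i => a i / 3 ^ j % 3 = 1)).card ≤ n},
          IsOpen U ∧ Nonempty (V ≃ₜ U)) →
      Nonempty (@Homeomorph (M ≃ₜ M)
        {x : lp (fun _ : ℕ => ℝ) 2 | ∀ i : ℕ, (x : ℕ → ℝ) i = 0 ∨
            ∃ k : ℕ, 0 < k ∧ (x : ℕ → ℝ) i = 1 / (k : ℝ)}
        (TopologicalSpace.induced (fun g : M ≃ₜ M => ContinuousMap.mk (⇑g) g.continuous)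
          inferInstance)
        inferInstance)) := by
  intro H
  let μ : Set (Fin (2 * 1 + 1) → ℝ) := {y : Fin (2 * 1 + 1) → ℝ |
            ∀ k : ℕ, ∃ a : Fin (2 * 1 + 1) → ℕ,
              (∀ i, a i < 3 ^ k ∧ (a i : ℝ) / 3 ^ k ≤ y i ∧ y i ≤ ((a i : ℝ) + 1) / 3 ^ k) ∧
              ∀ j < k, (Finset.univ.filter (fun i => a i / 3 ^ j % 3 = 1)).card ≤ 1}
  -- the Menger curve is compact and nonempty
  have hcl : IsClosed μ := by
    have h1 : μ = ⋂ k : ℕ, ⋃ a ∈ {a : Fin (2 * 1 + 1) → ℕ | (∀ i, a i < 3 ^ k) ∧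
        ∀ j < k, (Finset.univ.filter (fun i => a i / 3 ^ j % 3 = 1)).card ≤ 1},
        {y : Fin (2 * 1 + 1) → ℝ | ∀ i, (a i : ℝ) / 3 ^ k ≤ y i ∧ y i ≤ ((a i : ℝ) + 1) / 3 ^ k} := by
      ext y
      simp only [μ, Set.mem_ofPred_eq, Set.mem_iInter, Set.mem_iUnion]
      refine forall_congr' fun k => exists_congr fun a => ?_
      constructor
      · rintro ⟨h1, h2⟩
        exact ⟨⟨fun i => (h1 i).1, h2⟩, fun i => (h1 i).2⟩
      · rintro ⟨⟨h1, h2⟩, h3⟩
        exact ⟨fun i => ⟨h1 i, h3 i⟩, h2⟩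
    rw [h1]
    refine isClosed_iInter fun k => Set.Finite.isClosed_biUnion ?_ fun a _ => ?_
    · refine (Set.Finite.pi' (t := fun _ : Fin (2 * 1 + 1) => Set.Iio (3 ^ k))
        fun _ => Set.finite_Iio _).subset ?_
      intro a ha i
      exact ha.1 i
    · have h2 : {y : Fin (2 * 1 + 1) → ℝ | ∀ i, (a i : ℝ) / 3 ^ k ≤ y i ∧
          y i ≤ ((a i : ℝ) + 1) / 3 ^ k} =
          ⋂ i, {y : Fin (2 * 1 + 1) → ℝ | (a i : ℝ) / 3 ^ k ≤ y i ∧
            y i ≤ ((a i : ℝ) + 1) / 3 ^ k} := by
        ext y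
        simp
      rw [h2]
      refine isClosed_iInter fun i => ?_
      exact (isClosed_le continuous_const (continuous_apply i)).inter
        (isClosed_le (continuous_apply i) continuous_const)
  have hsub : μ ⊆ Set.Icc 0 1 := by
    intro y hy
    obtain ⟨a, ha, -⟩ := hy 0
    refine ⟨fun i => ?_, fun i => ?_⟩
    · have h1 := (ha i).2.1
      have h2 : (0 : ℝ) ≤ (a i : ℝ) / 3 ^ 0 := by positivity
      exact h2.trans h1
    · have h1 := (ha i).2.2
      have h2 := (ha i).1
      have h3 : a i = 0 := by simpa using h2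
      rw [h3] at h1
      simpa using h1
  have hμ : IsCompact μ := isCompact_Icc.of_isClosed_subset hcl hsub
  have hc : CompactSpace μ := isCompact_iff_compactSpace.1 hμ
  have hne : Nonempty μ := by
    refine ⟨0, fun k => ⟨0, fun i => ⟨by simp, by simp, ?_⟩, fun j _ => ?_⟩⟩
    · simp only [Pi.zero_apply, CharP.cast_eq_zero, zero_add]
      positivity
    · simp
  -- `μ` and `ℕ × μ` are manifolds modelled on `μ`
  obtain ⟨e1⟩ := H 1 le_rfl μ (fun x => ⟨Set.univ, isOpen_univ, trivial, Set.univ, isOpen_univ,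
    ⟨Homeomorph.refl _⟩⟩)
  obtain ⟨e2⟩ := H 1 le_rfl (ℕ × μ) (fun x => by
    refine ⟨{x.1} ×ˢ Set.univ, (isOpen_discrete _).prod isOpen_univ, ⟨rfl, trivial⟩, Set.univ,
      isOpen_univ, ⟨?_⟩⟩
    exact { toFun := fun p => ⟨p.1.2, trivial⟩
            invFun := fun q => ⟨(x.1, q.1), rfl, trivial⟩
            left_inv := by
              rintro ⟨⟨m, y⟩, hm, -⟩
              simp only [Set.mem_singleton_iff] at hm
              subst hm
              rfl
            right_inv := fun q => rfl
            continuous_toFun := by fun_prop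
            continuous_invFun := by fun_prop })
  exact Pool.Agent.N488.Erd.dichotomy (K := μ) e1 e2

end Pool.Agent.S13150
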