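import Pool.Statements.S13155
import Pool.Agent.N490.FG.Main

set_option autoImplicit false
open Pool Pool.MP_5008c3_gt

namespace Pool.Agent.S13155

/-- For every metrizable space X whose non-isolated points form a compact set, the subspace of the free topological group on X of elements of reduced length at most 4 is Fréchet–Urysohn. -/
theorem result :
    ∀ (X : Type) [τ : TopologicalSpace X] [TopologicalSpace.MetrizableSpace X],
      IsCompact {x : X | ¬ IsOpen ({x} : Set X)} →
      @FrechetUrysohnSpace
        {w : FreeGroup X // ∃ L : List (X × Bool), L.length ≤ 4 ∧ FreeGroup.mk L = w}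
        (TopologicalSpace.induced Subtype.val
          (sInf {t : GroupTopology (FreeGroup X) |
            @Continuous X (FreeGroup X) τ t.toTopologicalSpace FreeGroup.of}).toTopologicalSpace) := by
  intro X τ hX hK
  classical
  let _ : MetricSpace X := TopologicalSpace.metrizableSpaceMetric X
  let T : TopologicalSpace (FreeGroup X) := (Pool.Agent.N490.FG.FT X).toTopologicalSpace
  change FrechetUrysohnSpace
        {w : FreeGroup X // ∃ L : List (X × Bool), L.length ≤ 4 ∧ FreeGroup.mk L = w}
  refine ⟨fun s a ha => ?_⟩
  have hcl : (a : FreeGroup X) ∈ closure (Subtype.val '' s) := by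
    rw [closure_subtype] at ha
    exact ha
  have hlen : ∀ w ∈ (Subtype.val '' s : Set (FreeGroup X)), w.toWord.length ≤ 4 := by
    rintro _ ⟨⟨w, L, hL, rfl⟩, _, rfl⟩
    exact (FreeGroup.norm_mk_le (L₁ := L)).trans hL
  have hmain : ∃ w : ℕ → FreeGroup X, (∀ n, w n ∈ (Subtype.val '' s : Set (FreeGroup X))) ∧
      Filter.Tendsto w Filter.atTop (nhds (a : FreeGroup X)) := by
    by_cases hne : (Pool.Agent.N490.FG.KS X).Nonempty
    · exact Pool.Agent.N490.FG.main_of_nonempty hK hne _ hlen _ hcl
    · exact Pool.Agent.N490.FG.main_of_empty hne _ _ hcl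
  obtain ⟨w, hw, hlim⟩ := hmain
  choose v hv hvw using hw
  refine ⟨v, hv, ?_⟩
  rw [tendsto_subtype_rng]
  have : (fun n => (v n : FreeGroup X)) = w := funext hvw
  rw [this]
  exact hlim

end Pool.Agent.S13155
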