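import Pool.Statements.S13303
import Pool.Agent.N530.LS.Fin
import Pool.Agent.N839.LS.M1

set_option autoImplicit false
open Pool Pool.MP_67f4ac_gt

namespace Pool.Agent.S13303

/-- Every discrete torsion-free isometry group of hyperbolic 3-space with finite covolume and non-compact quotient, whose count of distinct geodesic lengths up to n has liminf of e^(-n) times count strictly between 0 and infinity, is commensurable up to conjugation with a Bianchi group. -/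
theorem result :
  ∀ Γ : Subgroup (Equiv.Perm {p : ℂ × ℝ // 0 < p.2}),
    (∀ γ ∈ Γ, ∀ x y : {p : ℂ × ℝ // 0 < p.2},
      (‖(γ x).1.1 - (γ y).1.1‖ ^ 2 + ((γ x).1.2 - (γ y).1.2) ^ 2) / ((γ x).1.2 * (γ y).1.2)
        = (‖x.1.1 - y.1.1‖ ^ 2 + (x.1.2 - y.1.2) ^ 2) / (x.1.2 * y.1.2)) →
    (∀ x : {p : ℂ × ℝ // 0 < p.2}, ∀ R : ℝ,
      Set.Finite {γ : Equiv.Perm {p : ℂ × ℝ // 0 < p.2} | γ ∈ Γ ∧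
        (‖(γ x).1.1 - x.1.1‖ ^ 2 + ((γ x).1.2 - x.1.2) ^ 2) / ((γ x).1.2 * x.1.2) ≤ R}) →
    (∀ γ ∈ Γ, ∀ n : ℕ, 0 < n → γ ^ n = 1 → γ = 1) →
    (∃ F : Set (ℂ × ℝ), MeasurableSet F ∧ (∀ p ∈ F, 0 < p.2) ∧
      (∫⁻ p in F, ENNReal.ofReal (1 / p.2 ^ 3)) < ⊤ ∧
      ∀ x : {p : ℂ × ℝ // 0 < p.2}, ∃ γ ∈ Γ, (γ x).1 ∈ F) →
    (¬ ∃ K : Set {p : ℂ × ℝ // 0 < p.2}, IsCompact K ∧
      ∀ x : {p : ℂ × ℝ // 0 < p.2}, ∃ γ ∈ Γ, γ x ∈ K) →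
    (∃ c : ℝ, 0 < c ∧ ∀ᶠ n : ℕ in Filter.atTop,
      c ≤ Real.exp (-(n : ℝ)) * (Set.ncard {ℓ : ℝ | 0 < ℓ ∧ ℓ ≤ (n : ℝ) ∧ ∃ γ ∈ Γ,
        Real.cosh ℓ = 1 + (⨅ x : {p : ℂ × ℝ // 0 < p.2},
          (‖(γ x).1.1 - x.1.1‖ ^ 2 + ((γ x).1.2 - x.1.2) ^ 2) / ((γ x).1.2 * x.1.2)) / 2} : ℝ)) →
    (∃ C : ℝ, ∃ᶠ n : ℕ in Filter.atTop,
      Real.exp (-(n : ℝ)) * (Set.ncard {ℓ : ℝ | 0 < ℓ ∧ ℓ ≤ (n : ℝ) ∧ ∃ γ ∈ Γ,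
        Real.cosh ℓ = 1 + (⨅ x : {p : ℂ × ℝ // 0 < p.2},
          (‖(γ x).1.1 - x.1.1‖ ^ 2 + ((γ x).1.2 - x.1.2) ^ 2) / ((γ x).1.2 * x.1.2)) / 2} : ℝ) ≤ C) →
    ∃ d : ℕ, 0 < d ∧ ∃ φ : Equiv.Perm {p : ℂ × ℝ // 0 < p.2},
      (∀ x y : {p : ℂ × ℝ // 0 < p.2},
        (‖(φ x).1.1 - (φ y).1.1‖ ^ 2 + ((φ x).1.2 - (φ y).1.2) ^ 2) / ((φ x).1.2 * (φ y).1.2)
          = (‖x.1.1 - y.1.1‖ ^ 2 + (x.1.2 - y.1.2) ^ 2) / (x.1.2 * y.1.2)) ∧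
      (∃ S : Finset (Equiv.Perm {p : ℂ × ℝ // 0 < p.2}), ∀ γ ∈ Γ, ∃ s ∈ S, s⁻¹ * γ ∈ Γ ∧
        ∃ a b c e : ℂ, (∀ z ∈ ({a, b, c, e} : Set ℂ), IsIntegral ℤ z ∧
            ∃ u v : ℚ, z = (u : ℂ) + (v : ℂ) * ((Real.sqrt (d : ℝ) : ℂ) * Complex.I)) ∧
          a * e - b * c = 1 ∧ ∀ p : {p : ℂ × ℝ // 0 < p.2},
            ((φ * (s⁻¹ * γ) * φ⁻¹) p).1.1 =
              ((a * p.1.1 + b) * (starRingEnd ℂ) (c * p.1.1 + e) + a * (starRingEnd ℂ) c * ((p.1.2 : ℂ) ^ 2))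
                / (((‖c * p.1.1 + e‖ ^ 2 + ‖c‖ ^ 2 * p.1.2 ^ 2 : ℝ)) : ℂ) ∧
            ((φ * (s⁻¹ * γ) * φ⁻¹) p).1.2 = p.1.2 / (‖c * p.1.1 + e‖ ^ 2 + ‖c‖ ^ 2 * p.1.2 ^ 2)) ∧
      (∃ S : Finset (Equiv.Perm {p : ℂ × ℝ // 0 < p.2}), ∀ δ : Equiv.Perm {p : ℂ × ℝ // 0 < p.2},
        (∃ a b c e : ℂ, (∀ z ∈ ({a, b, c, e} : Set ℂ), IsIntegral ℤ z ∧
            ∃ u v : ℚ, z = (u : ℂ) + (v : ℂ) * ((Real.sqrt (d : ℝ) : ℂ) * Complex.I)) ∧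
          a * e - b * c = 1 ∧ ∀ p : {p : ℂ × ℝ // 0 < p.2},
            ((φ * δ * φ⁻¹) p).1.1 =
              ((a * p.1.1 + b) * (starRingEnd ℂ) (c * p.1.1 + e) + a * (starRingEnd ℂ) c * ((p.1.2 : ℂ) ^ 2))
                / (((‖c * p.1.1 + e‖ ^ 2 + ‖c‖ ^ 2 * p.1.2 ^ 2 : ℝ)) : ℂ) ∧
            ((φ * δ * φ⁻¹) p).1.2 = p.1.2 / (‖c * p.1.1 + e‖ ^ 2 + ‖c‖ ^ 2 * p.1.2 ^ 2)) →
        ∃ s ∈ S, s⁻¹ * δ ∈ Γ ∧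
          ∃ a b c e : ℂ, (∀ z ∈ ({a, b, c, e} : Set ℂ), IsIntegral ℤ z ∧
              ∃ u v : ℚ, z = (u : ℂ) + (v : ℂ) * ((Real.sqrt (d : ℝ) : ℂ) * Complex.I)) ∧
            a * e - b * c = 1 ∧ ∀ p : {p : ℂ × ℝ // 0 < p.2},
              ((φ * (s⁻¹ * δ) * φ⁻¹) p).1.1 =
                ((a * p.1.1 + b) * (starRingEnd ℂ) (c * p.1.1 + e) + a * (starRingEnd ℂ) c * ((p.1.2 : ℂ) ^ 2))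
                  / (((‖c * p.1.1 + e‖ ^ 2 + ‖c‖ ^ 2 * p.1.2 ^ 2 : ℝ)) : ℂ) ∧
              ((φ * (s⁻¹ * δ) * φ⁻¹) p).1.2 = p.1.2 / (‖c * p.1.1 + e‖ ^ 2 + ‖c‖ ^ 2 * p.1.2 ^ 2)) := by
  intro Γ hiso hdisc htf hfc hncc h1 h2
  obtain ⟨d, hd, φ, hφ, ⟨S, hS⟩, S', hS'⟩ := Pool.Agent.N530.LS.lsMain
    (Pool.Agent.N839.LS.stmM1 Pool.Agent.N530.LS.stmMa Pool.Agent.N530.LS.stmMb
      Pool.Agent.N530.LS.stmMc) Γ ⟨hiso, hdisc, htf, hfc, hncc⟩ h1 h2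
  refine ⟨d, hd, φ, hφ, ⟨S, fun γ hγ => ?_⟩, S', fun δ hδ => ?_⟩
  · obtain ⟨s, hs, hsγ, hA⟩ := hS γ hγ
    exact ⟨s, hs, hsγ, (Pool.Agent.N530.LS.OP_iff d _).mp hA⟩
  · obtain ⟨s, hs, hsδ, hA⟩ := hS' δ ((Pool.Agent.N530.LS.OP_iff d _).mpr hδ)
    exact ⟨s, hs, hsδ, (Pool.Agent.N530.LS.OP_iff d _).mp hA⟩

end Pool.Agent.S13303
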