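import Pool.Statements.S13341
import Pool.Agent.N677.Nag.Fin

set_option autoImplicit false
open Bundle
open scoped Manifold ContDiff
open Pool Pool.MP_6d5819_gt

namespace Pool.Agent.S13341

/-- For every compact simply connected Riemannian manifold whose points all have isometric symmetries with differential minus identity, if some antipodal finite set is larger than the total real Betti number, then some integral homology group has an element of order 2. -/
theorem result :
  ∀ (d : ℕ) (M : Type) [EMetricSpace M]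
    [ChartedSpace (EuclideanSpace ℝ (Fin d)) M]
    [IsManifold (𝓡 d) ∞ M]
    [RiemannianBundle (fun x : M ↦ TangentSpace (𝓡 d) x)]
    [IsContMDiffRiemannianBundle (𝓡 d) ∞ (EuclideanSpace ℝ (Fin d))
      (fun x : M ↦ TangentSpace (𝓡 d) x)]
    [IsRiemannianManifold (𝓡 d) M]
    [CompactSpace M] [SimplyConnectedSpace M]
    (s : M → M → M),
    (∀ x : M, Isometry (s x) ∧ s x x = x ∧
      mfderiv (𝓡 d) (𝓡 d) (s x) x = -ContinuousLinearMap.id ℝ (EuclideanSpace ℝ (Fin d))) →
    (∃ A : Finset M, (∀ x ∈ A, ∀ y ∈ A, s x y = y) ∧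
      (∑ i ∈ Finset.range (d + 1),
        Module.finrank ℝ
          ((((AlgebraicTopology.singularHomologyFunctor (ModuleCat.{0} ℝ) i).obj
            (ModuleCat.of ℝ ℝ)).obj (TopCat.of M) : ModuleCat.{0} ℝ) : Type)) < A.card) →
    ∃ i : ℕ, ∃ g : ((((AlgebraicTopology.singularHomologyFunctor (ModuleCat.{0} ℤ) i).obj
            (ModuleCat.of ℤ ℤ)).obj (TopCat.of M) : ModuleCat.{0} ℤ) : Type),
      addOrderOf g = 2 := by
  intro d M _ _ _ _ _ _ _ _ s hs hA
  have htop : ∀ x y : M, edist x y ≠ ⊤ := by
    intro x y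
    have h1 : IsClopen (Metric.eball y (⊤ : ENNReal)) :=
      ⟨Metric.isClosed_eball_top, Metric.isOpen_eball⟩
    have h2 := h1.eq_univ ⟨y, Metric.mem_eball_self (by simp)⟩
    have h3 : x ∈ Metric.eball y (⊤ : ENNReal) := by rw [h2]; trivial
    exact (Metric.mem_eball.1 h3).ne
  letI : MetricSpace M := EMetricSpace.toMetricSpace htop
  obtain ⟨A, hA, hlt⟩ := hA
  have hfr : Module.finrank ℝ (EuclideanSpace ℝ (Fin d)) = d := by simp
  apply Pool.Agent.N677.Nag.main (E := EuclideanSpace ℝ (Fin d)) s hs A hA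
  rw [hfr]
  exact hlt


end Pool.Agent.S13341
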