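import Pool.Statements.S13589
import Pool.Agent.N545.ST.Main

set_option autoImplicit false
open Pool Pool.MP_93ef73_gt

namespace Pool.Agent.S13589

/-- There exist d, a nonempty compact totally disconnected A in R^d with two distinct Steiner trees S, T, no terminal interior to segments in both, and nonempty compact M (∣M∣=∣A∣ if A finite) and r>0 with S an r-minimizer for M. -/
theorem result :
  ∃ (d : ℕ) (A S T M : Set (EuclideanSpace ℝ (Fin d))) (r : ℝ),
    IsCompact A ∧ A.Nonempty ∧ IsTotallyDisconnected A ∧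
    (IsCompact S ∧ IsConnected S ∧ A ⊆ S ∧
      MeasureTheory.Measure.hausdorffMeasure 1 S < ⊤ ∧
      ∀ S' : Set (EuclideanSpace ℝ (Fin d)), IsCompact S' → IsConnected S' → A ⊆ S' →
        MeasureTheory.Measure.hausdorffMeasure 1 S ≤ MeasureTheory.Measure.hausdorffMeasure 1 S') ∧
    (IsCompact T ∧ IsConnected T ∧ A ⊆ T ∧
      MeasureTheory.Measure.hausdorffMeasure 1 T < ⊤ ∧
      ∀ S' : Set (EuclideanSpace ℝ (Fin d)), IsCompact S' → IsConnected S' → A ⊆ S' →
        MeasureTheory.Measure.hausdorffMeasure 1 T ≤ MeasureTheory.Measure.hausdorffMeasure 1 S') ∧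
    S ≠ T ∧
    IsCompact M ∧ M.Nonempty ∧ 0 < r ∧
    (A.Finite → M.Finite ∧ M.ncard = A.ncard) ∧
    (¬ ∃ a ∈ A,
        (∃ x y : EuclideanSpace ℝ (Fin d), x ≠ y ∧ segment ℝ x y ⊆ S ∧ a ∈ openSegment ℝ x y) ∧
        (∃ x y : EuclideanSpace ℝ (Fin d), x ≠ y ∧ segment ℝ x y ⊆ T ∧ a ∈ openSegment ℝ x y)) ∧
    (∀ y ∈ M, Metric.infDist y S ≤ r) ∧
    ∀ W : Set (EuclideanSpace ℝ (Fin d)), IsCompact W → IsConnected W →
      (∀ y ∈ M, Metric.infDist y W ≤ r) →
        MeasureTheory.Measure.hausdorffMeasure 1 S ≤ MeasureTheory.Measure.hausdorffMeasure 1 W := by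
  refine ⟨2, Set.range N545.ST.ter, N545.ST.TS, N545.ST.TT, Set.range N545.ST.cen, 1 / 1000,
    (Set.finite_range _).isCompact, Set.range_nonempty _,
    (Set.finite_range _).countable.isTotallyDisconnected,
    ⟨N545.ST.compact_TS, N545.ST.conn_TS, N545.ST.ter_mem_TS,
      N545.ST.length_TS.trans_lt ENNReal.ofReal_lt_top, fun S' _ h2 h3 =>
      N545.ST.length_TS.trans (N545.ST.lower_ter h2.isPreconnected h3)⟩,
    ⟨N545.ST.compact_TT, N545.ST.conn_TT, N545.ST.ter_mem_TT,
      N545.ST.length_TT.trans_lt ENNReal.ofReal_lt_top, fun S' _ h2 h3 =>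
      N545.ST.length_TT.trans (N545.ST.lower_ter h2.isPreconnected h3)⟩,
    N545.ST.TS_ne_TT, (Set.finite_range _).isCompact, Set.range_nonempty _, by norm_num,
    fun _ => ⟨Set.finite_range _, ?_⟩, N545.ST.no_common, ?_, fun W h1 h2 h3 =>
      N545.ST.length_TS.trans (N545.ST.lower_cen h1 h2 h3)⟩
  · rw [Set.ncard_range_of_injective N545.ST.cen_inj, Set.ncard_range_of_injective N545.ST.ter_inj]
  · rintro _ ⟨⟨σ, τ, o⟩, rfl⟩
    cases o
    · have h : Metric.infDist (N545.ST.cen (σ, τ, false)) N545.ST.TS = 0 := by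
        apply Metric.infDist_zero_of_mem
        simpa [N545.ST.cen] using N545.ST.ma_mem_TS σ τ
      rw [h]; norm_num
    · refine (Metric.infDist_le_dist_of_mem (N545.ST.cb_mem_TS σ τ)).trans ?_
      simp only [N545.ST.cen, if_true]
      rw [N545.ST.dist_eq2]
      apply Real.sqrt_le_iff.2
      refine ⟨by norm_num, ?_⟩
      have e1 := N545.ST.s_sq
      cases σ <;> cases τ <;> simp only [N545.ST.mb0, N545.ST.mb1, N545.ST.cb0, N545.ST.cb1,
        N545.ST.sg_true, N545.ST.sg_false] <;> nlinarith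

end Pool.Agent.S13589
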