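import Pool.Statements.S13596
import Pool.Agent.N724.UPLow

set_option autoImplicit false
open Pool Pool.MP_94b191_gt

namespace Pool.Agent.S13596

/-- The negation of the preceding statement: Every continuum in which any two points are joined by a uniform family of paths covering the space has, for any two points, a uniform family of arcs between them covering the union of all arcs joining them. -/
theorem result :
    ¬ (∀ (X : Type) [MetricSpace X] [CompactSpace X] [ConnectedSpace X],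
      (∀ a b : X, ∃ P : Set (Path a b),
          (∀ ε : ℝ, ε > 0 → ∃ n : ℕ, ∀ p ∈ P, ∃ t : Fin (n + 1) → unitInterval,
              t 0 = 0 ∧ t (Fin.last n) = 1 ∧ StrictMono t ∧
              ∀ i : Fin n, Metric.diam (⇑p '' Set.Icc (t i.castSucc) (t i.succ)) ≤ ε) ∧
          (⋃ p ∈ P, Set.range ⇑p) = Set.univ) →
      (∀ a b : X, ∃ P : Set (Path a b),
          (∀ p ∈ P, Function.Injective ⇑p) ∧
          (∀ ε : ℝ, ε > 0 → ∃ n : ℕ, ∀ p ∈ P, ∃ t : Fin (n + 1) → unitInterval,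
              t 0 = 0 ∧ t (Fin.last n) = 1 ∧ StrictMono t ∧
              ∀ i : Fin n, Metric.diam (⇑p '' Set.Icc (t i.castSucc) (t i.succ)) ≤ ε) ∧
          (⋃ p ∈ P, Set.range ⇑p) =
            ⋃ (q : Path a b) (_ : Function.Injective ⇑q), Set.range ⇑q)) := by
  intro H
  obtain ⟨P, hinj, hunif, hunion⟩ :=
    H Pool.Agent.N724.UP.X (fun a b => Pool.Agent.N724.UP.uniform_paths a b)
      Pool.Agent.N724.UP.cPt Pool.Agent.N724.UP.bPt
  obtain ⟨n, hn⟩ := hunif (1 / 4) (by norm_num)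
  obtain ⟨j, hj⟩ : ∃ j : ℕ, 1 ≤ j ∧ n + 2 < 2 ^ j := by
    refine ⟨n + 3, by omega, ?_⟩
    have : n + 3 < 2 ^ (n + 3) := Nat.lt_two_pow_self
    omega
  obtain ⟨q, hq, hmid⟩ := Pool.Agent.N724.UP.exists_arc j hj.1
  have hx : Pool.Agent.N724.UP.mid j hj.1 ∈ ⋃ p ∈ P, Set.range ⇑p := by
    rw [hunion]
    exact Set.mem_iUnion₂.2 ⟨q, hq, hmid⟩
  rw [Set.mem_iUnion₂] at hx
  obtain ⟨p, hpP, hp⟩ := hx
  obtain ⟨t, ht0, ht1, -, hd⟩ := hn p hpP
  have := Pool.Agent.N724.UP.long (hinj p hpP) hj.1 hp t ht0 ht1 hd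
  omega

end Pool.Agent.S13596
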