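import Pool.Statements.S13772
import Pool.Agent.Helper531.Sine

set_option autoImplicit false
open Pool Pool.MP_b1ea19_gt

namespace Pool.Agent.S13772

open Set Topology Pool.Agent.Helper531

theorem image_cc {X : Set (ℝ × ℝ)} (F : Set X) {x : X} (hx : x ∈ F) :
    Subtype.val '' connectedComponentIn F x = connectedComponentIn (Subtype.val '' F) x.1 := by
  apply Subset.antisymm
  · apply IsPreconnected.subset_connectedComponentIn
    · exact isPreconnected_connectedComponentIn.image _ continuous_subtype_val.continuousOn
    · exact mem_image_of_mem _ (mem_connectedComponentIn hx)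
    · exact image_mono (connectedComponentIn_subset F x)
  · have hsub : connectedComponentIn (Subtype.val '' F) x.1 ⊆ Subtype.val '' F :=
      connectedComponentIn_subset _ _
    have h1 : Subtype.val '' (Subtype.val ⁻¹' connectedComponentIn (Subtype.val '' F) x.1 : Set X) =
        connectedComponentIn (Subtype.val '' F) x.1 := by
      rw [image_preimage_eq_iff]
      exact hsub.trans (image_subset_range _ _)
    rw [← h1]
    apply image_mono
    apply IsPreconnected.subset_connectedComponentIn
    · rw [← IsInducing.subtypeVal.isPreconnected_image, h1]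
      exact isPreconnected_connectedComponentIn
    · exact mem_connectedComponentIn (mem_image_of_mem _ hx)
    · intro y hy
      obtain ⟨z, hz, hzy⟩ := hsub hy
      rwa [← Subtype.ext hzy]

theorem loc_iff {X : Set (ℝ × ℝ)} (C : Set X) :
    Subtype.val '' {p : X | p ∈ C ∧ ∃ V : Set X, IsOpen V ∧ p ∈ V ∧
          ¬ IsPreconnected (connectedComponentIn (V ∩ C) p \ {p})} =
      LocalSeparatingPoints (Subtype.val '' C) := by
  have key : ∀ (p : X) (_ : p ∈ C) (U : Set (ℝ × ℝ)), p.1 ∈ U →
      (IsPreconnected (connectedComponentIn ((Subtype.val ⁻¹' U) ∩ C) p \ {p}) ↔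
        IsPreconnected (connectedComponentIn ((Subtype.val '' C) ∩ U) p.1 \ {p.1})) := by
    intro p hp U hU
    have h1 : (Subtype.val '' C) ∩ U = Subtype.val '' ((Subtype.val ⁻¹' U) ∩ C) := by
      rw [image_preimage_inter, inter_comm]
    rw [h1, ← image_cc _ (⟨hU, hp⟩ : p ∈ (Subtype.val ⁻¹' U) ∩ C), ← image_singleton,
      ← image_diff Subtype.val_injective, IsInducing.subtypeVal.isPreconnected_image]
  ext q
  constructor
  · rintro ⟨p, ⟨hp, V, hV, hpV, h⟩, rfl⟩
    obtain ⟨U, hU, rfl⟩ := isOpen_induced_iff.1 hV
    exact ⟨mem_image_of_mem _ hp, U, hU, hpV, fun h' => h ((key p hp U hpV).2 h')⟩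
  · rintro ⟨⟨p, hp, rfl⟩, U, hU, hpU, h⟩
    exact ⟨p, ⟨hp, _, hU.preimage continuous_subtype_val, hpU,
      fun h' => h ((key p hp U hpU).1 h')⟩, rfl⟩

/-- The negation of the preceding statement: If X is a continuum in which every subcontinuum C has a connected set of local separating points, then any two distinct points of any connected subset of X are joined by an arc lying inside that subset. -/
theorem result :
    ¬ (∀ (X : Type) [MetricSpace X] [CompactSpace X] [ConnectedSpace X],
      (∀ C : Set X, IsCompact C → IsConnected C →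
        IsPreconnected {p : X | p ∈ C ∧ ∃ V : Set X, IsOpen V ∧ p ∈ V ∧
          ¬ IsPreconnected (connectedComponentIn (V ∩ C) p \ {p})}) →
      ∀ A : Set X, IsConnected A → ∀ x ∈ A, ∀ y ∈ A, x ≠ y →
        ∃ f : unitInterval → X, Continuous f ∧ Function.Injective f ∧
          f 0 = x ∧ f 1 = y ∧ Set.range f ⊆ A) := by
  intro H
  have hc : CompactSpace Sine.X := isCompact_iff_compactSpace.1 Sine.X_compact
  have hcon : ConnectedSpace Sine.X := isConnected_iff_connectedSpace.1 Sine.X_connected
  have h00 : ((0:ℝ), (0:ℝ)) ∈ Sine.X :=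
    ⟨le_rfl, zero_le_one, by norm_num, fun h => absurd h (lt_irrefl _)⟩
  have hne : ((0:ℝ), (0:ℝ)) ≠ Sine.g 1 := by
    intro he
    have := congrArg Prod.fst he
    simp [Sine.g] at this
  obtain ⟨f, hf, -, hf0, hf1, -⟩ := H Sine.X (by
    intro C hC hC'
    rw [← IsInducing.subtypeVal.isPreconnected_image, loc_iff]
    apply Sine.L_preconnected
    · rintro _ ⟨p, _, rfl⟩
      exact p.2
    · exact hC.image continuous_subtype_val
    · exact hC'.isPreconnected.image _ continuous_subtype_val.continuousOn) univ isConnected_univ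
    ⟨_, h00⟩ trivial ⟨_, Sine.g_mem one_pos le_rfl⟩ trivial
    (fun h => hne (congrArg Subtype.val h))
  exact Sine.no_path (fun t => (f t).1) (continuous_subtype_val.comp hf) (by simp [hf0])
    (by simp [hf1]) (by rintro _ ⟨t, rfl⟩; exact (f t).2)

end Pool.Agent.S13772
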