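import Pool.Statements.S13885
-- import your own Pool.Agent.* helpers here

set_option autoImplicit false
open Pool Pool.MP_c36963_gt

namespace Pool.Agent.S13885

/-- There exists r : ℂ → ℂ mapping the closed unit disk into the unit circle, fixing the circle, with connected fibers in the disk, such that only finitely many circle points y fail: for all circle sequences s_n → y, every point of the Kuratowski lim sup of the fibers r⁻¹(s_n) lies in r⁻¹(y). -/
theorem result :
    ∃ r : ℂ → ℂ,
      (∀ z ∈ Metric.closedBall (0:ℂ) 1, r z ∈ Metric.sphere (0:ℂ) 1) ∧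
      (∀ y ∈ Metric.sphere (0:ℂ) 1, r y = y) ∧
      (∀ y ∈ Metric.sphere (0:ℂ) 1,
        IsConnected {z : ℂ | z ∈ Metric.closedBall (0:ℂ) 1 ∧ r z = y}) ∧
      Set.Finite {y : ℂ | y ∈ Metric.sphere (0:ℂ) 1 ∧
        ¬ (∀ s : ℕ → ℂ, (∀ n, s n ∈ Metric.sphere (0:ℂ) 1) →
            Filter.Tendsto s Filter.atTop (nhds y) →
            ∀ x : ℂ, (∀ ε : ℝ, ε > 0 → ∀ N : ℕ, ∃ n : ℕ, n ≥ N ∧
                ∃ z : ℂ, z ∈ Metric.closedBall (0:ℂ) 1 ∧ r z = s n ∧ dist z x < ε) →
              r x = y)} := by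
  classical
  let r : ℂ → ℂ := fun z => if ‖z‖ = 1 then z else 1
  have hr1 : ∀ z : ℂ, ‖z‖ = 1 → r z = z := fun z hz => if_pos hz
  have hr2 : ∀ z : ℂ, ‖z‖ ≠ 1 → r z = 1 := fun z hz => if_neg hz
  have hrne : ∀ z : ℂ, r z ≠ 1 → r z = z ∧ ‖z‖ = 1 := by
    intro z hz
    by_cases h : ‖z‖ = 1
    · exact ⟨hr1 z h, h⟩
    · exact absurd (hr2 z h) hz
  refine ⟨r, ?_, ?_, ?_, ?_⟩
  · intro z _
    rw [mem_sphere_zero_iff_norm]
    by_cases h : ‖z‖ = 1
    · rw [hr1 z h, h]
    · rw [hr2 z h, norm_one]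
  · intro y hy
    exact hr1 y (mem_sphere_zero_iff_norm.1 hy)
  · intro y hy
    have hy' := mem_sphere_zero_iff_norm.1 hy
    by_cases h1 : y = 1
    · subst h1
      have hb : IsConnected (Metric.ball (0 : ℂ) 1) :=
        ⟨⟨0, Metric.mem_ball_self one_pos⟩, (convex_ball (0 : ℂ) 1).isPreconnected⟩
      refine hb.subset_closure ?_ ?_
      · intro z hz
        rw [mem_ball_zero_iff] at hz
        exact ⟨by rw [mem_closedBall_zero_iff]; exact hz.le, hr2 z hz.ne⟩
      · intro z hz
        rw [closure_ball (0 : ℂ) one_ne_zero]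
        exact hz.1
    · have : {z : ℂ | z ∈ Metric.closedBall (0:ℂ) 1 ∧ r z = y} = {y} := by
        ext z
        constructor
        · rintro ⟨_, hz⟩
          have := (hrne z (by rw [hz]; exact h1)).1
          rw [Set.mem_singleton_iff, ← this, hz]
        · rintro rfl
          exact ⟨by rw [mem_closedBall_zero_iff]; exact hy'.le, hr1 _ hy'⟩
      rw [this]
      exact isConnected_singleton
  · refine (Set.finite_singleton (1 : ℂ)).subset ?_
    rintro y ⟨hy, hcon⟩
    by_contra h1
    rw [Set.mem_singleton_iff] at h1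
    apply hcon
    intro s hs hlim x hx
    have hy' := mem_sphere_zero_iff_norm.1 hy
    have hev : ∀ᶠ n in Filter.atTop, s n ≠ 1 := hlim.eventually_ne h1
    obtain ⟨N, hN⟩ := Filter.eventually_atTop.1 hev
    have hxy : x = y := by
      by_contra hne
      have hd : 0 < dist x y := dist_pos.2 hne
      obtain ⟨M, hM⟩ := Filter.eventually_atTop.1
        (Metric.tendsto_nhds.1 hlim (dist x y / 2) (by positivity))
      obtain ⟨n, hn, z, _, hz, hzx⟩ := hx (dist x y / 2) (by positivity) (max N M)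
      have h3 : r z ≠ 1 := by rw [hz]; exact hN n ((le_max_left _ _).trans hn)
      have h4 : z = s n := by rw [← (hrne z h3).1, hz]
      have h5 := hM n ((le_max_right _ _).trans hn)
      rw [h4] at hzx
      have h6 := dist_triangle x (s n) y
      rw [dist_comm x (s n)] at h6
      linarith
    rw [hxy]
    exact hr1 y hy'

end Pool.Agent.S13885
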