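import Pool.Statements.S14076
import Pool.Agent.N233.Retr

set_option autoImplicit false
open Pool Pool.MP_dc63d3_gt

namespace Pool.Agent.S14076

/-- The negation of the preceding statement: For every real Hilbert space there is a constant C such that, for each n ≥ 2, some retraction from nonempty subsets of at most n points onto those of at most n−1 points is C-Lipschitz for the Hausdorff distance. -/
theorem result :
    ¬ (∀ (H : Type) [NormedAddCommGroup H] [InnerProductSpace ℝ H] [CompleteSpace H],
      ∃ C : ℝ, ∀ n : ℕ, 2 ≤ n →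
        ∃ r : Finset H → Finset H,
          (∀ s : Finset H, s.Nonempty → s.card ≤ n →
              (r s).Nonempty ∧ (r s).card ≤ n - 1) ∧
          (∀ s : Finset H, s.Nonempty → s.card ≤ n - 1 → r s = s) ∧
          (∀ s t : Finset H, s.Nonempty → s.card ≤ n → t.Nonempty → t.card ≤ n →
              Metric.hausdorffDist ((r s : Finset H) : Set H) ((r t : Finset H) : Set H)
                ≤ C * Metric.hausdorffDist ((s : Finset H) : Set H) ((t : Finset H) : Set H))) := by
  intro hall
  obtain ⟨C₀, hC₀⟩ := hall (lp (fun _ : ℕ => ℂ) 2)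
  set C : ℝ := max C₀ 0 with hC
  have hC0 : 0 ≤ C := le_max_right _ _
  obtain ⟨n, hn⟩ := exists_nat_gt (max 2 (2 * (C + 1) * (2 * Real.pi)))
  have hn2' : (2:ℝ) < n := lt_of_le_of_lt (le_max_left _ _) hn
  have hn2 : 2 ≤ n := by
    have : (2:ℝ) ≤ n := hn2'.le
    exact_mod_cast this
  have hnC : 2 * (C + 1) * (2 * Real.pi) < n := lt_of_le_of_lt (le_max_right _ _) hn
  have hnpos : (0:ℝ) < n := by linarith
  obtain ⟨r, h1, h2, h3⟩ := hC₀ n hn2
  have hρ := Complex.isPrimitiveRoot_exp n (by omega)
  refine Pool.Agent.N233.Retr.main_contra (E := lp (fun _ : ℕ => ℂ) 2) hn2 hρ hC0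
    (default : HilbertBasis ℕ ℂ (lp (fun _ : ℕ => ℂ) 2)).orthonormal h1 h2 ?_ ?_
  · intro s t hs hs' ht ht'
    refine (h3 s t hs hs' ht ht').trans ?_
    exact mul_le_mul_of_nonneg_right (le_max_left _ _) Metric.hausdorffDist_nonneg
  · have e : (2 * (Real.pi : ℂ) * Complex.I / n) = Complex.I * ((2 * Real.pi / n : ℝ) : ℂ) := by
      push_cast
      ring
    rw [e]
    have h4 := Real.norm_exp_I_mul_ofReal_sub_one_le (x := 2 * Real.pi / n)
    rw [Real.norm_of_nonneg (by positivity)] at h4
    have h5 : (C + 1) * (2 * Real.pi / n) ≤ 1 / 2 := by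
      rw [mul_div_assoc', div_le_iff₀ hnpos]
      linarith
    exact (mul_le_mul_of_nonneg_left h4 (by linarith)).trans h5

end Pool.Agent.S14076
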