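import Pool.Statements.S14433
import Pool.Agent.N480.CV.Fin3

set_option autoImplicit false
open Pool Pool.MP_1ab1ed_lc

namespace Pool.Agent.S14433

/-- For every infinite countable group Γ, the shift relation on the infinite-orbit points of (2^ℕ)^Γ is Borel isomorphic to the orbit relation of a continuous action of a countable group on a compact metrizable space. -/
theorem result :
    ∀ (Γ : Type) [Group Γ] [Countable Γ] [Infinite Γ],
      ∃ (Y : Type) (tY : TopologicalSpace Y) (mY : MeasurableSpace Y),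
        CompactSpace Y ∧ TopologicalSpace.MetrizableSpace Y ∧ BorelSpace Y ∧
        ∃ (Δ : Type) (gΔ : Group Δ) (aΔ : MulAction Δ Y),
          Countable Δ ∧ ContinuousConstSMul Δ Y ∧
          ∃ f : (Γ → ℕ → Bool) → Y, Measurable f ∧
            Set.InjOn f {x : Γ → ℕ → Bool |
              (Set.range (fun γ : Γ => fun δ : Γ => x (γ⁻¹ * δ))).Infinite} ∧
            f '' {x : Γ → ℕ → Bool |
              (Set.range (fun γ : Γ => fun δ : Γ => x (γ⁻¹ * δ))).Infinite} = Set.univ ∧
            ∀ a ∈ {x : Γ → ℕ → Bool |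
                (Set.range (fun γ : Γ => fun δ : Γ => x (γ⁻¹ * δ))).Infinite},
            ∀ b ∈ {x : Γ → ℕ → Bool |
                (Set.range (fun γ : Γ => fun δ : Γ => x (γ⁻¹ * δ))).Infinite},
              ((∃ γ : Γ, ∀ δ : Γ, b δ = a (γ⁻¹ * δ)) ↔ ∃ g : Δ, g • f a = f b) := by
  exact Pool.Agent.N480.CV.final Pool.Agent.N480.CV.c_NM Pool.Agent.N480.CV.c_LFG
    Pool.Agent.N480.CV.c_FWD Pool.Agent.N480.CV.c_BWD Pool.Agent.N480.CV.t_RED
    Pool.Agent.N480.CV.t_KBL

end Pool.Agent.S14433
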