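import Pool.Statements.S14568
import Pool.Agent.N616.GL.Col

set_option autoImplicit false
open Classical
open Pool Pool.MP_354b3e_lc

namespace Pool.Agent.S14568

/-- The negation of the preceding statement: For every noncomputable A Turing-below the halting set there is a computable, locally finite, planar graph on ℕ whose neighbour lists are A-computable, with chromatic number 2, but with no computable proper colouring using finitely many colours. -/
theorem result :
    ¬ (∀ A : Set ℕ,
      ¬ ComputablePred (fun n : ℕ => n ∈ A) →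
      TuringReducible (fun n : ℕ => Part.some (if n ∈ A then (1 : ℕ) else 0))
        (fun n : ℕ => Part.some
          (if ((Denumerable.ofNat Nat.Partrec.Code n).eval n).Dom then (1 : ℕ) else 0)) →
      ∃ G : SimpleGraph ℕ,
        ComputablePred (fun p : ℕ × ℕ => G.Adj p.1 p.2) ∧
        (∃ N : ℕ → Finset ℕ, (∀ x y : ℕ, G.Adj x y ↔ y ∈ N x) ∧
          TuringReducible (fun x : ℕ => Part.some (Encodable.encode (N x)))
            (fun n : ℕ => Part.some (if n ∈ A then (1 : ℕ) else 0))) ∧
        (∃ f : ℕ → EuclideanSpace ℝ (Fin 2), Function.Injective f ∧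
          ∃ γ : ∀ u v : ℕ, Path (f u) (f v),
            (∀ u v : ℕ, G.Adj u v → Function.Injective (fun t : unitInterval => γ u v t)) ∧
            (∀ u v w : ℕ, G.Adj u v → ∀ t : unitInterval, γ u v t = f w → w = u ∨ w = v) ∧
            (∀ u v u' v' : ℕ, G.Adj u v → G.Adj u' v' →
              Sym2.mk (u, v) ≠ Sym2.mk (u', v') →
              ∀ t t' : unitInterval, γ u v t = γ u' v' t' →
                ∃ w : ℕ, (w = u ∨ w = v) ∧ (w = u' ∨ w = v') ∧ γ u v t = f w)) ∧
        G.chromaticNumber = 2 ∧
        ∀ k : ℕ, ∀ c : ℕ → ℕ, Computable c → (∀ x, c x < k) →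
          ∃ x y : ℕ, G.Adj x y ∧ c x = c y) := by
  intro hmain
  obtain ⟨A, hAK, hA⟩ := Pool.Agent.N616.GL.exists_oneGen
  have hchi : ∀ B : Set ℕ, (fun n : ℕ => Part.some (if n ∈ B then (1 : ℕ) else 0)) =
      Pool.Agent.Helper578.JD.Defs.chi B := by
    intro B
    funext n
    unfold Pool.Agent.Helper578.JD.Defs.chi Pool.Agent.Helper578.JD.Defs.chiN
    congr
  have hK : (fun n : ℕ => Part.some
      (if ((Denumerable.ofNat Nat.Partrec.Code n).eval n).Dom then (1 : ℕ) else 0)) =
      Pool.Agent.Helper578.JD.Defs.chi Pool.Agent.N616.GL.K := by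
    rw [← hchi]
    rfl
  obtain ⟨G, hG1, ⟨N, hN1, hN2⟩, -, hchr, hcol⟩ := hmain A
    (Pool.Agent.N616.GL.not_computable hA) (by rw [hK, hchi]; exact hAK)
  rw [hchi] at hN2
  obtain ⟨b, hb, hb'⟩ := Pool.Agent.N616.GL.bound_of_generic hA hG1 hN1 hN2
  have h2 : G.Colorable 2 := by
    rw [← SimpleGraph.chromaticNumber_le_iff_colorable, hchr]
    rfl
  obtain ⟨C⟩ := h2
  obtain ⟨c, hc1, hc2, hc3⟩ := Pool.Agent.N616.GL.exists_col (adj := fun x y => G.Adj x y) hG1
    (fun x y h => h.symm) hb hb' (f := fun x => decide (C x = 0)) (by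
      intro x y h heq
      have hne : C x ≠ C y := C.valid h
      have h0 := congrArg (fun t : Bool => t = true) heq
      simp only [decide_eq_true_eq, eq_iff_iff] at h0
      apply hne
      have hx := (C x).isLt
      have hy := (C y).isLt
      by_cases hz : C x = 0
      · rw [hz, h0.1 hz]
      · have hz' : C y ≠ 0 := fun h => hz (h0.2 h)
        apply Fin.ext
        have e1 : (C x).val ≠ 0 := fun h => hz (Fin.ext h)
        have e2 : (C y).val ≠ 0 := fun h => hz' (Fin.ext h)
        omega)
  obtain ⟨x, y, hxy, he⟩ := hcol 4 c hc1 hc2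
  exact hc3 x y hxy he

end Pool.Agent.S14568
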