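import Pool.Statements.S14612

set_option autoImplicit false
open Pool Pool.MP_3c695a_lc

namespace Pool.Agent.S14612

open Nat.Partrec (Code)

/-- stage `s` of the `e`-th c.e. set -/
def W (s e y : ℕ) : Bool := (Code.evaln s (Denumerable.ofNat Code e) y).isSome

theorem W_mono {s t e y : ℕ} (h : s ≤ t) (hW : W s e y = true) : W t e y = true := by
  unfold W at *
  rw [Option.isSome_iff_exists] at *
  obtain ⟨a, ha⟩ := hW
  exact ⟨a, Code.evaln_mono h ha⟩

/-- `z = ⟨s, ⟨i, j⟩⟩` shows that, in the opponent `e`, the indices `i ≠ j` got the markers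
`2 * e` and `2 * e + 1` -/
def Cond (e z : ℕ) : Prop :=
  z.unpair.2.unpair.1 ≠ z.unpair.2.unpair.2 ∧
    W z.unpair.1 e.unpair.1 (Nat.pair z.unpair.2.unpair.1 (2 * e)) = true ∧
    W z.unpair.1 e.unpair.1 (Nat.pair z.unpair.2.unpair.2 (2 * e + 1)) = true

/-- the index trapped by the marker `x` according to `z` -/
def idx (x z : ℕ) : ℕ := if x % 2 = 0 then z.unpair.2.unpair.1 else z.unpair.2.unpair.2

def First (e z : ℕ) : Prop := Cond e z ∧ ∀ z' < z, ¬ Cond e z'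

def TS (x w : ℕ) : Prop :=
  First (x / 2) w.unpair.1 ∧
    W w.unpair.2 (x / 2).unpair.2 (Nat.pair (idx x w.unpair.1) x) = true

/-- the pair `e` has been collapsed -/
def C (e : ℕ) : Prop := ∃ z, Cond e z

/-- the marker `x` has been flipped -/
def T (x : ℕ) : Prop := ∃ w, TS x w

theorem exists_first {e : ℕ} (h : C e) : ∃ z, First e z := by
  classical
  obtain ⟨z, hz⟩ := h
  induction z using Nat.strong_induction_on with
  | _ z ih =>
    by_cases h : ∀ z' < z, ¬ Cond e z'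
    · exact ⟨z, hz, h⟩
    · push Not at h
      obtain ⟨z', h1, h2⟩ := h
      exact ih z' h1 h2

theorem First.unique {e z z' : ℕ} (h : First e z) (h' : First e z') : z = z' := by
  rcases lt_trichotomy z z' with h1 | h1 | h1
  · exact absurd h.1 (h'.2 z h1)
  · exact h1
  · exact absurd h'.1 (h.2 z' h1)

theorem C_of_T {x : ℕ} (h : T x) : C (x / 2) := by
  obtain ⟨w, h1, -⟩ := h
  exact ⟨_, h1.1⟩

/-- the numbering -/
def nu (k : ℕ) : Set ℕ :=
  {x | (x / 2 = k / 2 ∧ (k = x ∨ C (x / 2)) ∧ ¬ T x) ∨ (x / 2 ≠ k / 2 ∧ T x)}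

theorem nu_ne {k l : ℕ} (h : k / 2 ≠ l / 2) : nu k ≠ nu l := by
  intro h1
  have h2 : k ∈ nu k ↔ k ∈ nu l := by rw [h1]
  simp only [nu, Set.mem_ofPred_eq] at h2
  tauto

theorem nu_eq {k l : ℕ} (h : k / 2 = l / 2) (hC : C (k / 2)) : nu k = nu l := by
  ext x
  simp only [nu, Set.mem_ofPred_eq]
  constructor
  · rintro (⟨h1, h2, h3⟩ | ⟨h1, h2⟩)
    · exact Or.inl ⟨h1.trans h, Or.inr (h1 ▸ hC), h3⟩
    · exact Or.inr ⟨fun h3 => h1 (h3.trans h.symm), h2⟩
  · rintro (⟨h1, h2, h3⟩ | ⟨h1, h2⟩)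
    · have h4 : x / 2 = k / 2 := h1.trans h.symm
      exact Or.inl ⟨h4, Or.inr (h4 ▸ hC), h3⟩
    · exact Or.inr ⟨fun h3 => h1 (h3.trans h), h2⟩

theorem nu_ne' {k l : ℕ} (h : k ≠ l) (hC : ¬ C (k / 2)) : nu k ≠ nu l := by
  by_cases h0 : k / 2 = l / 2
  · intro h1
    have h2 : k ∈ nu k ↔ k ∈ nu l := by rw [h1]
    have h3 : ¬ T k := fun h4 => hC (C_of_T h4)
    simp only [nu, Set.mem_ofPred_eq] at h2
    have h4 : ¬ l = k := fun h => by omega
    tauto
  · exact nu_ne h0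

theorem nu_eq_iff (k l : ℕ) : nu k = nu l ↔ k = l ∨ (k / 2 = l / 2 ∧ C (k / 2)) := by
  constructor
  · intro h
    by_cases h1 : k = l
    · exact Or.inl h1
    · right
      by_contra h2
      by_cases h3 : k / 2 = l / 2
      · have h4 : ¬ C (k / 2) := fun h5 => h2 ⟨h3, h5⟩
        exact nu_ne' h1 h4 h
      · exact nu_ne h3 h
  · rintro (rfl | ⟨h1, h2⟩)
    · rfl
    · exact nu_eq h1 h2

/-! ### Computability -/

section Aux
variable {α : Type*} [Primcodable α]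

theorem re_ex {R : α → ℕ → Prop} (hR : PrimrecRel R) : REPred fun a => ∃ s, R a s := by
  classical
  have h2 : Partrec fun a : α => Nat.rfind
      (fun s => Part.some (decide (R a s)) : ℕ →. Bool) := by
    refine Partrec.rfind ?_
    have h3 : Primrec fun q : α × ℕ => decide (R q.1 q.2) := hR.decide
    exact Computable.partrec h3.to_comp
  refine h2.dom_re.of_eq fun p => ?_
  refine Nat.rfind_dom.trans ?_
  constructor
  · rintro ⟨s, h3, -⟩
    have h4 := Part.mem_some_iff.1 h3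
    exact ⟨s, by simpa using h4.symm⟩
  · rintro ⟨s, h3⟩
    exact ⟨s, Part.mem_some_iff.2 (by simpa using h3), fun _ => trivial⟩

theorem primrec_W {f g h : α → ℕ} (hf : Primrec f) (hg : Primrec g) (hh : Primrec h) :
    PrimrecPred fun a => W (f a) (g a) (h a) = true := by
  have h1 : Primrec fun a => W (f a) (g a) (h a) := by
    unfold W
    refine Primrec.option_isSome.comp ?_
    exact Code.primrec_evaln.comp ((hf.pair ((Primrec.ofNat Code).comp hg)).pair hh)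
  exact Primrec.eq.comp h1 (Primrec.const true)

theorem u1 {f : α → ℕ} (hf : Primrec f) : Primrec fun a => (f a).unpair.1 :=
  Primrec.fst.comp (Primrec.unpair.comp hf)

theorem u2 {f : α → ℕ} (hf : Primrec f) : Primrec fun a => (f a).unpair.2 :=
  Primrec.snd.comp (Primrec.unpair.comp hf)

theorem half {f : α → ℕ} (hf : Primrec f) : Primrec fun a => f a / 2 :=
  Primrec.nat_div.comp hf (Primrec.const 2)

theorem mod2 {f : α → ℕ} (hf : Primrec f) : Primrec fun a => f a % 2 :=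
  Primrec.nat_mod.comp hf (Primrec.const 2)

theorem primrec_Cond {f g : α → ℕ} (hf : Primrec f) (hg : Primrec g) :
    PrimrecPred fun a => Cond (f a) (g a) := by
  unfold Cond
  refine PrimrecPred.and (PrimrecPred.not (Primrec.eq.comp (u1 (u2 hg)) (u2 (u2 hg)))) ?_
  have h2 : Primrec fun a => 2 * f a := Primrec.nat_mul.comp (Primrec.const 2) hf
  have h3 : Primrec fun a => 2 * f a + 1 := Primrec.succ.comp h2
  refine PrimrecPred.and ?_ ?_
  · exact primrec_W (u1 hg) (u1 hf) (Primrec₂.natPair.comp (u1 (u2 hg)) h2)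
  · exact primrec_W (u1 hg) (u1 hf) (Primrec₂.natPair.comp (u2 (u2 hg)) h3)

theorem all_lt {R : ℕ → α → Prop} {f : α → ℕ} (hR : PrimrecRel R) (hf : Primrec f) :
    PrimrecPred fun a => ∀ x < f a, R x a :=
  (hR.forall_mem_list.comp (Primrec.list_range.comp hf) Primrec.id).of_eq (by simp)

theorem primrec_First {f g : α → ℕ} (hf : Primrec f) (hg : Primrec g) :
    PrimrecPred fun a => First (f a) (g a) := by
  unfold First
  refine PrimrecPred.and (primrec_Cond hf hg) ?_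
  refine all_lt (R := fun z' a => ¬ Cond (f a) z') ?_ hg
  exact PrimrecPred.not (primrec_Cond (hf.comp Primrec.snd) Primrec.fst)

theorem primrec_TS {f g : α → ℕ} (hf : Primrec f) (hg : Primrec g) :
    PrimrecPred fun a => TS (f a) (g a) := by
  unfold TS
  refine PrimrecPred.and (primrec_First (half hf) (u1 hg)) ?_
  refine primrec_W (u2 hg) (u2 (half hf)) (Primrec₂.natPair.comp ?_ hf)
  unfold idx
  exact Primrec.ite (Primrec.eq.comp (mod2 hf) (Primrec.const 0)) (u1 (u2 (u1 hg)))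
    (u2 (u2 (u1 hg)))

end Aux

/-- the two c.e. relations which give the numbering -/
def R0 (i : ℕ) (p : ℕ × ℕ) : Prop :=
  (i = 0 ∧ ((p.2 / 2 = p.1 / 2 ∧ (p.1 = p.2 ∨ C (p.2 / 2))) ∨ (p.2 / 2 ≠ p.1 / 2 ∧ T p.2))) ∨
  (i = 1 ∧ p.2 / 2 = p.1 / 2 ∧ T p.2)

theorem R0_re (i : ℕ) : REPred (R0 i) := by
  have hC : PrimrecRel fun (p : ℕ × ℕ) (s : ℕ) => Cond (p.2 / 2) s :=
    primrec_Cond (half (Primrec.snd.comp Primrec.fst)) Primrec.snd
  have hT : PrimrecRel fun (p : ℕ × ℕ) (s : ℕ) => TS p.2 s :=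
    primrec_TS (Primrec.snd.comp Primrec.fst) Primrec.snd
  have hE : PrimrecRel fun (p : ℕ × ℕ) (_ : ℕ) => p.2 / 2 = p.1 / 2 :=
    Primrec.eq.comp (half (Primrec.snd.comp Primrec.fst)) (half (Primrec.fst.comp Primrec.fst))
  have hE' : PrimrecRel fun (p : ℕ × ℕ) (_ : ℕ) => p.1 = p.2 :=
    Primrec.eq.comp (Primrec.fst.comp Primrec.fst) (Primrec.snd.comp Primrec.fst)
  have h0 : ∀ j, PrimrecRel fun (_ : ℕ × ℕ) (_ : ℕ) => i = j := fun j =>
    Primrec.eq.comp (Primrec.const i) (Primrec.const j)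
  have h : PrimrecRel fun (p : ℕ × ℕ) (s : ℕ) =>
      (i = 0 ∧ ((p.2 / 2 = p.1 / 2 ∧ (p.1 = p.2 ∨ Cond (p.2 / 2) s)) ∨
        (¬ p.2 / 2 = p.1 / 2 ∧ TS p.2 s))) ∨ (i = 1 ∧ p.2 / 2 = p.1 / 2 ∧ TS p.2 s) :=
    PrimrecPred.or (PrimrecPred.and (h0 0) (PrimrecPred.or
      (PrimrecPred.and hE (PrimrecPred.or hE' hC)) (PrimrecPred.and (PrimrecPred.not hE) hT)))
      (PrimrecPred.and (h0 1) (PrimrecPred.and hE hT))
  refine (re_ex h).of_eq fun p => ?_
  unfold R0 C T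
  constructor
  · rintro ⟨s, (⟨h1, ⟨h2, h3 | h3⟩ | ⟨h2, h3⟩⟩ | ⟨h1, h2, h3⟩)⟩
    · exact Or.inl ⟨h1, Or.inl ⟨h2, Or.inl h3⟩⟩
    · exact Or.inl ⟨h1, Or.inl ⟨h2, Or.inr ⟨s, h3⟩⟩⟩
    · exact Or.inl ⟨h1, Or.inr ⟨h2, ⟨s, h3⟩⟩⟩
    · exact Or.inr ⟨h1, h2, ⟨s, h3⟩⟩
  · rintro (⟨h1, ⟨h2, h3 | ⟨s, h3⟩⟩ | ⟨h2, ⟨s, h3⟩⟩⟩ | ⟨h1, h2, ⟨s, h3⟩⟩)
    · exact ⟨0, Or.inl ⟨h1, Or.inl ⟨h2, Or.inl h3⟩⟩⟩
    · exact ⟨s, Or.inl ⟨h1, Or.inl ⟨h2, Or.inr h3⟩⟩⟩
    · exact ⟨s, Or.inl ⟨h1, Or.inr ⟨h2, h3⟩⟩⟩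
    · exact ⟨s, Or.inr ⟨h1, h2, h3⟩⟩

theorem positive : REPred fun p : ℕ × ℕ => nu p.1 = nu p.2 := by
  have hC : PrimrecRel fun (p : ℕ × ℕ) (s : ℕ) => Cond (p.1 / 2) s :=
    primrec_Cond (half (Primrec.fst.comp Primrec.fst)) Primrec.snd
  have hE : PrimrecRel fun (p : ℕ × ℕ) (_ : ℕ) => p.1 / 2 = p.2 / 2 :=
    Primrec.eq.comp (half (Primrec.fst.comp Primrec.fst)) (half (Primrec.snd.comp Primrec.fst))
  have hE' : PrimrecRel fun (p : ℕ × ℕ) (_ : ℕ) => p.1 = p.2 :=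
    Primrec.eq.comp (Primrec.fst.comp Primrec.fst) (Primrec.snd.comp Primrec.fst)
  have h : PrimrecRel fun (p : ℕ × ℕ) (s : ℕ) =>
      p.1 = p.2 ∨ (p.1 / 2 = p.2 / 2 ∧ Cond (p.1 / 2) s) :=
    PrimrecPred.or hE' (PrimrecPred.and hE hC)
  refine (re_ex h).of_eq fun p => ?_
  rw [nu_eq_iff]
  unfold C
  constructor
  · rintro ⟨s, (h1 | ⟨h1, h2⟩)⟩
    · exact Or.inl h1
    · exact Or.inr ⟨h1, s, h2⟩
  · rintro (h1 | ⟨h1, s, h2⟩)
    · exact ⟨0, Or.inl h1⟩
    · exact ⟨s, Or.inr ⟨h1, h2⟩⟩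

theorem card_odd {R : ℕ → Prop} (h : R 1 → R 0) :
    Odd (Nat.card {i : Fin (0 + 2) // R i.val}) ↔ (R 0 ∧ ¬ R 1) := by
  classical
  rw [Nat.card_eq_fintype_card, Fintype.card_subtype]
  have h1 : (Finset.univ.filter fun i : Fin (0 + 2) => R i.val).card =
      (if R 0 then 1 else 0) + (if R 1 then 1 else 0) := by
    rw [Finset.card_filter]
    exact Fin.sum_univ_two _
  rw [h1]
  by_cases h0 : R 0
  · by_cases h2 : R 1 <;> simp [h0, h2]
  · have h2 : ¬ R 1 := fun h3 => h0 (h h3)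
    simp [h0, h2]

/-- codes of c.e. relations -/
theorem exists_code {R : ℕ × ℕ → Prop} (h : REPred R) :
    ∃ e, ∀ i x, R (i, x) ↔ ∃ s, W s e (Nat.pair i x) = true := by
  have h1 : Partrec fun w : ℕ => ((Part.assert (R (Nat.unpair w)) fun _ => Part.some ()).map
      fun _ => (0 : ℕ)) :=
    (Partrec.comp h Computable.unpair).map (Computable.const 0).to₂
  obtain ⟨c, hc⟩ := Code.exists_code.1 (Partrec.nat_iff.1 h1)
  refine ⟨Encodable.encode c, fun i x => ?_⟩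
  have h2 : (Code.eval c (Nat.pair i x)).Dom ↔ R (i, x) := by
    rw [hc]
    constructor
    · intro h3
      have h4 : R (Nat.unpair (Nat.pair i x)) := h3.1
      rwa [Nat.unpair_pair] at h4
    · intro h3
      have h4 : R (Nat.unpair (Nat.pair i x)) := by rwa [Nat.unpair_pair]
      exact ⟨h4, trivial⟩
  rw [← h2]
  unfold W
  rw [Denumerable.ofNat_encode]
  constructor
  · intro h3
    obtain ⟨a, ha⟩ := Part.dom_iff_mem.1 h3
    obtain ⟨s, hs⟩ := Code.evaln_complete.1 ha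
    exact ⟨s, by rw [Option.isSome_iff_exists]; exact ⟨a, hs⟩⟩
  · rintro ⟨s, hs⟩
    rw [Option.isSome_iff_exists] at hs
    obtain ⟨a, ha⟩ := hs
    exact Part.dom_iff_mem.2 ⟨a, Code.evaln_sound ha⟩

/-- The negation of the preceding statement: For every n, every infinite family of sets of naturals with a positive numbering whose membership relation is (n+2)-c.e. also has an injective numbering whose membership relation is (n+2)-c.e. -/
theorem result :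
    ¬ (∀ n : ℕ, ∀ 𝒜 : Set (Set ℕ), 𝒜.Infinite →
    (∃ ν : ℕ → Set ℕ, Set.range ν = 𝒜 ∧
      (∃ R : ℕ → ℕ × ℕ → Prop, (∀ i, REPred (R i)) ∧
        (∀ i j : ℕ, ∀ p : ℕ × ℕ, i ≤ j → R j p → R i p) ∧
        ∀ p : ℕ × ℕ, (p.2 ∈ ν p.1 ↔ Odd (Nat.card {i : Fin (n + 2) // R i.val p}))) ∧
      REPred (fun p : ℕ × ℕ => ν p.1 = ν p.2)) →
    ∃ μ : ℕ → Set ℕ, Set.range μ = 𝒜 ∧ Function.Injective μ ∧
      (∃ R : ℕ → ℕ × ℕ → Prop, (∀ i, REPred (R i)) ∧
        (∀ i j : ℕ, ∀ p : ℕ × ℕ, i ≤ j → R j p → R i p) ∧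
        ∀ p : ℕ × ℕ, (p.2 ∈ μ p.1 ↔ Odd (Nat.card {i : Fin (n + 2) // R i.val p})))) := by
  intro H
  have hinf : (Set.range nu).Infinite := by
    have h1 : Function.Injective fun e : ℕ => nu (2 * e) := by
      intro a b hab
      by_contra hne
      exact nu_ne (k := 2 * a) (l := 2 * b) (by omega) hab
    refine (Set.infinite_range_of_injective h1).mono ?_
    rintro _ ⟨e, rfl⟩
    exact ⟨2 * e, rfl⟩
  obtain ⟨μ, hr, hinj, R, hre, hdec, hR⟩ := H 0 (Set.range nu) hinf ⟨nu, rfl,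
    ⟨R0, R0_re, by
      rintro i j ⟨k, x⟩ hij h
      unfold R0 at *
      rcases h with ⟨rfl, h⟩ | ⟨rfl, h1, h2⟩
      · exact Or.inl ⟨by omega, h⟩
      · rcases Nat.le_one_iff_eq_zero_or_eq_one.1 hij with rfl | rfl
        · exact Or.inl ⟨rfl, Or.inl ⟨h1, Or.inr (C_of_T h2)⟩⟩
        · exact Or.inr ⟨rfl, h1, h2⟩, by
      rintro ⟨k, x⟩
      have h1 : R0 1 (k, x) → R0 0 (k, x) := by
        unfold R0
        rintro (⟨h, -⟩ | ⟨-, h1, h2⟩)
        · omega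
        · exact Or.inl ⟨rfl, Or.inl ⟨h1, Or.inr (C_of_T h2)⟩⟩
      rw [card_odd (R := fun i => R0 i (k, x)) h1]
      simp only [nu, R0, Set.mem_ofPred_eq]
      simp only [true_and, zero_ne_one, false_and, or_false, one_ne_zero, false_or]
      tauto⟩, positive⟩
  obtain ⟨e0, he0⟩ := exists_code (hre 0)
  obtain ⟨e1, he1⟩ := exists_code (hre 1)
  have hmem : ∀ i x, x ∈ μ i ↔ (R 0 (i, x) ∧ ¬ R 1 (i, x)) := fun i x => by
    have h1 := hR (i, x)
    rw [card_odd (R := fun j => R j (i, x)) (hdec 0 1 (i, x) (by omega))] at h1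
    exact h1
  set e := Nat.pair e0 e1 with he
  have hC : C e := by
    by_contra hC
    have ha : nu (2 * e) ∈ Set.range μ := by rw [hr]; exact ⟨_, rfl⟩
    have hb : nu (2 * e + 1) ∈ Set.range μ := by rw [hr]; exact ⟨_, rfl⟩
    obtain ⟨i, hi⟩ := ha
    obtain ⟨j, hj⟩ := hb
    have hne : i ≠ j := by
      rintro rfl
      have h1 : nu (2 * e) = nu (2 * e + 1) := hi.symm.trans hj
      exact nu_ne' (by omega) (by rwa [show 2 * e / 2 = e by omega]) h1
    have h1 : 2 * e ∈ μ i := by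
      rw [hi]
      refine Or.inl ⟨rfl, Or.inl rfl, fun h => hC ?_⟩
      have := C_of_T h
      rwa [show 2 * e / 2 = e by omega] at this
    have h2 : 2 * e + 1 ∈ μ j := by
      rw [hj]
      refine Or.inl ⟨rfl, Or.inl rfl, fun h => hC ?_⟩
      have := C_of_T h
      rwa [show (2 * e + 1) / 2 = e by omega] at this
    obtain ⟨s1, hs1⟩ := (he0 i (2 * e)).1 ((hmem _ _).1 h1).1
    obtain ⟨s2, hs2⟩ := (he0 j (2 * e + 1)).1 ((hmem _ _).1 h2).1
    refine hC ⟨Nat.pair (max s1 s2) (Nat.pair i j), ?_⟩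
    unfold Cond
    simp only [Nat.unpair_pair, he]
    exact ⟨hne, W_mono (le_max_left _ _) hs1, W_mono (le_max_right _ _) hs2⟩
  obtain ⟨z, hz⟩ := exists_first hC
  have key : ∀ x, x / 2 = e → R 0 (idx x z, x) → ∃ l, l / 2 = e ∧ μ (idx x z) = nu l := by
    intro x hx h0
    have h1 : μ (idx x z) ∈ Set.range nu := by rw [← hr]; exact ⟨_, rfl⟩
    obtain ⟨l, hl⟩ := h1
    refine ⟨l, ?_, hl.symm⟩
    by_contra hle
    have h2 : x ∈ nu l ↔ T x := by
      simp only [nu, Set.mem_ofPred_eq, hx]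
      constructor
      · rintro (⟨h3, -⟩ | ⟨-, h3⟩)
        · exact absurd h3.symm hle
        · exact h3
      · intro h3
        exact Or.inr ⟨fun h4 => hle h4.symm, h3⟩
    have h3 : T x ↔ R 1 (idx x z, x) := by
      rw [he1]
      constructor
      · rintro ⟨w, hw1, hw2⟩
        rw [hx] at hw1 hw2
        rw [hw1.unique hz] at hw2
        simp only [he, Nat.unpair_pair] at hw2
        exact ⟨_, hw2⟩
      · rintro ⟨s, hs⟩
        refine ⟨Nat.pair z s, ?_, ?_⟩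
        · rw [hx, Nat.unpair_pair]; exact hz
        · rw [hx]
          simp only [he, Nat.unpair_pair]
          exact hs
    have h4 : x ∈ μ (idx x z) ↔ ¬ R 1 (idx x z, x) := by
      rw [hmem]
      exact ⟨fun h => h.2, fun h => ⟨h0, h⟩⟩
    rw [← hl] at h4
    tauto
  obtain ⟨hz1, hz2, hz3⟩ := hz.1
  have hi0 : idx (2 * e) z = z.unpair.2.unpair.1 := by unfold idx; simp
  have hi1 : idx (2 * e + 1) z = z.unpair.2.unpair.2 := by
    unfold idx
    rw [if_neg (by omega)]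
  simp only [he, Nat.unpair_pair] at hz2 hz3
  obtain ⟨l, hl, hl'⟩ := key (2 * e) (by omega) (by
    rw [hi0, he0]; exact ⟨_, hz2⟩)
  obtain ⟨m, hm, hm'⟩ := key (2 * e + 1) (by omega) (by
    rw [hi1, he0]; exact ⟨_, hz3⟩)
  have hlm : nu l = nu m := nu_eq (hl.trans hm.symm) (by rw [hl]; exact hC)
  have h5 : idx (2 * e) z = idx (2 * e + 1) z := hinj (by rw [hl', hm', hlm])
  rw [hi0, hi1] at h5
  exact hz1 h5

end Pool.Agent.S14612
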