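import Pool.Statements.S14767
import Pool.Agent.Results.MP_5f3cbe_lc.AdmissibleDefinable

set_option autoImplicit false
open Pool Pool.MP_5f3cbe_lc

namespace Pool.Agent.S14767

open Pool.Agent.V11234.HD

/-- the generating set of the frozen statement -/
abbrev GS : Set (ℂ → ℂ) := {g : ℂ → ℂ | DifferentiableOn ℂ g (Metric.ball (0:ℂ) 1) ∧
                ∀ z ∉ Metric.ball (0:ℂ) 1, g z = g 0}

/-- the ring of the frozen statement -/
abbrev RR : Subring (ℂ → ℂ) := Subring.closure GS

theorem mem_RR {g : ℂ → ℂ} (h : g ∈ RR) : g ∈ GS := by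
  induction h using Subring.closure_induction with
  | mem x hx => exact hx
  | zero => exact ⟨differentiableOn_const _, fun z _ => rfl⟩
  | one => exact ⟨differentiableOn_const _, fun z _ => rfl⟩
  | add x y _ _ hx hy =>
    exact ⟨hx.1.add hy.1, fun z hz => by rw [Pi.add_apply, Pi.add_apply, hx.2 z hz, hy.2 z hz]⟩
  | neg x _ hx => exact ⟨hx.1.neg, fun z hz => by rw [Pi.neg_apply, Pi.neg_apply, hx.2 z hz]⟩
  | mul x y _ _ hx hy =>
    exact ⟨hx.1.mul hy.1, fun z hz => by rw [Pi.mul_apply, Pi.mul_apply, hx.2 z hz, hy.2 z hz]⟩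

/-- restriction to the disc -/
noncomputable def eqv : RR ≃+* HD :=
  RingEquiv.ofBijective
    ({ toFun := fun g => ⟨fun z => g.1 z, g.1, (mem_RR g.2).1, fun _ => rfl⟩
       map_one' := rfl
       map_mul' := fun _ _ => rfl
       map_zero' := rfl
       map_add' := fun _ _ => rfl } : RR →+* HD)
    (by
      constructor
      · intro g h hgh
        apply Subtype.ext
        funext z
        have key : ∀ z ∈ Metric.ball (0 : ℂ) 1, g.1 z = h.1 z := by
          intro z hz
          have h1 := congrArg (fun F : HD => F.1 ⟨z, hz⟩) hgh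
          exact h1
        by_cases hz : z ∈ Metric.ball (0 : ℂ) 1
        · exact key z hz
        · rw [(mem_RR g.2).2 z hz, (mem_RR h.2).2 z hz]
          exact key 0 (by simp)
      · intro f
        obtain ⟨F, hF, rfl⟩ := rep f
        classical
        refine ⟨⟨fun z => if z ∈ Metric.ball (0 : ℂ) 1 then F z else F 0,
          Subring.subset_closure ⟨?_, ?_⟩⟩, ?_⟩
        · refine hF.congr fun z hz => ?_
          simp only [if_pos hz]
        · intro z hz
          have h0 : (0 : ℂ) ∈ Metric.ball (0 : ℂ) 1 := by simp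
          simp only [if_neg hz, if_pos h0]
        · apply ext'
          intro z
          show (if (z : ℂ) ∈ Metric.ball (0 : ℂ) 1 then F z else F 0) = F z
          rw [if_pos z.2])

theorem adm_iff (f : RR) :
    Pool.Agent.Results.MP_5f3cbe_lc.AdmissibleDefinable.Admissible (eqv f) ↔
        ¬ Asymptotics.IsBigO (nhdsWithin (1:ℝ) (Set.Iio 1))
            (fun r : ℝ => (2 * Real.pi)⁻¹ *
              ∫ θ in (0:ℝ)..(2 * Real.pi),
                Real.posLog ‖(f : ℂ → ℂ) ((r : ℂ) * Complex.exp ((θ : ℂ) * Complex.I))‖)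
            (fun r : ℝ => Real.log (1 - r)⁻¹) := by
  unfold Pool.Agent.Results.MP_5f3cbe_lc.AdmissibleDefinable.Admissible
  rw [not_iff_not]
  have h1 : (fun r : ℝ => Pool.Agent.Results.MP_5f3cbe_lc.AdmissibleDefinable.T r (eqv f))
      =ᶠ[nhdsWithin (1:ℝ) (Set.Iio 1)] (fun r : ℝ => (2 * Real.pi)⁻¹ *
              ∫ θ in (0:ℝ)..(2 * Real.pi),
                Real.posLog ‖(f : ℂ → ℂ) ((r : ℂ) * Complex.exp ((θ : ℂ) * Complex.I))‖) := by
    have h2 : Set.Ioo (0 : ℝ) 1 ∈ nhdsWithin (1:ℝ) (Set.Iio 1) :=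
      Ioo_mem_nhdsLT one_pos
    filter_upwards [h2] with r hr
    unfold Pool.Agent.Results.MP_5f3cbe_lc.AdmissibleDefinable.T
    congr 1
    apply intervalIntegral.integral_congr
    intro θ _
    have h3 : (r : ℂ) * Complex.exp (θ * Complex.I) ∈ Metric.ball (0 : ℂ) 1 := by
      rw [mem_ball_zero_iff, norm_mul, Complex.norm_exp_ofReal_mul_I, mul_one, Complex.norm_real,
        Real.norm_of_nonneg hr.1.le]
      exact hr.2
    simp only
    unfold Pool.Agent.Results.MP_5f3cbe_lc.AdmissibleDefinable.ext0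
    rw [dif_pos h3, Real.posLog, max_comm]
    rfl
  have h4 : (fun r : ℝ => Real.log (1 / (1 - r))) = (fun r : ℝ => Real.log (1 - r)⁻¹) := by
    funext r
    rw [one_div]
  rw [h4]
  exact Asymptotics.isBigO_congr h1 Filter.EventuallyEq.rfl

/-- There is a parameter-free first-order ring formula that, in the ring of holomorphic functions on the unit disc, holds of f exactly when its Nevanlinna characteristic T(r,f) is not O(log 1/(1-r)) as r tends to 1 from below. -/
theorem result :
    ∃ φ : FirstOrder.Language.ring.Formula (Fin 1),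
      ∀ f : ↥(Subring.closure {g : ℂ → ℂ | DifferentiableOn ℂ g (Metric.ball (0:ℂ) 1) ∧
                ∀ z ∉ Metric.ball (0:ℂ) 1, g z = g 0}),
        (@FirstOrder.Language.Formula.Realize FirstOrder.Language.ring
            ↥(Subring.closure {g : ℂ → ℂ | DifferentiableOn ℂ g (Metric.ball (0:ℂ) 1) ∧
                ∀ z ∉ Metric.ball (0:ℂ) 1, g z = g 0})
            (FirstOrder.Ring.compatibleRingOfRing
              ↥(Subring.closure {g : ℂ → ℂ | DifferentiableOn ℂ g (Metric.ball (0:ℂ) 1) ∧
                ∀ z ∉ Metric.ball (0:ℂ) 1, g z = g 0})).toStructure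
            (Fin 1) φ (fun _ => f)) ↔
        ¬ Asymptotics.IsBigO (nhdsWithin (1:ℝ) (Set.Iio 1))
            (fun r : ℝ => (2 * Real.pi)⁻¹ *
              ∫ θ in (0:ℝ)..(2 * Real.pi),
                Real.posLog ‖(f : ℂ → ℂ) ((r : ℂ) * Complex.exp ((θ : ℂ) * Complex.I))‖)
            (fun r : ℝ => Real.log (1 - r)⁻¹) := by
  obtain ⟨φ, hφ⟩ := Pool.Agent.Results.MP_5f3cbe_lc.AdmissibleDefinable.result
  refine ⟨φ, fun f => ?_⟩
  letI : FirstOrder.Ring.CompatibleRing RR := FirstOrder.Ring.compatibleRingOfRing RR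
  have h1 := FirstOrder.Language.StrongHomClass.realize_formula
    (FirstOrder.Ring.languageEquivEquivRingEquiv.symm eqv) φ (v := fun _ => f)
  have h2 := hφ (eqv f)
  rw [← adm_iff f, ← h2]
  exact h1.symm

end Pool.Agent.S14767
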