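import Pool.Statements.S14895
import Pool.Agent.N56.Homog

set_option autoImplicit false
open Pool Pool.MP_735cdd_lc

namespace Pool.Agent.S14895

open FirstOrder FirstOrder.Language Pool.Agent.N56.Homog

/-- the language of the frozen statement -/
abbrev LG : FirstOrder.Language := FirstOrder.Language.mk (fun _ => Unit) (fun _ => Empty)

/-- the terms for the iterated products -/
def tm : ℕ → ℕ → LG.Term ((Unit ⊕ ℕ) ⊕ Fin 1)
  | 0, _ => Term.var (Sum.inr 0)
  | k + 1, i => Term.func (l := 3) () ![Term.var (Sum.inl (Sum.inr i)), tm k (i + 1), tm k (i + 1)]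

theorem realize_tm {G : Type} [Group G] [S : LG.Structure G]
    (hS : ∀ (n : ℕ) (f : LG.Functions n) (xs : Fin n → G),
      FirstOrder.Language.Structure.funMap f xs = (List.ofFn xs).prod) (c : G) (y : ℕ → G)
    (u : Fin 1 → G) (k i : ℕ) :
    (tm k i).realize (Sum.elim (Sum.elim (fun _ => c) y) u) = w y (u 0) k i := by
  induction k generalizing i with
  | zero => rfl
  | succ k ih =>
    simp only [tm, Term.realize, hS, w]
    simp [List.ofFn_succ, ih]

/-- the formula -/
def fm (k : ℕ) : LG.Formula (Unit ⊕ ℕ) :=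
  (Term.bdEqual (Term.var (Sum.inl (Sum.inl ()))) (tm k 0) : LG.BoundedFormula (Unit ⊕ ℕ) 1).ex

theorem realize_fm {G : Type} [Group G] [S : LG.Structure G]
    (hS : ∀ (n : ℕ) (f : LG.Functions n) (xs : Fin n → G),
      FirstOrder.Language.Structure.funMap f xs = (List.ofFn xs).prod) (c : G) (y : ℕ → G)
    (k : ℕ) :
    (fm k).Realize (Sum.elim (fun _ => c) y) ↔ ∃ u, c = w y u k 0 := by
  unfold fm Formula.Realize
  rw [BoundedFormula.realize_ex]
  refine exists_congr fun u => ?_
  rw [BoundedFormula.realize_bdEqual, realize_tm hS]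
  rfl

/-- automorphisms of the group are automorphisms of the structure -/
def toL {G : Type} [Group G] [S : LG.Structure G]
    (hS : ∀ (n : ℕ) (f : LG.Functions n) (xs : Fin n → G),
      FirstOrder.Language.Structure.funMap f xs = (List.ofFn xs).prod) (β : G ≃* G) :
    G ≃[LG] G where
  toEquiv := β.toEquiv
  map_fun' := by
    intro n f xs
    rw [hS, hS]
    change β _ = _
    rw [map_list_prod, List.map_ofFn]
    rfl
  map_rel' := by
    intro n r
    exact r.elim

theorem realize_congr {G : Type} [S : LG.Structure G] (φ : LG.Formula ℕ) (a b : ℕ → G)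
    (h : ∀ i ∈ φ.freeVarFinset, a i = b i) : φ.Realize a ↔ φ.Realize b := by
  have h1 : (BoundedFormula.restrictFreeVar φ (id : φ.freeVarFinset → φ.freeVarFinset)).Realize
      (fun i => a i) default ↔ BoundedFormula.Realize φ a default :=
    BoundedFormula.realize_restrictFreeVar a (fun _ => rfl)
  have h2 : (BoundedFormula.restrictFreeVar φ (id : φ.freeVarFinset → φ.freeVarFinset)).Realize
      (fun i => a i) default ↔ BoundedFormula.Realize φ b default :=
    BoundedFormula.realize_restrictFreeVar b (fun i => (h i i.2))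
  exact h1.symm.trans h2

/-- Every torsion-free group that is free in its own variety on an infinite basis fails ℵ1-homogeneity: some countable tuples a, b share a type, yet some element c has no d making (c,a) and (d,b) share a type. -/
theorem result :
  ∀ (G : Type) [Group G],
    (∀ g : G, ∀ n : ℕ, 0 < n → g ^ n = 1 → g = 1) →
    (∃ X : Set G, X.Infinite ∧ Subgroup.closure X = ⊤ ∧
      ∀ f : X → G, ∃ φ : G →* G, ∀ x : X, φ x = f x) →
    ∀ [S : (FirstOrder.Language.mk (fun _ => Unit) (fun _ => Empty)).Structure G],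
      (∀ (n : ℕ) (f : (FirstOrder.Language.mk (fun _ => Unit) (fun _ => Empty)).Functions n)
          (xs : Fin n → G),
        FirstOrder.Language.Structure.funMap f xs = (List.ofFn xs).prod) →
      ¬ ∀ a b : ℕ → G,
        (∀ φ : (FirstOrder.Language.mk (fun _ => Unit) (fun _ => Empty)).Formula ℕ,
          φ.Realize a ↔ φ.Realize b) →
        ∀ c : G, ∃ d : G,
          ∀ ψ : (FirstOrder.Language.mk (fun _ => Unit) (fun _ => Empty)).Formula (Unit ⊕ ℕ),
            ψ.Realize (Sum.elim (fun _ => c) a) ↔ ψ.Realize (Sum.elim (fun _ => d) b) := by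
  intro G _ htf hX S hS hhom
  obtain ⟨X, hinf, hclo, hext⟩ := hX
  have hB : Basis X := ⟨hclo, hext⟩
  let e : ℕ ↪ X := hinf.natEmbedding
  let x : ℕ → G := fun i => e i
  let y : ℕ → G := fun i => (e i : G) * ((e (i + 1) : G) * (e (i + 1) : G))⁻¹
  obtain ⟨d, hd⟩ := hhom y x (by
    intro φ
    obtain ⟨n, hn⟩ : ∃ n, ∀ i ∈ φ.freeVarFinset, i < n :=
      ⟨φ.freeVarFinset.sup id + 1, fun i hi =>
        Nat.lt_succ_of_le (Finset.le_sup (f := id) hi)⟩
    obtain ⟨β, hβ⟩ := exists_aut hB e n
    have h1 : φ.Realize (β ∘ y) ↔ φ.Realize y :=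
      StrongHomClass.realize_formula (toL hS β) φ
    rw [← h1]
    exact realize_congr φ _ _ (fun i hi => hβ i (hn i hi))) (x 0)
  apply no_elem htf hB e d
  intro k
  rw [← realize_fm hS d x k, ← hd, realize_fm hS]
  refine ⟨x k, ?_⟩
  have := w_eq x y (fun i => by simp only [x, y]; rw [inv_mul_cancel_right]) k 0
  rw [zero_add] at this
  exact this.symm

end Pool.Agent.S14895
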