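import Pool.Statements.S15144
import Pool.Agent.Helper743.FC

set_option autoImplicit false
open Pool Pool.MP_a2ec29_lc

namespace Pool.Agent.S15144

open Pool.Agent.Helper743 Nat.Partrec Nat.Partrec.Code

/-- the interval algebra of `ℕ` -/
def IA : Set (Set ℕ) :=
  {X : Set ℕ | ∃ S : Finset ℕ, ∃ b : Bool,
    X = {x : ℕ | Xor' (b = true) (Odd (S.filter (fun s => s ≤ x)).card)}}

theorem eventually_const (X : Set ℕ) (p : Prop) (N : ℕ) (h : ∀ x, N ≤ x → (x ∈ X ↔ p)) :
    (X.Infinite ↔ p) ∧ FC X := by
  by_cases hp : p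
  · have h1 : Xᶜ.Finite := by
      refine (Set.finite_Iio N).subset ?_
      intro x hx
      by_contra hN
      exact hx ((h x (by simpa using hN)).2 hp)
    refine ⟨⟨fun _ => hp, fun _ h2 => ?_⟩, Or.inr h1⟩
    apply Set.infinite_univ (α := ℕ)
    rw [← Set.union_compl_self X]
    exact h2.union h1
  · have h1 : X.Finite := by
      refine (Set.finite_Iio N).subset ?_
      intro x hx
      by_contra hN
      exact hp ((h x (by simpa using hN)).1 hx)
    exact ⟨⟨fun h2 => absurd h1 h2, fun h2 => absurd h2 hp⟩, Or.inl h1⟩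

theorem IA_eq : IA = {X | FC X} := by
  ext X
  constructor
  · rintro ⟨S, b, rfl⟩
    refine (eventually_const _ (Xor' (b = true) (Odd S.card)) (S.sup id) ?_).2
    intro x hx
    simp only [Set.mem_ofPred_eq]
    rw [Finset.filter_true_of_mem]
    intro s hs
    exact le_trans (Finset.le_sup (f := id) hs) hx
  · intro hX
    obtain ⟨k, hk⟩ := exists_FC good_le hX
    refine ⟨(Finset.range k).filter (fun s => k.testBit s = true), false, ?_⟩
    rw [← hk]
    ext x
    unfold XX PP cnt
    simp only [Set.mem_ofPred_eq, decide_eq_true_eq, Bool.false_eq_true, xor_false, id_eq,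
      Finset.filter_filter, Nat.odd_iff]
    simp [Xor']

section

variable {ψ : FCA → Set ℕ} (hinj : Function.Injective ψ)
  (hsup : ∀ a b, ψ (a ⊔ b) = ψ a ∪ ψ b) (hcompl : ∀ a, ψ aᶜ = (ψ a)ᶜ)
  (hr : Set.range ψ = {X | FC X})

include hinj hsup hr in
theorem psi_bot : ψ ⊥ = ∅ := by
  have h1 : (∅ : Set ℕ) ∈ Set.range ψ := by
    rw [hr]; exact Or.inl Set.finite_empty
  obtain ⟨a, ha⟩ := h1
  have h2 := hsup ⊥ a
  rw [bot_sup_eq, ha, Set.union_empty] at h2
  exact h2.symm

/-- the singleton -/
def sg (x : ℕ) : FCA := ⟨{x}, Or.inl (Set.finite_singleton x)⟩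

include hinj hsup hr in
theorem psi_sg (x : ℕ) : (ψ (sg x)).Finite := by
  rcases (ψ (sg x)).eq_empty_or_nonempty with h | ⟨u, hu⟩
  · rw [h]; exact Set.finite_empty
  · have h1 : ({u} : Set ℕ) ∈ Set.range ψ := by
      rw [hr]; exact Or.inl (Set.finite_singleton u)
    obtain ⟨b, hb⟩ := h1
    have h2 : ψ (b ⊔ sg x) = ψ (sg x) := by
      rw [hsup, hb]
      exact Set.union_eq_right.2 (Set.singleton_subset_iff.2 hu)
    have h3 := hinj h2
    have h4 : (b : Set ℕ) ⊆ {x} := by
      have h5 : b ≤ sg x := by rw [← h3]; exact le_sup_left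
      exact h5
    have h6 : b = sg x := by
      rcases Set.subset_singleton_iff_eq.1 h4 with h7 | h7
      · exfalso
        have h8 : b = ⊥ := Subtype.ext h7
        rw [h8, psi_bot hinj hsup hr] at hb
        exact Set.singleton_ne_empty u hb.symm
      · exact Subtype.ext h7
    rw [← h6, hb]
    exact Set.finite_singleton u

include hinj hsup hr in
theorem psi_finite (a : FCA) (ha : (a : Set ℕ).Finite) : (ψ a).Finite := by
  obtain ⟨A, hA⟩ := a
  change A.Finite at ha
  induction A, ha using Set.Finite.induction_on with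
  | empty =>
    have h1 : (⟨∅, hA⟩ : FCA) = ⊥ := Subtype.ext rfl
    rw [h1, psi_bot hinj hsup hr]
    exact Set.finite_empty
  | @insert x A hx hfin ih =>
    have hA' : A ∈ FCA := Or.inl hfin
    have h1 : (⟨insert x A, hA⟩ : FCA) = sg x ⊔ ⟨A, hA'⟩ := Subtype.ext (by
      show insert x A = {x} ∪ A
      rfl)
    rw [h1, hsup]
    exact (psi_sg hinj hsup hr x).union (ih hA')

include hinj hsup hcompl hr in
theorem psi_infinite (a : FCA) : (ψ a).Infinite ↔ (a : Set ℕ).Infinite := by
  constructor
  · intro h h1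
    exact h (psi_finite hinj hsup hr a h1)
  · intro h h1
    have h2 : ((aᶜ : FCA) : Set ℕ).Finite := by
      rcases a.2 with h3 | h3
      · exact absurd h3 h
      · exact h3
    have h4 := psi_finite hinj hsup hr _ h2
    rw [hcompl] at h4
    apply Set.infinite_univ (α := ℕ)
    rw [← Set.union_compl_self (ψ a)]
    exact h1.union h4

end

/-- the set of true stages is not computable -/
theorem tr_not_computable : ¬ ComputablePred tr := by
  intro htr
  classical
  have hP : ComputablePred (fun p : ℕ × ℕ => tr p.2 ∧ 2 * p.1 + 1 < g p.2) := by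
    have h1 : Computable fun p : ℕ × ℕ => decide (tr p.2) :=
      htr.decide.comp Computable.snd
    have h2 : Primrec fun p : ℕ × ℕ => decide (2 * p.1 + 1 < g p.2) := by
      have : PrimrecPred fun p : ℕ × ℕ => 2 * p.1 + 1 < g p.2 :=
        Primrec.nat_lt.comp (Primrec.succ.comp (Primrec.nat_mul.comp (Primrec.const 2)
          Primrec.fst)) (g_primrec.comp Primrec.snd)
      exact this.decide
    have h3 : Computable fun p : ℕ × ℕ => (decide (tr p.2) && decide (2 * p.1 + 1 < g p.2)) :=
      Primrec.and.to_comp.comp h1 h2.to_comp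
    refine Computable.computablePred (h3.of_eq fun p => ?_)
    simp
  have hex : ∀ k, ∃ s, tr s ∧ 2 * k + 1 < g s := by
    intro k
    obtain ⟨M, hM⟩ := g_large (2 * k + 2)
    obtain ⟨s, hs, hts⟩ := exists_tr M
    exact ⟨s, hts, by have := hM s hs; omega⟩
  have hf := Computable.find (α := ℕ) (P := fun k s => tr s ∧ 2 * k + 1 < g s) hP hex
  have hR : PrimrecPred fun p : ℕ × ℕ => ∃ u < p.1, g u = 2 * p.2 + 1 := by
    have h1 : PrimrecRel fun (u : ℕ) (p : ℕ × ℕ) => g u = 2 * p.2 + 1 :=
      Primrec.eq.comp (g_primrec.comp Primrec.fst) (Primrec.succ.comp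
        (Primrec.nat_mul.comp (Primrec.const 2) (Primrec.snd.comp Primrec.snd)))
    exact (h1.exists_mem_list.comp (Primrec.list_range.comp Primrec.fst) Primrec.id).of_eq
      (by simp)
  have hh : ComputablePred fun k : ℕ =>
      (eval (Denumerable.ofNat Code k.unpair.1) k.unpair.2).Dom := by
    have h1 : Computable fun k : ℕ => decide (∃ u < Nat.find (hex k), g u = 2 * k + 1) :=
      hR.decide.to_comp.comp (hf.pair Computable.id)
    refine Computable.computablePred (h1.of_eq fun k => ?_)
    have h2 := Nat.find_spec (hex k)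
    exact decide_eq_decide.2 (tr_decides h2.1 h2.2).symm
  refine ComputablePred.halting_problem 0 ?_
  have h1 : Computable fun c : Code => decide
      ((eval (Denumerable.ofNat Code (Nat.pair (Encodable.encode c) 0).unpair.1)
        (Nat.pair (Encodable.encode c) 0).unpair.2).Dom) := by
    have h2 : Computable fun c : Code => Nat.pair (Encodable.encode c) 0 :=
      Primrec₂.natPair.to_comp.comp Computable.encode (Computable.const 0)
    exact hh.decide.comp h2
  refine Computable.computablePred (h1.of_eq fun c => ?_)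
  simp

/-- The negation of the preceding statement: Take any computable infinite linear order L and computable Boolean algebra B isomorphic to the algebra of finite unions of half-open intervals of L. Then some computable copy of L makes B computably isomorphic to that copy's interval algebra. -/
theorem result :
    ¬ (∀ (β : Type) [LinearOrder β] (l : ℕ ≃ β),
      ComputablePred (fun p : ℕ × ℕ => l p.1 ≤ l p.2) →
      ∀ (α : Type) [BooleanAlgebra α] (e : ℕ ≃ α),
        Computable₂ (fun m n : ℕ => e.symm (e m ⊔ e n)) →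
        Computable₂ (fun m n : ℕ => e.symm (e m ⊓ e n)) →
        Computable (fun n : ℕ => e.symm (e n)ᶜ) →
        (∃ φ : α → Set β, Function.Injective φ ∧
            (∀ a b, φ (a ⊔ b) = φ a ∪ φ b) ∧
            (∀ a, φ aᶜ = (φ a)ᶜ) ∧
            Set.range φ = {X : Set β | ∃ S : Finset β, ∃ b : Bool,
              X = {x : β | Xor' (b = true) (Odd (S.filter (fun s => s ≤ x)).card)}}) →
        ∃ l' : ℕ ≃ β, ComputablePred (fun p : ℕ × ℕ => l' p.1 ≤ l' p.2) ∧
          ∃ ψ : α → Set β, Function.Injective ψ ∧
            (∀ a b, ψ (a ⊔ b) = ψ a ∪ ψ b) ∧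
            (∀ a, ψ aᶜ = (ψ a)ᶜ) ∧
            Set.range ψ = {X : Set β | ∃ S : Finset β, ∃ b : Bool,
              X = {x : β | Xor' (b = true) (Odd (S.filter (fun s => s ≤ x)).card)}} ∧
            ∃ c : ℕ → List ℕ × Bool, Computable c ∧
              ∀ n : ℕ, ψ (e n) = {x : β | Xor' ((c n).2 = true)
                (Odd ((c n).1.filter (fun s => decide (l' s ≤ x))).length)}) := by
  intro H
  have hle : ComputablePred (fun p : ℕ × ℕ => Equiv.refl ℕ p.1 ≤ Equiv.refl ℕ p.2) := by
    have h1 : PrimrecPred (fun p : ℕ × ℕ => p.1 ≤ p.2) := Primrec.nat_le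
    exact h1.computablePred
  obtain ⟨l', -, ψ, hinj, hsup, hcompl, hr, c, hc, hψ⟩ := H ℕ (Equiv.refl ℕ) hle FCA
    (ee good_le') (ee_sup good_le') (ee_inf good_le') (ee_compl good_le')
    ⟨fun a => (a : Set ℕ), Subtype.val_injective, fun a b => rfl, fun a => rfl, by
      have h1 : Set.range (fun a : FCA => (a : Set ℕ)) = {X | FC X} := Subtype.range_val
      rw [h1, ← IA_eq]
      rfl⟩
  have hr' : Set.range ψ = {X | FC X} := by
    rw [hr, ← IA_eq]
    rfl
  have key : ∀ n, (XX le' n).Infinite ↔ ((c n).2 ^^ decide ((c n).1.length % 2 = 1)) = true := by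
    intro n
    have h1 : (ψ (ee good_le' n)).Infinite ↔ (XX le' n).Infinite :=
      psi_infinite hinj hsup hcompl hr' (ee good_le' n)
    rw [← h1, hψ n]
    have h2 := (eventually_const {x : ℕ | Xor' ((c n).2 = true)
      (Odd ((c n).1.filter (fun s => decide (l' s ≤ x))).length)}
      (Xor' ((c n).2 = true) (Odd (c n).1.length)) (((c n).1.map l').sum) (by
        intro x hx
        simp only [Set.mem_ofPred_eq]
        rw [List.filter_eq_self.2]
        intro s hs
        rw [decide_eq_true_eq]
        exact le_trans (List.single_le_sum (fun _ _ => Nat.zero_le _) _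
          (List.mem_map_of_mem hs)) hx)).1
    refine h2.trans ?_
    rw [Nat.odd_iff]
    cases (c n).2 <;> simp [Xor']
  have htr : ComputablePred tr := by
    have h1 : Computable fun s : ℕ => c (2 ^ s) := by
      have hpow : Primrec₂ (fun m n : ℕ => m ^ n) := Primrec₂.unpaired'.1 Nat.Primrec.pow
      exact hc.comp (hpow.comp (Primrec.const 2) Primrec.id).to_comp
    have h2 : Primrec fun q : List ℕ × Bool => (q.2 ^^ decide (q.1.length % 2 = 1)) := by
      have h3 : PrimrecPred fun q : List ℕ × Bool => q.1.length % 2 = 1 :=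
        Primrec.eq.comp (Primrec.nat_mod.comp (Primrec.list_length.comp Primrec.fst)
          (Primrec.const 2)) (Primrec.const 1)
      exact (Primrec.dom_bool₂ xor).comp Primrec.snd h3.decide
    have h3 := h2.to_comp.comp h1
    classical
    refine Computable.computablePred (h3.of_eq fun s => ?_)
    rw [Bool.eq_iff_iff, decide_eq_true_eq, tr_iff_infinite, key]
  exact tr_not_computable htr

end Pool.Agent.S15144
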