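import Pool.Statements.S15186
import Pool.Agent.Results.MP_a8f5d0_lc.ManyItems

set_option autoImplicit false
open Pool Pool.MP_a8f5d0_lc

namespace Pool.Agent.S15186

open Pool.Agent.Helper555.JDP

theorem gs_iff {m : ℕ} (v : Finset (Fin m) → ℝ) :
    v ∈ GrossSubstitutes m ↔
    ((∀ S, 0 ≤ v S ∧ v S ≤ 1) ∧
        ∀ p q : Fin m → ℝ, p ≤ q → ∀ S : Finset (Fin m),
          (∀ T : Finset (Fin m), v T - ∑ j ∈ T, p j ≤ v S - ∑ j ∈ S, p j) →
          ∃ T : Finset (Fin m),
            (∀ U : Finset (Fin m), v U - ∑ j ∈ U, q j ≤ v T - ∑ j ∈ T, q j) ∧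
            ∀ j ∈ S, q j = p j → j ∈ T) := by
  unfold GrossSubstitutes demand
  simp only [Set.mem_ofPred_eq]
  constructor
  · rintro ⟨h1, h2⟩
    exact ⟨h1, fun p q hpq S hS => h2 p q hpq S hS⟩
  · rintro ⟨h1, h2⟩
    exact ⟨h1, fun p q hpq S hS => h2 p q hpq S hS⟩

theorem outer_ne_top {Ω : Type} (μ : PMF Ω) (E : Set Ω) : μ.toOuterMeasure E ≠ ⊤ := by
  have h : μ.toOuterMeasure E ≤ 1 := by
    rw [PMF.toOuterMeasure_apply, ← μ.tsum_coe]
    exact ENNReal.tsum_le_tsum fun x => Set.indicator_le_self' (fun _ _ => zero_le) x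
  exact ne_top_of_le_ne_top ENNReal.one_ne_top h

/-- The negation of the preceding statement: For each ε,α,β in (0,1) there is a supply s such that for all n, m and supplies ≥ s, some ε-jointly private mechanism on [0,1]-valued gross-substitute profiles always outputs feasible allocations with welfare ≥ OPT − αn with probability ≥ 1−β. -/
theorem result :
    ¬ (∀ ε α β : ℝ, 0 < ε → ε < 1 → 0 < α → α < 1 → 0 < β → β < 1 →
  ∃ s : ℕ, ∀ n m : ℕ, ∀ supply : Fin m → ℕ, (∀ j, s ≤ supply j) →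
  ∃ M : (Fin n → Finset (Fin m) → ℝ) → PMF (Fin n → Finset (Fin m)),
    (∀ v : Fin n → Finset (Fin m) → ℝ,
      (∀ i, (∀ S, 0 ≤ v i S ∧ v i S ≤ 1) ∧
        ∀ p q : Fin m → ℝ, p ≤ q → ∀ S : Finset (Fin m),
          (∀ T : Finset (Fin m), v i T - ∑ j ∈ T, p j ≤ v i S - ∑ j ∈ S, p j) →
          ∃ T : Finset (Fin m),
            (∀ U : Finset (Fin m), v i U - ∑ j ∈ U, q j ≤ v i T - ∑ j ∈ T, q j) ∧
            ∀ j ∈ S, q j = p j → j ∈ T) →
      (∀ ω ∈ (M v).support, ∀ j : Fin m,
          (Finset.univ.filter (fun k : Fin n => j ∈ ω k)).card ≤ supply j) ∧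
      (M v).toOuterMeasure {ω | ∀ ω' : Fin n → Finset (Fin m),
          (∀ j : Fin m, (Finset.univ.filter (fun k : Fin n => j ∈ ω' k)).card ≤ supply j) →
          ∑ k, v k (ω' k) - α * (n : ℝ) ≤ ∑ k, v k (ω k)} ≥ ENNReal.ofReal (1 - β)) ∧
    (∀ v : Fin n → Finset (Fin m) → ℝ,
      (∀ i, (∀ S, 0 ≤ v i S ∧ v i S ≤ 1) ∧
        ∀ p q : Fin m → ℝ, p ≤ q → ∀ S : Finset (Fin m),
          (∀ T : Finset (Fin m), v i T - ∑ j ∈ T, p j ≤ v i S - ∑ j ∈ S, p j) →
          ∃ T : Finset (Fin m),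
            (∀ U : Finset (Fin m), v i U - ∑ j ∈ U, q j ≤ v i T - ∑ j ∈ T, q j) ∧
            ∀ j ∈ S, q j = p j → j ∈ T) →
      ∀ (i : Fin n) (w : Finset (Fin m) → ℝ),
      ((∀ S, 0 ≤ w S ∧ w S ≤ 1) ∧
        ∀ p q : Fin m → ℝ, p ≤ q → ∀ S : Finset (Fin m),
          (∀ T : Finset (Fin m), w T - ∑ j ∈ T, p j ≤ w S - ∑ j ∈ S, p j) →
          ∃ T : Finset (Fin m),
            (∀ U : Finset (Fin m), w U - ∑ j ∈ U, q j ≤ w T - ∑ j ∈ T, q j) ∧
            ∀ j ∈ S, q j = p j → j ∈ T) →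
      ∀ S : Set ({k : Fin n // k ≠ i} → Finset (Fin m)),
        (M v).toOuterMeasure {ω | (fun k : {k : Fin n // k ≠ i} => ω k.1) ∈ S} ≤
          ENNReal.ofReal (Real.exp ε) *
            (M (Function.update v i w)).toOuterMeasure
              {ω | (fun k : {k : Fin n // k ≠ i} => ω k.1) ∈ S})) := by
  classical
  intro H
  obtain ⟨s0, hs0⟩ := H (1 / 2) (1 / 1000) (1 / 2) (by norm_num) (by norm_num) (by norm_num)
    (by norm_num) (by norm_num) (by norm_num)
  -- normalise the supply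
  set s : ℕ := max s0 1 with hs
  have hs1 : 0 < s := lt_of_lt_of_le one_pos (le_max_right _ _)
  have hs2 : s0 ≤ s := le_max_left _ _
  -- many items
  have hlim : Filter.Tendsto (fun m : ℕ => (11 / 20 : ℝ) ^ m) Filter.atTop (nhds 0) :=
    tendsto_pow_atTop_nhds_zero_of_lt_one (by norm_num) (by norm_num)
  have hpos : (0 : ℝ) < 1 / 2 / Real.exp (1 / 2 * s) := by positivity
  obtain ⟨m0, hm0⟩ := Filter.eventually_atTop.mp (hlim.eventually (gt_mem_nhds hpos))
  set m : ℕ := max m0 1 with hm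
  have hm1 : 0 < m := lt_of_lt_of_le one_pos (le_max_right _ _)
  have hm2 := hm0 m (le_max_left _ _)
  have hsmall : Real.exp (1 / 2 * s) * (11 / 10 : ℝ) ^ m < 2 ^ m * (1 - 1 / 2) := by
    rw [lt_div_iff₀ (Real.exp_pos _)] at hm2
    have h2 : (0 : ℝ) < 2 ^ m := by positivity
    have e : (11 / 10 : ℝ) ^ m = 2 ^ m * (11 / 20 : ℝ) ^ m := by
      rw [← mul_pow]; norm_num
    rw [e]
    have := mul_lt_mul_of_pos_left hm2 h2
    nlinarith
  refine Results.MP_a8f5d0_lc.ManyItems.not_suffices (1 / 2) (1 / 1000) (1 / 2) le_rfl (2 * s) m s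
    hm1 hs1 le_rfl (by omega) hsmall ?_
  have hch : ∀ sup : Fin m → ℕ, ∃ M : (Fin (2 * s) → Valuation m) → PMF (Allocation (2 * s) m),
      (∀ j, s ≤ sup j) →
      JointlyPrivate (GrossSubstitutes m) (1 / 2) M ∧
      ∀ v : Fin (2 * s) → Valuation m, (∀ i, v i ∈ GrossSubstitutes m) →
        1 - 1 / 2 ≤ Pr (M v) {ω | Feasible sup ω ∧ OPT sup v - 1 / 1000 * (2 * s : ℕ) ≤ welfare v ω} := by
    intro sup
    by_cases hsup : ∀ j, s ≤ sup j
    · obtain ⟨M, hM1, hM2⟩ := hs0 (2 * s) m sup (fun j => hs2.trans (hsup j))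
      refine ⟨M, fun _ => ⟨?_, ?_⟩⟩
      · intro i v w hv hw S
        have h := hM2 v (fun k => (gs_iff (v k)).1 (hv k)) i w ((gs_iff w).1 hw) S
        unfold Pr
        have hne : ∀ (μ : PMF (Allocation (2 * s) m)) (E : Set (Allocation (2 * s) m)),
            μ.toOuterMeasure E ≠ ⊤ := fun μ E => outer_ne_top μ E
        have h' := ENNReal.toReal_mono (ENNReal.mul_ne_top ENNReal.ofReal_ne_top (hne _ _)) h
        rw [ENNReal.toReal_mul, ENNReal.toReal_ofReal (Real.exp_pos _).le] at h'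
        exact h'
      · intro v hv
        obtain ⟨h1, h2⟩ := hM1 v (fun k => (gs_iff (v k)).1 (hv k))
        have hne : ∀ (μ : PMF (Allocation (2 * s) m)) (E : Set (Allocation (2 * s) m)),
            μ.toOuterMeasure E ≠ ⊤ := fun μ E => outer_ne_top μ E
        have h3 : (1 - 1 / 2 : ℝ) ≤ ((M v).toOuterMeasure {ω | ∀ ω' : Fin (2 * s) → Finset (Fin m),
          (∀ j : Fin m, (Finset.univ.filter (fun k : Fin (2 * s) => j ∈ ω' k)).card ≤ sup j) →
          ∑ k, v k (ω' k) - 1 / 1000 * ((2 * s : ℕ) : ℝ) ≤ ∑ k, v k (ω k)}).toReal := by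
          have := ENNReal.toReal_mono (hne _ _) h2
          rwa [ENNReal.toReal_ofReal (by norm_num)] at this
        refine h3.trans ?_
        unfold Pr
        refine ENNReal.toReal_mono (hne _ _) ?_
        rw [PMF.toOuterMeasure_apply, PMF.toOuterMeasure_apply]
        refine ENNReal.tsum_le_tsum fun ω => ?_
        by_cases hω : ω ∈ (M v).support
        · by_cases hmem : ω ∈ {ω | ∀ ω' : Fin (2 * s) → Finset (Fin m),
              (∀ j : Fin m, (Finset.univ.filter (fun k : Fin (2 * s) => j ∈ ω' k)).card ≤ sup j) →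
              ∑ k, v k (ω' k) - 1 / 1000 * ((2 * s : ℕ) : ℝ) ≤ ∑ k, v k (ω k)}
          · have hmem2 : ω ∈ {ω | Feasible sup ω ∧
                OPT sup v - 1 / 1000 * (2 * s : ℕ) ≤ welfare v ω} := by
              refine ⟨fun j => ?_, ?_⟩
              · have := h1 ω hω j
                convert this using 2
              · have h5 : OPT sup v ≤ welfare v ω + 1 / 1000 * ((2 * s : ℕ) : ℝ) := by
                  apply OPT_le
                  intro ω' hω'
                  have h6 := hmem ω' (fun j => by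
                    have := hω' j
                    convert this using 2)
                  unfold welfare
                  linarith
                linarith
            rw [Set.indicator_of_mem hmem, Set.indicator_of_mem hmem2]
          · rw [Set.indicator_of_notMem hmem]
            exact zero_le
        · have h0 : (M v) ω = 0 := by
            rw [PMF.mem_support_iff, not_not] at hω
            exact hω
          unfold Set.indicator
          simp [h0]
    · exact ⟨fun _ => PMF.pure fun _ => ∅, fun h => absurd h hsup⟩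
  choose M hM using hch
  exact ⟨M, fun sup hsup => hM sup hsup⟩

end Pool.Agent.S15186
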