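import Pool.Statements.S15828
import Pool.Agent.N661.FCX.Main

set_option autoImplicit false
open Pool Pool.MP_f387d3_mp

namespace Pool.Agent.S15828

/-- The negation of the preceding statement: In the basic Feynman checkers model, with P(x,t) the squared norm of the checker-path amplitude at time t=n+1, there is a constant C such that every maximiser x of P(·,t) is within C of t/√2, for all t. -/
theorem result :
    ¬ (∃ C : ℝ, ∀ n : ℕ, ∀ x : ℤ,
      (∀ y : ℤ,
        (2:ℝ) ^ (-(n:ℤ)) *
          ‖∑ s ∈ Finset.univ.filter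
              (fun s : Fin (n+1) → Bool =>
                s 0 = true ∧ ∑ i, (if s i then (1:ℤ) else -1) = y),
            (-Complex.I) ^ ((Finset.univ.filter
              (fun i : Fin n => s i.castSucc ≠ s i.succ)).card)‖ ^ 2
        ≤
        (2:ℝ) ^ (-(n:ℤ)) *
          ‖∑ s ∈ Finset.univ.filter
              (fun s : Fin (n+1) → Bool =>
                s 0 = true ∧ ∑ i, (if s i then (1:ℤ) else -1) = x),
            (-Complex.I) ^ ((Finset.univ.filter
              (fun i : Fin n => s i.castSucc ≠ s i.succ)).card)‖ ^ 2) →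
      |(x:ℝ) - ((n:ℝ) + 1) / Real.sqrt 2| ≤ C) := by
  rintro ⟨C, hC⟩
  obtain ⟨C', hC'⟩ := exists_nat_ge C
  obtain ⟨n, hn⟩ := Pool.Agent.N661.FCX.win C'
  obtain ⟨k, hk⟩ := Pool.Agent.N661.FCX.exists_max n
  have h := hC n (Pool.Agent.N661.FCX.xi n k) (by
    intro y
    rw [Pool.Agent.N661.FCX.path_eq, Pool.Agent.N661.FCX.path_eq]
    exact mul_le_mul_of_nonneg_left (hk y) (by positivity))
  rw [Pool.Agent.N661.FCX.xi_cast] at h
  have h1 := hn k (h.trans hC')
  have h2 := hk (Pool.Agent.N661.FCX.xi n (k + 1))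
  unfold Pool.Agent.N661.FCX.pr at h2
  linarith

end Pool.Agent.S15828
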