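import Pool.Statements.S15913
import Pool.Agent.N907.EG.Main

set_option autoImplicit false
open Filter Topology
open Pool Pool.MP_05f971_nt

namespace Pool.Agent.S15913

/-- There is a real α such that, for every ε>0, the least number of totient iterations taking n to 1 lies within ε·α·ln n of α·ln n for all n outside a set of natural density zero. -/
theorem result :
    ∃ α : ℝ, ∀ ε : ℝ, 0 < ε →
      Tendsto
        (fun N : ℕ =>
          (((Finset.range N).filter (fun n : ℕ =>
              ε * (α * Real.log (n : ℝ)) <
                |((sInf {k : ℕ | Nat.totient^[k] n = 1} : ℕ) : ℝ) - α * Real.log (n : ℝ)|)).card : ℝ)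
            / (N : ℝ))
        atTop (𝓝 0) := by
  obtain ⟨α, hα, h⟩ := Pool.Agent.N907.EG.normal_order
  refine ⟨α, fun ε hε => ?_⟩
  have h2 := h (ε * α) (by positivity)
  unfold Pool.Agent.N907.EG.cls at h2
  convert h2 using 6
  ring_nf

end Pool.Agent.S15913
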