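import Pool.Statements.S16131
import Pool.Agent.N367.LE.Fin3
import Pool.Agent.N91.LESM10
import Pool.Agent.N911.L.R3
import Pool.Agent.N367.HT.All

set_option autoImplicit false
open Pool Pool.MP_15cb89_nt

namespace Pool.Agent.S16131

/-- If D = n^2+4 (n ≥ 1) is square-free and Q(√D) has class number 2, then D = pq with primes p<q both 1 mod 4, the set T of primes r<√D/2 with Kronecker (D/r) ≠ -1 has 1 or 2 elements, and each r in T with (D/r)=1 has r^2 > √D/2. -/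
theorem result :
    ∀ n D : ℕ, 0 < n → D = n ^ 2 + 4 → Squarefree D →
      ∀ (K : Type) [Field K] [NumberField K],
        Module.finrank ℚ K = 2 → (∃ x : K, x ^ 2 = (D : K)) →
        NumberField.classNumber K = 2 →
        (∃ p q : ℕ, p.Prime ∧ q.Prime ∧ p < q ∧ p % 4 = 1 ∧ q % 4 = 1 ∧ D = p * q) ∧
        ∃ T : Finset ℕ,
          (∀ r : ℕ, r ∈ T ↔
            (r.Prime ∧ (r : ℝ) < Real.sqrt (D : ℝ) / 2 ∧
              ((r = 2 ∧ (D % 2 = 0 ∨ D % 8 = 1 ∨ D % 8 = 7)) ∨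
               (r ≠ 2 ∧ jacobiSym (D : ℤ) r ≠ -1)))) ∧
          1 ≤ T.card ∧ T.card ≤ 2 ∧
          ∀ r ∈ T,
            ((r = 2 ∧ (D % 8 = 1 ∨ D % 8 = 7)) ∨ (r ≠ 2 ∧ jacobiSym (D : ℤ) r = 1)) →
            Real.sqrt (D : ℝ) / 2 < (r : ℝ) ^ 2 := by
  intro n D hn hD hsf K _ _ hK hx hcl
  exact Pool.Agent.N367.LE.final3 Pool.Agent.N91.LESM10.sm10
    (Pool.Agent.N911.L.si10 Pool.Agent.N367.HT.all)
    (Pool.Agent.N911.L.sr10 Pool.Agent.N367.HT.all) n D hn hD hsf K hK hx hcl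

end Pool.Agent.S16131
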