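import Pool.Statements.S16186
import Pool.Agent.N889.LD.Loc
import Pool.Agent.H58W.HtLimit

set_option autoImplicit false
open Pool Pool.MP_19fd7d_nt

namespace Pool.Agent.S16186

/-- The negation of the preceding statement: If F in Q̄ is Galois over a number field K and has (USB) (for each rational map of degree at least 2, some c>0 leaves only finitely many points of F with canonical height below c), then F/K has finite local degree at infinitely many finite primes of K. -/
theorem result :
    ¬ (∀ h : AlgebraicClosure ℚ → ℝ,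
      (∀ β : AlgebraicClosure ℚ, h β =
        Real.log (((sInf {n : ℕ | 0 < n ∧ ∀ i : ℕ, ((n : ℚ) * (minpoly ℚ β).coeff i).den = 1} : ℕ) : ℝ) *
          (Polynomial.map (algebraMap ℚ ℂ) (minpoly ℚ β)).mahlerMeasure) /
          ((minpoly ℚ β).natDegree : ℝ)) →
    ∀ Φ : RatFunc (AlgebraicClosure ℚ) → AlgebraicClosure ℚ × AlgebraicClosure ℚ →
        AlgebraicClosure ℚ × AlgebraicClosure ℚ,
      (∀ (f : RatFunc (AlgebraicClosure ℚ)) (z : AlgebraicClosure ℚ × AlgebraicClosure ℚ),
        Φ f z =
          (∑ i ∈ Finset.range (max f.num.natDegree f.denom.natDegree + 1),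
              f.num.coeff i * z.1 ^ i * z.2 ^ (max f.num.natDegree f.denom.natDegree - i),
           ∑ i ∈ Finset.range (max f.num.natDegree f.denom.natDegree + 1),
              f.denom.coeff i * z.1 ^ i * z.2 ^ (max f.num.natDegree f.denom.natDegree - i))) →
    ∀ (K : IntermediateField ℚ (AlgebraicClosure ℚ)) [NumberField K]
      (F : IntermediateField K (AlgebraicClosure ℚ)),
      IsGalois K F →
      (∀ f : RatFunc (AlgebraicClosure ℚ),
        2 ≤ max f.num.natDegree f.denom.natDegree →
        ∃ c : ℝ, 0 < c ∧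
          Set.Finite {α : AlgebraicClosure ℚ | α ∈ F ∧ ∃ L : ℝ,
            Filter.Tendsto
              (fun n : ℕ => h (((Φ f)^[n] (α, 1)).1 / ((Φ f)^[n] (α, 1)).2) /
                ((max f.num.natDegree f.denom.natDegree : ℕ) : ℝ) ^ n)
              Filter.atTop (nhds L) ∧ L < c}) →
      Set.Infinite {v : IsDedekindDomain.HeightOneSpectrum (NumberField.RingOfIntegers K) |
        ∀ ι : AlgebraicClosure ℚ →ₐ[K] AlgebraicClosure (v.adicCompletion K),
          FiniteDimensional (v.adicCompletion K)
            (IntermediateField.adjoin (v.adicCompletion K)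
              (ι '' (F : Set (AlgebraicClosure ℚ))))}) := by
  intro hmain
  obtain ⟨F', hF1, hF2, hF3⟩ := Pool.Agent.N889.LD.exists_field
  have hNF : NumberField (⊥ : IntermediateField ℚ (AlgebraicClosure ℚ)) :=
    { to_charZero := inferInstance
      to_finiteDimensional := inferInstance }
  let F : IntermediateField (⊥ : IntermediateField ℚ (AlgebraicClosure ℚ)) (AlgebraicClosure ℚ) :=
    IntermediateField.extendScalars (bot_le : ⊥ ≤ F')
  have hFmem : ∀ x, x ∈ F ↔ x ∈ F' := fun x => Iff.rfl
  have hcl : IsAlgClosure (⊥ : IntermediateField ℚ (AlgebraicClosure ℚ)) (AlgebraicClosure ℚ) :=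
    ⟨inferInstance, ⟨fun z => (Pool.Agent.N889.LD.isInt ⊥ z).isAlgebraic⟩⟩
  have hnorm : Normal (⊥ : IntermediateField ℚ (AlgebraicClosure ℚ)) (AlgebraicClosure ℚ) :=
    IsAlgClosure.normal _ _
  have hgal : IsGalois (⊥ : IntermediateField ℚ (AlgebraicClosure ℚ)) F := by
    have h1 : Normal (⊥ : IntermediateField ℚ (AlgebraicClosure ℚ)) F := by
      rw [IntermediateField.normal_iff_forall_map_le']
      rintro σ _ ⟨x, hx, rfl⟩
      exact hF1 (σ.restrictScalars ℚ) x hx
    exact { to_isSeparable := inferInstance, to_normal := h1 }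
  have hmain' := hmain (fun β => Pool.Agent.H58W.hM β) (fun β => rfl)
    (fun f z => (∑ i ∈ Finset.range (max f.num.natDegree f.denom.natDegree + 1),
              f.num.coeff i * z.1 ^ i * z.2 ^ (max f.num.natDegree f.denom.natDegree - i),
           ∑ i ∈ Finset.range (max f.num.natDegree f.denom.natDegree + 1),
              f.denom.coeff i * z.1 ^ i * z.2 ^ (max f.num.natDegree f.denom.natDegree - i)))
    (fun f z => rfl) ⊥ F hgal (by
      intro f hf
      obtain ⟨m, hm⟩ := Pool.Agent.H58W.small_limit_bound f.num f.denom _ rfl hf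
        (RatFunc.isCoprime_num_denom f)
      refine ⟨1, one_pos, (hF2 m).subset ?_⟩
      rintro α ⟨hα, L, hL, hL1⟩
      exact ⟨(hFmem α).mp hα, hm _ α le_rfl L hL1 hL⟩)
  apply hmain'
  have hfin : {v : IsDedekindDomain.HeightOneSpectrum (NumberField.RingOfIntegers
      (⊥ : IntermediateField ℚ (AlgebraicClosure ℚ))) | v.asIdeal ∣ Ideal.span {2}}.Finite := by
    apply Ideal.finite_factors
    rw [Ne, Ideal.zero_eq_bot, Ideal.span_singleton_eq_bot]
    norm_num
  refine hfin.subset ?_
  intro v hv
  let ι : AlgebraicClosure ℚ →ₐ[(⊥ : IntermediateField ℚ (AlgebraicClosure ℚ))]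
      AlgebraicClosure (v.adicCompletion (⊥ : IntermediateField ℚ (AlgebraicClosure ℚ))) :=
    IsAlgClosed.lift
  have h2 := Pool.Agent.N889.LD.two_mem F' hF3 ⊥ v ι (hv ι)
  show v.asIdeal ∣ Ideal.span {2}
  rw [Ideal.dvd_span_singleton]
  exact h2

end Pool.Agent.S16186
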