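import Pool.Statements.S16915
import Pool.Agent.N685.MRec

set_option autoImplicit false
open MeasureTheory
open Pool Pool.MP_4fa6ed_nt

namespace Pool.Agent.S16915

/-- If a≥1, gcd(a,b,d)=1, and b=d or a divides bd, then for every measure-preserving action of the positive rationals under multiplication and every positive-measure set A, some ratio (an+b)/(an+d) with n≥1 and both terms positive returns A to itself in positive measure. -/
theorem result :
    ∀ (a : ℕ) (b d : ℤ), 0 < a →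
      (∀ k : ℤ, k ∣ (a : ℤ) → k ∣ b → k ∣ d → IsUnit k) →
      (b = d ∨ (a : ℤ) ∣ b * d) →
      ∀ (X : Type) [MeasurableSpace X] (μ : Measure X) [IsProbabilityMeasure μ]
        (T : ℚ → X → X),
        T 1 = id →
        (∀ q r : ℚ, 0 < q → 0 < r → T (q * r) = T q ∘ T r) →
        (∀ q : ℚ, 0 < q → MeasurePreserving (T q) μ μ) →
        ∀ A : Set X, MeasurableSet A → 0 < μ A →
          ∃ n : ℕ, 0 < n ∧ 0 < (a : ℤ) * n + b ∧ 0 < (a : ℤ) * n + d ∧
            0 < μ (A ∩ T (((a : ℚ) * n + b) / ((a : ℚ) * n + d)) ⁻¹' A) := by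
  intro a b d ha hg hbd X _ μ _ T hT1 hmul hT A hA hpos
  by_cases hbeq : b = d
  · subst hbeq
    have hA1 : (1 : ℤ) ≤ a := by exact_mod_cast ha
    have h1 : 0 < (a : ℤ) * ((b.natAbs + 1 : ℕ) : ℤ) + b := by
      have h2 : -((b.natAbs : ℕ) : ℤ) ≤ b := by omega
      have h3 : (0 : ℤ) ≤ ((b.natAbs : ℕ) : ℤ) := Int.natCast_nonneg _
      have h4 : ((b.natAbs + 1 : ℕ) : ℤ) ≤ (a : ℤ) * ((b.natAbs + 1 : ℕ) : ℤ) :=
        le_mul_of_one_le_left (Int.natCast_nonneg _) hA1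
      have h5 : ((b.natAbs + 1 : ℕ) : ℤ) = ((b.natAbs : ℕ) : ℤ) + 1 := by push_cast; rfl
      linarith
    refine ⟨b.natAbs + 1, Nat.succ_pos _, h1, h1, ?_⟩
    have h3 : ((a : ℚ) * ((b.natAbs + 1 : ℕ) : ℚ) + b) ≠ 0 := by
      have h4 : ((0 : ℤ) : ℚ) < (((a : ℤ) * ((b.natAbs + 1 : ℕ) : ℤ) + b : ℤ) : ℚ) :=
        Int.cast_lt.2 h1
      have h5 : (((a : ℤ) * ((b.natAbs + 1 : ℕ) : ℤ) + b : ℤ) : ℚ) =
          (a : ℚ) * ((b.natAbs + 1 : ℕ) : ℚ) + b := by
        rw [Int.cast_add, Int.cast_mul, Int.cast_natCast, Int.cast_natCast]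
      rw [h5, Int.cast_zero] at h4
      exact h4.ne'
    rw [div_self h3, hT1, Set.preimage_id, Set.inter_self]
    exact hpos
  · have hdvd : (a : ℤ) ∣ b * d := hbd.resolve_left hbeq
    obtain ⟨a₁, a₂, haa, hco, hb, hd⟩ := Pool.Agent.N685.MRec.split a b d ha hg hdvd
    subst haa
    have h1 : 0 < a₁ := by
      rcases Nat.eq_zero_or_pos a₁ with h | h
      · subst h; simp at ha
      · exact h
    have h2 : 0 < a₂ := by
      rcases Nat.eq_zero_or_pos a₂ with h | h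
      · subst h; simp at ha
      · exact h
    obtain ⟨r, hr⟩ := Pool.Agent.N685.MRec.exists_pair μ T hT A hA hpos
    rcases lt_or_gt_of_ne hbeq with h | h
    · obtain ⟨s, hs, hs0, hl⟩ := Pool.Agent.N685.MRec.exists_chain a₂ a₁ (a₂ * a₁ + b.natAbs) h2 h1
        (by positivity) hco.symm r
      obtain ⟨u, hu, v, hv, huv, hμ⟩ := hr s hs hs0
      obtain ⟨n, hn, hn1, hn2, hn3⟩ := Pool.Agent.N685.MRec.link_mem a₂ a₁ h2 h1 hco.symm d b hd hb h
        u v huv (hl u hu v hv huv)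
      rw [mul_comm a₂ a₁] at hn1 hn2 hn3
      refine ⟨n, hn, hn2, hn1, ?_⟩
      have hu' : (0 : ℚ) < u := by exact_mod_cast hs0 u hu
      have hv' : (0 : ℚ) < v := by exact_mod_cast hs0 v hv
      rw [Set.inter_comm] at hμ
      have h4 := Pool.Agent.N685.MRec.transfer μ T hmul hT A hA v u hv' hu' hμ
      have h5 : (u : ℚ) / v = (((a₁ * a₂ : ℕ) : ℚ) * n + b) / (((a₁ * a₂ : ℕ) : ℚ) * n + d) := by
        rw [← inv_div (v : ℚ) u, hn3, inv_div]
        push_cast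
        rfl
      rw [h5] at h4
      exact h4
    · obtain ⟨s, hs, hs0, hl⟩ := Pool.Agent.N685.MRec.exists_chain a₁ a₂ (a₁ * a₂ + d.natAbs) h1 h2
        (by positivity) hco r
      obtain ⟨u, hu, v, hv, huv, hμ⟩ := hr s hs hs0
      obtain ⟨n, hn, hn1, hn2, hn3⟩ := Pool.Agent.N685.MRec.link_mem a₁ a₂ h1 h2 hco b d hb hd h
        u v huv (hl u hu v hv huv)
      refine ⟨n, hn, hn1, hn2, ?_⟩
      have hu' : (0 : ℚ) < u := by exact_mod_cast hs0 u hu
      have hv' : (0 : ℚ) < v := by exact_mod_cast hs0 v hv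
      have h4 := Pool.Agent.N685.MRec.transfer μ T hmul hT A hA u v hu' hv' hμ
      have h5 : (v : ℚ) / u = (((a₁ * a₂ : ℕ) : ℚ) * n + b) / (((a₁ * a₂ : ℕ) : ℚ) * n + d) := by
        rw [hn3]
        push_cast
        rfl
      rw [h5] at h4
      exact h4

end Pool.Agent.S16915
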