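import Pool.Statements.S17043
import Pool.Agent.N763.GreedyD

set_option autoImplicit false
open Pool Pool.MP_590852_nt

namespace Pool.Agent.S17043

/-- Every real x with 0 < x ≤ 1 equals g₁ + g₂, where g₁ and g₂ lie in (0,1) and the continued fraction partial quotients of each (computed via the Gauss map) tend to infinity. -/
theorem result :
    ∀ x : ℝ, 0 < x → x ≤ 1 →
      ∃ g₁ g₂ : ℝ,
        g₁ ∈ Set.Ioo (0 : ℝ) 1 ∧ g₂ ∈ Set.Ioo (0 : ℝ) 1 ∧
        Filter.Tendsto (fun n : ℕ => ⌊1 / ((fun y : ℝ => Int.fract (1 / y))^[n] g₁)⌋)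
          Filter.atTop Filter.atTop ∧
        Filter.Tendsto (fun n : ℕ => ⌊1 / ((fun y : ℝ => Int.fract (1 / y))^[n] g₂)⌋)
          Filter.atTop Filter.atTop ∧
        x = g₁ + g₂ := by
  intro x h0 h1
  have key : ∃ u v : ℕ → ℕ, (∀ i, 1 ≤ u i) ∧ (∀ i, 1 ≤ v i) ∧
      Filter.Tendsto u Filter.atTop Filter.atTop ∧ Filter.Tendsto v Filter.atTop Filter.atTop ∧
      x = H313R3.BK.cf u + H313R3.BK.cf v := by
    by_cases hx : Irrational x
    · have h1' : x < 1 := lt_of_le_of_ne h1 (by
        rintro rfl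
        exact not_irrational_one hx)
      exact Pool.Agent.N763.G.main_irrational hx h0 h1'
    · rw [irrational_iff_ne_rational] at hx
      push Not at hx
      obtain ⟨a, b, hb, hab⟩ := hx
      -- positive representation
      have hpos : ∃ P T : ℕ, 0 < T ∧ x = (P : ℝ) / T := by
        obtain ⟨r, hr⟩ : ∃ r : ℚ, (r : ℝ) = x := ⟨(a : ℚ) / b, by rw [hab]; push_cast; rfl⟩
        have hr0 : 0 < r := by
          have : (0 : ℝ) < r := by rw [hr]; exact h0
          exact_mod_cast this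
        refine ⟨r.num.toNat, r.den, r.den_pos, ?_⟩
        have h3 : ((r.num.toNat : ℤ) : ℝ) = (r.num : ℝ) := by
          rw [Int.toNat_of_nonneg (Rat.num_nonneg.2 hr0.le)]
        have h4 : (r.num.toNat : ℝ) = (r.num : ℝ) := by exact_mod_cast h3
        rw [h4, ← hr]
        exact_mod_cast (Rat.num_div_den r).symm
      obtain ⟨P, T, hT, hPT⟩ := hpos
      have hTR : (0 : ℝ) < T := by exact_mod_cast hT
      have hP : 0 < P := by
        rcases Nat.eq_zero_or_pos P with h | h
        · rw [hPT, h] at h0; simp at h0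
        · exact h
      have hle : P ≤ T := by
        rw [hPT, div_le_one hTR] at h1
        exact_mod_cast h1
      rw [hPT]
      exact Pool.Agent.N763.G.main_rational T P hP hle
  obtain ⟨u, v, hu, hv, tu, tv, hx⟩ := key
  exact ⟨H313R3.BK.cf u, H313R3.BK.cf v, ⟨H313R3.BK.cf_pos u hu, H313R3.BK.cf_lt_one u hu⟩,
    ⟨H313R3.BK.cf_pos v hv, H313R3.BK.cf_lt_one v hv⟩,
    Pool.Agent.N763.G.tendsto_digits u hu tu, Pool.Agent.N763.G.tendsto_digits v hv tv, hx⟩

end Pool.Agent.S17043
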