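import Pool.Statements.S17181
import Pool.Agent.N907.EG.Main

set_option autoImplicit false
open Pool Pool.MP_628140_nt

namespace Pool.Agent.S17181

/-- There is a real c such that for every ε>0, the n with ∣f(n)/log n − c∣>ε have natural density zero, where f(n) is the least k≥1 with the k-fold iterated Euler totient of n equal to 1. -/
theorem result :
    ∃ c : ℝ, ∀ ε : ℝ, ε > 0 →
      Filter.Tendsto
        (fun N : ℕ =>
          (((Finset.range N).filter
              (fun n : ℕ =>
                ε < |((sInf {k : ℕ | 1 ≤ k ∧ Nat.totient^[k] n = 1} : ℕ) : ℝ)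
                      / Real.log (n : ℝ) - c|)).card : ℝ) / (N : ℝ))
        Filter.atTop (nhds 0) := by
  obtain ⟨α, _, h⟩ := Pool.Agent.N907.EG.quotient_form
  refine ⟨α, fun ε hε => ?_⟩
  have h2 := h ε hε
  convert h2 using 6

end Pool.Agent.S17181
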