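import Pool.Statements.S17771
import Pool.Agent.N685.T1
import Pool.Agent.N685.T3
import Pool.Agent.N685.T4

set_option autoImplicit false
open Pool Pool.MP_91e459_nt

namespace Pool.Agent.S17771

/-- For all n ≥ 1, m ≥ 2 with (1−1/m)^n > 1/2 and (1−1/(m−1))^n < 1/2: (m−1)^n exceeds 1^n+…+(m−2)^n and (m+1)^n is less than 1^n+…+m^n. -/
theorem result :
    ∀ m n : ℕ, 1 ≤ n → 2 ≤ m →
      (1 - 1 / (m : ℝ)) ^ n > 1 / 2 →
      (1 - 1 / ((m : ℝ) - 1)) ^ n < 1 / 2 →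
      (m - 1) ^ n > ∑ i ∈ Finset.Icc 1 (m - 2), i ^ n ∧
      (m + 1) ^ n < ∑ i ∈ Finset.Icc 1 m, i ^ n := by
  intro m n hn hm h1 h2
  have hm0 : (2:ℝ) ≤ m := by exact_mod_cast hm
  have hmp : (0:ℝ) < m := by linarith
  -- `m = 2` is impossible
  rcases Nat.lt_or_ge m 3 with h3 | h3
  · exfalso
    have hm2 : m = 2 := by omega
    subst hm2
    have h4 : (1 - 1 / ((2:ℕ):ℝ))^n ≤ (1 - 1 / ((2:ℕ):ℝ))^1 :=
      pow_le_pow_of_le_one (by norm_num) (by norm_num) hn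
    have h5 : (1 - 1 / ((2:ℕ):ℝ))^1 = 1/2 := by norm_num
    rw [h5] at h4
    linarith
  have hm3 : (3:ℝ) ≤ m := by exact_mod_cast h3
  have hm1 : (0:ℝ) < (m:ℝ) - 1 := by linarith
  -- the two conditions in integers
  have a1 : m^n < 2*(m-1)^n := by
    have e1 : (1 - 1 / (m:ℝ)) = ((m:ℝ)-1)/m := by field_simp
    rw [e1, div_pow, gt_iff_lt, lt_div_iff₀ (by positivity)] at h1
    have e2 : ((m-1:ℕ):ℝ) = (m:ℝ) - 1 := by rw [Nat.cast_sub (by omega)]; simp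
    have : ((m^n : ℕ):ℝ) < ((2*(m-1)^n : ℕ):ℝ) := by
      push_cast
      rw [e2]
      linarith
    exact_mod_cast this
  have a2 : 2*(m-2)^n < (m-1)^n := by
    have e1 : (1 - 1 / ((m:ℝ)-1)) = ((m:ℝ)-2)/(m-1) := by field_simp; ring
    rw [e1, div_pow, div_lt_iff₀ (by positivity)] at h2
    have e2 : ((m-1:ℕ):ℝ) = (m:ℝ) - 1 := by rw [Nat.cast_sub (by omega)]; simp
    have e3 : ((m-2:ℕ):ℝ) = (m:ℝ) - 2 := by rw [Nat.cast_sub (by omega)]; simp
    have : ((2*(m-2)^n : ℕ):ℝ) < (((m-1)^n : ℕ):ℝ) := by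
      push_cast
      rw [e2, e3]
      linarith
    exact_mod_cast this
  refine ⟨Pool.Agent.N685.PS.first m n a2 h3, ?_⟩
  rcases Nat.lt_or_ge m 400 with h4 | h4
  · have hA := Pool.Agent.N685.PS.hA m n hm h1
    have hB := Pool.Agent.N685.PS.hB m n hm hA
    have hnm : n < m := by
      have := Pool.Agent.N685.PS.Lb.2
      have : (n:ℝ) < m := by nlinarith
      exact_mod_cast this
    exact Pool.Agent.N685.PS.small m n h4 hnm a1 a2
  · exact Pool.Agent.N685.PS.big m n h4 h1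

end Pool.Agent.S17771
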