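import Pool.Statements.S17881
import Pool.Agent.N728.SP.Top
import Pool.Agent.N728.SP.GS
import Pool.Agent.N728.SP.GDW

set_option autoImplicit false
open Pool Pool.MP_9c2ea5_nt

namespace Pool.Agent.S17881

/-- For every natural number a there exist natural numbers x > y > a such that both x+y+1 and xy+1 are prime, i.e. x+y and xy are both one less than a prime. -/
theorem result :
    ∀ a : ℕ, ∃ x y : ℕ, x > y ∧ y > a ∧ (x + y + 1).Prime ∧ (x * y + 1).Prime := by
  exact Pool.Agent.N728.SP.top_of Pool.Agent.N728.SP.GS.t_GS Pool.Agent.N728.SP.GDW.t_GD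
    Pool.Agent.N728.SP.GDW.t_WB Pool.Agent.N728.SP.GDW.t_GQ

end Pool.Agent.S17881
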