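import Pool.Statements.S19226
import Pool.Agent.Results.MP_284d10_pr.TwoSat

set_option autoImplicit false
open Pool Pool.MP_284d10_pr

namespace Pool.Agent.S19226

open Finset Pool.Agent.H921S Pool.Agent.Results.MP_284d10_pr.TwoSat

/-- the clauses of the frozen statement -/
abbrev CF (n : ℕ) := {c : Finset (Fin n × Bool) // c.card = 2 ∧ (c.image Prod.fst).card = 2}

/-- the two forms of clauses -/
def clEquiv (n : ℕ) : CF n ≃ Clause 2 n where
  toFun c := ⟨c.1, c.2.1, by
    have h : Set.InjOn Prod.fst (c.1 : Set (Fin n × Bool)) := by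
      rw [← Finset.card_image_iff, c.2.1, c.2.2]
    intro l hl l' hl' h'
    exact h hl hl' h'⟩
  invFun C := ⟨C.lits, C.card_lits, by
    rw [Finset.card_image_of_injOn, C.card_lits]
    intro l hl l' hl' h'
    exact C.distinct l hl l' hl' h'⟩
  left_inv c := rfl
  right_inv C := rfl

/-- the bijection of the orderings -/
noncomputable def ordEquiv (n : ℕ) : (Fin (Nat.card (CF n)) ≃ CF n) ≃ Ordering n :=
  Equiv.equivCongr (finCongr (by
    rw [Nat.card_congr (clEquiv n), Nat.card_eq_fintype_card])) (clEquiv n)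

theorem ordEquiv_symm_apply (n : ℕ) (e : Fin (Nat.card (CF n)) ≃ CF n) (c : CF n) :
    (((ordEquiv n e).symm (clEquiv n c) : Fin _) : ℕ) = (e.symm c : Fin _) := by
  simp [ordEquiv, Equiv.equivCongr]

theorem mem_stage {n : ℕ} (σ : Ordering n) (m : ℕ) (C : Clause 2 n) :
    C ∈ stage σ m ↔ ((σ.symm C : Fin _) : ℕ) < m := by
  unfold stage
  simp only [mem_filter, mem_univ, true_and]
  constructor
  · rintro ⟨i, hi, rfl⟩
    simpa using hi
  · intro h
    exact ⟨σ.symm C, h, by simp⟩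

/-- the event of the frozen statement -/
def Ev (n : ℕ) (e : Fin (Nat.card (CF n)) ≃ CF n) : Prop :=
  ∃ m : ℕ,
    (∀ j : ℕ, j < m → ∃ a : Fin n → Bool,
      ∀ c : CF n, ((e.symm c : Fin _) : ℕ) < j → ∃ l ∈ c.val, a l.1 = l.2) ∧
    ∃ H : Finset (CF n),
      H.Nonempty ∧
      (∀ c ∈ H, ((e.symm c : Fin _) : ℕ) < m) ∧
      ∃ a : Fin n → Bool,
        (∀ c ∈ H, ∃ l ∈ c.val, a l.1 = l.2) ∧
        ∀ b : Fin n → Bool, (∀ c ∈ H, ∃ l ∈ c.val, b l.1 = l.2) →
          ∀ i : Fin n, (∃ c ∈ H, ∃ l ∈ c.val, l.1 = i) → b i = a i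

theorem not_none_of_ev (n : ℕ) (e : Fin (Nat.card (CF n)) ≃ CF n) (h : Ev n e) :
    ¬ NoneByUnsat (ordEquiv n e) := by
  classical
  obtain ⟨m, h1, H, hne, hm, a, ha, hu⟩ := h
  intro hN
  refine hN m ?_ ⟨H.map (clEquiv n).toEmbedding, ?_, ?_, ⟨a, ?_⟩, ?_⟩
  · intro j hj
    obtain ⟨b, hb⟩ := h1 j hj
    refine ⟨b, fun C hC => ?_⟩
    rw [mem_stage] at hC
    have h3 := ordEquiv_symm_apply n e ((clEquiv n).symm C)
    rw [Equiv.apply_symm_apply] at h3
    obtain ⟨l, hl, hbl⟩ := hb ((clEquiv n).symm C) (by rw [← h3]; exact hC)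
    exact ⟨l, hl, hbl⟩
  · intro C hC
    rw [Finset.mem_map] at hC
    obtain ⟨c, hc, rfl⟩ := hC
    rw [mem_stage]
    have h3 := ordEquiv_symm_apply n e c
    have h4 := hm c hc
    exact lt_of_eq_of_lt h3 h4
  · exact hne.map
  · intro C hC
    rw [Finset.mem_map] at hC
    obtain ⟨c, hc, rfl⟩ := hC
    obtain ⟨l, hl, hal⟩ := ha c hc
    exact ⟨l, hl, hal⟩
  · have key : ∀ b : Asg n, Sol b (H.map (clEquiv n).toEmbedding) →
        ∀ c ∈ H, ∃ l ∈ c.val, b l.1 = l.2 := by
      intro b hb c hc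
      obtain ⟨l, hl, hbl⟩ := hb (clEquiv n c) (Finset.mem_map.2 ⟨c, hc, rfl⟩)
      exact ⟨l, hl, hbl⟩
    intro b b' hb hb' v hv
    unfold vars at hv
    rw [Finset.mem_biUnion] at hv
    obtain ⟨C, hC, hv⟩ := hv
    rw [Finset.mem_map] at hC
    obtain ⟨c, hc, rfl⟩ := hC
    rw [Finset.mem_image] at hv
    obtain ⟨l, hl, hlv⟩ := hv
    rw [hu b (key b hb) v ⟨c, hc, l, hl, hlv⟩, hu b' (key b' hb') v ⟨c, hc, l, hl, hlv⟩]

theorem ratio_le (n : ℕ) :
    (Nat.card {e : Fin (Nat.card (CF n)) ≃ CF n // Ev n e} : ℝ) /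
      (Nat.card (Fin (Nat.card (CF n)) ≃ CF n) : ℝ) ≤ 1 - prob n := by
  classical
  have hc : Nat.card (Fin (Nat.card (CF n)) ≃ CF n) = Fintype.card (Ordering n) := by
    rw [Nat.card_congr (ordEquiv n), Nat.card_eq_fintype_card]
  have hpos : (0 : ℝ) < Fintype.card (Ordering n) := by
    have : Nonempty (Ordering n) := ⟨(Fintype.equivFin _).symm⟩
    exact_mod_cast Fintype.card_pos
  have h1 : Nat.card {e : Fin (Nat.card (CF n)) ≃ CF n // Ev n e} ≤
      (univ.filter (fun σ : Ordering n => ¬ NoneByUnsat σ)).card := by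
    have h2 : Nat.card {e : Fin (Nat.card (CF n)) ≃ CF n // Ev n e} ≤
        Nat.card {σ : Ordering n // ¬ NoneByUnsat σ} :=
      Nat.card_le_card_of_injective
        (fun e => (⟨ordEquiv n e.1, not_none_of_ev n e.1 e.2⟩ :
          {σ : Ordering n // ¬ NoneByUnsat σ}))
        (fun e e' h => Subtype.ext ((ordEquiv n).injective (congrArg Subtype.val h)))
    have h2' : Nat.card {σ : Ordering n // ¬ NoneByUnsat σ} =
        (univ.filter (fun σ : Ordering n => ¬ NoneByUnsat σ)).card := by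
      rw [Nat.card_eq_fintype_card, Fintype.card_subtype]
    rwa [h2'] at h2
  have h3 := Finset.card_filter_add_card_filter_not (s := (univ : Finset (Ordering n)))
    (p := fun σ => NoneByUnsat σ)
  rw [Finset.card_univ] at h3
  rw [hc, div_le_iff₀ hpos]
  unfold prob
  rw [sub_mul, one_mul, div_mul_cancel₀ _ hpos.ne']
  have h4 : ((univ.filter (fun σ : Ordering n => NoneByUnsat σ)).card : ℝ) +
      ((univ.filter (fun σ : Ordering n => ¬ NoneByUnsat σ)).card : ℝ) =
      (Fintype.card (Ordering n) : ℝ) := by exact_mod_cast h3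
  have h5 : (Nat.card {e : Fin (Nat.card (CF n)) ≃ CF n // Ev n e} : ℝ) ≤
      ((univ.filter (fun σ : Ordering n => ¬ NoneByUnsat σ)).card : ℝ) := by exact_mod_cast h1
  linarith

/-- The negation of the preceding statement: For each k ≥ 2, under a uniformly random ordering of all k-clauses on n variables, the probability that some non-empty uniquely satisfiable subformula appears by the time the formula first becomes unsatisfiable tends to 1 as n grows. -/
theorem result :
    ¬ (∀ k : ℕ, 2 ≤ k →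
    Filter.Tendsto
      (fun n : ℕ =>
        (Nat.card {e : Fin (Nat.card {c : Finset (Fin n × Bool) // c.card = k ∧ (c.image Prod.fst).card = k}) ≃
                      {c : Finset (Fin n × Bool) // c.card = k ∧ (c.image Prod.fst).card = k} //
            ∃ m : ℕ,
              (∀ j : ℕ, j < m → ∃ a : Fin n → Bool,
                  ∀ c : {c : Finset (Fin n × Bool) // c.card = k ∧ (c.image Prod.fst).card = k},
                    ((e.symm c : Fin _) : ℕ) < j → ∃ l ∈ c.val, a l.1 = l.2) ∧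
              ∃ H : Finset {c : Finset (Fin n × Bool) // c.card = k ∧ (c.image Prod.fst).card = k},
                H.Nonempty ∧
                (∀ c ∈ H, ((e.symm c : Fin _) : ℕ) < m) ∧
                ∃ a : Fin n → Bool,
                  (∀ c ∈ H, ∃ l ∈ c.val, a l.1 = l.2) ∧
                  ∀ b : Fin n → Bool, (∀ c ∈ H, ∃ l ∈ c.val, b l.1 = l.2) →
                    ∀ i : Fin n, (∃ c ∈ H, ∃ l ∈ c.val, l.1 = i) → b i = a i} : ℝ) /
        (Nat.card (Fin (Nat.card {c : Finset (Fin n × Bool) // c.card = k ∧ (c.image Prod.fst).card = k}) ≃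
                      {c : Finset (Fin n × Bool) // c.card = k ∧ (c.image Prod.fst).card = k}) : ℝ))
      Filter.atTop (nhds 1)) := by
  intro Hall
  have h2 := Hall 2 le_rfl
  obtain ⟨δ, hδ, n0, hn0⟩ := Pool.Agent.Results.MP_284d10_pr.TwoSat.result
  have h3 := h2.eventually (lt_mem_nhds (show (1 - δ : ℝ) < 1 by linarith))
  obtain ⟨n1, hn1⟩ := h3.exists_forall_of_atTop
  have h4 := hn1 (max n0 n1) (le_max_right _ _)
  have h5 := hn0 (max n0 n1) (le_max_left _ _)
  have h6 := ratio_le (max n0 n1)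
  have h7 := lt_of_lt_of_le h4 h6
  linarith

end Pool.Agent.S19226
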