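import Pool.Statements.S19240
import Pool.Agent.N892.ST.Final

set_option autoImplicit false
open Filter Topology MeasureTheory
open Pool Pool.MP_2c66a4_pr

namespace Pool.Agent.S19240

/-- The negation of the preceding statement: For 0<α<1 and any symmetric α-stable Lévy process, almost surely the graph over [0,1] has Fourier dimension 1: for each s<1 some compactly carried probability measure on it has Fourier decay ‖ξ‖^(-s/2), and for no s>1. -/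
theorem result :
    ¬ (∀ (α : ℝ), 0 < α → α < 1 →
  ∀ (Ω : Type) [MeasurableSpace Ω] (P : Measure Ω) [IsProbabilityMeasure P] (X : ℝ → Ω → ℝ),
    (∀ t : ℝ, Measurable (X t)) →
    (∀ᵐ ω ∂P, X 0 ω = 0) →
    (∀ᵐ ω ∂P, ∀ t : ℝ, 0 ≤ t →
        ContinuousWithinAt (fun s => X s ω) (Set.Ici t) t ∧
        (0 < t → ∃ l : ℝ, Tendsto (fun s => X s ω) (𝓝[<] t) (𝓝 l))) →
    (∀ (n : ℕ) (t : Fin (n + 1) → ℝ), 0 ≤ t 0 → StrictMono t →
        ProbabilityTheory.iIndepFun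
          (fun (i : Fin n) (ω : Ω) => X (t i.succ) ω - X (t i.castSucc) ω) P) →
    (∀ s t : ℝ, 0 ≤ s → s ≤ t → ∀ ξ : ℝ,
        ∫ ω, Complex.exp (((ξ * (X t ω - X s ω) : ℝ) : ℂ) * Complex.I) ∂P
          = ((Real.exp (-(t - s) * |ξ| ^ α) : ℝ) : ℂ)) →
    ∀ᵐ ω ∂P,
      (∀ s : ℝ, 0 < s → s < 1 →
        ∃ (μ : Measure (ℝ × ℝ)) (K : Set (ℝ × ℝ)),
          IsProbabilityMeasure μ ∧ IsCompact K ∧
          K ⊆ {p : ℝ × ℝ | p.1 ∈ Set.Icc (0 : ℝ) 1 ∧ p.2 = X p.1 ω} ∧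
          μ Kᶜ = 0 ∧
          ∃ C : ℝ, ∀ ξ : ℝ × ℝ, 1 ≤ ‖ξ‖ →
            ‖∫ p, Complex.exp (((ξ.1 * p.1 + ξ.2 * p.2 : ℝ) : ℂ) * Complex.I) ∂μ‖
              ≤ C * ‖ξ‖ ^ (-s / 2)) ∧
      (∀ s : ℝ, 1 < s →
        ¬ ∃ (μ : Measure (ℝ × ℝ)) (K : Set (ℝ × ℝ)),
          IsProbabilityMeasure μ ∧ IsCompact K ∧
          K ⊆ {p : ℝ × ℝ | p.1 ∈ Set.Icc (0 : ℝ) 1 ∧ p.2 = X p.1 ω} ∧
          μ Kᶜ = 0 ∧
          ∃ C : ℝ, ∀ ξ : ℝ × ℝ, 1 ≤ ‖ξ‖ →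
            ‖∫ p, Complex.exp (((ξ.1 * p.1 + ξ.2 * p.2 : ℝ) : ℂ) * Complex.I) ∂μ‖
              ≤ C * ‖ξ‖ ^ (-s / 2))) := by
  intro H
  have hα : (0 : ℝ) < 1 / 16 := by norm_num
  have hα1 : (1 / 16 : ℝ) < 1 := by norm_num
  have hβ : (1 / 16 : ℝ) < 1 / 8 := by norm_num
  have h0 : (0 : ℝ) < 1 / 8 := by norm_num
  have h1 : (1 / 8 : ℝ) ≤ 1 := by norm_num
  obtain ⟨r, ρ, hρ, hs, hΦ⟩ := Pool.Agent.N892.ST.exists_levels h0 h1
    (Pool.Agent.N892.ST.nuS (1 / 16)) (Pool.Agent.N892.ST.nuS_finite hα hα1 hβ)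
  have hmain := H (1 / 16) hα hα1 Pool.Agent.N892.ST.MOm (Pool.Agent.N892.ST.MP r ρ)
    (Pool.Agent.N892.ST.XX (1 / 8))
    (Pool.Agent.N892.ST.measurable_XX h0 h1)
    (ae_of_all _ (Pool.Agent.N892.ST.XX_zero (1 / 8)))
    (ae_of_all _ fun ω t _ => ⟨Pool.Agent.N892.ST.XX_right h0 h1 t ω,
      fun _ => Pool.Agent.N892.ST.XX_left h0 h1 t ω⟩)
    (fun n t ht0 ht => Pool.Agent.N892.ST.XX_indep h0 h1 hs hΦ n t ht0 ht.monotone)
    (fun s t hs0 hst ξ => by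
      have h := Pool.Agent.N892.ST.char_single h0 h1 hs hΦ hs0 hst ξ
      have h2 : ∀ ω, Complex.exp (((ξ * (Pool.Agent.N892.ST.XX (1 / 8) t ω -
          Pool.Agent.N892.ST.XX (1 / 8) s ω) : ℝ) : ℂ) * Complex.I) =
          Complex.exp ((ξ * Complex.I) * ((Pool.Agent.N892.ST.XX (1 / 8) t ω -
            Pool.Agent.N892.ST.XX (1 / 8) s ω : ℝ) : ℂ)) := by
        intro ω
        congr 1
        push_cast
        ring
      simp_rw [h2]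
      rw [h, Pool.Agent.N892.ST.nuS_exponent hα hα1, Complex.ofReal_exp]
      congr 1
      push_cast
      ring)
  obtain ⟨ω, hω, hG⟩ := (hmain.and (Pool.Agent.N892.ST.ae_GG r ρ hs)).exists
  obtain ⟨μ, K, hμ, hKc, hK, hμK, C, hC⟩ := hω.1 (3 / 4) (by norm_num) (by norm_num)
  refine Pool.Agent.N892.ST.no_measure hG μ K hK hμK C (fun v hv => ?_)
  have h2 := hC (0, v) (by
    rw [Prod.norm_def]
    simpa using hv)
  have h3 : ‖((0 : ℝ), v)‖ = |v| := by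
    rw [Prod.norm_def]
    simp
  rw [h3] at h2
  have h4 : (-(3 / 4) / 2 : ℝ) = -(3 / 8) := by norm_num
  rw [h4] at h2
  refine le_of_eq_of_le ?_ h2
  rw [MeasureTheory.charFun_apply, integral_map measurable_snd.aemeasurable (by fun_prop)]
  congr 2
  ext p
  congr 1
  simp only [RCLike.inner_apply, conj_trivial]
  push_cast
  ring

end Pool.Agent.S19240
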