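-- The critical walk on the free product of two copies of Z^6 (see Pool/Agent/N928/FG)
import Pool.Statements.S19332
import Pool.Agent.N928.FG.Asm
import Pool.Agent.N667.FG.S1
import Pool.Agent.N285.FG.INT
import Pool.Agent.N933.FG.QB
import Pool.Agent.N291.FG.HALF
import Pool.Agent.N707.FG.MU
import Pool.Agent.N966.FG.AB
import Pool.Agent.N362.FG.CONV
import Pool.Agent.N43.FG.CONT
import Pool.Agent.N654.FG.UP
import Pool.Agent.N377.FG.LOW
import Pool.Agent.N106.FG.CRIT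
import Pool.Agent.N722.FG.DZ
import Pool.Agent.N395.FG.DPOS
import Pool.Agent.N691.FG.DLOG
import Pool.Agent.N442.FG.WLIN
import Pool.Agent.N80.FG.ZLOG
import Pool.Agent.N281.FG.NU
import Pool.Agent.N42.FG.MULT
import Pool.Agent.N504.FG.GA
import Pool.Agent.N694.FG.HARM
import Pool.Agent.N439.FG.SUM1
import Pool.Agent.N657.FG.Sym
import Pool.Agent.N453.FG.ABL
import Pool.Agent.N519.FG.ABU
import Pool.Agent.N373.FG.FIN
import Pool.Agent.N93.FG.RHO
import Pool.Agent.N413.FG.CANC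
import Pool.Agent.N591.FG.TRI
import Pool.Agent.N364.FG.GEN
import Pool.Agent.N250.FG.Rd
import Pool.Agent.N928.FG.Sum2

set_option autoImplicit false
open Pool Pool.MP_5501f7_pr

namespace Pool.Agent.S19332

/-- The negation of the preceding statement: For every finitely generated group with property RD and every finitely supported symmetric probability ν on it, with ρ the ℓ² norm of convolution by ν, the return probability ν^(2n)(e) is asymptotic to c·n^(-d)·ρ^(2n) for some c>0 and real d. -/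
theorem result :
    ¬ (∀ (G : Type) [Group G],
      (∃ S : Finset G, Subgroup.closure (S : Set G) = ⊤ ∧
        ∃ (C : ℝ) (s : ℕ), ∀ f g : G →₀ ℝ, ∀ T : Finset G,
          ∑ x ∈ T, (f.sum (fun y a => a * g (y⁻¹ * x))) ^ 2 ≤
            C * (f.sum (fun x a => a ^ 2 *
                  (1 + ((sInf {n : ℕ | ∃ l : List G, l.length = n ∧
                      (∀ y ∈ l, y ∈ S ∨ y⁻¹ ∈ S) ∧ l.prod = x} : ℕ) : ℝ)) ^ (2 * s)))
              * g.sum (fun _ a => a ^ 2)) →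
      ∀ ν : G →₀ ℝ,
        (∀ x, 0 ≤ ν x) →
        ν.sum (fun _ a => a) = 1 →
        (∀ x, ν x⁻¹ = ν x) →
        ∀ ρ : ℝ, 0 ≤ ρ →
          (∀ g : G →₀ ℝ, ∀ T : Finset G,
            ∑ x ∈ T, (ν.sum (fun y a => a * g (y⁻¹ * x))) ^ 2 ≤
              ρ ^ 2 * g.sum (fun _ a => a ^ 2)) →
          (∀ r : ℝ, 0 ≤ r → r < ρ → ∃ g : G →₀ ℝ, ∃ T : Finset G,
            r ^ 2 * g.sum (fun _ a => a ^ 2) <
              ∑ x ∈ T, (ν.sum (fun y a => a * g (y⁻¹ * x))) ^ 2) →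
          ∃ c d : ℝ, 0 < c ∧
            Asymptotics.IsEquivalent Filter.atTop
              (fun n : ℕ =>
                ((fun (h : G → ℝ) (x : G) => ν.sum (fun y a => a * h (y⁻¹ * x)))^[2 * n]
                  (Set.indicator ({1} : Set G) (fun _ => (1 : ℝ)))) 1)
              (fun n : ℕ => c * (n : ℝ) ^ (-d) * ρ ^ (2 * n))) := by
  have hS1 := Pool.Agent.N667.FG.t_S1
  have hINT := Pool.Agent.N285.FG.t_INT
  have hQB := Pool.Agent.N933.FG.t_QB hINT hS1
  have hHALF := Pool.Agent.N291.FG.t_HALF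
  have hMU := Pool.Agent.N707.FGMU.t_MU hS1
  have hAB := Pool.Agent.N966.FG.t_AB hQB hS1
  have hCONV := Pool.Agent.N362.FG.t_CONV hINT hS1
  have hCONT := Pool.Agent.N43.FG.t_CONT hAB hS1
  have hUP := N654.FG.t_UP hHALF hS1
  have hLOW := Pool.Agent.N377.FG.LOW.t_LOW hQB hS1 hAB
  have hCRIT := Pool.Agent.N106.FG.t_CRIT hCONT hUP hLOW hAB hS1
  have hDZ := Pool.Agent.N722.FG.t_DZ hAB hS1
  have hDLOG := Pool.Agent.N691.FG.t_DLOG hAB hS1
  have hDPOS := Pool.Agent.N395.FG.DPOS.t_DPOS hCONV hDLOG hDZ hAB hS1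
  have hWLIN := Pool.Agent.N442.FG.t_WLIN hAB hS1
  have hZLOG := Pool.Agent.N80.FG.ZLOG.t_ZLOG hDZ hDLOG hWLIN
  have hNU := Pool.Agent.N281.FG.t_NU hMU
  have hMULT := Pool.Agent.N42.FG.t_MULT
  have hGA := Pool.Agent.N504.FG.t_GA hMU
  have hHARM := Pool.Agent.N694.FG.HARM.t_HARM hGA hMULT hNU hMU
  have hSUM1 := Pool.Agent.N439.FG.t_SUM1 hHARM hNU hDZ
  have hSUM2 := Pool.Agent.N928.FG.Sum2.t_SUM2 hSUM1 hDZ hDPOS hAB hS1
  have hSYM := Pool.Agent.N657.FG.t_SYM hNU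
  have hABL := Pool.Agent.N453.FG.t_ABL
  have hABU := Pool.Agent.N519.FG.ABU.t_ABU
  have hFIN := Pool.Agent.N373.FG.t_FIN hABL hABU
  have hRHO := Pool.Agent.N93.FG.t_RHO
  have hTRI := Pool.Agent.N591.FG.t_TRI Pool.Agent.N413.FGCANC.t_CANC
  have hGEN := Pool.Agent.N364.FG.GEN.t_GEN
  have hRD := Pool.Agent.N250.FG.Rd.t_RD hTRI hGEN
  exact Pool.Agent.N928.FG.final hDZ hDPOS hSYM hSUM2 hWLIN hZLOG hFIN hCRIT hNU hRHO hRD

end Pool.Agent.S19332
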