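import Pool.Statements.S19353
import Pool.Agent.Results.MP_5fc11c_pr.KacConstant

set_option autoImplicit false
open MeasureTheory Filter Topology
open Pool Pool.MP_5fc11c_pr

namespace Pool.Agent.S19353

open Pool.Agent.Results.MP_5fc11c_pr.KacConstant

theorem map_restrict_eq (μ : Measure ℝ) [IsProbabilityMeasure μ] (n : ℕ) :
    Measure.map (fun (ω : ℕ → ℝ) (i : Fin n) => ω i) (Measure.infinitePi (fun _ : ℕ => μ)) =
      Measure.pi fun _ : Fin n => μ := by
  symm
  apply Measure.pi_eq
  intro s hs
  have hm : Measurable (fun (ω : ℕ → ℝ) (i : Fin n) => ω i) := by fun_prop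
  rw [Measure.map_apply hm (MeasurableSet.univ_pi hs)]
  have h1 : (fun (ω : ℕ → ℝ) (i : Fin n) => ω i) ⁻¹' (Set.univ.pi s) =
      Set.pi (Finset.range n : Set ℕ) (fun k => if h : k < n then s ⟨k, h⟩ else Set.univ) := by
    ext ω
    simp only [Set.mem_preimage, Set.mem_pi, Set.mem_univ, true_implies, Finset.coe_range,
      Set.mem_Iio]
    constructor
    · intro h k hk
      rw [dif_pos hk]
      exact h ⟨k, hk⟩
    · intro h i
      have := h i i.2
      rw [dif_pos i.2] at this
      exact this
  rw [h1, Measure.infinitePi_pi]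
  · rw [Finset.prod_range]
    apply Finset.prod_congr rfl
    intro i _
    rw [dif_pos i.2]
  · intro k hk
    rw [dif_pos (Finset.mem_range.1 hk)]
    exact hs _

theorem kac_fin (n : ℕ) (ξ : ℕ → ℝ) :
    (∑ k : Fin (n + 1), Polynomial.C (ξ k) * Polynomial.X ^ (k : ℕ)) = kacPoly n ξ := by
  unfold kacPoly
  rw [Finset.sum_range]

/-- For every real law with mean 0 and variance 1, the expected number of distinct real roots of the degree-n polynomial with i.i.d. coefficients of that law, minus (2/π) log n, converges to a finite real limit. -/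
theorem result :
    ∀ (μ : Measure ℝ) [IsProbabilityMeasure μ],
      Integrable (fun x : ℝ => x ^ 2) μ →
      ∫ x, x ∂μ = 0 →
      ∫ x, x ^ 2 ∂μ = 1 →
      ∃ C : ℝ, Tendsto
        (fun n : ℕ =>
          (∫⁻ c : Fin (n + 1) → ℝ,
              (((∑ k : Fin (n + 1), Polynomial.C (c k) * Polynomial.X ^ (k : ℕ)).roots.toFinset.card : ℕ) : ENNReal)
              ∂(Measure.pi fun _ : Fin (n + 1) => μ)).toReal
            - 2 / Real.pi * Real.log (n : ℝ))
        atTop (𝓝 C) := by
  intro μ _ hint hmean hvar
  obtain ⟨h1, -, -, L, -, h2⟩ :=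
    Pool.Agent.Results.MP_5fc11c_pr.KacConstant.result μ hint hmean hvar
  refine ⟨_, h2.congr fun n => ?_⟩
  congr 1
  have hext : Measurable (fun (c : Fin (n + 1) → ℝ) (k : ℕ) => if h : k < n + 1 then c ⟨k, h⟩ else 0) := by
    apply measurable_pi_lambda
    intro k
    by_cases h : k < n + 1
    · simp only [dif_pos h]
      exact measurable_pi_apply _
    · simp only [dif_neg h]
      exact measurable_const
  have hmeas : Measurable (fun c : Fin (n + 1) → ℝ =>
      ((∑ k : Fin (n + 1), Polynomial.C (c k) * Polynomial.X ^ (k : ℕ)).roots.toFinset.card : ℕ)) := by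
    have hm : Measurable (fun ω : ℕ → ℝ => Kac764.nz (Kac764.kac n ω) Set.univ) :=
      Kac764.H4.measurable_nz_set n Set.univ (Or.inl rfl)
    have hm2 := hm.comp hext
    convert hm2 using 2 with c
    simp only [Function.comp]
    rw [← numRealRoots_eq, ← kacPoly_eq, ← kac_fin]
    unfold numRealRoots
    congr 3
    apply Finset.sum_congr rfl
    intro k _
    rw [dif_pos k.2]
  rw [← map_restrict_eq μ (n + 1), lintegral_map]
  · unfold expectedRoots iidLaw
    rw [integral_eq_lintegral_of_nonneg_ae]
    · congr 1
      apply lintegral_congr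
      intro ξ
      rw [kac_fin]
      unfold numRealRoots
      rw [ENNReal.ofReal_natCast]
    · filter_upwards with ξ
      positivity
    · exact (h1 n).aestronglyMeasurable
  · exact measurable_from_top.comp hmeas
  · fun_prop


end Pool.Agent.S19353
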