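import Pool.Statements.S19403
import Pool.Agent.N940.TSP.Clt
import Pool.Agent.N940.TSP.CutB

set_option autoImplicit false
open MeasureTheory
open Pool Pool.MP_72f242_pr

namespace Pool.Agent.S19403

/-- There are constants a_n and b_n > 0 such that, for n i.i.d. uniform points in the unit square, (shortest closed Euclidean tour length − a_n)/b_n converges in distribution to a standard normal. -/
theorem result :
    ∃ a b : ℕ → ℝ, (∀ n, 0 < b n) ∧ ∀ t : ℝ,
      Filter.Tendsto (fun n : ℕ =>
        (Measure.pi (fun _ : Fin n =>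
            (volume : Measure (Fin 2 → ℝ)).restrict (Set.Icc (0 : Fin 2 → ℝ) 1))
          {x : Fin n → Fin 2 → ℝ |
            ((⨅ σ : Equiv.Perm (Fin n), ∑ i : Fin n,
                Real.sqrt ((x (σ i) 0 - x (σ (finRotate n i)) 0) ^ 2
                  + (x (σ i) 1 - x (σ (finRotate n i)) 1) ^ 2)) - a n) / b n ≤ t}).toReal)
        Filter.atTop
        (nhds ((ProbabilityTheory.gaussianReal 0 1 (Set.Iic t)).toReal)) := Pool.Agent.N940.TSP.clt_of_cut Pool.Agent.N940.TSP.CutB.main

end Pool.Agent.S19403
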