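import Pool.Statements.S19444
import Pool.Agent.N935.DR.Final

set_option autoImplicit false
open Filter Topology
open Pool Pool.MP_85987b_pr

namespace Pool.Agent.S19444

/-- The negation of the preceding statement: For integer m≥2 and any law of X_0 on ℕ with P(X_0=0)>0 and (m−1)E(X_0 m^X_0)=E(m^X_0)<∞, where X_{n+1} is (sum of m iid copies of X_n minus 1)^+: for all s in (0,m), s≠1, (E s^X_n − 1) divided by 4m/(m−1)²·(s−1)/(m−s)/n² tends to 1. -/
theorem result :
    ¬ (∀ (m : ℕ), 2 ≤ m → ∀ p : ℕ → ℕ → ℝ,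
      (∀ k, 0 ≤ p 0 k) → HasSum (p 0) 1 →
      (∀ n k, p (n + 1) k =
          (∑ x : Fin m → Fin (k + 2),
              if (∑ i, (x i : ℕ)) = k + 1 then ∏ i, p n (x i) else 0)
          + (if k = 0 then p n 0 ^ m else 0)) →
      Summable (fun k : ℕ => p 0 k * (m : ℝ) ^ k) →
      Summable (fun k : ℕ => (k : ℝ) * p 0 k * (m : ℝ) ^ k) →
      ((m : ℝ) - 1) * (∑' k : ℕ, (k : ℝ) * p 0 k * (m : ℝ) ^ k)
          = ∑' k : ℕ, p 0 k * (m : ℝ) ^ k →
      0 < p 0 0 →
      ∀ s : ℝ, 0 < s → s < (m : ℝ) → s ≠ 1 →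
        Tendsto
          (fun n : ℕ =>
            ((∑' k : ℕ, p n k * s ^ k) - 1) /
              (4 * (m : ℝ) / (((m : ℝ) - 1) ^ 2) * ((s - 1) / ((m : ℝ) - s)) / ((n : ℝ) ^ 2)))
          atTop (𝓝 1)) := by
  intro H
  have h1 := H 2 le_rfl Pool.Agent.N935.DR.pp (Pool.Agent.N935.DR.pp_nonneg 0)
    (Pool.Agent.N935.DR.pp_hasSum 0) (fun n k => rfl)
    (by
      have := (Pool.Agent.N935.DR.uu_crit 0).sum.summable
      refine this.congr fun k => ?_
      unfold Pool.Agent.N935.DR.uu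
      push_cast
      ring)
    (by
      have := (Pool.Agent.N935.DR.uu_crit 0).crit.summable
      refine this.congr fun k => ?_
      unfold Pool.Agent.N935.DR.uu
      push_cast
      ring)
    (by
      have h2 := (Pool.Agent.N935.DR.uu_crit 0).sum.tsum_eq
      have h3 := (Pool.Agent.N935.DR.uu_crit 0).crit.tsum_eq
      have e1 : ∑' k : ℕ, (k : ℝ) * Pool.Agent.N935.DR.pp 0 k * ((2:ℕ) : ℝ) ^ k =
          Pool.Agent.N935.DR.AA 0 := by
        rw [← h3]
        refine tsum_congr fun k => ?_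
        unfold Pool.Agent.N935.DR.uu
        push_cast
        ring
      have e2 : ∑' k : ℕ, Pool.Agent.N935.DR.pp 0 k * ((2:ℕ) : ℝ) ^ k =
          Pool.Agent.N935.DR.AA 0 := by
        rw [← h2]
        refine tsum_congr fun k => ?_
        unfold Pool.Agent.N935.DR.uu
        push_cast
        ring
      rw [e1, e2]
      push_cast
      ring)
    (Pool.Agent.N935.DR.pp_zero_pos 0) (1 / 4) (by norm_num) (by norm_num) (by norm_num)
  apply Pool.Agent.N935.DR.no_lower
  have h2 := h1.eventually (lt_mem_nhds (show (97 / 100 : ℝ) < 1 by norm_num))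
  filter_upwards [h2, eventually_ge_atTop 1] with n hn hn1
  have hn0 : (0:ℝ) < n := by exact_mod_cast hn1
  have hn2 : (0:ℝ) < (n:ℝ) ^ 2 := by positivity
  -- the generating function is at least the mass at zero
  have hnn := Pool.Agent.N935.DR.pp_nonneg n
  have hsum : Summable fun k : ℕ => Pool.Agent.N935.DR.pp n k * (1 / 4 : ℝ) ^ k := by
    refine (Pool.Agent.N935.DR.pp_hasSum n).summable.of_nonneg_of_le
      (fun k => mul_nonneg (hnn k) (by positivity)) fun k => ?_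
    exact mul_le_of_le_one_right (hnn k) (pow_le_one₀ (by norm_num) (by norm_num))
  have hge : Pool.Agent.N935.DR.pp n 0 ≤
      ∑' k : ℕ, Pool.Agent.N935.DR.pp n k * (1 / 4 : ℝ) ^ k := by
    have := hsum.sum_le_tsum {0} (fun k _ => mul_nonneg (hnn k) (by positivity))
    simpa using this
  set G := ∑' k : ℕ, Pool.Agent.N935.DR.pp n k * (1 / 4 : ℝ) ^ k with hG
  have e3 : (4 * ((2:ℕ) : ℝ) / ((((2:ℕ) : ℝ) - 1) ^ 2) * ((1 / 4 - 1) / (((2:ℕ) : ℝ) - 1 / 4)) /
      ((n : ℝ) ^ 2)) = -(24 / 7 / (n:ℝ) ^ 2) := by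
    push_cast
    field_simp
    norm_num
  rw [e3, div_neg, lt_neg, div_lt_iff₀ (by positivity)] at hn
  have e4 : Pool.Agent.N935.DR.uu n 0 = Pool.Agent.N935.DR.pp n 0 := by
    simp [Pool.Agent.N935.DR.uu]
  rw [e4]
  have h5 : 33 / 10 / (n:ℝ) ^ 2 ≤ 97 / 100 * (24 / 7 / (n:ℝ) ^ 2) := by
    rw [← mul_div_assoc]
    apply div_le_div_of_nonneg_right _ hn2.le
    norm_num
  linarith

end Pool.Agent.S19444
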