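import Pool.Statements.S19473
import Pool.Agent.N659.IRP.Final

set_option autoImplicit false
open Pool Pool.MP_8fbdb2_pr

namespace Pool.Agent.S19473

/-- For some finite generating set of SL_3(Z), there is a left-invariant random partition of the group which almost surely has infinitely many parts, each infinite, each connected in the Cayley graph, and each adjacent to only finitely many parts. -/
theorem result :
    ∃ S : Finset (Matrix.SpecialLinearGroup (Fin 3) ℤ),
      Subgroup.closure (S : Set (Matrix.SpecialLinearGroup (Fin 3) ℤ)) = ⊤ ∧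
      ∃ μ : MeasureTheory.Measure
          (Matrix.SpecialLinearGroup (Fin 3) ℤ → Matrix.SpecialLinearGroup (Fin 3) ℤ → Bool),
        MeasureTheory.IsProbabilityMeasure μ ∧
        (∀ γ : Matrix.SpecialLinearGroup (Fin 3) ℤ,
          μ.map (fun r g h => r (γ⁻¹ * g) (γ⁻¹ * h)) = μ) ∧
        ∀ᵐ r ∂μ,
          Equivalence (fun g h => r g h = true) ∧
          (Set.range (fun g : Matrix.SpecialLinearGroup (Fin 3) ℤ =>
              {h : Matrix.SpecialLinearGroup (Fin 3) ℤ | r g h = true})).Infinite ∧
          (∀ g : Matrix.SpecialLinearGroup (Fin 3) ℤ,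
              {h : Matrix.SpecialLinearGroup (Fin 3) ℤ | r g h = true}.Infinite) ∧
          (∀ g : Matrix.SpecialLinearGroup (Fin 3) ℤ,
              ((SimpleGraph.fromRel
                  (fun a b : Matrix.SpecialLinearGroup (Fin 3) ℤ => a⁻¹ * b ∈ S)).induce
                {h : Matrix.SpecialLinearGroup (Fin 3) ℤ | r g h = true}).Connected) ∧
          (∀ g : Matrix.SpecialLinearGroup (Fin 3) ℤ,
              ((fun y : Matrix.SpecialLinearGroup (Fin 3) ℤ =>
                  {h : Matrix.SpecialLinearGroup (Fin 3) ℤ | r y h = true}) ''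
                {y : Matrix.SpecialLinearGroup (Fin 3) ℤ | ∃ x : Matrix.SpecialLinearGroup (Fin 3) ℤ,
                  r g x = true ∧
                  (SimpleGraph.fromRel
                    (fun a b : Matrix.SpecialLinearGroup (Fin 3) ℤ => a⁻¹ * b ∈ S)).Adj x y}).Finite) := by
  exact Pool.Agent.N659.IRP.main

end Pool.Agent.S19473
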