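import Pool.Statements.S19573
import Pool.Agent.N940.TSP.Lim
import Pool.Agent.N940.TSP.CutB

set_option autoImplicit false
open Pool Pool.MP_b3ccf3_pr

namespace Pool.Agent.S19573

/-- There is a real c such that the variance of the shortest closed Euclidean tour through n independent uniform random points in the unit square tends to c as n goes to infinity. -/
theorem result :
    ∃ c : ℝ, Filter.Tendsto
      (fun n : ℕ => ProbabilityTheory.variance
        (fun x : Fin n → ℝ × ℝ =>
          ⨅ σ : Equiv.Perm (Fin n), ∑ i : Fin n,
            Real.sqrt (((x (σ i)).1 - (x (σ (finRotate n i))).1) ^ 2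
              + ((x (σ i)).2 - (x (σ (finRotate n i))).2) ^ 2))
        (MeasureTheory.volume.restrict
          (Set.univ.pi fun _ : Fin n => Set.Icc (0:ℝ) 1 ×ˢ Set.Icc (0:ℝ) 1)))
      Filter.atTop (nhds c) := Pool.Agent.N940.TSP.lim_of_cut Pool.Agent.N940.TSP.CutB.main

end Pool.Agent.S19573
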