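import Pool.Statements.S19658
import Pool.Agent.H57R2.PU.Main

set_option autoImplicit false
open MeasureTheory
open Pool Pool.MP_d2b88b_pr

namespace Pool.Agent.S19658

/-- The negation of the preceding statement: For every connected bounded-degree graph quasi-isometric to Z^d and every p in [0,1], in Bernoulli bond percolation with parameter p, almost surely any two infinite open clusters are equal. -/
theorem result :
    ¬ (∀ (d : ℕ) (V : Type) (G : SimpleGraph V), G.Connected →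
    (∃ D : ℕ, ∀ v : V, (G.neighborSet v).encard ≤ (D : ℕ∞)) →
    (∃ (f : V → (Fin d → ℤ)) (C K : ℕ),
        (∀ x y : V,
          (∑ i, |f x i - f y i|) ≤ (C : ℤ) * (G.dist x y : ℤ) + (K : ℤ) ∧
          (G.dist x y : ℤ) ≤ (C : ℤ) * (∑ i, |f x i - f y i|) + (K : ℤ)) ∧
        ∀ z : Fin d → ℤ, ∃ x : V, (∑ i, |z i - f x i|) ≤ (K : ℤ)) →
    ∀ (p : NNReal) (hp : p ≤ 1),
      ∀ᵐ ω ∂(Measure.infinitePi (fun _ : G.edgeSet => (PMF.bernoulli p hp).toMeasure)),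
        ∀ c₁ c₂ : (SimpleGraph.fromEdgeSet
            {e : Sym2 V | ∃ h : e ∈ G.edgeSet, ω ⟨e, h⟩ = true}).ConnectedComponent,
          c₁.supp.Infinite → c₂.supp.Infinite → c₁ = c₂) := by
  intro hall
  obtain ⟨T, p, hp, hp0, hp1, hpos⟩ := Pool.Agent.H57R2.PU.nonuniq 6 le_rfl
  have key := hall 7 (Pool.Agent.H57R2.PU.Vx 6) (Pool.Agent.H57R2.PU.GG 6 T)
    (Pool.Agent.H57R2.PU.conn 6 T)
    ⟨(4 * 6 + 3) ^ (6 + 1), Pool.Agent.H57R2.PU.deg 6 T⟩
    ⟨fun v => Fin.cons v.2 v.1, 2 * 6 + 1, 0, ?_, ?_⟩ p hp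
  · rw [ae_iff] at key
    have hset : {ω : (Pool.Agent.H57R2.PU.GG 6 T).edgeSet → Bool |
        ¬ ∀ c₁ c₂ : (SimpleGraph.fromEdgeSet
            {e : Sym2 (Pool.Agent.H57R2.PU.Vx 6) | ∃ h : e ∈ (Pool.Agent.H57R2.PU.GG 6 T).edgeSet,
              ω ⟨e, h⟩ = true}).ConnectedComponent,
          c₁.supp.Infinite → c₂.supp.Infinite → c₁ = c₂} =
        Pool.Agent.H57R2.PU.Two (Pool.Agent.H57R2.PU.GG 6 T) := by
      ext ω
      constructor
      · intro h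
        have h' := h
        simp only [Set.mem_setOf_eq] at h'
        push Not at h'
        obtain ⟨c₁, c₂, h1, h2, h3⟩ := h'
        exact ⟨c₁, c₂, h1, h2, h3⟩
      · rintro ⟨c₁, c₂, h1, h2, h3⟩ h
        exact h3 (h c₁ c₂ h1 h2)
    rw [hset] at key
    have hpos' := hpos
    unfold Pool.Agent.H57R2.PU.mu at hpos'
    exact absurd key hpos'.ne'
  · intro x y
    have h1 : ∑ i, |(Fin.cons x.2 x.1 : Fin (6 + 1) → ℤ) i - (Fin.cons y.2 y.1 : Fin (6 + 1) → ℤ) i|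
        = Pool.Agent.H57R2.PU.nrm (x - y) := by
      rw [Fin.sum_univ_succ]
      simp [Pool.Agent.H57R2.PU.nrm]
    have h2 := Pool.Agent.H57R2.PU.nrm_le_dist (T := T) x y
    have h3 := Pool.Agent.H57R2.PU.dist_le (T := T) x y
    have h4 := Pool.Agent.H57R2.PU.nrm_nonneg (x - y)
    show (∑ i, |(Fin.cons x.2 x.1 : Fin (6 + 1) → ℤ) i -
      (Fin.cons y.2 y.1 : Fin (6 + 1) → ℤ) i|) ≤ _ ∧ _ ≤ _ * (∑ i, |(Fin.cons x.2 x.1 :
        Fin (6 + 1) → ℤ) i - (Fin.cons y.2 y.1 : Fin (6 + 1) → ℤ) i|) + _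
    rw [h1]
    push_cast
    push_cast at h2
    refine ⟨by linarith, ?_⟩
    nlinarith
  · intro z
    refine ⟨(fun i => z i.succ, z 0), ?_⟩
    have : (Fin.cons (z 0) (fun i : Fin 6 => z i.succ) : Fin (6 + 1) → ℤ) = z :=
      Fin.cons_self_tail z
    show (∑ i, |z i - (Fin.cons (z 0) (fun i : Fin 6 => z i.succ) : Fin (6 + 1) → ℤ) i|) ≤ _
    rw [this]
    simp

end Pool.Agent.S19658
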