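import Pool.Statements.S19664
import Pool.Agent.N935.Kik.NegTwo

set_option autoImplicit false
open Matrix MeasureTheory ProbabilityTheory
open Pool Pool.MP_d47e08_pr

namespace Pool.Agent.S19664

/-- The negation of the preceding statement: For every even r≥2 and every δ>0, for all large ℓ and every μ>δ, some ε>0 gives, for all large n, E λmax of the Kikuchi matrix at signal μ n^(-r/4) ≥ (1+ε) times E λmax at zero signal; i.e. the threshold tends to 0. -/
theorem result :
    ¬ (∀ r : ℕ, 2 ≤ r → Even r →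
    ∀ δ : ℝ, 0 < δ →
      ∀ᶠ ℓ : ℕ in Filter.atTop, ∀ μ : ℝ, δ < μ →
        ∃ ε : ℝ, 0 < ε ∧ ∀ᶠ n : ℕ in Filter.atTop,
          1 + ε ≤
            (∫ (Z : Finset (Fin n) → ℝ),
                sSup {t : ℝ | ∃ v : {K : Finset (Fin n) // K.card = ℓ} → ℝ,
                  dotProduct v v = 1 ∧
                  t = dotProduct v (Matrix.mulVec
                    (Matrix.of fun I J : {K : Finset (Fin n) // K.card = ℓ} =>
                      if (symmDiff I.1 J.1).card = r
                      then μ * (n : ℝ) ^ (-(r : ℝ) / 4) + Z (symmDiff I.1 J.1)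
                      else 0) v)}
              ∂(Measure.pi fun _ : Finset (Fin n) => gaussianReal 0 1))
            /
            (∫ (Z : Finset (Fin n) → ℝ),
                sSup {t : ℝ | ∃ v : {K : Finset (Fin n) // K.card = ℓ} → ℝ,
                  dotProduct v v = 1 ∧
                  t = dotProduct v (Matrix.mulVec
                    (Matrix.of fun I J : {K : Finset (Fin n) // K.card = ℓ} =>
                      if (symmDiff I.1 J.1).card = r
                      then (0 : ℝ) + Z (symmDiff I.1 J.1)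
                      else 0) v)}
              ∂(Measure.pi fun _ : Finset (Fin n) => gaussianReal 0 1))) := by
  intro H
  have h1 := H 2 le_rfl (by decide) (1/4) (by norm_num)
  obtain ⟨ℓ, hℓ, hℓ1⟩ := (h1.and (Filter.eventually_ge_atTop 1)).exists
  obtain ⟨ε, hε, hev⟩ := hℓ (1/2) (by norm_num)
  obtain ⟨n, hn1, hn2⟩ := (hev.and (Pool.Agent.N935.Kik.no_gap_two ℓ hℓ1 ε hε)).exists
  have e1 : ∀ Z : Finset (Fin n) → ℝ, sSup {t : ℝ | ∃ v : {K : Finset (Fin n) // K.card = ℓ} → ℝ,
      dotProduct v v = 1 ∧ t = dotProduct v (Matrix.mulVec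
        (Matrix.of fun I J : {K : Finset (Fin n) // K.card = ℓ} =>
          if (symmDiff I.1 J.1).card = 2
          then (1/2 : ℝ) * (n : ℝ) ^ (-((2:ℕ) : ℝ) / 4) + Z (symmDiff I.1 J.1) else 0) v)} =
      Pool.Agent.N935.Kik.X n ℓ 2 (fun S => (1/2 : ℝ) * (n:ℝ) ^ (-((2:ℕ):ℝ) / 4) + Z S) :=
    fun Z => Pool.Agent.N935.Kik.X_eq n ℓ 2 (fun S => (1/2 : ℝ) * (n:ℝ) ^ (-((2:ℕ):ℝ) / 4) + Z S)
  have e2 : ∀ Z : Finset (Fin n) → ℝ, sSup {t : ℝ | ∃ v : {K : Finset (Fin n) // K.card = ℓ} → ℝ,
      dotProduct v v = 1 ∧ t = dotProduct v (Matrix.mulVec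
        (Matrix.of fun I J : {K : Finset (Fin n) // K.card = ℓ} =>
          if (symmDiff I.1 J.1).card = 2
          then (0 : ℝ) + Z (symmDiff I.1 J.1) else 0) v)} =
      Pool.Agent.N935.Kik.X n ℓ 2 Z := by
    intro Z
    have := Pool.Agent.N935.Kik.X_eq n ℓ 2 (fun S => (0 : ℝ) + Z S)
    rw [this]
    congr 1
    funext S
    exact zero_add _
  simp only [e1, e2] at hn1
  exact absurd hn1 (not_le.mpr hn2)

end Pool.Agent.S19664
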