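import Pool.Statements.S19761
import Pool.Agent.N940.MM.Asm
import Pool.Agent.N940.MM.Poi
import Pool.Agent.N940.MM.Glue
import Pool.Agent.N940.MM.Fin
import Pool.Agent.N940.MM.Vlb
import Pool.Agent.N940.MM.Flip
import Pool.Agent.N940.MM.Geo1
import Pool.Agent.N940.MM.Geo2
import Pool.Agent.N940.MM.Dep

set_option autoImplicit false
open MeasureTheory ProbabilityTheory Filter Topology
open Pool Pool.MP_fb8750_pr

namespace Pool.Agent.S19761

/-- For i.i.d. uniform points in the unit square, let M be the minimal total Euclidean length of a perfect matching of the first 2k points. Then there are constants a_k and b_k > 0 such that (M − a_k)/b_k converges in distribution to a standard normal. -/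
theorem result :
  ∀ (Ω : Type) [MeasurableSpace Ω] (P : Measure Ω) [IsProbabilityMeasure P]
    (X : ℕ → Ω → ℝ × ℝ),
    (∀ i, Measurable (X i)) → iIndepFun X P →
    (∀ i, P.map (X i) = volume.restrict (Set.Icc (0:ℝ) 1 ×ˢ Set.Icc (0:ℝ) 1)) →
    ∃ a b : ℕ → ℝ, (∀ k, 0 < b k) ∧
      ∀ f : BoundedContinuousFunction ℝ ℝ,
        Tendsto (fun k : ℕ => ∫ ω, f (((⨅ σ : {σ : Equiv.Perm (Fin (2 * k)) //
              (∀ i, σ (σ i) = i) ∧ ∀ i, σ i ≠ i},
            (1/2 : ℝ) * ∑ i : Fin (2 * k),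
              Real.sqrt (((X i.val ω).1 - (X (σ.1 i).val ω).1) ^ 2
                + ((X i.val ω).2 - (X (σ.1 i).val ω).2) ^ 2)) - a k) / b k) ∂P)
          atTop (𝓝 (∫ x, f x ∂(gaussianReal 0 1))) := by
  exact Pool.Agent.N940.MM.asm Pool.Agent.N940.MM.Geo1.mix Pool.Agent.N940.MM.Geo2.crude
    Pool.Agent.N940.MM.Geo2.move Pool.Agent.N940.MM.Geo2.add Pool.Agent.N940.MM.Flip.main
    Pool.Agent.N940.MM.Glue.snake Pool.Agent.N940.MM.Glue.glue Pool.Agent.N940.MM.Poi.poi
    Pool.Agent.N940.MM.Poi.avg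
    (Pool.Agent.N940.MM.Vlb.main Pool.Agent.N940.MM.Geo1.low Pool.Agent.N940.MM.Geo2.crude)
    Pool.Agent.N940.MM.Dep.main
    (Pool.Agent.N940.MM.FinStep.main Pool.Agent.N940.MM.Geo2.lip Pool.Agent.N940.MM.Geo2.img
      Pool.Agent.N940.MM.Geo2.inv)

end Pool.Agent.S19761
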